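import Pool.Agent.Mg.F655169.Gdbabcc
import Mathlib

section

set_option linter.unusedSectionVars false

namespace Pool.Agent.MP_655169_nt

open Polynomial Filter Topology

variable {F C Ω : Type*} [Field F] [Fintype F] [NormedField C] [IsUltrametricDist C]
  [IsAlgClosed C] [Algebra F C] [NormedField Ω] [IsUltrametricDist Ω] [IsAlgClosed Ω]
  [Algebra C Ω] [Algebra F Ω] [IsScalarTower F C Ω] (Z : Sit F C Ω)

section

variable {A ι : Type*} [CommRing A]

/-- Translation of the variables. -/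
noncomputable def Inv_rho (b : ι → A) : MvPolynomial ι A →ₐ[A] MvPolynomial ι A :=
  MvPolynomial.aeval fun i => MvPolynomial.C (b i) + MvPolynomial.X i

/-- Scaling of the variables. -/
noncomputable def Inv_tau (s : A) : MvPolynomial ι A →ₐ[A] MvPolynomial ι A :=
  MvPolynomial.aeval fun i => MvPolynomial.C s * MvPolynomial.X i

theorem Inv_tau_coeff (s : A) (P : MvPolynomial ι A) (e : ι →₀ ℕ) :
    (Inv_tau s P).coeff e = s ^ e.degree * P.coeff e := by
  classical
  induction P using MvPolynomial.induction_on generalizing e with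
  | C a =>
    rw [Inv_tau, MvPolynomial.aeval_C, MvPolynomial.algebraMap_eq, MvPolynomial.coeff_C]
    split_ifs with h
    · simp [← h]
    · simp
  | add p q hp hq => simp [hp, hq, mul_add]
  | mul_X p i hp =>
    have h : Inv_tau s (MvPolynomial.X i : MvPolynomial ι A) =
        MvPolynomial.C s * MvPolynomial.X i := MvPolynomial.aeval_X _ _
    rw [map_mul, h, mul_left_comm, MvPolynomial.coeff_C_mul, MvPolynomial.coeff_mul_X',
      MvPolynomial.coeff_mul_X']
    split_ifs with hi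
    · have : e.degree = (e - Finsupp.single i 1).degree + 1 := by
        conv_lhs => rw [← Finsupp.sub_add_single_one_cancel (Finsupp.mem_support_iff.1 hi)]
        simp
      rw [hp, this]; ring
    · simp

theorem Inv_rho_neg (b : ι → A) (P : MvPolynomial ι A) : Inv_rho (-b) (Inv_rho b P) = P := by
  have : (Inv_rho (-b)).comp (Inv_rho b) = AlgHom.id A (MvPolynomial ι A) := by
    ext1 i; simp [Inv_rho]
  exact DFunLike.congr_fun this P

theorem Inv_rho_mono (b : ι → A) (a : A) (n : ℕ) : ∀ m e : ι →₀ ℕ, m.degree = n → n ≤ e.degree →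
    (Inv_rho b (MvPolynomial.monomial m a)).coeff e = (MvPolynomial.monomial m a).coeff e := by
  classical
  induction n with
  | zero =>
    intro m e hm _
    rw [(Finsupp.degree_eq_zero_iff m).1 hm, MvPolynomial.monomial_zero', Inv_rho,
      MvPolynomial.aeval_C, MvPolynomial.algebraMap_eq]
  | succ n ih =>
    intro m e hm he
    have hm0 : m ≠ 0 := by rintro rfl; simp at hm
    obtain ⟨i, hi⟩ := Finsupp.ne_iff.1 hm0
    obtain ⟨m', rfl⟩ : ∃ m', m = m' + Finsupp.single i 1 :=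
      ⟨_, (Finsupp.sub_add_single_one_cancel hi).symm⟩
    have hm' : m'.degree = n := by simpa using hm
    have h : Inv_rho b (MvPolynomial.X i : MvPolynomial ι A) =
        MvPolynomial.C (b i) + MvPolynomial.X i := MvPolynomial.aeval_X _ _
    have hne : m' ≠ e := by rintro rfl; omega
    rw [MvPolynomial.monomial_add_single, pow_one, map_mul, h, mul_add, MvPolynomial.coeff_add,
      mul_comm _ (MvPolynomial.C _), MvPolynomial.coeff_C_mul, ih m' e hm' (by omega),
      MvPolynomial.coeff_monomial, if_neg hne, mul_zero, zero_add, MvPolynomial.coeff_mul_X',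
      MvPolynomial.coeff_mul_X']
    split_ifs with hi
    · have : e.degree = (e - Finsupp.single i 1).degree + 1 := by
        conv_lhs => rw [← Finsupp.sub_add_single_one_cancel (Finsupp.mem_support_iff.1 hi)]
        simp
      exact ih m' _ hm' (by omega)
    · rfl

theorem Inv_rho_top (b : ι → A) (P : MvPolynomial ι A) (e : ι →₀ ℕ)
    (he : P.totalDegree ≤ e.degree) : (Inv_rho b P).coeff e = P.coeff e := by
  conv_lhs => rw [P.as_sum]
  conv_rhs => rw [P.as_sum]
  rw [map_sum, MvPolynomial.coeff_sum, MvPolynomial.coeff_sum]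
  exact Finset.sum_congr rfl fun m hm =>
    Inv_rho_mono b _ _ m e rfl ((MvPolynomial.le_totalDegree hm).trans he)

theorem Inv_coeff_zero {P : MvPolynomial ι A} {e : ι →₀ ℕ} (he : P.totalDegree < e.degree) :
    P.coeff e = 0 := MvPolynomial.coeff_eq_zero_of_totalDegree_lt he

theorem Inv_deg_le {P : MvPolynomial ι A} {k : ℕ}
    (h : ∀ e : ι →₀ ℕ, k < e.degree → P.coeff e = 0) : P.totalDegree ≤ k :=
  Finset.sup_le fun e he => not_lt.1 fun hk => MvPolynomial.mem_support_iff.1 he (h e hk)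

theorem Inv_map_deg {B : Type*} [CommRing B] (f : A →+* B) (P : MvPolynomial ι A) :
    (MvPolynomial.map f P).totalDegree ≤ P.totalDegree :=
  Inv_deg_le fun e he => by rw [MvPolynomial.coeff_map, Inv_coeff_zero he, map_zero]

theorem Inv_rho_deg (b : ι → A) (P : MvPolynomial ι A) :
    (Inv_rho b P).totalDegree ≤ P.totalDegree :=
  Inv_deg_le fun e he => by rw [Inv_rho_top b P e he.le, Inv_coeff_zero he]

theorem Inv_rho_dvd (b : ι → A) (P : MvPolynomial ι A) (c : A)
    (h : ∀ e, c ∣ (Inv_rho b P).coeff e) (e : ι →₀ ℕ) : c ∣ P.coeff e := by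
  obtain ⟨Q, hQ⟩ := (MvPolynomial.C_dvd_iff_dvd_coeff c _).2 h
  rw [← Inv_rho_neg b P, hQ, map_mul, Inv_rho, MvPolynomial.aeval_C, MvPolynomial.algebraMap_eq,
    MvPolynomial.coeff_C_mul]
  exact dvd_mul_right _ _

theorem Inv_dvd {B κ : Type*} [CommRing B] [IsDomain B] [GCDMonoid B] {a c : B} (hc : c ≠ 0)
    (r : κ → B) (hr : ∀ x, (∀ e, x ∣ r e) → IsUnit x) (h : ∀ e, a ∣ c * r e) : a ∣ c := by
  obtain ⟨x, hx⟩ := gcd_dvd_left a c
  have hg : gcd a c ≠ 0 := fun h => hc ((gcd_eq_zero_iff _ _).1 h).2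
  have hu : IsUnit x := hr x fun e =>
    (mul_dvd_mul_iff_left hg).1 (hx ▸ dvd_gcd_mul_of_dvd_mul (h e))
  exact dvd_trans (by nth_rewrite 1 [hx]; exact hu.mul_right_dvd.2 dvd_rfl) (gcd_dvd_right a c)

theorem Inv_min {α : Type*} (p : α → Prop) (f : α → ℕ) (h : ∃ a, p a) :
    ∃ a, p a ∧ ∀ b, p b → f a ≤ f b := by
  obtain ⟨a, ha, hm⟩ := (measure f).wf.has_min {a | p a} h
  exact ⟨a, ha, fun b hb => not_lt.1 (hm b hb)⟩

end

namespace Sit

variable {ι : Type*}

theorem Inv_sgt_eq (al : ι → C) (P : MvPolynomial ι C[X]) : Z.sgt al P =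
    Inv_tau Z.ss (Inv_rho (fun i => Polynomial.C (al i)) (MvPolynomial.map (Z.tw 1) P)) := by
  induction P using MvPolynomial.induction_on with
  | C a => simp [sgt, Inv_tau, Inv_rho]
  | add p q hp hq =>
    rw [map_add, map_add, map_add, ← hp, ← hq]; exact MvPolynomial.eval₂_add ..
  | mul_X p i hp =>
    rw [map_mul, map_mul, map_mul, ← hp, sgt, MvPolynomial.eval₂_mul]
    simp [sgt, Inv_tau, Inv_rho]

theorem Inv_sgt_coeff (al : ι → C) (P : MvPolynomial ι C[X]) (e : ι →₀ ℕ) :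
    (Z.sgt al P).coeff e = Z.ss ^ e.degree *
      (Inv_rho (fun i => Polynomial.C (al i)) (MvPolynomial.map (Z.tw 1) P)).coeff e := by
  rw [Inv_sgt_eq, Inv_tau_coeff]

theorem Inv_FF_C_mul (y : ι → Ω) (c : C[X]) (P : MvPolynomial ι C[X]) :
    Z.FF y (MvPolynomial.C c * P) = aeval Z.t c * Z.FF y P := by
  simp [FF]

theorem Inv_prim (al : ι → C) (P : MvPolynomial ι C[X])
    (hP : ∀ c : C[X], (∀ e, c ∣ P.coeff e) → IsUnit c) (c : C[X])
    (h : ∀ e, c ∣ (Inv_rho (fun i => Polynomial.C (al i))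
      (MvPolynomial.map (Z.tw 1) P)).coeff e) : IsUnit c := by
  obtain ⟨c', rfl⟩ := Z.tw_bij.2 c
  refine (hP c' fun e => ?_).map _
  obtain ⟨r, hr⟩ := Inv_rho_dvd _ _ _ h e
  obtain ⟨r', rfl⟩ := Z.tw_bij.2 r
  rw [MvPolynomial.coeff_map, ← map_mul] at hr
  exact ⟨r', Z.tw_bij.1 hr⟩

theorem FF_sgt (y : ι → Ω) (al : ι → C) (hy : ∀ i, Z.Sol (al i) (y i))
    (P : MvPolynomial ι C[X]) : Z.FF y (Z.sgt al P) = Z.σ (Z.FF y P) := by
  induction P using MvPolynomial.induction_on with
  | C a => simp [sgt, FF, σ_aeval]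
  | add p q hp hq =>
    simp only [sgt, FF, MvPolynomial.eval₂_add, map_add] at hp hq ⊢
    rw [hp, hq]
  | mul_X p i hp =>
    simp only [sgt, FF, MvPolynomial.eval₂_mul, map_mul, MvPolynomial.eval₂_X,
      MvPolynomial.eval₂_add, MvPolynomial.eval₂_C] at hp ⊢
    rw [hp, hy i]
    simp [ss]

theorem sgt_deg (al : ι → C) (P : MvPolynomial ι C[X]) :
    (Z.sgt al P).totalDegree ≤ P.totalDegree := by
  refine Inv_deg_le fun e he => ?_
  rw [Inv_sgt_coeff, Inv_coeff_zero (((Inv_rho_deg _ _).trans (Inv_map_deg _ _)).trans_lt he),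
    mul_zero]

theorem sgt_top (al : ι → C) (P : MvPolynomial ι C[X]) (k : ℕ) (hk : P.totalDegree ≤ k)
    (e : ι →₀ ℕ) (he : e.degree = k) :
    (Z.sgt al P).coeff e = Z.ss ^ k * Z.tw 1 (P.coeff e) := by
  rw [Inv_sgt_coeff, Inv_rho_top _ _ _ ((Inv_map_deg _ _).trans (he ▸ hk)), he,
    MvPolynomial.coeff_map]

theorem Inv_inv (y : ι → Ω) (al : ι → C) (hy : ∀ i, Z.Sol (al i) (y i))
    (P : MvPolynomial ι C[X]) (rel : Z.FF y P = 0)
    (top : ∀ R, Z.FF y R = 0 → R.totalDegree ≤ P.totalDegree →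
      (∀ e : ι →₀ ℕ, e.degree = P.totalDegree → P.coeff e = 0 → R.coeff e = 0) →
      ∀ e0 : ι →₀ ℕ, e0.degree = P.totalDegree → P.coeff e0 ≠ 0 → R.coeff e0 = 0 → R = 0)
    (prim : ∀ c : C[X], (∀ e, c ∣ P.coeff e) → IsUnit c) (e0 : ι →₀ ℕ)
    (he0 : e0.degree = P.totalDegree) (hc : (P.coeff e0).Monic) :
    Z.sgt al P = MvPolynomial.C (Z.ss ^ P.totalDegree) * P := by
  classical
  set c := P.coeff e0 with hcd
  set d := P.totalDegree
  have hs : Z.ss ≠ 0 := X_sub_C_ne_zero _
  have hR : MvPolynomial.C (Z.tw 1 c * Z.ss ^ d) * P - MvPolynomial.C c * Z.sgt al P = 0 := by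
    refine top _ ?_ ?_ (fun e he h => ?_) e0 he0 hc.ne_zero ?_
    · rw [FF, MvPolynomial.eval₂_sub, ← FF, ← FF, Inv_FF_C_mul, Inv_FF_C_mul, Z.FF_sgt y al hy, rel]
      simp
    · refine Inv_deg_le fun e he => ?_
      rw [MvPolynomial.coeff_sub, MvPolynomial.coeff_C_mul, MvPolynomial.coeff_C_mul,
        Inv_coeff_zero he, Inv_coeff_zero ((Z.sgt_deg al P).trans_lt he)]
      simp
    · rw [MvPolynomial.coeff_sub, MvPolynomial.coeff_C_mul, MvPolynomial.coeff_C_mul,
        Z.sgt_top al P d le_rfl e he, h]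
      simp
    · rw [MvPolynomial.coeff_sub, MvPolynomial.coeff_C_mul, MvPolynomial.coeff_C_mul,
        Z.sgt_top al P d le_rfl e0 he0]
      ring
  rw [sub_eq_zero] at hR
  have hm : (Z.tw 1 c).Monic := hc.map _
  have hdvd : Z.tw 1 c ∣ c := by
    refine Inv_dvd hc.ne_zero _ (Z.Inv_prim al P prim) fun e => ?_
    rcases lt_or_ge d e.degree with h | h
    · rw [Inv_coeff_zero (((Inv_rho_deg _ _).trans (Inv_map_deg _ _)).trans_lt h), mul_zero]
      exact dvd_zero _
    · obtain ⟨k, hk⟩ := Nat.exists_eq_add_of_le h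
      have h1 := congrArg (MvPolynomial.coeff e) hR
      rw [MvPolynomial.coeff_C_mul, MvPolynomial.coeff_C_mul, Inv_sgt_coeff, hk] at h1
      exact ⟨Z.ss ^ k * P.coeff e,
        mul_left_cancel₀ (pow_ne_zero e.degree hs) (by linear_combination -h1)⟩
  rw [← eq_of_monic_of_dvd_of_natDegree_le hm hc hdvd (Z.tw_natDegree 1 c).ge, map_mul,
    mul_assoc] at hR
  exact (mul_left_cancel₀ (MvPolynomial.C_ne_zero.2 hc.ne_zero) hR).symm

theorem exists_minRel (y : ι → Ω) (al : ι → C) (hy : ∀ i, Z.Sol (al i) (y i))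
    (R : MvPolynomial ι C[X]) (hR : R ≠ 0) (h0 : Z.FF y R = 0) : ∃ P, Z.MinRel y al P := by
  classical
  obtain ⟨P0, ⟨n0, r0⟩, m0⟩ := Inv_min (fun P : MvPolynomial ι C[X] => P ≠ 0 ∧ Z.FF y P = 0)
    MvPolynomial.totalDegree ⟨R, hR, h0⟩
  obtain ⟨P1, ⟨n1, r1, d1⟩, m1⟩ := Inv_min (fun P : MvPolynomial ι C[X] => P ≠ 0 ∧ Z.FF y P = 0 ∧
    P.totalDegree = P0.totalDegree)
    (fun P => (P.support.filter fun e => e.degree = P0.totalDegree).card) ⟨P0, n0, r0, rfl⟩
  obtain ⟨e0, he0, hd0⟩ := P1.support.exists_mem_eq_sup (MvPolynomial.support_nonempty.2 n1)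
    fun s => s.sum fun _ e => e
  have hsupp : ∀ (c : C[X]) (Q : MvPolynomial ι C[X]), c ≠ 0 →
      (MvPolynomial.C c * Q).support = Q.support := fun c Q hc => by
    ext e; simp [MvPolynomial.coeff_C_mul, hc]
  have scale : ∀ Q : MvPolynomial ι C[X], Q.support = P1.support → Z.FF y Q = 0 →
      ∃ Q' : MvPolynomial ι C[X], (Q'.support = P1.support ∧ Z.FF y Q' = 0 ∧
        (Q'.coeff e0).Monic) ∧ (Q'.coeff e0).natDegree = (Q.coeff e0).natDegree := by
    intro Q hQ hr
    have hne : Q.coeff e0 ≠ 0 := MvPolynomial.mem_support_iff.1 (hQ ▸ he0)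
    have hl : (Q.coeff e0).leadingCoeff⁻¹ ≠ 0 := inv_ne_zero (leadingCoeff_ne_zero.2 hne)
    refine ⟨MvPolynomial.C (Polynomial.C (Q.coeff e0).leadingCoeff⁻¹) * Q,
      ⟨(hsupp _ _ (C_ne_zero.2 hl)).trans hQ, by rw [Inv_FF_C_mul, hr, mul_zero], ?_⟩, ?_⟩
    · rw [MvPolynomial.coeff_C_mul, mul_comm]; exact monic_mul_leadingCoeff_inv hne
    · rw [MvPolynomial.coeff_C_mul, natDegree_C_mul hl]
  obtain ⟨P, ⟨s2, r2, c2⟩, m2⟩ := Inv_min (fun Q : MvPolynomial ι C[X] => Q.support = P1.support ∧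
    Z.FF y Q = 0 ∧ (Q.coeff e0).Monic) (fun Q => (Q.coeff e0).natDegree)
    ((scale P1 rfl r1).imp fun _ h => h.1)
  have dP : P.totalDegree = P0.totalDegree := by
    rw [← d1, MvPolynomial.totalDegree, s2, MvPolynomial.totalDegree]
  have nP : P ≠ 0 := fun h => c2.ne_zero (by simp [h])
  have top : ∀ R, Z.FF y R = 0 → R.totalDegree ≤ P.totalDegree →
      (∀ e : ι →₀ ℕ, e.degree = P.totalDegree → P.coeff e = 0 → R.coeff e = 0) →
      ∀ e0 : ι →₀ ℕ, e0.degree = P.totalDegree → P.coeff e0 ≠ 0 → R.coeff e0 = 0 → R = 0 := by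
    intro R hr hd hsub e1 he1 hP1 hR1
    by_contra hn
    refine (m1 R ⟨hn, hr, le_antisymm (dP ▸ hd) (m0 R ⟨hn, hr⟩)⟩).not_gt
      (Finset.card_lt_card ⟨fun e he => ?_, fun h => ?_⟩)
    · rw [Finset.mem_filter, ← s2, MvPolynomial.mem_support_iff] at *
      exact ⟨fun h => he.1 (hsub e (he.2.trans dP.symm) h), he.2⟩
    · have := h (Finset.mem_filter.2 ⟨s2 ▸ MvPolynomial.mem_support_iff.2 hP1, he1.trans dP⟩)
      exact MvPolynomial.mem_support_iff.1 (Finset.mem_filter.1 this).1 hR1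
  have prim : ∀ c : C[X], (∀ e, c ∣ P.coeff e) → IsUnit c := by
    intro c h
    obtain ⟨Q, hQ⟩ := (MvPolynomial.C_dvd_iff_dvd_coeff c _).2 h
    have hc : c ≠ 0 := by rintro rfl; simp [nP] at hQ
    have sQ : Q.support = P1.support := by rw [← s2, hQ, hsupp _ _ hc]
    have rQ : Z.FF y Q = 0 := by
      rw [hQ, Inv_FF_C_mul] at r2
      exact (mul_eq_zero.1 r2).resolve_left (Z.aeval_ne c hc)
    obtain ⟨Q', h1, h2⟩ := scale Q sQ rQ
    have h3 := m2 Q' h1
    rw [h2, hQ, MvPolynomial.coeff_C_mul,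
      natDegree_mul hc (MvPolynomial.mem_support_iff.1 (sQ ▸ he0))] at h3
    exact isUnit_iff_degree_eq_zero.2 ((degree_eq_natDegree hc).trans (by
      rw [show c.natDegree = 0 by omega]; rfl))
  refine ⟨P, nP, r2, Nat.pos_of_ne_zero fun h => ?_, fun R hr hd => ?_, top, prim,
    Z.Inv_inv y al hy P r2 top prim e0 (by rw [dP, ← d1]; exact hd0.symm) c2⟩
  · rw [MvPolynomial.totalDegree_eq_zero_iff_eq_C] at h
    rw [h, FF, MvPolynomial.eval₂_C] at r2
    exact Z.aeval_ne _ (fun h' => nP (by rw [h, h', map_zero])) r2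
  · by_contra hn
    exact (m0 R ⟨hn, hr⟩).not_gt (dP ▸ hd)

end Sit

end Pool.Agent.MP_655169_nt

end

section

set_option linter.unusedSectionVars false

namespace Pool.Agent.MP_655169_nt

open Polynomial Filter Topology

variable {F C Ω : Type*} [Field F] [Fintype F] [NormedField C] [IsUltrametricDist C]
  [IsAlgClosed C] [Algebra F C] [NormedField Ω] [IsUltrametricDist Ω] [IsAlgClosed Ω]
  [Algebra C Ω] [Algebra F Ω] [IsScalarTower F C Ω] (Z : Sit F C Ω)

namespace Sit

variable {ι : Type*}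

theorem Inv2_ss_ne : Z.ss ≠ 0 := Polynomial.X_sub_C_ne_zero _

theorem Inv2_evt_tw (n : ℕ) (H : C[X]) : Z.evt n (Z.tw 1 H) = Z.evt (n + 1) H := by
  simp only [evt, RingHom.comp_apply, tw_succ]

theorem Inv2_evt_ss (n : ℕ) : Z.evt n Z.ss = Z.θ - Z.θ ^ qq F ^ (n + 1) := by
  rw [ss, map_sub, evt_X, evt_C]

theorem Inv2_scale {A : Type*} [CommRing A] (s : A) (R : MvPolynomial ι A) (e : ι →₀ ℕ) :
    (MvPolynomial.eval₂ MvPolynomial.C (fun i => MvPolynomial.C s * MvPolynomial.X i) R).coeff e =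
      s ^ e.degree * R.coeff e := by
  classical
  induction R using MvPolynomial.induction_on' with
  | monomial d a =>
    have : (d.prod fun i k => (MvPolynomial.C s * MvPolynomial.X i : MvPolynomial ι A) ^ k) =
        MvPolynomial.monomial d (s ^ d.degree) := by
      rw [MvPolynomial.monomial_eq]
      simp only [mul_pow, Finsupp.prod, Finset.prod_mul_distrib, ← map_pow, ← map_prod,
        Finset.prod_pow_eq_pow_sum, Finsupp.degree_apply]
    rw [MvPolynomial.eval₂_monomial, this, MvPolynomial.coeff_C_mul, MvPolynomial.coeff_monomial,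
      MvPolynomial.coeff_monomial]
    split_ifs with h
    · rw [h, mul_comm]
    · simp
  | add p q hp hq => rw [MvPolynomial.eval₂_add, MvPolynomial.coeff_add, hp, hq,
      MvPolynomial.coeff_add, mul_add]

theorem Inv2_pderiv (al : ι → C) (P : MvPolynomial ι C[X]) (i : ι) :
    MvPolynomial.pderiv i (Z.sgt al P) =
      MvPolynomial.C Z.ss * Z.sgt al (MvPolynomial.pderiv i P) := by
  classical
  unfold sgt
  induction P using MvPolynomial.induction_on with
  | C a => simp
  | add p q hp hq => simp only [MvPolynomial.eval₂_add, map_add, hp, hq, mul_add]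
  | mul_X p j hp =>
    simp only [MvPolynomial.eval₂_mul, MvPolynomial.eval₂_X, Derivation.leibniz, hp, smul_eq_mul,
      map_add, MvPolynomial.pderiv_C, MvPolynomial.eval₂_add, MvPolynomial.pderiv_X]
    by_cases h : j = i
    · subst h; simp; ring
    · simp [Pi.single_eq_of_ne h]; ring

theorem VV_sgt (u al : ι → C) (n : ℕ) (P : MvPolynomial ι C[X]) :
    Z.VV u al n (Z.sgt al P) = Z.VV u al (n + 1) P := by
  unfold VV sgt
  rw [← MvPolynomial.coe_eval₂Hom, MvPolynomial.eval₂_comp_left]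
  congr 1
  · exact RingHom.ext fun H => by simp [Inv2_evt_tw]
  · funext i
    simp [ph, evt_C, Inv2_evt_ss]

theorem inv_top (al : ι → C) (P : MvPolynomial ι C[X]) (k : ℕ) (hk : P.totalDegree ≤ k)
    (h : Z.sgt al P = MvPolynomial.C (Z.ss ^ k) * P) (e : ι →₀ ℕ) (he : e.degree = k) :
    ∃ B : F[X], P.coeff e = B.map (algebraMap F C) := by
  apply Z.tw_fixed
  have h1 := Z.sgt_top al P k hk e he
  rw [h, MvPolynomial.coeff_C_mul] at h1
  exact (mul_left_cancel₀ (pow_ne_zero k Z.Inv2_ss_ne) h1).symm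

theorem inv_eval (al : ι → C) (P : MvPolynomial ι C[X]) (k : ℕ) (hk : P.totalDegree ≤ k)
    (h : Z.sgt al P = MvPolynomial.C (Z.ss ^ k) * P) (x : ι → C) :
    MvPolynomial.eval₂ (Z.evt 0) (fun i => al i + x i) P =
      MvPolynomial.eval₂ (Polynomial.evalRingHom Z.θ) x
        (MvPolynomial.homogeneousComponent k P) := by
  classical
  set R : MvPolynomial ι C[X] := MvPolynomial.eval₂ (MvPolynomial.C.comp (Z.tw 1))
    (fun i => MvPolynomial.C (Polynomial.C (al i)) + MvPolynomial.X i) P with hR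
  have h1 : Z.sgt al P = MvPolynomial.eval₂ MvPolynomial.C
      (fun i => MvPolynomial.C Z.ss * MvPolynomial.X i) R := by
    rw [hR, ← MvPolynomial.coe_eval₂Hom, MvPolynomial.eval₂_comp_left, sgt]
    congr 1
    · exact RingHom.ext fun H => by simp
    · funext i; simp
  have h2 : MvPolynomial.eval₂ (Z.evt 0) (fun i => al i + x i) P =
      MvPolynomial.eval₂ (Polynomial.evalRingHom Z.θ) x R := by
    rw [hR, ← MvPolynomial.coe_eval₂Hom (Polynomial.evalRingHom Z.θ),
      MvPolynomial.eval₂_comp_left]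
    congr 1
    · exact RingHom.ext fun H => by simp [evt]
    · funext i; simp
  have h3 : ∀ e : ι →₀ ℕ, Z.ss ^ e.degree * R.coeff e = Z.ss ^ k * P.coeff e := fun e => by
    rw [← Inv2_scale, ← h1, h, MvPolynomial.coeff_C_mul]
  rw [h2, MvPolynomial.eval₂_eq_eval_map, MvPolynomial.eval₂_eq_eval_map]
  congr 1
  ext e
  rw [MvPolynomial.coeff_map, MvPolynomial.coeff_map, MvPolynomial.coeff_homogeneousComponent]
  rcases lt_trichotomy e.degree k with hlt | heq | hgt
  · obtain ⟨m, rfl⟩ := Nat.exists_eq_add_of_lt hlt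
    have h4 := h3 e
    rw [add_assoc, pow_add, mul_assoc] at h4
    rw [mul_left_cancel₀ (pow_ne_zero _ Z.Inv2_ss_ne) h4, if_neg hlt.ne]
    simp [ss]
  · have h4 := h3 e
    rw [heq] at h4
    rw [mul_left_cancel₀ (pow_ne_zero _ Z.Inv2_ss_ne) h4, if_pos heq]
  · have h4 := h3 e
    have h5 : P.coeff e = 0 := MvPolynomial.coeff_eq_zero_of_totalDegree_lt
      (lt_of_le_of_lt hk (by simpa [Finsupp.degree_apply] using hgt))
    rw [h5, mul_zero] at h4
    rw [(mul_eq_zero.1 h4).resolve_left (pow_ne_zero _ Z.Inv2_ss_ne), if_neg hgt.ne']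

theorem inv_VV (u al : ι → C) (P : MvPolynomial ι C[X]) (k : ℕ)
    (h : Z.sgt al P = MvPolynomial.C (Z.ss ^ k) * P) (h0 : Z.VV u al 0 P = 0) (n : ℕ) :
    Z.VV u al n P = 0 := by
  induction n with
  | zero => exact h0
  | succ n ih =>
    rw [← VV_sgt, h]
    unfold VV at ih ⊢
    rw [MvPolynomial.eval₂_mul, ih, mul_zero]

theorem inv_pderiv (al : ι → C) (P : MvPolynomial ι C[X]) (k : ℕ)
    (h : Z.sgt al P = MvPolynomial.C (Z.ss ^ (k + 1)) * P) (i : ι) :
    Z.sgt al (MvPolynomial.pderiv i P) =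
      MvPolynomial.C (Z.ss ^ k) * MvPolynomial.pderiv i P := by
  have h1 := Z.Inv2_pderiv al P i
  rw [h, MvPolynomial.pderiv_C_mul, pow_succ', map_mul, mul_assoc] at h1
  exact (mul_left_cancel₀ (MvPolynomial.C_ne_zero.2 Z.Inv2_ss_ne) h1).symm

end Sit

end Pool.Agent.MP_655169_nt

end

section

set_option linter.unusedSectionVars false

namespace Pool.Agent.MP_655169_nt

open Polynomial Filter Topology

variable {F C Ω : Type*} [Field F] [Fintype F] [NormedField C] [IsUltrametricDist C]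
  [IsAlgClosed C] [Algebra F C] [NormedField Ω] [IsUltrametricDist Ω] [IsAlgClosed Ω]
  [Algebra C Ω] [Algebra F Ω] [IsScalarTower F C Ω] (Z : Sit F C Ω)

theorem Inv1_deg {R : Type*} [CommSemiring R] (P : MvPolynomial Unit R) :
    (MvPolynomial.uniqueAlgEquiv R Unit P).natDegree = P.totalDegree := by
  apply le_antisymm
  · rw [natDegree_le_iff_coeff_eq_zero]
    intro N hN
    rw [MvPolynomial.coeff_uniqueAlgEquiv]
    by_contra h
    have := MvPolynomial.le_totalDegree (MvPolynomial.mem_support_iff.2 h)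
    simp only [Finsupp.sum_single_index] at this
    omega
  · refine Finset.sup_le fun d hd => ?_
    have h := MvPolynomial.mem_support_iff.1 hd
    rw [Finsupp.unique_single d, ← MvPolynomial.coeff_uniqueAlgEquiv] at h
    rw [Finsupp.unique_single d]
    simp only [Finsupp.sum_single_index]
    exact le_natDegree_of_ne_zero h

theorem Inv1_dvd {R K : Type*} [CommRing R] [IsDomain R] [NormalizedGCDMonoid R] [Field K]
    (φ : R →+* K) (hφ : Function.Injective φ) (ξ : K) (p q : R[X]) (hp : p.IsPrimitive)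
    (hp0 : p.eval₂ φ ξ = 0) (hq0 : q.eval₂ φ ξ = 0) (hd : 0 < p.natDegree)
    (hmin : ∀ r : R[X], r.eval₂ φ ξ = 0 → r.natDegree < p.natDegree → r = 0) : p ∣ q := by
  let L := FractionRing R
  let g : L →+* K := IsFractionRing.lift hφ
  have hg : g.comp (algebraMap R L) = φ := by
    ext x
    simp [g]
  have hinj : Function.Injective (algebraMap R L) := IsFractionRing.injective R L
  refine hp.dvd_of_fraction_map_dvd_fraction_map (K := L) ?_
  rw [← EuclideanDomain.mod_eq_zero]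
  set p' := p.map (algebraMap R L) with hp'
  set q' := q.map (algebraMap R L) with hq'
  have e1 : p'.eval₂ g ξ = 0 := by rw [hp', eval₂_map, hg, hp0]
  have e2 : q'.eval₂ g ξ = 0 := by rw [hq', eval₂_map, hg, hq0]
  have e3 : (q' % p').eval₂ g ξ = 0 := by
    have := congrArg (eval₂ g ξ) (EuclideanDomain.div_add_mod q' p')
    rwa [eval₂_add, eval₂_mul, e1, zero_mul, zero_add, e2] at this
  have hdeg : p'.natDegree = p.natDegree := natDegree_map_eq_of_injective hinj p
  have e4 := IsLocalization.integerNormalization_eval₂_eq_zero (nonZeroDivisors R) g _ e3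
  rw [hg] at e4
  have e5 : (IsLocalization.integerNormalization (nonZeroDivisors R) (q' % p')).natDegree <
      p.natDegree := by
    refine lt_of_le_of_lt (natDegree_le_natDegree (degree_mono
      (IsLocalization.integerNormalization_support _ _))) ?_
    rw [← hdeg]
    exact natDegree_mod_lt _ (by omega)
  exact IsFractionRing.integerNormalization_eq_zero_iff.1 (hmin _ e4 e5)

theorem Inv1_swap {R : Type*} [CommRing R] (p : R[X][X]) (i j : ℕ) :
    ((Bivariate.swap p).coeff i).coeff j = (p.coeff j).coeff i := by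
  induction p using Polynomial.induction_on' with
  | add p q hp hq => simp only [map_add, coeff_add, hp, hq]
  | monomial n f =>
    induction f using Polynomial.induction_on' with
    | add p q hp hq => simp only [map_add, coeff_add, hp, hq]
    | monomial m r =>
      rw [Bivariate.swap_monomial_monomial]
      simp only [coeff_monomial]
      split_ifs <;> simp_all [coeff_monomial]

theorem Inv1_prod {Λ : Type*} [NormedField Λ] [IsUltrametricDist Λ] (A : ℝ) (hA : 1 ≤ A)
    (s : Multiset Λ) (hs : ∀ x ∈ s, ‖x‖ ≤ A) (j : ℕ) :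
    ‖((s.map fun x => X - Polynomial.C x).prod).coeff j‖ ≤ A ^ s.card := by
  induction s using Multiset.induction_on generalizing j with
  | empty =>
    simp only [Multiset.map_zero, Multiset.prod_zero, coeff_one, Multiset.card_zero, pow_zero]
    split_ifs <;> simp
  | cons x s ih =>
    have ih' := ih fun y hy => hs y (Multiset.mem_cons_of_mem hy)
    have hx := hs x (Multiset.mem_cons_self x s)
    rw [Multiset.map_cons, Multiset.prod_cons, Multiset.card_cons, sub_mul, coeff_sub,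
      coeff_C_mul, pow_succ, sub_eq_add_neg]
    have h0 : (0 : ℝ) ≤ A ^ s.card := by positivity
    refine (IsUltrametricDist.norm_add_le_max _ _).trans (max_le ?_ ?_)
    · cases j with
      | zero => simp only [coeff_X_mul_zero, norm_zero]; positivity
      | succ j =>
        rw [coeff_X_mul]
        exact (ih' j).trans (le_mul_of_one_le_right h0 hA)
    · rw [norm_neg, norm_mul, mul_comm]
      exact mul_le_mul (ih' j) hx (norm_nonneg _) h0

namespace Sit

theorem Inv1_inj : Function.Injective (aeval Z.t : C[X] →ₐ[C] Ω).toRingHom := by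
  rw [injective_iff_map_eq_zero]
  intro H hH
  by_contra h
  exact Z.aeval_ne H h hH

theorem inv1 (ξ : Ω) (a : C) (h : Z.Sol a ξ) (Ψ : C[X][X]) (hΨ : Ψ ≠ 0) (h0 : Z.PW Ψ ξ = 0) :
    ∃ Ψ0 : C[X][X], Ψ0 ∣ Ψ ∧ Z.PW Ψ0 ξ = 0 ∧ 0 < Ψ0.natDegree ∧ ∃ B : F[X], B ≠ 0 ∧
      Ψ0.leadingCoeff = B.map (algebraMap F C) ∧
      ∀ x : C, Ψ0.eval₂ (Z.evt 0) (a + x) = aeval Z.θ B * x ^ Ψ0.natDegree := by
  classical
  let E := MvPolynomial.uniqueAlgEquiv C[X] Unit
  have hFF : ∀ r : C[X][X], Z.FF (fun _ : Unit => ξ) (E.symm r) = Z.PW r ξ := fun r =>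
    MvPolynomial.eval₂_const_uniqueAlgEquiv_symm
  obtain ⟨P, hP⟩ := Z.exists_minRel (fun _ : Unit => ξ) (fun _ => a) (fun _ => h) (E.symm Ψ)
    (by simpa using hΨ) ((hFF Ψ).trans h0)
  have hdeg : (E P).natDegree = P.totalDegree := Inv1_deg P
  have hrel : Z.PW (E P) ξ = 0 := by
    rw [← hFF, E.symm_apply_apply]
    exact hP.rel
  have hpos : 0 < (E P).natDegree := hdeg ▸ hP.pos
  have hprim : (E P).IsPrimitive := by
    intro c hc
    refine hP.prim c fun e => ?_
    have := (C_dvd_iff_dvd_coeff c _).1 hc (e default)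
    rwa [MvPolynomial.coeff_uniqueAlgEquiv, ← Finsupp.unique_single e] at this
  have hdvd : E P ∣ Ψ := by
    refine Inv1_dvd _ Z.Inv1_inj ξ _ _ hprim hrel h0 hpos fun r hr hlt => ?_
    have h1 : (E.symm r).totalDegree < P.totalDegree := by
      rw [← Inv1_deg (E.symm r), ← hdeg]
      change (E (E.symm r)).natDegree < _
      rwa [E.apply_symm_apply]
    simpa using hP.low _ ((hFF r).trans hr) h1
  have hlc : (E P).leadingCoeff = P.coeff (Finsupp.single default P.totalDegree) := by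
    rw [leadingCoeff, hdeg, MvPolynomial.coeff_uniqueAlgEquiv]
  obtain ⟨B, hB⟩ := Z.inv_top (fun _ => a) P _ le_rfl hP.inv
    (Finsupp.single default P.totalDegree) (by simp)
  have hne : E P ≠ 0 := by simpa using hP.ne
  refine ⟨E P, hdvd, hrel, hpos, B, ?_, hlc.trans hB, fun x => ?_⟩
  · rintro rfl
    apply leadingCoeff_ne_zero.2 hne
    rw [hlc, hB, Polynomial.map_zero]
  · have hh : MvPolynomial.homogeneousComponent P.totalDegree P =
        MvPolynomial.monomial (Finsupp.single default P.totalDegree)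
          (B.map (algebraMap F C)) := by
      ext1 d
      rw [MvPolynomial.coeff_homogeneousComponent, MvPolynomial.coeff_monomial, ← hB]
      have hd : d.degree = d default := by
        conv_lhs => rw [Finsupp.unique_single d]
        simp
      by_cases e : d default = P.totalDegree
      · have e' : Finsupp.single default P.totalDegree = d := by
          rw [← e, ← Finsupp.unique_single d]
        rw [if_pos (hd.trans e), if_pos e', e']
      · rw [if_neg (fun h => e (hd.symm.trans h)), if_neg]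
        intro e'
        apply e
        rw [← e']
        simp
    rw [MvPolynomial.eval₂_const_uniqueAlgEquiv, hdeg]
    have := Z.inv_eval (fun _ => a) P _ le_rfl hP.inv fun _ => x
    rw [this, hh, MvPolynomial.eval₂_monomial]
    simp [eval_map_algebraMap]

theorem dvd_bd (Ψ0 Ψ : C[X][X]) (hd : Ψ0 ∣ Ψ) (hΨ : Ψ ≠ 0) (T : ℕ) (A : ℝ) (hA1 : 1 ≤ A)
    (hT : ∀ j, (Ψ.coeff j).natDegree ≤ T) (hA : ∀ j, ‖aeval Z.t (Ψ.coeff j)‖ ≤ A)
    (hl : 1 ≤ ‖aeval Z.t Ψ.leadingCoeff‖) (hl0 : ‖aeval Z.t Ψ0.leadingCoeff‖ = 1) (j : ℕ) :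
    (Ψ0.coeff j).natDegree ≤ T ∧ ‖aeval Z.t (Ψ0.coeff j)‖ ≤ A ^ Ψ.natDegree := by
  constructor
  · have h1 : (Bivariate.swap Ψ).natDegree ≤ T := by
      rw [natDegree_le_iff_coeff_eq_zero]
      intro N hN
      ext i
      rw [Inv1_swap, coeff_zero]
      exact coeff_eq_zero_of_natDegree_lt ((hT i).trans_lt hN)
    have h2 : (Bivariate.swap Ψ0).natDegree ≤ T :=
      (natDegree_le_of_dvd (_root_.map_dvd Bivariate.swap hd) (by simpa using hΨ)).trans h1
    rw [natDegree_le_iff_coeff_eq_zero]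
    intro N hN
    rw [← Inv1_swap, coeff_eq_zero_of_natDegree_lt (h2.trans_lt hN), coeff_zero]
  · let φ := (aeval Z.t : C[X] →ₐ[C] Ω).toRingHom
    have hφ : Function.Injective φ := Z.Inv1_inj
    have hc : ∀ (p : C[X][X]) (i : ℕ), (p.map φ).coeff i = aeval Z.t (p.coeff i) := fun p i => by
      rw [coeff_map]; rfl
    have hlc : ∀ p : C[X][X], (p.map φ).leadingCoeff = aeval Z.t p.leadingCoeff := fun p => by
      rw [leadingCoeff_map_of_injective hφ]; rfl
    have hs : (Ψ0.map φ).Splits := IsAlgClosed.splits _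
    have hroot : ∀ x ∈ (Ψ0.map φ).roots, ‖x‖ ≤ A := fun x hx => by
      refine root_le (Ψ.map φ) A hA1 (fun i => by rw [hc]; exact hA i) (by rw [hlc]; exact hl) x ?_
      exact (isRoot_of_mem_roots hx).dvd (Polynomial.map_dvd φ hd)
    have hcard : (Ψ0.map φ).roots.card ≤ Ψ.natDegree := by
      refine (card_roots' _).trans ?_
      rw [natDegree_map_eq_of_injective hφ]
      exact natDegree_le_of_dvd hd hΨ
    rw [← hc, hs.eq_prod_roots, coeff_C_mul, norm_mul, hlc, hl0, one_mul]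
    exact (Inv1_prod A hA1 _ hroot j).trans (pow_le_pow_right₀ hA1 hcard)

end Sit

end Pool.Agent.MP_655169_nt

end

section

/-! Translation `P(Y + W)` of polynomials, minimal relations and additive polynomials. -/

namespace Pool.Agent.MP_ee2255_nt.S

open MvPolynomial

variable {k ι : Type*} [Field k]

/-- `P(Y + W)` as a polynomial in `Y` whose coefficients are polynomials in `W` -/
noncomputable def shift : MvPolynomial ι k →ₐ[k] MvPolynomial ι (MvPolynomial ι k) :=
  aeval fun j => X j + C (X j)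

/-- The product of binomial coefficients in the translation formula. -/
noncomputable def saddB (κ ν : ι →₀ ℕ) : ℕ := ∏ j ∈ κ.support, (κ j + ν j).choose (κ j)

lemma saddB_split [DecidableEq ι] (κ ν : ι →₀ ℕ) (i : ι) :
    saddB κ ν = (κ i + ν i).choose (κ i) * ∏ j ∈ κ.support.erase i, (κ j + ν j).choose (κ j) := by
  unfold saddB
  by_cases h : i ∈ κ.support
  · rw [Finset.mul_prod_erase _ (fun j => (κ j + ν j).choose (κ j)) h]
  · rw [Finset.erase_eq_of_notMem h, Finsupp.notMem_support_iff.1 h]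
    simp

lemma saddB_left [DecidableEq ι] (κ ν : ι →₀ ℕ) (i : ι) :
    saddB (κ - Finsupp.single i 1) ν = (κ i - 1 + ν i).choose (κ i - 1) *
      ∏ j ∈ κ.support.erase i, (κ j + ν j).choose (κ j) := by
  rw [saddB_split _ _ i]
  have h1 : (κ - Finsupp.single i 1).support.erase i = κ.support.erase i := by
    ext j
    simp only [Finset.mem_erase, Finsupp.mem_support_iff, Finsupp.coe_tsub, Pi.sub_apply]
    refine and_congr_right fun hj => ?_
    rw [Finsupp.single_eq_of_ne hj, Nat.sub_zero]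
  rw [h1]
  congr 1
  · simp
  · refine Finset.prod_congr rfl fun j hj => ?_
    simp only [Finsupp.coe_tsub, Pi.sub_apply]
    rw [Finsupp.single_eq_of_ne (Finset.mem_erase.1 hj).1, Nat.sub_zero]

lemma saddB_right [DecidableEq ι] (κ ν : ι →₀ ℕ) (i : ι) :
    saddB κ (ν - Finsupp.single i 1) = (κ i + (ν i - 1)).choose (κ i) *
      ∏ j ∈ κ.support.erase i, (κ j + ν j).choose (κ j) := by
  rw [saddB_split _ _ i]
  congr 1
  · simp
  · refine Finset.prod_congr rfl fun j hj => ?_
    simp only [Finsupp.coe_tsub, Pi.sub_apply]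
    rw [Finsupp.single_eq_of_ne (Finset.mem_erase.1 hj).1, Nat.sub_zero]

lemma sadd_coeff (P : MvPolynomial ι k) (κ ν : ι →₀ ℕ) :
    coeff ν (coeff κ (shift P)) = coeff (κ + ν) P * (saddB κ ν : k) := by
  classical
  induction P using MvPolynomial.induction_on generalizing κ ν with
  | C a =>
    have h : shift (C a : MvPolynomial ι k) = C (C a) := by simp [shift]
    rw [h, coeff_C, coeff_C]
    by_cases h1 : 0 = κ
    · subst h1
      simp [coeff_C, saddB]
    · rw [if_neg h1, if_neg, zero_mul, coeff_zero]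
      intro h2
      exact h1 (add_eq_zero.1 h2.symm).1.symm
  | add p q hp hq => simp only [map_add, coeff_add, hp, hq, add_mul]
  | mul_X p i hp =>
    have h : shift (p * X i) = shift p * X i + C (X i) * shift p := by
      simp only [shift, map_mul, aeval_X]
      ring
    rw [h, coeff_add, coeff_add, coeff_mul_X', coeff_C_mul, coeff_X_mul', coeff_mul_X',
      saddB_split κ ν i]
    by_cases h1 : i ∈ κ.support
    · have h1' : κ i ≠ 0 := Finsupp.mem_support_iff.1 h1
      have h3 : i ∈ (κ + ν).support := by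
        rw [Finsupp.mem_support_iff, Finsupp.add_apply]; omega
      have e1 : κ - Finsupp.single i 1 + ν = κ + ν - Finsupp.single i 1 :=
        tsub_add_eq_add_tsub (Finsupp.single_le_iff.2 (by omega))
      rw [if_pos h1, if_pos h3, hp, e1, saddB_left]
      obtain ⟨a, ha⟩ := Nat.exists_eq_succ_of_ne_zero h1'
      by_cases h2 : i ∈ ν.support
      · have h2' : ν i ≠ 0 := Finsupp.mem_support_iff.1 h2
        have e2 : κ + (ν - Finsupp.single i 1) = κ + ν - Finsupp.single i 1 :=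
          (add_tsub_assoc_of_le (Finsupp.single_le_iff.2 (by omega)) κ).symm
        rw [if_pos h2, hp, e2, saddB_right]
        obtain ⟨b, hb⟩ := Nat.exists_eq_succ_of_ne_zero h2'
        rw [ha, hb]
        have e3 : (a.succ + b.succ).choose a.succ =
            (a.succ - 1 + b.succ).choose (a.succ - 1) + (a.succ + (b.succ - 1)).choose a.succ := by
          rw [show a.succ + b.succ = (a + b + 1) + 1 by omega, Nat.choose_succ_succ',
            show a.succ - 1 + b.succ = a + b + 1 by omega, show a.succ - 1 = a by omega,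
            show a.succ + (b.succ - 1) = a + b + 1 by omega]
        rw [e3]
        push_cast
        ring
      · have h2' : ν i = 0 := Finsupp.notMem_support_iff.1 h2
        rw [if_neg h2, h2']
        simp
    · have h1' : κ i = 0 := Finsupp.notMem_support_iff.1 h1
      rw [if_neg h1, coeff_zero, zero_add]
      by_cases h2 : i ∈ ν.support
      · have h2' : ν i ≠ 0 := Finsupp.mem_support_iff.1 h2
        have h3 : i ∈ (κ + ν).support := by
          rw [Finsupp.mem_support_iff, Finsupp.add_apply]; omega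
        have e2 : κ + (ν - Finsupp.single i 1) = κ + ν - Finsupp.single i 1 :=
          (add_tsub_assoc_of_le (Finsupp.single_le_iff.2 (by omega)) κ).symm
        rw [if_pos h2, if_pos h3, hp, e2, saddB_right, h1']
        simp
      · have h2' : ν i = 0 := Finsupp.notMem_support_iff.1 h2
        have h3 : i ∉ (κ + ν).support := by
          rw [Finsupp.notMem_support_iff, Finsupp.add_apply]; omega
        rw [if_neg h2, if_neg h3, zero_mul]

lemma shift_support {P : MvPolynomial ι k} {κ ν : ι →₀ ℕ}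
    (h : coeff ν (coeff κ (shift P)) ≠ 0) : coeff (κ + ν) P ≠ 0 := by
  rw [sadd_coeff] at h
  exact left_ne_zero_of_mul h

lemma shift_zero_coeff (P : MvPolynomial ι k) (κ : ι →₀ ℕ) :
    coeff 0 (coeff κ (shift P)) = coeff κ P := by
  rw [sadd_coeff]
  simp [saddB]

lemma aeval_add {A : Type*} [CommRing A] [Algebra k A] (y w : ι → A) (P : MvPolynomial ι k) :
    aeval (y + w) P = eval₂ (aeval w : MvPolynomial ι k →ₐ[k] A).toRingHom y (shift P) := by
  induction P using MvPolynomial.induction_on with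
  | C a => simp [shift]
  | add p q hp hq => simp only [map_add, eval₂_add, hp, hq]
  | mul_X p i hp =>
    rw [map_mul, map_mul, eval₂_mul, hp]
    simp [shift]

/-- if all the translation coefficients are constant, the polynomial is additive up to a
constant -/
lemma add_form (p : ℕ) [Fact p.Prime] [CharP k p] {P : MvPolynomial ι k}
    (h : ∀ κ, κ ≠ 0 → ∃ c, coeff κ (shift P) = C c) {μ : ι →₀ ℕ} (hμ : coeff μ P ≠ 0) :
    μ = 0 ∨ ∃ j b, μ = Finsupp.single j (p ^ b) := by
  classical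
  by_cases h0 : μ = 0
  · exact Or.inl h0
  right
  obtain ⟨j, hj⟩ := Finsupp.support_nonempty_iff.2 h0
  have hj' : μ j ≠ 0 := Finsupp.mem_support_iff.1 hj
  have hp : p.Prime := Fact.out
  obtain ⟨b, n, hn, hb⟩ := Nat.exists_eq_pow_mul_and_not_dvd hj' p hp.ne_one
  have hn0 : n ≠ 0 := by rintro rfl; exact hn (dvd_zero p)
  have hq : 0 < p ^ b := pow_pos hp.pos b
  have hle : Finsupp.single j (p ^ b) ≤ μ :=
    Finsupp.single_le_iff.2 (by rw [hb]; exact Nat.le_mul_of_pos_right _ (Nat.pos_of_ne_zero hn0))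
  refine ⟨j, b, ?_⟩
  have hs : Finsupp.single j (p ^ b) + (μ - Finsupp.single j (p ^ b)) = μ :=
    add_tsub_cancel_of_le hle
  obtain ⟨c, hc⟩ := h (Finsupp.single j (p ^ b)) (Finsupp.single_ne_zero.2 hq.ne')
  have h1 := sadd_coeff P (Finsupp.single j (p ^ b)) (μ - Finsupp.single j (p ^ b))
  have h2 : saddB (Finsupp.single j (p ^ b)) (μ - Finsupp.single j (p ^ b)) =
      (p ^ b * n).choose (p ^ b * 1) := by
    unfold saddB
    rw [Finsupp.support_single _ hq.ne', Finset.prod_singleton, ← Finsupp.add_apply, hs,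
      hb, Finsupp.single_eq_same, mul_one]
  have h3 : (((p ^ b * n).choose (p ^ b * 1) : ℕ) : k) ≠ 0 := by
    rw [(CharP.natCast_eq_natCast k p).2 Choose.choose_pow_mul_pow_mul_modEq_choose_nat,
      Nat.choose_one_right, Ne, CharP.cast_eq_zero_iff k p]
    exact hn
  rw [hs, h2, hc, coeff_C] at h1
  by_cases h4 : 0 = μ - Finsupp.single j (p ^ b)
  · rw [← h4, add_zero] at hs
    exact hs.symm
  · rw [if_neg h4] at h1
    exact absurd h1.symm (mul_ne_zero hμ h3)

/-- a nonzero element with least leading monomial -/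
lemma exists_min [Finite ι] (I : Submodule k (MvPolynomial ι k)) (hI : I ≠ ⊥) :
    ∃ P ∈ I, ∃ (μ₀ : ι →₀ ℕ) (lt : Set (ι →₀ ℕ)), coeff μ₀ P = 1 ∧ μ₀ ∉ lt ∧
      (∀ μ, coeff μ P ≠ 0 → μ = μ₀ ∨ μ ∈ lt) ∧
      (∀ ν κ, κ ≠ 0 → (ν + κ = μ₀ ∨ ν + κ ∈ lt) → ν ∈ lt) ∧
      (∀ μ ∈ lt, μ.degree ≤ μ₀.degree) ∧
      ∀ Q ∈ I, (∀ μ, coeff μ Q ≠ 0 → μ ∈ lt) → Q = 0 := by
  classical
  obtain ⟨n, ⟨e⟩⟩ := Finite.exists_equiv_fin ι
  let _ : LinearOrder ι := LinearOrder.lift' e e.injective
  have _ : WellFoundedGT ι := Finite.to_wellFoundedGT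
  let m : MonomialOrder ι := MonomialOrder.degLex
  obtain ⟨Q0, hQ0, hQ0'⟩ := (Submodule.ne_bot_iff I).1 hI
  let T : Set m.syn := {s | ∃ Q ∈ I, Q ≠ 0 ∧ m.toSyn (m.degree Q) = s}
  obtain ⟨s, ⟨R, hR, hR0, rfl⟩, hmin⟩ :=
    (wellFounded_lt (α := m.syn)).has_min T ⟨_, Q0, hQ0, hQ0', rfl⟩
  have hc : coeff (m.degree R) R ≠ 0 := m.coeff_degree_ne_zero_iff.2 hR0
  refine ⟨(coeff (m.degree R) R)⁻¹ • R, I.smul_mem _ hR, m.degree R,
    {ν | m.toSyn ν < m.toSyn (m.degree R)}, ?_,
    fun h => lt_irrefl (m.toSyn (m.degree R)) h, fun μ hμ => ?_, fun ν κ hκ h => ?_,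
    fun μ hμ => ?_, fun Q hQ h => ?_⟩
  · rw [coeff_smul, smul_eq_mul, inv_mul_cancel₀ hc]
  · rw [coeff_smul, smul_eq_mul] at hμ
    have h1 := m.le_degree (mem_support_iff.2 (right_ne_zero_of_mul hμ))
    rcases h1.eq_or_lt with h2 | h2
    · exact Or.inl (m.toSyn.injective h2)
    · exact Or.inr h2
  · have h1 : m.toSyn ν < m.toSyn (ν + κ) :=
      m.toSyn_strictMono (lt_add_of_pos_right ν (pos_iff_ne_zero.2 hκ))
    rcases h with h | h
    · rw [← h]; exact h1
    · exact h1.trans h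
  · exact Finsupp.DegLex.monotone_degree (le_of_lt hμ)
  · by_contra h0
    exact hmin _ ⟨Q, hQ, h0, rfl⟩ (h _ (m.coeff_degree_ne_zero_iff.2 h0))

end Pool.Agent.MP_ee2255_nt.S

end

section

/-! A Kolchin-Ostrowski theorem in characteristic `p`. -/

namespace Pool.Agent.MP_ee2255_nt.S

open MvPolynomial

section Eigen

variable {k ι : Type*} [Field k]

/-- the twisted substitution `X j ↦ α j + a X j` -/
noncomputable def twKO (τ : k →+* k) (a : k) (α : ι → k) :
    MvPolynomial ι k →+* MvPolynomial ι k :=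
  eval₂Hom (C.comp τ) fun j => C (α j) + C a * X j

@[simp] lemma twKO_C (τ : k →+* k) (a : k) (α : ι → k) (c : k) :
    twKO τ a α (C c) = C (τ c) := by simp [twKO]

@[simp] lemma twKO_X (τ : k →+* k) (a : k) (α : ι → k) (j : ι) :
    twKO τ a α (X j) = C (α j) + C a * X j := by simp [twKO]

lemma scale_coeffKO {R : Type*} [CommRing R] (T : R →+* R) (a : R) (Q : MvPolynomial ι R)
    (κ : ι →₀ ℕ) :
    coeff κ (eval₂Hom (C.comp T) (fun j => C a * X j) Q) = a ^ κ.degree * T (coeff κ Q) := by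
  classical
  induction Q using MvPolynomial.induction_on' with
  | monomial μ r =>
    have h : eval₂Hom (C.comp T) (fun j => C a * X j) (monomial μ r) =
        (monomial μ (a ^ μ.degree * T r) : MvPolynomial ι R) := by
      rw [eval₂Hom_monomial, monomial_eq]
      simp only [Finsupp.prod, mul_pow, Finset.prod_mul_distrib, Finset.prod_pow_eq_pow_sum,
        RingHom.comp_apply, map_mul, map_pow, Finsupp.degree_apply]
      ring
    rw [h, coeff_monomial, coeff_monomial]
    split_ifs with e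
    · rw [e]
    · simp
  | add P Q hP hQ => simp only [map_add, coeff_add, hP, hQ, mul_add]

lemma shift_twKO (τ : k →+* k) (a : k) (α : ι → k) (P : MvPolynomial ι k) (κ : ι →₀ ℕ) :
    coeff κ (shift (twKO τ a α P)) = C (a ^ κ.degree) * twKO τ a α (coeff κ (shift P)) := by
  have h : (shift (k := k) (ι := ι)).toRingHom.comp (twKO τ a α) =
      (eval₂Hom (C.comp (twKO τ a α)) (fun j => C (C a) * X j)).comp
        (shift (k := k) (ι := ι)).toRingHom := by
    refine ringHom_ext (fun c => ?_) fun j => ?_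
    · simp [shift, MvPolynomial.algebraMap_apply]
    · simp [shift, MvPolynomial.algebraMap_apply]
      ring
  have h1 := RingHom.congr_fun h P
  simp only [RingHom.comp_apply, AlgHom.toRingHom_eq_coe, RingHom.coe_coe] at h1
  rw [h1, scale_coeffKO, map_pow]

lemma shift_C_mulKO (c : k) (P : MvPolynomial ι k) (κ : ι →₀ ℕ) :
    coeff κ (shift (C c * P)) = C c * coeff κ (shift P) := by
  rw [map_mul, show shift (C c : MvPolynomial ι k) = C (C c) by simp [shift, MvPolynomial.algebraMap_apply],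
    coeff_C_mul]

lemma shift_constKO {P : MvPolynomial ι k} {κ : ι →₀ ℕ}
    (h : ∀ ν, ν ≠ 0 → coeff (κ + ν) P = 0) : coeff κ (shift P) = C (coeff κ P) := by
  classical
  ext ν
  rw [coeff_C]
  split_ifs with e
  · rw [← e, shift_zero_coeff]
  · by_contra h1
    exact shift_support h1 (h ν (Ne.symm e))

lemma coeff_twKO (τ : k →+* k) (a : k) (α : ι → k) {P : MvPolynomial ι k} {κ : ι →₀ ℕ}
    (h : ∀ ν, ν ≠ 0 → coeff (κ + ν) P = 0) :
    coeff κ (twKO τ a α P) = a ^ κ.degree * τ (coeff κ P) := by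
  rw [← shift_zero_coeff, shift_twKO, shift_constKO h, twKO_C, ← map_mul, coeff_zero_C]

lemma exp_eqKO {τ : k →+* k} {a : k} (ha : a ≠ 0)
    (hH : ∀ n : ℕ, 1 ≤ n → ∀ c, τ c = a ^ n * c → c = 0) {c : k} (hc : c ≠ 0) {m n : ℕ}
    (h : a ^ m * τ c = a ^ n * c) : m = n := by
  rcases lt_trichotomy m n with l | l | l
  · obtain ⟨r, rfl⟩ := Nat.exists_eq_add_of_lt l
    refine absurd (hH (r + 1) (by omega) c (mul_left_cancel₀ (pow_ne_zero m ha) ?_)) hc
    rw [h]; ring
  · exact l
  · obtain ⟨r, rfl⟩ := Nat.exists_eq_add_of_lt l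
    have hc' : τ c ≠ 0 := (map_ne_zero τ).2 hc
    refine absurd (hH (r + 1) (by omega) c⁻¹ ?_) (inv_ne_zero hc)
    have h1 : a ^ (r + 1) * τ c = c := mul_left_cancel₀ (pow_ne_zero n ha) (by rw [← h]; ring)
    rw [map_inv₀]
    field_simp
    rw [mul_comm, h1]

lemma top_monoKO {P : MvPolynomial ι k} (hP : P ≠ 0) :
    ∃ κ, coeff κ P ≠ 0 ∧ κ.degree = P.totalDegree ∧ ∀ ν, ν ≠ 0 → coeff (κ + ν) P = 0 := by
  obtain ⟨κ, h1, h2⟩ := Finset.exists_mem_eq_sup P.support (support_nonempty.2 hP)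
    fun s : ι →₀ ℕ => s.sum fun _ e => e
  have h3 : κ.degree = P.totalDegree := h2.symm
  refine ⟨κ, mem_support_iff.1 h1, h3, fun ν hν => by_contra fun h4 => ?_⟩
  have h5 : (κ + ν).degree ≤ P.totalDegree := le_totalDegree (mem_support_iff.2 h4)
  have h6 : ν.degree ≠ 0 := fun e => hν ((Finsupp.degree_eq_zero_iff ν).1 e)
  rw [map_add] at h5
  omega

lemma eigen_degKO {τ : k →+* k} {a : k} (ha : a ≠ 0)
    (hH : ∀ n : ℕ, 1 ≤ n → ∀ c, τ c = a ^ n * c → c = 0) {α : ι → k} {P : MvPolynomial ι k}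
    (hP : P ≠ 0) {m n : ℕ} (h : C (a ^ m) * twKO τ a α P = C (a ^ n) * P) :
    m + P.totalDegree = n := by
  obtain ⟨κ, h1, h2, h3⟩ := top_monoKO hP
  have h4 := congrArg (coeff κ) h
  rw [coeff_C_mul, coeff_C_mul, coeff_twKO τ a α h3, ← mul_assoc, ← pow_add, h2] at h4
  exact exp_eqKO ha hH h1 h4

lemma eigen_addKO [Fintype ι] (p : ℕ) [Fact p.Prime] [CharP k p] {τ : k →+* k} {a : k}
    (ha : a ≠ 0) (hH : ∀ n : ℕ, 1 ≤ n → ∀ c, τ c = a ^ n * c → c = 0) {α : ι → k} (n : ℕ) :
    ∀ P : MvPolynomial ι k, P ≠ 0 → 1 ≤ n → twKO τ a α P = C (a ^ n) * P →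
      ∃ (b : ℕ) (c : ι → k) (s : k), c ≠ 0 ∧ (∀ j, τ (c j) = c j) ∧
        twKO τ a α (C s + ∑ j, C (c j) * X j ^ p ^ b) =
          C (a ^ p ^ b) * (C s + ∑ j, C (c j) * X j ^ p ^ b) := by
  classical
  induction n using Nat.strong_induction_on with
  | _ n ih =>
  intro P hP hn h
  have h1 : ∀ κ : ι →₀ ℕ, C (a ^ κ.degree) * twKO τ a α (coeff κ (shift P)) =
      C (a ^ n) * coeff κ (shift P) := fun κ => by rw [← shift_twKO, h, shift_C_mulKO]
  have h2 : ∀ κ : ι →₀ ℕ, coeff κ (shift P) ≠ 0 → twKO τ a α (coeff κ (shift P)) =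
      C (a ^ (coeff κ (shift P)).totalDegree) * coeff κ (shift P) := fun κ hκ => by
    refine mul_left_cancel₀ (a := C (a ^ κ.degree)) (by simp [ha]) ?_
    rw [h1, ← mul_assoc, ← map_mul, ← pow_add, eigen_degKO ha hH hκ (h1 κ)]
  by_cases h3 : ∃ κ : ι →₀ ℕ, κ ≠ 0 ∧ coeff κ (shift P) ≠ 0 ∧ 1 ≤ (coeff κ (shift P)).totalDegree
  · obtain ⟨κ, e1, e2, e3⟩ := h3
    have e4 := eigen_degKO ha hH e2 (h1 κ)
    have e5 : κ.degree ≠ 0 := fun e => e1 ((Finsupp.degree_eq_zero_iff κ).1 e)
    exact ih _ (by omega) _ e2 e3 (h2 κ e2)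
  have h4 : ∀ κ : ι →₀ ℕ, κ ≠ 0 → (coeff κ (shift P)).totalDegree = 0 := fun κ hκ => by
    by_contra e
    refine h3 ⟨κ, hκ, fun e1 => e ?_, by omega⟩
    rw [e1, totalDegree_zero]
  have h5 : ∀ κ : ι →₀ ℕ, κ ≠ 0 → coeff κ (shift P) = C (coeff κ P) := fun κ hκ => by
    rw [← shift_zero_coeff]
    exact totalDegree_eq_zero_iff_eq_C.1 (h4 κ hκ)
  have h6 : ∀ κ : ι →₀ ℕ, κ ≠ 0 → coeff κ P ≠ 0 → κ.degree = n := fun κ hκ e => by
    have := eigen_degKO ha hH (P := coeff κ (shift P)) (by rw [h5 κ hκ]; simpa using e) (h1 κ)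
    rwa [h4 κ hκ] at this
  have h7 : ∀ κ : ι →₀ ℕ, κ ≠ 0 → τ (coeff κ P) = coeff κ P := fun κ hκ => by
    by_cases e : coeff κ P = 0
    · rw [e, map_zero]
    · have := h2 κ (by rw [h5 κ hκ]; simpa using e)
      rw [h4 κ hκ, h5 κ hκ] at this
      simpa using this
  have h8 : ∀ μ, coeff μ P ≠ 0 → μ = 0 ∨ ∃ j b, μ = Finsupp.single j (p ^ b) := fun μ hμ =>
    add_form p (fun κ hκ => ⟨_, h5 κ hκ⟩) hμ
  obtain ⟨κ, e1, e2, -⟩ := top_monoKO hP
  have e3 : P.totalDegree = n := by
    have := eigen_degKO ha hH hP (m := 0) (n := n) (α := α) (by rw [← h]; simp)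
    omega
  have e4 : κ ≠ 0 := fun e => by
    rw [e, map_zero] at e2
    omega
  obtain ⟨j, b, rfl⟩ := (h8 κ e1).resolve_left e4
  rw [Finsupp.degree_single, e3] at e2
  have hq : p ^ b ≠ 0 := by omega
  have e5 : P = C (coeff 0 P) + ∑ j, C (coeff (Finsupp.single j (p ^ b)) P) * X j ^ p ^ b := by
    ext μ
    simp only [coeff_add, coeff_sum, C_mul_X_pow_eq_monomial, coeff_monomial, coeff_C]
    by_cases e : 0 = μ
    · rw [if_pos e, ← e, Finset.sum_eq_zero fun i _ => if_neg (by simpa using hq), add_zero]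
    rw [if_neg e, zero_add]
    by_cases e6 : ∃ i, Finsupp.single i (p ^ b) = μ
    · obtain ⟨i, rfl⟩ := e6
      rw [Finset.sum_eq_single i (fun i' _ hi => if_neg fun e7 =>
        hi (Finsupp.single_left_injective hq e7)) (fun e7 => absurd (Finset.mem_univ _) e7),
        if_pos rfl]
    · rw [Finset.sum_eq_zero fun i _ => if_neg fun e7 => e6 ⟨i, e7⟩]
      by_contra e7
      obtain ⟨i, b', rfl⟩ := (h8 μ e7).resolve_left (Ne.symm e)
      have e8 := h6 _ (Ne.symm e) e7
      rw [Finsupp.degree_single, ← e2] at e8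
      exact e6 ⟨i, by rw [e8]⟩
  refine ⟨b, fun j => coeff (Finsupp.single j (p ^ b)) P, coeff 0 P, fun e => e1 (congrFun e j),
    fun i => h7 _ (by simpa using hq), ?_⟩
  rw [← e5, e2, h]

lemma exists_eigenKO [Finite ι] (τ : k →+* k) (a : k) (α : ι → k)
    (I : Submodule k (MvPolynomial ι k)) (hI : I ≠ ⊥) (hT : ∀ P ∈ I, twKO τ a α P ∈ I) :
    ∃ P ∈ I, P ≠ 0 ∧ ∃ d : ℕ, twKO τ a α P = C (a ^ d) * P := by
  obtain ⟨P, hP, μ₀, lt, h1, h2, h3, h4, -, h6⟩ := exists_min I hI
  refine ⟨P, hP, fun e => by simp [e] at h1, μ₀.degree, sub_eq_zero.1 (h6 _ ?_ fun ν hν => ?_)⟩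
  · rw [C_mul']
    exact I.sub_mem (hT P hP) (I.smul_mem _ hP)
  by_contra e
  refine hν ?_
  rw [coeff_sub, coeff_C_mul, coeff_twKO τ a α fun κ hκ => by_contra fun e1 =>
    e (h4 ν κ hκ (h3 _ e1))]
  by_cases e2 : coeff ν P = 0
  · simp [e2]
  · rw [(h3 ν e2).resolve_right e, h1, map_one, sub_self]

end Eigen

section Main

variable {N ι : Type*} [Field N] {σ : N →+* N} {M : Subfield N}

lemma sigma_aevalKO {τ : M →+* M} (hτ : ∀ x : M, (τ x : N) = σ x) {a : M} {f : ι → N} {α : ι → M}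
    (hf : ∀ j, σ (f j) = α j + a * f j) (P : MvPolynomial ι M) :
    σ (aeval f P) = aeval f (twKO τ a α P) := by
  induction P using MvPolynomial.induction_on with
  | C c => simp [hτ, Subfield.algebraMap_ofSubfield]
  | add P Q hP hQ => simp only [map_add, hP, hQ]
  | mul_X P j hP => simp [hP, hf, Subfield.algebraMap_ofSubfield]

lemma dep_eigenKO [Finite ι] {τ : M →+* M} (hτ : ∀ x : M, (τ x : N) = σ x) {a : M} {f : ι → N}
    {α : ι → M} (hf : ∀ j, σ (f j) = α j + a * f j) (h : ¬ AlgebraicIndependent M f) :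
    ∃ P : MvPolynomial ι M, aeval f P = 0 ∧ P ≠ 0 ∧ ∃ d : ℕ, twKO τ a α P = C (a ^ d) * P := by
  refine exists_eigenKO τ a α (LinearMap.ker (aeval f : MvPolynomial ι M →ₐ[M] N).toLinearMap)
    (fun e => h (LinearMap.ker_eq_bot.1 e)) fun P hP => ?_
  have h1 : aeval f P = 0 := hP
  change aeval f (twKO τ a α P) = 0
  rw [← sigma_aevalKO hτ hf, h1, map_zero]

lemma zero_eigenKO {τ : M →+* M} {a : M} (ha : a ≠ 0)
    (hH : ∀ n : ℕ, 1 ≤ n → ∀ c, τ c = a ^ n * c → c = 0) {f : ι → N} {α : ι → M}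
    {P : MvPolynomial ι M} (h1 : aeval f P = 0) (h2 : P ≠ 0) {d : ℕ}
    (h : twKO τ a α P = C (a ^ d) * P) : 1 ≤ d := by
  by_contra e
  have h3 := eigen_degKO ha hH h2 (m := 0) (n := d) (α := α) (by rw [← h]; simp)
  have h4 := totalDegree_eq_zero_iff_eq_C.1 (show P.totalDegree = 0 by omega)
  rw [h4, aeval_C, map_eq_zero] at h1
  exact h2 (by rw [h4, h1, map_zero])

lemma drop_eigenKO {τ : M →+* M} {a : M} (ha : a ≠ 0)
    (hH : ∀ n : ℕ, 1 ≤ n → ∀ c, τ c = a ^ n * c → c = 0) {f : ι → N} {α : ι → M} {i : ι}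
    (hi : f i ≠ 0) (hα : α i = 0) (d : ℕ) : ∀ P : MvPolynomial ι M, aeval f P = 0 → P ≠ 0 →
      twKO τ a α P = C (a ^ d) * P → ∃ (n : ℕ) (Q : MvPolynomial {j // j ≠ i} M), Q ≠ 0 ∧ 1 ≤ n ∧
        twKO τ a (fun j : {j // j ≠ i} => α j) Q = C (a ^ n) * Q := by
  classical
  let π : MvPolynomial ι M →ₐ[M] MvPolynomial {j // j ≠ i} M :=
    aeval fun j => if h : j = i then 0 else X ⟨j, h⟩
  have hπ : ∀ P, π (twKO τ a α P) = twKO τ a (fun j : {j // j ≠ i} => α j) (π P) := fun P => by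
    induction P using MvPolynomial.induction_on with
    | C c => simp [π]
    | add P Q hP hQ => simp only [map_add, hP, hQ]
    | mul_X P j hP =>
      rw [map_mul, map_mul, map_mul, map_mul, hP]
      congr 1
      by_cases e : j = i
      · simp [π, e, hα]
      · simp [π, e]
  have hd : ∀ P, X i ∣ P - rename Subtype.val (π P) := fun P => by
    induction P using MvPolynomial.induction_on with
    | C c => simp [π]
    | add P Q hP hQ =>
      rw [map_add, map_add, add_sub_add_comm]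
      exact dvd_add hP hQ
    | mul_X P j hP =>
      rw [map_mul, map_mul]
      by_cases e : j = i
      · simp [π, e]
      · have : rename Subtype.val (π (X j)) = X j := by simp [π, e]
        rw [this, ← sub_mul]
        exact hP.mul_right _
  induction d with
  | zero => exact fun P h1 h2 h => absurd (zero_eigenKO ha hH h1 h2 h) (by omega)
  | succ d ih =>
    intro P h1 h2 h
    by_cases e : π P = 0
    · obtain ⟨Q, hQ⟩ := hd P
      rw [e, map_zero, sub_zero] at hQ
      subst hQ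
      rw [map_mul, aeval_X] at h1
      refine ih Q ((mul_eq_zero.1 h1).resolve_left hi) (right_ne_zero_of_mul h2) ?_
      refine mul_left_cancel₀ (a := C a * X i) (mul_ne_zero (by simp [ha]) (X_ne_zero i)) ?_
      rw [map_mul, twKO_X, hα, map_zero, zero_add] at h
      rw [h, pow_succ, map_mul]
      ring
    · refine ⟨d + 1, π P, e, by omega, ?_⟩
      rw [← hπ, h, map_mul]
      simp [π]

lemma indep_changeKO {k : Type*} [Field k] [Algebra k N] [Fintype ι] {g u : ι → N} {c : ι → k}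
    {s : k} {i : ι} (hi : c i ≠ 0) (h1 : ∀ j, j ≠ i → g j = u j)
    (h2 : g i = algebraMap k N s + ∑ j, algebraMap k N (c j) * u j)
    (hg : AlgebraicIndependent k g) : AlgebraicIndependent k u := by
  classical
  obtain ⟨G, hG1⟩ : ∃ G : ι → MvPolynomial ι k, ∀ j, G j = if j = i then
    C (c i)⁻¹ * (X i - C s - ∑ l ∈ Finset.univ.erase i, C (c l) * X l) else X j := ⟨_, fun _ => rfl⟩
  obtain ⟨G', hG2⟩ : ∃ G' : ι → MvPolynomial ι k, ∀ j, G' j =
    if j = i then C s + ∑ l, C (c l) * X l else X j := ⟨_, fun _ => rfl⟩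
  have hG : (aeval G').comp (aeval G) = AlgHom.id k (MvPolynomial ι k) := by
    refine algHom_ext fun j => ?_
    rw [AlgHom.comp_apply, aeval_X, AlgHom.id_apply, hG1]
    by_cases e : j = i
    · have e4 : ∑ l ∈ Finset.univ.erase i, C (c l) * G' l =
          ∑ l ∈ Finset.univ.erase i, C (c l) * X l :=
        Finset.sum_congr rfl fun l hl => by rw [hG2, if_neg (Finset.mem_erase.1 hl).1]
      have e5 := Finset.add_sum_erase Finset.univ
        (fun l => (C (c l) * X l : MvPolynomial ι k)) (Finset.mem_univ i)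
      have e6 : (C (c i)⁻¹ * C (c i) : MvPolynomial ι k) = 1 := by
        rw [← map_mul, inv_mul_cancel₀ hi, map_one]
      rw [if_pos e]
      simp only [map_mul, map_sub, map_sum, aeval_C, aeval_X, algebraMap_eq, e4]
      rw [hG2, if_pos rfl, ← e5, e]
      linear_combination X i * e6
    · rw [if_neg e, aeval_X, hG2, if_neg e]
  have hGi : AlgebraicIndependent k G := algebraicIndependent_iff.2 fun P hP => by
    have := AlgHom.congr_fun hG P
    rw [AlgHom.comp_apply, hP, map_zero] at this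
    exact this.symm
  have e7 := hg.aeval_of_algebraicIndependent hGi
  have e8 : u = fun j => aeval g (G j) := by
    funext j
    rw [hG1]
    by_cases e : j = i
    · have e4 : ∑ l ∈ Finset.univ.erase i, algebraMap k N (c l) * g l =
          ∑ l ∈ Finset.univ.erase i, algebraMap k N (c l) * u l :=
        Finset.sum_congr rfl fun l hl => by rw [h1 l (Finset.mem_erase.1 hl).1]
      have e5 := Finset.add_sum_erase Finset.univ (fun l => algebraMap k N (c l) * u l)
        (Finset.mem_univ i)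
      have e6 : algebraMap k N (c i)⁻¹ * algebraMap k N (c i) = 1 := by
        rw [← map_mul, inv_mul_cancel₀ hi, map_one]
      rw [if_pos e]
      simp only [map_mul, map_sub, map_sum, aeval_C, aeval_X, e4]
      rw [h2, ← e5, e]
      linear_combination (-u i) * e6
    · rw [if_neg e, aeval_X, h1 j e]
  rw [e8]
  exact e7

end Main

theorem ko {N ι : Type*} [Field N] [Fintype ι] (p : ℕ) [Fact p.Prime] [CharP N p]
    (σ : N →+* N) (M : Subfield N) (hM : ∀ x ∈ M, σ x ∈ M) {a : N} (ha : a ∈ M) (ha0 : a ≠ 0)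
    (hC : ∀ x, σ x = x → x ∈ M)
    (hH : ∀ n : ℕ, 1 ≤ n → ∀ c ∈ M, σ c = a ^ n * c → c = 0)
    (f α : ι → N) (hα : ∀ j, α j ∈ M) (hf : ∀ j, σ (f j) = α j + a * f j)
    (h2 : ∀ (b : ℕ) (c : ι → N), (∀ j, σ (c j) = c j) → ∑ j, c j * f j ^ p ^ b ∈ M → c = 0) :
    AlgebraicIndependent M f := by
  classical
  by_contra hdep
  lift a to M using ha
  lift α to ι → M using hα
  let τ : M →+* M := σ.restrict M M hM
  have hτ : ∀ x : M, (τ x : N) = σ x := fun x => rfl
  have ha1 : a ≠ 0 := fun e => ha0 (by rw [e]; rfl)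
  have hH1 : ∀ n : ℕ, 1 ≤ n → ∀ c, τ c = a ^ n * c → c = 0 := fun n hn c hc =>
    Subtype.ext (hH n hn c c.2 (by rw [← hτ, hc]; simp))
  obtain ⟨P, e1, e2, d, e3⟩ := dep_eigenKO hτ hf hdep
  obtain ⟨b, c, s, hc, hcτ, hQ⟩ := eigen_addKO p ha1 hH1 d P e2 (zero_eigenKO ha1 hH1 e1 e2 e3) e3
  have hcσ : ∀ j, σ (c j) = c j := fun j => by rw [← hτ, hcτ]
  obtain ⟨h, hh⟩ : ∃ h : N, h = s + ∑ j, c j * f j ^ p ^ b := ⟨_, rfl⟩
  have hhσ : σ h = (a ^ p ^ b : M) * h := by
    have := sigma_aevalKO hτ hf (C s + ∑ j, C (c j) * X j ^ p ^ b)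
    rw [hQ] at this
    simpa [hh, Subfield.algebraMap_ofSubfield] using this
  have hh0 : h ≠ 0 := fun e => by
    have := h2 b (fun j => c j) hcσ (by
      rw [show ∑ j, (c j : N) * f j ^ p ^ b = -s by rw [eq_neg_iff_add_eq_zero, add_comm, ← hh, e]]
      exact M.neg_mem s.2)
    exact hc (funext fun j => Subtype.ext (congrFun this j))
  obtain ⟨i, hi⟩ := Function.ne_iff.1 hc
  have hi0 : (c i : N) ≠ 0 := fun e => hi (Subtype.ext e)
  have hfq : ∀ j, σ (f j ^ p ^ b) = (α j ^ p ^ b : M) + (a ^ p ^ b : M) * f j ^ p ^ b := fun j => by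
    rw [map_pow, hf, add_pow_char_pow, mul_pow]
    simp
  have hH2 : ∀ n : ℕ, 1 ≤ n → ∀ c, τ c = (a ^ p ^ b) ^ n * c → c = 0 := fun n hn c hc =>
    hH1 (p ^ b * n) (Nat.mul_pos (pow_pos (Fact.out : p.Prime).pos b) hn) c (by rw [hc, pow_mul])
  let g : ι → N := fun j => if j = i then h else f j ^ p ^ b
  let β : ι → M := fun j => if j = i then 0 else α j ^ p ^ b
  have hg : ∀ j, σ (g j) = β j + (a ^ p ^ b : M) * g j := fun j => by
    by_cases e : j = i
    · simp only [g, β, if_pos e, hhσ]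
      simp
    · simp only [g, β, if_neg e, hfq]
  have hgd : ¬ AlgebraicIndependent M g := fun hgi => by
    refine hdep (AlgebraicIndependent.of_ringHom_of_comp_eq (iterateFrobenius M p b)
      (iterateFrobenius N p b) ?_ (RingHom.injective _) ?_)
    · exact indep_changeKO (u := fun j => f j ^ p ^ b) hi (fun j e => if_neg e)
        ((if_pos rfl).trans hh) hgi
    · ext x
      simp [iterateFrobenius_def, Subfield.algebraMap_ofSubfield]
  obtain ⟨P', e4, e5, d', e6⟩ := dep_eigenKO hτ hg hgd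
  obtain ⟨n, Q, e7, e8, e9⟩ := drop_eigenKO (pow_ne_zero _ ha1) hH2 (f := g) (α := β) (i := i)
    (by simpa [g] using hh0) (by simp [β]) d' P' e4 e5 e6
  obtain ⟨b', c', s', hc', hcτ', hQ'⟩ := eigen_addKO p (pow_ne_zero _ ha1) hH2 n Q e7 e8 e9
  obtain ⟨h', hh'⟩ : ∃ h' : N, h' = s' + ∑ j : {j // j ≠ i}, c' j * g j ^ p ^ b' := ⟨_, rfl⟩
  have hhσ' : σ h' = ((a ^ p ^ b) ^ p ^ b' : M) * h' := by
    have := sigma_aevalKO hτ (f := fun j : {j // j ≠ i} => g j) (fun j => hg j)
      (C s' + ∑ j, C (c' j) * X j ^ p ^ b')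
    rw [hQ'] at this
    simpa [hh', Subfield.algebraMap_ofSubfield] using this
  obtain ⟨r, hr⟩ : ∃ r : N, r = h' / h ^ p ^ b' := ⟨_, rfl⟩
  have hrσ : σ r = r := by
    rw [hr, map_div₀, map_pow, hhσ, hhσ', mul_pow]
    simp only [SubmonoidClass.coe_pow]
    exact mul_div_mul_left _ _ (pow_ne_zero _ (pow_ne_zero _ ha0))
  let c'' : ι → N := fun j => if e : j = i then 0 else c' ⟨j, e⟩
  have f1 : ∑ j, c'' j * f j ^ p ^ (b + b') = h' - s' := by
    rw [hh', add_sub_cancel_left, Fintype.sum_eq_add_sum_subtype_ne _ i]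
    simp only [c'', dif_pos rfl, zero_mul, zero_add]
    refine Finset.sum_congr rfl fun j _ => ?_
    simp only [g, dif_neg j.2, if_neg j.2, pow_add, pow_mul]
  have f2 : ∑ j, (c j : N) ^ p ^ b' * f j ^ p ^ (b + b') = h ^ p ^ b' - s ^ p ^ b' := by
    rw [hh, add_pow_char_pow, add_sub_cancel_left, sum_pow_char_pow]
    simp only [mul_pow, pow_add, pow_mul]
  have f3 := h2 (b + b') (fun j => c'' j - r * c j ^ p ^ b') (fun j => by
    rw [map_sub, map_mul, map_pow, hrσ, hcσ]
    congr 1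
    by_cases e : j = i
    · simp [c'', e]
    · simp only [c'', dif_neg e]
      rw [← hτ, hcτ']) (by
    simp only [sub_mul, mul_assoc, Finset.sum_sub_distrib, ← Finset.mul_sum, f1, f2]
    rw [show h' - s' - r * (h ^ p ^ b' - s ^ p ^ b') = r * s ^ p ^ b' - s' by
      rw [hr]; field_simp; ring]
    exact M.sub_mem (M.mul_mem (hC r hrσ) (M.pow_mem s.2 _)) s'.2)
  have f4 : r = 0 := by
    have := congrFun f3 i
    simpa [c'', hi0] using this
  refine hc' (funext fun j => Subtype.ext ?_)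
  have := congrFun f3 j
  simpa [c'', f4, j.2] using this

end Pool.Agent.MP_ee2255_nt.S

end

section

/-! Auxiliary lemmas for the independence of Anderson generating functions. -/

namespace Pool.Agent.MP_ee2255_nt.S

open Polynomial

section Fr
variable {R Ω : Type*} [CommRing R] [Field Ω]

/-- The field of fractions of the image of a ring homomorphism. -/
def slogFr (g : R →+* Ω) : Subfield Ω := Subfield.closure (Set.range g)

lemma slog_self (g : R →+* Ω) (A : R) : g A ∈ slogFr g := Subfield.subset_closure ⟨A, rfl⟩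

lemma slog_mem {g : R →+* Ω} {x : Ω} : x ∈ slogFr g ↔ ∃ A B, g B ≠ 0 ∧ x * g B = g A := by
  constructor
  · intro h
    obtain ⟨y, hy, z, hz, rfl⟩ := Subfield.mem_closure_iff.1 h
    have e : Subring.closure (Set.range g) = g.range := Subring.closure_eq g.range
    rw [e] at hy hz
    obtain ⟨A, rfl⟩ := hy
    obtain ⟨B, rfl⟩ := hz
    by_cases hB : g B = 0
    · exact ⟨0, 1, by simp, by simp [hB]⟩
    · exact ⟨A, B, hB, div_mul_cancel₀ _ hB⟩
  · rintro ⟨A, B, hB, h⟩
    rw [eq_div_of_mul_eq hB h]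
    exact div_mem (slog_self g A) (slog_self g B)

lemma slog_stable {g : R →+* Ω} (σ : Ω →+* Ω) (s : R →+* R) (h : ∀ A, σ (g A) = g (s A)) :
    ∀ x ∈ slogFr g, σ x ∈ slogFr g := by
  intro x hx
  obtain ⟨A, B, hB, e⟩ := slog_mem.1 hx
  refine slog_mem.2 ⟨s A, s B, ?_, by rw [← h, ← h, ← map_mul, e]⟩
  rw [← h]
  exact (map_ne_zero σ).2 hB

lemma slog_ko {ι : Type*} [Fintype ι] (p : ℕ) [Fact p.Prime] [CharP Ω p]
    (σ : Ω →+* Ω) (N M : Subfield Ω) (hN : ∀ x ∈ N, σ x ∈ N) (hMN : M ≤ N)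
    (hM : ∀ x ∈ M, σ x ∈ M) {a : Ω} (ha : a ∈ M) (ha0 : a ≠ 0)
    (hC : ∀ x ∈ N, σ x = x → x ∈ M)
    (hH : ∀ n : ℕ, 1 ≤ n → ∀ c ∈ M, σ c = a ^ n * c → c = 0)
    (f α : ι → Ω) (hfN : ∀ j, f j ∈ N) (hα : ∀ j, α j ∈ M) (hf : ∀ j, σ (f j) = α j + a * f j)
    (h2 : ∀ (b : ℕ) (c : ι → Ω), (∀ j, c j ∈ M) → (∀ j, σ (c j) = c j) →
      ∑ j, c j * f j ^ p ^ b ∈ M → c = 0) :
    AlgebraicIndependent M f := by
  let σ' : N →+* N := (σ.comp N.subtype).codRestrict N fun x => hN x x.2
  have hσ' : ∀ x : N, (σ' x : Ω) = σ x := fun _ => rfl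
  have key := ko p σ' (M.comap N.subtype) (fun x hx => hM x hx) (a := ⟨a, hMN ha⟩) ha
    (fun h => ha0 (congrArg Subtype.val h)) (fun x hx => hC x x.2 (congrArg Subtype.val hx))
    (fun n hn c hc h => Subtype.ext (hH n hn c hc (congrArg Subtype.val h)))
    (fun j => ⟨f j, hfN j⟩) (fun j => ⟨α j, hMN (hα j)⟩) hα (fun j => Subtype.ext (hf j))
    fun b c hc h => by
      have h3 := h2 b (fun j => c j) (fun j => hC _ (c j).2 (congrArg Subtype.val (hc j)))
        (fun j => congrArg Subtype.val (hc j)) (by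
          have h4 : N.subtype _ ∈ M := h
          simpa [map_sum] using h4)
      exact funext fun j => Subtype.ext (congrFun h3 j)
  let e : M.comap N.subtype →+* M :=
    (N.subtype.comp (M.comap N.subtype).subtype).codRestrict M fun x => x.2
  exact key.ringHom_of_comp_eq e N.subtype (fun x => ⟨⟨⟨x.1, hMN x.2⟩, x.2⟩, rfl⟩)
    Subtype.val_injective rfl

end Fr

lemma slog_fix {F L : Type*} [Field F] [Fintype F] [Field L] [Algebra F L] {x : L}
    (h : x ^ Fintype.card F = x) : ∃ c : F, algebraMap F L c = x := by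
  have h1 := roots_map_of_injective_of_card_eq_natDegree (algebraMap F L).injective
    (p := X ^ Fintype.card F - X) (by
      rw [FiniteField.roots_X_pow_card_sub_X,
        FiniteField.X_pow_card_sub_X_natDegree_eq F Fintype.one_lt_card]
      rfl)
  have h2 : x ∈ ((X ^ Fintype.card F - X : F[X]).map (algebraMap F L)).roots := by
    rw [mem_roots ((Polynomial.map_ne_zero_iff (algebraMap F L).injective).2
      (FiniteField.X_pow_card_sub_X_ne_zero F Fintype.one_lt_card))]
    simp [h]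
  rw [← h1] at h2
  obtain ⟨c, -, hc⟩ := Multiset.mem_map.1 h2
  exact ⟨c, hc⟩

section Den
variable {L Ω : Type*} [Field L] [Field Ω] {g : L[X] →+* Ω} (hg : Function.Injective g)
  (φ : L →+* L) (σ : Ω →+* Ω) (hσ : ∀ A, σ (g A) = g (A.map φ))

include hg hσ

lemma slog_den {r : Ω} (hr : r ∈ slogFr g) {u v : L[X]} (h : σ r = g u + g v * r) :
    ∃ A B : L[X], B ≠ 0 ∧ B.map φ = B ∧ r * g B = g A := by
  obtain ⟨A, B, hB, e⟩ := slog_mem.1 hr
  have hB0 : B ≠ 0 := fun h0 => hB (by rw [h0, map_zero])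
  obtain ⟨A', B', h1, h2, h3⟩ : ∃ A' B' : L[X], IsCoprime A' B' ∧ B'.Monic ∧ A' * B = A * B' :=
    ⟨_, _, RatFunc.isCoprime_num_denom (algebraMap _ _ A / algebraMap _ _ B),
      RatFunc.monic_denom _, (RatFunc.num_mul_eq_mul_denom_iff hB0).2 rfl⟩
  have e1 : r * g B' = g A' := by
    apply mul_right_cancel₀ hB
    rw [← map_mul, h3, map_mul, ← e]
    ring
  refine ⟨A', B', h2.ne_zero, ?_, e1⟩
  have e2 : (g u + g v * r) * g (B'.map φ) = g (A'.map φ) := by
    rw [← h, ← hσ, ← hσ, ← map_mul, e1]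
  have e3 : B'.map φ * (u * B' + v * A') = A'.map φ * B' := by
    apply hg
    simp only [map_mul, map_add]
    rw [← e2, ← e1]
    ring
  have h4 : IsCoprime (B'.map φ) (A'.map φ) := h1.symm.map (mapRingHom φ)
  have h5 : B'.map φ ∣ B' := h4.dvd_of_dvd_mul_left ⟨_, e3.symm⟩
  exact (eq_of_monic_of_dvd_of_natDegree_le (h2.map φ) h2 h5
    (natDegree_map_eq_of_injective φ.injective B').ge).symm

lemma slog_hH (θ : L) (n : ℕ) (hn : 1 ≤ n) (c : Ω) (hc : c ∈ slogFr g)
    (h : σ c = g (X - C θ) ^ n * c) : c = 0 := by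
  obtain ⟨A, B, hB, e⟩ := slog_mem.1 hc
  have hB0 : B ≠ 0 := fun h0 => hB (by rw [h0, map_zero])
  by_contra hc0
  have hA0 : A ≠ 0 := fun h0 => by
    rw [h0, map_zero] at e
    exact mul_ne_zero hc0 hB e
  have e2 : g (X - C θ) ^ n * c * g (B.map φ) = g (A.map φ) := by
    rw [← h, ← hσ, ← hσ, ← map_mul, e]
  have e3 : (X - C θ) ^ n * A * B.map φ = A.map φ * B := by
    apply hg
    simp only [map_mul, map_pow]
    rw [← e2, ← e]
    ring
  have h1 := (Polynomial.map_ne_zero_iff φ.injective).2 hA0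
  have h2 := (Polynomial.map_ne_zero_iff φ.injective).2 hB0
  have h3 : (X - C θ) ^ n ≠ 0 := pow_ne_zero _ (X_sub_C_ne_zero θ)
  have e4 := congrArg natDegree e3
  rw [natDegree_mul (mul_ne_zero h3 hA0) h2, natDegree_mul h3 hA0, natDegree_mul h1 hB0,
    natDegree_pow, natDegree_X_sub_C, natDegree_map_eq_of_injective φ.injective,
    natDegree_map_eq_of_injective φ.injective] at e4
  omega

end Den

lemma slog_cartier {L : Type*} [CommRing L] (y z : PowerSeries L) {Q ρ : ℕ} (hQ : Q ≠ 0)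
    (hρ : ρ < Q) (m : ℕ) :
    PowerSeries.coeff (m * Q + ρ) (y * PowerSeries.expand Q hQ z) =
      PowerSeries.coeff m (PowerSeries.mk (fun l => PowerSeries.coeff (l * Q + ρ) y) * z) := by
  rw [PowerSeries.coeff_mul, PowerSeries.coeff_mul]
  symm
  refine Finset.sum_of_injOn (fun x : ℕ × ℕ => (x.1 * Q + ρ, Q * x.2)) ?_ ?_ ?_ ?_
  · rintro ⟨l, k⟩ - ⟨l', k'⟩ - h
    simp only [Prod.mk.injEq, add_left_inj] at h
    exact Prod.ext (Nat.eq_of_mul_eq_mul_right (Nat.pos_of_ne_zero hQ) h.1)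
      (Nat.eq_of_mul_eq_mul_left (Nat.pos_of_ne_zero hQ) h.2)
  · rintro ⟨l, k⟩ h
    simp only [Finset.mem_coe, Finset.HasAntidiagonal.mem_antidiagonal] at h ⊢
    rw [← h]
    ring
  · rintro ⟨u, w⟩ h h'
    rw [Finset.HasAntidiagonal.mem_antidiagonal] at h
    simp only at h ⊢
    by_cases hw : Q ∣ w
    · obtain ⟨k, rfl⟩ := hw
      have hk : k ≤ m := by
        by_contra hk
        have : Q * (m + 1) ≤ Q * k := Nat.mul_le_mul_left _ (by omega)
        nlinarith
      obtain ⟨l, rfl⟩ := Nat.exists_eq_add_of_le' hk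
      refine absurd ⟨(l, k), by simp, Prod.ext ?_ rfl⟩ h'
      simp only
      nlinarith
    · rw [PowerSeries.coeff_expand_of_not_dvd _ _ _ hw, mul_zero]
  · rintro ⟨l, k⟩ -
    simp [PowerSeries.coeff_expand_mul]

lemma slog_pow {L : Type*} [CommRing L] (p : ℕ) [Fact p.Prime] [CharP L p] (b : ℕ)
    (y : PowerSeries L) : y ^ p ^ b = PowerSeries.expand (p ^ b)
      (pow_ne_zero b (Fact.out : p.Prime).ne_zero) (PowerSeries.map (iterateFrobenius L p b) y) := by
  rw [← PowerSeries.map_expand]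
  exact (MvPowerSeries.map_iterateFrobenius_expand p (Fact.out : p.Prime).ne_zero y b).symm

lemma slog_extract {F L κ : Type*} [Field F] [Fintype F] [Field L] [Algebra F L] [Fintype κ]
    (p : ℕ) [Fact p.Prime] [CharP F p] (a : κ → ℕ → L)
    (hind : ∀ (d : ℕ) (c : κ → ℕ → F), (∃ n₀, ∀ n ≥ n₀, ∑ j, ∑ l ∈ Finset.range d,
      algebraMap F L (c j l) * a j (n + d - l) = 0) → ∀ j, ∀ l < d, c j l = 0)
    (b : ℕ) (D : κ → F[X]) (A : L[X])
    (h : ∑ j, (((D j).map (algebraMap F L) : L[X]) : PowerSeries L) *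
      PowerSeries.mk (fun i => a j (i + 1)) ^ p ^ b = A) (j : κ) : D j = 0 := by
  have : CharP L p := charP_of_injective_algebraMap (algebraMap F L).injective p
  have hQ : p ^ b ≠ 0 := pow_ne_zero b (Fact.out : p.Prime).ne_zero
  obtain ⟨d, hd⟩ : ∃ d, ∀ j, (D j).natDegree < d :=
    ⟨∑ j, (D j).natDegree + 1, fun j => Nat.lt_succ_of_le
      (Finset.single_le_sum (f := fun j => (D j).natDegree) (fun _ _ => Nat.zero_le _)
        (Finset.mem_univ j))⟩
  have hs : Function.Surjective (iterateFrobenius F p b) :=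
    Finite.surjective_of_injective (iterateFrobenius F p b).injective
  have key : ∀ ρ < p ^ b, ∀ l, (D j).coeff (l * p ^ b + ρ) = 0 := by
    intro ρ hρ
    choose c hc using fun j l => hs ((D j).coeff (l * p ^ b + ρ))
    have hc0 : ∀ j l, d ≤ l → c j l = 0 := fun j l hl => by
      apply (iterateFrobenius F p b).injective
      rw [hc, map_zero]
      refine coeff_eq_zero_of_natDegree_lt ((hd j).trans_le (hl.trans ?_))
      exact (Nat.le_mul_of_pos_right l (Nat.pos_of_ne_zero hQ)).trans (Nat.le_add_right _ _)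
    have h1 := hind d c ⟨A.natDegree + 2, fun n hn => ?_⟩ j
    · intro l
      rw [← hc]
      by_cases hl : l < d
      · rw [h1 l hl, map_zero]
      · rw [hc0 j l (not_lt.1 hl), map_zero]
    obtain ⟨m, hm⟩ : ∃ m, n + d = m + 1 := ⟨n + d - 1, by omega⟩
    have h2 := congrArg (PowerSeries.coeff (m * p ^ b + ρ)) h
    have h3 : A.natDegree < m * p ^ b + ρ :=
      lt_of_lt_of_le (by omega) ((Nat.le_mul_of_pos_right m (Nat.pos_of_ne_zero hQ)).trans
        (Nat.le_add_right _ _))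
    rw [coeff_coe, coeff_eq_zero_of_natDegree_lt h3, map_sum] at h2
    apply (iterateFrobenius L p b).injective
    rw [map_zero, ← h2, map_sum]
    refine Finset.sum_congr rfl fun j _ => ?_
    rw [slog_pow, slog_cartier _ _ hQ hρ]
    have e : PowerSeries.mk (fun l => PowerSeries.coeff (l * p ^ b + ρ)
        (((D j).map (algebraMap F L) : L[X]) : PowerSeries L)) =
        PowerSeries.map (iterateFrobenius L p b)
          (PowerSeries.mk fun l => algebraMap F L (c j l)) := by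
      ext l
      simp only [PowerSeries.coeff_mk, coeff_coe, coeff_map, PowerSeries.coeff_map, ← hc,
        iterateFrobenius_def, map_pow]
    rw [e, ← map_mul, PowerSeries.coeff_map, PowerSeries.coeff_mul,
      Finset.Nat.sum_antidiagonal_eq_sum_range_succ_mk]
    congr 1
    simp only [PowerSeries.coeff_mk]
    refine Eq.trans (Finset.sum_congr rfl fun l hl => ?_) (Finset.sum_subset
      (s₁ := Finset.range d) (Finset.range_subset_range.2 (by omega))
      fun l _ hl => by rw [hc0 j l (by simpa using hl), map_zero, zero_mul])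
    have := Finset.mem_range.1 hl
    rw [show n + d - l = m - l + 1 by omega]
  ext u
  rw [← Nat.div_add_mod' u (p ^ b), key _ (Nat.mod_lt _ (Nat.pos_of_ne_zero hQ)), coeff_zero]

section T0
variable {R : Type*} [CommRing R] [IsDomain R]

/-- The twist on power series. -/
noncomputable def slogS (q : ℕ) (hq : q ≠ 0) (s : R →+* R) : PowerSeries R →+* PowerSeries R :=
  (PowerSeries.expand q hq).toRingHom.comp (PowerSeries.map s)

omit [IsDomain R] in
lemma slogS_apply (q : ℕ) (hq : q ≠ 0) (s : R →+* R) (x : PowerSeries R) :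
    slogS q hq s x = PowerSeries.expand q hq (PowerSeries.map s x) := rfl

omit [IsDomain R] in
lemma slogS_X (q : ℕ) (hq : q ≠ 0) (s : R →+* R) :
    slogS q hq s PowerSeries.X = PowerSeries.X ^ q := by simp [slogS_apply]

omit [IsDomain R] in
lemma slogS_C (q : ℕ) (hq : q ≠ 0) (s : R →+* R) (r : R) :
    slogS q hq s (PowerSeries.C r) = PowerSeries.C (s r) := by
  simp [slogS_apply, PowerSeries.expand_C]

omit [IsDomain R] in
lemma slogS_const (q : ℕ) (hq : q ≠ 0) (s : R →+* R) (x : PowerSeries R) :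
    PowerSeries.constantCoeff (slogS q hq s x) = s (PowerSeries.constantCoeff x) := by
  rw [slogS_apply, PowerSeries.constantCoeff_expand, ← PowerSeries.coeff_zero_eq_constantCoeff_apply,
    PowerSeries.coeff_map, PowerSeries.coeff_zero_eq_constantCoeff_apply]

omit [IsDomain R] in
lemma slog_decomp {A : PowerSeries R} (hA : A ≠ 0) :
    ∃ (a : ℕ) (A₁ : PowerSeries R), PowerSeries.constantCoeff A₁ ≠ 0 ∧
      A = PowerSeries.X ^ a * A₁ :=
  ⟨_, _, fun h => hA (PowerSeries.constantCoeff_divXPowOrder_eq_zero_iff.1 h),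
    PowerSeries.X_pow_order_mul_divXPowOrder.symm⟩

omit [IsDomain R] in
lemma slog_exp_le {m n : ℕ} {U V : PowerSeries R} (hU : PowerSeries.constantCoeff U ≠ 0)
    (h : PowerSeries.X ^ m * U = PowerSeries.X ^ n * V) : n ≤ m := by
  by_contra hn
  have := congrArg (PowerSeries.coeff m) h
  rw [PowerSeries.coeff_X_pow_mul', PowerSeries.coeff_X_pow_mul', if_pos le_rfl, if_neg hn,
    Nat.sub_self, PowerSeries.coeff_zero_eq_constantCoeff_apply] at this
  exact hU this

lemma slog_ord {q : ℕ} (hq : q ≠ 0) (hq1 : 1 < q) {s : R →+* R} (hs : Function.Injective s)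
    {a b : ℕ} {A B : PowerSeries R} (hA : PowerSeries.constantCoeff A ≠ 0)
    (hB : PowerSeries.constantCoeff B ≠ 0)
    (h : slogS q hq s (PowerSeries.X ^ a * A) * (PowerSeries.X ^ b * B) =
      PowerSeries.X ^ a * A * slogS q hq s (PowerSeries.X ^ b * B)) :
    a = b ∧ slogS q hq s A * B = A * slogS q hq s B := by
  have h1 : PowerSeries.X ^ (q * a + b) * (slogS q hq s A * B) =
      PowerSeries.X ^ (a + q * b) * (A * slogS q hq s B) := by
    simp only [map_mul, map_pow, slogS_X] at h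
    rw [pow_add, pow_add, pow_mul, pow_mul]
    linear_combination h
  have h2 := slog_exp_le (by
    rw [map_mul, slogS_const]
    exact mul_ne_zero ((map_ne_zero_iff s hs).2 hA) hB) h1
  have h3 := slog_exp_le (by
    rw [map_mul, slogS_const]
    exact mul_ne_zero hA ((map_ne_zero_iff s hs).2 hB)) h1.symm
  have h4 : a = b := by
    obtain ⟨r, rfl⟩ : ∃ r, q = r + 2 := ⟨q - 2, by omega⟩
    nlinarith
  subst h4
  rw [add_comm a] at h1
  exact ⟨rfl, mul_left_cancel₀ (pow_ne_zero _ PowerSeries.X_ne_zero) h1⟩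

lemma slog_T0fix {q : ℕ} (hq : q ≠ 0) (hq1 : 1 < q) {s : R →+* R} (hs : Function.Injective s)
    {A B : PowerSeries R} (hB : B ≠ 0) (h : slogS q hq s A * B = A * slogS q hq s B) :
    ∃ A₀ B₀ : R, B₀ ≠ 0 ∧ A * PowerSeries.C B₀ = PowerSeries.C A₀ * B := by
  by_cases hA : A = 0
  · exact ⟨0, 1, one_ne_zero, by simp [hA]⟩
  obtain ⟨a, A, hA₁, rfl⟩ := slog_decomp hA
  obtain ⟨b, B, hB₁, rfl⟩ := slog_decomp hB
  obtain ⟨rfl, h1⟩ := slog_ord hq hq1 hs hA₁ hB₁ h
  refine ⟨PowerSeries.constantCoeff A, PowerSeries.constantCoeff B, hB₁, ?_⟩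
  have h2 := congrArg (fun x => PowerSeries.C (PowerSeries.constantCoeff x)) h1
  simp only [map_mul, slogS_const] at h2
  have h3 : A * PowerSeries.C (PowerSeries.constantCoeff B) -
      PowerSeries.C (PowerSeries.constantCoeff A) * B = 0 := by
    by_contra h4
    obtain ⟨c, U, hU, e⟩ := slog_decomp h4
    have h5 := (slog_ord hq hq1 hs (a := c) (b := 0) hU
      (B := B * PowerSeries.C (PowerSeries.constantCoeff B)) (by simpa using hB₁) (by
        rw [← e]
        simp only [map_mul, map_sub, slogS_C, pow_zero, one_mul]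
        linear_combination (PowerSeries.C (s (PowerSeries.constantCoeff B)) *
          PowerSeries.C (PowerSeries.constantCoeff B)) * h1 - (slogS q hq s B * B) * h2)).1
    rw [h5, pow_zero, one_mul] at e
    rw [← e] at hU
    simp [mul_comm] at hU
  linear_combination PowerSeries.X ^ a * h3

lemma slog_trans {y : PowerSeries R} (h0 : y ≠ 0) (h : PowerSeries.constantCoeff y = 0) :
    Transcendental R y := by
  intro halg
  obtain ⟨P, h1, h2⟩ := halg.exists_nonzero_coeff_and_aeval_eq_zero (mem_nonZeroDivisors_of_ne_zero h0)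
  have h3 := congrArg PowerSeries.constantCoeff h2
  rw [aeval_def, hom_eval₂, h, eval₂_at_zero, map_zero] at h3
  exact h1 (by simpa using h3)

end T0

end Pool.Agent.MP_ee2255_nt.S

end
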