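import Pool.Agent.Mg.F655169.Gdbabcc

section

set_option linter.unusedSectionVars false

namespace Pool.Agent.MP_655169_nt

open Polynomial Filter Topology

variable {F Λ : Type*} [Field F] [Field Λ] [Algebra F Λ] {κ : Type*}

theorem VsL_deg_aeval {κ' : Type*} (g : κ' → MvPolynomial κ F) (S : ℕ)
    (hg : ∀ k, (g k).totalDegree ≤ S) (G : MvPolynomial κ' F) (d : ℕ) (hd : G.totalDegree ≤ d) :
    (MvPolynomial.aeval g G).totalDegree ≤ S * d := by
  rw [MvPolynomial.aeval_def, MvPolynomial.eval₂_eq]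
  refine MvPolynomial.totalDegree_finsetSum_le fun e he => ?_
  refine (MvPolynomial.totalDegree_mul _ _).trans ?_
  rw [MvPolynomial.algebraMap_eq, MvPolynomial.totalDegree_C, zero_add]
  refine (MvPolynomial.totalDegree_finsetProd _ _).trans ?_
  calc ∑ i ∈ e.support, (g i ^ e i).totalDegree ≤ ∑ i ∈ e.support, S * e i :=
        Finset.sum_le_sum fun i _ => (MvPolynomial.totalDegree_pow _ _).trans
          (by rw [mul_comm]; exact Nat.mul_le_mul_right _ (hg i))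
    _ = S * e.sum fun _ k => k := by rw [← Finset.mul_sum]; rfl
    _ ≤ S * d := Nat.mul_le_mul_left _ ((MvPolynomial.le_totalDegree he).trans hd)

theorem VsL_hom {κ' : Type*} {y : κ' → Λ} {z : κ → Λ}
    (ψ : MvPolynomial κ F →ₐ[F] MvPolynomial κ' F)
    (hψ : ∀ G, MvPolynomial.aeval y (ψ G) = MvPolynomial.aeval z G) {d₁ d₂ d₃ : ℕ}
    (hd : ∀ G : MvPolynomial κ F, G.totalDegree ≤ d₂ → (ψ G).totalDegree ≤ d₃) {w : Λ}
    (h : Alg F z d₁ d₂ w) : Alg F y d₁ d₃ w := by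
  obtain ⟨Φ, a, b, c, d⟩ := h
  have hne : (ψ : MvPolynomial κ F →+* MvPolynomial κ' F) Φ.leadingCoeff ≠ 0 := by
    intro h0
    apply c
    rw [← hψ]
    have : ψ Φ.leadingCoeff = 0 := h0
    rw [this, map_zero]
  refine ⟨Φ.map (ψ : MvPolynomial κ F →+* MvPolynomial κ' F), natDegree_map_le.trans a,
    fun j => by rw [coeff_map]; exact hd _ (b j), ?_, ?_⟩
  · rw [leadingCoeff_map_of_leadingCoeff_ne_zero _ hne]
    exact fun h0 => c ((hψ _).symm.trans h0)
  · rw [eval₂_map, ← d]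
    congr 1
    exact RingHom.ext hψ

theorem mem_Vs (y : κ → Λ) (S : ℕ) (η : Λ) :
    η ∈ Vs F y S ↔ ∃ G : MvPolynomial κ F, G.totalDegree ≤ S ∧ MvPolynomial.aeval y G = η := by
  simp [Vs, MvPolynomial.mem_restrictTotalDegree]

theorem Vs_mono (y : κ → Λ) {S S' : ℕ} (h : S ≤ S') {η : Λ} (hη : η ∈ Vs F y S) :
    η ∈ Vs F y S' := by
  obtain ⟨G, hG, e⟩ := (mem_Vs y S η).1 hη
  exact (mem_Vs y S' η).2 ⟨G, hG.trans h, e⟩

theorem Vs_var (y : κ → Λ) (k : κ) : y k ∈ Vs F y 1 := by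
  exact (mem_Vs y 1 _).2 ⟨MvPolynomial.X k, (MvPolynomial.totalDegree_X k).le, by simp⟩

theorem Vs_const (y : κ → Λ) (a : F) (S : ℕ) : algebraMap F Λ a ∈ Vs F y S := by
  exact (mem_Vs y S _).2 ⟨MvPolynomial.C a, by simp, by simp⟩

theorem Vs_mul (y : κ → Λ) {S S' : ℕ} {a b : Λ} (ha : a ∈ Vs F y S) (hb : b ∈ Vs F y S') :
    a * b ∈ Vs F y (S + S') := by
  obtain ⟨G, hG, rfl⟩ := (mem_Vs y S a).1 ha
  obtain ⟨H, hH, rfl⟩ := (mem_Vs y S' b).1 hb
  exact (mem_Vs y _ _).2 ⟨G * H, (MvPolynomial.totalDegree_mul G H).trans (add_le_add hG hH),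
    map_mul _ _ _⟩

theorem Vs_pow (y : κ → Λ) {S : ℕ} {a : Λ} (ha : a ∈ Vs F y S) (k : ℕ) :
    a ^ k ∈ Vs F y (S * k) := by
  induction k with
  | zero => simpa using Vs_const y (1 : F) 0
  | succ k ih => rw [pow_succ, mul_add, mul_one]; exact Vs_mul y ih ha

theorem Vs_aeval {κ' : Type*} (y : κ → Λ) (z : κ' → Λ) (S : ℕ) (hz : ∀ k, z k ∈ Vs F y S)
    (G : MvPolynomial κ' F) (d : ℕ) (hd : G.totalDegree ≤ d) :
    MvPolynomial.aeval z G ∈ Vs F y (S * d) := by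
  choose g hg using fun k => (mem_Vs y S (z k)).1 (hz k)
  refine (mem_Vs y _ _).2 ⟨MvPolynomial.aeval g G,
    VsL_deg_aeval g S (fun k => (hg k).1) G d hd, ?_⟩
  rw [← AlgHom.comp_apply, MvPolynomial.comp_aeval]
  simp only [(hg _).2]

instance Vs_finite [Finite κ] (y : κ → Λ) (S : ℕ) : Module.Finite F (Vs F y S) := by
  unfold Vs
  infer_instance

theorem Vs_ph (y : κ → Λ) (q : ℕ) (hq : 2 ≤ q) {θ u al : Λ} (hθ : θ ∈ Vs F y 1)
    (hu : u ∈ Vs F y 1) (hal : al ∈ Vs F y 1) (n : ℕ) :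
    ph q θ u al n ∈ Vs F y (q ^ (n + 1)) := by
  induction n with
  | zero =>
    exact Vs_mono y (by simpa using by omega) (Submodule.sub_mem _ hal hu)
  | succ n ih =>
    have h1 : 1 ≤ q ^ (n + 1) := Nat.one_le_pow _ _ (by omega)
    have h2 : q ^ (n + 1) + q ^ (n + 1) ≤ q ^ (n + 1 + 1) := by
      rw [pow_succ q (n + 1)]; nlinarith
    refine Submodule.add_mem _ (Vs_mono y (by omega) (Vs_pow y hal _)) (Vs_mono y h2 ?_)
    exact Vs_mul y (Submodule.sub_mem _ (Vs_mono y h1 hθ) (Vs_mono y (by omega) (Vs_pow y hθ _))) ih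

theorem Alg.mono {z : κ → Λ} {d₁ d₂ d₁' d₂' : ℕ} {w : Λ} (h : Alg F z d₁ d₂ w) (h1 : d₁ ≤ d₁')
    (h2 : d₂ ≤ d₂') : Alg F z d₁' d₂' w := by
  obtain ⟨Φ, a, b, c, d⟩ := h
  exact ⟨Φ, a.trans h1, fun j => (b j).trans h2, c, d⟩

theorem Alg.comp {κ' : Type*} {y : κ' → Λ} (e : κ → κ') {d₁ d₂ : ℕ} {w : Λ}
    (h : Alg F (y ∘ e) d₁ d₂ w) : Alg F y d₁ d₂ w := by
  refine VsL_hom (MvPolynomial.rename e) (fun G => ?_)
    (fun G hG => (MvPolynomial.totalDegree_rename_le e G).trans hG) h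
  rw [MvPolynomial.aeval_rename]

theorem Alg.map {Λ' : Type*} [Field Λ'] [Algebra F Λ'] (φ : Λ →ₐ[F] Λ') {z : κ → Λ} {d₁ d₂ : ℕ}
    {w : Λ} (h : Alg F z d₁ d₂ w) : Alg F (φ ∘ z) d₁ d₂ (φ w) := by
  obtain ⟨Φ, a, b, c, d⟩ := h
  have e : ∀ G : MvPolynomial κ F, MvPolynomial.aeval (φ ∘ z) G = φ (MvPolynomial.aeval z G) := by
    intro G
    rw [← AlgHom.comp_apply, MvPolynomial.comp_aeval]
    rfl
  refine ⟨Φ, a, b, by rw [e]; exact (map_ne_zero φ).2 c, ?_⟩
  have := Polynomial.hom_eval₂ Φ (MvPolynomial.aeval z : MvPolynomial κ F →ₐ[F] Λ).toRingHom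
    φ.toRingHom w
  rw [d, map_zero] at this
  rw [this]
  congr 1
  exact RingHom.ext e

theorem Alg.subst {κ' : Type*} {y : κ' → Λ} {z : κ → Λ} (S : ℕ) (hz : ∀ k, z k ∈ Vs F y S)
    {d₁ d₂ : ℕ} {w : Λ} (h : Alg F z d₁ d₂ w) : Alg F y d₁ (S * d₂) w := by
  choose g hg using fun k => (mem_Vs y S (z k)).1 (hz k)
  refine VsL_hom (MvPolynomial.aeval g) (fun G => ?_)
    (fun G hG => VsL_deg_aeval g S (fun k => (hg k).1) G d₂ hG) h
  rw [← AlgHom.comp_apply, MvPolynomial.comp_aeval]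
  simp only [(hg _).2]

theorem Alg.var (z : κ → Λ) (k : κ) : Alg F z 1 1 (z k) := by
  refine ⟨X - C (MvPolynomial.X k), (natDegree_X_sub_C _).le, fun j => ?_, by simp, by simp⟩
  rw [coeff_sub, coeff_X, coeff_C]
  refine (MvPolynomial.totalDegree_sub _ _).trans (max_le ?_ ?_)
  · split_ifs <;> simp
  · split_ifs <;> simp

theorem alg_of_not_indep {z : κ → Λ} (hz : AlgebraicIndependent F z) (w : Λ)
    (h : ¬ AlgebraicIndependent F (fun o : Option κ => o.elim w z)) : ∃ d, Alg F z d d w := by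
  rw [AlgebraicIndependent.option_iff, not_and, Transcendental, not_not] at h
  obtain ⟨p, hp, hw⟩ := h hz
  let ψ := hz.aevalEquiv.symm
  have hψ : ∀ c, MvPolynomial.aeval z (ψ c) = algebraMap _ Λ c := fun c => by
    rw [← hz.algebraMap_aevalEquiv, AlgEquiv.apply_symm_apply]
  let Φ := p.map (ψ : Algebra.adjoin F (Set.range z) →+* MvPolynomial κ F)
  refine ⟨max Φ.natDegree (Φ.support.sup fun j => (Φ.coeff j).totalDegree), Φ, le_max_left _ _,
    fun j => le_max_of_le_right ?_, ?_, ?_⟩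
  · by_cases hj : j ∈ Φ.support
    · exact Finset.le_sup (f := fun j => (Φ.coeff j).totalDegree) hj
    · rw [notMem_support_iff.1 hj]; simp
  · refine (map_ne_zero_iff _ (algebraicIndependent_iff_injective_aeval.1 hz)).2 ?_
    rw [leadingCoeff_ne_zero]
    exact (Polynomial.map_ne_zero_iff ψ.injective).2 hp
  · rw [eval₂_map, ← hw, aeval_def]
    congr 1
    exact RingHom.ext hψ

end Pool.Agent.MP_655169_nt

end

section

set_option linter.unusedSectionVars false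

namespace Pool.Agent.MP_655169_nt

open Polynomial Filter Topology

variable {F Λ : Type*} [Field F] [Field Λ] [Algebra F Λ] {κ : Type*}

theorem Grow_of_range {κ' : Type*} [Finite κ] {y : κ → Λ} {z : κ' → Λ} (hz : ∀ k, ∃ j, z k = y j)
    {c r : ℕ} (h : Grow F y c r) : Grow F z c r := by
  intro M
  refine (Submodule.finrank_mono fun η hη => ?_).trans (h M)
  obtain ⟨G, hG, rfl⟩ := (mem_Vs z M η).1 hη
  have := Vs_aeval y z 1 (fun k => by obtain ⟨j, hj⟩ := hz k; rw [hj]; exact Vs_var y j) G M hG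
  rwa [one_mul] at this

theorem grow_base [Fintype κ] (y : κ → Λ) : Grow F y 1 (Fintype.card κ) := by
  classical
  intro M
  have h1 : Vs F y M ≤
      Submodule.span F (Set.range fun e : κ → Fin (M + 1) => ∏ k, y k ^ (e k : ℕ)) := by
    intro η hη
    obtain ⟨G, hG, rfl⟩ := (mem_Vs y M η).1 hη
    rw [MvPolynomial.aeval_def, MvPolynomial.eval₂_eq']
    refine Submodule.sum_mem _ fun e he => ?_
    rw [← Algebra.smul_def]
    refine Submodule.smul_mem _ _ (Submodule.subset_span ⟨fun k => ⟨e k, ?_⟩, rfl⟩)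
    exact Nat.lt_succ_of_le (((MvPolynomial.monomial_le_degreeOf k he).trans
      (MvPolynomial.degreeOf_le_totalDegree G k)).trans hG)
  have : Module.Finite F (Submodule.span F
      (Set.range fun e : κ → Fin (M + 1) => ∏ k, y k ^ (e k : ℕ))) :=
    Module.Finite.span_of_finite F (Set.finite_range _)
  refine (Submodule.finrank_mono h1).trans ((finrank_range_le_card _).trans ?_)
  simp

variable (F) in
/-- Combinations of the first `n` powers of `w` with coefficients of degree at most `N`. -/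
def GrowU (y : κ → Λ) (w : Λ) (n N : ℕ) : Submodule F Λ :=
  Submodule.span F {x | ∃ i < n, ∃ a ∈ Vs F y N, x = a * w ^ i}

theorem GrowU_gen {y : κ → Λ} {w : Λ} {n N i : ℕ} (hi : i < n) {a : Λ} (ha : a ∈ Vs F y N) :
    a * w ^ i ∈ GrowU F y w n N :=
  Submodule.subset_span ⟨i, hi, a, ha, rfl⟩

theorem GrowU_mul {y : κ → Λ} {w : Λ} {n N N' : ℕ} {t : Λ}
    (h : ∀ i < n, ∀ a ∈ Vs F y N, t * (a * w ^ i) ∈ GrowU F y w n N') {x : Λ}
    (hx : x ∈ GrowU F y w n N) : t * x ∈ GrowU F y w n N' := by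
  have : GrowU F y w n N ≤ (GrowU F y w n N').comap (LinearMap.mulLeft F t) :=
    Submodule.span_le.2 (by rintro _ ⟨i, hi, a, ha, rfl⟩; exact h i hi a ha)
  exact this hx

theorem GrowU_vs {y : κ → Λ} {w : Λ} {n N S N' : ℕ} {t x : Λ} (ht : t ∈ Vs F y S)
    (hx : x ∈ GrowU F y w n N) (hN : S + N ≤ N') : t * x ∈ GrowU F y w n N' :=
  GrowU_mul (fun i hi a ha => by
    rw [← mul_assoc]; exact GrowU_gen hi (Vs_mono y hN (Vs_mul y ht ha))) hx

theorem GrowU_le [Finite κ] (y : κ → Λ) (w : Λ) (n N : ℕ) :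
    Module.Finite F (GrowU F y w n N) ∧
      Module.finrank F (GrowU F y w n N) ≤ n * Module.finrank F (Vs F y N) := by
  classical
  let φ : (Fin n → Vs F y N) →ₗ[F] Λ :=
    ∑ i : Fin n, (LinearMap.mulRight F (w ^ (i : ℕ))) ∘ₗ (Vs F y N).subtype ∘ₗ LinearMap.proj i
  have h1 : GrowU F y w n N ≤ LinearMap.range φ := by
    refine Submodule.span_le.2 ?_
    rintro _ ⟨i, hi, a, ha, rfl⟩
    refine ⟨Pi.single ⟨i, hi⟩ ⟨a, ha⟩, ?_⟩
    simp only [φ, LinearMap.sum_apply, LinearMap.comp_apply, LinearMap.proj_apply,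
      Submodule.subtype_apply, LinearMap.mulRight_apply]
    rw [Finset.sum_eq_single (⟨i, hi⟩ : Fin n)]
    · rw [Pi.single_eq_same]
    · intro j _ hj
      rw [Pi.single_eq_of_ne hj]
      simp
    · simp
  refine ⟨Submodule.finiteDimensional_of_le h1, (Submodule.finrank_mono h1).trans
    ((LinearMap.finrank_range_le φ).trans ?_)⟩
  rw [Module.finrank_pi_fintype]
  simp

theorem grow_step [Fintype κ] (y : κ → Λ) (c r d : ℕ) (w : Λ) (h : Grow F y c r)
    (hw : Alg F y d d w) : Grow F (fun o : Option κ => o.elim w y) (c * (d + 1) ^ (r + 1)) r := by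
  classical
  obtain ⟨Φ, h1, h2, h3, h4⟩ := hw
  set l := MvPolynomial.aeval y Φ.leadingCoeff with hl
  set n := Φ.natDegree with hn
  have hc : ∀ j, MvPolynomial.aeval y (Φ.coeff j) ∈ Vs F y d := fun j =>
    (mem_Vs y d _).2 ⟨_, h2 j, rfl⟩
  have hlv : l ∈ Vs F y d := hc n
  have rel : ∑ i ∈ Finset.range n, MvPolynomial.aeval y (Φ.coeff i) * w ^ i + l * w ^ n = 0 := by
    rw [eval₂_eq_sum_range, Finset.sum_range_succ] at h4
    exact h4
  have n0 : 0 < n := Nat.pos_of_ne_zero fun e => by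
    rw [e] at rel
    exact h3 (by simpa using rel)
  have s1 : ∀ (o : Option κ) (N : ℕ), ∀ x ∈ GrowU F y w n N,
      l * o.elim w y * x ∈ GrowU F y w n (N + (d + 1)) := by
    rintro (_ | k) N x hx
    · refine GrowU_mul (fun i hi a ha => ?_) hx
      rcases (Nat.succ_le_of_lt hi).eq_or_lt with e | e
      · have e2 : l * w * (a * w ^ i) =
            -∑ j ∈ Finset.range n, (a * MvPolynomial.aeval y (Φ.coeff j)) * w ^ j := by
          have e3 : w ^ n = w ^ i * w := by rw [← e, pow_succ]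
          simp only [mul_assoc a, ← Finset.mul_sum]
          rw [e3] at rel
          linear_combination a * rel
        show l * w * (a * w ^ i) ∈ _
        rw [e2]
        exact Submodule.neg_mem _ (Submodule.sum_mem _ fun j hj => GrowU_gen
          (Finset.mem_range.1 hj) (Vs_mono y (by omega) (Vs_mul y ha (hc j))))
      · show l * w * (a * w ^ i) ∈ _
        rw [show l * w * (a * w ^ i) = (a * l) * w ^ (i + 1) by ring]
        exact GrowU_gen e (Vs_mono y (by omega) (Vs_mul y ha hlv))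
    · exact GrowU_vs (Vs_mul y hlv (Vs_var y k)) hx (by omega)
  have s2 : ∀ (e : Option κ →₀ ℕ) (N : ℕ), ∀ x ∈ GrowU F y w n N,
      l ^ e.degree * (∏ o, o.elim w y ^ e o) * x ∈ GrowU F y w n (N + (d + 1) * e.degree) := by
    intro e
    induction e using Finsupp.induction_linear with
    | zero => intro N x hx; simpa using hx
    | add e₁ e₂ ih₁ ih₂ =>
      intro N x hx
      have := ih₁ _ _ (ih₂ N x hx)
      simp only [map_add, Finsupp.add_apply, pow_add, Finset.prod_mul_distrib]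
      rw [show N + (d + 1) * (e₁.degree + e₂.degree) =
        N + (d + 1) * e₂.degree + (d + 1) * e₁.degree by ring]
      refine (congrArg (· ∈ _) ?_).mp this
      ring
    | single o k =>
      have e1 : ∏ o', o'.elim w y ^ (Finsupp.single o k) o' = o.elim w y ^ k := by
        rw [Finset.prod_eq_single o]
        · rw [Finsupp.single_eq_same]
        · intro j _ hj
          rw [Finsupp.single_eq_of_ne hj, pow_zero]
        · simp
      rw [e1, Finsupp.degree_single]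
      clear e1
      induction k with
      | zero => intro N x hx; simpa using hx
      | succ k ih =>
        intro N x hx
        have := s1 o _ _ (ih N x hx)
        rw [show N + (d + 1) * (k + 1) = N + (d + 1) * k + (d + 1) by ring]
        refine (congrArg (· ∈ _) ?_).mp this
        ring
  intro M
  have s3 : ∀ η ∈ Vs F (fun o : Option κ => o.elim w y) M,
      LinearMap.mulLeft F (l ^ M) η ∈ GrowU F y w n ((d + 1) * M) := by
    intro η hη
    obtain ⟨G, hG, rfl⟩ := (mem_Vs _ M η).1 hη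
    rw [MvPolynomial.aeval_def, MvPolynomial.eval₂_eq', map_sum]
    refine Submodule.sum_mem _ fun e he => ?_
    rw [← Algebra.smul_def, map_smul]
    refine Submodule.smul_mem _ _ ?_
    have hd : e.degree ≤ M := (MvPolynomial.le_totalDegree he).trans hG
    obtain ⟨m, rfl⟩ := Nat.exists_eq_add_of_le hd
    have a1 : l ^ m * w ^ 0 ∈ GrowU F y w n ((d + 1) * m) :=
      GrowU_gen n0 (Vs_mono y (by nlinarith) (Vs_pow y hlv m))
    have a2 := s2 e _ _ a1
    rw [show (d + 1) * (e.degree + m) = (d + 1) * m + (d + 1) * e.degree by ring,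
      LinearMap.mulLeft_apply]
    refine (congrArg (· ∈ _) ?_).mp a2
    ring
  obtain ⟨f1, f2⟩ := GrowU_le (F := F) y w n ((d + 1) * M)
  have s4 := LinearMap.finrank_le_finrank_of_injective
    (f := (LinearMap.mulLeft F (l ^ M)).restrict s3) fun a b hab =>
      Subtype.ext (mul_left_cancel₀ (pow_ne_zero M h3) (congrArg Subtype.val hab))
  refine s4.trans (f2.trans ?_)
  calc n * Module.finrank F (Vs F y ((d + 1) * M))
      ≤ (d + 1) * (c * ((d + 1) * (M + 1)) ^ r) :=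
        Nat.mul_le_mul (by omega) ((h _).trans (Nat.mul_le_mul_left c
          (Nat.pow_le_pow_left (by nlinarith) r)))
    _ = c * (d + 1) ^ (r + 1) * (M + 1) ^ r := by rw [mul_pow]; ring

theorem grow_tower [Fintype κ] {ι : Type*} [Fintype ι] (z : κ → Λ) (y : ι → Λ) (c r d : ℕ)
    (h : Grow F z c r) (hy : ∀ i, Alg F z d d (y i)) :
    Grow F (Sum.elim z y) (c * (d + 1) ^ ((r + 1) * Fintype.card ι)) r := by
  classical
  have key : ∀ s : Finset ι,
      Grow F (Sum.elim z fun i : s => y i) (c * (d + 1) ^ ((r + 1) * s.card)) r := by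
    intro s
    induction s using Finset.induction_on with
    | empty =>
      rw [Finset.card_empty, mul_zero, pow_zero, mul_one]
      refine Grow_of_range ?_ h
      rintro (k | ⟨i, hi⟩)
      · exact ⟨k, rfl⟩
      · exact absurd hi (Finset.notMem_empty _)
    | insert a s ha ih =>
      have h1 := grow_step _ _ r d (y a) ih (Alg.comp Sum.inl (hy a))
      rw [Finset.card_insert_of_notMem ha, mul_add (r + 1), mul_one, pow_add, ← mul_assoc]
      refine Grow_of_range ?_ h1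
      rintro (k | ⟨i, hi⟩)
      · exact ⟨some (Sum.inl k), rfl⟩
      · rcases Finset.mem_insert.1 hi with rfl | hi
        · exact ⟨none, rfl⟩
        · exact ⟨some (Sum.inr ⟨i, hi⟩), rfl⟩
  refine Grow_of_range ?_ (key Finset.univ)
  rintro (k | i)
  · exact ⟨Sum.inl k, rfl⟩
  · exact ⟨Sum.inr ⟨i, Finset.mem_univ i⟩, rfl⟩

end Pool.Agent.MP_655169_nt

end

section

set_option linter.unusedSectionVars false

namespace Pool.Agent.MP_655169_nt

open Polynomial Filter Topology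

section

variable {F Λ : Type*} [Field F] [Field Λ] [Algebra F Λ] {κ : Type*} [Fintype κ]

theorem HF_prod_mem {ι : Type*} (y : ι → Λ) (z : κ → Λ) (hzy : ∀ k, z k ∈ Vs F y 1) (N : ℕ)
    (e : κ → ℕ) (he : ∀ k, e k ≤ N) (s : Finset κ) :
    ∏ k ∈ s, z k ^ e k ∈ Vs F y (s.card * N) := by
  classical
  induction s using Finset.induction_on with
  | empty =>
    have := Vs_const (F := F) y (1 : F) 0
    simpa using this
  | insert a s ha ih =>
    rw [Finset.prod_insert ha, Finset.card_insert_of_notMem ha]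
    have h1 := Vs_pow y (hzy a) (e a)
    have h2 := Vs_mul y h1 ih
    refine Vs_mono y ?_ h2
    have := he a
    nlinarith

theorem HF_count (c r S : ℕ) :
    c * ((r + 1) * (c * (r + 1) ^ r * S) + 1) ^ r <
      (c * (r + 1) ^ r * S + 1) ^ r * (c * (r + 1) ^ r + 1) := by
  set J := c * (r + 1) ^ r with hJ
  have h1 : ((r + 1) * (J * S) + 1) ^ r ≤ ((r + 1) * (J * S + 1)) ^ r :=
    Nat.pow_le_pow_left (by nlinarith) r
  have h2 : 0 < (J * S + 1) ^ r := by positivity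
  calc c * ((r + 1) * (J * S) + 1) ^ r ≤ c * ((r + 1) * (J * S + 1)) ^ r :=
        Nat.mul_le_mul_left _ h1
    _ = (J * S + 1) ^ r * J := by rw [mul_pow, hJ]; ring
    _ < (J * S + 1) ^ r * (J + 1) := by nlinarith

theorem alg_of_grow {ι : Type*} [Fintype ι] (y : ι → Λ) (c : ℕ) (h : Grow F y c (Fintype.card κ))
    (z : κ → Λ) (hz : AlgebraicIndependent F z) (hzy : ∀ k, z k ∈ Vs F y 1) (S : ℕ) (η : Λ)
    (hη : η ∈ Vs F y S) :
    Alg F z (c * (Fintype.card κ + 1) ^ Fintype.card κ)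
      (Fintype.card κ * (c * (Fintype.card κ + 1) ^ Fintype.card κ) * S) η := by
  classical
  set r := Fintype.card κ with hr
  set J := c * (r + 1) ^ r with hJ
  have hmem : ∀ p : (κ → Fin (J * S + 1)) × Fin (J + 1),
      (∏ k, z k ^ (p.1 k : ℕ)) * η ^ (p.2 : ℕ) ∈ Vs F y ((r + 1) * (J * S)) := by
    intro p
    have h1 := HF_prod_mem y z hzy (J * S) (fun k => (p.1 k : ℕ))
      (fun k => Nat.lt_succ_iff.mp (p.1 k).2) Finset.univ
    have h2 := Vs_pow y hη (p.2 : ℕ)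
    refine Vs_mono y ?_ (Vs_mul y h1 h2)
    have h3 : (p.2 : ℕ) ≤ J := Nat.lt_succ_iff.mp p.2.2
    rw [Finset.card_univ, ← hr]
    nlinarith
  let v : (κ → Fin (J * S + 1)) × Fin (J + 1) → Vs F y ((r + 1) * (J * S)) :=
    fun p => ⟨_, hmem p⟩
  have hdep : ¬ LinearIndependent F v := by
    intro hli
    have h1 := hli.fintype_card_le_finrank
    have h2 := h ((r + 1) * (J * S))
    have h3 := HF_count c r S
    rw [Fintype.card_prod, Fintype.card_fun, Fintype.card_fin, Fintype.card_fin, ← hr] at h1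
    rw [← hJ] at h3
    omega
  obtain ⟨a, ha0, p0, hp0⟩ := Fintype.not_linearIndependent_iff.mp hdep
  let ex : (κ → Fin (J * S + 1)) → (κ →₀ ℕ) :=
    fun e => Finsupp.equivFunOnFinite.symm fun k => (e k : ℕ)
  have hex : Function.Injective ex := by
    intro e e' hee
    funext k
    have := congrArg (fun f : κ →₀ ℕ => f k) hee
    simpa [ex, Fin.ext_iff] using this
  let co : Fin (J + 1) → MvPolynomial κ F :=
    fun j => ∑ e, MvPolynomial.monomial (ex e) (a (e, j))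
  let Φ : (MvPolynomial κ F)[X] := ∑ j : Fin (J + 1), Polynomial.monomial (j : ℕ) (co j)
  have hco : ∀ j : Fin (J + 1), Φ.coeff j = co j := by
    intro j
    simp only [Φ, Polynomial.finsetSum_coeff, Polynomial.coeff_monomial]
    rw [Finset.sum_eq_single j]
    · simp
    · intro b _ hb
      rw [if_neg]
      exact fun h => hb (Fin.ext h)
    · simp
  have hco' : ∀ j : ℕ, J < j → Φ.coeff j = 0 := by
    intro j hj
    simp only [Φ, Polynomial.finsetSum_coeff, Polynomial.coeff_monomial]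
    refine Finset.sum_eq_zero fun b _ => if_neg ?_
    have := b.2
    omega
  have hcodeg : ∀ j, (co j).totalDegree ≤ r * J * S := by
    intro j
    refine MvPolynomial.totalDegree_finsetSum_le fun e _ => ?_
    refine (MvPolynomial.totalDegree_monomial_le _ _).trans ?_
    have : (ex e).sum (fun _ => id) = ∑ k, (e k : ℕ) := by
      rw [Finsupp.sum_fintype _ _ (fun _ => rfl)]
      simp [ex]
    rw [this]
    calc ∑ k, (e k : ℕ) ≤ ∑ _k : κ, J * S :=
          Finset.sum_le_sum fun k _ => Nat.lt_succ_iff.mp (e k).2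
      _ = r * J * S := by rw [Finset.sum_const, Finset.card_univ, ← hr, smul_eq_mul, mul_assoc r J S]
  have hΦ0 : Φ ≠ 0 := by
    intro h0
    have h1 := hco p0.2
    rw [h0, Polynomial.coeff_zero] at h1
    have h2 := congrArg (MvPolynomial.coeff (ex p0.1)) h1
    simp only [co, MvPolynomial.coeff_zero, MvPolynomial.coeff_sum,
      MvPolynomial.coeff_monomial] at h2
    rw [Finset.sum_eq_single p0.1] at h2
    · exact hp0 (by simpa using h2.symm)
    · intro b _ hb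
      exact if_neg fun h => hb (hex h)
    · simp
  refine ⟨Φ, ?_, ?_, ?_, ?_⟩
  · exact Polynomial.natDegree_le_iff_coeff_eq_zero.mpr fun j hj => hco' j hj
  · intro j
    by_cases hj : J < j
    · rw [hco' j hj]; simp
    · have := hco ⟨j, by omega⟩
      simp only at this
      rw [this]
      exact hcodeg _
  · intro h0
    exact Polynomial.leadingCoeff_ne_zero.mpr hΦ0
      (hz (by rw [h0, map_zero]))
  · have h1 := congrArg (fun x : Vs F y ((r + 1) * (J * S)) => (x : Λ)) ha0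
    simp only [v, Submodule.coe_sum, Submodule.coe_smul, Submodule.coe_zero] at h1
    rw [← h1, Fintype.sum_prod_type_right]
    simp only [Φ, Polynomial.eval₂_finsetSum, Polynomial.eval₂_monomial]
    refine Finset.sum_congr rfl fun j _ => ?_
    simp only [co, AlgHom.toRingHom_eq_coe, RingHom.coe_coe, map_sum, Finset.sum_mul]
    refine Finset.sum_congr rfl fun e _ => ?_
    rw [MvPolynomial.aeval_monomial, Finsupp.prod_fintype _ _ (fun _ => pow_zero _),
      Algebra.smul_def, mul_assoc]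
    simp [ex]

theorem alg_of_mem {ι : Type*} [Fintype ι] (z : κ → Λ) (hz : AlgebraicIndependent F z)
    (y : ι → Λ) (d : ℕ) (hy : ∀ i, Alg F z d d (y i)) (J : ℕ)
    (hJ : (d + 1) ^ ((Fintype.card κ + 1) * Fintype.card ι) *
      (Fintype.card κ + 1) ^ Fintype.card κ ≤ J)
    (S : ℕ) (η : Λ) (hη : η ∈ Vs F (Sum.elim z y) S) :
    Alg F z J (Fintype.card κ * J * S) η := by
  have h1 := grow_tower z y 1 _ d (grow_base (F := F) z) hy
  rw [one_mul] at h1
  have h2 := alg_of_grow (Sum.elim z y) _ h1 z hz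
    (fun k => Vs_var (F := F) (Sum.elim z y) (Sum.inl k)) S η hη
  exact h2.mono hJ (Nat.mul_le_mul_right _ (Nat.mul_le_mul_left _ hJ))

theorem alg_trans (θ : Λ) (hθ : AlgebraicIndependent F ![θ]) (ξ w : Λ) (d d0 : ℕ)
    (h1 : Alg F ![θ] d d ξ) (h2 : Alg F ![θ, ξ] d0 d0 w) :
    Alg F ![θ] (2 * (d + 1) ^ 2 * (d0 + 1) ^ 2) (2 * (d + 1) ^ 2 * (d0 + 1) ^ 2) w := by
  have g0 := grow_base (F := F) ![θ]
  have g1 := grow_step ![θ] _ _ d ξ g0 h1
  have h3 : Alg F (fun o : Option (Fin 1) => o.elim ξ ![θ]) d0 d0 w := by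
    refine Alg.comp (![some 0, none] : Fin 2 → Option (Fin 1)) ?_
    have : ((fun o : Option (Fin 1) => o.elim ξ ![θ]) ∘
        (![some 0, none] : Fin 2 → Option (Fin 1))) = ![θ, ξ] := by
      funext i
      fin_cases i <;> rfl
    rw [this]
    exact h2
  have g2 := grow_step _ _ _ d0 w g1 h3
  have h4 := alg_of_grow _ _ g2 ![θ] hθ
    (fun k => Vs_var (F := F) (fun o : Option (Option (Fin 1)) =>
      o.elim w (fun o : Option (Fin 1) => o.elim ξ ![θ])) (some (some k))) 1 w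
    (Vs_var (F := F) (fun o : Option (Option (Fin 1)) =>
      o.elim w (fun o : Option (Fin 1) => o.elim ξ ![θ])) none)
  simp only [Fintype.card_fin] at h4
  exact h4.mono (le_of_eq (by ring)) (le_of_eq (by ring))

end

theorem red {F Λ : Type*} [Field F] [Fintype F] [NormedField Λ] [IsUltrametricDist Λ]
    [Algebra F Λ] {κ ι : Type*} [Fintype κ] [Fintype ι] (z : κ → Λ)
    (hz : AlgebraicIndependent F z) (y : ι → Λ) (hy : ∀ i, ∃ d, Alg F z d d (y i)) :
    ∃ c : ℕ, ∀ (S : ℕ) (η : Λ), η ∈ Vs F (Sum.elim z y) S → η ≠ 0 → ‖η‖ ≤ 1 →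
      ∃ b : MvPolynomial κ F, b ≠ 0 ∧ b.totalDegree ≤ c * S ∧
        ‖MvPolynomial.aeval z b‖ ≤ Real.exp (c * S) * ‖η‖ := by
  choose dd hdd using hy
  set d := ∑ i, dd i with hd
  have hy' : ∀ i, Alg F z d d (y i) := fun i =>
    have : dd i ≤ d := Finset.single_le_sum (fun _ _ => Nat.zero_le _) (Finset.mem_univ i)
    (hdd i).mono this this
  set J := (d + 1) ^ ((Fintype.card κ + 1) * Fintype.card ι) *
      (Fintype.card κ + 1) ^ Fintype.card κ with hJ
  set M : ℝ := 1 + ∑ k, ‖z k‖ with hM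
  have hM1 : 1 ≤ M := le_add_of_nonneg_right (Finset.sum_nonneg fun _ _ => norm_nonneg _)
  have hzM : ∀ k, ‖z k‖ ≤ M := fun k =>
    (Finset.single_le_sum (f := fun k => ‖z k‖) (fun _ _ => norm_nonneg _)
      (Finset.mem_univ k)).trans (le_add_of_nonneg_left zero_le_one)
  set L := ⌈Real.log M⌉₊ + 1 with hL
  refine ⟨Fintype.card κ * J * L, fun S η hη h0 h1 => ?_⟩
  obtain ⟨b, hb0, hb1, hb2⟩ := norm_step z M hM1 hzM _ _ η
    (alg_of_mem z hz y d hy' J le_rfl S η hη) h0 h1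
  refine ⟨b, hb0, hb1.trans ?_, hb2.trans (mul_le_mul_of_nonneg_right ?_ (norm_nonneg _))⟩
  · refine Nat.mul_le_mul_right _ (Nat.le_mul_of_pos_right _ ?_)
    omega
  · have hML : M ≤ Real.exp L := by
      calc M = Real.exp (Real.log M) := (Real.exp_log (by linarith)).symm
        _ ≤ Real.exp L := by
          apply Real.exp_le_exp.mpr
          have := Nat.le_ceil (Real.log M)
          rw [hL]; push_cast; linarith
    calc M ^ (Fintype.card κ * J * S) ≤ Real.exp L ^ (Fintype.card κ * J * S) :=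
          pow_le_pow_left₀ (by linarith) hML _
      _ = _ := by
          rw [← Real.exp_nat_mul]
          congr 1
          push_cast
          ring

end Pool.Agent.MP_655169_nt

end

section

/-!
Definitions for the proof of Schanuel's conjecture for the Carlitz exponential.
Sequences are indexed by a scale `ℓ` and read along an ultrafilter.
-/

namespace Pool.Agent.MP_ee2255_nt.T

open Polynomial Filter Topology Pool.Agent.MP_655169_nt

/-- The ultrafilter on the scales. -/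
noncomputable abbrev UU : Filter ℕ := (Filter.hyperfilter ℕ : Filter ℕ)

/-- The scale functions. -/
noncomputable def sc (N ℓ : ℕ) : ℝ := 2 ^ (N * (ℓ + 1))

/-- At most linear in the scale. -/
def Lin (a : ℕ → ℕ) : Prop := ∃ N, ∀ᶠ ℓ in UU, a ℓ ≤ N * (ℓ + 1)

/-- At most exponential in the scale. -/
def Pol (a : ℕ → ℕ) : Prop := ∃ N, ∀ᶠ ℓ in UU, a ℓ ≤ 2 ^ (N * (ℓ + 1))

/-- Not too big at level `M`. -/
def Big (M r : ℕ → ℝ) : Prop := ∃ N, ∀ᶠ ℓ in UU, r ℓ ≤ Real.exp (M ℓ * sc N ℓ)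

/-- Not too small at level `M`. -/
def Low (M r : ℕ → ℝ) : Prop := ∃ N, ∀ᶠ ℓ in UU, Real.exp (-(M ℓ * sc N ℓ)) ≤ r ℓ

/-- Very small at level `M`. -/
def Sm (M r : ℕ → ℝ) : Prop := ∀ N, ∀ᶠ ℓ in UU, r ℓ < Real.exp (-(M ℓ * sc N ℓ))

section Carl

variable (F : Type*) [Field F] [Fintype F] {C : Type*} [Field C] [Algebra F C]

/-- The Carlitz action of `θ`: `y ↦ θ y + y ^ q`. -/
noncomputable def cth (θ : C) : Module.End F C :=
  LinearMap.mulLeft F θ + (FiniteField.frobeniusAlgHom F C).toLinearMap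

variable {F}

/-- The Carlitz action of a polynomial. -/
noncomputable def carl (θ : C) (c : F[X]) (y : C) : C := aeval (cth F θ) c y

/-- A linear form with polynomial coefficients. -/
noncomputable def lin {ι : Type*} [Fintype ι] (θ : C) (c : ι → F[X]) (x : ι → C) : C :=
  ∑ j, aeval θ (c j) * x j

variable (F)

/-- There is a relation in the Carlitz module. -/
def Rel {ι : Type*} [Fintype ι] (θ : C) (y : ι → C) : Prop :=
  ∃ c : ι → F[X], c ≠ 0 ∧ ∑ j, carl θ (c j) (y j) = 0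

/-- There is a relation of degree at most `n` in the Carlitz module. -/
def RelLe {ι : Type*} [Fintype ι] (θ : C) (y : ι → C) (n : ℕ) : Prop :=
  ∃ c : ι → F[X], c ≠ 0 ∧ (∀ j, (c j).natDegree ≤ n) ∧ ∑ j, carl θ (c j) (y j) = 0

/-- A multiplicative filtration of a subfield with the Gauss property. -/
structure Fl (θ : C) where
  k : Subfield C
  B : ℕ → Submodule F C
  sub : ∀ δ a, a ∈ B δ → a ∈ k
  one : 1 ∈ B 0
  theta : θ ∈ B 1
  mul : ∀ δ δ' a b, a ∈ B δ → b ∈ B δ' → a * b ∈ B (δ + δ')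
  mono : ∀ δ δ' a, δ ≤ δ' → a ∈ B δ → a ∈ B δ'
  gauss : ∀ (r δ : ℕ) (P Q : MvPolynomial (Fin r) C[X]),
    (∀ e j, ((P * Q).coeff e).coeff j ∈ B δ) → ∀ e j e' j', (P.coeff e).coeff j ∈ k →
      (Q.coeff e').coeff j' ∈ k → (P.coeff e).coeff j * (Q.coeff e').coeff j' ∈ B δ

variable {F}

/-- A multiplicative filtration. -/
structure Flt (θ : C) (B : ℕ → Submodule F C) : Prop where
  one : 1 ∈ B 0
  theta : θ ∈ B 1
  mul : ∀ δ δ' a b, a ∈ B δ → b ∈ B δ' → a * b ∈ B (δ + δ')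
  mono : ∀ δ δ' a, δ ≤ δ' → a ∈ B δ → a ∈ B δ'

theorem Fl.flt {θ : C} (L : Fl F θ) : Flt θ L.B := ⟨L.one, L.theta, L.mul, L.mono⟩

instance (θ : C) : Nonempty (Fl F θ) :=
  ⟨{ k := ⊤, B := fun _ => ⊤, sub := by simp, one := by simp, theta := by simp, mul := by simp,
     mono := by simp, gauss := by simp }⟩

/-- Extension of scalars from a subfield. -/
noncomputable def up (k : Subfield C) {ι : Type*} :
    MvPolynomial ι k[X] →+* MvPolynomial ι C[X] :=
  MvPolynomial.map (Polynomial.mapRingHom k.subtype)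

/-- Degrees and coefficients are bounded by `δ`. -/
def BdB (B : ℕ → Submodule F C) (δ : ℕ) {ι : Type*} (Q : MvPolynomial ι C[X]) : Prop :=
  Q.totalDegree ≤ δ ∧ ∀ e, (Q.coeff e).natDegree ≤ δ ∧ ∀ j, (Q.coeff e).coeff j ∈ B δ

end Carl

section Alg

variable (E : Type*) [Field E] {C : Type*} [Field C] [Algebra E C] {κ : Type*}

/-- The family contains `d` algebraically independent members. -/
def Rk (ω : κ → C) (d : ℕ) : Prop := ∃ e : Fin d → κ, AlgebraicIndependent E (ω ∘ e)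

/-- `x` lies in every valuation ring containing `E[μ]`. -/
def VA (μ : κ → C) (x : C) : Prop :=
  ∀ V : ValuationSubring C, (∀ a : MvPolynomial κ E, MvPolynomial.aeval μ a ∈ V) → x ∈ V

/-- `x` lies in every valuation ring containing the quotients of degree at most zero. -/
def VI (μ : κ → C) (x : C) : Prop :=
  ∀ V : ValuationSubring C, (∀ a b : MvPolynomial κ E, b ≠ 0 → a.totalDegree ≤ b.totalDegree →
    MvPolynomial.aeval μ a / MvPolynomial.aeval μ b ∈ V) → x ∈ V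

/-- The field `E(μ)`. -/
noncomputable abbrev KF (μ : κ → C) : IntermediateField E C :=
  IntermediateField.adjoin E (Set.range μ)

/-- `x` is a root of a monic polynomial of bounded degrees over `E[μ]`. -/
def Mon (μ : κ → C) (d₁ d₂ : ℕ) (x : C) : Prop :=
  ∃ Φ : (MvPolynomial κ E)[X], Φ.Monic ∧ Φ.natDegree ≤ d₁ ∧ (∀ j, (Φ.coeff j).totalDegree ≤ d₂) ∧
    Φ.eval₂ (MvPolynomial.aeval μ : MvPolynomial κ E →ₐ[E] C).toRingHom x = 0

/-- The family `(θ, lam)`. -/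
def zz {m : ℕ} (θ : C) (lam : Fin m → C) : Option (Fin m) → C := fun o => o.elim θ lam

/-- Value at `(θ, lam, u)` of a polynomial. -/
noncomputable def ev3 {m : ℕ} (θ : C) (lam : Fin m → C) (u : C)
    (Φ : (MvPolynomial (Option (Fin m)) E)[X]) : C :=
  Φ.eval₂ (MvPolynomial.aeval (zz θ lam) : MvPolynomial (Option (Fin m)) E →ₐ[E] C).toRingHom u

/-- Bounded degrees, and the leading coefficient depends only on the first variable. -/
def Tp {m : ℕ} (N : ℕ) (Φ : (MvPolynomial (Option (Fin m)) E)[X]) : Prop :=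
  Φ.natDegree ≤ N ∧ (∀ j, (Φ.coeff j).totalDegree ≤ N) ∧ ∃ a : E[X], a ≠ 0 ∧ a.natDegree ≤ N ∧
    Φ.leadingCoeff = aeval (MvPolynomial.X none : MvPolynomial (Option (Fin m)) E) a

/-- `u` is algebraic over `E[θ, lam]` with bounded degrees and leading coefficient in `E[θ]`. -/
def AlgT {m : ℕ} (θ : C) (lam : Fin m → C) (N : ℕ) (u : C) : Prop :=
  ∃ Φ : (MvPolynomial (Option (Fin m)) E)[X], Tp E N Φ ∧ ev3 E θ lam u Φ = 0

/-- A fixed multiple of every element of `S` is integral over `E[θ, lam]`. -/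
def HInt {m : ℕ} (θ : C) (lam : Fin m → C) (S : Set C) : Prop :=
  ∃ h : E[X], h ≠ 0 ∧ ∀ s ∈ S,
    IsIntegral (Algebra.adjoin E (Set.range (zz θ lam))) (aeval θ h * s)

/-- `φ` is a specialisation over `lam ↦ lam'` on the span of `S`. -/
def Pt {m : ℕ} (θ : C) (lam lam' : Fin m → C) (S : Set C) (φ : C →ₗ[E] C) : Prop :=
  ∀ u ∈ Submodule.span E S, ∀ Ψ, ev3 E θ lam u Ψ = 0 → ev3 E θ lam' (φ u) Ψ = 0

end Alg

/-- The arithmetic properties of a filtration at one scale. -/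
structure FrOk {F : Type*} (E : Type*) [Field F] [Fintype F] [Field E] {C : Type*} [Field C]
    [Algebra F C] [Algebra E C] {κ : Type*} {θ : C} (L : Fl F θ) (μ : κ → C)
    (Δ : MvPolynomial κ E) (γ : ℕ) : Prop where
  ne : Δ ≠ 0
  deg : Δ.totalDegree ≤ γ
  mon : ∀ δ a, a ∈ L.B δ → Mon E μ γ (γ * δ) (MvPolynomial.aeval μ Δ ^ δ * a)
  mas : ∀ (r δ l : ℕ) (y : Fin r → C), γ * (δ + 1) ≤ 2 ^ l → (∀ j, y j ∈ L.B δ) → Rel F θ y →
    RelLe F θ y (r * (3 * l + 4))

section Normed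

variable (F : Type*) [Field F] [Fintype F] {C : Type*} [NormedField C] [Algebra F C]

/-- `al` is the Carlitz exponential of `u`. -/
def HS (θ u al : C) : Prop := HasSum (fun i => u ^ qq F ^ i / carlitzD (qq F) θ i) al

/-- A sequence of filtrations with Liouville inequalities at level `M` and short relations. -/
structure Fr (θ : C) (M : ℕ → ℝ) where
  fl : ℕ → Fl F θ
  low : ∀ (δ : ℕ → ℕ) (a : ℕ → C), Pol δ → (∀ᶠ ℓ in UU, a ℓ ∈ (fl ℓ).B (δ ℓ) ∧ a ℓ ≠ 0) →
    Low M fun ℓ => ‖a ℓ‖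
  big : ∀ (δ : ℕ → ℕ) (a : ℕ → C), Pol δ → (∀ᶠ ℓ in UU, a ℓ ∈ (fl ℓ).B (δ ℓ)) →
    Big M fun ℓ => ‖a ℓ‖
  mas : ∀ (r : ℕ) (δ : ℕ → ℕ) (y : ℕ → Fin r → C), Pol δ →
    (∀ᶠ ℓ in UU, (∀ j, y ℓ j ∈ (fl ℓ).B (δ ℓ)) ∧ Rel F θ (y ℓ)) →
    ∃ n, Lin n ∧ ∀ᶠ ℓ in UU, RelLe F θ (y ℓ) (n ℓ)

/-- No nonzero polynomial of moderate degree is very small at `μ`. -/
def Ind (E : Type*) [Field E] [Algebra E C] {κ : Type*} (M : ℕ → ℝ) (μ : ℕ → κ → C) : Prop :=
  ∀ (p : ℕ → MvPolynomial κ E) (δ : ℕ → ℕ), Pol δ →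
    (∀ᶠ ℓ in UU, p ℓ ≠ 0 ∧ (p ℓ).totalDegree ≤ δ ℓ) →
    Low M fun ℓ => ‖MvPolynomial.aeval (μ ℓ) (p ℓ)‖

/-- A sequence of linear forms of linear degree in the fixed family `x`. -/
def Sh {ι : Type*} [Fintype ι] (θ : C) (x : ι → C) (a : ℕ → C) : Prop :=
  ∃ (c : ℕ → ι → F[X]) (n : ℕ → ℕ), Lin n ∧
    ∀ᶠ ℓ in UU, (∀ j, (c ℓ j).natDegree ≤ n ℓ) ∧ a ℓ = lin θ (c ℓ) x

/-- The level of a sequence. -/
noncomputable def lev (a : ℕ → C) (ℓ : ℕ) : ℝ := max 1 (-Real.log ‖a ℓ‖)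

/-- No short linear form in `z` is very small at level `M`. -/
def HL {ι : Type*} [Fintype ι] (θ : C) (M : ℕ → ℝ) (z : ℕ → ι → C) : Prop :=
  ∀ (c : ℕ → ι → F[X]) (n : ℕ → ℕ), Lin n →
    (∀ᶠ ℓ in UU, c ℓ ≠ 0 ∧ ∀ j, (c ℓ j).natDegree ≤ n ℓ) → Low M fun ℓ => ‖lin θ (c ℓ) (z ℓ)‖

/-- Every member has the top level among the short forms in itself and the later members. -/
def Good (θ : C) : (r : ℕ) → (ℕ → Fin r → C) → Prop
  | 0, _ => True
  | r + 1, z => HL F θ (lev fun ℓ => z ℓ 0) z ∧ Good θ r fun ℓ => Fin.tail (z ℓ)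

end Normed

section Sit

variable {F C Ω : Type*} [Field F] [Fintype F] [NormedField C] [Algebra F C] [NormedField Ω]
  [Algebra C Ω]

theorem hs_iff (Z : Sit F C Ω) (u al : C) : HasSum (Z.ee u) al ↔ HS F Z.θ u al := Iff.rfl

/-- The largest norm of a coefficient. -/
noncomputable def cn (Z : Sit F C Ω) {ι : Type*} (Q : MvPolynomial ι C[X]) : ℝ :=
  ((Q.support.sup fun e => ‖aeval Z.t (Q.coeff e)‖₊ : NNReal) : ℝ)

/-- No nonzero bounded polynomial is very small at `f`. -/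
def NS (Z : Sit F C Ω) {M : ℕ → ℝ} (Φ : Fr F Z.θ M) {r : ℕ} (f : ℕ → Fin r → Ω) : Prop :=
  ∀ (δ : ℕ → ℕ) (Q : ℕ → MvPolynomial (Fin r) C[X]), Pol δ →
    (∀ᶠ ℓ in UU, Q ℓ ≠ 0 ∧ BdB (Φ.fl ℓ).B (δ ℓ) (Q ℓ)) → Low M fun ℓ => ‖Z.FF (f ℓ) (Q ℓ)‖

/-- The hypotheses on an approximate system of twisted equations. -/
structure Ap (Z : Sit F C Ω) {M : ℕ → ℝ} (Φ : Fr F Z.θ M) {r : ℕ} (al y : ℕ → Fin (r + 1) → C)
    (f : ℕ → Fin (r + 1) → Ω) : Prop where
  sol : ∀ᶠ ℓ in UU, ∀ j, Z.Sol (al ℓ j) (f ℓ j)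
  mem : ∃ δ, Pol δ ∧ ∀ᶠ ℓ in UU, ∀ j, y ℓ j ∈ (Φ.fl ℓ).B (δ ℓ)
  near : ∃ η, Sm M η ∧ ∀ᶠ ℓ in UU, ∀ j, ‖al ℓ j - y ℓ j‖ ≤ η ℓ
  big : ∃ R, Big M R ∧ ∀ᶠ ℓ in UU, ∀ j, ‖f ℓ j‖ ≤ R ℓ
  last : ∀ᶠ ℓ in UU, y ℓ (Fin.last r) = 0 ∧ 1 ≤ ‖f ℓ (Fin.last r)‖
  norel : ¬ ∃ n, Lin n ∧ ∀ᶠ ℓ in UU, RelLe F Z.θ (Fin.init (y ℓ)) (n ℓ)

/-- The product of the first `m` factorials. -/
noncomputable def dall (Z : Sit F C Ω) (m : ℕ) : C :=
  ∏ i ∈ Finset.range m, carlitzD (qq F) Z.θ i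

/-- Replace the first variable by the truncation of the generating function of `u`. -/
noncomputable def cut (Z : Sit F C Ω) {r : ℕ} (u : C) (m D : ℕ)
    (P : MvPolynomial (Fin (r + 1)) C[X]) : MvPolynomial (Fin r) C[X] :=
  ∑ j ∈ Finset.range (D + 1), (MvPolynomial.finSuccEquiv C[X] r P).coeff j *
    MvPolynomial.C ((Polynomial.C (dall Z m) * Z.num u m) ^ j *
      (Polynomial.C (dall Z m) * Z.den m) ^ (D - j))

end Sit

/-- The global data. -/
structure Ctx (F E C Ω : Type*) [Field F] [Fintype F] [Field E] [NormedField C] [NormedField Ω]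
    [Algebra F C] [Algebra E C] [Algebra C Ω] where
  Z : Sit F C Ω
  ν : ℕ
  ω : Fin ν → C
  d : ℕ
  c0 : ℕ
  hE : ∀ e : E, ‖algebraMap E C e‖ ≤ 1
  growE : Grow E ω c0 d
  growF : Grow F ω c0 d
  rk : Rk E ω d
  iθ : Fin ν
  hθ : ω iθ = Z.θ
  E0 : Subfield C
  η : ℝ
  hη : 0 < η
  gap : Gap E0 η
  memF : ∀ a : F, algebraMap F C a ∈ E0
  memω : ∀ i, ω i ∈ E0
  hex : ∀ u ∈ E0, ∃ al, HS F Z.θ u al
  per : C
  ζ : C
  memπ : per ∈ E0
  hζ : ζ ^ (qq F - 1) = -Z.θ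
  hπ : HS F Z.θ (per / Z.θ) ζ
  nπ : ‖per‖ = ‖Z.θ‖ * ‖ζ‖

/-- A family of generating functions of short points whose last member is the period. -/
structure Fam {F E C Ω : Type*} [Field F] [Fintype F] [Field E] [NormedField C] [NormedField Ω]
    [Algebra F C] [Algebra E C] [Algebra C Ω] (X : Ctx F E C Ω) {r : ℕ} (u al : ℕ → Fin r → C)
    (f : ℕ → Fin r → Ω) : Prop where
  agf : ∀ᶠ ℓ in UU, ∀ j, X.Z.Agf (u ℓ j) (al ℓ j) (f ℓ j)
  deg : ∃ δ, Pol δ ∧ ∀ᶠ ℓ in UU, ∀ j, u ℓ j ∈ Vs F X.ω (δ ℓ) ∧ al ℓ j ∈ Vs F X.ω (δ ℓ)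
  size : ∃ n, Lin n ∧ ∀ᶠ ℓ in UU, ∀ j, ‖u ℓ j‖ ≤ ‖X.Z.θ‖ ^ n ℓ
  last : ∀ᶠ ℓ in UU, ∀ j : Fin r, (j : ℕ) + 1 = r → u ℓ j = X.per

end Pool.Agent.MP_ee2255_nt.T

end

section

/-! Calculus of sequences along the ultrafilter. -/

namespace Pool.Agent.MP_ee2255_nt.T

open Polynomial Filter Topology Pool.Agent.MP_655169_nt

instance : (UU).NeBot := inferInstanceAs (Filter.hyperfilter ℕ : Filter ℕ).NeBot

theorem ev_or {p q : ℕ → Prop} (h : ∀ᶠ ℓ in UU, p ℓ ∨ q ℓ) :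
    (∀ᶠ ℓ in UU, p ℓ) ∨ ∀ᶠ ℓ in UU, q ℓ := Ultrafilter.eventually_or.1 h

theorem ev_not {p : ℕ → Prop} : (¬ ∀ᶠ ℓ in UU, p ℓ) ↔ ∀ᶠ ℓ in UU, ¬ p ℓ :=
  Ultrafilter.eventually_not.symm

theorem ev_fin {ι : Type*} [Finite ι] {p : ι → ℕ → Prop} (h : ∀ᶠ ℓ in UU, ∃ i, p i ℓ) :
    ∃ i, ∀ᶠ ℓ in UU, p i ℓ := by
  by_contra hc
  push Not at hc
  have h2 : ∀ᶠ ℓ in UU, ∀ i, ¬ p i ℓ :=
    eventually_all.2 hc
  obtain ⟨ℓ, ⟨i, hi⟩, h3⟩ := (h.and h2).exists
  exact h3 i hi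

theorem ev_top {p : ℕ → Prop} (h : ∀ᶠ ℓ in atTop, p ℓ) : ∀ᶠ ℓ in UU, p ℓ :=
  Nat.hyperfilter_le_atTop h

theorem ev_choose {α : ℕ → Type*} [∀ ℓ, Nonempty (α ℓ)] {p : ∀ ℓ, α ℓ → Prop}
    (h : ∀ᶠ ℓ in UU, ∃ a, p ℓ a) : ∃ a : ∀ ℓ, α ℓ, ∀ᶠ ℓ in UU, p ℓ (a ℓ) :=
  ⟨fun ℓ => Classical.epsilon (p ℓ), h.mono fun _ hℓ => Classical.epsilon_spec hℓ⟩

theorem ev_false {p : Prop} (h : ∀ᶠ _ℓ in UU, p) : p := h.exists.elim fun _ h => h

variable {a b : ℕ → ℕ}

theorem Lin.const (c : ℕ) : Lin fun _ => c :=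
  ⟨c, Eventually.of_forall fun ℓ => Nat.le_mul_of_pos_right c ℓ.succ_pos⟩
theorem Lin.id (c : ℕ) : Lin fun ℓ => c * (ℓ + 1) := ⟨c, Eventually.of_forall fun _ => le_rfl⟩
theorem Lin.mono (h : ∀ᶠ ℓ in UU, a ℓ ≤ b ℓ) (hb : Lin b) : Lin a := by
  obtain ⟨N, hN⟩ := hb
  exact ⟨N, (h.and hN).mono fun _ h => h.1.trans h.2⟩
theorem Lin.add (ha : Lin a) (hb : Lin b) : Lin fun ℓ => a ℓ + b ℓ := by
  obtain ⟨N, hN⟩ := ha
  obtain ⟨M, hM⟩ := hb
  exact ⟨N + M, (hN.and hM).mono fun _ h => by rw [add_mul]; exact add_le_add h.1 h.2⟩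
theorem Lin.mul (c : ℕ) (ha : Lin a) : Lin fun ℓ => c * a ℓ := by
  obtain ⟨N, hN⟩ := ha
  exact ⟨c * N, hN.mono fun _ h => by rw [mul_assoc]; exact Nat.mul_le_mul_left c h⟩
theorem Lin.sum {ι : Type*} (s : Finset ι) {a : ι → ℕ → ℕ} (h : ∀ i ∈ s, Lin (a i)) :
    Lin fun ℓ => ∑ i ∈ s, a i ℓ := by
  classical
  induction s using Finset.induction_on with
  | empty => simpa using Lin.const 0
  | insert i s hi ih =>
    simp only [Finset.sum_insert hi]
    exact (h i (Finset.mem_insert_self i s)).add (ih fun j hj => h j (Finset.mem_insert_of_mem hj))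
theorem Lin.pol (ha : Lin a) : Pol a := by
  obtain ⟨N, hN⟩ := ha
  exact ⟨N, hN.mono fun _ h => h.trans Nat.lt_two_pow_self.le⟩
theorem Lin.pow_pol (q : ℕ) (ha : Lin a) : Pol fun ℓ => q ^ a ℓ := by
  obtain ⟨N, hN⟩ := ha
  refine ⟨q * N, hN.mono fun ℓ h => ?_⟩
  calc q ^ a ℓ ≤ (2 ^ q) ^ a ℓ := Nat.pow_le_pow_left Nat.lt_two_pow_self.le _
    _ = 2 ^ (q * a ℓ) := (pow_mul _ _ _).symm
    _ ≤ 2 ^ (q * N * (ℓ + 1)) :=
      Nat.pow_le_pow_right two_pos (by rw [mul_assoc]; exact Nat.mul_le_mul_left q h)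

theorem Pol.const (c : ℕ) : Pol fun _ => c := (Lin.const c).pol
theorem Pol.mono (h : ∀ᶠ ℓ in UU, a ℓ ≤ b ℓ) (hb : Pol b) : Pol a := by
  obtain ⟨N, hN⟩ := hb
  exact ⟨N, (h.and hN).mono fun _ h => h.1.trans h.2⟩
theorem Pol.add (ha : Pol a) (hb : Pol b) : Pol fun ℓ => a ℓ + b ℓ := by
  obtain ⟨N, hN⟩ := ha
  obtain ⟨M, hM⟩ := hb
  refine ⟨N + M + 1, (hN.and hM).mono fun ℓ h => ?_⟩
  have h1 : 2 ^ (N * (ℓ + 1)) ≤ 2 ^ ((N + M) * (ℓ + 1)) :=
    Nat.pow_le_pow_right two_pos (Nat.mul_le_mul_right _ (Nat.le_add_right _ _))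
  have h2 : 2 ^ (M * (ℓ + 1)) ≤ 2 ^ ((N + M) * (ℓ + 1)) :=
    Nat.pow_le_pow_right two_pos (Nat.mul_le_mul_right _ (Nat.le_add_left _ _))
  have h3 : 2 ^ ((N + M) * (ℓ + 1) + 1) ≤ 2 ^ ((N + M + 1) * (ℓ + 1)) :=
    Nat.pow_le_pow_right two_pos (by rw [add_mul (N + M) 1]; omega)
  rw [pow_succ] at h3
  have := h.1
  have := h.2
  change a ℓ + b ℓ ≤ _
  omega
theorem Pol.mul (ha : Pol a) (hb : Pol b) : Pol fun ℓ => a ℓ * b ℓ := by
  obtain ⟨N, hN⟩ := ha
  obtain ⟨M, hM⟩ := hb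
  exact ⟨N + M, (hN.and hM).mono fun _ h => by
    rw [add_mul, pow_add]; exact Nat.mul_le_mul h.1 h.2⟩
theorem Pol.pow (ha : Pol a) (k : ℕ) : Pol fun ℓ => a ℓ ^ k := by
  induction k with
  | zero => simpa using Pol.const 1
  | succ k ih => simpa only [pow_succ] using ih.mul ha
theorem Pol.sum {ι : Type*} (s : Finset ι) {a : ι → ℕ → ℕ} (h : ∀ i ∈ s, Pol (a i)) :
    Pol fun ℓ => ∑ i ∈ s, a i ℓ := by
  classical
  induction s using Finset.induction_on with
  | empty => simpa using Pol.const 0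
  | insert i s hi ih =>
    simp only [Finset.sum_insert hi]
    exact (h i (Finset.mem_insert_self i s)).add (ih fun j hj => h j (Finset.mem_insert_of_mem hj))
theorem Pol.log (ha : Pol a) : ∃ l, Lin l ∧ ∀ᶠ ℓ in UU, a ℓ ≤ 2 ^ l ℓ := by
  obtain ⟨N, hN⟩ := ha
  exact ⟨_, Lin.id N, hN⟩

/-- An exponential beats a linear sequence. -/
theorem Lin.lt_pow (ha : Lin a) (c : ℝ) {η : ℝ} (hη : 0 < η) {q : ℕ} (hq : 2 ≤ q) :
    ∀ᶠ ℓ in UU, c * a ℓ < η * (q : ℝ) ^ (ℓ + 1) := by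
  obtain ⟨N, hN⟩ := ha
  have hq1 : (1 : ℝ) < q := by exact_mod_cast hq
  have h1 : Tendsto (fun n : ℕ => |c| * N * ((n : ℝ) ^ 1 / (q : ℝ) ^ n)) atTop
      (𝓝 (|c| * N * 0)) := (tendsto_pow_const_div_const_pow_of_one_lt 1 hq1).const_mul _
  rw [mul_zero] at h1
  have h2 := ev_top ((h1.comp (tendsto_add_atTop_nat 1)).eventually (gt_mem_nhds hη))
  filter_upwards [hN, h2] with ℓ h h'
  have h3 : (a ℓ : ℝ) ≤ N * ((ℓ + 1 : ℕ) : ℝ) := by exact_mod_cast h
  simp only [Function.comp_apply, pow_one] at h'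
  rw [← mul_div_assoc, div_lt_iff₀ (pow_pos (by linarith) _)] at h'
  refine lt_of_le_of_lt ?_ h'
  calc c * a ℓ ≤ |c| * a ℓ := mul_le_mul_of_nonneg_right (le_abs_self c) (Nat.cast_nonneg _)
    _ ≤ |c| * (N * ((ℓ + 1 : ℕ) : ℝ)) := mul_le_mul_of_nonneg_left h3 (abs_nonneg c)
    _ = _ := by ring

end Pool.Agent.MP_ee2255_nt.T

end

section

/-! Calculus of big, low and small sequences. -/

namespace Pool.Agent.MP_ee2255_nt.T

open Polynomial Filter Topology Pool.Agent.MP_655169_nt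

theorem sc_pos (N ℓ : ℕ) : 0 < sc N ℓ := pow_pos two_pos _

theorem sc_zero (ℓ : ℕ) : sc 0 ℓ = 1 := by simp [sc]

theorem sc_mono {N N' : ℕ} (h : N ≤ N') (ℓ : ℕ) : sc N ℓ ≤ sc N' ℓ :=
  pow_le_pow_right₀ one_le_two (Nat.mul_le_mul_right _ h)

theorem sc_lt {N N' : ℕ} (h : N < N') (ℓ : ℕ) : sc N ℓ < sc N' ℓ :=
  pow_lt_pow_right₀ one_lt_two (Nat.mul_lt_mul_of_pos_right h (Nat.succ_pos _))

theorem sc_mul (N N' ℓ : ℕ) : sc N ℓ * sc N' ℓ = sc (N + N') ℓ := by
  rw [sc, sc, sc, ← pow_add, add_mul]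

theorem pow_le_sc (N ℓ : ℕ) : (2 : ℝ) ^ N ≤ sc N ℓ :=
  pow_le_pow_right₀ one_le_two (Nat.le_mul_of_pos_right _ (Nat.succ_pos _))

theorem sc_add (N N' ℓ : ℕ) : sc N ℓ + sc N' ℓ ≤ sc (N + N' + 1) ℓ := by
  have h1 := sc_mono (Nat.le_add_right N N') ℓ
  have h2 := sc_mono (Nat.le_add_left N' N) ℓ
  have h3 := pow_le_sc 1 ℓ
  have h4 := sc_pos (N + N') ℓ
  rw [← sc_mul (N + N') 1]
  nlinarith

theorem le_sc {a N ℓ : ℕ} (h : a ≤ 2 ^ (N * (ℓ + 1))) : (a : ℝ) ≤ sc N ℓ := by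
  rw [sc]
  exact_mod_cast h

variable {M M' r r' η L R : ℕ → ℝ} {d : ℕ → ℕ}

theorem msc_add (hM : ∀ ℓ, 1 ≤ M ℓ) (N N' ℓ : ℕ) :
    M ℓ * sc N ℓ + M ℓ * sc N' ℓ ≤ M ℓ * sc (N + N' + 1) ℓ := by
  rw [← mul_add]
  exact mul_le_mul_of_nonneg_left (sc_add N N' ℓ) (zero_le_one.trans (hM ℓ))

theorem msc_mono (hM : ∀ ℓ, 1 ≤ M ℓ) {N N' : ℕ} (h : N ≤ N') (ℓ : ℕ) :
    M ℓ * sc N ℓ ≤ M ℓ * sc N' ℓ :=
  mul_le_mul_of_nonneg_left (sc_mono h ℓ) (zero_le_one.trans (hM ℓ))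

theorem msc_pow (hM : ∀ ℓ, 1 ≤ M ℓ) {a : ℕ} (N : ℕ) {N' ℓ : ℕ} (h : a ≤ 2 ^ (N' * (ℓ + 1))) :
    a * (M ℓ * sc N ℓ) ≤ M ℓ * sc (N + N') ℓ := by
  rw [← sc_mul, ← mul_assoc (M ℓ), mul_comm (a : ℝ)]
  exact mul_le_mul_of_nonneg_left (le_sc h)
    (mul_nonneg (zero_le_one.trans (hM ℓ)) (sc_pos N ℓ).le)

theorem Big.mono (h : ∀ᶠ ℓ in UU, r ℓ ≤ r' ℓ) (hr : Big M r') : Big M r := by
  obtain ⟨N, hN⟩ := hr
  exact ⟨N, (h.and hN).mono fun ℓ h => h.1.trans h.2⟩

theorem Big.const (hM : ∀ ℓ, 1 ≤ M ℓ) (c : ℝ) : Big M fun _ => c := by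
  obtain ⟨N, hN⟩ := pow_unbounded_of_one_lt c (one_lt_two (α := ℝ))
  refine ⟨N, Eventually.of_forall fun ℓ => ?_⟩
  have h1 := pow_le_sc N ℓ
  have h2 := le_mul_of_one_le_left (sc_pos N ℓ).le (hM ℓ)
  have h3 := Real.add_one_le_exp (M ℓ * sc N ℓ)
  linarith

theorem Big.mul (hM : ∀ ℓ, 1 ≤ M ℓ) (hr : Big M r) (hr' : Big M r') (h0 : ∀ᶠ ℓ in UU, 0 ≤ r' ℓ) :
    Big M fun ℓ => r ℓ * r' ℓ := by
  obtain ⟨N, hN⟩ := hr
  obtain ⟨N', hN'⟩ := hr'
  refine ⟨N + N' + 1, ?_⟩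
  filter_upwards [hN, hN', h0] with ℓ h1 h2 h3
  refine (mul_le_mul h1 h2 h3 (Real.exp_pos _).le).trans ?_
  rw [← Real.exp_add]
  exact Real.exp_le_exp.mpr (msc_add hM N N' ℓ)

theorem Big.pow (hM : ∀ ℓ, 1 ≤ M ℓ) (hr : Big M r) (h0 : ∀ᶠ ℓ in UU, 0 ≤ r ℓ) (hd : Pol d) :
    Big M fun ℓ => r ℓ ^ d ℓ := by
  obtain ⟨N, hN⟩ := hr
  obtain ⟨N', hN'⟩ := hd
  refine ⟨N + N', ?_⟩
  filter_upwards [hN, hN', h0] with ℓ h1 h2 h3
  refine (pow_le_pow_left₀ h3 h1 _).trans ?_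
  rw [← Real.exp_nat_mul]
  exact Real.exp_le_exp.mpr (msc_pow hM N h2)

theorem Big.max (hM : ∀ ℓ, 1 ≤ M ℓ) (hr : Big M r) (hr' : Big M r') :
    Big M fun ℓ => max (r ℓ) (r' ℓ) := by
  obtain ⟨N, hN⟩ := hr
  obtain ⟨N', hN'⟩ := hr'
  refine ⟨N + N', ?_⟩
  filter_upwards [hN, hN'] with ℓ h1 h2
  exact max_le (h1.trans (Real.exp_le_exp.mpr (msc_mono hM (Nat.le_add_right _ _) ℓ)))
    (h2.trans (Real.exp_le_exp.mpr (msc_mono hM (Nat.le_add_left _ _) ℓ)))

theorem Big.add (hM : ∀ ℓ, 1 ≤ M ℓ) (hr : Big M r) (hr' : Big M r') :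
    Big M fun ℓ => r ℓ + r' ℓ := by
  refine Big.mono (Eventually.of_forall fun ℓ => ?_) ((hr.max hM hr').mul hM (Big.const hM 2)
    (Eventually.of_forall fun _ => zero_le_two))
  linarith [le_max_left (r ℓ) (r' ℓ), le_max_right (r ℓ) (r' ℓ)]

theorem Big.sum (hM : ∀ ℓ, 1 ≤ M ℓ) {ι : Type*} (s : Finset ι) {r : ι → ℕ → ℝ}
    (h : ∀ i ∈ s, Big M (r i)) : Big M fun ℓ => ∑ i ∈ s, r i ℓ := by
  classical
  induction s using Finset.induction_on with
  | empty => simpa using Big.const hM 0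
  | insert i s hi ih =>
    simp only [Finset.sum_insert hi]
    exact (h i (Finset.mem_insert_self _ _)).add hM
      (ih fun j hj => h j (Finset.mem_insert_of_mem hj))

theorem Big.level (h : ∀ᶠ ℓ in UU, M ℓ ≤ M' ℓ) (hr : Big M r) : Big M' r := by
  obtain ⟨N, hN⟩ := hr
  refine ⟨N, ?_⟩
  filter_upwards [hN, h] with ℓ h1 h2
  exact h1.trans (Real.exp_le_exp.mpr (mul_le_mul_of_nonneg_right h2 (sc_pos N ℓ).le))

theorem Low.mono (h : ∀ᶠ ℓ in UU, r ℓ ≤ r' ℓ) (hr : Low M r) : Low M r' := by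
  obtain ⟨N, hN⟩ := hr
  exact ⟨N, (h.and hN).mono fun ℓ h => h.2.trans h.1⟩

theorem Low.const (hM : ∀ ℓ, 1 ≤ M ℓ) {c : ℝ} (hc : 0 < c) : Low M fun _ => c := by
  obtain ⟨N, hN⟩ := Big.const hM c⁻¹
  refine ⟨N, hN.mono fun ℓ h => ?_⟩
  rw [Real.exp_neg]
  exact inv_le_of_inv_le₀ hc h

theorem Low.pos (hr : Low M r) : ∀ᶠ ℓ in UU, 0 < r ℓ := by
  obtain ⟨N, hN⟩ := hr
  exact hN.mono fun ℓ h => (Real.exp_pos _).trans_le h

theorem Low.mul (hM : ∀ ℓ, 1 ≤ M ℓ) (hr : Low M r) (hr' : Low M r') :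
    Low M fun ℓ => r ℓ * r' ℓ := by
  obtain ⟨N, hN⟩ := hr
  obtain ⟨N', hN'⟩ := hr'
  refine ⟨N + N' + 1, ?_⟩
  filter_upwards [hN, hN'] with ℓ h1 h2
  refine le_trans ?_ (mul_le_mul h1 h2 (Real.exp_pos _).le ((Real.exp_pos _).le.trans h1))
  rw [← Real.exp_add]
  exact Real.exp_le_exp.mpr (by linarith [msc_add hM N N' ℓ])

theorem Low.pow (hM : ∀ ℓ, 1 ≤ M ℓ) (hr : Low M r) (hd : Pol d) :
    Low M fun ℓ => r ℓ ^ d ℓ := by
  obtain ⟨N, hN⟩ := hr
  obtain ⟨N', hN'⟩ := hd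
  refine ⟨N + N', ?_⟩
  filter_upwards [hN, hN'] with ℓ h1 h2
  refine le_trans ?_ (pow_le_pow_left₀ (Real.exp_pos _).le h1 _)
  rw [← Real.exp_nat_mul]
  exact Real.exp_le_exp.mpr (by linarith [msc_pow hM N h2])

theorem Low.level (h : ∀ᶠ ℓ in UU, M ℓ ≤ M' ℓ) (hr : Low M r) : Low M' r := by
  obtain ⟨N, hN⟩ := hr
  refine ⟨N, ?_⟩
  filter_upwards [hN, h] with ℓ h1 h2
  exact (Real.exp_le_exp.mpr
    (neg_le_neg (mul_le_mul_of_nonneg_right h2 (sc_pos N ℓ).le))).trans h1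

theorem Low.inv (hr : Low M r) : Big M fun ℓ => (r ℓ)⁻¹ := by
  obtain ⟨N, hN⟩ := hr
  refine ⟨N, hN.mono fun ℓ h => ?_⟩
  rw [Real.exp_neg] at h
  exact inv_le_of_inv_le₀ (Real.exp_pos _) h

/-- If `L ≤ r * R` with `L` low and `R` big then `r` is low. -/
theorem Low.of_le_mul (hM : ∀ ℓ, 1 ≤ M ℓ) (hL : Low M L) (hR : Big M R)
    (h : ∀ᶠ ℓ in UU, 0 ≤ r ℓ ∧ L ℓ ≤ r ℓ * R ℓ) : Low M r := by
  obtain ⟨N, hN⟩ := hL
  obtain ⟨N', hN'⟩ := hR
  refine ⟨N + N' + 1, ?_⟩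
  filter_upwards [hN, hN', h] with ℓ h1 h2 h3
  have h4 := h1.trans (h3.2.trans (mul_le_mul_of_nonneg_left h2 h3.1))
  rw [← div_le_iff₀ (Real.exp_pos _), ← Real.exp_sub] at h4
  exact (Real.exp_le_exp.mpr (by linarith [msc_add hM N N' ℓ])).trans h4

/-- If `r * L ≤ R` with `L` low and `R` big then `r` is big. -/
theorem Big.of_mul_le (hM : ∀ ℓ, 1 ≤ M ℓ) (hL : Low M L) (hR : Big M R)
    (h : ∀ᶠ ℓ in UU, 0 ≤ r ℓ ∧ r ℓ * L ℓ ≤ R ℓ) : Big M r := by
  obtain ⟨N, hN⟩ := hL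
  obtain ⟨N', hN'⟩ := hR
  refine ⟨N + N' + 1, ?_⟩
  filter_upwards [hN, hN', h] with ℓ h1 h2 h3
  have h4 := (mul_le_mul_of_nonneg_left h1 h3.1).trans (h3.2.trans h2)
  rw [← le_div_iff₀ (Real.exp_pos _), ← Real.exp_sub] at h4
  exact h4.trans (Real.exp_le_exp.mpr (by linarith [msc_add hM N N' ℓ]))

/-- A sequence of nonzero elements is low at its own level. -/
theorem low_lev {C : Type*} [NormedField C] {a : ℕ → C} (h : ∀ᶠ ℓ in UU, a ℓ ≠ 0) :
    Low (lev a) fun ℓ => ‖a ℓ‖ := by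
  refine ⟨0, h.mono fun ℓ h => ?_⟩
  rw [sc_zero, mul_one, ← Real.le_log_iff_exp_le (norm_pos_iff.mpr h)]
  exact neg_le.mp (le_max_right _ _)

theorem one_le_lev {C : Type*} [NormedField C] (a : ℕ → C) (ℓ : ℕ) : 1 ≤ lev a ℓ :=
  le_max_left _ _

/-- A very small sequence has a higher level. -/
theorem Sm.le_lev {C : Type*} [NormedField C] {a : ℕ → C} (h0 : ∀ᶠ ℓ in UU, a ℓ ≠ 0)
    (hM : ∀ ℓ, 1 ≤ M ℓ) (h : Sm M fun ℓ => ‖a ℓ‖) : ∀ᶠ ℓ in UU, M ℓ ≤ lev a ℓ := by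
  have _ := hM
  filter_upwards [h0, h 0] with ℓ h1 h2
  rw [sc_zero, mul_one, ← Real.log_lt_iff_lt_exp (norm_pos_iff.mpr h1)] at h2
  exact (lt_neg.mp h2).le.trans (le_max_right _ _)

theorem not_low : ¬ Low M r ↔ Sm M r := by
  simp only [Low, Sm, not_exists, ev_not, not_le]

theorem Sm.not_low (h : Sm M r) (h' : Low M r) : False := T.not_low.mpr h h'

theorem Sm.mono (h : ∀ᶠ ℓ in UU, r ℓ ≤ r' ℓ) (hr : Sm M r') : Sm M r := fun N =>
  (h.and (hr N)).mono fun _ h => h.1.trans_lt h.2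

theorem Sm.level (h : ∀ᶠ ℓ in UU, M ℓ ≤ M' ℓ) (hr : Sm M' r) : Sm M r :=
  T.not_low.mp fun h' => hr.not_low (h'.level h)

theorem Sm.zero : Sm M fun _ => 0 := fun _ => Eventually.of_forall fun _ => Real.exp_pos _

theorem Sm.lt_low (hM : ∀ ℓ, 1 ≤ M ℓ) (hη : Sm M η) (hL : Low M L) : ∀ᶠ ℓ in UU, η ℓ < L ℓ := by
  have _ := hM
  obtain ⟨N, hN⟩ := hL
  exact ((hη N).and hN).mono fun _ h => h.1.trans_le h.2

theorem Sm.lt_one (hM : ∀ ℓ, 1 ≤ M ℓ) (hη : Sm M η) : ∀ᶠ ℓ in UU, η ℓ < 1 :=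
  hη.lt_low hM (Low.const hM one_pos)

theorem Sm.mul_big (hM : ∀ ℓ, 1 ≤ M ℓ) (hη : Sm M η) (hR : Big M R) (h0 : ∀ᶠ ℓ in UU, 0 ≤ R ℓ) :
    Sm M fun ℓ => η ℓ * R ℓ := by
  refine T.not_low.mp fun h => hη.not_low (h.of_le_mul hM hR ?_)
  filter_upwards [h.pos, h0] with ℓ h1 h2
  exact ⟨(pos_of_mul_pos_left h1 h2).le, le_rfl⟩

theorem Sm.max (hη : Sm M η) (hr : Sm M r) : Sm M fun ℓ => max (η ℓ) (r ℓ) := fun N =>
  ((hη N).and (hr N)).mono fun _ h => max_lt h.1 h.2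

theorem Sm.add (hM : ∀ ℓ, 1 ≤ M ℓ) (hη : Sm M η) (hr : Sm M r) : Sm M fun ℓ => η ℓ + r ℓ := by
  refine Sm.mono (Eventually.of_forall fun ℓ => ?_) ((hη.max hr).mul_big hM (Big.const hM 2)
    (Eventually.of_forall fun _ => zero_le_two))
  linarith [le_max_left (η ℓ) (r ℓ), le_max_right (η ℓ) (r ℓ)]

theorem Sm.sum (hM : ∀ ℓ, 1 ≤ M ℓ) {ι : Type*} (s : Finset ι) {r : ι → ℕ → ℝ}
    (h : ∀ i ∈ s, Sm M (r i)) : Sm M fun ℓ => ∑ i ∈ s, r i ℓ := by
  classical
  induction s using Finset.induction_on with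
  | empty => simpa using Sm.zero
  | insert i s hi ih =>
    simp only [Finset.sum_insert hi]
    exact (h i (Finset.mem_insert_self _ _)).add hM
      (ih fun j hj => h j (Finset.mem_insert_of_mem hj))

theorem Sm.pow (hM : ∀ ℓ, 1 ≤ M ℓ) (hη : Sm M η) (h : ∀ᶠ ℓ in UU, 0 ≤ η ℓ ∧ 1 ≤ d ℓ) :
    Sm M fun ℓ => η ℓ ^ d ℓ := by
  refine hη.mono ?_
  filter_upwards [h, hη.lt_one hM] with ℓ h1 h2
  exact pow_le_of_le_one h1.1 h2.le (Nat.one_le_iff_ne_zero.mp h1.2)

theorem Sm.root (hM : ∀ ℓ, 1 ≤ M ℓ) (hη : Sm M η) (hL : Low M L) (hd : Pol d)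
    (h : ∀ᶠ ℓ in UU, 0 ≤ r ℓ ∧ 1 ≤ d ℓ ∧ r ℓ ^ d ℓ * L ℓ ≤ η ℓ) : Sm M r :=
  T.not_low.mp fun h' =>
    hη.not_low (((h'.pow hM hd).mul hM hL).mono (h.mono fun _ h => h.2.2))

theorem exists_eps (hM : ∀ ℓ, 1 ≤ M ℓ) (hη : Sm M η) (hL : Low M L) (hd : Pol d) :
    ∃ ε, Sm M ε ∧ ∀ᶠ ℓ in UU, 0 < ε ℓ ∧ ε ℓ ≤ 1 ∧ η ℓ < ε ℓ ^ d ℓ * L ℓ := by
  have h1 : Sm M fun ℓ => Real.exp (-(M ℓ * sc ℓ ℓ)) := fun N => by
    filter_upwards [ev_top (eventually_gt_atTop N)] with ℓ h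
    exact Real.exp_lt_exp.mpr (neg_lt_neg
      (mul_lt_mul_of_pos_left (sc_lt h ℓ) (zero_lt_one.trans_le (hM ℓ))))
  let η' : ℕ → ℝ := fun ℓ => max (η ℓ) (Real.exp (-(M ℓ * sc ℓ ℓ)))
  have h2 : ∀ ℓ, 0 < η' ℓ := fun ℓ => (Real.exp_pos _).trans_le (le_max_right _ _)
  have h3 : Sm M fun ℓ => η' ℓ * 2 :=
    (hη.max h1).mul_big hM (Big.const hM 2) (Eventually.of_forall fun _ => zero_le_two)
  let ε : ℕ → ℝ := fun ℓ => (η' ℓ * 2 / L ℓ) ^ (((d ℓ + 1 : ℕ) : ℝ)⁻¹)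
  have h4 : ∀ᶠ ℓ in UU, 0 < ε ℓ ∧ ε ℓ ^ (d ℓ + 1) * L ℓ = η' ℓ * 2 := by
    filter_upwards [hL.pos] with ℓ h
    have h5 : 0 < η' ℓ * 2 / L ℓ := div_pos (mul_pos (h2 ℓ) two_pos) h
    refine ⟨Real.rpow_pos_of_pos h5 _, ?_⟩
    rw [Real.rpow_inv_natCast_pow h5.le (Nat.succ_ne_zero _), div_mul_cancel₀ _ h.ne']
  have h6 : Sm M ε := h3.root hM hL (hd.add (Pol.const 1))
    (h4.mono fun ℓ h => ⟨h.1.le, Nat.le_add_left _ _, h.2.le⟩)
  refine ⟨ε, h6, ?_⟩
  filter_upwards [h4, h6.lt_one hM, hL.pos] with ℓ h7 h8 h9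
  refine ⟨h7.1, h8.le, ?_⟩
  have h10 := mul_le_mul_of_nonneg_right
    (pow_le_pow_of_le_one h7.1.le h8.le (Nat.le_add_right (d ℓ) 1)) h9.le
  have h11 : η ℓ ≤ η' ℓ := le_max_left _ _
  linarith [h7.2, h2 ℓ]

theorem exists_trunc (hM : ∀ ℓ, 1 ≤ M ℓ) (hL : Low M L) (hR : Big M R) {c : ℝ} (hc : 0 < c)
    {q : ℕ} (hq : 2 ≤ q) : ∃ m, Lin m ∧ ∀ᶠ ℓ in UU, ∀ m', m ℓ ≤ m' →
      R ℓ * Real.exp (-(c * M ℓ * (q : ℝ) ^ m')) < L ℓ := by
  obtain ⟨N, hN⟩ := hL
  obtain ⟨N', hN'⟩ := hR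
  obtain ⟨K, hK⟩ := pow_unbounded_of_one_lt c⁻¹ (one_lt_two (α := ℝ))
  have hK' : 1 < c * 2 ^ K := by rwa [inv_lt_iff_one_lt_mul₀' hc] at hK
  refine ⟨fun ℓ => (N + N' + 1) * (ℓ + 1) + K, (Lin.id _).add (Lin.const K), ?_⟩
  filter_upwards [hN, hN'] with ℓ h1 h2 m' hm
  refine lt_of_le_of_lt (mul_le_mul_of_nonneg_right h2 (Real.exp_pos _).le) (lt_of_lt_of_le ?_ h1)
  rw [← Real.exp_add, Real.exp_lt_exp]
  have h3 : sc (N + N' + 1) ℓ * 2 ^ K ≤ (q : ℝ) ^ m' := by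
    rw [sc, ← pow_add]
    exact (pow_le_pow_right₀ one_le_two hm).trans
      (pow_le_pow_left₀ zero_le_two (by exact_mod_cast hq) _)
  have h4 : 0 < M ℓ := zero_lt_one.trans_le (hM ℓ)
  have h5 := mul_le_mul_of_nonneg_left h3 (mul_pos hc h4).le
  have h6 := mul_lt_mul_of_pos_left hK' (mul_pos h4 (sc_pos (N + N' + 1) ℓ))
  have h7 := msc_add hM N N' ℓ
  nlinarith

end Pool.Agent.MP_ee2255_nt.T

end

section

/-! The Carlitz action. -/

set_option linter.unusedSectionVars false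

namespace Pool.Agent.MP_ee2255_nt.T

open Polynomial Filter Topology Pool.Agent.MP_655169_nt

section

variable {F C : Type*} [Field F] [Fintype F] [Field C] [Algebra F C] (θ : C)

theorem TCarl_fr (i : ℕ) (x : C) : (FiniteField.frobeniusAlgHom F C ^ i) x = x ^ qq F ^ i := by
  induction i with
  | zero => simp
  | succ i ih =>
    rw [pow_succ', AlgHom.mul_apply, ih, pow_succ, pow_mul]
    rfl

theorem TCarl_D_succ (i : ℕ) : carlitzD (qq F) θ (i + 1) =
    carlitzD (qq F) θ i ^ qq F * (θ ^ qq F ^ (i + 1) - θ) := by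
  have e : ∀ x : C, x ^ qq F = FiniteField.frobeniusAlgHom F C x := fun _ => rfl
  rw [carlitzD, Finset.prod_range_succ', e (carlitzD _ _ _), carlitzD, map_prod, pow_zero, pow_one]
  congr 1
  refine Finset.prod_congr rfl fun j _ => ?_
  rw [map_sub, ← e, ← e, ← pow_mul, ← pow_mul, ← pow_succ, ← pow_succ]

theorem cth_apply (y : C) : cth F θ y = θ * y + y ^ qq F := rfl
theorem carl_add_left (c c' : F[X]) (y : C) : carl θ (c + c') y = carl θ c y + carl θ c' y := by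
  rw [carl, map_add]; rfl
theorem carl_sub_left (c c' : F[X]) (y : C) : carl θ (c - c') y = carl θ c y - carl θ c' y := by
  rw [carl, map_sub]; rfl
theorem carl_add (c : F[X]) (y y' : C) : carl θ c (y + y') = carl θ c y + carl θ c y' :=
  map_add _ _ _
theorem carl_sub (c : F[X]) (y y' : C) : carl θ c (y - y') = carl θ c y - carl θ c y' :=
  map_sub _ _ _
theorem carl_smul (c : F[X]) (a : F) (y : C) : carl θ c (a • y) = a • carl θ c y :=
  map_smul _ _ _
theorem carl_smul_left (c : F[X]) (a : F) (y : C) : carl θ (a • c) y = a • carl θ c y := by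
  rw [carl, map_smul]; rfl
@[simp] theorem carl_zero (c : F[X]) : carl θ c 0 = 0 := map_zero _
@[simp] theorem carl_zero_left (y : C) : carl θ (0 : F[X]) y = 0 := by
  rw [carl, map_zero]; rfl
@[simp] theorem carl_one (y : C) : carl θ (1 : F[X]) y = y := by
  rw [carl, map_one]; rfl
theorem carl_mul (c c' : F[X]) (y : C) : carl θ (c * c') y = carl θ c (carl θ c' y) := by
  rw [carl, map_mul]; rfl
theorem carl_X (y : C) : carl θ (X : F[X]) y = θ * y + y ^ qq F := by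
  rw [carl, aeval_X]; rfl
theorem carl_C (a : F) (y : C) : carl θ (Polynomial.C a) y = a • y := by
  rw [carl, aeval_C, Module.algebraMap_end_apply]
theorem carl_X_pow (i : ℕ) (y : C) : carl θ ((X : F[X]) ^ i) y = (cth F θ ^ i) y := by
  rw [carl, map_pow, aeval_X]
theorem carl_sum {ι : Type*} (s : Finset ι) (c : F[X]) (y : ι → C) :
    carl θ c (∑ i ∈ s, y i) = ∑ i ∈ s, carl θ c (y i) := map_sum _ _ _
theorem carl_sum_left {ι : Type*} (s : Finset ι) (c : ι → F[X]) (y : C) :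
    carl θ (∑ i ∈ s, c i) y = ∑ i ∈ s, carl θ (c i) y := by
  rw [carl, map_sum, LinearMap.sum_apply]; rfl
theorem carl_eq_sum (c : F[X]) (n : ℕ) (h : c.natDegree < n) (y : C) :
    carl θ c y = ∑ i ∈ Finset.range n, c.coeff i • (cth F θ ^ i) y := by
  rw [carl, aeval_eq_sum_range' h, LinearMap.sum_apply]; rfl

theorem TCarl_succ (i : ℕ) (y : C) :
    (cth F θ ^ (i + 1)) y = θ * (cth F θ ^ i) y + (cth F θ ^ i) y ^ qq F := by
  rw [pow_succ', Module.End.mul_apply, cth_apply]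

theorem carl_map {C' : Type*} [Field C'] [Algebra F C'] (φ : C →ₐ[F] C') (c : F[X]) (y : C) :
    φ (carl θ c y) = carl (φ θ) c (φ y) := by
  have h : ∀ i : ℕ, φ ((cth F θ ^ i) y) = (cth F (φ θ) ^ i) (φ y) := by
    intro i
    induction i with
    | zero => rfl
    | succ i ih => rw [TCarl_succ, TCarl_succ, map_add, map_mul, map_pow, ih]
  rw [carl_eq_sum θ c _ (Nat.lt_succ_self _), carl_eq_sum (φ θ) c _ (Nat.lt_succ_self _), map_sum]
  exact Finset.sum_congr rfl fun i _ => by rw [map_smul, h]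

theorem carl_mem (k : Subfield C) (hF : ∀ a : F, algebraMap F C a ∈ k) (hθ : θ ∈ k) (c : F[X])
    {y : C} (hy : y ∈ k) : carl θ c y ∈ k := by
  have h : ∀ i : ℕ, (cth F θ ^ i) y ∈ k := by
    intro i
    induction i with
    | zero => exact hy
    | succ i ih =>
      rw [TCarl_succ]
      exact k.add_mem (k.mul_mem hθ ih) (k.pow_mem ih _)
  rw [carl_eq_sum θ c _ (Nat.lt_succ_self _)]
  refine k.sum_mem fun i _ => ?_
  rw [Algebra.smul_def]
  exact k.mul_mem (hF _) (h i)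

theorem carl_Vs {κ : Type*} (ω : κ → C) (hθ : θ ∈ Vs F ω 1) {δ n : ℕ} (hδ : 1 ≤ δ) {c : F[X]}
    (hc : c.natDegree ≤ n) {y : C} (hy : y ∈ Vs F ω δ) : carl θ c y ∈ Vs F ω (δ * qq F ^ n) := by
  have hq := two_le_qq (F := F)
  have h : ∀ i : ℕ, (cth F θ ^ i) y ∈ Vs F ω (δ * qq F ^ i) := by
    intro i
    induction i with
    | zero => simpa using hy
    | succ i ih =>
      rw [TCarl_succ]
      have h1 : 1 ≤ δ * qq F ^ i := Nat.mul_pos hδ (by positivity)
      refine Submodule.add_mem _ (Vs_mono ω ?_ (Vs_mul ω hθ ih)) (Vs_mono ω ?_ (Vs_pow ω ih _))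
      · rw [pow_succ, ← mul_assoc]; nlinarith
      · rw [pow_succ, ← mul_assoc]
  rw [carl_eq_sum θ c _ (Nat.lt_succ_of_le hc)]
  refine Submodule.sum_mem _ fun i hi => Submodule.smul_mem _ _ (Vs_mono ω ?_ (h i))
  exact Nat.mul_le_mul_left _
    (Nat.pow_le_pow_right (by omega) (Nat.lt_succ_iff.1 (Finset.mem_range.1 hi)))

/-- A solution of `C_{θ^n} y = z` is integral over any subring containing `θ` and `z`. -/
theorem integral_of_cth (A : Subalgebra F C) (hθ : θ ∈ A) (n : ℕ) (y : C)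
    (h : (cth F θ ^ n) y ∈ A) : IsIntegral A y := by
  have hq := two_le_qq (F := F)
  induction n generalizing y with
  | zero => exact isIntegral_algebraMap (x := (⟨y, h⟩ : A))
  | succ n ih =>
    rw [pow_succ, Module.End.mul_apply] at h
    have h1 := ih _ h
    have hd : (Polynomial.C (⟨θ, hθ⟩ : A) * X).degree < (X ^ qq F : A[X]).degree := by
      rw [degree_X_pow]
      refine (degree_C_mul_X_le _).trans_lt ?_
      exact_mod_cast hq
    refine IsIntegral.of_aeval_monic (p := X ^ qq F + Polynomial.C (⟨θ, hθ⟩ : A) * X)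
      ((monic_X_pow _).add_of_left hd) ?_ ?_
    · rw [natDegree_add_eq_left_of_degree_lt hd, natDegree_X_pow]
      omega
    · have e : aeval y (X ^ qq F + Polynomial.C (⟨θ, hθ⟩ : A) * X) = cth F θ y := by
        rw [cth_apply, map_add, map_mul, map_pow, aeval_X, aeval_C, add_comm]
        rfl
      rwa [e]

variable {ι : Type*} [Fintype ι]

theorem lin_Vs {κ : Type*} (ω : κ → C) (hθ : θ ∈ Vs F ω 1) {δ n : ℕ} {c : ι → F[X]}
    (hc : ∀ j, (c j).natDegree ≤ n) {x : ι → C} (hx : ∀ j, x j ∈ Vs F ω δ) :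
    lin θ c x ∈ Vs F ω (n + δ) := by
  refine Submodule.sum_mem _ fun j _ => Vs_mul ω ?_ (hx j)
  rw [aeval_eq_sum_range' (Nat.lt_succ_of_le (hc j))]
  refine Submodule.sum_mem _ fun i hi => Submodule.smul_mem _ _ (Vs_mono ω ?_ (Vs_pow ω hθ i))
  rw [one_mul]
  exact Nat.lt_succ_iff.1 (Finset.mem_range.1 hi)

theorem lin_lin {ι' : Type*} [Fintype ι'] (c : ι' → F[X]) (d : ι' → ι → F[X]) (x : ι → C) :
    lin θ c (fun j => lin θ (d j) x) = lin θ (fun i => ∑ j, c j * d j i) x := by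
  simp only [lin, map_sum, map_mul, Finset.mul_sum, Finset.sum_mul, mul_assoc]
  exact Finset.sum_comm

theorem lin_map {C' : Type*} [Field C'] [Algebra F C'] (φ : C →ₐ[F] C') (c : ι → F[X])
    (x : ι → C) : φ (lin θ c x) = lin (φ θ) c fun j => φ (x j) := by
  simp only [lin, map_sum, map_mul, aeval_algHom_apply]

theorem Vs_sub {κ : Type*} (ω : κ → C) (k : Subfield C) (hF : ∀ a : F, algebraMap F C a ∈ k)
    (hω : ∀ i, ω i ∈ k) {δ : ℕ} {a : C} (ha : a ∈ Vs F ω δ) : a ∈ k := by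
  obtain ⟨G, -, rfl⟩ := (mem_Vs ω δ a).1 ha
  clear ha
  induction G using MvPolynomial.induction_on with
  | C a => rw [MvPolynomial.aeval_C]; exact hF a
  | add p q hp hq => rw [map_add]; exact k.add_mem hp hq
  | mul_X p i hp => rw [map_mul, MvPolynomial.aeval_X]; exact k.mul_mem hp (hω i)

end

section

variable {F C : Type*} [Field F] [Fintype F] [NormedField C] [IsUltrametricDist C] [Algebra F C]
  {θ : C} {ι : Type*} [Fintype ι]

theorem TCarl_smul_le (a : F) (x : C) : ‖a • x‖ ≤ ‖x‖ := by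
  rw [Algebra.smul_def, norm_mul]
  exact mul_le_of_le_one_left (norm_nonneg _) (norm_F_le a)

theorem carl_norm (hθ : 1 < ‖θ‖) {c : F[X]} {n : ℕ} (hc : c.natDegree ≤ n) {y : C} {ε : ℝ}
    (hy : ‖y‖ ≤ ε) (h : ‖θ‖ ^ n * ε ≤ 1) : ‖carl θ c y‖ ≤ ‖θ‖ ^ n * ε := by
  have hq := two_le_qq (F := F)
  have hε : 0 ≤ ε := (norm_nonneg _).trans hy
  have hm : ∀ i j : ℕ, i ≤ j → ‖θ‖ ^ i * ε ≤ ‖θ‖ ^ j * ε := fun i j hij =>
    mul_le_mul_of_nonneg_right (pow_le_pow_right₀ hθ.le hij) hε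
  have h1 : ∀ i : ℕ, i ≤ n → ‖(cth F θ ^ i) y‖ ≤ ‖θ‖ ^ i * ε := by
    intro i
    induction i with
    | zero => intro _; simpa using hy
    | succ i ih =>
      intro hi
      have h2 := ih (by omega)
      rw [TCarl_succ]
      refine (IsUltrametricDist.norm_add_le_max _ _).trans (max_le ?_ ?_)
      · rw [norm_mul, pow_succ', mul_assoc]
        exact mul_le_mul_of_nonneg_left h2 (norm_nonneg _)
      · rw [norm_pow]
        refine (pow_le_of_le_one (norm_nonneg _) (h2.trans ((hm i n (by omega)).trans h))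
          (by omega)).trans (h2.trans (hm _ _ (by omega)))
  rw [carl_eq_sum θ c _ (Nat.lt_succ_of_le hc)]
  refine IsUltrametricDist.norm_sum_le_of_forall_le_of_nonneg (by positivity) fun i hi => ?_
  have hi' := Nat.lt_succ_iff.1 (Finset.mem_range.1 hi)
  exact (TCarl_smul_le _ _).trans ((h1 i hi').trans (hm _ _ hi'))

theorem lin_norm (hθ : 1 < ‖θ‖) {c : ι → F[X]} {n : ℕ} (hc : ∀ j, (c j).natDegree ≤ n)
    {x : ι → C} {A : ℝ} (hA : 0 ≤ A) (hx : ∀ j, ‖x j‖ ≤ A) : ‖lin θ c x‖ ≤ ‖θ‖ ^ n * A := by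
  refine IsUltrametricDist.norm_sum_le_of_forall_le_of_nonneg (by positivity) fun j _ => ?_
  rw [norm_mul]
  refine mul_le_mul ?_ (hx j) (norm_nonneg _) (by positivity)
  rw [aeval_eq_sum_range' (Nat.lt_succ_of_le (hc j))]
  refine IsUltrametricDist.norm_sum_le_of_forall_le_of_nonneg (by positivity) fun i hi => ?_
  refine (TCarl_smul_le _ _).trans ?_
  rw [norm_pow]
  exact pow_le_pow_right₀ hθ.le (Nat.lt_succ_iff.1 (Finset.mem_range.1 hi))

theorem TCarl_congr {f g : ℕ → C} {a : C} (h : HasSum f a) (e : ∀ i, g i = f i) : HasSum g a := by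
  rwa [funext e]

theorem HS.zero : HS F θ 0 0 := by
  have hq := two_le_qq (F := F)
  have : (fun i => (0 : C) ^ qq F ^ i / carlitzD (qq F) θ i) = fun _ => 0 := by
    funext i
    rw [zero_pow (by positivity), zero_div]
  rw [HS, this]
  exact hasSum_zero

theorem HS.add {u u' al al' : C} (h : HS F θ u al) (h' : HS F θ u' al') :
    HS F θ (u + u') (al + al') := by
  refine TCarl_congr (HasSum.add h h') fun i => ?_
  rw [← TCarl_fr, map_add, TCarl_fr, TCarl_fr, add_div]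

theorem HS.sub {u u' al al' : C} (h : HS F θ u al) (h' : HS F θ u' al') :
    HS F θ (u - u') (al - al') := by
  refine TCarl_congr (HasSum.sub h h') fun i => ?_
  rw [← TCarl_fr, map_sub, TCarl_fr, TCarl_fr, sub_div]

theorem HS.smul {u al : C} (a : F) (h : HS F θ u al) : HS F θ (a • u) (a • al) := by
  rw [Algebra.smul_def a al]
  refine TCarl_congr (HasSum.mul_left (algebraMap F C a) h) fun i => ?_
  rw [← TCarl_fr, map_smul, TCarl_fr, Algebra.smul_def, mul_div_assoc]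

theorem HS.theta (hθ : 1 < ‖θ‖) {u al : C} (h : HS F θ u al) :
    HS F θ (θ * u) (θ * al + al ^ qq F) := by
  have hq := two_le_qq (F := F)
  have hne : ∀ i, θ ^ qq F ^ (i + 1) - θ ≠ 0 := fun i => by
    refine sub_ne_zero.2 fun h => ?_
    have := lt_self_pow₀ hθ (Nat.one_lt_pow (n := i + 1) (by omega) hq)
    rw [← norm_pow, h] at this
    exact lt_irrefl _ this
  have h1 : HasSum (fun i => (u ^ qq F ^ i / carlitzD (qq F) θ i) ^ qq F) (al ^ qq F) :=
    HasSum.map h (FiniteField.frobeniusAlgHom F C) (continuous_pow (qq F))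
  have h2 : HasSum (fun i => (θ ^ qq F ^ i - θ) * (u ^ qq F ^ i / carlitzD (qq F) θ i))
      (al ^ qq F) := by
    rw [← hasSum_nat_add_iff' 1]
    simp only [Finset.range_one, Finset.sum_singleton, pow_zero, pow_one, sub_self, zero_mul,
      sub_zero]
    refine TCarl_congr h1 fun i => ?_
    rw [TCarl_D_succ, div_pow, ← pow_mul, ← pow_succ, mul_comm, div_mul_eq_div_div,
      div_mul_cancel₀ _ (hne i)]
  refine TCarl_congr ((HasSum.mul_left θ h).add h2) fun i => ?_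
  rw [mul_pow]
  ring

theorem HS.poly (hθ : 1 < ‖θ‖) {u al : C} (h : HS F θ u al) (c : F[X]) :
    HS F θ (aeval θ c * u) (carl θ c al) := by
  induction c using Polynomial.induction_on with
  | C a =>
    rw [aeval_C, carl_C, ← Algebra.smul_def]
    exact h.smul a
  | add p q hp hq =>
    rw [map_add, add_mul, carl_add_left]
    exact hp.add hq
  | monomial n a ih =>
    have := ih.theta hθ
    rw [← carl_X, ← carl_mul] at this
    convert this using 1
    · rw [pow_succ, ← mul_assoc, map_mul, aeval_X]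
      ring
    · congr 1
      ring

theorem HS.lin (hθ : 1 < ‖θ‖) {x al : ι → C} (h : ∀ j, HS F θ (x j) (al j)) (c : ι → F[X]) :
    HS F θ (lin θ c x) (∑ j, carl θ (c j) (al j)) := by
  classical
  have key : ∀ s : Finset ι, HS F θ (∑ j ∈ s, aeval θ (c j) * x j)
      (∑ j ∈ s, carl θ (c j) (al j)) := by
    intro s
    induction s using Finset.induction_on with
    | empty => simpa using HS.zero
    | insert a s ha ih =>
      rw [Finset.sum_insert ha, Finset.sum_insert ha]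
      exact ((h a).poly hθ (c a)).add ih
  exact key _

theorem HS.unique {u al al' : C} (h : HS F θ u al) (h' : HS F θ u al') : al = al' :=
  HasSum.unique h h'

/-- The exponential is an isometry near the origin. -/
theorem HS.iso (hθ : 1 < ‖θ‖) {u al : C} (h : HS F θ u al) (hu : ‖u‖ ≤ ‖θ‖) :
    ‖al‖ = ‖u‖ ∧ ‖al - u‖ * ‖θ‖ ≤ ‖u‖ := by
  have hq := two_le_qq (F := F)
  have h0 : 0 < ‖θ‖ := one_pos.trans hθ
  have h1 := basic_tail _ _ (HasSum.tendsto_sum_nat h) 1 (‖u‖ / ‖θ‖) (by positivity) (by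
    intro i hi
    obtain ⟨k, hk⟩ : ∃ k, qq F ^ i = k + 1 := ⟨qq F ^ i - 1, by
      have : 0 < qq F ^ i := by positivity
      omega⟩
    rw [norm_div, norm_carlitzD _ hq θ hθ, norm_pow, hk, div_le_div_iff₀ (by positivity) h0]
    calc ‖u‖ ^ (k + 1) * ‖θ‖ = ‖u‖ * (‖u‖ ^ k * ‖θ‖) := by ring
      _ ≤ ‖u‖ * (‖θ‖ ^ k * ‖θ‖) := by gcongr
      _ ≤ ‖u‖ * ‖θ‖ ^ (i * (k + 1)) := by
        rw [← pow_succ]
        exact mul_le_mul_of_nonneg_left (pow_le_pow_right₀ hθ.le (by nlinarith)) (norm_nonneg _))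
  have e : ∑ i ∈ Finset.range 1, u ^ qq F ^ i / carlitzD (qq F) θ i = u := by simp [carlitzD]
  rw [e] at h1
  refine ⟨?_, (le_div_iff₀ h0).1 h1⟩
  by_cases hu0 : u = 0
  · subst hu0
    simpa using h1
  · have h2 : ‖al - u‖ < ‖u‖ := h1.trans_lt (div_lt_self (norm_pos_iff.2 hu0) hθ)
    have h3 := IsUltrametricDist.norm_add_eq_max_of_norm_ne_norm h2.ne
    rwa [sub_add_cancel, max_eq_right h2.le] at h3

theorem HS.map {C' : Type*} [NormedField C'] (φ : C →+* C') (hφ : ∀ x, ‖φ x‖ = ‖x‖) {u al : C}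
    (h : HS F θ u al) : HS F (φ θ) (φ u) (φ al) := by
  have := HasSum.map h φ (AddMonoidHomClass.isometry_of_norm φ hφ).continuous
  rw [HS]
  convert this using 2 with i
  simp [carlitzD]

theorem HS.exp [CompleteSpace C] (hθ : 1 < ‖θ‖) (u : C) :
    HS F θ u (carlitzExp (qq F) θ u) := by
  refine (NonarchimedeanAddGroup.summable_of_tendsto_cofinite_zero ?_).hasSum
  rw [Nat.cofinite_eq_atTop]
  exact tendsto_term _ two_le_qq θ hθ u

end

end Pool.Agent.MP_ee2255_nt.T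

end

section

/-! Norm estimates over a field of constants. -/

set_option linter.unusedSectionVars false

namespace Pool.Agent.MP_ee2255_nt.T

open Polynomial Filter Topology Pool.Agent.MP_655169_nt

variable {E C κ : Type*} [Field E] [NormedField C] [IsUltrametricDist C] [Algebra E C]
  (hE : ∀ e : E, ‖algebraMap E C e‖ ≤ 1)
include hE

theorem normE_eq {e : E} (he : e ≠ 0) : ‖algebraMap E C e‖ = 1 := by
  have h1 := hE e
  have h2 := hE e⁻¹
  have h3 : ‖algebraMap E C e‖ * ‖algebraMap E C e⁻¹‖ = 1 := by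
    rw [← norm_mul, ← map_mul, mul_inv_cancel₀ he, map_one, norm_one]
  nlinarith [norm_nonneg (algebraMap E C e), norm_nonneg (algebraMap E C e⁻¹)]
theorem normE_aeval (z : κ → C) {R : ℝ} (hR : 1 ≤ R) (hz : ∀ k, ‖z k‖ ≤ R) (b : MvPolynomial κ E)
    {d : ℕ} (hd : b.totalDegree ≤ d) : ‖MvPolynomial.aeval z b‖ ≤ R ^ d := by
  have := norm_eval₂_le (algebraMap E C) b z 1 R zero_le_one (fun e => hE _) hR hz d hd
  rwa [one_mul] at this
theorem normE_lip (z z' : κ → C) {R ε : ℝ} (hR : 1 ≤ R) (hε : 0 ≤ ε) (hz : ∀ k, ‖z k‖ ≤ R)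
    (hz' : ∀ k, ‖z' k‖ ≤ R) (h : ∀ k, ‖z k - z' k‖ ≤ ε) (b : MvPolynomial κ E) {d : ℕ}
    (hd : b.totalDegree ≤ d) :
    ‖MvPolynomial.aeval z b - MvPolynomial.aeval z' b‖ ≤ R ^ d * ε := by
  have := lip_eval₂ (algebraMap E C) b z z' 1 R ε zero_le_one (fun e => hE _) hR hε hz hz'
    h d hd
  rwa [one_mul] at this
theorem normE_poly {θ : C} (hθ : 1 < ‖θ‖) {a : E[X]} (ha : a ≠ 0) :
    ‖aeval θ a‖ = ‖θ‖ ^ a.natDegree := by
  have h0 : 0 < ‖θ‖ ^ a.natDegree := by positivity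
  have h1 := norm_low (fun j => algebraMap E C (a.coeff j)) 1 zero_le_one
    (fun j => hE _) θ hθ.le a.natDegree
  have h2 : ‖algebraMap E C (a.coeff a.natDegree) * θ ^ a.natDegree‖ = ‖θ‖ ^ a.natDegree := by
    rw [norm_mul, norm_pow, normE_eq hE (e := a.coeff a.natDegree) (leadingCoeff_ne_zero.2 ha),
      one_mul]
  have h3 : ‖∑ j ∈ Finset.range a.natDegree, algebraMap E C (a.coeff j) * θ ^ j‖ <
      ‖θ‖ ^ a.natDegree := by
    by_contra h
    have h4 := mul_le_mul_of_nonneg_right (not_lt.1 h) (norm_nonneg θ)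
    nlinarith
  rw [aeval_eq_sum_range, Finset.sum_range_succ]
  simp only [Algebra.smul_def]
  rw [IsUltrametricDist.norm_add_eq_max_of_norm_ne_norm (by rw [h2]; exact h3.ne), h2,
    max_eq_right h3.le]
theorem normE_trans {θ : C} (hθ : 1 < ‖θ‖) : Transcendental E θ := by
  rintro ⟨a, ha, h⟩
  have h1 := normE_poly hE hθ ha
  have h0 : 0 < ‖θ‖ ^ a.natDegree := by positivity
  rw [h, norm_zero] at h1
  linarith
theorem normE_span (S : Set C) {R : ℝ} (hR : 0 ≤ R) (hS : ∀ s ∈ S, ‖s‖ ≤ R) {u : C}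
    (hu : u ∈ Submodule.span E S) : ‖u‖ ≤ R := by
  induction hu using Submodule.span_induction with
  | mem x hx => exact hS x hx
  | zero => simpa using hR
  | add x y _ _ hx hy => exact (IsUltrametricDist.norm_add_le_max _ _).trans (max_le hx hy)
  | smul a x _ hx =>
    rw [Algebra.smul_def, norm_mul]
    exact (mul_le_of_le_one_left (norm_nonneg _) (hE a)).trans hx
theorem mon_big {μ : κ → C} {R : ℝ} (hR : 1 ≤ R) (hμ : ∀ k, ‖μ k‖ ≤ R) {d₁ d₂ : ℕ} {x : C}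
    (h : Mon E μ d₁ d₂ x) : ‖x‖ ≤ R ^ d₂ := by
  obtain ⟨Φ, hm, -, hd, hΦ⟩ := h
  refine root_le (Φ.map (MvPolynomial.aeval μ : MvPolynomial κ E →ₐ[E] C).toRingHom) _
    (one_le_pow₀ hR) (fun j => ?_) ?_ x ?_
  · rw [coeff_map]
    exact normE_aeval hE μ hR hμ _ (hd j)
  · rw [(hm.map _).leadingCoeff, norm_one]
  · rw [eval_map]
    exact hΦ
theorem mon_low {μ : κ → C} {R : ℝ} (hR : 1 ≤ R) (hμ : ∀ k, ‖μ k‖ ≤ R) {d₁ d₂ : ℕ} {x : C}
    (h : Mon E μ d₁ d₂ x) (h0 : x ≠ 0) : ∃ b : MvPolynomial κ E, b ≠ 0 ∧ b.totalDegree ≤ d₂ ∧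
      ‖MvPolynomial.aeval μ b‖ ≤ ‖x‖ * R ^ (d₂ * (d₁ + 1)) := by
  classical
  have hx := mon_big hE hR hμ h
  obtain ⟨Φ, hm, hn, hd, hΦ⟩ := h
  have hl : Φ.coeff Φ.natDegree ≠ 0 := leadingCoeff_ne_zero.2 hm.ne_zero
  have hex : ∃ j, Φ.coeff j ≠ 0 := ⟨Φ.natDegree, hl⟩
  have hj := Nat.find_spec hex
  have hjn : Nat.find hex ≤ Φ.natDegree := Nat.find_min' hex hl
  set j := Nat.find hex with hjdef
  refine ⟨Φ.coeff j, hj, hd j, ?_⟩
  have hη : 0 < ‖x‖ := norm_pos_iff.2 h0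
  have hR1 : 1 ≤ R ^ d₂ := one_le_pow₀ hR
  rw [eval₂_eq_sum_range, ← Finset.add_sum_erase _ _ (Finset.mem_range.2 (Nat.lt_succ_of_le hjn)),
    add_eq_zero_iff_eq_neg] at hΦ
  have h2 : ‖MvPolynomial.aeval μ (Φ.coeff j) * x ^ j‖ ≤
      ‖x‖ * R ^ (d₂ * (d₁ + 1)) * ‖x‖ ^ j := by
    refine (congrArg norm hΦ).trans_le ?_
    rw [norm_neg]
    refine IsUltrametricDist.norm_sum_le_of_forall_le_of_nonneg (by positivity) fun i hi => ?_
    change ‖MvPolynomial.aeval μ (Φ.coeff i) * x ^ i‖ ≤ _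
    have hi2 := Finset.mem_range.1 (Finset.mem_erase.1 hi).2
    rcases lt_or_gt_of_ne (Finset.mem_erase.1 hi).1 with h3 | h3
    · rw [not_not.1 (Nat.find_min hex h3), map_zero, zero_mul, norm_zero]
      positivity
    · obtain ⟨k, rfl⟩ := Nat.exists_eq_add_of_lt h3
      have h4 : ‖x‖ ^ k ≤ (R ^ d₂) ^ d₁ :=
        (pow_le_pow_left₀ hη.le hx k).trans (pow_le_pow_right₀ hR1 (by omega))
      have h5 := normE_aeval hE μ hR hμ _ (hd (j + k + 1))
      calc ‖MvPolynomial.aeval μ (Φ.coeff (j + k + 1)) * x ^ (j + k + 1)‖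
          = ‖x‖ * (‖x‖ ^ k * ‖MvPolynomial.aeval μ (Φ.coeff (j + k + 1))‖) * ‖x‖ ^ j := by
            rw [norm_mul, norm_pow]; ring
        _ ≤ ‖x‖ * ((R ^ d₂) ^ d₁ * R ^ d₂) * ‖x‖ ^ j := by gcongr
        _ = _ := by rw [← pow_succ, ← pow_mul]
  rw [norm_mul, norm_pow] at h2
  exact le_of_mul_le_mul_right h2 (pow_pos hη j)

end Pool.Agent.MP_ee2255_nt.T

end

section

/-! A maximal independent subfamily. -/

set_option linter.unusedSectionVars false

namespace Pool.Agent.MP_ee2255_nt.T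

open Polynomial Filter Topology Pool.Agent.MP_655169_nt

theorem al1_cons {E C : Type*} [Field E] [Field C] [Algebra E C] {s : ℕ} (μ : Fin s → C) (y : C)
    (p : MvPolynomial (Fin (s + 1)) E) :
    MvPolynomial.aeval (Fin.cons y μ : Fin (s + 1) → C) p =
      (MvPolynomial.finSuccEquiv E s p).eval₂
        (MvPolynomial.aeval μ : MvPolynomial (Fin s) E →ₐ[E] C).toRingHom y := by
  induction p using MvPolynomial.induction_on with
  | C a => simp [MvPolynomial.finSuccEquiv_apply]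
  | add p q hp hq => rw [map_add, map_add, eval₂_add, hp, hq]
  | mul_X p i hp =>
    rw [map_mul, map_mul, eval₂_mul, hp]
    congr 1
    refine Fin.cases ?_ (fun j => ?_) i
    · simp [MvPolynomial.finSuccEquiv_X_zero]
    · simp [MvPolynomial.finSuccEquiv_X_succ]

theorem al1_one {E C : Type*} [Field E] [Field C] [Algebra E C] (θ : C)
    (p : MvPolynomial (Fin 1) E) :
    MvPolynomial.aeval (fun _ : Fin 1 => θ) p =
      aeval θ (MvPolynomial.uniqueAlgEquiv E (Fin 1) p) := by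
  induction p using MvPolynomial.induction_on with
  | C a => simp [MvPolynomial.uniqueAlgEquiv]
  | add p q hp hq => rw [map_add, map_add, map_add, hp, hq]
  | mul_X p i hp =>
    rw [map_mul, map_mul, map_mul, hp]
    congr 1
    simp [MvPolynomial.uniqueAlgEquiv]

variable {E C : Type*} [Field E] [NormedField C] [IsUltrametricDist C] [IsAlgClosed C]
  [Algebra E C] (hE : ∀ e : E, ‖algebraMap E C e‖ ≤ 1) {θ : C} (hθ : 1 < ‖θ‖)

/-- A dependent extension gives an algebraic approximation. -/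
theorem al1_step {M : ℕ → ℝ} (hM : ∀ ℓ, 1 ≤ M ℓ) {s : ℕ} (μ : ℕ → Fin s → C) (y : ℕ → C)
    (hI : Ind E M μ) (hn : ¬ Ind E M fun ℓ => (Fin.cons (y ℓ) (μ ℓ) : Fin (s + 1) → C)) :
    ∃ (y' : ℕ → C) (N : ℕ → ℕ), Pol N ∧ Sm M (fun ℓ => ‖y ℓ - y' ℓ‖) ∧
      ∀ᶠ ℓ in UU, Alg E (μ ℓ) (N ℓ) (N ℓ) (y' ℓ) := by
  simp only [Ind, not_forall] at hn
  obtain ⟨p, δ, hδ, hp, hs⟩ := hn
  rw [not_low] at hs
  simp only [al1_cons] at hs
  set Φ : ℕ → (MvPolynomial (Fin s) E)[X] := fun ℓ => MvPolynomial.finSuccEquiv E s (p ℓ) with hΦ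
  have hc : ∀ᶠ ℓ in UU, ∀ j, ((Φ ℓ).coeff j).totalDegree ≤ δ ℓ := by
    filter_upwards [hp] with ℓ h j
    by_cases h0 : (Φ ℓ).coeff j = 0
    · rw [h0]; simp
    · have := MvPolynomial.totalDegree_coeff_finSuccEquiv_add_le (p ℓ) j h0
      exact le_trans (le_trans (Nat.le_add_right _ _) this) h.2
  have hd : ∀ᶠ ℓ in UU, (Φ ℓ).natDegree ≤ δ ℓ := by
    filter_upwards [hp] with ℓ h
    rw [hΦ]
    simp only [MvPolynomial.natDegree_finSuccEquiv]
    exact (MvPolynomial.degreeOf_le_totalDegree _ _).trans h.2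
  have hl : Low M fun ℓ => ‖MvPolynomial.aeval (μ ℓ) (Φ ℓ).leadingCoeff‖ := by
    refine hI (fun ℓ => (Φ ℓ).leadingCoeff) δ hδ ?_
    filter_upwards [hp, hc] with ℓ h h2
    refine ⟨leadingCoeff_ne_zero.2 ?_, h2 _⟩
    exact (map_ne_zero_iff _ (MvPolynomial.finSuccEquiv E s).injective).2 h.1
  have hpos : ∀ᶠ ℓ in UU, 0 < (Φ ℓ).natDegree := by
    filter_upwards [hs.lt_low hM hl] with ℓ h
    by_contra h0
    have h1 : (Φ ℓ).natDegree = 0 := by omega
    have h2 := eq_C_of_natDegree_eq_zero h1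
    change ‖(Φ ℓ).eval₂ _ _‖ < _ at h
    rw [leadingCoeff, h1] at h
    rw [h2] at h
    simp at h
  have hx : ∀ᶠ ℓ in UU, ∃ ξ : C, Alg E (μ ℓ) (δ ℓ) (δ ℓ) ξ ∧
      ‖y ℓ - ξ‖ ^ (Φ ℓ).natDegree * ‖MvPolynomial.aeval (μ ℓ) (Φ ℓ).leadingCoeff‖ ≤
        ‖(Φ ℓ).eval₂ (MvPolynomial.aeval (μ ℓ) : MvPolynomial (Fin s) E →ₐ[E] C).toRingHom
          (y ℓ)‖ := by
    filter_upwards [hc, hd, hl.pos, hpos] with ℓ h1 h2 h3 h4
    have h5 : (MvPolynomial.aeval (μ ℓ) : MvPolynomial (Fin s) E →ₐ[E] C).toRingHom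
        (Φ ℓ).leadingCoeff ≠ 0 := norm_pos_iff.1 h3
    have h6 := natDegree_map_of_leadingCoeff_ne_zero _ h5
    have h7 := leadingCoeff_map_of_leadingCoeff_ne_zero _ h5
    obtain ⟨ξ, a1, a2⟩ := root_near ((Φ ℓ).map
      (MvPolynomial.aeval (μ ℓ) : MvPolynomial (Fin s) E →ₐ[E] C).toRingHom) (by omega) (y ℓ)
    rw [eval_map] at a1 a2
    rw [h6, h7, mul_comm] at a2
    exact ⟨ξ, ⟨Φ ℓ, h2, h1, h5, a1⟩, a2⟩
  obtain ⟨y', hy'⟩ := ev_choose hx
  refine ⟨y', δ, hδ, Sm.root hM hs hl (hδ.mono hd) ?_, hy'.mono fun ℓ h => h.1⟩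
  filter_upwards [hy', hpos] with ℓ h1 h2
  exact ⟨norm_nonneg _, h2, h1.2⟩

include hE hθ

theorem exists_ind {M : ℕ → ℝ} (hM : ∀ ℓ, 1 ≤ M ℓ) {m : ℕ} (lam : ℕ → Fin m → C) :
    ∃ (s : ℕ) (e : Fin s → Option (Fin m)) (i0 : Fin s), Function.Injective e ∧ e i0 = none ∧
      Ind E M (fun ℓ => zz θ (lam ℓ) ∘ e) ∧
      ∃ (lam' : ℕ → Fin m → C) (N : ℕ → ℕ) (η : ℕ → ℝ), Pol N ∧ Sm M η ∧ ∀ᶠ ℓ in UU, 0 ≤ η ℓ ∧
        ∀ j, Alg E (zz θ (lam ℓ) ∘ e) (N ℓ) (N ℓ) (lam' ℓ j) ∧ ‖lam ℓ j - lam' ℓ j‖ ≤ η ℓ := by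
  classical
  let P : ℕ → Prop := fun s => ∃ (e : Fin s → Option (Fin m)) (i0 : Fin s),
    Function.Injective e ∧ e i0 = none ∧ Ind E M (fun ℓ => zz θ (lam ℓ) ∘ e)
  have P1 : P 1 := by
    refine ⟨fun _ => none, 0, fun a b _ => Subsingleton.elim a b, rfl, fun p δ _ hp => ?_⟩
    refine (Low.const hM one_pos).mono ?_
    filter_upwards [hp] with ℓ h
    have h1 : (zz θ (lam ℓ) ∘ fun _ : Fin 1 => none) = fun _ : Fin 1 => θ := rfl
    rw [h1, al1_one, normE_poly hE hθ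
      ((map_ne_zero_iff _ (MvPolynomial.uniqueAlgEquiv E (Fin 1)).injective).2 h.1)]
    exact one_le_pow₀ hθ.le
  obtain ⟨s, ⟨e, i0, he, h0, hI⟩, hmax⟩ : ∃ s, P s ∧ ¬ P (s + 1) := by
    by_contra hc
    push Not at hc
    have h2 : ∀ k, P (k + 1) := fun k => by
      induction k with
      | zero => exact P1
      | succ k ih => exact hc _ ih
    obtain ⟨e, -, he, -⟩ := h2 (m + 1)
    have := Fintype.card_le_of_injective e he
    simp at this
  have key : ∀ j : Fin m, ∃ (y' : ℕ → C) (N : ℕ → ℕ), Pol N ∧ Sm M (fun ℓ => ‖lam ℓ j - y' ℓ‖) ∧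
      ∀ᶠ ℓ in UU, Alg E (zz θ (lam ℓ) ∘ e) (N ℓ) (N ℓ) (y' ℓ) := by
    intro j
    by_cases hj : some j ∈ Set.range e
    · obtain ⟨k, hk⟩ := hj
      refine ⟨fun ℓ => lam ℓ j, fun _ => 1, Pol.const 1, by simpa using Sm.zero,
        Eventually.of_forall fun ℓ => ?_⟩
      have := Alg.var (F := E) (zz θ (lam ℓ) ∘ e) k
      rwa [Function.comp_apply, hk] at this
    · refine al1_step hM _ (fun ℓ => lam ℓ j) hI fun h => hmax
        ⟨Fin.cons (some j) e, i0.succ, Fin.cons_injective_iff.2 ⟨hj, he⟩, h0, ?_⟩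
      have h3 : (fun ℓ => zz θ (lam ℓ) ∘ (Fin.cons (some j) e : Fin (s + 1) → Option (Fin m))) =
          fun ℓ => (Fin.cons (lam ℓ j) (zz θ (lam ℓ) ∘ e) : Fin (s + 1) → C) := by
        funext ℓ i
        refine Fin.cases rfl (fun _ => rfl) i
      rw [h3]
      exact h
  choose y' N hN hS hA using key
  refine ⟨s, e, i0, he, h0, hI, fun ℓ j => y' j ℓ, fun ℓ => ∑ j, N j ℓ,
    fun ℓ => ∑ j, ‖lam ℓ j - y' j ℓ‖, Pol.sum _ fun j _ => hN j, Sm.sum hM _ fun j _ => hS j, ?_⟩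
  filter_upwards [eventually_all.2 hA] with ℓ h
  refine ⟨Finset.sum_nonneg fun _ _ => norm_nonneg _, fun j => ⟨?_, ?_⟩⟩
  · have h4 : N j ℓ ≤ ∑ j, N j ℓ :=
      Finset.single_le_sum (f := fun j => N j ℓ) (fun _ _ => Nat.zero_le _) (Finset.mem_univ j)
    exact (h j).mono h4 h4
  · exact Finset.single_le_sum (f := fun j => ‖lam ℓ j - y' j ℓ‖) (fun _ _ => norm_nonneg _)
      (Finset.mem_univ j)

omit hθ [IsAlgClosed C] in
theorem exists_fr {F κ : Type*} [Field F] [Fintype F] [Algebra F C] {M : ℕ → ℝ}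
    (hM : ∀ ℓ, 1 ≤ M ℓ) (μ : ℕ → κ → C) (hI : Ind E M μ) {R : ℕ → ℝ} (hR : Big M R)
    (hμ : ∀ᶠ ℓ in UU, 1 ≤ R ℓ ∧ ∀ k, ‖μ ℓ k‖ ≤ R ℓ) (L : ℕ → Fl F θ)
    (Δ : ℕ → MvPolynomial κ E) (γ : ℕ → ℕ) (hγ : Pol γ)
    (h : ∀ᶠ ℓ in UU, FrOk E (L ℓ) (μ ℓ) (Δ ℓ) (γ ℓ)) : ∃ Φ : Fr F θ M, Φ.fl = L := by
  have hR0 : ∀ᶠ ℓ in UU, 0 ≤ R ℓ := hμ.mono fun ℓ h => zero_le_one.trans h.1
  have hDl : Low M fun ℓ => ‖MvPolynomial.aeval (μ ℓ) (Δ ℓ)‖ :=
    hI Δ γ hγ (h.mono fun ℓ h => ⟨h.ne, h.deg⟩)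
  have hDb : Big M fun ℓ => ‖MvPolynomial.aeval (μ ℓ) (Δ ℓ)‖ := by
    refine Big.mono ?_ (hR.pow hM hR0 hγ)
    filter_upwards [hμ, h] with ℓ h1 h2
    exact normE_aeval hE _ h1.1 h1.2 _ h2.deg
  refine ⟨⟨L, fun δ a hδ ha => ?_, fun δ a hδ ha => ?_, fun r δ y hδ hy => ?_⟩, rfl⟩
  · have h1 : ∀ᶠ ℓ in UU, ∃ b : MvPolynomial κ E, (b ≠ 0 ∧ b.totalDegree ≤ γ ℓ * δ ℓ) ∧
        ‖MvPolynomial.aeval (μ ℓ) b‖ ≤ ‖a ℓ‖ * (‖MvPolynomial.aeval (μ ℓ) (Δ ℓ)‖ ^ δ ℓ *
          R ℓ ^ (γ ℓ * δ ℓ * (γ ℓ + 1))) := by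
      filter_upwards [hμ, h, ha, hDl.pos] with ℓ h1 h2 h3 h4
      obtain ⟨b, b1, b2, b3⟩ := mon_low hE h1.1 h1.2 (h2.mon _ _ h3.1)
        (mul_ne_zero (pow_ne_zero _ (norm_pos_iff.1 h4)) h3.2)
      refine ⟨b, ⟨b1, b2⟩, b3.trans (le_of_eq ?_)⟩
      rw [norm_mul, norm_pow]
      ring
    obtain ⟨b, hb⟩ := ev_choose h1
    refine Low.of_le_mul hM (hI b _ (hγ.mul hδ) (hb.mono fun ℓ h => h.1))
      ((hDb.pow hM (Eventually.of_forall fun ℓ => norm_nonneg _) hδ).mul hM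
        (hR.pow hM hR0 ((hγ.mul hδ).mul (hγ.add (Pol.const 1))))
        (hR0.mono fun ℓ h => pow_nonneg h _)) (hb.mono fun ℓ h => ⟨norm_nonneg _, h.2⟩)
  · refine Big.of_mul_le hM (hDl.pow hM hδ) (hR.pow hM hR0 (hγ.mul hδ)) ?_
    filter_upwards [hμ, h, ha] with ℓ h1 h2 h3
    have h4 := mon_big hE h1.1 h1.2 (h2.mon _ _ h3)
    rw [norm_mul, norm_pow, mul_comm] at h4
    exact ⟨norm_nonneg _, h4⟩
  · obtain ⟨l, hl, hl2⟩ := (hγ.mul (hδ.add (Pol.const 1))).log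
    refine ⟨fun ℓ => r * (3 * l ℓ + 4), ((hl.mul 3).add (Lin.const 4)).mul r, ?_⟩
    filter_upwards [h, hy, hl2] with ℓ h1 h2 h3
    exact h1.mas r (δ ℓ) (l ℓ) (y ℓ) h3 h2.1 h2.2

end Pool.Agent.MP_ee2255_nt.T

end

section

/-! Integrality through valuation rings. -/

namespace Pool.Agent.MP_ee2255_nt.T

open Polynomial Filter Topology Pool.Agent.MP_655169_nt

variable {E : Type*} [Field E] {C : Type*} [Field C] [Algebra E C] {κ : Type*}
  {μ : κ → C} {x y : C}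

theorem VA.aeval (a : MvPolynomial κ E) : VA E μ (MvPolynomial.aeval μ a) := fun _ hV => hV a
theorem VA.add (hx : VA E μ x) (hy : VA E μ y) : VA E μ (x + y) :=
  fun V hV => add_mem (hx V hV) (hy V hV)
theorem VA.mul (hx : VA E μ x) (hy : VA E μ y) : VA E μ (x * y) :=
  fun V hV => mul_mem (hx V hV) (hy V hV)
theorem VA.pow (hx : VA E μ x) (n : ℕ) : VA E μ (x ^ n) := fun V hV => pow_mem (hx V hV) n
theorem VA.prod {α : Type*} (s : Finset α) {x : α → C} (h : ∀ a ∈ s, VA E μ (x a)) :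
    VA E μ (∏ a ∈ s, x a) := fun V hV => prod_mem fun a ha => h a ha V hV
theorem VI.add (hx : VI E μ x) (hy : VI E μ y) : VI E μ (x + y) :=
  fun V hV => add_mem (hx V hV) (hy V hV)
theorem VI.mul (hx : VI E μ x) (hy : VI E μ y) : VI E μ (x * y) :=
  fun V hV => mul_mem (hx V hV) (hy V hV)
theorem VI.pow (hx : VI E μ x) (n : ℕ) : VI E μ (x ^ n) := fun V hV => pow_mem (hx V hV) n
theorem VI.div (a b : MvPolynomial κ E) (hb : b ≠ 0) (h : a.totalDegree ≤ b.totalDegree) :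
    VI E μ (MvPolynomial.aeval μ a / MvPolynomial.aeval μ b) := fun _ hV => hV a b hb h
theorem VI.const (e : E) : VI E μ (algebraMap E C e) := by
  simpa using VI.div (μ := μ) (MvPolynomial.C e) 1 one_ne_zero (by simp)

theorem xval_root (V : ValuationSubring C) (Φ : C[X]) (hx : Φ.eval x = 0) (t : C)
    (h : ∀ j, t * Φ.coeff j ∈ V) : t * Φ.leadingCoeff * x ∈ V := by
  rcases V.mem_or_inv_mem x with hV | hV
  · exact mul_mem (h _) hV
  rcases eq_or_ne x 0 with rfl | h0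
  · rw [mul_zero]
    exact zero_mem V
  rw [eval_eq_sum_range, Finset.sum_range_succ, add_comm, add_eq_zero_iff_eq_neg] at hx
  have key : t * Φ.leadingCoeff * x = -∑ j ∈ Finset.range Φ.natDegree,
      t * Φ.coeff j * x⁻¹ ^ (Φ.natDegree - 1 - j) := by
    refine mul_right_cancel₀ (mul_ne_zero (pow_ne_zero Φ.natDegree h0) (inv_ne_zero h0)) ?_
    have e : t * Φ.leadingCoeff * x * (x ^ Φ.natDegree * x⁻¹) =
        t * (Φ.coeff Φ.natDegree * x ^ Φ.natDegree) := by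
      rw [leadingCoeff]
      field_simp
    rw [e, hx, neg_mul, mul_neg, Finset.mul_sum, Finset.sum_mul]
    refine congrArg _ (Finset.sum_congr rfl fun j hj => ?_)
    obtain ⟨k, hk⟩ := Nat.exists_eq_add_of_lt (Finset.mem_range.1 hj)
    rw [hk, show j + k + 1 - 1 - j = k by omega, inv_pow]
    field_simp
    ring
  rw [key]
  exact neg_mem (sum_mem fun j _ => mul_mem (h j) (pow_mem hV _))

theorem xval_monic {R : Type*} [CommRing R] (g : R →+* C) (V : ValuationSubring C)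
    (hg : ∀ r, g r ∈ V) {Φ : R[X]} (hΦ : Φ.Monic) (hx : Φ.eval₂ g x = 0) : x ∈ V := by
  have := xval_root V (Φ.map g) (by rwa [eval_map]) 1 fun j => by
    rw [one_mul, coeff_map]
    exact hg _
  rwa [(hΦ.map g).leadingCoeff, one_mul, one_mul] at this

theorem VA_iff : VA E μ x ↔ IsIntegral (Algebra.adjoin E (Set.range μ)) x := by
  constructor
  · intro h
    have h1 : x ∈ (integralClosure
        (Subring.closure ((Algebra.adjoin E (Set.range μ)).toSubring : Set C)) C).toSubring := by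
      rw [← iInf_valuationSubring_superset, Subring.mem_iInf]
      refine fun V => h V.1 fun a => V.2 ?_
      rw [Algebra.adjoin_range_eq_range_aeval]
      exact ⟨a, rfl⟩
    rw [Subring.closure_eq] at h1
    exact h1
  · rintro ⟨Φ, hΦ, hx⟩ V hV
    refine xval_monic _ V (fun r => ?_) hΦ hx
    obtain ⟨r, hr⟩ := r
    rw [Algebra.adjoin_range_eq_range_aeval] at hr
    obtain ⟨a, rfl⟩ := hr
    exact hV a

theorem VA_KF [Finite κ] (hμ : AlgebraicIndependent E μ) (hx : x ∈ KF E μ) (h : VA E μ x) :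
    ∃ a : MvPolynomial κ E, x = MvPolynomial.aeval μ a := by
  obtain ⟨a, b, rfl⟩ := (IntermediateField.mem_adjoin_range_iff E μ x).1 hx
  let _ : Algebra (MvPolynomial κ E) C :=
    (MvPolynomial.aeval μ : MvPolynomial κ E →ₐ[E] C).toRingHom.toAlgebra
  have hinj : Function.Injective (Algebra.ofId (MvPolynomial κ E) C) := hμ
  let φ : FractionRing (MvPolynomial κ E) →ₐ[MvPolynomial κ E] C :=
    IsFractionRing.liftAlgHom hinj
  have hφ : ∀ r, φ (algebraMap _ _ r) = MvPolynomial.aeval μ r := fun r => φ.commutes r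
  have h1 : IsIntegral (MvPolynomial κ E) (MvPolynomial.aeval μ a / MvPolynomial.aeval μ b) :=
    IsIntegral.map_of_comp_eq (hμ.aevalEquiv.symm : _ →+* MvPolynomial κ E) (RingHom.id C)
      (RingHom.ext fun r => by
        obtain ⟨s, rfl⟩ := hμ.aevalEquiv.surjective r
        change MvPolynomial.aeval μ (hμ.aevalEquiv.symm (hμ.aevalEquiv s)) = _
        rw [AlgEquiv.symm_apply_apply]
        rfl) (VA_iff.1 h)
  rw [← hφ, ← hφ, ← map_div₀, isIntegral_algHom_iff φ φ.toRingHom.injective] at h1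
  obtain ⟨c, hc⟩ := IsIntegrallyClosed.isIntegral_iff.1 h1
  exact ⟨c, by rw [← hφ, ← hφ, ← map_div₀, ← hc, hφ]⟩

open Classical in
/-- The degree valuation. -/
noncomputable def xvalDeg : Valuation (MvPolynomial κ E) NNReal where
  toFun a := if a = 0 then 0 else 2 ^ a.totalDegree
  map_zero' := if_pos rfl
  map_one' := by simp
  map_mul' a b := by
    by_cases ha : a = 0
    · simp [ha]
    by_cases hb : b = 0
    · simp [hb]
    rw [if_neg (mul_ne_zero ha hb), if_neg ha, if_neg hb,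
      MvPolynomial.totalDegree_mul_of_isDomain ha hb, pow_add]
  map_add_le_max' a b := by
    by_cases ha : a = 0
    · simp [ha]
    by_cases hb : b = 0
    · simp [hb]
    change (if a + b = 0 then 0 else 2 ^ (a + b).totalDegree : NNReal) ≤
      max (if a = 0 then 0 else 2 ^ a.totalDegree) (if b = 0 then 0 else 2 ^ b.totalDegree)
    rw [if_neg ha, if_neg hb]
    split_ifs
    · exact zero_le
    exact (le_max_iff.1 (MvPolynomial.totalDegree_add a b)).elim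
      (fun h => le_max_of_le_left (pow_le_pow_right₀ one_le_two h))
      fun h => le_max_of_le_right (pow_le_pow_right₀ one_le_two h)

theorem xvalDeg_of_ne {a : MvPolynomial κ E} (ha : a ≠ 0) : xvalDeg a = 2 ^ a.totalDegree := by
  classical
  exact if_neg ha

theorem xvalDeg_le (a : MvPolynomial κ E) {b : MvPolynomial κ E} (hb : b ≠ 0) :
    xvalDeg a ≤ xvalDeg b ↔ a.totalDegree ≤ b.totalDegree := by
  by_cases ha : a = 0
  · simp [ha]
  rw [xvalDeg_of_ne ha, xvalDeg_of_ne hb, pow_le_pow_iff_right₀ one_lt_two]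

theorem xval_ext {K : Type*} [Field K] (φ : K →+* C) (O : ValuationSubring K) :
    ∃ V : ValuationSubring C, ∀ z, φ z ∈ V ↔ z ∈ O := by
  obtain ⟨V, h, hl⟩ := IsLocalRing.exists_factor_valuationRing (φ.comp O.subtype)
  refine ⟨V, fun z => ⟨fun hz => ?_, fun hz => h ⟨z, hz⟩⟩⟩
  rcases O.mem_or_inv_mem z with h1 | h1
  · exact h1
  rcases eq_or_ne z 0 with rfl | h0
  · exact zero_mem O
  have hu := hl.1 ⟨z⁻¹, h1⟩ (isUnit_iff_exists_inv.2 ⟨⟨φ z, hz⟩, Subtype.ext (by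
    change φ z⁻¹ * φ z = 1
    rw [← map_mul, inv_mul_cancel₀ h0, map_one])⟩)
  obtain ⟨w, hw⟩ := isUnit_iff_exists_inv.1 hu
  have e : z⁻¹ * w.1 = 1 := congrArg Subtype.val hw
  rw [(inv_mul_eq_one₀ h0).1 e]
  exact w.2

/-- A valuation ring over the degree valuation. -/
theorem exists_inf (hμ : AlgebraicIndependent E μ) : ∃ V : ValuationSubring C,
    ∀ a b : MvPolynomial κ E, b ≠ 0 → (MvPolynomial.aeval μ a / MvPolynomial.aeval μ b ∈ V ↔
      a.totalDegree ≤ b.totalDegree) := by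
  have hinj : Function.Injective
    (MvPolynomial.aeval μ : MvPolynomial κ E →ₐ[E] C).toRingHom := hμ
  let φ : FractionRing (MvPolynomial κ E) →+* C := IsFractionRing.lift hinj
  have hφ : ∀ r, φ (algebraMap _ _ r) = MvPolynomial.aeval μ r := fun r =>
    IsFractionRing.lift_algebraMap hinj r
  have hp : ∀ {b : MvPolynomial κ E}, b ≠ 0 → 0 < xvalDeg b := fun hb => by
    rw [xvalDeg_of_ne hb]
    positivity
  have hS : nonZeroDivisors (MvPolynomial κ E) ≤ (xvalDeg (κ := κ) (E := E)).supp.primeCompl :=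
    fun b hb => (hp (nonZeroDivisors.ne_zero hb)).ne'
  obtain ⟨V, hV⟩ := xval_ext φ
    (xvalDeg.extendToLocalization hS (FractionRing (MvPolynomial κ E))).valuationSubring
  refine ⟨V, fun a b hb => ?_⟩
  rw [← hφ, ← hφ, ← map_div₀, hV, Valuation.mem_valuationSubring_iff, map_div₀,
    Valuation.extendToLocalization_apply_map_apply,
    Valuation.extendToLocalization_apply_map_apply, div_le_one₀ (hp hb), xvalDeg_le a hb]

theorem VI_deg (hμ : AlgebraicIndependent E μ) (a b : MvPolynomial κ E) (hb : b ≠ 0)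
    (h : VI E μ (MvPolynomial.aeval μ a / MvPolynomial.aeval μ b)) :
    a.totalDegree ≤ b.totalDegree := by
  obtain ⟨V, hV⟩ := exists_inf hμ
  exact (hV a b hb).1 (h V fun a b hb hab => (hV a b hb).2 hab)

/-- Bound for a root. -/
theorem val_root (V : ValuationSubring C) (Φ : C[X]) (hx : Φ.eval x = 0) (t : C)
    (h : ∀ j, t * Φ.coeff j ∈ V) : t * Φ.leadingCoeff * x ∈ V := xval_root V Φ hx t h

theorem xval_conj {R : Type*} [CommRing R] (K : IntermediateField E C) (g : R →+* C)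
    (hg : ∀ r, g r ∈ K) {Φ : R[X]} (hx : Φ.eval₂ g x = 0) (hy : IsConjRoot K x y) :
    Φ.eval₂ g y = 0 := by
  have e : ∀ z : C, aeval z (Φ.map (g.codRestrict K hg)) = Φ.eval₂ g z := fun z => by
    rw [aeval_def, eval₂_map]
    rfl
  rw [← e] at hx ⊢
  exact aeval_eq_zero_of_dvd_aeval_eq_zero (minpoly.dvd K x hx) hy.aeval_eq_zero

theorem Mon.mono {d₁ d₂ d₁' d₂' : ℕ} (h : Mon E μ d₁ d₂ x) (h1 : d₁ ≤ d₁') (h2 : d₂ ≤ d₂') :
    Mon E μ d₁' d₂' x := by
  obtain ⟨Φ, a, b, c, d⟩ := h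
  exact ⟨Φ, a, b.trans h1, fun j => (c j).trans h2, d⟩
theorem Mon.va {d₁ d₂ : ℕ} (h : Mon E μ d₁ d₂ x) : VA E μ x := by
  obtain ⟨Φ, a, -, -, d⟩ := h
  exact fun V hV => xval_monic _ V hV a d
theorem Mon.map {C' : Type*} [Field C'] [Algebra E C'] (φ : C →ₐ[E] C') {d₁ d₂ : ℕ}
    (h : Mon E μ d₁ d₂ x) : Mon E (φ ∘ μ) d₁ d₂ (φ x) := by
  obtain ⟨Φ, a, b, c, d⟩ := h
  refine ⟨Φ, a, b, c, ?_⟩
  have e := congrArg φ.toRingHom d
  rw [hom_eval₂, map_zero] at e
  refine Eq.trans (congrArg (fun g => eval₂ g (φ x) Φ) (RingHom.ext fun r => ?_)) e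
  exact (congrArg (fun ψ : MvPolynomial κ E →ₐ[E] C' => ψ r) (MvPolynomial.comp_aeval μ φ)).symm
theorem Mon.conj {d₁ d₂ : ℕ} (h : Mon E μ d₁ d₂ x) (hy : IsConjRoot (KF E μ) x y) :
    Mon E μ d₁ d₂ y := by
  obtain ⟨Φ, a, b, c, d⟩ := h
  refine ⟨Φ, a, b, c, xval_conj _ _ (fun r => ?_) d hy⟩
  exact (IntermediateField.mem_adjoin_range_iff E μ _).2 ⟨r, 1, by simp⟩
theorem VA.conj (h : VA E μ x) (hy : IsConjRoot (KF E μ) x y) : VA E μ y := by
  obtain ⟨Φ, a, d⟩ := VA_iff.1 h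
  exact VA_iff.2 ⟨Φ, a, xval_conj _ _
    (fun r => IntermediateField.algebra_adjoin_le_adjoin E _ r.2) d hy⟩

end Pool.Agent.MP_ee2255_nt.T

end

section

/-! Monic equations with bounded degrees. -/

namespace Pool.Agent.MP_ee2255_nt.T

open Polynomial Filter Topology Pool.Agent.MP_655169_nt

variable {E : Type*} [Field E] {C : Type*} [Field C] [Algebra E C] {κ : Type*}
  [Finite κ] {μ : κ → C} {x : C}

theorem coeff_val (K : IntermediateField E C) (s : Set C) (hs : s ⊆ K) {x : C}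
    (hx : IsIntegral K x) (h : ∀ V : ValuationSubring C, s ⊆ V → x ∈ V) (j : ℕ)
    (V : ValuationSubring C) (hV : s ⊆ V) : (((minpoly K x).coeff j : K) : C) ∈ V := by
  have key : ∀ y : C, (∀ V : ValuationSubring C, s ⊆ V → y ∈ V) ↔
      IsIntegral (Subring.closure s) y := by
    intro y
    have := iInf_valuationSubring_superset (s := s)
    have h2 : y ∈ (integralClosure (Subring.closure s) C).toSubring ↔
        IsIntegral (Subring.closure s) y := Iff.rfl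
    rw [← h2, ← this, Subring.mem_iInf]
    exact ⟨fun h V => h V.1 V.2, fun h V hV => h ⟨V, hV⟩⟩
  obtain ⟨p, hp, hpx⟩ := (key x).1 h
  have hl : p.map (algebraMap (Subring.closure s) C) ∈ lifts (algebraMap K C) := by
    rw [lifts_iff_coeff_lifts]
    intro n
    have : ((p.coeff n : Subring.closure s) : C) ∈ K.toSubfield.toSubring :=
      (Subring.closure_le (t := K.toSubfield.toSubring)).2 hs (p.coeff n).2
    exact ⟨⟨_, this⟩, by simp [coeff_map]; rfl⟩
  obtain ⟨q, hq⟩ := (mem_lifts _).1 hl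
  have hd : minpoly K x ∣ q := by
    apply minpoly.dvd
    rw [aeval_def, ← eval_map, hq, eval_map]
    exact hpx
  have hd' : (minpoly K x).map (algebraMap K C) ∣ p.map (algebraMap (Subring.closure s) C) := by
    rw [← hq]; exact Polynomial.map_dvd _ hd
  have := isIntegral_coeff_of_dvd p _ hp ((minpoly.monic hx).map _) hd' j
  rw [coeff_map] at this
  exact (key _).2 this V hV

omit [Finite κ] in
theorem aeval_mem_KF (a : MvPolynomial κ E) : MvPolynomial.aeval μ a ∈ KF E μ := by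
  rw [IntermediateField.mem_adjoin_range_iff]
  exact ⟨a, 1, by simp⟩

omit [Finite κ] in
theorem coeff_VA (hx : IsIntegral (KF E μ) x) (h : VA E μ x) (j : ℕ) :
    VA E μ (((minpoly (KF E μ) x).coeff j : KF E μ) : C) := by
  intro V hV
  refine coeff_val (KF E μ) (Set.range fun a : MvPolynomial κ E => MvPolynomial.aeval μ a) ?_ hx
    ?_ j V ?_
  · rintro _ ⟨a, rfl⟩; exact aeval_mem_KF a
  · intro W hW; exact h W fun a => hW ⟨a, rfl⟩
  · rintro _ ⟨a, rfl⟩; exact hV a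

omit [Finite κ] in
theorem coeff_VI (hx : IsIntegral (KF E μ) x) (h : VI E μ x) (j : ℕ) :
    VI E μ (((minpoly (KF E μ) x).coeff j : KF E μ) : C) := by
  intro V hV
  refine coeff_val (KF E μ) {y | ∃ a b : MvPolynomial κ E, b ≠ 0 ∧ a.totalDegree ≤ b.totalDegree ∧
    y = MvPolynomial.aeval μ a / MvPolynomial.aeval μ b} ?_ hx ?_ j V ?_
  · rintro _ ⟨a, b, -, -, rfl⟩; exact div_mem (aeval_mem_KF a) (aeval_mem_KF b)
  · intro W hW; exact h W fun a b hb hab => hW ⟨a, b, hb, hab, rfl⟩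
  · rintro _ ⟨a, b, hb, hab, rfl⟩; exact hV a b hb hab

omit [Finite κ] in
theorem aeval_ne (hμ : AlgebraicIndependent E μ) {a : MvPolynomial κ E} (ha : a ≠ 0) :
    MvPolynomial.aeval μ a ≠ 0 := fun h => ha (hμ (by rw [h, map_zero]))

theorem mon_of (hμ : AlgebraicIndependent E μ) (i0 : κ) {n h : ℕ} (hx : IsIntegral (KF E μ) x)
    (hn : (minpoly (KF E μ) x).natDegree ≤ n) (h1 : VA E μ x) (h2 : VI E μ (x / μ i0 ^ h)) :
    Mon E μ n (n * h) x := by
  set p := minpoly (KF E μ) x with hp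
  have hm : p.Monic := minpoly.monic hx
  have hl : p.map (algebraMap (KF E μ) C) ∈
      lifts (MvPolynomial.aeval μ : MvPolynomial κ E →ₐ[E] C).toRingHom := by
    rw [lifts_iff_coeff_lifts]
    intro j
    obtain ⟨a, ha⟩ := VA_KF hμ (p.coeff j).2 (coeff_VA hx h1 j)
    exact ⟨a, by rw [coeff_map]; exact ha.symm⟩
  obtain ⟨Φ, hΦ, hdeg, hmon⟩ := lifts_and_natDegree_eq_and_monic hl (hm.map _)
  rw [hm.natDegree_map] at hdeg
  have hθ : μ i0 ≠ 0 := by
    have := aeval_ne hμ (MvPolynomial.X_ne_zero (R := E) i0)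
    simpa using this
  have hθK : μ i0 ∈ KF E μ := by simpa using aeval_mem_KF (μ := μ) (MvPolynomial.X (R := E) i0)
  set r : KF E μ := ((⟨μ i0, hθK⟩ : KF E μ) ^ h)⁻¹ with hr
  have hr0 : r ≠ 0 := by
    refine inv_ne_zero (pow_ne_zero _ fun e => hθ ?_)
    simpa using congrArg Subtype.val e
  have hrC : (r : C) = (μ i0 ^ h)⁻¹ := by simp [hr]
  have hrx : r • x = x / μ i0 ^ h := by
    rw [Algebra.smul_def, div_eq_mul_inv, mul_comm, ← hrC]; rfl
  have hmin := IsIntegrallyClosed.minpoly_smul hr0 hx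
  refine ⟨Φ, hmon, hdeg.trans_le hn, fun j => ?_, ?_⟩
  · have h3 := coeff_VI (hx.smul r) (hrx ▸ h2) j
    rw [hmin, coeff_scaleRoots] at h3
    have h4 : MvPolynomial.aeval μ (Φ.coeff j) = ((p.coeff j : KF E μ) : C) := by
      have := congrArg (fun q => Polynomial.coeff q j) hΦ
      simpa [coeff_map] using this
    have h5 := VI_deg hμ (Φ.coeff j) (MvPolynomial.X i0 ^ (h * (p.natDegree - j)))
      (pow_ne_zero _ (MvPolynomial.X_ne_zero i0)) (by
        convert h3 using 1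
        rw [h4, ← hp]
        simp [hrC, pow_mul, div_eq_mul_inv])
    rw [MvPolynomial.totalDegree_X_pow] at h5
    refine h5.trans ?_
    rw [mul_comm]
    exact Nat.mul_le_mul_right _ ((Nat.sub_le _ _).trans hn)
  · rw [← eval_map, hΦ, eval_map, ← aeval_def]
    exact minpoly.aeval _ _

omit [Finite κ] in
theorem totalDegree_pow_eq {b : MvPolynomial κ E} (hb : b ≠ 0) (m : ℕ) :
    (b ^ m).totalDegree = m * b.totalDegree := by
  induction m with
  | zero => simp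
  | succ m ih =>
    rw [pow_succ, MvPolynomial.totalDegree_mul_of_isDomain (pow_ne_zero _ hb) hb, ih]; ring

theorem poly_of_pow (hμ : AlgebraicIndependent E μ) {a : C} (ha : a ∈ KF E μ) {m Q : ℕ}
    (D : MvPolynomial κ E) (hD : D ≠ 0) (hQ : m * D.totalDegree < Q)
    (h : VA E μ (a ^ Q * MvPolynomial.aeval μ D ^ m)) : VA E μ a := by
  obtain ⟨c, hc⟩ := VA_KF hμ (mul_mem (pow_mem ha Q) (pow_mem (aeval_mem_KF D) m)) h
  obtain ⟨α, β, hαβ⟩ := (IntermediateField.mem_adjoin_range_iff E μ a).1 ha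
  by_cases hβ : β = 0
  · have : a = MvPolynomial.aeval μ (0 : MvPolynomial κ E) := by simp [hαβ, hβ]
    rw [this]; exact VA.aeval _
  obtain ⟨α', β', g, hcop, rfl, rfl⟩ := UniqueFactorizationMonoid.exists_reduced_factors' α β hβ
  have hg : g ≠ 0 := left_ne_zero_of_mul hβ
  have hβ' : β' ≠ 0 := right_ne_zero_of_mul hβ
  have hg1 := aeval_ne hμ hg
  have hβ1 := aeval_ne hμ hβ'
  have ha' : a = MvPolynomial.aeval μ α' / MvPolynomial.aeval μ β' := by
    rw [hαβ, map_mul, map_mul, mul_div_mul_left _ _ hg1]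
  have he : α' ^ Q * D ^ m = β' ^ Q * c := by
    apply hμ
    simp only [map_mul, map_pow]
    rw [← hc, ha', div_pow]
    field_simp
  have hd : β' ^ Q ∣ D ^ m :=
    (hcop.symm.pow (m := Q) (n := Q)).dvd_of_dvd_mul_left ⟨c, he⟩
  have hle := MvPolynomial.totalDegree_le_of_dvd_of_isDomain hd (pow_ne_zero _ hD)
  rw [totalDegree_pow_eq hβ', totalDegree_pow_eq hD] at hle
  have h0 : β'.totalDegree = 0 := by
    by_contra hne
    have : Q * 1 ≤ Q * β'.totalDegree := Nat.mul_le_mul_left _ (Nat.one_le_iff_ne_zero.2 hne)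
    omega
  rw [MvPolynomial.totalDegree_eq_zero_iff_eq_C] at h0
  have : a = MvPolynomial.aeval μ (α' * MvPolynomial.C (β'.coeff 0)⁻¹) := by
    rw [ha', map_mul, div_eq_mul_inv]
    congr 1
    conv_lhs => rw [h0]
    simp
  rw [this]; exact VA.aeval _

/-- If a high power of `x` has a denominator of low degree then `x` is integral. -/
theorem int_of_pow [IsAlgClosed C] (hμ : AlgebraicIndependent E μ) {n Q : ℕ}
    (hx : IsIntegral (KF E μ) x) (hn : (minpoly (KF E μ) x).natDegree ≤ n) (D : MvPolynomial κ E)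
    (hD : D ≠ 0) (hQ : n * D.totalDegree < Q) (h : VA E μ (MvPolynomial.aeval μ D * x ^ Q)) :
    VA E μ x := by
  set p := minpoly (KF E μ) x with hp
  have hm : p.Monic := minpoly.monic hx
  set P := p.map (algebraMap (KF E μ) C) with hP
  have hPm : P.Monic := hm.map _
  have hQ0 : 0 < Q := lt_of_le_of_lt (Nat.zero_le _) hQ
  set d : KF E μ := ⟨MvPolynomial.aeval μ D, aeval_mem_KF D⟩ with hd
  obtain ⟨δ, hδ⟩ := IsAlgClosed.exists_pow_nat_eq (MvPolynomial.aeval μ D) hQ0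
  have hδ0 : δ ≠ 0 := by
    rintro rfl
    exact aeval_ne hμ hD (by rw [← hδ, zero_pow hQ0.ne'])
  have hev : ∀ y : C, aeval y (Polynomial.C d * X ^ Q) = MvPolynomial.aeval μ D * y ^ Q := by
    intro y; simp [hd]
  have hint : IsIntegral (KF E μ) (MvPolynomial.aeval μ D * x ^ Q) :=
    (isIntegral_algebraMap (x := d)).mul (hx.pow Q)
  have hroot : ∀ y ∈ P.roots, VA E μ (MvPolynomial.aeval μ D * y ^ Q) := by
    intro y hy
    have hy0 : aeval y p = 0 := by
      rw [aeval_def, ← eval_map]; exact (mem_roots hPm.ne_zero).1 hy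
    refine h.conj (isConjRoot_of_aeval_eq_zero hint ?_)
    have hdv : p ∣ (minpoly (KF E μ) (MvPolynomial.aeval μ D * x ^ Q)).comp
        (Polynomial.C d * X ^ Q) := by
      apply minpoly.dvd
      rw [aeval_comp, hev, minpoly.aeval]
    have := aeval_eq_zero_of_dvd_aeval_eq_zero hdv hy0
    rwa [aeval_comp, hev] at this
  have hco : ∀ j, VA E μ (P.coeff j) := by
    intro j
    have hK : P.coeff j ∈ KF E μ := by rw [hP, coeff_map]; exact (p.coeff j).2
    refine poly_of_pow hμ hK (m := P.natDegree - j) (Q := Q) D hD ?_ ?_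
    · refine lt_of_le_of_lt (Nat.mul_le_mul_right _ ((Nat.sub_le _ _).trans ?_)) hQ
      rw [hP, hm.natDegree_map]; exact hn
    · intro V hV
      have hl := (IsAlgClosed.splits (P.scaleRoots δ)).mem_lift_of_roots_mem_range
        ((monic_scaleRoots_iff δ).2 hPm) V.subtype (by
          intro z hz
          rw [roots_scaleRoots _ (isUnit_iff_ne_zero.2 hδ0)] at hz
          obtain ⟨y, hy, rfl⟩ := Multiset.mem_map.1 hz
          have h1 := hroot y hy V hV
          rw [← hδ, ← mul_pow, ← V.valuation_le_one_iff, map_pow,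
            pow_le_one_iff_of_nonneg zero_le hQ0.ne', V.valuation_le_one_iff] at h1
          exact ⟨⟨_, h1⟩, rfl⟩)
      obtain ⟨w, hw⟩ := (lifts_iff_coeff_lifts _).1 hl j
      rw [coeff_scaleRoots] at hw
      have h2 : P.coeff j * δ ^ (P.natDegree - j) ∈ V := by rw [← hw]; exact w.2
      have h3 := V.pow_mem h2 Q
      rwa [mul_pow, ← pow_mul, mul_comm _ Q, pow_mul, hδ] at h3
  intro V hV
  have := val_root V P (x := x) (by rw [hP, eval_map, ← aeval_def]; exact minpoly.aeval _ _) 1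
    (fun j => by rw [one_mul]; exact hco j V hV)
  rwa [hPm.leadingCoeff, one_mul, one_mul] at this

/-- The norm of a nonzero integral element is not small at infinity. -/
theorem norm_inf [IsAlgClosed C] (hμ : AlgebraicIndependent E μ) (i0 : κ) (V : ValuationSubring C)
    (hV : ∀ a b : MvPolynomial κ E, b ≠ 0 →
      (MvPolynomial.aeval μ a / MvPolynomial.aeval μ b ∈ V ↔ a.totalDegree ≤ b.totalDegree))
    {n k s : ℕ} (h0 : x ≠ 0) (hx : IsIntegral (KF E μ) x)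
    (hn : (minpoly (KF E μ) x).natDegree ≤ n) (h1 : VA E μ x)
    (h2 : ∀ y, IsConjRoot (KF E μ) x y → V.valuation y ≤ V.valuation (μ i0) ^ k)
    (h3 : V.valuation x * V.valuation (μ i0) ^ s ≤ V.valuation (μ i0) ^ k) : s ≤ k * n := by
  classical
  set p := minpoly (KF E μ) x with hp
  have hm : p.Monic := minpoly.monic hx
  set P := p.map (algebraMap (KF E μ) C) with hP
  have hPm : P.Monic := hm.map _
  have hθ : 1 < V.valuation (μ i0) := by
    rw [← not_le, V.valuation_le_one_iff]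
    have := hV (MvPolynomial.X i0) 1 one_ne_zero
    simpa using this
  obtain ⟨a, ha⟩ := VA_KF hμ (p.coeff 0).2 (coeff_VA hx h1 0)
  have hN0 : ((p.coeff 0 : KF E μ) : C) ≠ 0 := fun e =>
    minpoly.coeff_zero_ne_zero hx h0 (Subtype.ext e)
  have ha0 : a ≠ 0 := by
    rintro rfl
    exact hN0 (by simpa using ha)
  have hN : 1 ≤ V.valuation (P.coeff 0) := by
    have h4 := (hV 1 a ha0).2 (by simp)
    rw [← V.valuation_le_one_iff, map_one, one_div, map_inv₀, ← ha] at h4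
    have h5 : P.coeff 0 = ((p.coeff 0 : KF E μ) : C) := by rw [hP, coeff_map]; rfl
    rw [h5]
    exact (inv_le_one₀ ((Valuation.pos_iff _).2 hN0)).1 h4
  have hxr : x ∈ P.roots := (mem_roots hPm.ne_zero).2 (by
    rw [IsRoot, hP, eval_map, ← aeval_def]; exact minpoly.aeval _ _)
  obtain ⟨t, ht⟩ := Multiset.exists_cons_of_mem hxr
  have hcard : t.card + 1 ≤ n := by
    have := card_roots' P
    rw [ht, Multiset.card_cons, hP, hm.natDegree_map] at this
    exact this.trans hn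
  have hbd : ∀ u : Multiset C, (∀ y ∈ u, V.valuation y ≤ V.valuation (μ i0) ^ k) →
      V.valuation u.prod ≤ V.valuation (μ i0) ^ (k * u.card) := by
    intro u
    induction u using Multiset.induction_on with
    | empty => simp
    | cons y u ih =>
      intro hu
      rw [Multiset.prod_cons, Multiset.card_cons, map_mul, mul_add, mul_one, add_comm, pow_add]
      exact mul_le_mul' (hu y (Multiset.mem_cons_self _ _))
        (ih fun z hz => hu z (Multiset.mem_cons_of_mem hz))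
  have ht' := hbd t fun y hy => h2 y (isConjRoot_of_aeval_eq_zero hx (by
    have : y ∈ P.roots := by rw [ht]; exact Multiset.mem_cons_of_mem hy
    rw [aeval_def, ← eval_map]; exact (mem_roots hPm.ne_zero).1 this))
  rw [(IsAlgClosed.splits P).coeff_zero_eq_prod_roots_of_monic hPm, ht, Multiset.prod_cons,
    map_mul, map_pow, Valuation.map_neg, map_one, one_pow, one_mul, map_mul] at hN
  have hfin : V.valuation (μ i0) ^ s ≤ V.valuation (μ i0) ^ (k * (t.card + 1)) := by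
    calc V.valuation (μ i0) ^ s = 1 * V.valuation (μ i0) ^ s := (one_mul _).symm
      _ ≤ V.valuation x * V.valuation t.prod * V.valuation (μ i0) ^ s := mul_le_mul' hN le_rfl
      _ = V.valuation x * V.valuation (μ i0) ^ s * V.valuation t.prod := mul_right_comm _ _ _
      _ ≤ V.valuation (μ i0) ^ k * V.valuation (μ i0) ^ (k * t.card) := mul_le_mul' h3 ht'
      _ = _ := by rw [← pow_add]; congr 1; ring
  exact ((pow_le_pow_iff_right₀ hθ).1 hfin).trans (Nat.mul_le_mul_left _ hcard)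

end Pool.Agent.MP_ee2255_nt.T

end

section

/-! Simultaneous approximation over `F[X]`. -/

namespace Pool.Agent.MP_ee2255_nt.T

open Polynomial Filter Topology Pool.Agent.MP_655169_nt

theorem dirichlet {F : Type*} [Field F] {r : ℕ} (c : Fin r → F[X]) (j1 : Fin r) (h0 : c j1 ≠ 0)
    (hc : ∀ j, (c j).natDegree ≤ (c j1).natDegree) (ρ : ℕ) (hρ : ρ ≤ (c j1).natDegree) :
    ∃ w : (Fin (ρ + 1) → F) →ₗ[F] (Fin r → F[X]), Function.Injective w ∧ ∀ a j,
      (w a j).natDegree ≤ r * ρ ∧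
        (c j1 * w a j - w a j1 * c j).natDegree + ρ ≤ (c j1).natDegree := by
  classical
  have _ := h0
  let P : (Fin r → Fin (r * ρ + 1) → F) →ₗ[F] (Fin r → F[X]) :=
    LinearMap.pi fun j => (ofFn (r * ρ + 1)).comp (LinearMap.proj j)
  have hP : ∀ a j, (P a j).natDegree ≤ r * ρ := fun a j =>
    Nat.lt_succ_iff.1 (ofFn_natDegree_lt (Nat.le_add_left _ _) (a j))
  let L : (Fin r → F[X]) →ₗ[F] ({j // j ≠ j1} → Fin ((r + 1) * ρ) → F) :=
    LinearMap.pi fun j => LinearMap.pi fun k => (lcoeff F ((c j1).natDegree - ρ + 1 + k)).comp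
      ((LinearMap.mulLeft F (c j1)).comp (LinearMap.proj j.1) -
        (LinearMap.mulRight F (c j.1)).comp (LinearMap.proj j1))
  have h₁ := LinearMap.finrank_range_add_finrank_ker (L.comp P)
  have h₂ := Submodule.finrank_le (LinearMap.range (L.comp P))
  obtain ⟨m, rfl⟩ : ∃ m, r = m + 1 := ⟨r - 1, by have := j1.pos; omega⟩
  simp only [Module.finrank_pi_fintype, Module.finrank_self, Finset.sum_const, Finset.card_univ,
    Fintype.card_fin, smul_eq_mul, mul_one, Fintype.card_subtype_compl, Fintype.card_unique,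
    Nat.add_sub_cancel] at h₁ h₂
  obtain ⟨f, hf⟩ := (finrank_le_iff_exists_linearMap (R := F) (M := Fin (ρ + 1) → F)
    (M' := LinearMap.ker (L.comp P))).1 (by
      rw [Module.finrank_fin_fun]
      nlinarith)
  refine ⟨P.comp ((Submodule.subtype _).comp f), fun a b e => hf (Subtype.ext (funext fun j =>
    injective_ofFn _ (congrFun e j))), fun a j => ⟨hP _ j, ?_⟩⟩
  by_cases hj : j = j1
  · rw [hj, mul_comm, sub_self, natDegree_zero, zero_add]
    exact hρ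
  refine (Nat.le_sub_iff_add_le hρ).1 (natDegree_le_iff_coeff_eq_zero.2 fun N hN => ?_)
  by_cases hN' : N - ((c j1).natDegree - ρ + 1) < (m + 1 + 1) * ρ
  · have := congrFun (congrFun (f a).2 ⟨j, hj⟩) ⟨_, hN'⟩
    refine Eq.trans ?_ this
    conv_lhs => rw [← Nat.add_sub_cancel' (Nat.succ_le_of_lt hN)]
    rfl
  · refine coeff_eq_zero_of_natDegree_lt ((natDegree_sub_le _ _).trans_lt (max_lt ?_ ?_))
    · refine natDegree_mul_le.trans_lt ((Nat.add_le_add_left (hP _ j) _).trans_lt ?_)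
      rw [add_mul (m + 1), one_mul] at hN'
      omega
    · refine natDegree_mul_le.trans_lt ((Nat.add_le_add (hP _ j1) (hc j)).trans_lt ?_)
      rw [add_mul (m + 1), one_mul] at hN'
      omega

/-- More vectors than coordinates satisfy a short relation. -/
theorem short_rel {F ι : Type*} [Field F] [Fintype ι] {s n : ℕ} (hs : Fintype.card ι < s)
    (c : Fin s → ι → F[X]) (hc : ∀ i j, (c i j).natDegree ≤ n) :
    ∃ g : Fin s → F[X], g ≠ 0 ∧ (∀ i, (g i).natDegree ≤ Fintype.card ι * n) ∧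
      ∀ j, ∑ i, g i * c i j = 0 := by
  classical
  let K := Fintype.card ι * n
  let L : (Fin s → Fin (K + 1) → F) →ₗ[F] (ι → Fin (K + n + 1) → F) :=
    LinearMap.pi fun j => (toFn (K + n + 1)).comp (∑ i, (LinearMap.mulRight F (c i j)).comp
      ((ofFn (K + 1)).comp (LinearMap.proj i)))
  obtain ⟨a, h₁, h₂⟩ := (Submodule.ne_bot_iff _).1 (LinearMap.ker_ne_bot_of_finrank_lt (f := L) (by
    simp only [Module.finrank_pi_fintype, Module.finrank_self, Finset.sum_const, Finset.card_univ,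
      Fintype.card_fin, smul_eq_mul, mul_one]
    have := Nat.mul_le_mul_right (K + 1) (Nat.succ_le_of_lt hs)
    simp only [K] at this ⊢
    nlinarith))
  have hP : ∀ i, (ofFn (K + 1) (a i)).natDegree ≤ K := fun i =>
    Nat.lt_succ_iff.1 (ofFn_natDegree_lt (Nat.le_add_left _ _) (a i))
  refine ⟨fun i => ofFn (K + 1) (a i), fun e => h₂ (funext fun i => injective_ofFn _
    ((congrFun e i).trans (map_zero _).symm)), hP, fun j => ?_⟩
  have h₃ : toFn (K + n + 1) (∑ i, ofFn (K + 1) (a i) * c i j) = 0 := by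
    simpa [L, LinearMap.sum_apply] using congrFun h₁ j
  rw [← ofFn_comp_toFn_eq_id_of_natDegree_lt (n := K + n + 1) (Nat.lt_succ_of_le
    (natDegree_sum_le_of_forall_le _ _ fun i _ =>
      natDegree_mul_le.trans (Nat.add_le_add (hP i) (hc i j)))), h₃, map_zero]

end Pool.Agent.MP_ee2255_nt.T

end

section

/-! The product of the values of a linear family. -/

namespace Pool.Agent.MP_ee2255_nt.T

open Polynomial Filter Topology Pool.Agent.MP_655169_nt

variable {F C Γ : Type*} [Field F] [Fintype F] [Field C] [IsAlgClosed C] [Algebra F C]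
  [LinearOrderedCommGroupWithZero Γ] (v : Valuation C Γ) {θ : C}

omit [IsAlgClosed C] in
theorem TMa5_prod (x : C) : x ^ qq F - x = ∏ a : F, (x - algebraMap F C a) := by
  have hm : (X ^ Fintype.card F - X : F[X]).Monic :=
    monic_X_pow_sub (by rw [degree_X]; exact_mod_cast Fintype.one_lt_card)
  have hd := FiniteField.X_pow_card_sub_X_natDegree_eq F (Fintype.one_lt_card (α := F))
  have hr := FiniteField.roots_X_pow_card_sub_X F
  have h := prod_multiset_X_sub_C_of_monic_of_roots_card_eq hm (by rw [hr, hd]; rfl)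
  rw [hr] at h
  have h2 := congrArg (aeval x) h
  rw [map_sub, map_pow, aeval_X] at h2
  rw [← h2]
  change aeval x (∏ a : F, (X - Polynomial.C a)) = _
  simp [map_prod]

theorem TMa5_q : qq F - 1 ≠ 0 := by
  have : 1 < qq F := Fintype.one_lt_card
  omega

omit [IsAlgClosed C] in
theorem TMa5_val {a : F} (ha : a ≠ 0) : v (algebraMap F C a) = 1 := by
  have h := FiniteField.pow_card_sub_one_eq_one a ha
  have h2 : v (algebraMap F C a) ^ (qq F - 1) = 1 := by
    rw [← map_pow, ← map_pow, h, map_one, map_one]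
  exact (pow_eq_one_iff_of_nonneg zero_le TMa5_q).1 h2

omit [IsAlgClosed C] in
theorem TMa5_val_le (a : F) : v (algebraMap F C a) ≤ 1 := by
  by_cases ha : a = 0
  · simp [ha]
  · exact (TMa5_val v ha).le

omit [IsAlgClosed C] in
theorem TMa5_near (y : C) (h : v (y ^ qq F - y) < 1) : ∃ a : F, v (y - algebraMap F C a) < 1 := by
  by_contra hc
  push Not at hc
  rw [TMa5_prod, map_prod] at h
  exact absurd h (not_lt.2 (Finset.one_le_prod fun a _ => hc a))

omit [IsAlgClosed C] in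
theorem TMa5_uniq {y : C} {a b : F} (ha : v (y - algebraMap F C a) < 1)
    (hb : v (y - algebraMap F C b) < 1) : a = b := by
  by_contra hne
  have h := v.map_sub_lt hb ha
  rw [sub_sub_sub_cancel_left, ← map_sub, TMa5_val v (sub_ne_zero.2 hne)] at h
  exact lt_irrefl _ h

theorem exists_alpha (hθ : 1 < v θ) {W : Type*} [AddCommGroup W] [Module F W] (g : W →ₗ[F] C)
    (h : ∀ w, v (cth F θ (g w)) ^ (qq F - 1) ≤ v θ) :
    ∃ α : W →ₗ[F] F, ∀ w, α w = 0 → v (cth F θ (g w)) = v θ * v (g w) := by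
  have hq := TMa5_q (F := F)
  obtain ⟨ζ, hζ⟩ := IsAlgClosed.exists_pow_nat_eq (-θ) (Nat.pos_of_ne_zero hq)
  have hv : v ζ ^ (qq F - 1) = v θ := by rw [← map_pow, hζ, v.map_neg]
  have hθ0 : 0 < v θ := zero_lt_one.trans hθ
  have hv0 : v ζ ≠ 0 := by
    intro h0
    rw [h0, zero_pow hq] at hv
    exact hθ0.ne hv
  have hζ0 : ζ ≠ 0 := fun h0 => hv0 (by rw [h0, map_zero])
  have hqq : qq F = qq F - 1 + 1 := by omega
  have key : ∀ x : C, cth F θ x = -θ * ζ * ((x / ζ) ^ qq F - x / ζ) := by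
    intro x
    have e : ζ ^ qq F = -θ * ζ := by rw [hqq, pow_succ, hζ]
    rw [cth_apply, div_pow, mul_sub, ← e, mul_div_cancel₀ _ (pow_ne_zero _ hζ0), e]
    field_simp
    ring
  have hex : ∀ w, ∃ a : F, v (g w / ζ - algebraMap F C a) < 1 := by
    intro w
    apply TMa5_near
    have h1 := h w
    rw [← hv] at h1
    have h2 := le_of_pow_le_pow_left₀ hq zero_le h1
    rw [key, map_mul, map_mul, v.map_neg] at h2
    by_contra hc
    push Not at hc
    have hp : 0 < v ζ := zero_lt_iff.2 hv0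
    have h3 : v ζ < v θ * v ζ := lt_mul_of_one_lt_left hp hθ
    have h4 : v θ * v ζ ≤ v θ * v ζ * v ((g w / ζ) ^ qq F - g w / ζ) :=
      le_mul_of_one_le_right zero_le hc
    exact absurd (h3.trans_le (h4.trans h2)) (lt_irrefl _)
  choose a ha using hex
  refine ⟨{ toFun := a, map_add' := fun w w' => ?_, map_smul' := fun c w => ?_ }, fun w hw => ?_⟩
  · refine TMa5_uniq v (ha _) ?_
    have := v.map_add_lt (ha w) (ha w')
    convert this using 2
    rw [map_add, map_add]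
    ring
  · refine TMa5_uniq v (ha _) ?_
    have e : g (c • w) / ζ - algebraMap F C ((RingHom.id F) c • a w) =
        algebraMap F C c * (g w / ζ - algebraMap F C (a w)) := by
      rw [map_smul, Algebra.smul_def, RingHom.id_apply, smul_eq_mul, map_mul]
      ring
    rw [e, map_mul]
    exact lt_of_le_of_lt (mul_le_of_le_one_left zero_le (TMa5_val_le v c)) (ha w)
  · have h1 := ha w
    have hw' : a w = 0 := hw
    rw [hw', map_zero, sub_zero, map_div₀, div_lt_one₀ (zero_lt_iff.2 hv0)] at h1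
    have h2 : v (g w ^ (qq F - 1)) < v θ := by
      rw [map_pow, ← hv]
      exact pow_lt_pow_left₀ h1 zero_le hq
    have e : cth F θ (g w) = (θ + g w ^ (qq F - 1)) * g w := by
      rw [cth_apply, add_mul, ← pow_succ, ← hqq]
    rw [e, map_mul, v.map_add_eq_of_lt_left h2]

omit [Fintype F] in
theorem TMa5_inj {k : ℕ} (α : (Fin (k + 1) → F) →ₗ[F] F) :
    ∃ ι : (Fin k → F) →ₗ[F] (Fin (k + 1) → F), Function.Injective ι ∧ ∀ w, α (ι w) = 0 := by
  have h1 := α.finrank_range_add_finrank_ker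
  have h2 : Module.finrank F (LinearMap.range α) ≤ 1 :=
    (Submodule.finrank_le _).trans_eq (Module.finrank_self F)
  rw [Module.finrank_fin_fun] at h1
  have h3 : Module.finrank F (Fin k → F) ≤ Module.finrank F (LinearMap.ker α) := by
    rw [Module.finrank_fin_fun]
    omega
  obtain ⟨f, hf⟩ := finrank_le_iff_exists_linearMap.1 h3
  exact ⟨(LinearMap.ker α).subtype ∘ₗ f, (Submodule.injective_subtype _).comp hf,
    fun w => (f w).2⟩

omit [IsAlgClosed C] in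
theorem TMa5_iter {x : C} (j : ℕ)
    (h : ∀ i, i < j → v ((cth F θ ^ (i + 1)) x) = v θ * v ((cth F θ ^ i) x)) :
    v ((cth F θ ^ j) x) = v x * v θ ^ j := by
  induction j with
  | zero => simp
  | succ j ih =>
    rw [h j (Nat.lt_succ_self j), ih fun i hi => h i (hi.trans (Nat.lt_succ_self j)), pow_succ,
      mul_comm, mul_assoc]

theorem prod_bound [DecidableEq F] (hθ : 1 < v θ) (ρ k : ℕ) : ∀ (j0 : ℕ) (g : (Fin k → F) →ₗ[F] C),
    k + j0 ≤ ρ → (∀ w i, i ≤ ρ → v ((cth F θ ^ i) (g w)) ^ (qq F - 1) ≤ v θ) →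
    (∀ w i, i < j0 → v ((cth F θ ^ (i + 1)) (g w)) = v θ * v ((cth F θ ^ i) (g w))) →
    v (∏ w ∈ Finset.univ.erase 0, g w) * v θ ^ ((qq F ^ k - 1) * j0) ≤ v θ ^ k := by
  have hq := TMa5_q (F := F)
  have hθ0 : 0 < v θ := zero_lt_one.trans hθ
  induction k with
  | zero =>
    intro j0 g _ _ _
    have : (Finset.univ.erase 0 : Finset (Fin 0 → F)) = ∅ := by
      ext w
      simp [Subsingleton.elim w 0]
    rw [this]
    simp
  | succ k ih =>
    intro j0 g hk h1 h2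
    have hstep : ∀ w, cth F θ ((cth F θ ^ j0) (g w)) = (cth F θ ^ (j0 + 1)) (g w) := by
      intro w
      rw [pow_succ', Module.End.mul_apply]
    obtain ⟨α, hα⟩ := exists_alpha v hθ ((cth F θ ^ j0) ∘ₗ g) (fun w => by
      rw [LinearMap.comp_apply, hstep]
      exact h1 w _ (by omega))
    obtain ⟨ι, hι, hι0⟩ := TMa5_inj α
    have hin := ih (j0 + 1) (g ∘ₗ ι) (by omega) (fun w i hi => h1 (ι w) i hi) (fun w i hi => by
      rcases Nat.lt_succ_iff_lt_or_eq.1 hi with hi | rfl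
      · exact h2 (ι w) i hi
      · have := hα (ι w) (hι0 w)
        rw [LinearMap.comp_apply, hstep] at this
        exact this)
    set S : Finset (Fin (k + 1) → F) := Finset.univ.image ι with hS
    have hcard : (Finset.univ \ S).card = qq F ^ k * (qq F - 1) := by
      rw [Finset.card_sdiff_of_subset (Finset.subset_univ _), hS,
        Finset.card_image_of_injective _ hι]
      simp only [Finset.card_univ, Fintype.card_pi, Finset.prod_const, Fintype.card_fin]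
      rw [pow_succ, Nat.mul_sub_one]
    have hsplit : ∏ w ∈ Finset.univ.erase 0, g w =
        (∏ w ∈ Finset.univ.erase 0, (g ∘ₗ ι) w) * ∏ w ∈ Finset.univ \ S, g w := by
      have e1 : (Finset.univ.erase 0 : Finset (Fin (k + 1) → F)) =
          (Finset.univ.erase 0).image ι ∪ (Finset.univ \ S) := by
        ext w
        simp only [hS, Finset.mem_erase, Finset.mem_univ, and_true, Finset.mem_union,
          Finset.mem_image, Finset.mem_sdiff, true_and]
        constructor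
        · intro hw
          by_cases hx : ∃ a, ι a = w
          · obtain ⟨a, rfl⟩ := hx
            exact Or.inl ⟨a, fun h0 => hw (by rw [h0, map_zero]), rfl⟩
          · exact Or.inr hx
        · rintro (⟨a, ha, rfl⟩ | hx) h0
          · exact ha (hι (by rw [h0, map_zero]))
          · exact hx ⟨0, by rw [h0, map_zero]⟩
      rw [e1, Finset.prod_union, Finset.prod_image fun a _ b _ hab => hι hab]
      · rfl
      · refine Finset.disjoint_left.2 fun w hw hw' => (Finset.mem_sdiff.1 hw').2 ?_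
        exact Finset.image_subset_image (Finset.subset_univ _) hw
    have hout : v (∏ w ∈ Finset.univ \ S, g w) * v θ ^ (j0 * (qq F ^ k * (qq F - 1))) ≤
        v θ ^ qq F ^ k := by
      refine le_of_pow_le_pow_left₀ hq zero_le ?_
      have e : v (∏ w ∈ Finset.univ \ S, g w) * v θ ^ (j0 * (qq F ^ k * (qq F - 1))) =
          ∏ w ∈ Finset.univ \ S, v ((cth F θ ^ j0) (g w)) := by
        rw [Finset.prod_congr rfl fun w _ => TMa5_iter v j0 (h2 w), Finset.prod_mul_distrib,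
          Finset.prod_const, hcard, map_prod, pow_mul]
      rw [e, ← Finset.prod_pow, ← pow_mul, ← hcard, ← Finset.prod_const]
      exact Finset.prod_le_prod (fun _ _ => zero_le) fun w _ => h1 w j0 (by omega)
    have hmul := mul_le_mul hin hout zero_le zero_le
    obtain ⟨Q, hQ⟩ : ∃ Q, qq F ^ k = Q + 1 :=
      Nat.exists_eq_add_one_of_ne_zero (pow_ne_zero _ (by omega))
    obtain ⟨p, hp⟩ : ∃ p, qq F = p + 1 := Nat.exists_eq_add_one_of_ne_zero (by omega)
    have e1 : qq F ^ (k + 1) - 1 = Q + (Q + 1) * p := by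
      rw [pow_succ, hQ, hp]
      apply Nat.sub_eq_of_eq_add
      ring
    have e2 : qq F - 1 = p := by omega
    rw [hQ, e2, Nat.add_sub_cancel] at hmul
    rw [hsplit, map_mul, e1]
    refine le_of_mul_le_mul_right (a := v θ ^ Q) ?_ (pow_pos hθ0 _)
    convert hmul using 1
    · simp only [mul_assoc, ← pow_add]
      rw [mul_left_comm (v θ ^ _), ← pow_add]
      congr 3
      ring
    · rw [← pow_add, ← pow_add]
      congr 1
      ring

end Pool.Agent.MP_ee2255_nt.T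

end

section

/-! Evaluation of power series. -/

namespace Pool.Agent.MP_ee2255_nt.T

open Polynomial Filter Topology Pool.Agent.MP_655169_nt

theorem TEv_summable {σ : Type*} [Fintype σ] (r : σ → ℝ) (h0 : ∀ i, 0 ≤ r i)
    (h1 : ∀ i, r i < 1) : Summable fun e : σ →₀ ℕ => ∏ i, r i ^ e i := by
  classical
  refine summable_of_sum_le (c := ∏ i, (1 - r i)⁻¹)
    (fun e => Finset.prod_nonneg fun i _ => pow_nonneg (h0 i) _) fun S => ?_
  obtain ⟨N, hN⟩ : ∃ N : ℕ, ∀ e ∈ S, ∀ i, e i < N := by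
    refine ⟨S.sup (fun e => Finset.univ.sup fun i => e i) + 1, fun e he i => Nat.lt_succ_of_le ?_⟩
    exact (Finset.le_sup (f := fun i => e i) (Finset.mem_univ i)).trans
      (Finset.le_sup (f := fun e : σ →₀ ℕ => Finset.univ.sup fun i => e i) he)
  have e1 : ∑ e ∈ S, ∏ i, r i ^ e i =
      ∑ p ∈ S.image (fun e : σ →₀ ℕ => (e : σ → ℕ)), ∏ i, r i ^ p i := by
    rw [Finset.sum_image fun a _ b _ h => DFunLike.coe_injective h]
  rw [e1]
  calc ∑ p ∈ S.image (fun e : σ →₀ ℕ => (e : σ → ℕ)), ∏ i, r i ^ p i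
      ≤ ∑ p ∈ Fintype.piFinset fun _ : σ => Finset.range N, ∏ i, r i ^ p i := by
        refine Finset.sum_le_sum_of_subset_of_nonneg ?_
          fun p _ _ => Finset.prod_nonneg fun i _ => pow_nonneg (h0 i) _
        intro p hp
        obtain ⟨e, he, rfl⟩ := Finset.mem_image.1 hp
        exact Fintype.mem_piFinset.2 fun i => Finset.mem_range.2 (hN e he i)
    _ = ∏ i, ∑ j ∈ Finset.range N, r i ^ j := (Finset.prod_univ_sum _ _).symm
    _ ≤ ∏ i, (1 - r i)⁻¹ := by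
        refine Finset.prod_le_prod
          (fun i _ => Finset.sum_nonneg fun j _ => pow_nonneg (h0 i) _) fun i _ => ?_
        rw [← tsum_geometric_of_lt_one (h0 i) (h1 i)]
        exact (summable_geometric_of_lt_one (h0 i) (h1 i)).sum_le_tsum _
          fun j _ => pow_nonneg (h0 i) _

theorem TEv_gen {R L σ : Type*} [CommRing R] [NormedField L] [IsUltrametricDist L]
    [CompleteSpace L] [Fintype σ] (ψ : R →+* L) (hψ : ∀ a, ‖ψ a‖ ≤ 1) (x : σ → L)
    (hx : ∀ i, ‖x i‖ < 1) : ∃ φ : MvPowerSeries σ R →+* L,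
      (∀ a, φ (MvPowerSeries.C a) = ψ a) ∧ (∀ i, φ (MvPowerSeries.X i) = x i) ∧
      ∀ G, ‖φ G‖ ≤ 1 := by
  classical
  let t : MvPowerSeries σ R → (σ →₀ ℕ) → L := fun G e =>
    ψ (MvPowerSeries.coeff e G) * ∏ i, x i ^ e i
  have hb : ∀ G e, ‖t G e‖ ≤ ∏ i, ‖x i‖ ^ e i := by
    intro G e
    simp only [t, norm_mul, norm_prod, norm_pow]
    exact mul_le_of_le_one_left
      (Finset.prod_nonneg fun i _ => pow_nonneg (norm_nonneg _) _) (hψ _)
  have hn : ∀ G, Summable fun e => ‖t G e‖ := fun G =>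
    (TEv_summable (fun i => ‖x i‖) (fun i => norm_nonneg _) hx).of_nonneg_of_le
      (fun e => norm_nonneg _) (hb G)
  have hs : ∀ G, Summable (t G) := fun G => (hn G).of_norm
  have hm : ∀ (d : σ →₀ ℕ) (a : R),
      ∑' e, t (MvPowerSeries.monomial d a) e = ψ a * ∏ i, x i ^ d i := by
    intro d a
    rw [tsum_eq_single d]
    · simp only [t, MvPowerSeries.coeff_monomial_same]
    · intro e he
      simp only [t, MvPowerSeries.coeff_monomial_ne he, map_zero, zero_mul]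
  have hC : ∀ a : R, ∑' e, t (MvPowerSeries.C a) e = ψ a := by
    intro a
    have := hm 0 a
    simpa using this
  refine ⟨{ toFun := fun G => ∑' e, t G e
            map_one' := by simpa using hC 1
            map_mul' := ?_
            map_zero' := by simp [t]
            map_add' := ?_ }, hC, fun i => ?_, fun G => ?_⟩
  · intro G H
    rw [(hs G).tsum_mul_tsum_eq_tsum_sum_antidiagonal (hs H)
      (summable_mul_of_summable_norm (hn G) (hn H))]
    refine tsum_congr fun e => ?_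
    simp only [t, MvPowerSeries.coeff_mul, map_sum, map_mul, Finset.sum_mul]
    refine Finset.sum_congr rfl fun p hp => ?_
    rw [← Finset.HasAntidiagonal.mem_antidiagonal.1 hp]
    simp only [Finsupp.add_apply, pow_add, Finset.prod_mul_distrib]
    ring
  · intro G H
    rw [← (hs G).tsum_add (hs H)]
    refine tsum_congr fun e => ?_
    simp only [t, map_add, add_mul]
  · have := hm (Finsupp.single i 1) 1
    show ∑' e, t (MvPowerSeries.X i) e = x i
    rw [MvPowerSeries.X, this, map_one, one_mul, Finset.prod_eq_single i]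
    · simp
    · intro j _ hj
      simp [Finsupp.single_apply, hj.symm]
    · simp
  · show ‖∑' e, t G e‖ ≤ 1
    refine IsUltrametricDist.norm_tsum_le_of_forall_le_of_nonneg zero_le_one fun e => ?_
    exact (hb G e).trans (Finset.prod_le_one (fun i _ => pow_nonneg (norm_nonneg _) _)
      fun i _ => pow_le_one₀ (norm_nonneg _) (hx i).le)

theorem exists_ev {F L : Type*} [Field F] [Fintype F] [NormedField L] [IsUltrametricDist L]
    [CompleteSpace L] [Algebra F L] {n : ℕ} (s : L) (x : Fin n → L) (hs : ‖s‖ < 1)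
    (hx : ∀ i, ‖x i‖ < 1) : ∃ φ : MvPowerSeries (Fin n) (PowerSeries F) →+* L,
      (∀ a : F, φ (MvPowerSeries.C (PowerSeries.C a)) = algebraMap F L a) ∧
      φ (MvPowerSeries.C PowerSeries.X) = s ∧ (∀ i, φ (MvPowerSeries.X i) = x i) ∧
      ∀ G, ‖φ G‖ ≤ 1 := by
  obtain ⟨ψ, h1, h2, h3⟩ := TEv_gen (σ := Unit) (algebraMap F L) norm_F_le (fun _ => s)
    fun _ => hs
  obtain ⟨φ, k1, k2, k3⟩ := TEv_gen (R := PowerSeries F) ψ h3 x hx
  exact ⟨φ, fun a => (k1 _).trans (h1 a), (k1 _).trans (h2 ()), k2, k3⟩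

end Pool.Agent.MP_ee2255_nt.T

end

section

/-! The exponential as a power series. -/

namespace Pool.Agent.MP_ee2255_nt.T

open Polynomial Filter Topology Pool.Agent.MP_655169_nt

universe u

theorem ys_inv {R : Type*} [CommRing R] (w : R) (hw : ∀ m, 0 < m → IsUnit (1 - w ^ m)) (q : ℕ)
    (hq : 1 < q) (k : ℕ) : ∃ b : R, ∀ (L : Type u) [Field L] (ψ : R →+* L) (θ : L),
      θ * ψ w = 1 → ψ b * carlitzD q θ k = 1 := by
  have h : ∀ j, ∃ c : R, j < k → ∀ (L : Type u) [Field L] (ψ : R →+* L) (θ : L),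
      θ * ψ w = 1 → ψ c * (θ ^ q ^ k - θ ^ q ^ j) = 1 := by
    intro j
    by_cases hj : j < k
    · obtain ⟨m, hm⟩ := Nat.exists_eq_add_of_lt (Nat.pow_lt_pow_right hq hj)
      obtain ⟨v, hv⟩ := (hw (m + 1) (Nat.succ_pos m)).exists_left_inv
      refine ⟨v * w ^ q ^ k, fun _ L _ ψ θ hθ => ?_⟩
      have h1 := congrArg ψ hv
      simp only [map_mul, map_sub, map_one, map_pow] at h1 ⊢
      have h2 : ψ w ^ q ^ k * θ ^ q ^ k = 1 := by rw [← mul_pow, mul_comm, hθ, one_pow]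
      have h3 : ψ w ^ q ^ j * θ ^ q ^ j = 1 := by rw [← mul_pow, mul_comm, hθ, one_pow]
      have h4 : ψ w ^ q ^ k = ψ w ^ q ^ j * ψ w ^ (m + 1) := by rw [hm, add_assoc, pow_add]
      rw [mul_assoc, mul_sub, h2, h4, mul_right_comm, h3, one_mul, h1]
    · exact ⟨0, fun h => absurd h hj⟩
  choose c hc using h
  refine ⟨∏ j ∈ Finset.range k, c j, fun L _ ψ θ hθ => ?_⟩
  rw [map_prod, carlitzD, ← Finset.prod_mul_distrib]
  exact Finset.prod_eq_one fun j hj => hc j (Finset.mem_range.1 hj) L ψ θ hθ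

theorem ys_series {R : Type*} [CommRing R] {n : ℕ} (i : Fin n) (q : ℕ) (hq : 1 < q) (b : ℕ → R) :
    ∃ Y : MvPowerSeries (Fin n) R, ∀ K, MvPowerSeries.X i ^ K ∣
      Y - ∑ k ∈ Finset.range K, MvPowerSeries.C (b k) * MvPowerSeries.X i ^ q ^ k := by
  classical
  refine ⟨fun e => ∑ k ∈ Finset.range (e i), if e = Finsupp.single i (q ^ k) then b k else 0,
    fun K => ?_⟩
  rw [MvPowerSeries.X_pow_dvd_iff]
  intro e he
  rw [map_sub, map_sum, sub_eq_zero]
  simp only [MvPowerSeries.coeff_C_mul, MvPowerSeries.coeff_X_pow, mul_ite, mul_one, mul_zero]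
  refine Finset.sum_subset (Finset.range_subset_range.2 he.le) fun k _ hk => if_neg fun h => hk ?_
  rw [h, Finsupp.single_eq_same, Finset.mem_range]
  exact Nat.lt_pow_self hq

theorem exists_Y (F : Type*) [Field F] [Fintype F] {n : ℕ} (i : Fin n) :
    ∃ Y : MvPowerSeries (Fin n) (PowerSeries F), ∀ (L : Type u) [NormedField L]
      [IsUltrametricDist L] (φ : MvPowerSeries (Fin n) (PowerSeries F) →+* L),
      (∀ G, ‖φ G‖ ≤ 1) → φ (MvPowerSeries.C PowerSeries.X) ≠ 0 → ‖φ (MvPowerSeries.X i)‖ < 1 →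
      ‖φ (MvPowerSeries.C PowerSeries.X)‖ < 1 →
      HS F (-(φ (MvPowerSeries.C PowerSeries.X) ^ (qq F - 1))⁻¹) (φ (MvPowerSeries.X i)) (φ Y) := by
  have hq : 1 < qq F := Fintype.one_lt_card
  have hw : ∀ m, 0 < m → IsUnit (1 - (-(PowerSeries.X : PowerSeries F) ^ (qq F - 1)) ^ m) := by
    intro m hm
    rw [PowerSeries.isUnit_iff_constantCoeff]
    have : qq F - 1 ≠ 0 := by omega
    simp [this, hm.ne']
  choose b hb using ys_inv.{u} _ hw (qq F) hq
  obtain ⟨Y, hY⟩ := ys_series i (qq F) hq b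
  refine ⟨Y, fun L _ _ φ h1 h0 hx _ => ?_⟩
  set x := φ (MvPowerSeries.X i) with hxe
  set θ := -(φ (MvPowerSeries.C PowerSeries.X) ^ (qq F - 1))⁻¹ with hθ
  have hb' : ∀ k, x ^ qq F ^ k / carlitzD (qq F) θ k =
      φ (MvPowerSeries.C (b k)) * x ^ qq F ^ k := by
    intro k
    have := hb k L (φ.comp MvPowerSeries.C) θ (by
      simp only [RingHom.comp_apply, map_neg, map_pow, hθ, neg_mul_neg]
      exact inv_mul_cancel₀ (pow_ne_zero _ h0))
    rw [RingHom.comp_apply] at this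
    rw [div_eq_mul_inv, ← eq_inv_of_mul_eq_one_left this, mul_comm]
  unfold HS
  simp only [hb']
  have hx0 := norm_nonneg x
  rw [hasSum_iff_tendsto_nat_of_summable_norm]
  · rw [tendsto_iff_norm_sub_tendsto_zero]
    refine squeeze_zero (fun _ => norm_nonneg _) (fun K => ?_)
      (tendsto_pow_atTop_nhds_zero_of_lt_one hx0 hx)
    obtain ⟨G, hG⟩ := hY K
    have h2 := congrArg φ hG
    simp only [map_sub, map_sum, map_mul, map_pow] at h2
    rw [norm_sub_rev, h2, norm_mul, norm_pow]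
    exact mul_le_of_le_one_right (pow_nonneg hx0 _) (h1 G)
  · refine Summable.of_nonneg_of_le (fun _ => norm_nonneg _) (fun k => ?_)
      (summable_geometric_of_lt_one hx0 hx)
    rw [norm_mul, norm_pow]
    exact (mul_le_of_le_one_left (pow_nonneg hx0 _) (h1 _)).trans
      (pow_le_pow_of_le_one hx0 hx.le (Nat.lt_pow_self hq).le)

end Pool.Agent.MP_ee2255_nt.T

end
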