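import Pool.Agent.MP_655169_nt.Carlitz

section

/-!
Setting for the proof of the two-variable Schanuel statement for the Carlitz exponential.
`F` is the finite constant field with `q` elements, `C` an algebraically closed ultrametric field
containing `θ` with norm above one, `Ω` an algebraically closed ultrametric field containing
`C(t)` with the Gauss norm, and `σ` a ring endomorphism of `Ω` twisting the coefficients.
-/

namespace Pool.Agent.MP_655169_nt

open Polynomial Filter Topology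

/-- The number of elements of the constant field. -/
abbrev qq (F : Type*) [Fintype F] : ℕ := Fintype.card F

/-- The ambient data. -/
structure Sit (F C Ω : Type*) [Fintype F] [NormedField C] [NormedField Ω] [Algebra C Ω] where
  θ : C
  hθ : 1 < ‖θ‖
  fr : C →+* C
  fr_eq : ∀ x, fr x = x ^ qq F
  t : Ω
  σ : Ω →+* Ω
  gauss_le : ∀ (H : C[X]) (j : ℕ), ‖H.coeff j‖ ≤ ‖aeval t H‖
  gauss_ge : ∀ H : C[X], ∃ j, ‖aeval t H‖ ≤ ‖H.coeff j‖
  σ_c : ∀ c : C, σ (algebraMap C Ω c) = algebraMap C Ω (c ^ qq F)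
  σ_t : σ t = t
  σ_norm : ∀ y, ‖σ y‖ = ‖y‖ ^ qq F
  compl : ∀ u : ℕ → Ω, (∀ n, ∃ a b : C[X], u n = aeval t a / aeval t b) → CauchySeq u →
    ∃ y, Tendsto u atTop (𝓝 y)

section

variable {F C Ω : Type*} [Field F] [Fintype F] [NormedField C] [NormedField Ω] [Algebra C Ω]
  (Z : Sit F C Ω)

namespace Sit

/-- The `i`-th term of the exponential series. -/
noncomputable def ee (u : C) (i : ℕ) : C := u ^ qq F ^ i / carlitzD (qq F) Z.θ i

/-- Truncated Anderson generating function. -/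
noncomputable def fm (u : C) (m : ℕ) : Ω :=
  ∑ i ∈ Finset.range m, algebraMap C Ω (Z.ee u i) / (algebraMap C Ω (Z.θ ^ qq F ^ i) - Z.t)

/-- `al` is the exponential of `u` and `f` its Anderson generating function. -/
structure Agf (u al : C) (f : Ω) : Prop where
  hs : HasSum (Z.ee u) al
  lim : Tendsto (Z.fm u) atTop (𝓝 f)

/-- Common denominator of the truncation. -/
noncomputable def den (m : ℕ) : C[X] := ∏ i ∈ Finset.range m, (Polynomial.C (Z.θ ^ qq F ^ i) - X)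

/-- Numerator of the truncation. -/
noncomputable def num (u : C) : ℕ → C[X]
  | 0 => 0
  | m + 1 => num u m * (Polynomial.C (Z.θ ^ qq F ^ m) - X) + Polynomial.C (Z.ee u m) * Z.den m

/-- The `n`-fold twist of the coefficients. -/
noncomputable def tw (n : ℕ) : C[X] →+* C[X] := Polynomial.mapRingHom (Z.fr ^ n)

/-- Twist `n + 1` times and put `t = θ`. -/
noncomputable def evt (n : ℕ) : C[X] →+* C := (Polynomial.evalRingHom Z.θ).comp (Z.tw (n + 1))

/-- Value at `t = θ` of the `(n + 1)`-fold twist of the truncation. -/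
noncomputable def phm (u : C) (n m : ℕ) : C :=
  ∑ i ∈ Finset.range m, Z.ee u i ^ qq F ^ (n + 1) / ((Z.θ ^ qq F ^ i) ^ qq F ^ (n + 1) - Z.θ)

/-- The polynomial `t - θ`. -/
noncomputable def ss : C[X] := X - Polynomial.C Z.θ

end Sit

/-- Value at `t = θ` of the `(n + 1)`-fold twist of the generating function, in any ring. -/
def ph {R : Type*} [CommRing R] (q : ℕ) (θ u al : R) : ℕ → R
  | 0 => al - u
  | n + 1 => al ^ q ^ (n + 1) + (θ - θ ^ q ^ (n + 1)) * ph q θ u al n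

namespace Sit

variable {ι : Type*}

/-- Value of a polynomial over `C[t]` at a point of `Ω`. -/
noncomputable def FF (f : ι → Ω) (P : MvPolynomial ι C[X]) : Ω :=
  MvPolynomial.eval₂ (aeval Z.t : C[X] →ₐ[C] Ω).toRingHom f P

/-- Value at `t = θ` of the `(n + 1)`-fold twist. -/
noncomputable def VV (u al : ι → C) (n : ℕ) (P : MvPolynomial ι C[X]) : C :=
  MvPolynomial.eval₂ (Z.evt n) (fun i => ph (qq F) Z.θ (u i) (al i) n) P

/-- The action of the twist on polynomials in solutions of `σ y = al + (t - θ) y`. -/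
noncomputable def sgt (al : ι → C) (P : MvPolynomial ι C[X]) : MvPolynomial ι C[X] :=
  MvPolynomial.eval₂ (MvPolynomial.C.comp (Z.tw 1))
    (fun i => MvPolynomial.C (Polynomial.C (al i)) + MvPolynomial.C Z.ss * MvPolynomial.X i) P

/-- `y` solves the twisted equation `σ y = al + (t - θ) y`. -/
def Sol (al : C) (y : Ω) : Prop :=
  Z.σ y = algebraMap C Ω al + (Z.t - algebraMap C Ω Z.θ) * y

/-- The polynomial `P` evaluated at the truncations, with denominators cleared. -/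
noncomputable def HH (u : ι → C) (m D : ℕ) (P : MvPolynomial ι C[X]) : C[X] :=
  ∑ e ∈ P.support, P.coeff e * (e.prod fun i k => Z.num (u i) m ^ k) * Z.den m ^ (D - e.degree)

/-- A normalised relation of minimal degree and minimal top support. -/
structure MinRel (y : ι → Ω) (al : ι → C) (P : MvPolynomial ι C[X]) : Prop where
  ne : P ≠ 0
  rel : Z.FF y P = 0
  pos : 0 < P.totalDegree
  low : ∀ R, Z.FF y R = 0 → R.totalDegree < P.totalDegree → R = 0
  top : ∀ R, Z.FF y R = 0 → R.totalDegree ≤ P.totalDegree →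
    (∀ e : ι →₀ ℕ, e.degree = P.totalDegree → P.coeff e = 0 → R.coeff e = 0) →
    ∀ e0 : ι →₀ ℕ, e0.degree = P.totalDegree → P.coeff e0 ≠ 0 → R.coeff e0 = 0 → R = 0
  prim : ∀ c : C[X], (∀ e, c ∣ P.coeff e) → IsUnit c
  inv : Z.sgt al P = MvPolynomial.C (Z.ss ^ P.totalDegree) * P

/-- The pair `(θ, t)`. -/
noncomputable def zz : Fin 2 → Ω := ![algebraMap C Ω Z.θ, Z.t]

/-- Value at `y` of a polynomial over `F[θ, t]`. -/
noncomputable def PV [Algebra F Ω] (Φ : (MvPolynomial (Fin 2) F)[X]) (y : Ω) : Ω :=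
  Φ.eval₂ (MvPolynomial.aeval Z.zz : MvPolynomial (Fin 2) F →ₐ[F] Ω).toRingHom y

/-- Value at `y` of a polynomial over `C[t]`. -/
noncomputable def PW (Ψ : C[X][X]) (y : Ω) : Ω :=
  Ψ.eval₂ (aeval Z.t : C[X] →ₐ[C] Ω).toRingHom y

end Sit

/-- All degrees are at most `D`. -/
def Deg (Φ : (MvPolynomial (Fin 2) F)[X]) (D : ℕ) : Prop :=
  Φ.natDegree ≤ D ∧ ∀ j, (Φ.coeff j).totalDegree ≤ D

/-- Degree and size bounds. -/
structure Bd {ι : Type*} (P : MvPolynomial ι C[X]) (D T : ℕ) (A : ℝ) : Prop where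
  deg : P.totalDegree ≤ D
  tdeg : ∀ e, (P.coeff e).natDegree ≤ T
  size : ∀ e j, ‖(P.coeff e).coeff j‖ ≤ Real.exp A

/-- The norms of the elements of `E` form a discrete set. -/
def Gap (E : Subfield C) (η : ℝ) : Prop :=
  ∀ y ∈ E, ∀ z ∈ E, ‖y‖ < ‖z‖ → ‖y‖ ≤ Real.exp (-η) * ‖z‖

/-- A locally compact subfield: discreteness and the box principle. -/
structure Loc (F : Type*) [Field F] [Algebra F C] (E : Subfield C) (η cS : ℝ) : Prop where
  η_pos : 0 < η
  cS_pos : 0 < cS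
  const : ∀ a : F, algebraMap F C a ∈ E
  gap : Gap E η
  box : ∀ (I J : Type) [Fintype I] [Fintype J] (M : I → J → C) (A B : ℝ), 0 ≤ A → 0 ≤ B →
    (∀ i j, M i j ∈ E ∧ ‖M i j‖ ≤ Real.exp A) →
    (Fintype.card J : ℝ) * (cS * (A + B + 1)) < Fintype.card I →
    ∃ a : I → F, a ≠ 0 ∧ ∀ j, ‖∑ i, a i • M i j‖ ≤ Real.exp (-B)

/-- The auxiliary polynomial. -/
noncomputable def aux [Algebra F C] {ι W : Type*} [Fintype W] {T : ℕ} (a : Fin (T + 1) × W → F)
    (cw : W → C) (ew : W → ι →₀ ℕ) : MvPolynomial ι C[X] :=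
  ∑ x : Fin (T + 1) × W,
    MvPolynomial.monomial (ew x.2) (Polynomial.monomial x.1 (algebraMap F C (a x) * cw x.2))

end

section

variable (F : Type*) {Λ : Type*} [Field F] [Field Λ] [Algebra F Λ]

/-- The values at `y` of polynomials of total degree at most `M`. -/
noncomputable def Vs {ι : Type*} (y : ι → Λ) (M : ℕ) : Submodule F Λ :=
  (MvPolynomial.restrictTotalDegree ι F M).map (MvPolynomial.aeval y).toLinearMap

/-- Polynomial growth of the Hilbert function. -/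
def Grow {ι : Type*} (y : ι → Λ) (c r : ℕ) : Prop :=
  ∀ M, Module.finrank F (Vs F y M) ≤ c * (M + 1) ^ r

/-- `w` is a root of a polynomial of degree at most `d₁` with coefficients of degree at most `d₂`
in `z` and leading coefficient not vanishing at `z`. -/
def Alg {κ : Type*} (z : κ → Λ) (d₁ d₂ : ℕ) (w : Λ) : Prop :=
  ∃ Φ : (MvPolynomial κ F)[X], Φ.natDegree ≤ d₁ ∧ (∀ j, (Φ.coeff j).totalDegree ≤ d₂) ∧
    MvPolynomial.aeval z Φ.leadingCoeff ≠ 0 ∧
    Φ.eval₂ (MvPolynomial.aeval z : MvPolynomial κ F →ₐ[F] Λ).toRingHom w = 0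

end

end Pool.Agent.MP_655169_nt

end

section

set_option linter.unusedSectionVars false

namespace Pool.Agent.MP_655169_nt

open Polynomial Filter Topology

variable {F Λ : Type*} [Field F] [Fintype F] [NormedField Λ] [IsUltrametricDist Λ] [Algebra F Λ]

theorem two_le_qq : 2 ≤ qq F := Fintype.one_lt_card

theorem norm_F_eq (a : F) (ha : a ≠ 0) : ‖algebraMap F Λ a‖ = 1 := by
  have h := FiniteField.pow_card_sub_one_eq_one a ha
  have h2 : ‖algebraMap F Λ a‖ ^ (Fintype.card F - 1) = 1 := by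
    rw [← norm_pow, ← map_pow, h, map_one, norm_one]
  have h3 : Fintype.card F - 1 ≠ 0 := by
    have := Fintype.one_lt_card (α := F)
    omega
  exact (pow_eq_one_iff_of_nonneg (norm_nonneg _) h3).1 h2

theorem norm_F_le (a : F) : ‖algebraMap F Λ a‖ ≤ 1 := by
  by_cases ha : a = 0
  · simp [ha]
  · exact (norm_F_eq a ha).le

theorem Norm1_pow (x y : Λ) (M ε : ℝ) (hM : 1 ≤ M) (hx : ‖x‖ ≤ M) (hy : ‖y‖ ≤ M)
    (h : ‖x - y‖ ≤ ε) (k : ℕ) : ‖x ^ k - y ^ k‖ ≤ M ^ k * ε := by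
  have hε : 0 ≤ ε := (norm_nonneg _).trans h
  have hM0 : 0 ≤ M := by linarith
  induction k with
  | zero => simpa using hε
  | succ k ih =>
    have e : x ^ (k + 1) - y ^ (k + 1) = x * (x ^ k - y ^ k) + (x - y) * y ^ k := by ring
    rw [e]
    refine (IsUltrametricDist.norm_add_le_max _ _).trans (max_le ?_ ?_)
    · rw [norm_mul, pow_succ', mul_assoc]
      gcongr
    · rw [norm_mul, norm_pow, mul_comm]
      calc ‖y‖ ^ k * ‖x - y‖ ≤ M ^ k * ε := by gcongr
        _ ≤ M ^ (k + 1) * ε := by gcongr; omega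

theorem Norm1_prod_le {κ : Type*} (z : κ → Λ) (M : ℝ) (hM : 1 ≤ M) (hz : ∀ k, ‖z k‖ ≤ M)
    (e : κ → ℕ) (s : Finset κ) : ‖∏ i ∈ s, z i ^ e i‖ ≤ M ^ (∑ i ∈ s, e i) := by
  rw [norm_prod, ← Finset.prod_pow_eq_pow_sum]
  refine Finset.prod_le_prod (fun _ _ => norm_nonneg _) fun i _ => ?_
  rw [norm_pow]
  gcongr
  exact hz i

theorem Norm1_prod {κ : Type*} (z z' : κ → Λ) (M ε : ℝ) (hM : 1 ≤ M) (hε : 0 ≤ ε)
    (hz : ∀ k, ‖z k‖ ≤ M) (hz' : ∀ k, ‖z' k‖ ≤ M) (h : ∀ k, ‖z k - z' k‖ ≤ ε) (e : κ → ℕ)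
    (s : Finset κ) :
    ‖∏ i ∈ s, z i ^ e i - ∏ i ∈ s, z' i ^ e i‖ ≤ M ^ (∑ i ∈ s, e i) * ε := by
  classical
  have hM0 : 0 ≤ M := by linarith
  induction s using Finset.induction_on with
  | empty => simpa using hε
  | insert a s ha ih =>
    rw [Finset.prod_insert ha, Finset.prod_insert ha, Finset.sum_insert ha]
    have e1 : z a ^ e a * ∏ i ∈ s, z i ^ e i - z' a ^ e a * ∏ i ∈ s, z' i ^ e i =
        z a ^ e a * (∏ i ∈ s, z i ^ e i - ∏ i ∈ s, z' i ^ e i) +
          (z a ^ e a - z' a ^ e a) * ∏ i ∈ s, z' i ^ e i := by ring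
    rw [e1, pow_add]
    refine (IsUltrametricDist.norm_add_le_max _ _).trans (max_le ?_ ?_)
    · rw [norm_mul, norm_pow, mul_assoc]
      gcongr
      exact hz a
    · rw [norm_mul, mul_right_comm]
      exact mul_le_mul (Norm1_pow _ _ M ε hM (hz a) (hz' a) (h a) _)
        (Norm1_prod_le z' M hM hz' e s) (norm_nonneg _) (by positivity)

theorem norm_eval₂_le {R κ : Type*} [CommRing R] (φ : R →+* Λ) (P : MvPolynomial κ R) (z : κ → Λ)
    (A M : ℝ) (hA0 : 0 ≤ A) (hA : ∀ e, ‖φ (P.coeff e)‖ ≤ A) (hM : 1 ≤ M) (hz : ∀ k, ‖z k‖ ≤ M)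
    (d : ℕ) (hd : P.totalDegree ≤ d) : ‖MvPolynomial.eval₂ φ z P‖ ≤ A * M ^ d := by
  rw [MvPolynomial.eval₂_eq]
  refine IsUltrametricDist.norm_sum_le_of_forall_le_of_nonneg (by positivity) fun e he => ?_
  rw [norm_mul]
  refine mul_le_mul (hA e) ((Norm1_prod_le z M hM hz e _).trans ?_) (norm_nonneg _) hA0
  exact pow_le_pow_right₀ hM ((MvPolynomial.le_totalDegree he).trans hd)

theorem norm_aeval_le {κ : Type*} (z : κ → Λ) (M : ℝ) (hM : 1 ≤ M) (hz : ∀ k, ‖z k‖ ≤ M)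
    (b : MvPolynomial κ F) (d : ℕ) (hd : b.totalDegree ≤ d) :
    ‖MvPolynomial.aeval z b‖ ≤ M ^ d := by
  have := norm_eval₂_le (algebraMap F Λ) b z 1 M zero_le_one (fun e => norm_F_le _) hM hz d hd
  rwa [one_mul] at this

theorem lip_eval₂ {R κ : Type*} [CommRing R] (φ : R →+* Λ) (P : MvPolynomial κ R) (z z' : κ → Λ)
    (A M ε : ℝ) (hA0 : 0 ≤ A) (hA : ∀ e, ‖φ (P.coeff e)‖ ≤ A) (hM : 1 ≤ M) (hε : 0 ≤ ε)
    (hz : ∀ k, ‖z k‖ ≤ M) (hz' : ∀ k, ‖z' k‖ ≤ M) (h : ∀ k, ‖z k - z' k‖ ≤ ε) (d : ℕ)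
    (hd : P.totalDegree ≤ d) :
    ‖MvPolynomial.eval₂ φ z P - MvPolynomial.eval₂ φ z' P‖ ≤ A * M ^ d * ε := by
  rw [MvPolynomial.eval₂_eq, MvPolynomial.eval₂_eq, ← Finset.sum_sub_distrib]
  refine IsUltrametricDist.norm_sum_le_of_forall_le_of_nonneg (by positivity) fun e he => ?_
  rw [← mul_sub, norm_mul, mul_assoc]
  refine mul_le_mul (hA e) ((Norm1_prod z z' M ε hM hε hz hz' h e _).trans ?_) (norm_nonneg _) hA0
  exact mul_le_mul_of_nonneg_right
    (pow_le_pow_right₀ hM ((MvPolynomial.le_totalDegree he).trans hd)) hε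

theorem lip_aeval {κ : Type*} (z z' : κ → Λ) (M ε : ℝ) (hM : 1 ≤ M) (hε : 0 ≤ ε)
    (hz : ∀ k, ‖z k‖ ≤ M) (hz' : ∀ k, ‖z' k‖ ≤ M) (h : ∀ k, ‖z k - z' k‖ ≤ ε)
    (b : MvPolynomial κ F) (d : ℕ) (hd : b.totalDegree ≤ d) :
    ‖MvPolynomial.aeval z b - MvPolynomial.aeval z' b‖ ≤ M ^ d * ε := by
  have := lip_eval₂ (algebraMap F Λ) b z z' 1 M ε zero_le_one (fun e => norm_F_le _) hM hε hz hz'
    h d hd
  rwa [one_mul] at this

theorem lip_poly {R : Type*} [CommRing R] (φ : R →+* Λ) (P : R[X]) (y y' : Λ) (A M : ℝ)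
    (hA : ∀ j, ‖φ (P.coeff j)‖ ≤ A) (hM : 1 ≤ M) (hy : ‖y‖ ≤ M) (hy' : ‖y'‖ ≤ M) (d : ℕ)
    (hd : P.natDegree ≤ d) : ‖P.eval₂ φ y - P.eval₂ φ y'‖ ≤ A * M ^ d * ‖y - y'‖ := by
  have hA0 : 0 ≤ A := (norm_nonneg _).trans (hA 0)
  rw [eval₂_eq_sum_range, eval₂_eq_sum_range, ← Finset.sum_sub_distrib]
  refine IsUltrametricDist.norm_sum_le_of_forall_le_of_nonneg (by positivity) fun j hj => ?_
  rw [← mul_sub, norm_mul, mul_assoc]
  refine mul_le_mul (hA j) ((Norm1_pow y y' M _ hM hy hy' le_rfl j).trans ?_) (norm_nonneg _) hA0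
  have : j ≤ d := by
    have := Finset.mem_range.1 hj
    omega
  exact mul_le_mul_of_nonneg_right (pow_le_pow_right₀ hM this) (norm_nonneg _)

end Pool.Agent.MP_655169_nt

end

section

set_option linter.unusedSectionVars false

namespace Pool.Agent.MP_655169_nt

open Polynomial Filter Topology

variable {F Λ : Type*} [Field F] [Fintype F] [NormedField Λ] [IsUltrametricDist Λ] [Algebra F Λ]

theorem norm_low (c : ℕ → Λ) (A : ℝ) (hA0 : 0 ≤ A) (hA : ∀ j, ‖c j‖ ≤ A) (ξ : Λ) (hξ : 1 ≤ ‖ξ‖)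
    (n : ℕ) : ‖∑ j ∈ Finset.range n, c j * ξ ^ j‖ * ‖ξ‖ ≤ A * ‖ξ‖ ^ n := by
  rw [← norm_mul, Finset.sum_mul]
  refine IsUltrametricDist.norm_sum_le_of_forall_le_of_nonneg (by positivity) fun j hj => ?_
  rw [mul_assoc, ← pow_succ, norm_mul, norm_pow]
  exact mul_le_mul (hA j) (pow_le_pow_right₀ hξ (Finset.mem_range.1 hj)) (by positivity) hA0

theorem norm_poly (θ : Λ) (hθ : 1 < ‖θ‖) (b : F[X]) (hb : b ≠ 0) :
    ‖aeval θ b‖ = ‖θ‖ ^ b.natDegree := by
  have h0 : 0 < ‖θ‖ ^ b.natDegree := by positivity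
  have h1 := norm_low (fun j => algebraMap F Λ (b.coeff j)) 1 zero_le_one
    (fun j => norm_F_le _) θ hθ.le b.natDegree
  have h2 : ‖algebraMap F Λ (b.coeff b.natDegree) * θ ^ b.natDegree‖ = ‖θ‖ ^ b.natDegree := by
    rw [norm_mul, norm_pow, norm_F_eq (b.coeff b.natDegree) (leadingCoeff_ne_zero.2 hb),
      one_mul]
  have h3 : ‖∑ j ∈ Finset.range b.natDegree, algebraMap F Λ (b.coeff j) * θ ^ j‖ <
      ‖θ‖ ^ b.natDegree := by
    by_contra h
    have h4 := mul_le_mul_of_nonneg_right (not_lt.1 h) (norm_nonneg θ)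
    nlinarith
  rw [aeval_eq_sum_range, Finset.sum_range_succ]
  simp only [Algebra.smul_def]
  rw [IsUltrametricDist.norm_add_eq_max_of_norm_ne_norm (by rw [h2]; exact h3.ne), h2,
    max_eq_right h3.le]

theorem liou1 (θ : Λ) (hθ : 1 < ‖θ‖) (b : MvPolynomial (Fin 1) F) (hb : b ≠ 0) :
    1 ≤ ‖MvPolynomial.aeval ![θ] b‖ := by
  have h : (MvPolynomial.aeval ![θ] : MvPolynomial (Fin 1) F →ₐ[F] Λ) =
      (aeval θ : F[X] →ₐ[F] Λ).comp (MvPolynomial.uniqueAlgEquiv F (Fin 1)).toAlgHom := by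
    refine MvPolynomial.algHom_ext fun i => ?_
    have hi : i = 0 := Subsingleton.elim _ _
    subst hi
    simp
  have h1 : MvPolynomial.aeval ![θ] b = aeval θ (MvPolynomial.uniqueAlgEquiv F (Fin 1) b) := by
    rw [h]
    rfl
  rw [h1, norm_poly θ hθ _ ((map_ne_zero_iff _ (AlgEquiv.injective _)).2 hb)]
  exact one_le_pow₀ hθ.le

theorem indep1 (θ : Λ) (hθ : 1 < ‖θ‖) : AlgebraicIndependent F ![θ] := by
  rw [algebraicIndependent_iff]
  intro b hb
  by_contra h
  have h1 := liou1 θ hθ b h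
  rw [hb, norm_zero] at h1
  linarith

theorem root_near [IsAlgClosed Λ] (Φ : Λ[X]) (h : 0 < Φ.natDegree) (y : Λ) :
    ∃ ξ, Φ.eval ξ = 0 ∧ ‖Φ.leadingCoeff‖ * ‖y - ξ‖ ^ Φ.natDegree ≤ ‖Φ.eval y‖ := by
  classical
  have hs := IsAlgClosed.splits Φ
  have hc := hs.natDegree_eq_card_roots
  have hne : Φ.roots.toFinset.Nonempty := by
    rw [Multiset.toFinset_nonempty, ← Multiset.card_pos]
    omega
  obtain ⟨ξ, hξ, hmin⟩ := Finset.exists_min_image Φ.roots.toFinset (fun a => ‖y - a‖) hne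
  refine ⟨ξ, isRoot_of_mem_roots (Multiset.mem_toFinset.1 hξ), ?_⟩
  rw [hs.eval_eq_prod_roots, norm_mul, hc]
  refine mul_le_mul_of_nonneg_left ?_ (norm_nonneg _)
  have key : ∀ s : Multiset Λ, (∀ a ∈ s, ‖y - ξ‖ ≤ ‖y - a‖) →
      ‖y - ξ‖ ^ s.card ≤ ‖(s.map (y - ·)).prod‖ := by
    intro s
    induction s using Multiset.induction_on with
    | empty => simp
    | cons a s ih =>
      intro hs
      rw [Multiset.map_cons, Multiset.prod_cons, Multiset.card_cons, norm_mul, pow_succ']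
      exact mul_le_mul (hs a (Multiset.mem_cons_self _ _))
        (ih fun b hb => hs b (Multiset.mem_cons_of_mem hb)) (by positivity) (norm_nonneg _)
  exact key _ fun a ha => hmin a (Multiset.mem_toFinset.2 ha)

theorem root_le (Φ : Λ[X]) (A : ℝ) (hA1 : 1 ≤ A) (hA : ∀ j, ‖Φ.coeff j‖ ≤ A)
    (hl : 1 ≤ ‖Φ.leadingCoeff‖) (ξ : Λ) (h : Φ.eval ξ = 0) : ‖ξ‖ ≤ A := by
  by_contra hlt
  have h0 : A < ‖ξ‖ := not_le.1 hlt
  have h1 := norm_low Φ.coeff A (by linarith) hA ξ (by linarith) Φ.natDegree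
  rw [eval_eq_sum_range, Finset.sum_range_succ, add_eq_zero_iff_eq_neg] at h
  rw [h, norm_neg, norm_mul, norm_pow] at h1
  have h2 : 0 < ‖ξ‖ ^ Φ.natDegree := pow_pos (by linarith) _
  have h3 : ‖ξ‖ ^ Φ.natDegree * ‖ξ‖ ≤
      ‖Φ.coeff Φ.natDegree‖ * ‖ξ‖ ^ Φ.natDegree * ‖ξ‖ := by
    rw [mul_assoc]
    exact le_mul_of_one_le_left (by positivity) hl
  nlinarith

theorem norm_step {κ : Type*} (z : κ → Λ) (M : ℝ) (hM : 1 ≤ M) (hz : ∀ k, ‖z k‖ ≤ M) (d₁ d₂ : ℕ)
    (η : Λ) (h : Alg F z d₁ d₂ η) (h0 : η ≠ 0) (h1 : ‖η‖ ≤ 1) :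
    ∃ b : MvPolynomial κ F, b ≠ 0 ∧ b.totalDegree ≤ d₂ ∧
      ‖MvPolynomial.aeval z b‖ ≤ M ^ d₂ * ‖η‖ := by
  classical
  obtain ⟨Φ, -, hd, hl, hΦ⟩ := h
  have hex : ∃ j, MvPolynomial.aeval z (Φ.coeff j) ≠ 0 := ⟨Φ.natDegree, hl⟩
  have hj := Nat.find_spec hex
  have hjn : Nat.find hex ≤ Φ.natDegree := Nat.find_min' hex hl
  set j := Nat.find hex with hjdef
  refine ⟨Φ.coeff j, fun hb => hj (by rw [hb, map_zero]), hd j, ?_⟩
  have hη : 0 < ‖η‖ := norm_pos_iff.2 h0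
  rw [eval₂_eq_sum_range, ← Finset.add_sum_erase _ _ (Finset.mem_range.2 (Nat.lt_succ_of_le hjn)),
    add_eq_zero_iff_eq_neg] at hΦ
  have h2 : ‖MvPolynomial.aeval z (Φ.coeff j) * η ^ j‖ ≤ M ^ d₂ * ‖η‖ * ‖η‖ ^ j := by
    refine (congrArg norm hΦ).trans_le ?_
    rw [norm_neg]
    refine IsUltrametricDist.norm_sum_le_of_forall_le_of_nonneg (by positivity) fun i hi => ?_
    change ‖MvPolynomial.aeval z (Φ.coeff i) * η ^ i‖ ≤ _
    rcases lt_or_gt_of_ne (Finset.mem_erase.1 hi).1 with h3 | h3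
    · rw [not_not.1 (Nat.find_min hex h3), zero_mul, norm_zero]
      positivity
    · rw [norm_mul, norm_pow, mul_assoc, ← pow_succ']
      exact mul_le_mul (norm_aeval_le z M hM hz _ _ (hd i))
        (pow_le_pow_of_le_one hη.le h1 h3) (by positivity) (by positivity)
  rw [norm_mul, norm_pow] at h2
  exact le_of_mul_le_mul_right h2 (pow_pos hη j)

end Pool.Agent.MP_655169_nt

end

section

set_option linter.unusedSectionVars false

namespace Pool.Agent.MP_655169_nt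

open Polynomial Filter Topology

variable {F C Ω : Type*} [Field F] [Fintype F] [NormedField C] [IsUltrametricDist C]
  [IsAlgClosed C] [Algebra F C] [NormedField Ω] [IsUltrametricDist Ω] [IsAlgClosed Ω]
  [Algebra C Ω] [Algebra F Ω] [IsScalarTower F C Ω] (Z : Sit F C Ω)

namespace Sit

theorem norm_alg (Z : Sit F C Ω) (c : C) : ‖algebraMap C Ω c‖ = ‖c‖ := by
  have h1 := Z.gauss_le (Polynomial.C c) 0
  obtain ⟨j, h2⟩ := Z.gauss_ge (Polynomial.C c)
  rw [aeval_C] at h1 h2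
  rw [coeff_C_zero] at h1
  refine le_antisymm (h2.trans ?_) h1
  rw [coeff_C]
  split_ifs <;> simp

theorem norm_t : ‖Z.t‖ = 1 := by
  have h1 := Z.gauss_le X 1
  obtain ⟨j, h2⟩ := Z.gauss_ge X
  rw [aeval_X] at h1 h2
  rw [coeff_X_one, norm_one] at h1
  refine le_antisymm (h2.trans ?_) h1
  rw [coeff_X]
  split_ifs <;> simp

theorem norm_aeval_le (H : C[X]) (A : ℝ) (h : ∀ j, ‖H.coeff j‖ ≤ A) : ‖aeval Z.t H‖ ≤ A := by
  obtain ⟨j, h2⟩ := Z.gauss_ge H
  exact h2.trans (h j)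

theorem aeval_ne (H : C[X]) (h : H ≠ 0) : aeval Z.t H ≠ 0 := by
  intro h0
  apply h
  ext j
  have h1 := Z.gauss_le H j
  rw [h0, norm_zero] at h1
  simpa using h1

theorem norm_sub_t (c : C) (hc : 1 ≤ ‖c‖) : ‖algebraMap C Ω c - Z.t‖ = ‖c‖ := by
  have e : algebraMap C Ω c - Z.t = aeval Z.t (Polynomial.C c - X) := by simp
  rw [e]
  refine le_antisymm (Z.norm_aeval_le _ _ fun j => ?_) ?_
  · rw [coeff_sub, coeff_C, coeff_X]
    split_ifs with h1 h2 h2
    · omega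
    · simp
    · simpa using hc
    · simp
  · have h1 := Z.gauss_le (Polynomial.C c - X) 0
    rwa [coeff_sub, coeff_C_zero, coeff_X_zero, sub_zero] at h1

theorem norm_deriv_le (H : C[X]) : ‖aeval Z.t (derivative H)‖ ≤ ‖aeval Z.t H‖ := by
  refine Z.norm_aeval_le _ _ fun j => ?_
  rw [coeff_derivative, norm_mul]
  have h1 : ‖(j : C) + 1‖ ≤ 1 := by
    simpa using IsUltrametricDist.norm_natCast_le_one C (j + 1)
  exact (mul_le_of_le_one_right (norm_nonneg _) h1).trans (Z.gauss_le H _)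

theorem fr_pow (n : ℕ) (x : C) : (Z.fr ^ n) x = x ^ qq F ^ n := by
  induction n generalizing x with
  | zero => simp
  | succ n ih => rw [pow_succ', RingHom.mul_def, RingHom.comp_apply, ih, Z.fr_eq, ← pow_mul,
      ← pow_succ]

theorem fr_bij : Function.Bijective Z.fr := by
  refine ⟨Z.fr.injective, fun y => ?_⟩
  obtain ⟨x, hx⟩ := IsAlgClosed.exists_pow_nat_eq y (n := qq F) Fintype.card_pos
  exact ⟨x, by rw [Z.fr_eq, hx]⟩

theorem fr_F (n : ℕ) (a : F) : (Z.fr ^ n) (algebraMap F C a) = algebraMap F C a := by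
  rw [Z.fr_pow, ← map_pow, FiniteField.pow_card_pow]

theorem σ_F (a : F) : Z.σ (algebraMap F Ω a) = algebraMap F Ω a := by
  rw [IsScalarTower.algebraMap_apply F C Ω, Z.σ_c, ← map_pow, FiniteField.pow_card]

theorem σ_aeval (H : C[X]) : Z.σ (aeval Z.t H) = aeval Z.t (Z.tw 1 H) := by
  induction H using Polynomial.induction_on' with
  | add p q hp hq => simp only [map_add, hp, hq]
  | monomial n a =>
    simp only [tw, coe_mapRingHom, Polynomial.map_monomial, aeval_monomial, map_mul, map_pow,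
      Z.σ_c, Z.σ_t, pow_one, Z.fr_eq]

theorem σ_cont : Continuous Z.σ := by
  refine continuous_of_continuousAt_zero Z.σ.toAddMonoidHom ?_
  have h0 : qq F ≠ 0 := Fintype.card_ne_zero
  rw [ContinuousAt, map_zero, tendsto_zero_iff_norm_tendsto_zero]
  have h1 : Tendsto (fun y : Ω => ‖y‖ ^ qq F) (𝓝 0) (𝓝 (‖(0 : Ω)‖ ^ qq F)) :=
    (continuous_norm.pow _).tendsto 0
  rw [norm_zero, zero_pow h0] at h1
  exact h1.congr fun y => (Z.σ_norm y).symm

theorem tw_succ (n : ℕ) (H : C[X]) : Z.tw n (Z.tw 1 H) = Z.tw (n + 1) H := by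
  simp only [tw, coe_mapRingHom, Polynomial.map_map]
  rw [pow_one, pow_succ, RingHom.mul_def]

theorem tw_bij : Function.Bijective (Z.tw 1) := by
  simp only [tw, coe_mapRingHom, pow_one]
  exact ⟨Polynomial.map_injective _ Z.fr_bij.1, Polynomial.map_surjective _ Z.fr_bij.2⟩

theorem tw_natDegree (n : ℕ) (H : C[X]) : (Z.tw n H).natDegree = H.natDegree := by
  simp only [tw, coe_mapRingHom]
  exact natDegree_map_eq_of_injective (Z.fr ^ n).injective H

end Sit

end Pool.Agent.MP_655169_nt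

end

section

set_option linter.unusedSectionVars false

namespace Pool.Agent.MP_655169_nt

open Polynomial Filter Topology

variable {F C Ω : Type*} [Field F] [Fintype F] [NormedField C] [IsUltrametricDist C]
  [IsAlgClosed C] [Algebra F C] [NormedField Ω] [IsUltrametricDist Ω] [IsAlgClosed Ω]
  [Algebra C Ω] [Algebra F Ω] [IsScalarTower F C Ω] (Z : Sit F C Ω)

theorem SitB_prod (x : C) : x ^ qq F - x = ∏ a : F, (x - algebraMap F C a) := by
  have hm : (X ^ Fintype.card F - X : F[X]).Monic :=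
    monic_X_pow_sub (by rw [degree_X]; exact_mod_cast Fintype.one_lt_card)
  have hd := FiniteField.X_pow_card_sub_X_natDegree_eq F (Fintype.one_lt_card (α := F))
  have hr := FiniteField.roots_X_pow_card_sub_X F
  have h := prod_multiset_X_sub_C_of_monic_of_roots_card_eq hm (by rw [hr, hd]; rfl)
  rw [hr] at h
  have h2 := congrArg (aeval x) h
  rw [map_sub, map_pow, aeval_X] at h2
  rw [← h2]
  change aeval x (∏ a : F, (X - Polynomial.C a)) = _
  simp [map_prod]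

theorem near_F (x : C) (h : ‖x ^ qq F - x‖ < 1) : ∃ a : F, ‖x - algebraMap F C a‖ < 1 := by
  by_contra hc
  push Not at hc
  rw [SitB_prod, norm_prod] at h
  exact absurd h (not_lt.2 (Finset.one_le_prod fun a _ => hc a))

theorem fixed_F (x : C) (h : x ^ qq F = x) : ∃ a : F, x = algebraMap F C a := by
  have h2 := SitB_prod (F := F) x
  rw [h, sub_self] at h2
  obtain ⟨a, -, ha⟩ := Finset.prod_eq_zero_iff.1 h2.symm
  exact ⟨a, sub_eq_zero.1 ha⟩

namespace Sit

theorem evt_C (n : ℕ) (c : C) : Z.evt n (Polynomial.C c) = c ^ qq F ^ (n + 1) := by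
  simp [evt, tw, fr_pow]

theorem evt_X (n : ℕ) : Z.evt n X = Z.θ := by
  simp [evt, tw]

theorem evt_map (n : ℕ) (B : F[X]) : Z.evt n (B.map (algebraMap F C)) = aeval Z.θ B := by
  have : (Z.fr ^ (n + 1)).comp (algebraMap F C) = algebraMap F C := RingHom.ext (Z.fr_F _)
  simp [evt, tw, Polynomial.map_map, this, eval_map_algebraMap]

theorem evt_eq_sum (n : ℕ) (H : C[X]) (N : ℕ) (hN : H.natDegree < N) :
    Z.evt n H = ∑ j ∈ Finset.range N, H.coeff j ^ qq F ^ (n + 1) * Z.θ ^ j := by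
  conv_lhs => rw [H.as_sum_range' N hN]
  rw [map_sum]
  refine Finset.sum_congr rfl fun j _ => ?_
  rw [← C_mul_X_pow_eq_monomial, map_mul, map_pow, evt_C, evt_X]

theorem norm_map_F (B : F[X]) (hB : B ≠ 0) : ‖aeval Z.t (B.map (algebraMap F C))‖ = 1 := by
  apply le_antisymm
  · exact Z.norm_aeval_le _ _ fun j => by rw [coeff_map]; exact norm_F_le _
  · have := Z.gauss_le (B.map (algebraMap F C)) B.natDegree
    rwa [coeff_map, coeff_natDegree, norm_F_eq _ (leadingCoeff_ne_zero.2 hB)] at this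

theorem tw_fixed (H : C[X]) (h : Z.tw 1 H = H) : ∃ B : F[X], H = B.map (algebraMap F C) := by
  have : H ∈ Polynomial.lifts (algebraMap F C) := by
    rw [lifts_iff_coeff_lifts]
    intro j
    have h2 := congrArg (fun G => G.coeff j) h
    simp only [tw, coe_mapRingHom, coeff_map, pow_one, Z.fr_eq] at h2
    obtain ⟨a, ha⟩ := fixed_F (F := F) _ h2
    exact ⟨a, ha.symm⟩
  obtain ⟨B, hB⟩ := (mem_lifts _).1 this
  exact ⟨B, hB.symm⟩

theorem SitB_map (Ψ : F[X][X]) :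
    MvPolynomial.aeval Z.zz (Bivariate.equivMvPolynomial F Ψ) =
      aeval Z.t (Ψ.map (aeval Z.θ : F[X] →ₐ[F] C).toRingHom) := by
  induction Ψ using Polynomial.induction_on with
  | C a =>
    induction a using Polynomial.induction_on with
    | C a => simp [IsScalarTower.algebraMap_apply F C Ω]
    | add a b ha hb => simp only [map_add, Polynomial.map_add, ha, hb]
    | monomial n a ha =>
      simp only [pow_succ, ← mul_assoc, map_mul, Polynomial.map_mul] at ha ⊢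
      rw [ha]
      simp [zz]
  | add a b ha hb => simp only [map_add, Polynomial.map_add, ha, hb]
  | monomial n a ha =>
    simp only [pow_succ, ← mul_assoc, map_mul, Polynomial.map_mul] at ha ⊢
    rw [ha]
    simp [zz]

theorem liou2 (b : MvPolynomial (Fin 2) F) (hb : b ≠ 0) : 1 ≤ ‖MvPolynomial.aeval Z.zz b‖ := by
  obtain ⟨Ψ, rfl⟩ := (Bivariate.equivMvPolynomial F).surjective b
  have h0 : Ψ ≠ 0 := by
    rintro rfl
    simp at hb
  rw [SitB_map]
  refine le_trans ?_ (Z.gauss_le _ Ψ.natDegree)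
  rw [coeff_map]
  change 1 ≤ ‖aeval Z.θ Ψ.leadingCoeff‖
  rw [norm_poly Z.θ Z.hθ _ (leadingCoeff_ne_zero.2 h0)]
  exact one_le_pow₀ Z.hθ.le

theorem indep2 : AlgebraicIndependent F Z.zz := by
  rw [algebraicIndependent_iff]
  intro b hb
  by_contra h0
  have := Z.liou2 b h0
  rw [hb, norm_zero] at this
  exact absurd this (by norm_num)

theorem norm_zz (k : Fin 2) : ‖Z.zz k‖ ≤ ‖Z.θ‖ := by
  fin_cases k
  · exact (Z.norm_alg _).le
  · exact Z.norm_t.le.trans Z.hθ.le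

theorem SitB_g (b : MvPolynomial (Fin 2) F) :
    aeval Z.t (MvPolynomial.aeval ![Polynomial.C Z.θ, (X : C[X])] b) =
      MvPolynomial.aeval Z.zz b := by
  induction b using MvPolynomial.induction_on with
  | C a => simp [IsScalarTower.algebraMap_apply F C Ω]
  | add a b ha hb => simp only [map_add, ha, hb]
  | mul_X a i ha =>
    simp only [map_mul, ha]
    fin_cases i <;> simp [zz]

theorem SitB_deg (b : MvPolynomial (Fin 2) F) :
    (MvPolynomial.aeval ![Polynomial.C Z.θ, (X : C[X])] b).natDegree ≤ b.totalDegree := by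
  rw [MvPolynomial.aeval_def, MvPolynomial.eval₂_eq']
  refine natDegree_sum_le_of_forall_le _ _ fun e he => ?_
  rw [Fin.prod_univ_two]
  have h1 := MvPolynomial.le_totalDegree he
  rw [Finsupp.sum_fintype _ _ (fun _ => rfl), Fin.sum_univ_two] at h1
  have : (algebraMap F C[X]) (b.coeff e) * (Polynomial.C Z.θ ^ e 0 * X ^ e 1) =
      Polynomial.C (algebraMap F C (b.coeff e) * Z.θ ^ e 0) * X ^ e 1 := by
    simp [mul_assoc]
  change ((algebraMap F C[X]) (b.coeff e) * (Polynomial.C Z.θ ^ e 0 * X ^ e 1)).natDegree ≤ _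
  rw [this]
  exact (natDegree_C_mul_X_pow_le _ _).trans (by omega)

/-- A polynomial over `F[θ, t]` seen over `C[t]`. -/
theorem exists_psi (Φ : (MvPolynomial (Fin 2) F)[X]) (D : ℕ) (hΦ : Φ ≠ 0) (hD : Deg Φ D) :
    ∃ Ψ : C[X][X], Ψ ≠ 0 ∧ Ψ.natDegree ≤ D ∧ (∀ j, (Ψ.coeff j).natDegree ≤ D) ∧
      (∀ j, ‖aeval Z.t (Ψ.coeff j)‖ ≤ ‖Z.θ‖ ^ D) ∧ 1 ≤ ‖aeval Z.t Ψ.leadingCoeff‖ ∧
      ∀ y, Z.PW Ψ y = Z.PV Φ y := by
  let g : MvPolynomial (Fin 2) F →+* C[X] :=
    (MvPolynomial.aeval ![Polynomial.C Z.θ, (X : C[X])] : MvPolynomial (Fin 2) F →ₐ[F] C[X])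
  have hg : ∀ b, aeval Z.t (g b) = MvPolynomial.aeval Z.zz b := Z.SitB_g
  have hl := Z.liou2 _ (leadingCoeff_ne_zero.2 hΦ)
  have hl0 : g Φ.leadingCoeff ≠ 0 := by
    intro h
    rw [← hg, h, map_zero, norm_zero] at hl
    exact absurd hl (by norm_num)
  have hlc := leadingCoeff_map_of_leadingCoeff_ne_zero g hl0
  refine ⟨Φ.map g, ?_, natDegree_map_le.trans hD.1, fun j => ?_, fun j => ?_, ?_, fun y => ?_⟩
  · rw [← leadingCoeff_ne_zero, hlc]
    exact hl0
  · rw [coeff_map]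
    exact (Z.SitB_deg _).trans (hD.2 j)
  · rw [coeff_map, hg]
    exact MP_655169_nt.norm_aeval_le _ _ Z.hθ.le Z.norm_zz _ _ (hD.2 j)
  · rw [hlc, hg]
    exact hl
  · rw [PW, PV, eval₂_map]
    congr 1
    exact RingHom.ext hg

end Sit

end Pool.Agent.MP_655169_nt

end

section

set_option linter.unusedSectionVars false

namespace Pool.Agent.MP_655169_nt

open Polynomial Filter Topology

variable {F C Ω : Type*} [Field F] [Fintype F] [NormedField C] [IsUltrametricDist C]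
  [IsAlgClosed C] [Algebra F C] [NormedField Ω] [IsUltrametricDist Ω] [IsAlgClosed Ω]
  [Algebra C Ω] [Algebra F Ω] [IsScalarTower F C Ω] (Z : Sit F C Ω)

namespace Sit

theorem trunc1_den_succ (m : ℕ) :
    Z.den (m + 1) = Z.den m * (Polynomial.C (Z.θ ^ qq F ^ m) - X) := by
  unfold den
  rw [Finset.prod_range_succ]

theorem trunc1_den_zero : Z.den 0 = 1 := by
  unfold den
  simp

theorem trunc1_one_lt (i : ℕ) : 1 < ‖Z.θ ^ qq F ^ i‖ := by
  rw [norm_pow]
  have h2 : 2 ≤ qq F := two_le_qq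
  exact one_lt_pow₀ Z.hθ (pow_ne_zero _ (by omega))

theorem trunc1_norm_fac (i : ℕ) :
    ‖algebraMap C Ω (Z.θ ^ qq F ^ i) - Z.t‖ = ‖Z.θ ^ qq F ^ i‖ :=
  Z.norm_sub_t _ (Z.trunc1_one_lt i).le

theorem trunc1_fac_ne (i : ℕ) : algebraMap C Ω (Z.θ ^ qq F ^ i) - Z.t ≠ 0 := by
  intro h
  have h1 := Z.trunc1_norm_fac i
  have h2 := Z.trunc1_one_lt i
  rw [h, norm_zero] at h1
  linarith

theorem trunc1_aeval_fac (c : C) :
    aeval Z.t (Polynomial.C c - X) = algebraMap C Ω c - Z.t := by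
  rw [map_sub, aeval_C, aeval_X]

theorem trunc1_evt_fac (n : ℕ) (c : C) :
    Z.evt n (Polynomial.C c - X) = c ^ qq F ^ (n + 1) - Z.θ := by
  rw [map_sub, Z.evt_C, Z.evt_X]

theorem trunc1_norm_evt_fac (n i : ℕ) :
    ‖(Z.θ ^ qq F ^ i) ^ qq F ^ (n + 1) - Z.θ‖ = ‖Z.θ ^ qq F ^ i‖ ^ qq F ^ (n + 1) := by
  have h2 : 2 ≤ qq F := two_le_qq
  have hlt : ‖Z.θ‖ < ‖(Z.θ ^ qq F ^ i) ^ qq F ^ (n + 1)‖ := by
    rw [← pow_mul, norm_pow]
    have h1 : 1 < qq F ^ i * qq F ^ (n + 1) := by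
      rw [← pow_add]
      exact Nat.one_lt_pow (by omega) (by omega)
    calc ‖Z.θ‖ = ‖Z.θ‖ ^ 1 := (pow_one _).symm
      _ < _ := pow_lt_pow_right₀ Z.hθ h1
  have hne : ‖(Z.θ ^ qq F ^ i) ^ qq F ^ (n + 1)‖ ≠ ‖-Z.θ‖ := by
    rw [norm_neg]; exact hlt.ne'
  rw [sub_eq_add_neg, IsUltrametricDist.norm_add_eq_max_of_norm_ne_norm hne, norm_neg,
    max_eq_left hlt.le, norm_pow]

theorem trunc1_evt_fac_ne (n i : ℕ) : (Z.θ ^ qq F ^ i) ^ qq F ^ (n + 1) - Z.θ ≠ 0 := by
  intro h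
  have h1 := Z.trunc1_norm_evt_fac n i
  have h2 := Z.trunc1_one_lt i
  rw [h, norm_zero] at h1
  have h3 : 0 < ‖Z.θ ^ qq F ^ i‖ ^ qq F ^ (n + 1) := pow_pos (by linarith) _
  linarith

theorem trunc1_fac_deg (c : C) : (Polynomial.C c - X).natDegree ≤ 1 := by
  refine (natDegree_sub_le _ _).trans ?_
  rw [natDegree_C, natDegree_X]
  simp

theorem den_ne (m : ℕ) : aeval Z.t (Z.den m) ≠ 0 := by
  induction m with
  | zero => rw [trunc1_den_zero, map_one]; exact one_ne_zero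
  | succ m ih =>
    rw [trunc1_den_succ, map_mul, trunc1_aeval_fac]
    exact mul_ne_zero ih (Z.trunc1_fac_ne m)

theorem norm_den (m : ℕ) :
    ‖aeval Z.t (Z.den m)‖ = ‖∏ i ∈ Finset.range m, Z.θ ^ qq F ^ i‖ := by
  induction m with
  | zero => rw [trunc1_den_zero, map_one]; simp
  | succ m ih =>
    rw [trunc1_den_succ, map_mul, trunc1_aeval_fac, Finset.prod_range_succ, norm_mul, norm_mul, ih,
      trunc1_norm_fac]

theorem norm_evt_den (n m : ℕ) :
    ‖Z.evt n (Z.den m)‖ = ‖aeval Z.t (Z.den m)‖ ^ qq F ^ (n + 1) := by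
  induction m with
  | zero => rw [trunc1_den_zero, map_one, map_one]; simp
  | succ m ih =>
    rw [trunc1_den_succ, map_mul, map_mul, trunc1_aeval_fac, trunc1_evt_fac, norm_mul, norm_mul, ih,
      trunc1_norm_fac, trunc1_norm_evt_fac, mul_pow]

theorem num_t (u : C) (m : ℕ) : aeval Z.t (Z.num u m) = aeval Z.t (Z.den m) * Z.fm u m := by
  induction m with
  | zero => simp [num, fm]
  | succ m ih =>
    have hne := Z.trunc1_fac_ne m
    have hf : Z.fm u (m + 1) = Z.fm u m +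
        algebraMap C Ω (Z.ee u m) / (algebraMap C Ω (Z.θ ^ qq F ^ m) - Z.t) := by
      unfold fm
      rw [Finset.sum_range_succ]
    rw [num, trunc1_den_succ, map_add, map_mul, map_mul, map_mul, trunc1_aeval_fac, ih, aeval_C, hf]
    generalize algebraMap C Ω (Z.θ ^ qq F ^ m) - Z.t = w at hne
    field_simp

theorem num_evt (u : C) (n m : ℕ) :
    Z.evt n (Z.num u m) = Z.evt n (Z.den m) * Z.phm u n m := by
  induction m with
  | zero => simp [num, phm]
  | succ m ih =>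
    have hne := Z.trunc1_evt_fac_ne n m
    have hf : Z.phm u n (m + 1) = Z.phm u n m + Z.ee u m ^ qq F ^ (n + 1) /
        ((Z.θ ^ qq F ^ m) ^ qq F ^ (n + 1) - Z.θ) := by
      unfold phm
      rw [Finset.sum_range_succ]
    rw [num, trunc1_den_succ, map_add, map_mul, map_mul, map_mul, trunc1_evt_fac, ih, Z.evt_C, hf]
    generalize (Z.θ ^ qq F ^ m) ^ qq F ^ (n + 1) - Z.θ = w at hne
    field_simp

theorem den_deg (m : ℕ) : (Z.den m).natDegree ≤ m := by
  induction m with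
  | zero => rw [trunc1_den_zero]; simp
  | succ m ih =>
    rw [trunc1_den_succ]
    exact natDegree_mul_le.trans (add_le_add ih (trunc1_fac_deg _))

theorem num_deg (u : C) (m : ℕ) : (Z.num u m).natDegree ≤ m := by
  induction m with
  | zero => simp [num]
  | succ m ih =>
    rw [num]
    refine natDegree_add_le_of_degree_le ?_ ?_
    · exact natDegree_mul_le.trans (add_le_add ih (trunc1_fac_deg _))
    · exact (natDegree_C_mul_le _ _).trans ((Z.den_deg m).trans (Nat.le_succ m))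

variable {ι : Type*}

theorem trunc1_degree_le (P : MvPolynomial ι C[X]) (D : ℕ) (hD : P.totalDegree ≤ D)
    (e : ι →₀ ℕ) (he : e ∈ P.support) : e.degree ≤ D := by
  have h := MvPolynomial.le_totalDegree he
  refine le_trans (le_of_eq ?_) (h.trans hD)
  rfl

theorem trunc1_hom {R : Type*} [CommRing R] (g : C[X] →+* R) (u : ι → C) (m D : ℕ) (w : ι → R)
    (hg : ∀ i, g (Z.num (u i) m) = g (Z.den m) * w i)
    (P : MvPolynomial ι C[X]) (hD : P.totalDegree ≤ D) :
    g (Z.HH u m D P) = g (Z.den m) ^ D * MvPolynomial.eval₂ g w P := by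
  unfold HH
  rw [map_sum, MvPolynomial.eval₂_eq, Finset.mul_sum]
  refine Finset.sum_congr rfl fun e he => ?_
  have hle := trunc1_degree_le P D hD e he
  have hprod : g (e.prod fun i k => Z.num (u i) m ^ k) =
      g (Z.den m) ^ e.degree * ∏ i ∈ e.support, w i ^ e i := by
    unfold Finsupp.prod
    rw [map_prod, Finsupp.degree_apply, ← Finset.prod_pow_eq_pow_sum, ← Finset.prod_mul_distrib]
    refine Finset.prod_congr rfl fun i _ => ?_
    rw [map_pow, hg, mul_pow]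
  have hpow : g (Z.den m) ^ D = g (Z.den m) ^ e.degree * g (Z.den m) ^ (D - e.degree) := by
    rw [← pow_add, Nat.add_sub_cancel' hle]
  rw [map_mul, map_mul, map_pow, hprod, hpow]
  ring

theorem trunc1_HH_subset (u : ι → C) (m D : ℕ) (P : MvPolynomial ι C[X]) (s : Finset (ι →₀ ℕ))
    (hs : P.support ⊆ s) :
    Z.HH u m D P = ∑ e ∈ s,
      P.coeff e * (e.prod fun i k => Z.num (u i) m ^ k) * Z.den m ^ (D - e.degree) := by
  unfold HH
  refine Finset.sum_subset hs fun e _ he => ?_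
  rw [MvPolynomial.notMem_support_iff.mp he, zero_mul, zero_mul]

theorem trunc1_mem_iff (E : Subfield C) (H : C[X]) :
    H ∈ (Polynomial.mapRingHom E.subtype).range ↔ ∀ j, H.coeff j ∈ E := by
  constructor
  · rintro ⟨G, rfl⟩ j
    rw [coe_mapRingHom, coeff_map]
    exact (G.coeff j).2
  · intro h
    have h1 : H ∈ Polynomial.lifts E.subtype := by
      rw [Polynomial.lifts_iff_coeff_lifts]
      intro j
      exact ⟨⟨H.coeff j, h j⟩, rfl⟩
    obtain ⟨G, hG⟩ := (Polynomial.mem_lifts H).mp h1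
    exact ⟨G, hG⟩

theorem trunc1_C_mem (E : Subfield C) (c : C) (hc : c ∈ E) :
    Polynomial.C c ∈ (Polynomial.mapRingHom E.subtype).range :=
  ⟨Polynomial.C ⟨c, hc⟩, by simp⟩

theorem trunc1_X_mem (E : Subfield C) : (X : C[X]) ∈ (Polynomial.mapRingHom E.subtype).range :=
  ⟨X, by simp⟩

theorem trunc1_den_mem (E : Subfield C) (hθ : Z.θ ∈ E) (m : ℕ) :
    Z.den m ∈ (Polynomial.mapRingHom E.subtype).range := by
  unfold den
  exact Subring.prod_mem _ fun i _ =>
    Subring.sub_mem _ (trunc1_C_mem E _ (pow_mem hθ _)) (trunc1_X_mem E)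

theorem trunc1_ee_mem (E : Subfield C) (hθ : Z.θ ∈ E) (u : C) (hu : u ∈ E) (i : ℕ) :
    Z.ee u i ∈ E := by
  unfold ee
  refine div_mem (pow_mem hu _) ?_
  unfold carlitzD
  exact prod_mem fun j _ => sub_mem (pow_mem hθ _) (pow_mem hθ _)

theorem trunc1_num_mem (E : Subfield C) (hθ : Z.θ ∈ E) (u : C) (hu : u ∈ E) (m : ℕ) :
    Z.num u m ∈ (Polynomial.mapRingHom E.subtype).range := by
  induction m with
  | zero => rw [num]; exact Subring.zero_mem _
  | succ m ih =>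
    rw [num]
    exact Subring.add_mem _
      (Subring.mul_mem _ ih
        (Subring.sub_mem _ (trunc1_C_mem E _ (pow_mem hθ _)) (trunc1_X_mem E)))
      (Subring.mul_mem _ (trunc1_C_mem E _ (Z.trunc1_ee_mem E hθ u hu m))
        (Z.trunc1_den_mem E hθ m))

theorem HH_t (u : ι → C) (m D : ℕ) (P : MvPolynomial ι C[X]) (hD : P.totalDegree ≤ D) :
    aeval Z.t (Z.HH u m D P) = aeval Z.t (Z.den m) ^ D * Z.FF (fun i => Z.fm (u i) m) P := by
  exact Z.trunc1_hom (aeval Z.t : C[X] →ₐ[C] Ω).toRingHom u m D (fun i => Z.fm (u i) m)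
    (fun i => Z.num_t (u i) m) P hD

theorem HH_evt (u : ι → C) (n m D : ℕ) (P : MvPolynomial ι C[X]) (hD : P.totalDegree ≤ D) :
    Z.evt n (Z.HH u m D P) = Z.evt n (Z.den m) ^ D *
      MvPolynomial.eval₂ (Z.evt n) (fun i => Z.phm (u i) n m) P := by
  exact Z.trunc1_hom (Z.evt n) u m D (fun i => Z.phm (u i) n m)
    (fun i => Z.num_evt (u i) n m) P hD

theorem HH_deg (u : ι → C) (m D T : ℕ) (P : MvPolynomial ι C[X]) (hD : P.totalDegree ≤ D)
    (hT : ∀ e, (P.coeff e).natDegree ≤ T) : (Z.HH u m D P).natDegree ≤ T + D * m := by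
  unfold HH
  refine natDegree_sum_le_of_forall_le _ _ fun e he => ?_
  have hle := trunc1_degree_le P D hD e he
  have h1 : (e.prod fun i k => Z.num (u i) m ^ k).natDegree ≤ e.degree * m := by
    unfold Finsupp.prod
    refine (natDegree_prod_le _ _).trans ?_
    rw [Finsupp.degree_apply, Finset.sum_mul]
    refine Finset.sum_le_sum fun i _ => ?_
    exact natDegree_pow_le.trans (Nat.mul_le_mul_left _ (Z.num_deg _ _))
  have h2 : (Z.den m ^ (D - e.degree)).natDegree ≤ (D - e.degree) * m :=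
    natDegree_pow_le.trans (Nat.mul_le_mul_left _ (Z.den_deg _))
  have h3 : e.degree * m + (D - e.degree) * m = D * m := by
    rw [← add_mul, Nat.add_sub_cancel' hle]
  have h4 := hT e
  refine natDegree_mul_le.trans ((add_le_add natDegree_mul_le h2).trans ?_)
  omega

theorem HH_mem (E : Subfield C) (hθ : Z.θ ∈ E) (u : ι → C) (hu : ∀ i, u i ∈ E) (m D : ℕ)
    (P : MvPolynomial ι C[X]) (hP : ∀ e j, (P.coeff e).coeff j ∈ E) (j : ℕ) :
    (Z.HH u m D P).coeff j ∈ E := by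
  refine (trunc1_mem_iff E _).mp ?_ j
  unfold HH
  refine Subring.sum_mem _ fun e _ => ?_
  refine Subring.mul_mem _ (Subring.mul_mem _ ((trunc1_mem_iff E _).mpr (hP e)) ?_)
    (Subring.pow_mem _ (Z.trunc1_den_mem E hθ m) _)
  unfold Finsupp.prod
  exact Subring.prod_mem _ fun i _ =>
    Subring.pow_mem _ (Z.trunc1_num_mem E hθ (u i) (hu i) m) _

theorem HH_add (u : ι → C) (m D : ℕ) (P P' : MvPolynomial ι C[X]) :
    Z.HH u m D (P + P') = Z.HH u m D P + Z.HH u m D P' := by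
  classical
  rw [Z.trunc1_HH_subset u m D (P + P') (P.support ∪ P'.support) MvPolynomial.support_add,
    Z.trunc1_HH_subset u m D P (P.support ∪ P'.support) Finset.subset_union_left,
    Z.trunc1_HH_subset u m D P' (P.support ∪ P'.support) Finset.subset_union_right,
    ← Finset.sum_add_distrib]
  refine Finset.sum_congr rfl fun e _ => ?_
  rw [MvPolynomial.coeff_add]
  ring

theorem HH_C_mul (u : ι → C) (m D : ℕ) (c : C[X]) (P : MvPolynomial ι C[X]) :
    Z.HH u m D (MvPolynomial.C c * P) = c * Z.HH u m D P := by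
  have hs : (MvPolynomial.C c * P).support ⊆ P.support := by
    intro e he
    rw [MvPolynomial.mem_support_iff] at he ⊢
    intro h
    apply he
    rw [MvPolynomial.coeff_C_mul, h, mul_zero]
  rw [Z.trunc1_HH_subset u m D _ P.support hs, Z.trunc1_HH_subset u m D P P.support subset_rfl,
    Finset.mul_sum]
  refine Finset.sum_congr rfl fun e _ => ?_
  rw [MvPolynomial.coeff_C_mul]
  ring

end Sit

end Pool.Agent.MP_655169_nt

end

section

set_option linter.unusedSectionVars false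

namespace Pool.Agent.MP_655169_nt

open Polynomial Filter Topology

variable {F C Ω : Type*} [Field F] [Fintype F] [NormedField C] [IsUltrametricDist C]
  [IsAlgClosed C] [Algebra F C] [NormedField Ω] [IsUltrametricDist Ω] [IsAlgClosed Ω]
  [Algebra C Ω] [Algebra F Ω] [IsScalarTower F C Ω] (Z : Sit F C Ω)

theorem Trunc_dom {ι : Type*} (s : Finset ι) (f : ι → C) (i : ι) (hi : i ∈ s)
    (h : ∀ j ∈ s, j ≠ i → ‖f j‖ < ‖f i‖) : ‖f i‖ ≤ ‖∑ j ∈ s, f j‖ := by
  classical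
  rw [← Finset.add_sum_erase s f hi]
  rcases (s.erase i).eq_empty_or_nonempty with he | he
  · simp [he]
  obtain ⟨j, hj, h1⟩ := IsUltrametricDist.exists_norm_finsetSum_le_of_nonempty he f
  have h2 := h1.trans_lt (h j (Finset.mem_of_mem_erase hj) (Finset.ne_of_mem_erase hj))
  rw [IsUltrametricDist.norm_add_eq_max_of_norm_ne_norm h2.ne']
  exact le_max_left _ _

namespace Sit

theorem Trunc_core (H : C[X]) (N : ℕ) (hN : H.natDegree ≤ N) (n : ℕ)
    (h : ∀ j ∈ Finset.range (N + 1), ‖H.coeff j‖ < ‖aeval Z.t H‖ →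
      ‖H.coeff j‖ ^ qq F ^ (n + 1) * ‖Z.θ‖ ^ N < ‖aeval Z.t H‖ ^ qq F ^ (n + 1)) :
    ‖aeval Z.t H‖ ^ qq F ^ (n + 1) ≤ ‖Z.evt n H‖ := by
  have hq : qq F ^ (n + 1) ≠ 0 := pow_ne_zero _ Fintype.card_ne_zero
  rcases (norm_nonneg (aeval Z.t H)).eq_or_lt with h0 | h0
  · rw [← h0, zero_pow hq]; exact norm_nonneg _
  set S := (Finset.range (N + 1)).filter fun j => ‖H.coeff j‖ = ‖aeval Z.t H‖ with hS
  have hne : S.Nonempty := by
    obtain ⟨j, hj⟩ := Z.gauss_ge H
    refine ⟨j, Finset.mem_filter.2 ⟨Finset.mem_range.2 (Nat.lt_succ_of_le ?_),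
      le_antisymm (Z.gauss_le H j) hj⟩⟩
    exact (le_natDegree_of_ne_zero (norm_pos_iff.1 (h0.trans_le hj))).trans hN
  obtain ⟨h1, h2⟩ := Finset.mem_filter.1 (S.max'_mem hne)
  have h3 : ‖aeval Z.t H‖ ^ qq F ^ (n + 1) ≤
      ‖aeval Z.t H‖ ^ qq F ^ (n + 1) * ‖Z.θ‖ ^ S.max' hne :=
    le_mul_of_one_le_right (by positivity) (one_le_pow₀ Z.hθ.le)
  rw [Z.evt_eq_sum n H (N + 1) (Nat.lt_succ_of_le hN)]
  refine le_trans ?_ (Trunc_dom _ _ _ h1 fun j hj hj' => ?_)
  · rwa [norm_mul, norm_pow, norm_pow, h2]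
  simp only [norm_mul, norm_pow, h2]
  rcases (Z.gauss_le H j).eq_or_lt with h4 | h4
  · rw [h4]
    exact mul_lt_mul_of_pos_left (pow_lt_pow_right₀ Z.hθ (lt_of_le_of_ne
      (S.le_max' j (Finset.mem_filter.2 ⟨hj, h4⟩)) hj')) (by positivity)
  · refine lt_of_le_of_lt ?_ ((h j hj h4).trans_le h3)
    exact mul_le_mul_of_nonneg_left (pow_le_pow_right₀ Z.hθ.le
      (Nat.le_of_lt_succ (Finset.mem_range.1 hj))) (by positivity)

theorem evt_le (n : ℕ) (H : C[X]) (N : ℕ) (hN : H.natDegree ≤ N) :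
    ‖Z.evt n H‖ ≤ ‖aeval Z.t H‖ ^ qq F ^ (n + 1) * ‖Z.θ‖ ^ N := by
  rw [Z.evt_eq_sum n H (N + 1) (Nat.lt_succ_of_le hN)]
  refine IsUltrametricDist.norm_sum_le_of_forall_le_of_nonneg (by positivity) fun j hj => ?_
  rw [norm_mul, norm_pow, norm_pow]
  exact mul_le_mul (pow_le_pow_left₀ (norm_nonneg _) (Z.gauss_le H j) _)
    (pow_le_pow_right₀ Z.hθ.le (Nat.le_of_lt_succ (Finset.mem_range.1 hj))) (by positivity)
    (by positivity)

theorem evt_ge (E : Subfield C) (η : ℝ) (hg : Gap E η) (H : C[X]) (hH : ∀ j, H.coeff j ∈ E)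
    (N : ℕ) (hN : H.natDegree ≤ N) (n : ℕ)
    (h : ‖Z.θ‖ ^ N < Real.exp (η * (qq F ^ (n + 1) : ℕ))) :
    ‖aeval Z.t H‖ ^ qq F ^ (n + 1) ≤ ‖Z.evt n H‖ := by
  refine Z.Trunc_core H N hN n fun j _ hj => ?_
  obtain ⟨i, hi⟩ := Z.gauss_ge H
  have h0 : 0 < ‖aeval Z.t H‖ := (norm_nonneg _).trans_lt hj
  have h1 := hg _ (hH j) _ (hH i) (hj.trans_le hi)
  rw [le_antisymm (Z.gauss_le H i) hi] at h1
  have h2 : Real.exp (-η) ^ qq F ^ (n + 1) * Real.exp (η * (qq F ^ (n + 1) : ℕ)) = 1 := by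
    rw [← Real.exp_nat_mul, ← Real.exp_add, ← Real.exp_zero]
    congr 1; ring
  calc _ ≤ (Real.exp (-η) * ‖aeval Z.t H‖) ^ qq F ^ (n + 1) * ‖Z.θ‖ ^ N :=
        mul_le_mul_of_nonneg_right (pow_le_pow_left₀ (norm_nonneg _) h1 _) (by positivity)
    _ < (Real.exp (-η) * ‖aeval Z.t H‖) ^ qq F ^ (n + 1) *
        Real.exp (η * (qq F ^ (n + 1) : ℕ)) := mul_lt_mul_of_pos_left h (by positivity)
    _ = _ := by rw [mul_pow, mul_right_comm, h2, one_mul]

theorem evt_ge' (H : C[X]) : ∀ᶠ n in atTop, ‖aeval Z.t H‖ ^ qq F ^ (n + 1) ≤ ‖Z.evt n H‖ := by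
  have hQ : Tendsto (fun n : ℕ => qq F ^ (n + 1)) atTop atTop :=
    (tendsto_pow_atTop_atTop_of_one_lt (two_le_qq (F := F))).comp (tendsto_add_atTop_nat 1)
  refine ((eventually_all_finset (Finset.range (H.natDegree + 1))).2 fun j _ => ?_).mono
    fun n hn => Z.Trunc_core H _ le_rfl n hn
  by_cases hj : ‖H.coeff j‖ < ‖aeval Z.t H‖
  · have h0 : 0 < ‖aeval Z.t H‖ := (norm_nonneg _).trans_lt hj
    have h1 := ((tendsto_pow_atTop_nhds_zero_of_lt_one (div_nonneg (norm_nonneg _) h0.le)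
      ((div_lt_one h0).2 hj)).comp hQ).mul_const (‖Z.θ‖ ^ H.natDegree)
    rw [zero_mul] at h1
    filter_upwards [h1.eventually_lt_const one_pos] with n hn _
    rwa [Function.comp_apply, div_pow, div_mul_eq_mul_div, div_lt_one (by positivity)] at hn
  · exact Eventually.of_forall fun n h => absurd h hj

end Sit

end Pool.Agent.MP_655169_nt

end

section

set_option linter.unusedSectionVars false

namespace Pool.Agent.MP_655169_nt

open Polynomial Filter Topology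

variable {F C Ω : Type*} [Field F] [Fintype F] [NormedField C] [IsUltrametricDist C]
  [IsAlgClosed C] [Algebra F C] [NormedField Ω] [IsUltrametricDist Ω] [IsAlgClosed Ω]
  [Algebra C Ω] [Algebra F Ω] [IsScalarTower F C Ω] (Z : Sit F C Ω)

theorem basic1_norm_sub {E : Type*} [NormedField E] [IsUltrametricDist E] {a b : E}
    (h : ‖b‖ < ‖a‖) : ‖a - b‖ = ‖a‖ := by
  rw [sub_eq_add_neg, IsUltrametricDist.norm_add_eq_max_of_norm_ne_norm (by
    rw [norm_neg]; exact h.ne'), norm_neg, max_eq_left h.le]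

theorem norm_carlitzD {E : Type*} [NormedField E] [IsUltrametricDist E] (q : ℕ) (hq : 2 ≤ q)
    (θ : E) (hθ : 1 < ‖θ‖) (i : ℕ) : ‖carlitzD q θ i‖ = ‖θ‖ ^ (i * q ^ i) := by
  rw [carlitzD, norm_prod, Finset.prod_congr rfl fun j hj => basic1_norm_sub (a := θ ^ q ^ i)
    (b := θ ^ q ^ j) ?_, Finset.prod_const, Finset.card_range, norm_pow, ← pow_mul, mul_comm]
  rw [norm_pow, norm_pow]
  exact pow_lt_pow_right₀ hθ (Nat.pow_lt_pow_right hq (Finset.mem_range.1 hj))

theorem tendsto_term {E : Type*} [NormedField E] [IsUltrametricDist E] (q : ℕ) (hq : 2 ≤ q)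
    (θ : E) (hθ : 1 < ‖θ‖) (x : E) :
    Tendsto (fun i => x ^ q ^ i / carlitzD q θ i) atTop (𝓝 0) := by
  have h0 : Tendsto (fun i : ℕ => ‖x‖ / ‖θ‖ ^ i) atTop (𝓝 0) :=
    tendsto_const_nhds.div_atTop (tendsto_pow_atTop_atTop_of_one_lt hθ)
  refine squeeze_zero_norm' ?_ h0
  filter_upwards [h0.eventually (ge_mem_nhds one_pos)] with i hi
  rw [norm_div, norm_carlitzD q hq θ hθ, norm_pow, pow_mul, ← div_pow]
  exact pow_le_of_le_one (by positivity) hi (by positivity)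

namespace Sit

theorem basic1_ne (i : ℕ) : Z.θ ^ qq F ^ (i + 1) - Z.θ ≠ 0 := by
  refine sub_ne_zero.2 fun h => ?_
  have := lt_self_pow₀ Z.hθ (Nat.one_lt_pow (n := i + 1) (by omega) (two_le_qq (F := F)))
  rw [← norm_pow, h] at this
  exact lt_irrefl _ this

theorem basic1_one_le (i : ℕ) : 1 ≤ ‖Z.θ ^ qq F ^ i‖ := by
  rw [norm_pow]; exact one_le_pow₀ Z.hθ.le

theorem basic1_ne_t (i : ℕ) : algebraMap C Ω (Z.θ ^ qq F ^ i) - Z.t ≠ 0 := by
  rw [← norm_pos_iff, Z.norm_sub_t _ (Z.basic1_one_le i)]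
  exact one_pos.trans_le (Z.basic1_one_le i)

theorem ee_succ (u : C) (i : ℕ) :
    Z.ee u i ^ qq F = Z.ee u (i + 1) * (Z.θ ^ qq F ^ (i + 1) - Z.θ) := by
  have h1 : carlitzD (qq F) Z.θ (i + 1) =
      carlitzD (qq F) Z.θ i ^ qq F * (Z.θ ^ qq F ^ (i + 1) - Z.θ) := by
    rw [carlitzD, Finset.prod_range_succ', ← Z.fr_eq, carlitzD, map_prod, pow_zero, pow_one]
    congr 1
    refine Finset.prod_congr rfl fun j _ => ?_
    rw [map_sub, Z.fr_eq, Z.fr_eq, ← pow_mul, ← pow_mul, ← pow_succ, ← pow_succ]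
  have h2 := Z.basic1_ne i
  rw [ee, ee, h1, div_pow, ← pow_mul, ← pow_succ, div_mul_eq_div_div, div_mul_cancel₀ _ h2]

theorem exists_agf (u al : C) (h : HasSum (Z.ee u) al) : ∃ f, Z.Agf u al f := by
  have hc : CauchySeq (Z.fm u) := by
    refine NonarchimedeanAddGroup.cauchySeq_of_tendsto_sub_nhds_zero ?_
    have h0 := (tendsto_term (qq F) two_le_qq Z.θ Z.hθ u).norm
    rw [norm_zero] at h0
    refine squeeze_zero_norm (fun m => ?_) h0
    rw [fm, fm, Finset.sum_range_succ, add_sub_cancel_left, norm_div, Z.norm_alg,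
      Z.norm_sub_t _ (Z.basic1_one_le m)]
    exact div_le_self (norm_nonneg _) (Z.basic1_one_le m)
  obtain ⟨f, hf⟩ := Z.compl (Z.fm u) (fun m => ⟨Z.num u m, Z.den m, by
    rw [Z.num_t, mul_div_cancel_left₀ _ (Z.den_ne m)]⟩) hc
  exact ⟨f, h, hf⟩

theorem Agf.sol {u al : C} {f : Ω} (h : Z.Agf u al f) : Z.Sol al f := by
  have key : ∀ m, Z.σ (Z.fm u m) = algebraMap C Ω (∑ i ∈ Finset.range (m + 1), Z.ee u i) +
      (Z.t - algebraMap C Ω Z.θ) * Z.fm u (m + 1) := by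
    intro m
    induction m with
    | zero =>
      have := Z.basic1_ne_t 0
      simp only [fm, Finset.sum_range_zero, map_zero, zero_add, Finset.sum_range_one, pow_zero,
        pow_one] at this ⊢
      field_simp
      ring
    | succ m ih =>
      have := Z.basic1_ne_t (m + 1)
      have e : ∀ k, Z.fm u (k + 1) = Z.fm u k +
          algebraMap C Ω (Z.ee u k) / (algebraMap C Ω (Z.θ ^ qq F ^ k) - Z.t) := fun k =>
        Finset.sum_range_succ _ _
      rw [e (m + 1), Finset.sum_range_succ _ (m + 1), map_add]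
      conv_lhs => rw [e m, map_add, ih, map_div₀, map_sub, Z.σ_c, Z.σ_c, Z.σ_t, Z.ee_succ,
        ← pow_mul, ← pow_succ, map_mul, map_sub]
      field_simp
      ring
  have hc : Continuous (algebraMap C Ω) :=
    AddMonoidHomClass.continuous_of_bound (algebraMap C Ω) 1 fun c => by
      rw [Z.norm_alg, one_mul]
  refine tendsto_nhds_unique ((Z.σ_cont.tendsto f).comp h.lim) ?_
  simp only [Function.comp_def, key]
  exact ((hc.tendsto al).comp ((tendsto_add_atTop_iff_nat 1).2 h.hs.tendsto_sum_nat)).add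
    (((tendsto_add_atTop_iff_nat 1).2 h.lim).const_mul _)

theorem phm_lim {u al : C} (h : HasSum (Z.ee u) al) (n : ℕ) :
    Tendsto (Z.phm u n) atTop (𝓝 (ph (qq F) Z.θ u al n)) := by
  have h1 := (tendsto_add_atTop_iff_nat 1).2 h.tendsto_sum_nat
  induction n with
  | zero =>
    refine (h1.sub_const u).congr fun m => ?_
    rw [Finset.sum_range_succ', phm]
    have e0 : Z.ee u 0 = u := by simp [ee, carlitzD]
    rw [e0, add_sub_cancel_right]
    refine Finset.sum_congr rfl fun i _ => ?_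
    rw [zero_add, pow_one, Z.ee_succ, ← pow_mul, ← pow_succ,
      mul_div_cancel_right₀ _ (Z.basic1_ne i)]
  | succ n ih =>
    refine ((h1.pow (qq F ^ (n + 1))).add
      (((tendsto_add_atTop_iff_nat 1).2 ih).const_mul (Z.θ - Z.θ ^ qq F ^ (n + 1)))).congr
      fun m => ?_
    rw [← Z.fr_pow (n + 1) (∑ i ∈ _, _), map_sum, phm, phm, Finset.mul_sum,
      ← Finset.sum_add_distrib, Finset.sum_range_succ']
    have e0 : (Z.fr ^ (n + 1)) (Z.ee u 0) + (Z.θ - Z.θ ^ qq F ^ (n + 1)) *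
        (Z.ee u 0 ^ qq F ^ (n + 1) / ((Z.θ ^ qq F ^ 0) ^ qq F ^ (n + 1) - Z.θ)) = 0 := by
      have := Z.basic1_ne n
      rw [Z.fr_pow, pow_zero, pow_one]
      field_simp
      ring
    rw [e0, add_zero]
    refine Finset.sum_congr rfl fun i _ => ?_
    have e1 : Z.ee u i ^ qq F ^ (n + 1 + 1) = Z.ee u (i + 1) ^ qq F ^ (n + 1) *
        ((Z.θ ^ qq F ^ (i + 1)) ^ qq F ^ (n + 1) - Z.θ ^ qq F ^ (n + 1)) := by
      rw [pow_succ' (qq F) (n + 1), pow_mul, Z.ee_succ, mul_pow, ← Z.fr_pow (n + 1) (_ - _),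
        map_sub, Z.fr_pow, Z.fr_pow]
    have e2 : (Z.θ ^ qq F ^ i) ^ qq F ^ (n + 1 + 1) = (Z.θ ^ qq F ^ (i + 1)) ^ qq F ^ (n + 1) := by
      rw [← pow_mul, ← pow_mul, ← pow_add, ← pow_add]; congr 2; omega
    have e3 : (Z.θ ^ qq F ^ (i + 1)) ^ qq F ^ (n + 1) - Z.θ ≠ 0 := by
      have := Z.basic1_ne (i + 1 + n)
      rwa [add_assoc, pow_add, pow_mul] at this
    rw [e1, e2, Z.fr_pow]
    field_simp
    ring

end Sit

end Pool.Agent.MP_655169_nt

end

section

set_option linter.unusedSectionVars false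

namespace Pool.Agent.MP_655169_nt

open Polynomial Filter Topology

variable {F C Ω : Type*} [Field F] [Fintype F] [NormedField C] [IsUltrametricDist C]
  [IsAlgClosed C] [Algebra F C] [NormedField Ω] [IsUltrametricDist Ω] [IsAlgClosed Ω]
  [Algebra C Ω] [Algebra F Ω] [IsScalarTower F C Ω] (Z : Sit F C Ω)

theorem basic_tail {Λ : Type*} [NormedField Λ] [IsUltrametricDist Λ] (g : ℕ → Λ) (L : Λ)
    (h : Tendsto (fun m => ∑ i ∈ Finset.range m, g i) atTop (𝓝 L)) (m : ℕ) (B : ℝ) (hB : 0 ≤ B)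
    (hg : ∀ i, m ≤ i → ‖g i‖ ≤ B) : ‖L - ∑ i ∈ Finset.range m, g i‖ ≤ B := by
  refine le_of_tendsto (h.sub_const (∑ i ∈ Finset.range m, g i)).norm ?_
  filter_upwards [eventually_ge_atTop m] with k hk
  rw [← Finset.sum_Ico_eq_sub _ hk]
  exact IsUltrametricDist.norm_sum_le_of_forall_le_of_nonneg hB
    fun i hi => hg i (Finset.mem_Ico.1 hi).1

namespace Sit

theorem basic_one_le (i : ℕ) : 1 ≤ ‖Z.θ‖ ^ qq F ^ i := one_le_pow₀ Z.hθ.le

theorem basic_t1 (u : C) (i : ℕ) :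
    ‖algebraMap C Ω (Z.ee u i) / (algebraMap C Ω (Z.θ ^ qq F ^ i) - Z.t)‖ =
      ‖Z.ee u i‖ / ‖Z.θ‖ ^ qq F ^ i := by
  rw [norm_div, Z.norm_alg, Z.norm_sub_t _ (by rw [norm_pow]; exact Z.basic_one_le i), norm_pow]

theorem basic_t2 (u : C) (n i : ℕ) :
    ‖Z.ee u i ^ qq F ^ (n + 1) / ((Z.θ ^ qq F ^ i) ^ qq F ^ (n + 1) - Z.θ)‖ =
      (‖Z.ee u i‖ / ‖Z.θ‖ ^ qq F ^ i) ^ qq F ^ (n + 1) := by
  have hq : 1 < qq F ^ i * qq F ^ (n + 1) := by
    rw [← pow_add]
    exact Nat.one_lt_pow (by omega) (two_le_qq (F := F))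
  have h1 : ‖-Z.θ‖ < ‖(Z.θ ^ qq F ^ i) ^ qq F ^ (n + 1)‖ := by
    rw [norm_neg, ← pow_mul, norm_pow]
    exact lt_self_pow₀ Z.hθ hq
  rw [norm_div, sub_eq_add_neg, IsUltrametricDist.norm_add_eq_max_of_norm_ne_norm h1.ne',
    max_eq_left h1.le, norm_pow, norm_pow, norm_pow, div_pow]

theorem basic_a (u : C) : ∃ (m0 : ℕ) (M : ℝ), (∀ i, ‖Z.ee u i‖ / ‖Z.θ‖ ^ qq F ^ i ≤ M) ∧
    ∀ m, m0 ≤ m → ∀ i, m ≤ i → ‖Z.ee u i‖ / ‖Z.θ‖ ^ qq F ^ i ≤ (‖Z.θ‖ ^ qq F ^ m)⁻¹ := by
  have h : Tendsto (fun i => ‖Z.ee u i‖) atTop (𝓝 ‖(0 : C)‖) :=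
    (tendsto_term (qq F) two_le_qq Z.θ Z.hθ u).norm
  obtain ⟨M, hM⟩ := h.bddAbove_range
  obtain ⟨m0, hm0⟩ := eventually_atTop.1 (h.eventually_le_const (by simp : ‖(0 : C)‖ < 1))
  refine ⟨m0, M, fun i => (div_le_self (norm_nonneg _) (Z.basic_one_le i)).trans
    (hM ⟨i, rfl⟩), fun m hm i hi => ?_⟩
  rw [← one_div]
  have h0 : 0 < ‖Z.θ‖ := one_pos.trans Z.hθ
  exact div_le_div₀ zero_le_one (hm0 i (hm.trans hi)) (by positivity)
    (pow_le_pow_right₀ Z.hθ.le (Nat.pow_le_pow_right (Fintype.card_pos) hi))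

theorem agf_bd {ι : Type*} [Fintype ι] (u al : ι → C) (f : ι → Ω)
    (h : ∀ i, Z.Agf (u i) (al i) (f i)) :
    ∃ (m0 : ℕ) (M : ℝ), 1 ≤ M ∧ ∀ i, ‖f i‖ ≤ M ∧ (∀ m, ‖Z.fm (u i) m‖ ≤ M) ∧
      (∀ m, m0 ≤ m → ‖f i - Z.fm (u i) m‖ ≤ (‖Z.θ‖ ^ qq F ^ m)⁻¹) ∧
      (∀ n m, ‖Z.phm (u i) n m‖ ≤ M ^ qq F ^ (n + 1)) ∧
      (∀ n, ‖ph (qq F) Z.θ (u i) (al i) n‖ ≤ M ^ qq F ^ (n + 1)) ∧
      ∀ n m, m0 ≤ m → ‖ph (qq F) Z.θ (u i) (al i) n - Z.phm (u i) n m‖ ≤
        ((‖Z.θ‖ ^ qq F ^ m)⁻¹) ^ qq F ^ (n + 1) := by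
  choose m0 M hM hm using fun i => Z.basic_a (u i)
  obtain ⟨M', hM'⟩ := (Set.finite_range M).bddAbove
  obtain ⟨m1, hm1⟩ := (Set.finite_range m0).bddAbove
  refine ⟨m1, max 1 M', le_max_left _ _, fun i => ?_⟩
  have h0 : (0 : ℝ) ≤ max 1 M' := zero_le_one.trans (le_max_left _ _)
  have h1 : ∀ j, ‖Z.ee (u i) j‖ / ‖Z.θ‖ ^ qq F ^ j ≤ max 1 M' := fun j =>
    (hM i j).trans ((hM' ⟨i, rfl⟩).trans (le_max_right _ _))
  have h2 := fun m (hle : m1 ≤ m) => hm i m ((hm1 ⟨i, rfl⟩).trans hle)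
  refine ⟨?_, fun m => ?_, fun m hle => ?_, fun n m => ?_, fun n => ?_, fun n m hle => ?_⟩
  · simpa using basic_tail _ _ (h i).lim 0 _ h0 fun j _ => (Z.basic_t1 _ j).trans_le (h1 j)
  · exact IsUltrametricDist.norm_sum_le_of_forall_le_of_nonneg h0
      fun j _ => (Z.basic_t1 _ j).trans_le (h1 j)
  · exact basic_tail _ _ (h i).lim m _ (by positivity)
      fun j hj => (Z.basic_t1 _ j).trans_le (h2 m hle j hj)
  · exact IsUltrametricDist.norm_sum_le_of_forall_le_of_nonneg (by positivity)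
      fun j _ => (Z.basic_t2 _ n j).trans_le (pow_le_pow_left₀ (by positivity) (h1 j) _)
  · simpa using basic_tail _ _ (Z.phm_lim (h i).hs n) 0 (max 1 M' ^ qq F ^ (n + 1))
      (by positivity)
      fun j _ => (Z.basic_t2 _ n j).trans_le (pow_le_pow_left₀ (by positivity) (h1 j) _)
  · exact basic_tail _ _ (Z.phm_lim (h i).hs n) m _ (by positivity)
      fun j hj => (Z.basic_t2 _ n j).trans_le (pow_le_pow_left₀ (by positivity) (h2 m hle j hj) _)

end Sit

end Pool.Agent.MP_655169_nt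

end

section

set_option linter.unusedSectionVars false

namespace Pool.Agent.MP_655169_nt

open Polynomial Filter Topology

universe u

lemma amb2_cont {K : Type u} [NormedField K] (q : ℕ) (hq : 0 < q)
    (σ : K →+* K) (hσ : ∀ y, ‖σ y‖ = ‖y‖ ^ q) : Continuous σ := by
  refine continuous_of_continuousAt_zero σ ?_
  rw [ContinuousAt, map_zero, tendsto_zero_iff_norm_tendsto_zero]
  simp only [hσ]
  exact (continuous_norm.pow q).tendsto' 0 0 (by simp [hq.ne'])

lemma amb2_ultra {K : Type u} [NormedField K] [IsUltrametricDist K] :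
    IsUltrametricDist (UniformSpace.Completion K) := by
  refine ⟨fun x y z => ?_⟩
  refine UniformSpace.Completion.induction_on₃ x y z (isClosed_le (by fun_prop) (by fun_prop))
    fun a b c => ?_
  simp only [UniformSpace.Completion.dist_eq]
  exact IsUltrametricDist.dist_triangle_max a b c

/-- Passage to the completion. -/
theorem amb2 {K : Type u} [NormedField K] [IsUltrametricDist K] (q : ℕ) (hq : 0 < q)
    (σ : K →+* K) (hσ : ∀ y, ‖σ y‖ = ‖y‖ ^ q) :
    ∃ (L : Type u) (_ : NormedField L) (_ : IsUltrametricDist L) (_ : CompleteSpace L)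
      (φ : K →+* L) (τ : L →+* L), (∀ x, ‖φ x‖ = ‖x‖) ∧ (∀ x, τ (φ x) = φ (σ x)) ∧
        ∀ y, ‖τ y‖ = ‖y‖ ^ q := by
  have hc := amb2_cont q hq σ hσ
  refine ⟨UniformSpace.Completion K, inferInstance, amb2_ultra, inferInstance,
    UniformSpace.Completion.coeRingHom, UniformSpace.Completion.mapRingHom σ hc,
    fun x => UniformSpace.Completion.norm_coe x,
    fun x => UniformSpace.Completion.mapRingHom_coe hc x, fun y => ?_⟩
  refine UniformSpace.Completion.induction_on y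
    (isClosed_eq (UniformSpace.Completion.continuous_map.norm) (continuous_norm.pow q)) fun a => ?_
  rw [UniformSpace.Completion.mapRingHom_coe hc, UniformSpace.Completion.norm_coe,
    UniformSpace.Completion.norm_coe, hσ]

end Pool.Agent.MP_655169_nt

end

section

set_option linter.unusedSectionVars false

namespace Pool.Agent.MP_655169_nt

open Polynomial Filter Topology

universe u

theorem amb3_lift {L Ω : Type*} [Field L] [Field Ω] [IsAlgClosed Ω] [i : Algebra L Ω]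
    [Algebra.IsAlgebraic L Ω] (ψ : L →+* Ω) :
    ∃ τ : Ω →+* Ω, ∀ x, τ (algebraMap L Ω x) = ψ x := by
  let j : Algebra L Ω := ψ.toAlgebra
  let f := @IsAlgClosed.lift Ω _ _ L _ _ Ω _ _ i j _ _ _
  exact ⟨@AlgHom.toRingHom L Ω Ω _ _ _ i j f, fun x => @AlgHom.commutes L Ω Ω _ _ _ i j f x⟩

/-- Passage to the algebraic closure. -/
theorem amb3 {L : Type u} [NontriviallyNormedField L] [IsUltrametricDist L] [CompleteSpace L]
    (q : ℕ) (hq : 0 < q) (σ : L →+* L) (hσ : ∀ y, ‖σ y‖ = ‖y‖ ^ q) :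
    ∃ (Ω : Type u) (_ : NormedField Ω) (_ : IsUltrametricDist Ω) (_ : IsAlgClosed Ω)
      (φ : L →+* Ω) (τ : Ω →+* Ω), (∀ x, ‖φ x‖ = ‖x‖) ∧ (∀ x, τ (φ x) = φ (σ x)) ∧
        ∀ y, ‖τ y‖ = ‖y‖ ^ q := by
  obtain ⟨τ, hτ⟩ := amb3_lift ((algebraMap L (AlgebraicClosure L)).comp σ)
  let _ : NormedField (AlgebraicClosure L) := spectralNorm.normedField L (AlgebraicClosure L)
  have hn : ∀ y : AlgebraicClosure L, ‖y‖ = spectralNorm L (AlgebraicClosure L) y := fun _ => rfl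
  have hna : ∀ x y : AlgebraicClosure L, ‖x + y‖ ≤ max ‖x‖ ‖y‖ := isNonarchimedean_spectralNorm
  have hφ : ∀ x, ‖algebraMap L (AlgebraicClosure L) x‖ = ‖x‖ := spectralNorm_extends
  have hq' : (0 : ℝ) ≤ (q : ℝ)⁻¹ := by positivity
  let f : AbsoluteValue (AlgebraicClosure L) ℝ :=
    { toFun := fun y => ‖τ y‖ ^ (q : ℝ)⁻¹
      map_mul' := fun x y => by
        rw [map_mul, norm_mul, Real.mul_rpow (norm_nonneg _) (norm_nonneg _)]
      nonneg' := fun x => by positivity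
      eq_zero' := fun x => by
        rw [Real.rpow_eq_zero (norm_nonneg _) (by positivity), norm_eq_zero, map_eq_zero]
      add_le' := fun x y => by
        have h1 := Real.rpow_le_rpow (norm_nonneg _) (hna (τ x) (τ y)) hq'
        have h2 : 0 ≤ ‖τ x‖ ^ (q : ℝ)⁻¹ := by positivity
        have h3 : 0 ≤ ‖τ y‖ ^ (q : ℝ)⁻¹ := by positivity
        rw [← map_add] at h1
        rcases max_choice ‖τ x‖ ‖τ y‖ with h | h <;> rw [h] at h1 <;> linarith }
  have hf : ∀ y, ‖τ y‖ ^ (q : ℝ)⁻¹ = ‖y‖ :=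
    spectralNorm_unique_field_norm_ext (f := f) fun x => by
      change ‖τ _‖ ^ (q : ℝ)⁻¹ = _
      rw [hτ, RingHom.comp_apply, hφ, hσ, Real.pow_rpow_inv_natCast (norm_nonneg _) hq.ne']
  refine ⟨AlgebraicClosure L, inferInstance,
    IsUltrametricDist.isUltrametricDist_of_isNonarchimedean_norm hna, inferInstance,
    algebraMap L _, τ, hφ, hτ, fun y => ?_⟩
  rw [← hf y, Real.rpow_inv_natCast_pow (norm_nonneg _) hq.ne']

end Pool.Agent.MP_655169_nt

end

section

set_option linter.unusedSectionVars false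

namespace Pool.Agent.MP_655169_nt

open Polynomial Filter Topology

universe u

/-- A nonarchimedean absolute value on a domain extends to the fraction field. -/
theorem amb1_ext {R K : Type*} [CommRing R] [IsDomain R] [Field K] [Algebra R K]
    [IsFractionRing R K] (G : R → ℝ) (h0 : ∀ a, 0 ≤ G a) (hz : ∀ a, G a = 0 ↔ a = 0)
    (hm : ∀ a b, G (a * b) = G a * G b) (hna : IsNonarchimedean G) :
    ∃ v : AbsoluteValue K ℝ, IsNonarchimedean v ∧
      ∀ a b : R, v (algebraMap R K a / algebraMap R K b) = G a / G b := by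
  choose nu de hde hnd using fun z : K => IsFractionRing.div_surjective R z
  have inj : Function.Injective (algebraMap R K) := IsFractionRing.injective R K
  have hpos : ∀ b : R, b ≠ 0 → 0 < G b := fun b hb =>
    lt_of_le_of_ne (h0 b) fun h => hb ((hz b).1 h.symm)
  have hne : ∀ b : R, b ≠ 0 → algebraMap R K b ≠ 0 := fun b hb =>
    (map_ne_zero_iff _ inj).2 hb
  have hG0 : G 0 = 0 := (hz 0).2 rfl
  let w : K → ℝ := fun z => G (nu z) / G (de z)
  have hw0 : ∀ z, 0 ≤ w z := fun z => div_nonneg (h0 _) (h0 _)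
  have hd : ∀ z, de z ≠ 0 := fun z => nonZeroDivisors.ne_zero (hde z)
  have key : ∀ a b : R, b ≠ 0 → w (algebraMap R K a / algebraMap R K b) = G a / G b := by
    intro a b hb
    set z := algebraMap R K a / algebraMap R K b with hzdef
    have h1 := (hnd z).trans hzdef
    rw [div_eq_div_iff (hne _ (hd z)) (hne _ hb), ← map_mul, ← map_mul] at h1
    have h2 := congrArg G (inj h1)
    rw [hm, hm] at h2
    simp only [w]
    rw [div_eq_div_iff (hpos _ (hd z)).ne' (hpos _ hb).ne', h2]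
  have hna' : IsNonarchimedean w := by
    intro x y
    have hx := hpos _ (hd x)
    have hy := hpos _ (hd y)
    have h1 : x + y = algebraMap R K (nu x * de y + de x * nu y) / algebraMap R K (de x * de y) := by
      rw [map_add, map_mul, map_mul, map_mul, ← div_add_div _ _ (hne _ (hd x)) (hne _ (hd y)),
        hnd, hnd]
    rw [h1, key _ _ (mul_ne_zero (hd x) (hd y)), hm, div_le_iff₀ (mul_pos hx hy)]
    refine (hna _ _).trans (max_le ?_ ?_)
    · refine le_trans (le_of_eq ?_) (mul_le_mul_of_nonneg_right (le_max_left (w x) (w y))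
        (mul_pos hx hy).le)
      simp only [w, hm]
      field_simp
    · refine le_trans (le_of_eq ?_) (mul_le_mul_of_nonneg_right (le_max_right (w x) (w y))
        (mul_pos hx hy).le)
      simp only [w, hm]
      field_simp
  have hzero : ∀ z, w z = 0 ↔ z = 0 := by
    intro z
    simp only [w]
    rw [div_eq_zero_iff, or_iff_left (hpos _ (hd z)).ne', hz]
    conv_rhs => rw [← hnd z, div_eq_zero_iff, or_iff_left (hne _ (hd z)), map_eq_zero_iff _ inj]
  refine ⟨⟨⟨w, fun x y => ?_⟩, hw0, hzero, fun x y => ?_⟩, hna', fun a b => ?_⟩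
  · have h1 : x * y = algebraMap R K (nu x * nu y) / algebraMap R K (de x * de y) := by
      rw [map_mul, map_mul, ← div_mul_div_comm, hnd, hnd]
    rw [h1, key _ _ (mul_ne_zero (hd x) (hd y)), hm, hm, ← div_mul_div_comm]
  · exact (hna' x y).trans (max_le (le_add_of_nonneg_right (hw0 y))
      (le_add_of_nonneg_left (hw0 x)))
  · change w _ = _
    rcases eq_or_ne b 0 with rfl | hb
    · rw [map_zero, div_zero, hG0, div_zero, hzero]
    · exact key a b hb

/-- The rational function field with the Gauss norm and the twist of the coefficients. -/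
theorem amb1 {C : Type u} [NormedField C] [IsUltrametricDist C] (q : ℕ) (hq : 0 < q)
    (fr : C →+* C) (hfr : ∀ x, fr x = x ^ q) :
    ∃ (K : Type u) (_ : NormedField K) (_ : IsUltrametricDist K) (_ : Algebra C K) (t : K)
      (σ : K →+* K), (∀ (H : C[X]) (j : ℕ), ‖H.coeff j‖ ≤ ‖aeval t H‖) ∧
        (∀ H : C[X], ∃ j, ‖aeval t H‖ ≤ ‖H.coeff j‖) ∧
        (∀ c : C, σ (algebraMap C K c) = algebraMap C K (c ^ q)) ∧ σ t = t ∧
        ∀ y, ‖σ y‖ = ‖y‖ ^ q := by
  let u : AbsoluteValue C ℝ := NormedField.toAbsoluteValue C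
  have hu : IsNonarchimedean u := IsUltrametricDist.isNonarchimedean_norm
  let G : C[X] → ℝ := gaussNorm u 1
  have h0 : ∀ a, 0 ≤ G a := fun a => gaussNorm_nonneg u a zero_le_one
  have hle : ∀ (a : C[X]) (j : ℕ), ‖a.coeff j‖ ≤ G a := fun a j => by
    have := le_gaussNorm u a zero_le_one j
    rwa [one_pow, mul_one] at this
  have hex : ∀ a : C[X], ∃ j, G a = ‖a.coeff j‖ := fun a => by
    obtain ⟨j, hj⟩ := exists_eq_gaussNorm u 1 a
    rw [one_pow, mul_one] at hj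
    exact ⟨j, hj⟩
  have hG1 : G 1 = 1 := by
    have := gaussNorm_C u 1 (1 : C)
    rw [map_one, map_one] at this
    exact this
  have hfrG : ∀ a : C[X], G (a.map fr) = G a ^ q := by
    intro a
    apply le_antisymm
    · obtain ⟨j, hj⟩ := hex (a.map fr)
      rw [hj, coeff_map, hfr, norm_pow]
      exact pow_le_pow_left₀ (norm_nonneg _) (hle a j) q
    · obtain ⟨j, hj⟩ := hex a
      rw [hj, ← norm_pow, ← hfr, ← coeff_map]
      exact hle _ j
  obtain ⟨v, hv, hdiv⟩ := amb1_ext (K := FractionRing C[X]) G h0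
    (fun a => gaussNorm_eq_zero_iff u a (fun _ hx => u.eq_zero.1 hx) one_pos)
    (fun a b => gaussNorm_mul hu one_pos a b) (isNonarchimedean_gaussNorm u hu zero_le_one)
  have hval : ∀ a : C[X], v (algebraMap C[X] (FractionRing C[X]) a) = G a := fun a => by
    simpa [hG1] using hdiv a 1
  have hinj : Function.Injective
      ((algebraMap C[X] (FractionRing C[X])).comp (mapRingHom fr)) :=
    (IsFractionRing.injective C[X] _).comp (map_injective fr fr.injective)
  let σ : FractionRing C[X] →+* FractionRing C[X] := IsFractionRing.lift hinj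
  have hσ : ∀ a : C[X], σ (algebraMap C[X] _ a) = algebraMap C[X] _ (a.map fr) := fun a =>
    IsFractionRing.lift_algebraMap hinj a
  have hev : ∀ H : C[X], aeval (algebraMap C[X] (FractionRing C[X]) X) H =
      algebraMap C[X] (FractionRing C[X]) H := fun H => by
    rw [aeval_algebraMap_apply, aeval_X_left_apply]
  let nf : NormedField (FractionRing C[X]) := v.toNormedField
  have hn : ∀ y : FractionRing C[X], ‖y‖ = v y := fun _ => rfl
  refine ⟨FractionRing C[X], nf, IsUltrametricDist.isUltrametricDist_of_isNonarchimedean_norm hv,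
    inferInstance, algebraMap C[X] _ X, σ, fun H j => ?_, fun H => ?_, fun c => ?_, ?_,
    fun y => ?_⟩
  · rw [hev, hn, hval]
    exact hle H j
  · obtain ⟨j, hj⟩ := hex H
    exact ⟨j, by rw [hev, hn, hval, hj]⟩
  · rw [IsScalarTower.algebraMap_apply C C[X] (FractionRing C[X]),
      IsScalarTower.algebraMap_apply C C[X] (FractionRing C[X]), hσ, Polynomial.algebraMap_apply,
      Polynomial.algebraMap_apply, map_C, Algebra.algebraMap_self_apply, Algebra.algebraMap_self_apply, hfr]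
  · rw [hσ, map_X]
  · obtain ⟨a, b, -, rfl⟩ := IsFractionRing.div_surjective C[X] y
    rw [map_div₀, hσ, hσ, hn, hn, hdiv, hdiv, hfrG, hfrG, div_pow]

end Pool.Agent.MP_655169_nt

end

section

namespace Pool.Agent.MP_655169_nt

open Polynomial Filter Topology

universe u

/-- The ambient data exist. -/
theorem amb {F : Type*} {C : Type u} [Field F] [Fintype F] [NormedField C] [IsUltrametricDist C]
    [Algebra F C] (θ : C) (hθ : 1 < ‖θ‖) :
    ∃ (Ω : Type u) (_ : NormedField Ω) (_ : IsUltrametricDist Ω) (_ : IsAlgClosed Ω)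
      (_ : Algebra C Ω) (_ : Algebra F Ω) (_ : IsScalarTower F C Ω) (Z : Sit F C Ω), Z.θ = θ := by
  have hq : 0 < qq F := Fintype.card_pos
  let fr : C →+* C := (FiniteField.frobeniusAlgHom F C).toRingHom
  have hfr : ∀ x, fr x = x ^ qq F := fun x => rfl
  obtain ⟨K, _, _, _, t, σ, g1, g2, g3, g4, g5⟩ := amb1 (qq F) hq fr hfr
  obtain ⟨L, iL, _, _, φ, τ, p1, p2, p3⟩ := amb2 (qq F) hq σ g5
  have hK : 1 < ‖φ (algebraMap C K θ)‖ := by
    have := g1 (Polynomial.C θ) 0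
    simp only [coeff_C_zero, aeval_C] at this
    rw [p1]
    exact hθ.trans_le this
  let : NontriviallyNormedField L := { iL with non_trivial := ⟨_, hK⟩ }
  obtain ⟨Ω, iΩ, _, _, ψ, υ, r1, r2, r3⟩ := amb3 (qq F) hq τ p3
  let aC : Algebra C Ω := ((ψ.comp φ).comp (algebraMap C K)).toAlgebra
  let aF : Algebra F Ω := ((algebraMap C Ω).comp (algebraMap F C)).toAlgebra
  have tw : IsScalarTower F C Ω := IsScalarTower.of_algebraMap_eq fun _ => rfl
  have key : ∀ H : C[X], aeval (ψ (φ t)) H = ψ (φ (aeval t H)) := by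
    intro H
    have := Polynomial.hom_eval₂ H (algebraMap C K) (ψ.comp φ) t
    simp only [RingHom.comp_apply] at this
    rw [aeval_def, aeval_def, this]
    rfl
  refine ⟨Ω, iΩ, inferInstance, inferInstance, aC, aF, tw,
    { θ := θ, hθ := hθ, fr := fr, fr_eq := hfr, t := ψ (φ t), σ := υ, gauss_le := ?_,
      gauss_ge := ?_, σ_c := ?_, σ_t := ?_, σ_norm := r3, compl := ?_ }, rfl⟩
  · intro H j
    rw [key, r1, p1]
    exact g1 H j
  · intro H
    rw [key, r1, p1]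
    exact g2 H
  · intro c
    change υ (ψ (φ (algebraMap C K c))) = ψ (φ (algebraMap C K (c ^ qq F)))
    rw [r2, p2, g3]
  · rw [r2, p2, g4]
  · intro v hv hc
    have hiso : Isometry ψ := AddMonoidHomClass.isometry_of_norm ψ r1
    have : ∀ n, ∃ w : L, ψ w = v n := by
      intro n
      obtain ⟨a, b, e⟩ := hv n
      exact ⟨φ (aeval t a) / φ (aeval t b), by rw [e, key, key, map_div₀]⟩
    choose w hw using this
    have hcw : CauchySeq w := by
      rw [Metric.cauchySeq_iff] at hc ⊢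
      intro ε hε
      obtain ⟨N, hN⟩ := hc ε hε
      exact ⟨N, fun a ha b hb => by rw [← hiso.dist_eq, hw, hw]; exact hN a ha b hb⟩
    obtain ⟨y, hy⟩ := cauchySeq_tendsto_of_complete hcw
    refine ⟨ψ y, ?_⟩
    have := (hiso.continuous.tendsto y).comp hy
    simpa [Function.comp_def, hw] using this

end Pool.Agent.MP_655169_nt

end
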