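import Pool.Agent.Mg.F655169.G9d5872
import Pool.Agent.Mg.F655169.G515f82
import Pool.Agent.Mg.F655169.Gdbabcc

section

/-! The period. -/

namespace Pool.Agent.MP_ee2255_nt.T

open Polynomial Filter Topology Pool.Agent.MP_655169_nt

theorem TPi_zeta {F K : Type*} [Field F] [Fintype F] [NormedField K] {θ ζ : K} (hθ : 1 < ‖θ‖)
    (hζ : ζ ^ (qq F - 1) = -θ) : 1 < ‖ζ‖ ∧ ‖ζ‖ ≤ ‖θ‖ := by
  have h : ‖ζ‖ ^ (qq F - 1) = ‖θ‖ := by rw [← norm_pow, hζ, norm_neg]
  have h2 : 2 ≤ qq F := two_le_qq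
  have h1 : 1 < ‖ζ‖ := by
    by_contra hn
    exact absurd (h ▸ pow_le_one₀ (norm_nonneg ζ) (not_lt.1 hn)) (not_le.2 hθ)
  exact ⟨h1, h ▸ le_self_pow₀ h1.le (by omega)⟩

theorem TPi_pow {F K : Type*} [Field F] [Fintype F] [Field K] {θ ζ : K}
    (hζ : ζ ^ (qq F - 1) = -θ) : ζ ^ qq F = -(θ * ζ) := by
  have h2 : 2 ≤ qq F := two_le_qq
  rw [show qq F = qq F - 1 + 1 by omega, pow_succ, hζ, neg_mul]

theorem exists_per {F K : Type*} [Field F] [Fintype F] [NormedField K] [IsUltrametricDist K]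
    [CompleteSpace K] [Algebra F K] {θ ζ : K} (hθ : 1 < ‖θ‖) (hζ : ζ ^ (qq F - 1) = -θ) :
    ∃ π : K, HS F θ (π / θ) ζ ∧ ‖π‖ = ‖θ‖ * ‖ζ‖ := by
  have hz := TPi_zeta hθ hζ
  have h0 : 0 < ‖θ‖ := one_pos.trans hθ
  have hθ0 : θ ≠ 0 := norm_pos_iff.1 h0
  let T : K → K := fun w => ζ - (carlitzExp (qq F) θ w - w)
  have key : ∀ w w' : K, ‖w‖ ≤ ‖θ‖ → ‖w'‖ ≤ ‖θ‖ → ‖T w - T w'‖ * ‖θ‖ ≤ ‖w - w'‖ := by
    intro w w' hw hw'
    have h1 : ‖w' - w‖ ≤ ‖θ‖ := by
      rw [sub_eq_add_neg]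
      exact (IsUltrametricDist.norm_add_le_max _ _).trans (max_le hw' (by rwa [norm_neg]))
    have h2 := (((HS.exp (F := F) hθ w').sub (HS.exp hθ w)).iso hθ h1).2
    have e : T w - T w' = carlitzExp (qq F) θ w' - carlitzExp (qq F) θ w - (w' - w) := by
      simp only [T]
      ring
    rw [e, norm_sub_rev w]
    exact h2
  have hm : Set.MapsTo T (Metric.closedBall 0 ‖θ‖) (Metric.closedBall 0 ‖θ‖) := by
    intro w hw
    rw [mem_closedBall_zero_iff] at hw ⊢
    have h2 := ((HS.exp (F := F) hθ w).iso hθ hw).2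
    have h3 : ‖carlitzExp (qq F) θ w - w‖ ≤ ‖θ‖ :=
      ((le_mul_of_one_le_right (norm_nonneg _) hθ.le).trans h2).trans hw
    simp only [T]
    rw [sub_eq_add_neg ζ]
    exact (IsUltrametricDist.norm_add_le_max _ _).trans (max_le hz.2 (by rwa [norm_neg]))
  have hc : ContractingWith ‖θ‖₊⁻¹ (hm.restrict T _ _) := by
    refine ⟨inv_lt_one_of_one_lt₀ (by exact_mod_cast hθ), LipschitzWith.of_dist_le_mul ?_⟩
    intro w w'
    have h1 := key w w' (mem_closedBall_zero_iff.1 w.2) (mem_closedBall_zero_iff.1 w'.2)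
    rw [Subtype.dist_eq, Subtype.dist_eq, dist_eq_norm, dist_eq_norm, NNReal.coe_inv, coe_nnnorm,
      inv_mul_eq_div, le_div_iff₀ h0]
    exact h1
  obtain ⟨w, hw, hf, -⟩ := hc.exists_fixedPoint' Metric.isClosed_closedBall.isComplete hm
    (Metric.mem_closedBall_self h0.le) (edist_ne_top _ _)
  have he : carlitzExp (qq F) θ w = ζ := by
    have : ζ - (carlitzExp (qq F) θ w - w) = w := hf
    linear_combination -this
  have hs : HS F θ w ζ := he ▸ HS.exp hθ w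
  refine ⟨θ * w, by rwa [mul_div_cancel_left₀ _ hθ0], ?_⟩
  rw [norm_mul, (hs.iso hθ (mem_closedBall_zero_iff.1 hw)).1]

theorem zeta_norm {F K : Type*} [Field F] [Fintype F] [NormedField K] {θ ζ : K} (hθ : 1 < ‖θ‖)
    (hζ : ζ ^ (qq F - 1) = -θ) : 1 < ‖ζ‖ ∧ ‖ζ‖ ≤ ‖θ‖ := TPi_zeta hθ hζ

variable {F E C Ω : Type*} [Field F] [Fintype F] [Field E] [Infinite E] [NormedField C]
  [IsUltrametricDist C] [IsAlgClosed C] [Algebra F C] [Algebra E C] [Algebra F E]
  [IsScalarTower F E C] [NormedField Ω] [IsUltrametricDist Ω] [IsAlgClosed Ω]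
  [Algebra C Ω] [Algebra F Ω] [IsScalarTower F C Ω] (X : Ctx F E C Ω)

theorem per_zero : HS F X.Z.θ X.per 0 := by
  have h0 : X.Z.θ ≠ 0 := norm_pos_iff.1 (one_pos.trans X.Z.hθ)
  have h := X.hπ.theta X.Z.hθ
  rw [mul_div_cancel₀ _ h0, TPi_pow X.hζ, add_neg_cancel] at h
  exact h

theorem per_agf {al : C} {f : Ω} (h : X.Z.Agf X.per al f) : al = 0 ∧ 1 ≤ ‖f‖ := by
  refine ⟨HS.unique h.hs (per_zero X), ?_⟩
  have hz := zeta_norm X.Z.hθ X.hζ
  have h0 : 0 < ‖X.Z.θ‖ := one_pos.trans X.Z.hθ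
  have e : ∀ i, ‖algebraMap C Ω (X.Z.ee X.per i) /
      (algebraMap C Ω (X.Z.θ ^ qq F ^ i) - X.Z.t)‖ = (‖X.ζ‖ / ‖X.Z.θ‖ ^ i) ^ qq F ^ i := by
    intro i
    rw [X.Z.basic_t1, Sit.ee, norm_div, norm_carlitzD _ two_le_qq _ X.Z.hθ, norm_pow, X.nπ,
      mul_pow, div_pow, pow_mul]
    field_simp
  have h1 := basic_tail _ f h.lim 1 1 zero_le_one fun i hi => by
    rw [e]
    refine pow_le_one₀ (by positivity) ((div_le_one (by positivity)).2 (hz.2.trans ?_))
    exact le_self_pow₀ X.Z.hθ.le (by omega)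
  rw [Finset.sum_range_one] at h1
  have h2 := e 0
  rw [pow_zero ‖X.Z.θ‖, div_one, pow_zero (qq F), pow_one ‖X.ζ‖] at h2
  rw [pow_zero (qq F)] at h1
  by_contra hn
  have h3 := IsUltrametricDist.norm_add_le_max f (-(f - algebraMap C Ω (X.Z.ee X.per 0) /
      (algebraMap C Ω (X.Z.θ ^ 1) - X.Z.t)))
  rw [norm_neg, neg_sub, add_sub_cancel, h2] at h3
  exact absurd (h3.trans (max_le (not_le.1 hn).le h1)) (not_le.2 hz.1)

theorem TPi_near (N : ℕ) : ∀ (u a : C) (ε : ℝ), u ∈ X.E0 → HS F X.Z.θ u a →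
    ‖u‖ ≤ ‖X.Z.θ‖ ^ (N + 1) → ‖a‖ ≤ ε → ε < 1 →
    ∃ g : F[X], g.natDegree ≤ N ∧ ‖u - aeval X.Z.θ g * X.per‖ ≤ ε := by
  have hθ := X.Z.hθ
  have h0 : 0 < ‖X.Z.θ‖ := one_pos.trans hθ
  have hθ0 : X.Z.θ ≠ 0 := norm_pos_iff.1 h0
  have hz := zeta_norm hθ X.hζ
  have hζ0 : X.ζ ≠ 0 := norm_pos_iff.1 (one_pos.trans hz.1)
  have hq : 2 ≤ qq F := two_le_qq
  have hθE : X.Z.θ ∈ X.E0 := X.hθ ▸ X.memω X.iθ
  induction N with
  | zero =>
    intro u a ε _ h hN ha _
    rw [zero_add, pow_one] at hN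
    refine ⟨0, by simp, ?_⟩
    rw [map_zero, zero_mul, sub_zero, ← (h.iso hθ hN).1]
    exact ha
  | succ N ih =>
    intro u a ε hu h hN ha hε
    obtain ⟨s, hs⟩ := X.hex (u / X.Z.θ) (div_mem hu hθE)
    have e1 : a = X.Z.θ * s + s ^ qq F := by
      have h1 := hs.theta hθ
      rw [mul_div_cancel₀ _ hθ0] at h1
      exact h.unique h1
    have e2 : (s / X.ζ) ^ qq F - s / X.ζ = a / X.ζ ^ qq F := by
      rw [div_pow, e1, TPi_pow X.hζ]
      field_simp
      ring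
    obtain ⟨c, hc⟩ := near_F (F := F) (s / X.ζ) (by
      rw [e2, norm_div, norm_pow]
      exact (div_le_self (norm_nonneg _) (one_le_pow₀ hz.1.le)).trans_lt (ha.trans_lt hε))
    have hs' := hs.sub (X.hπ.smul c)
    have hlt : ‖s - c • X.ζ‖ < ‖X.ζ‖ := by
      have e : s - c • X.ζ = (s / X.ζ - algebraMap F C c) * X.ζ := by
        rw [Algebra.smul_def]
        field_simp
      rw [e, norm_mul]
      exact mul_lt_of_lt_one_left (one_pos.trans hz.1) hc
    have e3 : a = X.Z.θ * (s - c • X.ζ) + (s - c • X.ζ) ^ qq F := by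
      have h1 := hs'.theta hθ
      have h2 := h.sub ((per_zero X).smul c)
      rw [smul_zero, sub_zero] at h2
      have e : X.Z.θ * (u / X.Z.θ - c • (X.per / X.Z.θ)) = u - c • X.per := by
        rw [Algebra.smul_def, Algebra.smul_def]
        field_simp
      rw [e] at h1
      exact h2.unique h1
    have e4 : ‖s - c • X.ζ‖ ≤ ε / ‖X.Z.θ‖ := by
      rw [le_div_iff₀ h0]
      refine le_trans ?_ ha
      have e : a = (X.Z.θ - -(s - c • X.ζ) ^ (qq F - 1)) * (s - c • X.ζ) := by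
        rw [e3, show qq F = qq F - 1 + 1 by omega, pow_succ, Nat.add_sub_cancel]
        ring
      have hl : ‖-(s - c • X.ζ) ^ (qq F - 1)‖ < ‖X.Z.θ‖ := by
        rw [norm_neg, norm_pow, ← norm_neg X.Z.θ, ← X.hζ, norm_pow]
        exact pow_lt_pow_left₀ hlt (norm_nonneg _) (by omega)
      rw [e, norm_mul, basic1_norm_sub hl, mul_comm]
    have hε0 : 0 ≤ ε := (norm_nonneg _).trans ha
    obtain ⟨g, hg, hg'⟩ := ih (u / X.Z.θ - c • (X.per / X.Z.θ)) _ (ε / ‖X.Z.θ‖)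
      (by
        rw [Algebra.smul_def]
        exact sub_mem (div_mem hu hθE) (mul_mem (X.memF c) (div_mem X.memπ hθE))) hs'
      (by
        rw [sub_eq_add_neg]
        refine (IsUltrametricDist.norm_add_le_max _ _).trans (max_le ?_ ?_)
        · rw [norm_div, div_le_iff₀ h0, ← pow_succ]
          exact hN
        · rw [norm_neg, Algebra.smul_def, norm_mul, norm_div, X.nπ, mul_div_cancel_left₀ _ h0.ne']
          exact (mul_le_of_le_one_left (norm_nonneg _) (norm_F_le c)).trans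
            (hz.2.trans (le_self_pow₀ hθ.le (by omega)))) e4
      ((div_le_self hε0 hθ.le).trans_lt hε)
    refine ⟨Polynomial.X * g + Polynomial.C c, ?_, ?_⟩
    · refine natDegree_add_le_of_degree_le (natDegree_mul_le.trans ?_) (by simp)
      have := natDegree_X_le (R := F)
      omega
    · have e : u - aeval X.Z.θ (Polynomial.X * g + Polynomial.C c) * X.per =
          X.Z.θ * (u / X.Z.θ - c • (X.per / X.Z.θ) - aeval X.Z.θ g * X.per) := by
        rw [map_add, map_mul, aeval_X, aeval_C, Algebra.smul_def]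
        field_simp
        ring
      rw [e, norm_mul, mul_comm, ← le_div_iff₀ h0]
      exact hg'

/-- A point with small exponential is close to the period lattice. -/
theorem per_near (N : ℕ) {u a : C} (hu : u ∈ X.E0) (h : HS F X.Z.θ u a) (hN : ‖u‖ ≤ ‖X.Z.θ‖ ^ N)
    {ε : ℝ} (ha : ‖a‖ ≤ ε) (hε : ε < 1) :
    ∃ g : F[X], g.natDegree ≤ N ∧ ‖u - aeval X.Z.θ g * X.per‖ ≤ ε :=
  TPi_near X N u a ε hu h (hN.trans (pow_le_pow_right₀ X.Z.hθ.le (Nat.le_succ N))) ha hε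

end Pool.Agent.MP_ee2255_nt.T

end

section

/-! Ranks of families. -/

namespace Pool.Agent.MP_ee2255_nt.T

open Polynomial Filter Topology Pool.Agent.MP_655169_nt

variable {E : Type*} [Field E] {C : Type*} [Field C] [Algebra E C] {κ : Type*}
  {κ' : Type*} {ω : κ → C} {d : ℕ}

theorem rk_iff_set : Rk E ω d ↔
    ∃ I, I ⊆ Set.range ω ∧ AlgebraicIndepOn E id I ∧ I.encard = (d : ℕ∞) := by
  constructor
  · rintro ⟨e, he⟩
    refine ⟨Set.range (ω ∘ e), ?_, he.to_subtype_range, ?_⟩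
    · rintro _ ⟨i, rfl⟩
      exact ⟨e i, rfl⟩
    · rw [← Set.image_univ, he.injective.encard_image, Set.encard_univ]
      simp
  · rintro ⟨I, hI, hind, hcard⟩
    have hfin : I.Finite := Set.finite_of_encard_eq_coe hcard
    have : Fintype I := hfin.fintype
    have hc : Fintype.card I = d := by
      have h1 : (I.encard) = (Fintype.card I : ℕ∞) := (Set.coe_fintypeCard I).symm
      rw [hcard] at h1
      exact_mod_cast h1.symm
    let g : Fin d ≃ I := (Fintype.equivFinOfCardEq hc).symm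
    choose e he using fun i : Fin d => hI (g i).2
    refine ⟨e, ?_⟩
    have h2 : ω ∘ e = (fun x : I => id (x : C)) ∘ g := funext fun i => he i
    rw [h2]
    exact AlgebraicIndependent.comp hind g g.injective

theorem rk_iff : Rk E ω d ↔
    (d : ℕ∞) ≤ (AlgebraicIndependent.matroid E C).eRk (Set.range ω) := by
  rw [rk_iff_set, Matroid.le_eRk_iff]
  rfl

theorem Rk.mono {d' : ℕ} (h : Rk E ω d) (hd : d' ≤ d) : Rk E ω d' := by
  rw [rk_iff] at h ⊢
  exact le_trans (by exact_mod_cast hd) h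

theorem Rk.comp {ω' : κ' → C} (h : Rk E ω d) (hr : ∀ i, ∃ j, ω i = ω' j) : Rk E ω' d := by
  rw [rk_iff] at h ⊢
  refine h.trans (Matroid.eRk_mono _ ?_)
  rintro _ ⟨i, rfl⟩
  obtain ⟨j, hj⟩ := hr i
  exact ⟨j, hj.symm⟩

theorem Rk.map_iff {C' : Type*} [Field C'] [Algebra E C'] (φ : C →ₐ[E] C') :
    Rk E (φ ∘ ω) d ↔ Rk E ω d :=
  exists_congr fun e => φ.algebraicIndependent_iff (x := ω ∘ e) φ.toRingHom.injective

theorem Rk.exch {ω' : κ' → C} (h : Rk E ω d)
    (ha : ∀ i, IsAlgebraic (IntermediateField.adjoin E (Set.range ω')) (ω i)) : Rk E ω' d := by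
  rw [rk_iff] at h ⊢
  rw [← Matroid.eRk_closure_eq]
  refine h.trans (Matroid.eRk_mono _ ?_)
  rintro _ ⟨i, rfl⟩
  rw [AlgebraicIndependent.matroid_closure_eq, SetLike.mem_coe, Subalgebra.mem_algebraicClosure]
  exact IntermediateField.isAlgebraic_adjoin_iff.1 (ha i)

theorem Rk.drop (w : C) (h : Rk E (fun o : Option κ => o.elim w ω) (d + 1)) : Rk E ω d := by
  rw [rk_iff] at h ⊢
  rw [Option.range_eq] at h
  have h2 := h.trans (Matroid.eRk_insert_le_add_one _ _ _)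
  rw [Nat.cast_add_one] at h2
  exact (ENat.add_le_add_iff_right ENat.one_ne_top).1 h2

theorem exists_max [Finite κ] (ω : κ → C) : ∃ d, Rk E ω d ∧ ¬ Rk E ω (d + 1) := by
  have h : (AlgebraicIndependent.matroid E C).eRk (Set.range ω) ≠ ⊤ :=
    ((Matroid.eRk_le_encard _ _).trans_lt (Set.finite_range ω).encard_lt_top).ne
  obtain ⟨n, hn⟩ := ENat.ne_top_iff_exists.1 h
  refine ⟨n, rk_iff.2 hn.le, fun h' => ?_⟩
  rw [rk_iff, ← hn] at h'
  have : n + 1 ≤ n := by exact_mod_cast h'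
  omega

theorem grow_of_max [Finite κ] (h : Rk E ω d) (h' : ¬ Rk E ω (d + 1)) : ∃ c, Grow E ω c d := by
  have : Fintype κ := Fintype.ofFinite κ
  obtain ⟨e, he⟩ := h
  have h1 : ∀ i, ∃ D, Alg E (ω ∘ e) D D (ω i) := by
    intro i
    refine alg_of_not_indep he _ fun hi => h' ?_
    refine ⟨fun j => (finSuccEquiv d j).elim i e, ?_⟩
    have h2 : (ω ∘ fun j => (finSuccEquiv d j).elim i e) =
        (fun o : Option (Fin d) => o.elim (ω i) (ω ∘ e)) ∘ finSuccEquiv d := by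
      funext j
      simp only [Function.comp_apply]
      cases finSuccEquiv d j <;> rfl
    rw [h2]
    exact hi.comp _ (finSuccEquiv d).injective
  choose D hD using h1
  have h3 : Grow E (ω ∘ e) 1 d := by
    have := grow_base (F := E) (ω ∘ e)
    rwa [Fintype.card_fin] at this
  have h4 := grow_tower (ω ∘ e) ω 1 d (Finset.univ.sup D) h3 fun i =>
    (hD i).mono (Finset.le_sup (Finset.mem_univ i)) (Finset.le_sup (Finset.mem_univ i))
  have h5 : ∀ k, ∃ j, ω k = Sum.elim (ω ∘ e) ω j := fun k => ⟨Sum.inr k, rfl⟩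
  have h6 := Grow_of_range h5 h4
  exact ⟨_, h6⟩

theorem Rk.ext {F : Type*} [Field F] [Algebra F E] [Algebra F C] [IsScalarTower F E C]
    [Algebra.IsAlgebraic F E] (h : Rk F ω d) : Rk E ω d := by
  obtain ⟨e, he⟩ := h
  exact ⟨e, he.extendScalars E⟩

theorem vs_tower {F : Type*} [Field F] [Algebra F E] [Algebra F C] [IsScalarTower F E C] {D : ℕ}
    {a : C} (h : a ∈ Vs F ω D) : a ∈ Vs E ω D := by
  obtain ⟨G, hG, rfl⟩ := (mem_Vs ω D a).1 h
  refine (mem_Vs ω D _).2 ⟨MvPolynomial.map (algebraMap F E) G, ?_,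
    MvPolynomial.aeval_map_algebraMap E ω G⟩
  refine le_trans ?_ hG
  exact Finset.sup_mono (MvPolynomial.support_map_subset _ _)

theorem vs_expand (G : MvPolynomial κ E) :
    MvPolynomial.aeval ω G = ∑ e ∈ G.support, G.coeff e • ∏ i ∈ e.support, ω i ^ e i := by
  rw [MvPolynomial.aeval_def, MvPolynomial.eval₂_eq]
  exact Finset.sum_congr rfl fun e _ => (Algebra.smul_def _ _).symm

theorem vs_mono_mem {y : κ' → C} {D : ℕ} (hy : ∀ i, y i ∈ Vs E ω D) (e : κ' →₀ ℕ) :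
    ∏ i ∈ e.support, y i ^ e i ∈ Vs E ω (D * e.sum fun _ k => k) := by
  have := Vs_aeval ω y D hy (MvPolynomial.monomial e (1 : E)) _
    (MvPolynomial.totalDegree_monomial_le e 1)
  rw [MvPolynomial.aeval_monomial, map_one, one_mul] at this
  exact this

theorem grow_ext {F : Type*} [Field F] [Algebra F E] [Algebra F C] [IsScalarTower F E C]
    [Finite κ] {c : ℕ} (h : Grow F ω c d) : Grow E ω c d := by
  intro M
  let b := Module.finBasis F (Vs F ω M)
  have h1 : Vs E ω M ≤ Submodule.span E (Set.range fun i => (b i : C)) := by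
    intro η hη
    obtain ⟨G, hG, rfl⟩ := (mem_Vs ω M η).1 hη
    rw [vs_expand]
    refine Submodule.sum_mem _ fun e he => Submodule.smul_mem _ _ ?_
    have h2 : ∏ i ∈ e.support, ω i ^ e i ∈ Vs F ω M := by
      refine Vs_mono ω ?_ (vs_mono_mem (fun i => Vs_var ω i) e)
      rw [one_mul]
      exact (MvPolynomial.le_totalDegree he).trans hG
    refine Submodule.span_subset_span F E _ ?_
    have h3 := congrArg (fun x : Vs F ω M => (x : C)) (b.sum_repr ⟨_, h2⟩)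
    simp only [Submodule.coe_sum, Submodule.coe_smul] at h3
    rw [← h3]
    exact Submodule.sum_mem _ fun i _ => Submodule.smul_mem _ _ (Submodule.subset_span ⟨i, rfl⟩)
  have : Module.Finite E (Submodule.span E (Set.range fun i => (b i : C))) :=
    Module.Finite.span_of_finite E (Set.finite_range _)
  refine (Submodule.finrank_mono h1).trans ((finrank_range_le_card _).trans ?_)
  rw [Fintype.card_fin]
  exact h M

theorem grow_div [Finite κ] {c D : ℕ} (h : Grow E ω c d) (hD : 1 ≤ D) {p : C} (hp0 : p ≠ 0)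
    (hp : p ∈ Vs E ω D) (y : κ' → C) (hy : ∀ i, p * y i ∈ Vs E ω D) :
    Grow E y (c * D ^ d) d := by
  intro M
  have h1 : ∀ η ∈ Vs E y M, LinearMap.mulLeft E (p ^ M) η ∈ Vs E ω (D * M) := by
    intro η hη
    obtain ⟨G, hG, rfl⟩ := (mem_Vs y M η).1 hη
    rw [vs_expand, map_sum]
    refine Submodule.sum_mem _ fun e he => ?_
    rw [map_smul]
    refine Submodule.smul_mem _ _ ?_
    have h2 : (e.sum fun _ k => k) ≤ M := (MvPolynomial.le_totalDegree he).trans hG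
    obtain ⟨t, ht⟩ := Nat.exists_eq_add_of_le h2
    have h3 := Vs_mul ω (vs_mono_mem hy e) (Vs_pow ω hp t)
    rw [← mul_add, ← ht] at h3
    convert h3 using 1
    rw [LinearMap.mulLeft_apply, ht, pow_add]
    simp only [mul_pow, Finset.prod_mul_distrib, Finset.prod_pow_eq_pow_sum]
    rw [Finsupp.sum]
    ring
  have h4 : Function.Injective ((LinearMap.mulLeft E (p ^ M)).restrict h1) := by
    intro a b hab
    have h5 := congrArg Subtype.val hab
    exact Subtype.ext (mul_left_cancel₀ (pow_ne_zero M hp0) h5)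
  refine (LinearMap.finrank_le_finrank_of_injective h4).trans ((h _).trans ?_)
  rw [mul_assoc, ← mul_pow]
  exact Nat.mul_le_mul_left _ (Nat.pow_le_pow_left (by nlinarith) _)

theorem le_of_grow [Finite κ] [Fintype κ'] {c : ℕ} (h : Grow E ω c d) {z : κ' → C}
    (hz : AlgebraicIndependent E z) (hm : ∀ k, z k ∈ Vs E ω 1) : Fintype.card κ' ≤ d := by
  classical
  set n := Fintype.card κ' with hn
  have key : ∀ M : ℕ, (M + 1) ^ n ≤ c * (n * M + 1) ^ d := by
    intro M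
    have hmem : ∀ e : κ' → Fin (M + 1), ∏ k, z k ^ (e k : ℕ) ∈ Vs E ω (n * M) := fun e =>
      HF_prod_mem ω z hm M (fun k => (e k : ℕ)) (fun k => Nat.lt_succ_iff.mp (e k).2) Finset.univ
    let v : (κ' → Fin (M + 1)) → Vs E ω (n * M) := fun e => ⟨_, hmem e⟩
    let ex : (κ' → Fin (M + 1)) → (κ' →₀ ℕ) :=
      fun e => Finsupp.equivFunOnFinite.symm fun k => (e k : ℕ)
    have hex : Function.Injective ex := by
      intro e e' hee
      funext k
      have := congrArg (fun f : κ' →₀ ℕ => f k) hee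
      simpa [ex, Fin.ext_iff] using this
    have h1 := ((MvPolynomial.basisMonomials κ' E).linearIndependent.map'
      (MvPolynomial.aeval z).toLinearMap (LinearMap.ker_eq_bot.2 hz)).comp ex hex
    have h2 : LinearIndependent E v := by
      refine LinearIndependent.of_comp (Vs E ω (n * M)).subtype ?_
      have h0 : (Vs E ω (n * M)).subtype ∘ v = ((MvPolynomial.aeval z).toLinearMap ∘
          MvPolynomial.basisMonomials κ' E) ∘ ex := by
        funext e
        simp [v, ex, MvPolynomial.aeval_monomial, Finsupp.prod_fintype]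
      rw [h0]
      exact h1
    have h3 := h2.fintype_card_le_finrank
    rw [Fintype.card_fun, Fintype.card_fin, ← hn] at h3
    exact h3.trans (h _)
  by_contra hlt
  have hlt' : d + 1 ≤ n := by omega
  set M := c * (n + 1) ^ d with hM
  have h1 : (M + 1) ^ d * (M + 1) ≤ (M + 1) ^ d * M :=
    calc (M + 1) ^ d * (M + 1) = (M + 1) ^ (d + 1) := (pow_succ _ _).symm
      _ ≤ (M + 1) ^ n := Nat.pow_le_pow_right (by omega) hlt'
      _ ≤ c * (n * M + 1) ^ d := key M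
      _ ≤ c * ((n + 1) * (M + 1)) ^ d :=
          Nat.mul_le_mul_left _ (Nat.pow_le_pow_left (by nlinarith) _)
      _ = (M + 1) ^ d * (c * (n + 1) ^ d) := by rw [mul_pow]; ring
  have h2 := Nat.le_of_mul_le_mul_left h1 (by positivity)
  omega

theorem span_le_Vs (S : Finset C) {u : C} (hu : u ∈ Submodule.span E (S : Set C)) :
    u ∈ Vs E (Subtype.val : S → C) 1 := by
  refine (Submodule.span_le.2 fun s hs => ?_ : _ ≤ Vs E (Subtype.val : S → C) 1) hu
  exact Vs_var (F := E) (Subtype.val : S → C) ⟨s, hs⟩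

theorem nn_dim {θ : C} (S : Finset C) (hθ : θ ∈ S) {c m : ℕ}
    (hg : Grow E (Subtype.val : S → C) c d) (hr : Rk E (Subtype.val : S → C) d) {lam : Fin m → C}
    (h1 : ∀ j, lam j ∈ Submodule.span E (S : Set C)) (h2 : AlgebraicIndependent E (zz θ lam))
    (h3 : HInt E θ lam (S : Set C)) : m + 1 = d := by
  have h4 : Fintype.card (Option (Fin m)) ≤ d := by
    refine le_of_grow hg h2 ?_
    rintro (_ | j)
    · exact Vs_var (F := E) (Subtype.val : S → C) ⟨θ, hθ⟩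
    · exact span_le_Vs S (h1 j)
  obtain ⟨g, hg0, hg1⟩ := h3
  have h5 : Transcendental E θ := h2.transcendental none
  have h6 : aeval θ g ≠ 0 := fun h0 => h5 ⟨g, hg0, h0⟩
  have h7 : aeval θ g ∈ Algebra.adjoin E (Set.range (zz θ lam)) :=
    Algebra.adjoin_mono (Set.singleton_subset_iff.2 (Set.mem_range_self (f := zz θ lam) none))
      (Polynomial.aeval_mem_adjoin_singleton E θ)
  have h8 : Rk E (zz θ lam) d := by
    refine hr.exch fun s => IntermediateField.isAlgebraic_adjoin_iff.2 ?_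
    refine IsAlgebraic.of_mul (mem_nonZeroDivisors_of_ne_zero h6) ?_ (hg1 s s.2).isAlgebraic
    exact isAlgebraic_algebraMap (⟨_, h7⟩ : Algebra.adjoin E (Set.range (zz θ lam)))
  obtain ⟨e, he⟩ := h8
  have h9 := Fintype.card_le_of_injective e he.injective.of_comp
  rw [Fintype.card_fin] at h9
  rw [Fintype.card_option, Fintype.card_fin] at h4 h9
  omega

open scoped IntermediateField in
theorem rk_over (θ : C) (hθ : Transcendental E θ)
    (h : Rk E (fun o : Option κ => o.elim θ ω) (d + 1)) : Rk E⟮θ⟯ ω d := by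
  rw [rk_iff, Option.range_eq] at h
  change _ ≤ (AlgebraicIndependent.matroid E C).eRk (insert θ (Set.range ω)) at h
  have h1 : (AlgebraicIndependent.matroid E C).Indep {θ} := by
    rw [AlgebraicIndependent.matroid_indep_iff]
    exact (algebraicIndependent_singleton_iff (⟨θ, rfl⟩ : ({θ} : Set C))).2 hθ
  obtain ⟨B, hB, hθB⟩ := h1.subset_isBasis_of_subset
    (Set.singleton_subset_iff.2 (Set.mem_insert θ (Set.range ω))) (Set.subset_univ _)
  have hθB' : θ ∈ B := Set.singleton_subset_iff.1 hθB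
  rw [← hB.encard_eq_eRk, ← Set.encard_sdiff_singleton_add_one hθB', Nat.cast_add_one] at h
  have h2 : (d : ℕ∞) ≤ (B \ {θ}).encard := (ENat.add_le_add_iff_right ENat.one_ne_top).1 h
  obtain ⟨J, hJ, hJc⟩ := Set.exists_subset_encard_eq h2
  refine rk_iff_set.2 ⟨J, fun x hx => ?_, ?_, hJc⟩
  · rcases hB.subset (hJ hx).1 with h3 | h3
    · exact absurd h3 (hJ hx).2
    · exact h3
  · have h3 : AlgebraicIndependent E (fun x : B => (x : C)) := hB.indep
    let f : J ⊕ Unit → B := Sum.elim (fun x => ⟨x.1, (hJ x.2).1⟩) fun _ => ⟨θ, hθB'⟩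
    have hf : Function.Injective f := by
      rintro (x | x) (y | y) hxy
      · have h6 : (f (Sum.inl x)).1 = (f (Sum.inl y)).1 := congrArg Subtype.val hxy
        exact congrArg Sum.inl (Subtype.ext h6)
      · exact absurd (congrArg Subtype.val hxy) (hJ x.2).2
      · exact absurd (congrArg Subtype.val hxy).symm (hJ y.2).2
      · rfl
    have h4 : AlgebraicIndependent E (Sum.elim (fun x : J => (x : C)) fun _ : Unit => θ) := by
      have h0 : (Sum.elim (fun x : J => (x : C)) fun _ : Unit => θ) =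
          (fun x : B => (x : C)) ∘ f := by
        funext x
        cases x <;> rfl
      rw [h0]
      exact h3.comp f hf
    have h5 := (AlgebraicIndependent.sumElim_iff.1 h4).2
    rw [Set.range_const] at h5
    exact IntermediateField.algebraicIndependent_adjoin_iff.2 h5

open scoped IntermediateField in
theorem rk_trdeg (θ : C) (hθ : Transcendental E θ)
    (h : Rk E (fun o : Option κ => o.elim θ ω) (d + 1)) :
    (d : Cardinal) ≤ Algebra.trdeg E⟮θ⟯ (IntermediateField.adjoin E⟮θ⟯ (Set.range ω)) := by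
  obtain ⟨e, he⟩ := rk_over θ hθ h
  let x : Fin d → IntermediateField.adjoin E⟮θ⟯ (Set.range ω) :=
    fun i => ⟨ω (e i), IntermediateField.subset_adjoin _ _ ⟨e i, rfl⟩⟩
  have hx : AlgebraicIndependent E⟮θ⟯ x :=
    AlgebraicIndependent.of_comp (IntermediateField.adjoin E⟮θ⟯ (Set.range ω)).val he
  have := hx.lift_cardinalMk_le_trdeg
  simpa using this

end Pool.Agent.MP_ee2255_nt.T

end

section

/-! Gauss lemmas. -/

set_option linter.unusedSectionVars false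

namespace Pool.Agent.MP_ee2255_nt.T

open Polynomial Filter Topology Pool.Agent.MP_655169_nt

theorem tGauss_top {R Γ A B : Type*} [CommRing R] [LinearOrderedCommGroupWithZero Γ]
    [LinearOrder B] (φ : A → B) (v : Valuation R Γ) (p : A → R) (S : Finset A)
    (hS : ∀ a, a ∉ S → p a = 0) (e : A) (he : v (p e) ≠ 0) :
    ∃ a0, v (p a0) ≠ 0 ∧ ∀ a, v (p a) ≤ v (p a0) ∧ (v (p a) < v (p a0) ∨ φ a ≤ φ a0) := by
  have heS : e ∈ S := by
    by_contra h
    exact he (by rw [hS e h, map_zero])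
  obtain ⟨a0, -, h0⟩ := S.exists_max_image (fun a => toLex (v (p a), φ a)) ⟨e, heS⟩
  have key : ∀ a ∈ S, v (p a) ≤ v (p a0) ∧ (v (p a) < v (p a0) ∨ φ a ≤ φ a0) := by
    intro a ha
    have := h0 a ha
    rw [Prod.Lex.toLex_le_toLex] at this
    rcases this with h | ⟨h1, h2⟩
    · exact ⟨h.le, Or.inl h⟩
    · exact ⟨h1.le, Or.inr h2⟩
  have hne : v (p a0) ≠ 0 := by
    intro h
    have := (key e heS).1
    rw [h] at this
    exact he (le_zero_iff.1 this)
  refine ⟨a0, hne, fun a => ?_⟩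
  by_cases ha : a ∈ S
  · exact key a ha
  · rw [hS a ha, map_zero]
    exact ⟨zero_le, Or.inl (zero_lt_iff.2 hne)⟩

theorem tGauss_core {R Γ A B : Type*} [CommRing R] [LinearOrderedCommGroupWithZero Γ]
    [AddCommMonoid A] [Finset.HasAntidiagonal A] [AddCommMonoid B] [LinearOrder B]
    [IsOrderedCancelAddMonoid B] (φ : A → B) (hφ : Function.Injective φ)
    (hadd : ∀ a b, φ (a + b) = φ a + φ b) (v : Valuation R Γ) (p q : A → R) (S T : Finset A)
    (hS : ∀ a, a ∉ S → p a = 0) (hT : ∀ a, a ∉ T → q a = 0) (γ : Γ)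
    (h : ∀ n, v (∑ x ∈ Finset.HasAntidiagonal.antidiagonal n, p x.1 * q x.2) ≤ γ) (e e' : A) :
    v (p e) * v (q e') ≤ γ := by
  classical
  by_cases he : v (p e) = 0
  · rw [he, zero_mul]; exact zero_le
  by_cases he' : v (q e') = 0
  · rw [he', mul_zero]; exact zero_le
  obtain ⟨a, ha0, ha⟩ := tGauss_top φ v p S hS e he
  obtain ⟨b, hb0, hb⟩ := tGauss_top φ v q T hT e' he'
  have hapos : 0 < v (p a) := zero_lt_iff.2 ha0
  have hbpos : 0 < v (q b) := zero_lt_iff.2 hb0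
  have key : v (∑ x ∈ Finset.HasAntidiagonal.antidiagonal (a + b), p x.1 * q x.2) = v (p (a, b).1 * q (a, b).2) := by
    refine v.map_sum_eq_of_lt (f := fun x : A × A => p x.1 * q x.2) (j := (a, b))
      (Finset.HasAntidiagonal.mem_antidiagonal.2 rfl) fun x hx => ?_
    rw [Finset.mem_sdiff, Finset.HasAntidiagonal.mem_antidiagonal, Finset.mem_singleton] at hx
    obtain ⟨hx1, hx2⟩ := hx
    rw [map_mul, map_mul]
    rcases (ha x.1).2 with h1 | h1
    · calc v (p x.1) * v (q x.2) ≤ v (p x.1) * v (q b) := mul_le_mul' le_rfl (hb x.2).1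
        _ < v (p a) * v (q b) := mul_lt_mul_of_pos_right h1 hbpos
    rcases (hb x.2).2 with h2 | h2
    · calc v (p x.1) * v (q x.2) ≤ v (p a) * v (q x.2) := mul_le_mul' (ha x.1).1 le_rfl
        _ < v (p a) * v (q b) := mul_lt_mul_of_pos_left h2 hapos
    exfalso
    apply hx2
    have hs : φ x.1 + φ x.2 = φ a + φ b := by rw [← hadd, ← hadd, hx1]
    have e1 : φ x.1 = φ a := by
      by_contra hne
      exact absurd hs (add_lt_add_of_lt_of_le (lt_of_le_of_ne h1 hne) h2).ne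
    have e2 : φ x.2 = φ b := by
      rw [e1] at hs
      exact add_left_cancel hs
    exact Prod.ext (hφ e1) (hφ e2)
  have := h (a + b)
  rw [key, map_mul] at this
  exact (mul_le_mul' (ha e).1 (hb e').1).trans this

/-- Gauss lemma for a valuation. -/
theorem mv_gauss {R Γ σ : Type*} [CommRing R] [LinearOrderedCommGroupWithZero Γ] [Finite σ]
    (v : Valuation R Γ) (P Q : MvPolynomial σ R) (γ : Γ) (h : ∀ e, v ((P * Q).coeff e) ≤ γ)
    (e e' : σ →₀ ℕ) : v (P.coeff e) * v (Q.coeff e') ≤ γ := by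
  classical
  let _ : LinearOrder σ := linearOrderOfSTO WellOrderingRel
  refine tGauss_core (B := Lex (σ →₀ ℕ)) toLex toLex.injective (fun _ _ => rfl) v
    (fun a => P.coeff a) (fun a => Q.coeff a) P.support Q.support
    (fun a ha => MvPolynomial.notMem_support_iff.1 ha)
    (fun a ha => MvPolynomial.notMem_support_iff.1 ha) γ (fun n => ?_) e e'
  have := h n
  rw [MvPolynomial.coeff_mul] at this
  convert this

section GV

variable {R Γ : Type*} [CommRing R] [LinearOrderedCommGroupWithZero Γ] (v : Valuation R Γ)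

/-- The largest valuation of a coefficient. -/
noncomputable def tGauss_gn (P : R[X]) : Γ := P.support.sup fun j => v (P.coeff j)

theorem tGauss_le_gn (P : R[X]) (j : ℕ) : v (P.coeff j) ≤ tGauss_gn v P := by
  by_cases h : j ∈ P.support
  · exact Finset.le_sup (f := fun j => v (P.coeff j)) h
  · rw [notMem_support_iff.1 h, map_zero]
    exact zero_le

theorem tGauss_gn_le (P : R[X]) {γ : Γ} (h : ∀ j, v (P.coeff j) ≤ γ) : tGauss_gn v P ≤ γ :=
  Finset.sup_le fun j _ => h j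

theorem tGauss_exists_gn (P : R[X]) : ∃ j, tGauss_gn v P = v (P.coeff j) := by
  rcases P.support.eq_empty_or_nonempty with h | h
  · refine ⟨0, le_antisymm (tGauss_gn_le v P fun j => ?_) (tGauss_le_gn v P 0)⟩
    rw [support_eq_empty.1 h]
    simp
  · obtain ⟨j, -, hj⟩ := P.support.exists_mem_eq_sup h fun j => v (P.coeff j)
    exact ⟨j, hj⟩

/-- The Gauss valuation on the polynomial ring. -/
noncomputable def tGauss_gv : Valuation R[X] Γ where
  toFun := tGauss_gn v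
  map_zero' := le_zero_iff.1 (tGauss_gn_le v 0 fun j => by simp)
  map_one' := by
    refine le_antisymm (tGauss_gn_le v 1 fun j => ?_) ?_
    · rw [coeff_one]
      split_ifs <;> simp
    · simpa using tGauss_le_gn v 1 0
  map_mul' P Q := by
    refine le_antisymm (tGauss_gn_le v _ fun n => ?_) ?_
    · rw [coeff_mul]
      refine v.map_sum_le fun x _ => ?_
      rw [map_mul]
      exact mul_le_mul' (tGauss_le_gn v P _) (tGauss_le_gn v Q _)
    · obtain ⟨i, hi⟩ := tGauss_exists_gn v P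
      obtain ⟨j, hj⟩ := tGauss_exists_gn v Q
      rw [hi, hj]
      refine tGauss_core (B := ℕ) id Function.injective_id (fun _ _ => rfl) v
        (fun a => P.coeff a) (fun a => Q.coeff a) P.support Q.support
        (fun a ha => notMem_support_iff.1 ha) (fun a ha => notMem_support_iff.1 ha) _
        (fun n => ?_) i j
      rw [← coeff_mul]
      exact tGauss_le_gn v _ n
  map_add_le_max' P Q := by
    refine tGauss_gn_le v _ fun n => ?_
    rw [coeff_add]
    exact (v.map_add _ _).trans (max_le_max (tGauss_le_gn v P n) (tGauss_le_gn v Q n))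

end GV

theorem gauss_val {C : Type*} [Field C] (V : ValuationSubring C) (t : C) {r : ℕ}
    (P Q : MvPolynomial (Fin r) C[X]) (h : ∀ e j, t * ((P * Q).coeff e).coeff j ∈ V)
    (e : Fin r →₀ ℕ) (j : ℕ) (e' : Fin r →₀ ℕ) (j' : ℕ) :
    t * ((P.coeff e).coeff j * (Q.coeff e').coeff j') ∈ V := by
  by_cases ht : t = 0
  · rw [ht, zero_mul]
    exact V.zero_mem
  have hpos : 0 < V.valuation t := zero_lt_iff.2 ((Valuation.ne_zero_iff _).2 ht)
  have key : ∀ c : C, t * c ∈ V ↔ V.valuation c ≤ (V.valuation t)⁻¹ := by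
    intro c
    rw [← V.valuation_le_one_iff, map_mul, ← mul_one (V.valuation t)⁻¹, le_inv_mul_iff₀ hpos]
  have h1 := mv_gauss (tGauss_gv V.valuation) P Q (V.valuation t)⁻¹
    (fun e => tGauss_gn_le V.valuation _ fun j => (key _).1 (h e j)) e e'
  rw [key, map_mul]
  exact (mul_le_mul' (tGauss_le_gn V.valuation _ j) (tGauss_le_gn V.valuation _ j')).trans h1

variable {F C Ω : Type*} [Field F] [Fintype F] [NormedField C] [IsUltrametricDist C]
  [IsAlgClosed C] [Algebra F C] [NormedField Ω] [IsUltrametricDist Ω] [IsAlgClosed Ω]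
  [Algebra C Ω] [Algebra F Ω] [IsScalarTower F C Ω] (Z : Sit F C Ω)

variable {ι : Type*}

theorem tGauss_le (Q : MvPolynomial ι C[X]) (e : ι →₀ ℕ) :
    ‖aeval Z.t (Q.coeff e)‖₊ ≤ Q.support.sup fun e => ‖aeval Z.t (Q.coeff e)‖₊ := by
  by_cases h : e ∈ Q.support
  · exact Finset.le_sup (f := fun e => ‖aeval Z.t (Q.coeff e)‖₊) h
  · rw [MvPolynomial.notMem_support_iff.1 h]
    simp

theorem tGauss_ex (Q : MvPolynomial ι C[X]) : ∃ e, cn Z Q = ‖aeval Z.t (Q.coeff e)‖ := by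
  rcases Q.support.eq_empty_or_nonempty with h | h
  · refine ⟨0, ?_⟩
    rw [MvPolynomial.support_eq_empty.1 h]
    simp [cn]
  · obtain ⟨e, -, he⟩ := Q.support.exists_mem_eq_sup h fun e => ‖aeval Z.t (Q.coeff e)‖₊
    exact ⟨e, by rw [cn, he, coe_nnnorm]⟩

theorem cn_nonneg (Q : MvPolynomial ι C[X]) : 0 ≤ cn Z Q := NNReal.coe_nonneg _
theorem le_cn (Q : MvPolynomial ι C[X]) (e : ι →₀ ℕ) : ‖aeval Z.t (Q.coeff e)‖ ≤ cn Z Q :=
  NNReal.coe_le_coe.2 (tGauss_le Z Q e)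
theorem coeff_le_cn (Q : MvPolynomial ι C[X]) (e : ι →₀ ℕ) (j : ℕ) :
    ‖(Q.coeff e).coeff j‖ ≤ cn Z Q := (Z.gauss_le _ j).trans (le_cn Z Q e)
theorem exists_cn (Q : MvPolynomial ι C[X]) : ∃ e j, cn Z Q = ‖(Q.coeff e).coeff j‖ := by
  obtain ⟨e, he⟩ := tGauss_ex Z Q
  obtain ⟨j, hj⟩ := Z.gauss_ge (Q.coeff e)
  exact ⟨e, j, le_antisymm (he ▸ hj) (coeff_le_cn Z Q e j)⟩
theorem cn_le (Q : MvPolynomial ι C[X]) {A : ℝ} (h : ∀ e j, ‖(Q.coeff e).coeff j‖ ≤ A) :
    cn Z Q ≤ A := by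
  obtain ⟨e, j, he⟩ := exists_cn Z Q
  rw [he]
  exact h e j
theorem cn_pos {Q : MvPolynomial ι C[X]} (h : Q ≠ 0) : 0 < cn Z Q := by
  obtain ⟨e, he⟩ := MvPolynomial.ne_zero_iff.1 h
  exact (norm_pos_iff.2 (Z.aeval_ne _ he)).trans_le (le_cn Z Q e)
theorem cn_mul [Finite ι] (P Q : MvPolynomial ι C[X]) : cn Z (P * Q) = cn Z P * cn Z Q := by
  classical
  refine le_antisymm ?_ ?_
  · obtain ⟨e, he⟩ := tGauss_ex Z (P * Q)
    rw [he, MvPolynomial.coeff_mul, map_sum]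
    refine IsUltrametricDist.norm_sum_le_of_forall_le_of_nonneg
      (mul_nonneg (cn_nonneg Z P) (cn_nonneg Z Q)) fun x _ => ?_
    rw [map_mul, norm_mul]
    exact mul_le_mul (le_cn Z P _) (le_cn Z Q _) (norm_nonneg _) (cn_nonneg Z P)
  · obtain ⟨e, he⟩ := tGauss_ex Z P
    obtain ⟨e', he'⟩ := tGauss_ex Z Q
    have := mv_gauss ((NormedField.valuation (K := Ω)).comap
      (aeval Z.t : C[X] →ₐ[C] Ω).toRingHom) P Q _ (tGauss_le Z (P * Q)) e e'
    rw [he, he']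
    exact NNReal.coe_le_coe.2 this
theorem cn_monomial (e : ι →₀ ℕ) (a : C[X]) :
    cn Z (MvPolynomial.monomial e a) = ‖aeval Z.t a‖ := by
  classical
  refine le_antisymm ?_ ?_
  · obtain ⟨e', he'⟩ := tGauss_ex Z (MvPolynomial.monomial e a)
    rw [he', MvPolynomial.coeff_monomial]
    split_ifs <;> simp
  · simpa using le_cn Z (MvPolynomial.monomial e a) e
theorem cn_C_mul (a : C) (Q : MvPolynomial ι C[X]) :
    cn Z (MvPolynomial.C (Polynomial.C a) * Q) = ‖a‖ * cn Z Q := by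
  have key : ∀ e, ‖aeval Z.t ((MvPolynomial.C (Polynomial.C a) * Q).coeff e)‖ =
      ‖a‖ * ‖aeval Z.t (Q.coeff e)‖ := by
    intro e
    rw [MvPolynomial.coeff_C_mul, map_mul, aeval_C, norm_mul, Z.norm_alg]
  refine le_antisymm ?_ ?_
  · obtain ⟨e, he⟩ := tGauss_ex Z (MvPolynomial.C (Polynomial.C a) * Q)
    rw [he, key]
    exact mul_le_mul_of_nonneg_left (le_cn Z Q e) (norm_nonneg _)
  · obtain ⟨e, he⟩ := tGauss_ex Z Q
    rw [he, ← key]
    exact le_cn Z _ e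

theorem FF_add (f : ι → Ω) (P Q : MvPolynomial ι C[X]) :
    Z.FF f (P + Q) = Z.FF f P + Z.FF f Q := MvPolynomial.eval₂_add ..
theorem FF_sub (f : ι → Ω) (P Q : MvPolynomial ι C[X]) :
    Z.FF f (P - Q) = Z.FF f P - Z.FF f Q := MvPolynomial.eval₂_sub ..
theorem FF_mul (f : ι → Ω) (P Q : MvPolynomial ι C[X]) :
    Z.FF f (P * Q) = Z.FF f P * Z.FF f Q := MvPolynomial.eval₂_mul ..
theorem FF_pow (f : ι → Ω) (P : MvPolynomial ι C[X]) (n : ℕ) :
    Z.FF f (P ^ n) = Z.FF f P ^ n := MvPolynomial.eval₂_pow ..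
theorem FF_C (f : ι → Ω) (a : C[X]) : Z.FF f (MvPolynomial.C a) = aeval Z.t a :=
  MvPolynomial.eval₂_C ..
theorem FF_X (f : ι → Ω) (i : ι) : Z.FF f (MvPolynomial.X i) = f i := MvPolynomial.eval₂_X ..
theorem FF_sum {α : Type*} (s : Finset α) (f : ι → Ω) (P : α → MvPolynomial ι C[X]) :
    Z.FF f (∑ a ∈ s, P a) = ∑ a ∈ s, Z.FF f (P a) := MvPolynomial.eval₂_sum ..
theorem FF_rename {ι' : Type*} (g : ι → ι') (f : ι' → Ω) (P : MvPolynomial ι C[X]) :
    Z.FF f (MvPolynomial.rename g P) = Z.FF (f ∘ g) P := MvPolynomial.eval₂_rename ..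
theorem FF_le (f : ι → Ω) {R : ℝ} (hR : 1 ≤ R) (hf : ∀ i, ‖f i‖ ≤ R) (Q : MvPolynomial ι C[X])
    {d : ℕ} (hd : Q.totalDegree ≤ d) : ‖Z.FF f Q‖ ≤ cn Z Q * R ^ d :=
  norm_eval₂_le _ Q f _ R (cn_nonneg Z Q) (le_cn Z Q) hR hf d hd
theorem FF_lip (f f' : ι → Ω) {R ε : ℝ} (hR : 1 ≤ R) (hε : 0 ≤ ε) (hf : ∀ i, ‖f i‖ ≤ R)
    (hf' : ∀ i, ‖f' i‖ ≤ R) (h : ∀ i, ‖f i - f' i‖ ≤ ε) (Q : MvPolynomial ι C[X]) {d : ℕ}
    (hd : Q.totalDegree ≤ d) : ‖Z.FF f Q - Z.FF f' Q‖ ≤ cn Z Q * R ^ d * ε :=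
  lip_eval₂ _ Q f f' _ R ε (cn_nonneg Z Q) (le_cn Z Q) hR hε hf hf' h d hd

theorem tGauss_sgt (f : ι → Ω) (y : ι → C) (Q : MvPolynomial ι C[X]) :
    Z.FF f (Z.sgt y Q) = MvPolynomial.eval₂ ((aeval Z.t : C[X] →ₐ[C] Ω).toRingHom.comp (Z.tw 1))
      (fun j => algebraMap C Ω (y j) + (Z.t - algebraMap C Ω Z.θ) * f j) Q := by
  induction Q using MvPolynomial.induction_on with
  | C a => simp [Sit.sgt, Sit.FF]
  | add p q hp hq =>
    simp only [Sit.sgt, Sit.FF, MvPolynomial.eval₂_add] at hp hq ⊢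
    rw [hp, hq]
  | mul_X p i hp =>
    simp only [Sit.sgt, Sit.FF, MvPolynomial.eval₂_mul, MvPolynomial.eval₂_X,
      MvPolynomial.eval₂_add, MvPolynomial.eval₂_C] at hp ⊢
    rw [hp]
    simp [Sit.ss]

/-- The twist by approximate data of a polynomial that is small at `f` is small at `f`. -/
theorem sgt_small (f : ι → Ω) (al y : ι → C) (hs : ∀ j, Z.Sol (al j) (f j)) {R ε : ℝ}
    (hR : 1 ≤ R) (hε : 0 ≤ ε) (hε1 : ε ≤ 1) (hf : ∀ i, ‖f i‖ ≤ R) (hy : ∀ j, ‖al j - y j‖ ≤ ε)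
    (Q : MvPolynomial ι C[X]) {d : ℕ} (hd : Q.totalDegree ≤ d) :
    ‖Z.FF f (Z.sgt y Q)‖ ≤
      max (‖Z.FF f Q‖ ^ qq F) (cn Z Q ^ qq F * (R ^ qq F) ^ d * ε) := by
  have hRq : 1 ≤ R ^ qq F := one_le_pow₀ hR
  have h1 : ∀ j, ‖algebraMap C Ω (al j) + (Z.t - algebraMap C Ω Z.θ) * f j‖ ≤ R ^ qq F := by
    intro j
    have := hs j
    rw [Sit.Sol] at this
    rw [← this, Z.σ_norm]
    exact pow_le_pow_left₀ (norm_nonneg _) (hf j) _
  have h2 : ∀ j, ‖(algebraMap C Ω (y j) + (Z.t - algebraMap C Ω Z.θ) * f j) -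
      (algebraMap C Ω (al j) + (Z.t - algebraMap C Ω Z.θ) * f j)‖ ≤ ε := by
    intro j
    rw [add_sub_add_right_eq_sub, ← map_sub, Z.norm_alg, norm_sub_rev]
    exact hy j
  have h3 : ∀ j, ‖algebraMap C Ω (y j) + (Z.t - algebraMap C Ω Z.θ) * f j‖ ≤ R ^ qq F := by
    intro j
    rw [← sub_add_cancel (algebraMap C Ω (y j) + (Z.t - algebraMap C Ω Z.θ) * f j)
      (algebraMap C Ω (al j) + (Z.t - algebraMap C Ω Z.θ) * f j)]
    exact (IsUltrametricDist.norm_add_le_max _ _).trans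
      (max_le ((h2 j).trans (hε1.trans hRq)) (h1 j))
  have h4 := lip_eval₂ ((aeval Z.t : C[X] →ₐ[C] Ω).toRingHom.comp (Z.tw 1)) Q _ _
    (cn Z Q ^ qq F) (R ^ qq F) ε (pow_nonneg (cn_nonneg Z Q) _) (fun e => by
      change ‖aeval Z.t (Z.tw 1 (Q.coeff e))‖ ≤ _
      rw [← Z.σ_aeval, Z.σ_norm]
      exact pow_le_pow_left₀ (norm_nonneg _) (le_cn Z Q e) _) hRq hε h3 h1 h2 d hd
  rw [← tGauss_sgt, ← tGauss_sgt] at h4
  rw [← add_sub_cancel (Z.FF f (Z.sgt al Q)) (Z.FF f (Z.sgt y Q)), add_sub_assoc']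
  rw [add_sub_assoc]
  refine (IsUltrametricDist.norm_add_le_max _ _).trans (max_le_max (le_of_eq ?_) h4)
  rw [Z.FF_sgt f al hs, Z.σ_norm]

end Pool.Agent.MP_ee2255_nt.T

end

section

/-! Calculus of bounded polynomials. -/

namespace Pool.Agent.MP_ee2255_nt.T

open Polynomial Filter Topology Pool.Agent.MP_655169_nt

section

variable {F C : Type*} [Field F] [Fintype F] [Field C] [Algebra F C] {θ : C}
  {B : ℕ → Submodule F C} {ι : Type*} {δ δ' : ℕ} {P Q : MvPolynomial ι C[X]}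

/-- The bound for one coefficient. -/
def TBd_P (B : ℕ → Submodule F C) (δ : ℕ) (a : C[X]) : Prop :=
  a.natDegree ≤ δ ∧ ∀ j, a.coeff j ∈ B δ

omit [Fintype F] in
theorem TBd_zero : TBd_P B δ 0 := ⟨by simp, fun j => by simp⟩

omit [Fintype F] in
theorem TBd_add {a b : C[X]} (ha : TBd_P B δ a) (hb : TBd_P B δ b) : TBd_P B δ (a + b) :=
  ⟨(natDegree_add_le a b).trans (max_le ha.1 hb.1), fun j => by
    rw [coeff_add]; exact add_mem (ha.2 j) (hb.2 j)⟩

omit [Fintype F] in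
theorem TBd_neg {a : C[X]} (ha : TBd_P B δ a) : TBd_P B δ (-a) :=
  ⟨by rw [natDegree_neg]; exact ha.1, fun j => by rw [coeff_neg]; exact neg_mem (ha.2 j)⟩

omit [Fintype F] in
theorem TBd_sum {α : Type*} (s : Finset α) {a : α → C[X]} (h : ∀ i ∈ s, TBd_P B δ (a i)) :
    TBd_P B δ (∑ i ∈ s, a i) :=
  Finset.sum_induction a (TBd_P B δ) (fun _ _ => TBd_add) TBd_zero h

omit [Fintype F] in
theorem TBd_mul (hB : Flt θ B) {a b : C[X]} (ha : TBd_P B δ a) (hb : TBd_P B δ' b) :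
    TBd_P B (δ + δ') (a * b) :=
  ⟨natDegree_mul_le.trans (add_le_add ha.1 hb.1), fun j => by
    rw [coeff_mul]
    exact sum_mem fun x _ => hB.mul _ _ _ _ (ha.2 _) (hb.2 _)⟩

omit [Fintype F] in
theorem TBd_mono (hB : Flt θ B) (h : δ ≤ δ') {a : C[X]} (ha : TBd_P B δ a) : TBd_P B δ' a :=
  ⟨ha.1.trans h, fun j => hB.mono _ _ _ h (ha.2 j)⟩

omit [Fintype F] in
theorem TBd_C {c : C} (hc : c ∈ B δ) : TBd_P B δ (Polynomial.C c) :=
  ⟨by simp, fun j => by
    rw [coeff_C]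
    split_ifs
    · exact hc
    · exact zero_mem _⟩

omit [Fintype F] in
theorem TBd_one (hB : Flt θ B) : TBd_P B δ 1 := by
  rw [← C_1]
  exact TBd_C (hB.mono _ _ _ (Nat.zero_le _) hB.one)

omit [Fintype F] in
theorem TBd_X (hB : Flt θ B) : TBd_P B 1 X :=
  ⟨natDegree_X_le, fun j => by
    rw [coeff_X]
    split_ifs
    · exact hB.mono _ _ _ (Nat.zero_le _) hB.one
    · exact zero_mem _⟩

omit [Fintype F] in
theorem TBd_cst {a : C[X]} (h : TBd_P B δ a) :
    BdB B δ (MvPolynomial.C a : MvPolynomial ι C[X]) := by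
  classical
  refine ⟨by simp, fun e => ?_⟩
  show TBd_P B δ _
  rw [MvPolynomial.coeff_C]
  split_ifs
  · exact h
  · exact TBd_zero

omit [Fintype F] in
theorem TBd_mapc (φ : C → C) (h0 : φ 0 = 0) (a : C[X]) :
    ∃ b : C[X], ∀ j, b.coeff j = φ (a.coeff j) := by
  refine ⟨∑ i ∈ a.support, monomial i (φ (a.coeff i)), fun j => ?_⟩
  simp only [finsetSum_coeff, coeff_monomial, Finset.sum_ite_eq']
  split_ifs with h
  · rfl
  · rw [notMem_support_iff.1 h, h0]

theorem Flt.pow (hB : Flt θ B) {a : C} (ha : a ∈ B δ) (k : ℕ) : a ^ k ∈ B (k * δ) := by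
  induction k with
  | zero => simpa using hB.one
  | succ k ih => rw [pow_succ, add_mul, one_mul]; exact hB.mul _ _ _ _ ih ha
theorem vs_flt {κ : Type*} (ω : κ → C) (hθ : θ ∈ Vs F ω 1) : Flt θ (Vs F ω) := 
  ⟨by simpa using Vs_const ω (1 : F) 0, hθ, fun _ _ _ _ ha hb => Vs_mul ω ha hb,
    fun _ _ _ h ha => Vs_mono ω h ha⟩
theorem BdB.mono (hB : Flt θ B) (h : δ ≤ δ') (hP : BdB B δ P) : BdB B δ' P := 
  ⟨hP.1.trans h, fun e => TBd_mono hB h (hP.2 e)⟩
theorem BdB.zero : BdB B δ (0 : MvPolynomial ι C[X]) := 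
  ⟨by simp, fun _ => TBd_zero⟩
theorem BdB.one (hB : Flt θ B) : BdB B δ (1 : MvPolynomial ι C[X]) := by
  rw [← MvPolynomial.C_1]
  exact TBd_cst (TBd_one hB)
theorem BdB.add (hP : BdB B δ P) (hQ : BdB B δ Q) : BdB B δ (P + Q) := 
  ⟨(MvPolynomial.totalDegree_add P Q).trans (max_le hP.1 hQ.1), fun e => by
    rw [MvPolynomial.coeff_add]; exact TBd_add (hP.2 e) (hQ.2 e)⟩
theorem BdB.neg (hP : BdB B δ P) : BdB B δ (-P) := 
  ⟨by rw [MvPolynomial.totalDegree_neg]; exact hP.1, fun e => by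
    rw [MvPolynomial.coeff_neg]; exact TBd_neg (hP.2 e)⟩
theorem BdB.sub (hP : BdB B δ P) (hQ : BdB B δ Q) : BdB B δ (P - Q) := by
  rw [sub_eq_add_neg]; exact hP.add hQ.neg
theorem BdB.mul (hB : Flt θ B) (hP : BdB B δ P) (hQ : BdB B δ' Q) : BdB B (δ + δ') (P * Q) := by
  classical
  refine ⟨(MvPolynomial.totalDegree_mul P Q).trans (add_le_add hP.1 hQ.1), fun e => ?_⟩
  rw [MvPolynomial.coeff_mul]
  exact TBd_sum _ fun x _ => TBd_mul hB (hP.2 _) (hQ.2 _)
theorem BdB.sum {α : Type*} (s : Finset α) {P : α → MvPolynomial ι C[X]}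
    (h : ∀ a ∈ s, BdB B δ (P a)) : BdB B δ (∑ a ∈ s, P a) := 
  Finset.sum_induction P (BdB B δ) (fun _ _ => BdB.add) BdB.zero h
theorem BdB.prod (hB : Flt θ B) {α : Type*} (s : Finset α) {P : α → MvPolynomial ι C[X]}
    {δ : α → ℕ} (h : ∀ a ∈ s, BdB B (δ a) (P a)) : BdB B (∑ a ∈ s, δ a) (∏ a ∈ s, P a) := by
  classical
  induction s using Finset.induction_on with
  | empty => simpa using BdB.one hB
  | insert a s ha ih =>
    rw [Finset.sum_insert ha, Finset.prod_insert ha]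
    exact BdB.mul hB (h a (Finset.mem_insert_self _ _))
      (ih fun b hb => h b (Finset.mem_insert_of_mem hb))
theorem BdB.pow (hB : Flt θ B) (hP : BdB B δ P) (k : ℕ) : BdB B (k * δ) (P ^ k) := by
  induction k with
  | zero => simpa using BdB.one hB
  | succ k ih => rw [pow_succ, add_mul, one_mul]; exact BdB.mul hB ih hP
theorem BdB.cst {a : C[X]} (h1 : a.natDegree ≤ δ) (h2 : ∀ j, a.coeff j ∈ B δ) :
    BdB B δ (MvPolynomial.C a : MvPolynomial ι C[X]) := 
  TBd_cst ⟨h1, h2⟩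
theorem BdB.var (hB : Flt θ B) (i : ι) : BdB B 1 (MvPolynomial.X i : MvPolynomial ι C[X]) := by
  classical
  refine ⟨(MvPolynomial.totalDegree_X i).le, fun e => ?_⟩
  show TBd_P B 1 _
  rw [MvPolynomial.coeff_X]
  split_ifs
  · exact TBd_one hB
  · exact TBd_zero
theorem BdB.det (hB : Flt θ B) {n : Type*} [Fintype n] [DecidableEq n]
    (A : Matrix n n (MvPolynomial ι C[X])) (h : ∀ i j, BdB B δ (A i j)) :
    BdB B (Fintype.card n * δ) A.det := by
  rw [Matrix.det_apply]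
  refine BdB.sum _ fun σ _ => ?_
  have h1 := BdB.prod hB Finset.univ (P := fun i => A (σ i) i) (δ := fun _ => δ)
    fun i _ => h _ _
  rw [Finset.sum_const, Finset.card_univ, smul_eq_mul] at h1
  rcases Int.units_eq_one_or (Equiv.Perm.sign σ) with h2 | h2
  · rw [h2, one_smul]; exact h1
  · rw [h2, Units.neg_smul, one_smul]; exact h1.neg
theorem BdB.adjugate (hB : Flt θ B) {n : Type*} [Fintype n] [DecidableEq n]
    (A : Matrix n n (MvPolynomial ι C[X])) (h : ∀ i j, BdB B δ (A i j)) (i j : n) :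
    BdB B (Fintype.card n * δ) (A.adjugate i j) := by
  rw [Matrix.adjugate_apply]
  refine BdB.det hB _ fun a b => ?_
  rw [Matrix.updateRow_apply, Pi.single_apply]
  split_ifs
  · exact BdB.one hB
  · exact BdB.zero
  · exact h _ _
theorem BdB.rename {ι' : Type*} {g : ι → ι'} (hg : Function.Injective g) (hP : BdB B δ P) :
    BdB B δ (MvPolynomial.rename g P) := by
  refine ⟨(MvPolynomial.totalDegree_rename_le g P).trans hP.1, fun e => ?_⟩
  by_cases h : ∃ d : ι →₀ ℕ, d.mapDomain g = e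
  · obtain ⟨d, rfl⟩ := h
    rw [MvPolynomial.coeff_rename_mapDomain g hg]
    exact hP.2 d
  · rw [MvPolynomial.coeff_rename_eq_zero g P e fun d hd => absurd ⟨d, hd⟩ h]
    exact TBd_zero
theorem BdB.fin_coeff {r : ℕ} {P : MvPolynomial (Fin (r + 1)) C[X]} (hP : BdB B δ P) (j : ℕ) :
    BdB B δ ((MvPolynomial.finSuccEquiv C[X] r P).coeff j) := by
  refine ⟨?_, fun e => ?_⟩
  · by_cases h : (MvPolynomial.finSuccEquiv C[X] r P).coeff j = 0
    · rw [h]; simp
    · have := MvPolynomial.totalDegree_coeff_finSuccEquiv_add_le P j h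
      have := hP.1
      omega
  · rw [MvPolynomial.finSuccEquiv_coeff_coeff]
    exact hP.2 _
theorem BdB.fin_symm (hB : Flt θ B) {r n : ℕ} {p : (MvPolynomial (Fin r) C[X])[X]}
    (hn : p.natDegree ≤ n) (h : ∀ j, BdB B δ (p.coeff j)) :
    BdB B (n + δ) ((MvPolynomial.finSuccEquiv C[X] r).symm p) := by
  have key : ∀ e : Fin (r + 1) →₀ ℕ, ((MvPolynomial.finSuccEquiv C[X] r).symm p).coeff e =
      (p.coeff (e 0)).coeff e.tail := by
    intro e
    have := MvPolynomial.finSuccEquiv_coeff_coeff e.tail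
      ((MvPolynomial.finSuccEquiv C[X] r).symm p) (e 0)
    rw [AlgEquiv.apply_symm_apply, Finsupp.cons_tail] at this
    exact this.symm
  refine ⟨Finset.sup_le fun e he => ?_, fun e => ?_⟩
  · rw [MvPolynomial.mem_support_iff, key] at he
    have h1 : e 0 ≤ n := (le_natDegree_of_ne_zero fun h0 => he (by rw [h0]; rfl)).trans hn
    have h2 := (MvPolynomial.le_totalDegree (MvPolynomial.mem_support_iff.2 he)).trans (h _).1
    rw [← Finsupp.cons_tail e, Finsupp.sum_cons]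
    exact add_le_add h1 h2
  · rw [key]
    exact TBd_mono hB (Nat.le_add_left _ _) ((h _).2 _)

theorem up_coeff (k : Subfield C) (Qk : MvPolynomial ι k[X]) (e : ι →₀ ℕ) (j : ℕ) :
    ((up k Qk).coeff e).coeff j = ((Qk.coeff e).coeff j : C) := by
  simp [up, MvPolynomial.coeff_map]
theorem up_inj (k : Subfield C) :
    Function.Injective (up k : MvPolynomial ι k[X] → MvPolynomial ι C[X]) := 
  MvPolynomial.map_injective _ (Polynomial.map_injective _ k.subtype_injective)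
theorem exists_up (k : Subfield C) (Q : MvPolynomial ι C[X])
    (h : ∀ e j, (Q.coeff e).coeff j ∈ k) : ∃ Qk, up k Qk = Q := by
  have h1 : ∀ e, ∃ a : k[X], a.map k.subtype = Q.coeff e := fun e =>
    (mem_lifts _).1 ((lifts_iff_coeff_lifts _).2 fun j => ⟨⟨_, h e j⟩, rfl⟩)
  choose a ha using h1
  refine ⟨∑ e ∈ Q.support, MvPolynomial.monomial e (a e), ?_⟩
  conv_rhs => rw [Q.as_sum]
  rw [map_sum]
  refine Finset.sum_congr rfl fun e _ => ?_
  rw [up, MvPolynomial.map_monomial, coe_mapRingHom, ha]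

/-- The set of coefficients. -/
theorem exists_cfs {r : ℕ} {P : MvPolynomial (Fin r) C[X]} (hP : BdB B δ P) :
    ∃ T : Finset C, T.card ≤ (δ + 1) ^ (r + 1) ∧ (∀ e j, (P.coeff e).coeff j ≠ 0 →
      (P.coeff e).coeff j ∈ T) ∧ ∀ a ∈ T, ∃ e j, a = (P.coeff e).coeff j := by
  classical
  refine ⟨(P.support ×ˢ Finset.range (δ + 1)).image fun x => (P.coeff x.1).coeff x.2, ?_,
    fun e j h => ?_, fun a ha => ?_⟩
  · refine Finset.card_image_le.trans ?_
    rw [Finset.card_product, Finset.card_range, pow_succ]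
    refine Nat.mul_le_mul_right _ ?_
    have h1 : P.support.card ≤ (Fintype.piFinset fun _ : Fin r => Finset.range (δ + 1)).card := by
      refine Finset.card_le_card_of_injOn (fun e => (e : Fin r → ℕ)) (fun e he => ?_)
        fun e _ e' _ h => DFunLike.coe_injective h
      simp only [Finset.mem_coe, Fintype.mem_piFinset, Finset.mem_range]
      intro i
      exact Nat.lt_succ_of_le (((MvPolynomial.monomial_le_degreeOf i he).trans
        (MvPolynomial.degreeOf_le_totalDegree P i)).trans hP.1)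
    simpa using h1
  · refine Finset.mem_image.2 ⟨(e, j), Finset.mem_product.2 ⟨?_, ?_⟩, rfl⟩
    · exact MvPolynomial.mem_support_iff.2 fun h0 => h (by rw [h0]; rfl)
    · exact Finset.mem_range.2 (Nat.lt_succ_of_le ((le_natDegree_of_ne_zero h).trans (hP.2 e).1))
  · obtain ⟨x, _, rfl⟩ := Finset.mem_image.1 ha
    exact ⟨_, _, rfl⟩
/-- Apply a map to all coefficients. -/
theorem exists_mapc (φ : C → C) (h0 : φ 0 = 0) (P : MvPolynomial ι C[X]) :
    ∃ Q : MvPolynomial ι C[X], Q.totalDegree ≤ P.totalDegree ∧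
      ∀ e, (Q.coeff e).natDegree ≤ (P.coeff e).natDegree ∧
        ∀ j, (Q.coeff e).coeff j = φ ((P.coeff e).coeff j) := by
  classical
  choose ψ hψ using TBd_mapc φ h0
  have hz : ψ 0 = 0 := by
    ext j; rw [hψ, coeff_zero, h0]
  have key : ∀ e, (∑ d ∈ P.support, MvPolynomial.monomial d (ψ (P.coeff d))).coeff e =
      ψ (P.coeff e) := by
    intro e
    simp only [MvPolynomial.coeff_sum, MvPolynomial.coeff_monomial, Finset.sum_ite_eq',
      MvPolynomial.mem_support_iff]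
    split_ifs with h
    · rfl
    · rw [not_not.1 h, hz]
  refine ⟨∑ d ∈ P.support, MvPolynomial.monomial d (ψ (P.coeff d)), ?_, fun e => ⟨?_, ?_⟩⟩
  · refine Finset.sup_mono fun e he => ?_
    rw [MvPolynomial.mem_support_iff] at he ⊢
    intro h1
    rw [key, h1, hz] at he
    exact he rfl
  · rw [key, natDegree_le_iff_coeff_eq_zero]
    intro j hj
    rw [hψ, coeff_eq_zero_of_natDegree_lt hj, h0]
  · intro j
    rw [key, hψ]

end

variable {F C Ω : Type*} [Field F] [Fintype F] [NormedField C] [IsUltrametricDist C]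
  [IsAlgClosed C] [Algebra F C] [NormedField Ω] [IsUltrametricDist Ω] [IsAlgClosed Ω]
  [Algebra C Ω] [Algebra F Ω] [IsScalarTower F C Ω] (Z : Sit F C Ω)

theorem BdB.sgt {B : ℕ → Submodule F C} (hB : Flt Z.θ B) {ι : Type*} {δ : ℕ} (hδ : 1 ≤ δ)
    {y : ι → C} (hy : ∀ j, y j ∈ B δ) {Q : MvPolynomial ι C[X]} (hQ : BdB B δ Q) :
    BdB B ((qq F + 3) * δ ^ 2) (Z.sgt y Q) := by
  have hq : 1 ≤ qq F := Fintype.card_pos
  have hf : ∀ i, BdB B (2 * δ) (MvPolynomial.C (Polynomial.C (y i)) +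
      MvPolynomial.C Z.ss * MvPolynomial.X i : MvPolynomial ι C[X]) := by
    intro i
    refine BdB.add (BdB.mono hB (by omega) (TBd_cst (TBd_C (hy i)))) ?_
    have h1 : TBd_P B 1 Z.ss := by
      rw [Sit.ss, sub_eq_add_neg]
      exact TBd_add (TBd_X hB) (TBd_neg (TBd_C hB.theta))
    exact BdB.mono hB (by omega) (BdB.mul hB (TBd_cst h1) (BdB.var hB i))
  rw [Sit.sgt, MvPolynomial.eval₂_eq]
  refine BdB.sum _ fun e he => ?_
  have h1 : TBd_P B (qq F * δ) (Z.tw 1 (Q.coeff e)) := by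
    refine ⟨natDegree_map_le.trans ((hQ.2 e).1.trans (Nat.le_mul_of_pos_left _ hq)), fun j => ?_⟩
    rw [Sit.tw, coe_mapRingHom, coeff_map, pow_one, Z.fr_eq]
    exact hB.pow ((hQ.2 e).2 j) _
  have h2 := BdB.prod hB e.support (δ := fun i => e i * (2 * δ))
    fun i _ => BdB.pow hB (hf i) (e i)
  have h3 : ∑ i ∈ e.support, e i ≤ δ := (MvPolynomial.le_totalDegree he).trans hQ.1
  refine BdB.mono hB ?_ (BdB.mul hB (TBd_cst h1) h2)
  rw [← Finset.sum_mul]
  have h4 : qq F * δ ≤ qq F * δ ^ 2 := Nat.mul_le_mul_left _ (by nlinarith)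
  have h5 := Nat.mul_le_mul_right (2 * δ) h3
  nlinarith

end Pool.Agent.MP_ee2255_nt.T

end

section

/-! Preparations for the measure lemma. -/

namespace Pool.Agent.MP_ee2255_nt.T

open Polynomial Filter Topology Pool.Agent.MP_655169_nt

variable {F E C Ω : Type*} [Field F] [Fintype F] [Field E] [Infinite E] [NormedField C]
  [IsUltrametricDist C] [IsAlgClosed C] [Algebra F C] [Algebra E C] [Algebra F E]
  [IsScalarTower F E C] [NormedField Ω] [IsUltrametricDist Ω] [IsAlgClosed Ω]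
  [Algebra C Ω] [Algebra F Ω] [IsScalarTower F C Ω] (X : Ctx F E C Ω)

theorem tml2_theta : X.Z.θ ∈ Vs F X.ω 1 := X.hθ ▸ Vs_var X.ω X.iθ

theorem tml2_pt {r δ n n' : ℕ} {u al y : Fin (r + 1) → C} {η : ℝ}
    (h1 : ∀ j, HS F X.Z.θ (u j) (al j)) (h2 : ∀ j, u j ∈ Vs F X.ω δ)
    (h3 : ∀ j, ‖u j‖ ≤ ‖X.Z.θ‖ ^ n') (h4 : u (Fin.last r) = X.per) (hy : ∀ j, ‖al j - y j‖ ≤ η)
    (hε : η * ‖X.Z.θ‖ ^ n < 1) (h : RelLe F X.Z.θ (Fin.init y) n) :
    ∃ c : Fin (r + 1) → F[X], (c ≠ 0 ∧ ∀ j, (c j).natDegree ≤ n + n') ∧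
      ‖lin X.Z.θ c u‖ ≤ η * ‖X.Z.θ‖ ^ n := by
  obtain ⟨c, c0, cn, hc⟩ := h
  have hθ := X.Z.hθ
  have η0 : 0 ≤ η := (norm_nonneg _).trans (hy 0)
  rw [mul_comm] at hε ⊢
  have ha : ‖∑ j, carl X.Z.θ (c j) (Fin.init al j)‖ ≤ ‖X.Z.θ‖ ^ n * η := by
    have e : ∑ j, carl X.Z.θ (c j) (Fin.init al j) =
        ∑ j, carl X.Z.θ (c j) (Fin.init al j - Fin.init y j) := by
      simp only [carl_sub]
      rw [Finset.sum_sub_distrib, hc, sub_zero]
    rw [e]
    exact IsUltrametricDist.norm_sum_le_of_forall_le_of_nonneg (by positivity) fun j _ =>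
      carl_norm hθ (cn j) (hy j.castSucc) hε.le
  have hw : lin X.Z.θ c (Fin.init u) ∈ X.E0 :=
    Vs_sub X.ω X.E0 X.memF X.memω
      (lin_Vs X.Z.θ X.ω (tml2_theta X) cn fun j => h2 j.castSucc)
  have hs : HS F X.Z.θ (lin X.Z.θ c (Fin.init u)) (∑ j, carl X.Z.θ (c j) (Fin.init al j)) :=
    HS.lin (x := Fin.init u) (al := Fin.init al) hθ (fun j => h1 j.castSucc) c
  have hn : ‖lin X.Z.θ c (Fin.init u)‖ ≤ ‖X.Z.θ‖ ^ (n + n') := by
    rw [pow_add]
    exact lin_norm hθ cn (by positivity) fun j => h3 j.castSucc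
  obtain ⟨g, g1, g2⟩ := per_near X (n + n') hw hs hn ha hε
  refine ⟨Fin.snoc c (-g), ⟨fun e => c0 (funext fun j => ?_), fun j => ?_⟩, ?_⟩
  · simpa using congrFun e j.castSucc
  · refine Fin.lastCases ?_ (fun j => ?_) j
    · simpa using g1
    · simpa using (cn j).trans (Nat.le_add_right n n')
  · have e : lin X.Z.θ (Fin.snoc c (-g) : Fin (r + 1) → F[X]) u =
        lin X.Z.θ c (Fin.init u) - aeval X.Z.θ g * X.per := by
      rw [lin, lin, Fin.sum_univ_castSucc, h4]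
      simp only [Fin.snoc_castSucc, Fin.snoc_last, map_neg, neg_mul, sub_eq_add_neg, Fin.init]
    rwa [e]

theorem norel {r : ℕ} {u al : ℕ → Fin (r + 1) → C} {f : ℕ → Fin (r + 1) → Ω} (hF : Fam X u al f)
    {M : ℕ → ℝ} (hM : ∀ ℓ, 1 ≤ M ℓ) (hL : HL F X.Z.θ M u) {y : ℕ → Fin (r + 1) → C} {η : ℕ → ℝ}
    (hη : Sm M η) (hy : ∀ᶠ ℓ in UU, ∀ j, ‖al ℓ j - y ℓ j‖ ≤ η ℓ) :
    ¬ ∃ n, Lin n ∧ ∀ᶠ ℓ in UU, RelLe F X.Z.θ (Fin.init (y ℓ)) (n ℓ) := by
  rintro ⟨n, hn, hr⟩
  obtain ⟨δ, -, hδ⟩ := hF.deg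
  obtain ⟨n', hn', hs⟩ := hF.size
  have hε : Sm M fun ℓ => η ℓ * ‖X.Z.θ‖ ^ n ℓ :=
    hη.mul_big hM ((Big.const hM ‖X.Z.θ‖).pow hM (Eventually.of_forall fun _ => norm_nonneg _)
      hn.pol) (Eventually.of_forall fun _ => by positivity)
  have key : ∀ᶠ ℓ in UU, ∃ c : Fin (r + 1) → F[X],
      (c ≠ 0 ∧ ∀ j, (c j).natDegree ≤ n ℓ + n' ℓ) ∧
        ‖lin X.Z.θ c (u ℓ)‖ ≤ η ℓ * ‖X.Z.θ‖ ^ n ℓ := by
    filter_upwards [hr, hδ, hs, hF.agf, hF.last, hy, hε.lt_one hM] with ℓ a1 a2 a3 a4 a5 a6 a7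
    exact tml2_pt X (fun j => (hs_iff X.Z _ _).1 (a4 j).hs) (fun j => (a2 j).1) a3
      (a5 _ (by simp)) a6 a7 a1
  obtain ⟨c, hc⟩ := ev_choose key
  exact (hε.mono (hc.mono fun _ h => h.2)).not_low
    (hL c _ (hn.add hn') (hc.mono fun _ h => h.1))

theorem exists_S {r δ δ' : ℕ} (P : MvPolynomial (Fin r) C[X]) (h0 : P ≠ 0)
    (hP : BdB (Vs F X.ω) δ P) (al : Fin r → C) (hal : ∀ j, al j ∈ Vs F X.ω δ') {A : ℝ}
    (hA : ∀ i, ‖X.ω i‖ ≤ A) (hA' : ∀ j, ‖al j‖ ≤ A) :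
    ∃ (p : C) (S : Finset C), p ≠ 0 ∧ ‖p‖ = cn X.Z P ∧ (∃ e j, (P.coeff e).coeff j = p) ∧
      X.Z.θ ∈ S ∧ 1 ∈ S ∧ (∀ j, al j ∈ S) ∧
      (∀ e j, (P.coeff e).coeff j ≠ 0 → p⁻¹ * (P.coeff e).coeff j ∈ S) ∧
      S.card ≤ (δ + 1) ^ (r + 1) + X.ν + r + 1 ∧
      Grow E (Subtype.val : S → C) (X.c0 * (δ + δ' + 1) ^ X.d) X.d ∧
      Rk E (Subtype.val : S → C) X.d ∧ ∀ s ∈ S, ‖s‖ ≤ A := by
  classical
  obtain ⟨e0, j0, hp⟩ := exists_cn X.Z P
  obtain ⟨T, T1, T2, T3⟩ := exists_cfs hP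
  set p := (P.coeff e0).coeff j0 with hpe
  have pp : 0 < ‖p‖ := hp ▸ cn_pos X.Z h0
  have p0 : p ≠ 0 := norm_pos_iff.1 pp
  have pV : p ∈ Vs F X.ω δ := (hP.2 e0).2 j0
  have A1 : 1 ≤ A := X.Z.hθ.le.trans (X.hθ ▸ hA X.iθ)
  let S : Finset C := insert 1 (T.image (fun a => p⁻¹ * a) ∪ Finset.univ.image X.ω ∪
    Finset.univ.image al)
  have hω : ∀ i, X.ω i ∈ S := fun i => by simp [S]
  have hS : ∀ s ∈ S, p * s ∈ Vs F X.ω (δ + δ' + 1) ∧ ‖s‖ ≤ A := by
    intro s hs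
    simp only [S, Finset.mem_insert, Finset.mem_union, Finset.mem_image, Finset.mem_univ,
      true_and] at hs
    rcases hs with rfl | (⟨a, ha, rfl⟩ | ⟨i, rfl⟩) | ⟨j, rfl⟩
    · exact ⟨by rw [mul_one]; exact Vs_mono _ (by omega) pV, by rwa [norm_one]⟩
    · obtain ⟨e, j, rfl⟩ := T3 a ha
      refine ⟨?_, le_trans ?_ A1⟩
      · rw [mul_inv_cancel_left₀ p0]
        exact Vs_mono _ (by omega) ((hP.2 e).2 j)
      · rw [norm_mul, norm_inv, inv_mul_le_one₀ pp, ← hp]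
        exact coeff_le_cn X.Z P e j
    · exact ⟨Vs_mono _ (by omega) (Vs_mul _ pV (Vs_var X.ω i)), hA i⟩
    · exact ⟨Vs_mono _ (by omega) (Vs_mul _ pV (hal j)), hA' j⟩
  refine ⟨p, S, p0, hp.symm, ⟨e0, j0, rfl⟩, X.hθ ▸ hω X.iθ, Finset.mem_insert_self _ _,
    fun j => by simp [S], fun e j h => ?_, ?_, ?_, X.rk.comp fun i => ⟨⟨_, hω i⟩, rfl⟩,
    fun s hs => (hS s hs).2⟩
  · exact Finset.mem_insert_of_mem (Finset.mem_union_left _ (Finset.mem_union_left _
      (Finset.mem_image_of_mem _ (T2 e j h))))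
  · refine (Finset.card_insert_le _ _).trans (Nat.add_le_add_right ?_ 1)
    refine (Finset.card_union_le _ _).trans (Nat.add_le_add ((Finset.card_union_le _ _).trans
      (Nat.add_le_add (Finset.card_image_le.trans T1) ?_)) ?_)
    · simpa using Finset.card_image_le (s := Finset.univ) (f := X.ω)
    · simpa using Finset.card_image_le (s := Finset.univ) (f := al)
  · exact grow_div X.growE (by omega) p0 (vs_tower (Vs_mono _ (by omega) pV)) _
      fun s => vs_tower (hS s.1 s.2).1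

end Pool.Agent.MP_ee2255_nt.T

end

section

/-! The minimal equation. -/

namespace Pool.Agent.MP_ee2255_nt.T

open Polynomial Filter Topology Pool.Agent.MP_655169_nt

theorem TMinP_min {R K : Type*} [CommRing R] [IsDomain R] [NormalizedGCDMonoid R] [Field K]
    (φ : R →+* K) (hφ : Function.Injective φ) (ξ : K) {p₀ : R[X]} (h0 : p₀ ≠ 0)
    (hp : p₀.eval₂ φ ξ = 0) :
    ∃ p : R[X], 0 < p.natDegree ∧ p.eval₂ φ ξ = 0 ∧ ∀ q : R[X], q.eval₂ φ ξ = 0 → p ∣ q := by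
  classical
  have hex : ∃ n, ∃ p : R[X], p ≠ 0 ∧ p.eval₂ φ ξ = 0 ∧ p.natDegree = n := ⟨_, p₀, h0, hp, rfl⟩
  obtain ⟨p, hp0, hp1, hp2⟩ := Nat.find_spec hex
  have he : p.primPart.eval₂ φ ξ = 0 := by
    rw [p.eq_C_content_mul_primPart, eval₂_mul, eval₂_C] at hp1
    exact (mul_eq_zero.1 hp1).resolve_left
      ((map_ne_zero_iff φ hφ).2 (content_eq_zero_iff.not.2 hp0))
  have hpos : 0 < p.primPart.natDegree := by
    refine Nat.pos_of_ne_zero fun h => ?_
    rw [eq_C_of_natDegree_eq_zero h, eval₂_C, map_eq_zero_iff φ hφ] at he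
    have := p.primPart_ne_zero
    rw [eq_C_of_natDegree_eq_zero h, he, map_zero] at this
    exact this rfl
  refine ⟨p.primPart, hpos, he, fun q hq =>
    Inv1_dvd φ hφ ξ _ q p.isPrimitive_primPart he hq hpos fun r hr hlt => ?_⟩
  by_contra hr0
  rw [natDegree_primPart, hp2] at hlt
  exact Nat.find_min hex hlt ⟨r, hr0, hr, rfl⟩

theorem TMinP_symm_C {E σ : Type*} [CommRing E] (a : MvPolynomial σ E) :
    (MvPolynomial.optionEquivLeft E σ).symm (C a) = MvPolynomial.rename some a := by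
  rw [AlgEquiv.symm_apply_eq]
  induction a using MvPolynomial.induction_on with
  | C r => simp
  | add p q hp hq => simp only [map_add, hp, hq]
  | mul_X p n hp =>
    simp only [map_mul, hp, MvPolynomial.rename_X, MvPolynomial.optionEquivLeft_X_some]

theorem TMinP_deg {E σ : Type*} [CommRing E] [IsDomain E] {Φ Ψ : (MvPolynomial σ E)[X]} {N : ℕ}
    (h : Φ ∣ Ψ) (h0 : Ψ ≠ 0) (h1 : Ψ.natDegree ≤ N) (h2 : ∀ j, (Ψ.coeff j).totalDegree ≤ N)
    (j : ℕ) : (Φ.coeff j).totalDegree ≤ 2 * N := by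
  let e := MvPolynomial.optionEquivLeft E σ
  have k1 := MvPolynomial.totalDegree_coeff_optionEquivLeft_le E σ (e.symm Φ) j
  have k2 := MvPolynomial.totalDegree_le_of_dvd_of_isDomain (map_dvd e.symm h)
    ((map_ne_zero_iff _ e.symm.injective).2 h0)
  have k3 : (e.symm Ψ).totalDegree ≤ 2 * N := by
    rw [Ψ.as_sum_range_C_mul_X_pow, map_sum]
    refine MvPolynomial.totalDegree_finsetSum_le fun i hi => ?_
    rw [map_mul, map_pow, TMinP_symm_C, MvPolynomial.optionEquivLeft_symm_X]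
    have a1 := (MvPolynomial.totalDegree_rename_le (some : σ → Option σ) (Ψ.coeff i)).trans (h2 i)
    have a2 := MvPolynomial.totalDegree_X_pow (R := E) (none : Option σ) i
    have a3 := Finset.mem_range.1 hi
    refine (MvPolynomial.totalDegree_mul _ _).trans ?_
    omega
  rw [e.apply_symm_apply] at k1
  omega

theorem TMinP_right {E σ : Type*} [CommRing E] (a : E[X]) :
    MvPolynomial.optionEquivRight E σ (aeval (MvPolynomial.X none) a) = MvPolynomial.C a := by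
  rw [← aeval_algHom_apply, MvPolynomial.optionEquivRight_X_none]
  induction a using Polynomial.induction_on' with
  | add p q hp hq => simp only [map_add, hp, hq]
  | monomial n r => simp [← C_mul_X_pow_eq_monomial]

theorem TMinP_ne {E σ : Type*} [CommRing E] {a : E[X]} (ha : a ≠ 0) :
    aeval (MvPolynomial.X none : MvPolynomial (Option σ) E) a ≠ 0 := by
  intro h
  have := TMinP_right (σ := σ) a
  rw [h, map_zero] at this
  exact ha (MvPolynomial.C_eq_zero.1 this.symm)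

theorem TMinP_dvd {E σ : Type*} [CommRing E] [IsDomain E] {b : MvPolynomial (Option σ) E}
    {g : E[X]} (hg : g ≠ 0) (h : b ∣ aeval (MvPolynomial.X none) g) :
    ∃ a : E[X], a.natDegree ≤ b.totalDegree ∧ b = aeval (MvPolynomial.X none) a := by
  have h1 := map_dvd (MvPolynomial.optionEquivRight E σ) h
  rw [TMinP_right, MvPolynomial.dvd_C_iff_exists hg] at h1
  obtain ⟨a, -, ha⟩ := h1
  rw [← TMinP_right] at ha
  have hb := (MvPolynomial.optionEquivRight E σ).injective ha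
  refine ⟨a, ?_, hb⟩
  have h2 := MvPolynomial.aeval_natDegree_le (n := 1) b le_rfl
    (fun o : Option σ => o.elim (X : E[X]) fun _ => 0) (by
      rintro (_ | i)
      · exact natDegree_X_le
      · simp)
  rw [mul_one] at h2
  refine le_trans (le_of_eq ?_) h2
  rw [hb, ← aeval_algHom_apply, MvPolynomial.aeval_X]
  simp

/-- Ring maps into an algebraically closed field extend to the integral elements. -/
theorem TMinP_ext {R K L : Type*} [CommRing R] [CommRing K] [Field L] [IsAlgClosed L]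
    (f : R →+* K) (g : R →+* L) (h : ∀ r, f r = 0 → g r = 0) :
    ∃ (B : Subring K) (ψ : B →+* L), (∀ x, f.IsIntegralElem x → x ∈ B) ∧
      ∀ r (hr : f r ∈ B), ψ ⟨f r, hr⟩ = g r := by
  let _ := f.toAlgebra
  have := RingHom.ker_isPrime g
  obtain ⟨Q, -, hQ, hQP⟩ := Ideal.exists_ideal_over_prime_of_isIntegral
    (S := integralClosure R K) (RingHom.ker g) ⊥ fun r hr =>
      h r (congrArg Subtype.val (Ideal.mem_bot.1 (Ideal.mem_comap.1 hr)))
  have : Q.LiesOver (RingHom.ker g) := ⟨hQP.symm⟩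
  let _ : Algebra (R ⧸ RingHom.ker g) L := (RingHom.kerLift g).toAlgebra
  have : FaithfulSMul (R ⧸ RingHom.ker g) L :=
    (faithfulSMul_iff_algebraMap_injective _ _).2 (RingHom.kerLift_injective g)
  let l : (integralClosure R K ⧸ Q) →ₐ[R ⧸ RingHom.ker g] L := IsAlgClosed.lift
  refine ⟨(integralClosure R K).toSubring, l.toRingHom.comp (Ideal.Quotient.mk Q),
    fun x hx => hx, fun r hr => ?_⟩
  exact (l.commutes (Ideal.Quotient.mk _ r)).trans (RingHom.kerLift_mk g r)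

variable {E : Type*} [Field E] {C : Type*} [Field C] [Algebra E C] {κ : Type*}

theorem TMinP_int {μ : κ → C} (hi : AlgebraicIndependent E μ) {x : C}
    (hx : IsIntegral (Algebra.adjoin E (Set.range μ)) x) :
    ∃ Ψ : (MvPolynomial κ E)[X], Ψ.Monic ∧
      Ψ.eval₂ (MvPolynomial.aeval μ : MvPolynomial κ E →ₐ[E] C).toRingHom x = 0 := by
  obtain ⟨P, hP, hP0⟩ := hx
  refine ⟨P.map hi.repr.toRingHom, hP.map _, ?_⟩
  rw [eval₂_map, ← hP0]
  congr 1
  exact RingHom.ext hi.aeval_repr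

theorem TMinP_theta {m : ℕ} (θ : C) (lam : Fin m → C) (h : E[X]) :
    MvPolynomial.aeval (zz θ lam)
      (aeval (MvPolynomial.X none : MvPolynomial (Option (Fin m)) E) h) = aeval θ h := by
  rw [← aeval_algHom_apply, MvPolynomial.aeval_X]
  rfl

theorem minp {θ : C} {m N : ℕ} {lam : Fin m → C} (hi : AlgebraicIndependent E (zz θ lam)) {u : C}
    (h1 : HInt E θ lam {u}) (h2 : Alg E (zz θ lam) N N u) :
    ∃ Φ, Tp E (2 * N) Φ ∧ 0 < Φ.natDegree ∧ ev3 E θ lam u Φ = 0 ∧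
      ∀ Ψ, ev3 E θ lam u Ψ = 0 → Φ ∣ Ψ := by
  classical
  let _ : StrongNormalizationMonoid (MvPolynomial (Option (Fin m)) E) :=
    UniqueFactorizationMonoid.strongNormalizationMonoid
  let _ := UniqueFactorizationMonoid.toNormalizedGCDMonoid (MvPolynomial (Option (Fin m)) E)
  obtain ⟨Φ₀, a1, a2, a3, a4⟩ := h2
  have h0 : Φ₀ ≠ 0 := by
    rintro rfl
    simp at a3
  obtain ⟨Φ, b1, b2, b3⟩ := TMinP_min _ hi u h0 a4
  have hd := TMinP_deg (b3 _ a4) h0 a1 a2
  obtain ⟨h, hh, hint⟩ := h1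
  obtain ⟨Ψ, c1, c2⟩ := TMinP_int hi (hint u rfl)
  have hA := TMinP_ne (σ := Fin m) hh
  have hdvd := b3 (Ψ.comp (Polynomial.C (aeval (MvPolynomial.X none) h) * X)) (by
    rw [eval₂_comp, eval₂_mul, eval₂_C, eval₂_X, ← c2]
    congr 2
    exact TMinP_theta θ lam h)
  have hl := leadingCoeff_dvd_leadingCoeff hdvd
  rw [leadingCoeff_comp (by rw [natDegree_C_mul_X _ hA]; exact one_ne_zero), c1.leadingCoeff,
    one_mul, leadingCoeff_C_mul_X, ← map_pow] at hl
  obtain ⟨a, ha1, ha2⟩ := TMinP_dvd (pow_ne_zero _ hh) hl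
  refine ⟨Φ, ⟨((natDegree_le_of_dvd (b3 _ a4) h0).trans a1).trans (by omega), hd, a, ?_,
    ha1.trans (hd _), ha2⟩, b1, b2, b3⟩
  rintro rfl
  rw [map_zero, leadingCoeff_eq_zero] at ha2
  simp [ha2] at b1

/-- Every root of the specialised equation comes from a specialisation. -/
theorem ext_pt [IsAlgClosed C] {θ : C} {m : ℕ} {lam : Fin m → C}
    (hi : AlgebraicIndependent E (zz θ lam)) (S : Finset C) (h1 : HInt E θ lam (S : Set C)) {u : C}
    (hu : u ∈ Submodule.span E (S : Set C)) (lam' : Fin m → C) (u' : C)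
    (h : ∀ Ψ, ev3 E θ lam u Ψ = 0 → ev3 E θ lam' u' Ψ = 0) :
    ∃ φ : C →ₗ[E] C, Pt E θ lam lam' (S : Set C) φ ∧ φ u = u' := by
  let φ₀ := (MvPolynomial.aeval (zz θ lam) : MvPolynomial (Option (Fin m)) E →ₐ[E] C).toRingHom
  let φ₁ := (MvPolynomial.aeval (zz θ lam') : MvPolynomial (Option (Fin m)) E →ₐ[E] C).toRingHom
  obtain ⟨B, ψ, hB, hψ⟩ := TMinP_ext (eval₂RingHom φ₀ u) (eval₂RingHom φ₁ u') h
  obtain ⟨g, hg, hint⟩ := h1
  let gA : MvPolynomial (Option (Fin m)) E := aeval (MvPolynomial.X none) g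
  have t0 : φ₀ gA = aeval θ g := TMinP_theta θ lam g
  have t1 : φ₁ gA = aeval θ g := TMinP_theta θ lam' g
  have ht : aeval θ g ≠ 0 := t0 ▸ (map_ne_zero_iff φ₀ hi).2 (TMinP_ne hg)
  have hC : ∀ a, eval₂RingHom φ₀ u (Polynomial.C a) = φ₀ a := fun a => eval₂_C _ _
  have hmem : ∀ a, φ₀ a ∈ B := fun a => hC a ▸ hB _ (RingHom.isIntegralElem_map _)
  have hψC : ∀ a, ψ ⟨φ₀ a, hmem a⟩ = φ₁ a := fun a => by
    have e := hψ (Polynomial.C a) (hC a ▸ hmem a)
    simpa only [coe_eval₂RingHom, eval₂_C] using e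
  have hE0 : ∀ e : E, φ₀ (MvPolynomial.C e) = algebraMap E C e := fun e => MvPolynomial.aeval_C _ e
  have hE1 : ∀ e : E, φ₁ (MvPolynomial.C e) = algebraMap E C e := fun e => MvPolynomial.aeval_C _ e
  have hsm : ∀ (e : E) (w : C), aeval θ g * (e • w) = φ₀ (MvPolynomial.C e) * (aeval θ g * w) := by
    intro e w
    rw [hE0, Algebra.smul_def]
    ring
  have hw : ∀ w ∈ Submodule.span E (S : Set C), aeval θ g * w ∈ B := by
    intro w hw
    induction hw using Submodule.span_induction with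
    | mem s hs =>
      obtain ⟨Ψ, c1, c2⟩ := TMinP_int hi (hint s hs)
      refine hB _ ⟨Ψ.map Polynomial.C, c1.map _, ?_⟩
      rw [eval₂_map, ← c2]
      congr 1
      exact RingHom.ext hC
    | zero => simp
    | add x y _ _ hx hy => simpa only [mul_add] using B.add_mem hx hy
    | smul e x _ hx =>
      rw [hsm]
      exact B.mul_mem (hmem _) hx
  let φ' : Submodule.span E (S : Set C) →ₗ[E] C :=
    { toFun := fun w => ψ ⟨aeval θ g * w, hw w w.2⟩ / aeval θ g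
      map_add' := fun x y => by
        rw [← add_div, ← map_add]
        congr 2
        exact Subtype.ext (mul_add _ _ _)
      map_smul' := fun e x => by
        have e1 : (⟨aeval θ g * (e • x : Submodule.span E (S : Set C)), hw _ (e • x).2⟩ : B) =
            ⟨φ₀ (MvPolynomial.C e), hmem _⟩ * ⟨aeval θ g * x, hw x x.2⟩ := Subtype.ext (hsm e x)
        rw [e1, map_mul, hψC, hE1, RingHom.id_apply, Algebra.smul_def, mul_div_assoc] }
  obtain ⟨φ, hφ⟩ := LinearMap.exists_extend φ'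
  have hφ' : ∀ w (h' : w ∈ Submodule.span E (S : Set C)),
      ψ ⟨aeval θ g * w, hw w h'⟩ = aeval θ g * φ w := by
    intro w h'
    have e : φ w = ψ ⟨aeval θ g * w, hw w h'⟩ / aeval θ g := LinearMap.congr_fun hφ ⟨w, h'⟩
    rw [e, mul_div_cancel₀ _ ht]
  refine ⟨φ, fun w h' Ψ hΨ => ?_, mul_left_cancel₀ ht ?_⟩
  · have e1 := scaleRoots_eval₂_eq_zero (s := gA) φ₀ hΨ
    have e2 : (Ψ.scaleRoots gA).eval₂ (φ₀.codRestrict B hmem) ⟨aeval θ g * w, hw w h'⟩ = 0 := by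
      apply B.subtype_injective
      rw [hom_eval₂, map_zero, ← e1, t0]
      rfl
    have e3 := congrArg ψ e2
    have e4 : ψ.comp (φ₀.codRestrict B hmem) = φ₁ := RingHom.ext hψC
    rw [hom_eval₂, map_zero, e4, hφ' w h', ← t1, scaleRoots_eval₂_mul, t1] at e3
    exact (mul_eq_zero.1 e3).resolve_left (pow_ne_zero _ ht)
  · have e0 : eval₂RingHom φ₀ u (Polynomial.C gA * X) = aeval θ g * u := by
      rw [coe_eval₂RingHom, eval₂_mul, eval₂_C, eval₂_X, t0]
    have e := hψ (Polynomial.C gA * X) (e0 ▸ hw u hu)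
    rw [← hφ' u hu]
    simpa only [coe_eval₂RingHom, eval₂_mul, eval₂_C, eval₂_X, t0, t1] using e

end Pool.Agent.MP_ee2255_nt.T

end

section

/-! Linear Noether normalisation over `E(θ)`. -/

namespace Pool.Agent.MP_ee2255_nt.T

open Polynomial Filter Topology Pool.Agent.MP_655169_nt

variable {E : Type*} [Field E] {C : Type*} [Field C] [Algebra E C] {κ : Type*}

theorem TNN_prod {B σ : Type*} [CommRing B] (a b : σ → B) (e : σ → ℕ) (s : Finset σ) :
    (∏ i ∈ s, (Polynomial.C (b i) + Polynomial.C (a i) * X) ^ e i).natDegree ≤ ∑ i ∈ s, e i ∧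
    (∏ i ∈ s, (Polynomial.C (b i) + Polynomial.C (a i) * X) ^ e i).coeff (∑ i ∈ s, e i) =
      ∏ i ∈ s, a i ^ e i := by
  classical
  have h1 : ∀ i, (Polynomial.C (b i) + Polynomial.C (a i) * X).natDegree ≤ 1 := fun i => by
    rw [add_comm]; exact natDegree_linear_le
  induction s using Finset.induction_on with
  | empty => simp
  | insert i s hi ih =>
    rw [Finset.prod_insert hi, Finset.sum_insert hi, Finset.prod_insert hi]
    have h2 : ((Polynomial.C (b i) + Polynomial.C (a i) * X) ^ e i).natDegree ≤ e i :=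
      natDegree_pow_le.trans (by simpa using Nat.mul_le_mul_left (e i) (h1 i))
    refine ⟨natDegree_mul_le.trans (add_le_add h2 ih.1), ?_⟩
    rw [coeff_mul_add_eq_of_natDegree_le h2 ih.1, ih.2]
    have h3 := coeff_pow_of_natDegree_le (m := e i) (h1 i)
    rw [mul_one] at h3
    rw [h3]
    simp

theorem TNN_line {K B σ : Type*} [CommRing K] [CommRing B] [Algebra K B] (a b : σ → B)
    (P : MvPolynomial σ K) :
    (MvPolynomial.aeval (fun i => Polynomial.C (b i) + Polynomial.C (a i) * X) P).natDegree ≤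
      P.totalDegree ∧
    (MvPolynomial.aeval (fun i => Polynomial.C (b i) + Polynomial.C (a i) * X) P).coeff
      P.totalDegree =
      MvPolynomial.aeval a (MvPolynomial.homogeneousComponent P.totalDegree P) := by
  classical
  have hle : ∀ m ∈ P.support, ∑ i ∈ m.support, m i ≤ P.totalDegree := fun m hm =>
    MvPolynomial.le_totalDegree hm
  rw [MvPolynomial.aeval_def, MvPolynomial.eval₂_eq]
  constructor
  · refine natDegree_sum_le_of_forall_le _ _ fun m hm => ?_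
    rw [Polynomial.algebraMap_apply]
    exact (natDegree_C_mul_le _ _).trans ((TNN_prod a b m m.support).1.trans (hle m hm))
  · rw [MvPolynomial.homogeneousComponent_apply, map_sum, finsetSum_coeff, Finset.sum_filter]
    refine Finset.sum_congr rfl fun m hm => ?_
    rw [Polynomial.algebraMap_apply, coeff_C_mul]
    split_ifs with h
    · rw [MvPolynomial.aeval_monomial, ← h]
      congr 1
      exact (TNN_prod a b m m.support).2
    · have h4 : ∑ i ∈ m.support, m i < P.totalDegree := lt_of_le_of_ne (hle m hm) h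
      rw [coeff_eq_zero_of_natDegree_lt ((TNN_prod a b m m.support).1.trans_lt h4), mul_zero]

theorem TNN_top {K σ : Type*} [CommRing K] {P : MvPolynomial σ K} (hP : P ≠ 0) :
    MvPolynomial.homogeneousComponent P.totalDegree P ≠ 0 := by
  classical
  obtain ⟨m, hm, he⟩ := Finset.exists_mem_eq_sup P.support
    (MvPolynomial.support_nonempty.mpr hP) fun s => s.sum fun _ e => e
  intro h
  have h1 := MvPolynomial.coeff_homogeneousComponent P.totalDegree P m
  rw [h, if_pos (show m.degree = P.totalDegree from he.symm)] at h1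
  exact MvPolynomial.mem_support_iff.mp hm h1.symm

theorem TNN_grid [Infinite E] {K σ : Type*} [Field K] [Algebra E K] {P : MvPolynomial σ K}
    (hP : P ≠ 0) : ∃ a : σ → E, MvPolynomial.eval (fun i => algebraMap E K (a i)) P ≠ 0 := by
  by_contra h
  push Not at h
  refine hP (MvPolynomial.funext_set (fun _ => Set.range (algebraMap E K))
    (fun _ => Set.infinite_range_of_injective (algebraMap E K).injective) fun x hx => ?_)
  choose a ha using fun i => hx i (Set.mem_univ i)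
  have : x = fun i => algebraMap E K (a i) := funext fun i => (ha i).symm
  rw [this, h, map_zero]

theorem TNN_trans {K : Type*} [CommRing K] [Algebra K C] (B : Subalgebra K C) {T : Set C}
    (hT : ∀ t ∈ T, IsIntegral B t) {y : C} (hy : IsIntegral (Algebra.adjoin K T) y) :
    IsIntegral B y := by
  have hle : Algebra.adjoin K T ≤ (integralClosure B C).restrictScalars K :=
    Algebra.adjoin_le fun t ht => hT t ht
  have h1 : IsIntegral (integralClosure B C) y :=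
    hy.map_of_comp_eq (T := integralClosure B C) (Subalgebra.inclusion hle).toRingHom
      (RingHom.id C) (by ext; rfl)
  exact isIntegral_trans (A := integralClosure B C) y h1

theorem TNN_step [Infinite E] {K : Type*} [Field K] [Algebra E K] [Algebra K C]
    [IsScalarTower E K C] {n : ℕ} (x : Fin (n + 1) → C) (hx : ¬ AlgebraicIndependent K x) :
    ∃ x' : Fin n → C, (∀ j, x' j ∈ Submodule.span E (Set.range x)) ∧
      ∀ i, IsIntegral (Algebra.adjoin K (Set.range x')) (x i) := by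
  rw [algebraicIndependent_iff] at hx
  push Not at hx
  obtain ⟨P, hP0, hP⟩ := hx
  obtain ⟨a, ha⟩ := TNN_grid (E := E) (mul_ne_zero (TNN_top hP) (MvPolynomial.X_ne_zero 0))
  rw [map_mul, MvPolynomial.eval_X] at ha
  have ha0 : a 0 ≠ 0 := fun h => right_ne_zero_of_mul ha (by rw [h, map_zero])
  have ha1 := left_ne_zero_of_mul ha
  set T : C := (a 0)⁻¹ • x 0 with hT
  let x' : Fin n → C := fun j => x j.succ - a j.succ • T
  set B := Algebra.adjoin K (Set.range x') with hB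
  let b : Fin (n + 1) → B := Fin.cons 0 fun j => ⟨x' j, Algebra.subset_adjoin ⟨j, rfl⟩⟩
  let a' : Fin (n + 1) → B := fun i => algebraMap K B (algebraMap E K (a i))
  have hab : ∀ i, x i = (b i : C) + (a' i : C) * T := by
    intro i
    have h1 : (a' i : C) * T = a i • T := by
      rw [Algebra.smul_def, IsScalarTower.algebraMap_apply E K C]
      rfl
    rw [h1]
    refine Fin.cases ?_ (fun j => ?_) i
    · simp [b, hT, smul_smul, ha0]
    · simp [b, x']
  have hint : IsIntegral B T := by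
    obtain ⟨h1, h2⟩ := TNN_line a' b P
    set Q := MvPolynomial.aeval (fun i => Polynomial.C (b i) + Polynomial.C (a' i) * X) P
      with hQ
    set c : K := MvPolynomial.eval (fun i => algebraMap E K (a i))
      (MvPolynomial.homogeneousComponent P.totalDegree P) with hc
    have h3 : Q.coeff P.totalDegree = algebraMap K B c := by
      rw [h2, hc, ← MvPolynomial.coe_aeval_eq_eval]
      exact MvPolynomial.aeval_algebraMap_apply B (fun i => algebraMap E K (a i)) _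
    have h4 : Polynomial.aeval T Q = 0 := by
      have h5 : ((Polynomial.aeval T : B[X] →ₐ[B] C).restrictScalars K).comp
          (MvPolynomial.aeval fun i => Polynomial.C (b i) + Polynomial.C (a' i) * X) =
          MvPolynomial.aeval x := by
        ext i
        simp only [AlgHom.comp_apply, MvPolynomial.aeval_X, AlgHom.restrictScalars_apply,
          map_add, map_mul, Polynomial.aeval_C, Polynomial.aeval_X]
        exact (hab i).symm
      have h6 := DFunLike.congr_fun h5 P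
      rw [hP0] at h6
      exact h6
    refine ⟨Polynomial.C (algebraMap K B c⁻¹) * Q, ?_, ?_⟩
    · refine monic_of_natDegree_le_of_coeff_eq_one P.totalDegree
        ((natDegree_C_mul_le _ _).trans h1) ?_
      rw [coeff_C_mul, h3, ← map_mul, inv_mul_cancel₀ ha1, map_one]
    · rw [← Polynomial.aeval_def, map_mul, h4, mul_zero]
  refine ⟨x', fun j => ?_, fun i => ?_⟩
  · exact Submodule.sub_mem _ (Submodule.subset_span ⟨_, rfl⟩)
      (Submodule.smul_mem _ _ (Submodule.smul_mem _ _ (Submodule.subset_span ⟨_, rfl⟩)))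
  · rw [hab i]
    exact (isIntegral_algebraMap (x := b i)).add ((isIntegral_algebraMap (x := a' i)).mul hint)

theorem TNN_field [Infinite E] {K : Type*} [Field K] [Algebra E K] [Algebra K C]
    [IsScalarTower E K C] (n : ℕ) (x : Fin n → C) :
    ∃ (m : ℕ) (lam : Fin m → C), (∀ j, lam j ∈ Submodule.span E (Set.range x)) ∧
      AlgebraicIndependent K lam ∧ ∀ i, IsIntegral (Algebra.adjoin K (Set.range lam)) (x i) := by
  induction n with
  | zero => exact ⟨0, x, fun j => j.elim0, algebraicIndependent_empty_type, fun j => j.elim0⟩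
  | succ n ih =>
    by_cases hx : AlgebraicIndependent K x
    · exact ⟨n + 1, x, fun j => Submodule.subset_span ⟨j, rfl⟩, hx, fun i =>
        isIntegral_algebraMap (R := Algebra.adjoin K (Set.range x))
          (x := ⟨x i, Algebra.subset_adjoin ⟨i, rfl⟩⟩)⟩
    · obtain ⟨x', h1, h2⟩ := TNN_step (E := E) x hx
      obtain ⟨m, lam, h3, h4, h5⟩ := ih x'
      refine ⟨m, lam, fun j => ?_, h4, fun i => TNN_trans _ ?_ (h2 i)⟩
      · exact Submodule.span_le.mpr (by rintro _ ⟨k, rfl⟩; exact h1 k) (h3 j)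
      · rintro _ ⟨k, rfl⟩
        exact h5 k

theorem TNN_aeval_mem (θ : C) {m : ℕ} (lam : Fin m → C) (g : E[X]) :
    aeval θ g ∈ Algebra.adjoin E (Set.range (zz θ lam)) := by
  have h : Algebra.adjoin E {θ} ≤ Algebra.adjoin E (Set.range (zz θ lam)) :=
    Algebra.adjoin_mono (by rintro _ rfl; exact ⟨none, rfl⟩)
  exact h (Polynomial.aeval_mem_adjoin_singleton E θ)

theorem TNN_den {θ : C} (hθ : Transcendental E θ) {m : ℕ} (lam : Fin m → C) {b : C}
    (hb : b ∈ Algebra.adjoin (IntermediateField.adjoin E {θ}) (Set.range lam)) :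
    ∃ h : E[X], h ≠ 0 ∧ aeval θ h * b ∈ Algebra.adjoin E (Set.range (zz θ lam)) := by
  induction hb using Algebra.adjoin_induction with
  | mem y hy =>
    obtain ⟨j, rfl⟩ := hy
    refine ⟨1, one_ne_zero, ?_⟩
    rw [map_one, one_mul]
    exact Algebra.subset_adjoin ⟨some j, rfl⟩
  | algebraMap r =>
    obtain ⟨p, q, hr⟩ := (IntermediateField.mem_adjoin_simple_iff E r.1).mp r.2
    have h1 : algebraMap (IntermediateField.adjoin E {θ}) C r = aeval θ p / aeval θ q := hr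
    rw [h1]
    by_cases hq : q = 0
    · refine ⟨1, one_ne_zero, ?_⟩
      rw [hq, map_zero, div_zero, mul_zero]
      exact zero_mem _
    · refine ⟨q, hq, ?_⟩
      have h2 : aeval θ q ≠ 0 := fun h => hθ ⟨q, hq, h⟩
      rw [mul_div_cancel₀ _ h2]
      exact TNN_aeval_mem θ lam p
  | add y z _ _ hy hz =>
    obtain ⟨g, hg, h1⟩ := hy
    obtain ⟨h, hh, h2⟩ := hz
    refine ⟨g * h, mul_ne_zero hg hh, ?_⟩
    have : aeval θ (g * h) * (y + z) =
        aeval θ h * (aeval θ g * y) + aeval θ g * (aeval θ h * z) := by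
      rw [map_mul]; ring
    rw [this]
    exact add_mem (mul_mem (TNN_aeval_mem θ lam h) h1) (mul_mem (TNN_aeval_mem θ lam g) h2)
  | mul y z _ _ hy hz =>
    obtain ⟨g, hg, h1⟩ := hy
    obtain ⟨h, hh, h2⟩ := hz
    refine ⟨g * h, mul_ne_zero hg hh, ?_⟩
    have : aeval θ (g * h) * (y * z) = (aeval θ g * y) * (aeval θ h * z) := by
      rw [map_mul]; ring
    rw [this]
    exact mul_mem h1 h2

theorem TNN_clear {θ : C} (hθ : Transcendental E θ) {m : ℕ} (lam : Fin m → C) {s : C}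
    (hs : IsIntegral (Algebra.adjoin (IntermediateField.adjoin E {θ}) (Set.range lam)) s) :
    ∃ h : E[X], h ≠ 0 ∧ IsIntegral (Algebra.adjoin E (Set.range (zz θ lam))) (aeval θ h * s) := by
  classical
  set B := Algebra.adjoin (IntermediateField.adjoin E {θ}) (Set.range lam) with hB
  obtain ⟨p, hp, hps⟩ := hs
  set A := Algebra.adjoin E (Set.range (zz θ lam)) with hA
  set q : C[X] := p.map (algebraMap B C) with hq
  have hqm : q.Monic := hp.map _
  have hqs : q.eval s = 0 := by rw [hq, eval_map, hps]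
  have hc : ∀ i, ∃ h : E[X], h ≠ 0 ∧ aeval θ h * q.coeff i ∈ A := fun i => by
    rw [hq, coeff_map]
    exact TNN_den hθ lam (p.coeff i).2
  choose g hg0 hg using hc
  set h : E[X] := ∏ i ∈ Finset.range q.natDegree, g i with hh
  refine ⟨h, Finset.prod_ne_zero_iff.mpr fun i _ => hg0 i, ?_⟩
  have hl : q.scaleRoots (aeval θ h) ∈ lifts (algebraMap A C) := by
    rw [lifts_iff_coeff_lifts]
    intro i
    suffices hm : (q.scaleRoots (aeval θ h)).coeff i ∈ A from ⟨⟨_, hm⟩, rfl⟩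
    rw [coeff_scaleRoots]
    rcases lt_trichotomy i q.natDegree with hi | hi | hi
    · obtain ⟨k, hk⟩ : ∃ k, q.natDegree - i = k + 1 := ⟨q.natDegree - i - 1, by omega⟩
      have h1 : h = g i * ∏ j ∈ (Finset.range q.natDegree).erase i, g j :=
        (Finset.mul_prod_erase _ _ (Finset.mem_range.mpr hi)).symm
      have h2 : q.coeff i * aeval θ h ^ (k + 1) = (aeval θ (g i) * q.coeff i) *
          (aeval θ (∏ j ∈ (Finset.range q.natDegree).erase i, g j) * aeval θ h ^ k) := by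
        rw [pow_succ']
        nth_rewrite 1 [h1]
        rw [map_mul]
        ring
      rw [hk, h2]
      exact mul_mem (hg i) (mul_mem (TNN_aeval_mem θ lam _) (pow_mem (TNN_aeval_mem θ lam _) _))
    · rw [hi, Nat.sub_self, pow_zero, mul_one, hqm.coeff_natDegree]
      exact one_mem _
    · rw [coeff_eq_zero_of_natDegree_lt hi, zero_mul]
      exact zero_mem _
  obtain ⟨r, hr, -, hrm⟩ := lifts_and_natDegree_eq_and_monic hl ((monic_scaleRoots_iff _).mpr hqm)
  refine ⟨r, hrm, ?_⟩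
  rw [← eval_map, hr, scaleRoots_eval_mul, hqs, mul_zero]

theorem nn [Infinite E] (θ : C) (hθ : Transcendental E θ) (S : Finset C) :
    ∃ (m : ℕ) (lam : Fin m → C), (∀ j, lam j ∈ Submodule.span E (S : Set C)) ∧
      AlgebraicIndependent E (zz θ lam) ∧ HInt E θ lam (S : Set C) := by
  classical
  let x : Fin S.card → C := fun i => (S.equivFin.symm i : C)
  have hx : Set.range x = (S : Set C) := by
    ext y
    constructor
    · rintro ⟨i, rfl⟩
      exact (S.equivFin.symm i).2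
    · intro hy
      exact ⟨S.equivFin ⟨y, hy⟩, by simp [x]⟩
  obtain ⟨m, lam, h1, h2, h3⟩ :=
    TNN_field (E := E) (K := IntermediateField.adjoin E {θ}) S.card x
  refine ⟨m, lam, fun j => hx ▸ h1 j, ?_, ?_⟩
  · have h4 : AlgebraicIndependent E fun _ : Unit => θ :=
      algebraicIndependent_unique_type_iff.mpr hθ
    have h5 := h4.sumElim_of_tower (S := IntermediateField.adjoin E {θ}) (by
      rintro _ ⟨_, rfl⟩
      exact ⟨⟨θ, IntermediateField.mem_adjoin_simple_self E θ⟩, rfl⟩) h2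
    have h6 := h5.comp (fun o : Option (Fin m) => (o.elim (Sum.inr ()) Sum.inl : Fin m ⊕ Unit))
      (by rintro (_ | a) (_ | b) h <;> simp_all)
    convert h6 using 1
    ext o
    cases o <;> rfl
  · choose g hg0 hg using fun i => TNN_clear hθ lam (h3 i)
    refine ⟨∏ i, g i, Finset.prod_ne_zero_iff.mpr fun i _ => hg0 i, fun s hs => ?_⟩
    rw [← hx] at hs
    obtain ⟨i, rfl⟩ := hs
    rw [← Finset.prod_erase_mul _ _ (Finset.mem_univ i), map_mul, mul_assoc]
    exact (isIntegral_algebraMap (R := Algebra.adjoin E (Set.range (zz θ lam)))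
      (x := ⟨_, TNN_aeval_mem θ lam _⟩)).mul (hg i)

theorem HInt.span {θ : C} {m : ℕ} {lam : Fin m → C} {S : Set C} (h : HInt E θ lam S) :
    HInt E θ lam (Submodule.span E S : Set C) := by
  obtain ⟨g, hg, h⟩ := h
  refine ⟨g, hg, fun s hs => ?_⟩
  induction hs using Submodule.span_induction with
  | mem y hy => exact h y hy
  | zero => rw [mul_zero]; exact isIntegral_zero
  | add y z _ _ hy hz => rw [mul_add]; exact hy.add hz
  | smul e y _ hy =>
    rw [Algebra.smul_def, mul_left_comm]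
    exact (isIntegral_algebraMap (R := Algebra.adjoin E (Set.range (zz θ lam)))
      (x := algebraMap E _ e)).mul hy

end Pool.Agent.MP_ee2255_nt.T

end

section

/-! A specialisation close to the identity. -/

namespace Pool.Agent.MP_ee2255_nt.T

open Polynomial Filter Topology Pool.Agent.MP_655169_nt

variable {E C : Type*} [Field E] [NormedField C] [IsUltrametricDist C] [IsAlgClosed C]
  [Algebra E C] (hE : ∀ e : E, ‖algebraMap E C e‖ ≤ 1) {θ : C} (hθ : 1 < ‖θ‖)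
include hE hθ

omit hθ [IsAlgClosed C] in
/-- A generic combination is as large as its largest member. -/
theorem TALc_gen [Infinite E] {ι σ : Type*} [Finite ι] [Fintype σ] (v : ι → σ → C) :
    ∃ a : σ → E, ∀ i s, ‖v i s‖ ≤ ‖∑ s, a s • v i s‖ := by
  classical
  let W : {x : ι × σ // v x.1 x.2 ≠ 0 ∧ ∀ s, ‖v x.1 s‖ ≤ ‖v x.1 x.2‖} → Submodule E (σ → E) :=
    fun x =>
    { carrier := {a | ‖∑ s, a s • v x.1.1 s‖ < ‖v x.1.1 x.1.2‖}
      add_mem' := fun {a b} ha hb => by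
        simp only [Set.mem_ofPred_eq, Pi.add_apply, add_smul, Finset.sum_add_distrib] at ha hb ⊢
        exact (IsUltrametricDist.norm_add_le_max _ _).trans_lt (max_lt ha hb)
      zero_mem' := by simpa using x.2.1
      smul_mem' := fun c a ha => by
        simp only [Set.mem_ofPred_eq, Pi.smul_apply, smul_assoc, ← Finset.smul_sum] at ha ⊢
        rw [Algebra.smul_def, norm_mul]
        exact (mul_le_of_le_one_left (norm_nonneg _) (hE c)).trans_lt ha }
  obtain ⟨a, ha⟩ := Submodule.exists_forall_notMem_of_forall_ne_top W fun x hx => by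
    have : Pi.single x.1.2 (1 : E) ∈ W x := hx ▸ Submodule.mem_top
    change ‖∑ s, (Pi.single x.1.2 (1 : E) : σ → E) s • v x.1.1 s‖ < ‖v x.1.1 x.1.2‖ at this
    rw [Finset.sum_eq_single x.1.2 (fun b _ hb => by simp [hb]) (by simp)] at this
    simp at this
  refine ⟨a, fun i s => ?_⟩
  obtain ⟨s₀, -, h0⟩ := Finset.exists_max_image Finset.univ (fun s => ‖v i s‖)
    ⟨s, Finset.mem_univ _⟩
  by_cases e : v i s₀ = 0
  · refine (h0 s (Finset.mem_univ _)).trans ?_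
    rw [e, norm_zero]
    exact norm_nonneg _
  · exact (h0 s (Finset.mem_univ _)).trans
      (not_lt.1 (ha ⟨(i, s₀), e, fun s => h0 s (Finset.mem_univ _)⟩))

omit [IsAlgClosed C] in
theorem TALc_lead {m N : ℕ} (lam : Fin m → C) {Φ : (MvPolynomial (Option (Fin m)) E)[X]}
    (h : Tp E N Φ) : 1 ≤ ‖(MvPolynomial.aeval (zz θ lam) :
      MvPolynomial (Option (Fin m)) E →ₐ[E] C).toRingHom Φ.leadingCoeff‖ := by
  obtain ⟨a, ha, -, e⟩ := h.2.2
  rw [e]
  change 1 ≤ ‖MvPolynomial.aeval (zz θ lam) _‖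
  rw [TMinP_theta, normE_poly hE hθ ha]
  exact one_le_pow₀ hθ.le

theorem TALc_near {m N : ℕ} {lam : Fin m → C} (lam' : Fin m → C)
    {R η : ℝ} (hR : ‖θ‖ ≤ R) (hη : 0 ≤ η) (hl : ∀ j, ‖lam j‖ ≤ R)
    (hl' : ∀ j, ‖lam' j‖ ≤ R) (h : ∀ j, ‖lam j - lam' j‖ ≤ η) {u : C} (hu : ‖u‖ ≤ R)
    {Φ : (MvPolynomial (Option (Fin m)) E)[X]} (h1 : Tp E (2 * N) Φ) (h2 : 0 < Φ.natDegree)
    (h3 : ev3 E θ lam u Φ = 0) :
    ∃ u', ev3 E θ lam' u' Φ = 0 ∧ ‖u - u'‖ ^ Φ.natDegree ≤ R ^ (4 * N) * η := by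
  have hR1 : 1 ≤ R := hθ.le.trans hR
  have k1 := TALc_lead hE hθ lam' h1
  set f := (MvPolynomial.aeval (zz θ lam) :
    MvPolynomial (Option (Fin m)) E →ₐ[E] C).toRingHom with hf
  set f' := (MvPolynomial.aeval (zz θ lam') :
    MvPolynomial (Option (Fin m)) E →ₐ[E] C).toRingHom with hf'
  have k2 : f' Φ.leadingCoeff ≠ 0 := fun e => by
    rw [e, norm_zero] at k1
    linarith
  have k3 := natDegree_map_of_leadingCoeff_ne_zero f' k2
  obtain ⟨u', e1, e2⟩ := root_near (Φ.map f') (by rwa [k3]) u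
  rw [eval_map] at e1
  refine ⟨u', e1, ?_⟩
  rw [k3, leadingCoeff_map_of_leadingCoeff_ne_zero f' k2, eval_map] at e2
  refine (le_mul_of_one_le_left (by positivity) k1).trans (e2.trans ?_)
  have e3 : Φ.eval₂ f' u = -(Φ.eval₂ f u - Φ.eval₂ f' u) := by
    have : Φ.eval₂ f u = 0 := h3
    rw [this]
    ring
  rw [e3, norm_neg, eval₂_eq_sum_range, eval₂_eq_sum_range, ← Finset.sum_sub_distrib]
  refine IsUltrametricDist.norm_sum_le_of_forall_le_of_nonneg (by positivity) fun j hj => ?_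
  have e4 : ‖f (Φ.coeff j) - f' (Φ.coeff j)‖ ≤ R ^ (2 * N) * η :=
    normE_lip hE (zz θ lam) (zz θ lam') hR1 hη (by rintro (_ | k); exacts [hR, hl k])
      (by rintro (_ | k); exacts [hR, hl' k])
      (by rintro (_ | k); exacts [by simpa [zz] using hη, h k]) _ (h1.2.1 j)
  have e5 : ‖u‖ ^ j ≤ R ^ (2 * N) :=
    (pow_le_pow_left₀ (norm_nonneg _) hu j).trans
      (pow_le_pow_right₀ hR1 ((Nat.lt_succ_iff.1 (Finset.mem_range.1 hj)).trans h1.1))
  rw [← sub_mul, norm_mul, norm_pow]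
  refine (mul_le_mul e4 e5 (by positivity) (by positivity)).trans (le_of_eq ?_)
  ring

theorem alc [Infinite E] (S : Finset C) {m N : ℕ} {lam : Fin m → C}
    (hi : AlgebraicIndependent E (zz θ lam)) (h1 : HInt E θ lam (S : Set C))
    (h2 : ∀ u ∈ Submodule.span E (S : Set C), Alg E (zz θ lam) N N u) (lam' : Fin m → C)
    {R η : ℝ} (hR : ‖θ‖ ≤ R) (hη : 0 ≤ η) (hS : ∀ s ∈ S, ‖s‖ ≤ R) (hl : ∀ j, ‖lam j‖ ≤ R)
    (hl' : ∀ j, ‖lam' j‖ ≤ R) (h : ∀ j, ‖lam j - lam' j‖ ≤ η) :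
    ∃ φ : C →ₗ[E] C, (1 ∈ S → φ 1 = 1) ∧
      (∀ u ∈ Submodule.span E (S : Set C), AlgT E θ lam' (2 * N) (φ u)) ∧
      ∃ n, 1 ≤ n ∧ n ≤ 2 * N + 1 ∧ ∀ s ∈ S, ‖s - φ s‖ ^ n ≤ R ^ (4 * N) * η := by
  classical
  have hR1 : 1 ≤ R := hθ.le.trans hR
  have hmin : ∀ u ∈ Submodule.span E (S : Set C), ∃ Φ, Tp E (2 * N) Φ ∧ 0 < Φ.natDegree ∧
      ev3 E θ lam u Φ = 0 ∧ ∀ Ψ, ev3 E θ lam u Ψ = 0 → Φ ∣ Ψ := fun u hu => by
    obtain ⟨g, hg, H⟩ := h1.span
    exact minp hi ⟨g, hg, fun s hs => H s (by rw [hs]; exact hu)⟩ (h2 u hu)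
  choose! Φ p1 p2 p3 p4 using hmin
  let T : Set (S → C) := {τ | ∃ φ : C →ₗ[E] C, Pt E θ lam lam' (S : Set C) φ ∧ ∀ s : S, τ s = φ s}
  have hT : T.Finite := by
    refine (Set.Finite.pi' (t := fun s : S => ((Φ s).map (MvPolynomial.aeval (zz θ lam') :
      MvPolynomial (Option (Fin m)) E →ₐ[E] C).toRingHom).rootSet C)
      fun s => rootSet_finite _ _).subset ?_
    rintro τ ⟨φ, hφ, hτ⟩ s
    have hs : (s : C) ∈ Submodule.span E (S : Set C) := Submodule.subset_span s.2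
    have k1 := TALc_lead hE hθ lam' (p1 s hs)
    rw [mem_rootSet]
    refine ⟨fun e => ?_, ?_⟩
    · have := congrArg (fun p => p.coeff (Φ s).natDegree) e
      simp only [coeff_map, coeff_natDegree, coeff_zero] at this
      rw [this, norm_zero] at k1
      linarith
    · rw [coe_aeval_eq_eval, eval_map, hτ]
      exact hφ s hs _ (p3 s hs)
  have := hT.to_subtype
  obtain ⟨a, ha⟩ := TALc_gen hE (fun (τ : T) (s : S) => (s : C) - τ.1 s)
  set u : C := ∑ s : S, a s • (s : C) with hu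
  have huS : u ∈ Submodule.span E (S : Set C) :=
    sum_mem fun s _ => Submodule.smul_mem _ _ (Submodule.subset_span s.2)
  obtain ⟨u', e1, e2⟩ := TALc_near hE hθ lam' hR hη hl hl' h
    (normE_span hE (S : Set C) (by linarith) hS huS) (p1 u huS) (p2 u huS) (p3 u huS)
  obtain ⟨φ, hφ, rfl⟩ := ext_pt hi S h1 huS lam' u' fun Ψ hΨ => by
    obtain ⟨Θ, rfl⟩ := p4 u huS Ψ hΨ
    unfold ev3 at e1 ⊢
    rw [eval₂_mul, e1, zero_mul]
  refine ⟨φ, fun h1S => ?_, fun w hw => ⟨Φ w, p1 w hw, hφ w hw _ (p3 w hw)⟩, (Φ u).natDegree,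
    p2 u huS, (p1 u huS).1.trans (Nat.le_succ _), fun s hs => ?_⟩
  · have := hφ 1 (Submodule.subset_span h1S) (X - 1) (by simp [ev3, eval₂_sub])
    simpa [ev3, eval₂_sub, sub_eq_zero] using this
  · refine (pow_le_pow_left₀ (norm_nonneg _) ?_ _).trans e2
    refine (ha ⟨fun s => φ s, φ, hφ, fun _ => rfl⟩ ⟨s, hs⟩).trans (le_of_eq ?_)
    simp only [hu, map_sum, map_smul, smul_sub, Finset.sum_sub_distrib]

end Pool.Agent.MP_ee2255_nt.T

end

section

/-! Local estimates for the Carlitz action. -/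

namespace Pool.Agent.MP_ee2255_nt.T

open Polynomial Filter Topology Pool.Agent.MP_655169_nt

variable {F C : Type*} [Field F] [Fintype F] [Field C] [Algebra F C] {θ : C} {r ρ : ℕ}
  {c : F[X]} {d : Fin r → F[X]} {u : C} {y : Fin r → C}

section Aux

variable {Γ : Type*} [LinearOrderedCommGroupWithZero Γ] (v : Valuation C Γ)

theorem tma2_q : 2 ≤ qq F := Fintype.one_lt_card

theorem tma2_smul {a : F} (ha : a ≠ 0) (w : C) : v (a • w) = v w := by
  have h := congrArg (fun x => v (algebraMap F C x)) (FiniteField.pow_card_sub_one_eq_one a ha)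
  simp only [map_pow, map_one] at h
  have h2 : 1 < Fintype.card F := Fintype.one_lt_card
  rw [Algebra.smul_def, map_mul, (pow_eq_one_iff_of_nonneg zero_le (by omega)).1 h, one_mul]

theorem tma2_smul_le (a : F) (w : C) : v (a • w) ≤ v w := by
  rcases eq_or_ne a 0 with rfl | ha
  · simp
  · exact (tma2_smul v ha w).le

theorem tma2_step (k : ℕ) (w : C) : (cth F θ ^ (k + 1)) w =
    θ * (cth F θ ^ k) w + (cth F θ ^ k) w ^ qq F := by
  rw [pow_succ', Module.End.mul_apply, cth_apply]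

theorem tma2_pow (x : Γ) : x ^ qq F = x ^ (qq F - 1) * x := by
  rw [← pow_succ, Nat.sub_add_cancel (one_le_two.trans tma2_q)]

theorem tma2_grow {w : C} (h1 : v θ < v w ^ (qq F - 1)) (h2 : 1 < v w) (k : ℕ) :
    v ((cth F θ ^ k) w) = v w ^ qq F ^ k := by
  induction k with
  | zero => simp
  | succ k ih =>
    have h3 : v w ≤ v ((cth F θ ^ k) w) := by
      rw [ih]
      exact le_self_pow₀ h2.le (pow_ne_zero _ (by have := tma2_q (F := F); omega))
    rw [tma2_step, v.map_add_eq_of_lt_right, map_pow, ih, ← pow_mul, pow_succ]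
    rw [map_mul, map_pow, tma2_pow]
    exact mul_lt_mul_of_pos_right (h1.trans_le (pow_le_pow_left₀ zero_le h3 _))
      (zero_lt_one.trans (h2.trans_le h3))

theorem tma2_up {B : Γ} (h1 : 1 ≤ B) (h2 : v θ ≤ B ^ (qq F - 1)) {w : C} (hw : v w ≤ B) (k : ℕ) :
    v ((cth F θ ^ k) w) ≤ B ^ qq F ^ k := by
  induction k with
  | zero => simpa using hw
  | succ k ih =>
    rw [tma2_step, pow_succ, pow_mul]
    refine v.map_add_le ?_ (by rw [map_pow]; exact pow_le_pow_left₀ zero_le ih _)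
    rw [map_mul, tma2_pow (B ^ qq F ^ k)]
    exact mul_le_mul' (h2.trans (pow_le_pow_left₀ zero_le (le_self_pow₀ h1
      (pow_ne_zero _ (by have := tma2_q (F := F); omega))) _)) ih

theorem tma2_main (hc : c ≠ 0) (hd : ∀ j, (d j).natDegree + ρ ≤ c.natDegree)
    (h : carl θ c u = ∑ j, carl θ (d j) (y j)) {B : Γ} (h1 : 1 ≤ B) (h2 : v θ ≤ B ^ (qq F - 1))
    (hy : ∀ j, v (y j) ≤ B) {i : ℕ} (hi : i ≤ c.natDegree)
    (h3 : v θ < v ((cth F θ ^ i) u) ^ (qq F - 1)) (h4 : 1 < v ((cth F θ ^ i) u)) :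
    v ((cth F θ ^ i) u) ^ qq F ^ (c.natDegree - i) ≤ B ^ qq F ^ (c.natDegree - ρ) := by
  have hq := tma2_q (F := F)
  have e : ∀ j ≤ c.natDegree, v θ < v ((cth F θ ^ j) u) ^ (qq F - 1) → 1 < v ((cth F θ ^ j) u) →
      v ((cth F θ ^ c.natDegree) u) = v ((cth F θ ^ j) u) ^ qq F ^ (c.natDegree - j) :=
    fun j hj a b => by
      rw [← tma2_grow v a b, ← Module.End.mul_apply, ← pow_add, Nat.sub_add_cancel hj]
  have h5 : v ((cth F θ ^ i) u) ≤ v ((cth F θ ^ c.natDegree) u) := by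
    rw [e i hi h3 h4]
    exact le_self_pow₀ h4.le (pow_ne_zero _ (by omega))
  have h6 : v (carl θ c u) = v ((cth F θ ^ c.natDegree) u) := by
    have h0 := tma2_smul v (a := c.coeff c.natDegree) (leadingCoeff_ne_zero.2 hc)
      ((cth F θ ^ c.natDegree) u)
    rw [carl_eq_sum θ c _ (Nat.lt_succ_self _), Finset.sum_range_succ, v.map_add_eq_of_lt_right, h0]
    rw [h0]
    refine v.map_sum_lt (zero_lt_one.trans (h4.trans_le h5)).ne' fun j hj =>
      (tma2_smul_le v _ _).trans_lt ?_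
    have hj' := Finset.mem_range.1 hj
    by_cases a : v θ < v ((cth F θ ^ j) u) ^ (qq F - 1)
    · by_cases b : 1 < v ((cth F θ ^ j) u)
      · rw [e j hj'.le a b]
        exact lt_self_pow₀ b (Nat.one_lt_pow (by omega) hq)
      · exact (not_lt.1 b).trans_lt (h4.trans_le h5)
    · exact (lt_of_pow_lt_pow_left₀ _ zero_le ((not_lt.1 a).trans_lt h3)).trans_le h5
  rw [← e i hi h3 h4, ← h6, h]
  refine v.map_sum_le fun j _ => ?_
  rw [carl_eq_sum θ (d j) _ (Nat.lt_succ_self _)]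
  refine v.map_sum_le fun k hk => (tma2_smul_le v _ _).trans ((tma2_up v h1 h2 (hy j) k).trans
    (pow_le_pow_right₀ h1 (Nat.pow_le_pow_right (by omega) ?_)))
  have := Finset.mem_range.1 hk
  have := hd j
  omega

end Aux

theorem fin_place (V : ValuationSubring C) (hθ : θ ∈ V) (hc : c ≠ 0) (hρ : ρ ≤ c.natDegree)
    (hd : ∀ j, (d j).natDegree + ρ ≤ c.natDegree) (h : carl θ c u = ∑ j, carl θ (d j) (y j))
    {D : C} (hD : D ∈ V) (hy : ∀ j, D * y j ∈ V) : D * u ^ qq F ^ ρ ∈ V := by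
  have hq := tma2_q (F := F)
  by_cases hu : u ∈ V
  · exact mul_mem hD (pow_mem hu _)
  rcases eq_or_ne D 0 with rfl | h0
  · simp
  simp only [← V.valuation_le_one_iff, map_mul, map_pow, not_le] at hθ hD hy hu ⊢
  have h1 : 0 < V.valuation D := zero_lt_iff.2 (by simpa using h0)
  have h2 : 1 ≤ (V.valuation D)⁻¹ := (one_le_inv₀ h1).2 hD
  have h3 := tma2_main V.valuation hc hd h h2 (hθ.trans (one_le_pow₀ h2))
    (fun j => (le_inv_mul_iff₀ h1).2 (hy j) |>.trans_eq (mul_one _)) (Nat.zero_le _)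
    (hθ.trans_lt (one_lt_pow₀ (by simpa using hu) (by omega))) (by simpa using hu)
  rw [pow_zero, Module.End.one_apply, Nat.sub_zero, ← Nat.add_sub_cancel' hρ, pow_add, pow_mul,
    Nat.add_sub_cancel' hρ] at h3
  have h4 := le_of_pow_le_pow_left₀ (pow_ne_zero _ (by omega)) zero_le h3
  exact (le_inv_mul_iff₀ h1).1 (h4.trans_eq (mul_one _).symm)

theorem inf_place {Γ : Type*} [LinearOrderedCommGroupWithZero Γ] (v : Valuation C Γ)
    (hθ : 1 < v θ) (hc : c ≠ 0) (hρ : ρ ≤ c.natDegree)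
    (hd : ∀ j, (d j).natDegree + ρ ≤ c.natDegree) (h : carl θ c u = ∑ j, carl θ (d j) (y j))
    {H : ℕ} (hH : 1 ≤ H) (hy : ∀ j, v (y j) ≤ v θ ^ H) {i : ℕ}
    (hi : (qq F - 1) * H * qq F ^ i ≤ qq F ^ ρ) :
    v ((cth F θ ^ i) u) ^ (qq F - 1) ≤ v θ := by
  have hq := tma2_q (F := F)
  by_contra h3
  replace h3 := not_le.1 h3
  have h0 : 0 < (qq F - 1) * H := Nat.mul_pos (by omega) hH
  have hiρ : i ≤ ρ := (Nat.pow_le_pow_iff_right hq).1 ((Nat.le_mul_of_pos_left _ h0).trans hi)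
  have h4 := tma2_main v hc hd h (one_le_pow₀ hθ.le)
    (by rw [← pow_mul, mul_comm]; exact le_self_pow₀ hθ.le h0.ne') hy (hiρ.trans hρ) h3
    (lt_of_pow_lt_pow_left₀ (qq F - 1) zero_le (by rw [one_pow]; exact hθ.trans h3))
  have h5 := pow_le_pow_left₀ zero_le h4 (qq F - 1)
  rw [pow_right_comm, ← pow_mul (v θ), ← pow_mul (v θ)] at h5
  have h6 := (pow_lt_pow_left₀ h3 zero_le (n := qq F ^ (c.natDegree - i))
    (pow_ne_zero _ (by omega))).trans_le h5
  refine absurd ((pow_lt_pow_iff_right₀ hθ).1 h6) (not_lt.2 ?_)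
  refine Nat.le_of_mul_le_mul_right ?_ (Nat.pow_pos (n := i) (by omega : 0 < qq F))
  calc _ = (qq F - 1) * H * qq F ^ i * qq F ^ (c.natDegree - ρ) := by ring
    _ ≤ qq F ^ ρ * qq F ^ (c.natDegree - ρ) := Nat.mul_le_mul_right _ hi
    _ = _ := by rw [← pow_add, ← pow_add]; congr 1; omega

end Pool.Agent.MP_ee2255_nt.T

end

section

/-! Short relations in the Carlitz module. -/

namespace Pool.Agent.MP_ee2255_nt.T

open Polynomial Filter Topology Pool.Agent.MP_655169_nt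

theorem ma6_conj {K C : Type*} [Field K] [Field C] [Algebra K C] [IsAlgClosed C] {x x' : C}
    (hx : IsIntegral K x) (h : IsConjRoot K x x') :
    ∃ (L : Subfield C) (τ : L →+* C), (∀ a, IsIntegral K a → a ∈ L) ∧
      (∀ a : L, IsConjRoot K (a : C) (τ a)) ∧ ∀ hx : x ∈ L, τ ⟨x, hx⟩ = x' := by
  let L0 := algebraicClosure K C
  let x0 : L0 := ⟨x, mem_algebraicClosure_iff'.2 hx⟩
  let x1 : L0 := ⟨x', mem_algebraicClosure_iff'.2 (h.isIntegral hx)⟩
  have h0 : IsConjRoot K x1 x0 := by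
    rw [← isConjRoot_algHom_iff_of_injective (f := L0.val) L0.val.injective]
    exact h.symm
  obtain ⟨σ, hσ⟩ := h0.exists_algEquiv
  refine ⟨L0.toSubfield, (L0.val.comp σ.toAlgHom).toRingHom,
    fun a ha => mem_algebraicClosure_iff'.2 ha, fun a => ?_, fun hx => ?_⟩
  · have h1 : IsConjRoot K (show L0 from a) (σ a) := isConjRoot_of_algEquiv _ σ
    rw [← isConjRoot_algHom_iff_of_injective (f := L0.val) L0.val.injective] at h1
    exact h1
  · exact congrArg Subtype.val hσ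

section

variable {F C : Type*} [Field F] [Fintype F] [Field C] [Algebra F C]

theorem ma6_mem (L : Subfield C) (hF : ∀ a : F, algebraMap F C a ∈ L) {θ : C} (hθ : θ ∈ L)
    {r : ℕ} (c : Fin r → F[X]) {y : Fin r → C} (hy : ∀ j, y j ∈ L) :
    ∑ j, carl θ (c j) (y j) ∈ L :=
  sum_mem fun j _ => carl_mem θ L hF hθ (c j) (hy j)

theorem ma6_tau (L : Subfield C) (hF : ∀ a : F, algebraMap F C a ∈ L) {θ : C} (hθ : θ ∈ L)
    (τ : L →+* C) (hτF : ∀ a : F, τ ⟨algebraMap F C a, hF a⟩ = algebraMap F C a)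
    (hτθ : τ ⟨θ, hθ⟩ = θ) {r : ℕ} (c : Fin r → F[X]) {y : Fin r → C} (hy : ∀ j, y j ∈ L) :
    τ ⟨∑ j, carl θ (c j) (y j), ma6_mem L hF hθ c hy⟩ = ∑ j, carl θ (c j) (τ ⟨y j, hy j⟩) := by
  let : Algebra F L := ((algebraMap F C).codRestrict L hF).toAlgebra
  let ι : L →ₐ[F] C := ⟨L.subtype, fun _ => rfl⟩
  let τ' : L →ₐ[F] C := ⟨τ, hτF⟩
  have h1 : (⟨∑ j, carl θ (c j) (y j), ma6_mem L hF hθ c hy⟩ : L) =
      ∑ j, carl (⟨θ, hθ⟩ : L) (c j) ⟨y j, hy j⟩ := by
    apply ι.injective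
    rw [map_sum]
    change ∑ j, carl θ (c j) (y j) = ∑ j, ι (carl (⟨θ, hθ⟩ : L) (c j) ⟨y j, hy j⟩)
    exact Finset.sum_congr rfl fun j _ => (carl_map (⟨θ, hθ⟩ : L) ι (c j) ⟨y j, hy j⟩).symm
  rw [h1, map_sum]
  refine Finset.sum_congr rfl fun j _ => ?_
  have h2 := carl_map (⟨θ, hθ⟩ : L) τ' (c j) ⟨y j, hy j⟩
  have h3 : τ' ⟨θ, hθ⟩ = θ := hτθ
  rw [h3] at h2
  exact h2

/-- The family of candidate relations evaluated at `y`. -/
noncomputable def ma6G (θ : C) {r : ℕ} {W : Type*} [AddCommGroup W] [Module F W]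
    (w : W →ₗ[F] (Fin r → F[X])) (y : Fin r → C) : W →ₗ[F] C where
  toFun a := ∑ j, carl θ (w a j) (y j)
  map_add' a b := by simp [carl_add_left, Finset.sum_add_distrib]
  map_smul' a b := by simp [carl_smul_left, Finset.smul_sum]

theorem ma6G_apply (θ : C) {r : ℕ} {W : Type*} [AddCommGroup W] [Module F W]
    (w : W →ₗ[F] (Fin r → F[X])) (y : Fin r → C) (a : W) :
    ma6G θ w y a = ∑ j, carl θ (w a j) (y j) := rfl

theorem ma6_key (θ : C) {r : ℕ} (c u : Fin r → F[X]) (j1 : Fin r) (y : Fin r → C)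
    (h : ∑ j, carl θ (c j) (y j) = 0) :
    carl θ (c j1) (∑ j, carl θ (u j) (y j)) = ∑ j, carl θ (c j1 * u j - u j1 * c j) (y j) := by
  simp only [carl_sub_left, carl_mul, Finset.sum_sub_distrib]
  rw [← carl_sum, ← carl_sum, h, carl_zero, sub_zero]

theorem ma6_pow {a b : ℕ} (h : a ≤ b) : 2 ^ a ≤ qq F ^ b :=
  (Nat.pow_le_pow_left (two_le_qq (F := F)) a).trans
    (Nat.pow_le_pow_right (by have := two_le_qq (F := F); omega) h)

theorem ma6_ineq {H l i : ℕ} (hH : H ≤ 2 ^ l) (hi : i ≤ 2 * l + 3) :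
    (qq F - 1) * H * qq F ^ i ≤ qq F ^ (3 * l + 4) := by
  have h2 := two_le_qq (F := F)
  have h1 : H ≤ qq F ^ l := hH.trans (ma6_pow le_rfl)
  have h3 : qq F ^ i ≤ qq F ^ (2 * l + 3) := Nat.pow_le_pow_right (by omega) hi
  calc (qq F - 1) * H * qq F ^ i ≤ qq F * qq F ^ l * qq F ^ (2 * l + 3) :=
        Nat.mul_le_mul (Nat.mul_le_mul (Nat.sub_le _ _) h1) h3
    _ = qq F ^ (3 * l + 4) := by ring

theorem ma6_final (l : ℕ) : ¬ (qq F ^ (2 * l + 2) - 1) * 1 ≤ (2 * l + 2) * 2 ^ l := by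
  have h1 : 2 ^ (2 * l + 2) ≤ qq F ^ (2 * l + 2) := ma6_pow le_rfl
  have h2 : l < 2 ^ l := Nat.lt_two_pow_self
  have h3 : 2 ^ (2 * l + 2) = 4 * (2 ^ l * 2 ^ l) := by ring
  have h4 : (2 * l + 2) * 2 ^ l ≤ 2 * (2 ^ l * 2 ^ l) := by
    rw [← mul_assoc]
    exact Nat.mul_le_mul_right _ (by omega)
  have h5 : 0 < 2 ^ l * 2 ^ l := by positivity
  omega

end

section

variable {E C κ : Type*} [Field E] [Field C] [Algebra E C] {μ : κ → C} {V : ValuationSubring C}

theorem ma6_theta (i0 : κ) (hV : ∀ a b : MvPolynomial κ E, b ≠ 0 →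
      (MvPolynomial.aeval μ a / MvPolynomial.aeval μ b ∈ V ↔ a.totalDegree ≤ b.totalDegree)) :
    1 < V.valuation (μ i0) := by
  have h := hV (MvPolynomial.X i0) 1 one_ne_zero
  simp only [MvPolynomial.aeval_X, map_one, div_one, MvPolynomial.totalDegree_X,
    MvPolynomial.totalDegree_one] at h
  rw [← V.valuation_le_one_iff] at h
  by_contra h1
  have := h.1 (not_lt.1 h1)
  omega

theorem ma6_root (hμ : AlgebraicIndependent E μ) (i0 : κ) (hV : ∀ a b : MvPolynomial κ E, b ≠ 0 →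
      (MvPolynomial.aeval μ a / MvPolynomial.aeval μ b ∈ V ↔ a.totalDegree ≤ b.totalDegree))
    {D : MvPolynomial κ E} (hD : D ≠ 0) {n H : ℕ} {y : C}
    (hm : Mon E μ n H (MvPolynomial.aeval μ D * y)) :
    V.valuation y ≤ V.valuation (μ i0) ^ H := by
  obtain ⟨Φ, hΦ, -, hd, h0⟩ := hm
  have hθ := ma6_theta i0 hV
  have hθ0 : 0 < V.valuation (μ i0) ^ H := pow_pos (zero_lt_one.trans hθ) H
  have hD0 : MvPolynomial.aeval μ D ≠ 0 := fun h => hD (hμ (by simpa using h))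
  have hD1 : 1 ≤ V.valuation (MvPolynomial.aeval μ D) := by
    have h := (hV 1 D hD).2 (by simp)
    rw [← V.valuation_le_one_iff, map_one, map_div₀, map_one,
      div_le_one₀ ((Valuation.pos_iff _).2 hD0)] at h
    exact h
  have h1 := val_root V
    (Φ.map (MvPolynomial.aeval μ : MvPolynomial κ E →ₐ[E] C).toRingHom)
    (x := MvPolynomial.aeval μ D * y) (by rw [eval_map]; exact h0) (μ i0 ^ H)⁻¹ (fun j => by
      have h := (hV (Φ.coeff j) (MvPolynomial.X i0 ^ H)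
        (pow_ne_zero _ (MvPolynomial.X_ne_zero i0))).2
        (by rw [MvPolynomial.totalDegree_X_pow]; exact hd j)
      rw [map_pow, MvPolynomial.aeval_X, div_eq_inv_mul] at h
      rw [coeff_map]
      exact h)
  rw [(hΦ.map _).leadingCoeff, mul_one, ← V.valuation_le_one_iff, map_mul, map_inv₀, map_pow,
    inv_mul_le_iff₀ hθ0, mul_one, map_mul] at h1
  exact (le_mul_of_one_le_left' hD1).trans h1

end

theorem masser {F E C κ : Type*} [Field F] [Fintype F] [Field E] [Field C] [IsAlgClosed C]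
    [Algebra F C] [Algebra E C] [Algebra F E] [IsScalarTower F E C] [Finite κ] {μ : κ → C}
    (hμ : AlgebraicIndependent E μ) (i0 : κ) (k : Subfield C) (l : ℕ)
    (hk : ∀ a ∈ k, IsIntegral (KF E μ) a ∧ (minpoly (KF E μ) a).natDegree ≤ 2 ^ l)
    (hF : ∀ a : F, algebraMap F C a ∈ k) (hθ : μ i0 ∈ k) {r : ℕ} (y : Fin r → C)
    (hy : ∀ j, y j ∈ k) (D : MvPolynomial κ E) (hD : D ≠ 0) {n H : ℕ} (hH : 1 ≤ H)
    (hH' : H ≤ 2 ^ l) (hDH : D.totalDegree ≤ H)
    (hm : ∀ j, Mon E μ n H (MvPolynomial.aeval μ D * y j)) (h : Rel F (μ i0) y) :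
    RelLe F (μ i0) y (r * (3 * l + 4)) := by
  classical
  obtain ⟨c, hc0, hc⟩ := h
  by_contra hno
  obtain ⟨j1, hj1, hmax⟩ : ∃ j1, c j1 ≠ 0 ∧ ∀ j, (c j).natDegree ≤ (c j1).natDegree := by
    obtain ⟨j0, hj0⟩ := Function.ne_iff.1 hc0
    obtain ⟨j1, h1, h2⟩ := (Finset.univ.filter fun j => c j ≠ 0).exists_max_image
      (fun j => (c j).natDegree) ⟨j0, by simpa using hj0⟩
    refine ⟨j1, by simpa using h1, fun j => ?_⟩
    by_cases hj : c j = 0
    · simp [hj]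
    · exact h2 j (by simpa using hj)
  have hρ : 3 * l + 4 ≤ (c j1).natDegree := by
    by_contra h1
    refine hno ⟨c, hc0, fun j => (hmax j).trans ?_, hc⟩
    have : 1 * (3 * l + 4) ≤ r * (3 * l + 4) := Nat.mul_le_mul_right _ j1.pos
    omega
  obtain ⟨w, hwi, hw⟩ := dirichlet c j1 hj1 hmax (3 * l + 4) hρ
  have hne : ∀ a, a ≠ 0 → ma6G (μ i0) w y a ≠ 0 := fun a ha h0 =>
    hno ⟨w a, fun h1 => ha (hwi (by simpa using h1)), fun j => (hw a j).1, h0⟩
  have hgk : ∀ a, ma6G (μ i0) w y a ∈ k := fun a => ma6_mem k hF hθ (w a) hy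
  have hva : ∀ a, VA E μ (ma6G (μ i0) w y a) := by
    intro a
    refine int_of_pow hμ (Q := qq F ^ (3 * l + 4)) (hk _ (hgk a)).1 (hk _ (hgk a)).2 D hD ?_ ?_
    · have h1 : 2 ^ l * D.totalDegree ≤ 2 ^ l * 2 ^ l := Nat.mul_le_mul_left _ (hDH.trans hH')
      have h2 : 2 ^ (2 * l + 1) ≤ qq F ^ (3 * l + 4) := ma6_pow (by omega)
      have h3 : 2 ^ (2 * l + 1) = 2 * (2 ^ l * 2 ^ l) := by ring
      have h5 : 0 < 2 ^ l * 2 ^ l := by positivity
      omega
    · intro V hV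
      exact fin_place V (by simpa using hV (MvPolynomial.X i0)) hj1 hρ (fun j => (hw a j).2)
        (ma6_key (μ i0) c (w a) j1 y hc) (hV D) fun j => (hm j).va V hV
  obtain ⟨V, hV⟩ := exists_inf hμ
  have hθ1 := ma6_theta i0 hV
  have hinf : ∀ y' : Fin r → C, (∀ j, Mon E μ n H (MvPolynomial.aeval μ D * y' j)) →
      ∑ j, carl (μ i0) (c j) (y' j) = 0 → ∀ a i, i ≤ 2 * l + 3 →
      V.valuation ((cth F (μ i0) ^ i) (ma6G (μ i0) w y' a)) ^ (qq F - 1) ≤
        V.valuation (μ i0) := fun y' hm' hc' a i hi =>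
    inf_place V.valuation hθ1 hj1 hρ (fun j => (hw a j).2) (ma6_key (μ i0) c (w a) j1 y' hc') hH
      (fun j => ma6_root hμ i0 hV hD (hm' j)) (ma6_ineq hH' hi)
  obtain ⟨α, hα⟩ := exists_alpha V.valuation hθ1 (ma6G (μ i0) w y) fun a => by
    simpa using hinf y hm hc a 1 (by omega)
  obtain ⟨e, he, heα⟩ : ∃ e : (Fin (2 * l + 2) → F) →ₗ[F] (Fin (3 * l + 4 + 1) → F),
      Function.Injective e ∧ ∀ b, α (e b) = 0 := by
    have h1 := α.finrank_range_add_finrank_ker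
    have h2 : Module.finrank F (LinearMap.range α) ≤ 1 := by
      simpa using (LinearMap.range α).finrank_le
    have h3 : 2 * l + 2 ≤ Module.finrank F (LinearMap.ker α) := by
      simp only [Module.finrank_fin_fun] at h1
      omega
    obtain ⟨f, hf⟩ := exists_linearIndependent_of_le_finrank h3
    exact ⟨(LinearMap.ker α).subtype ∘ₗ Fintype.linearCombination F f,
      (LinearMap.ker α).injective_subtype.comp hf.fintypeLinearCombination_injective,
      fun b => (Fintype.linearCombination F f b).2⟩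
  have hxk : ∏ b ∈ Finset.univ.erase 0, (ma6G (μ i0) w y ∘ₗ e) b ∈ k :=
    prod_mem fun b _ => hgk _
  refine ma6_final (F := F) l (norm_inf hμ i0 V hV
    (x := ∏ b ∈ Finset.univ.erase 0, (ma6G (μ i0) w y ∘ₗ e) b) ?_ (hk _ hxk).1 (hk _ hxk).2
    (VA.prod _ fun b _ => hva _) ?_ ?_)
  · refine Finset.prod_ne_zero_iff.2 fun b hb => hne _ fun h0 => ?_
    exact (Finset.mem_erase.1 hb).1 (he (by simpa using h0))
  · intro x' hx'
    obtain ⟨L, τ, hL, hτ, hτx⟩ := ma6_conj (hk _ hxk).1 hx'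
    have hkL : ∀ a ∈ k, a ∈ L := fun a ha => hL a (hk a ha).1
    have hKL : ∀ a ∈ KF E μ, a ∈ L := fun a ha =>
      hL a (isIntegral_algebraMap (A := C) (x := (⟨a, ha⟩ : KF E μ)))
    have hfix : ∀ a (ha : a ∈ KF E μ), τ ⟨a, hKL a ha⟩ = a := fun a ha =>
      IsConjRoot.eq_algebraMap (r := (⟨a, ha⟩ : KF E μ)) (hτ ⟨a, hKL a ha⟩)
    have hθK : μ i0 ∈ KF E μ := IntermediateField.subset_adjoin _ _ ⟨i0, rfl⟩
    have hFK : ∀ a : F, algebraMap F C a ∈ KF E μ := fun a => by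
      rw [IsScalarTower.algebraMap_apply F E C]
      exact (KF E μ).algebraMap_mem _
    have hDK : MvPolynomial.aeval μ D ∈ KF E μ := by
      have h1 : MvPolynomial.aeval μ D ∈ Algebra.adjoin E (Set.range μ) := by
        rw [Algebra.adjoin_range_eq_range_aeval]
        exact ⟨D, rfl⟩
      exact IntermediateField.algebra_adjoin_le_adjoin _ _ h1
    have hyL : ∀ j, y j ∈ L := fun j => hkL _ (hy j)
    have htau := fun u : Fin r → F[X] => ma6_tau L (fun a => hKL _ (hFK a)) (hKL _ hθK) τ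
      (fun a => hfix _ (hFK a)) (hfix _ hθK) u hyL
    have hm' : ∀ j, Mon E μ n H (MvPolynomial.aeval μ D * τ ⟨y j, hyL j⟩) := fun j => by
      have h1 := hτ (⟨_, hKL _ hDK⟩ * ⟨y j, hyL j⟩)
      rw [map_mul, hfix _ hDK] at h1
      exact (hm j).conj h1
    have hc' : ∑ j, carl (μ i0) (c j) (τ ⟨y j, hyL j⟩) = 0 := by
      rw [← htau c, ← τ.map_zero]
      exact congrArg τ (Subtype.ext hc)
    have hx : x' = ∏ b ∈ Finset.univ.erase 0,
        (ma6G (μ i0) w (fun j => τ ⟨y j, hyL j⟩) ∘ₗ e) b := by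
      rw [← hτx (hkL _ hxk)]
      have h1 : (⟨_, hkL _ hxk⟩ : L) = ∏ b ∈ Finset.univ.erase 0,
          (⟨ma6G (μ i0) w y (e b), hkL _ (hgk _)⟩ : L) := by
        apply Subtype.ext
        rw [SubmonoidClass.coe_finsetProd]
        rfl
      rw [h1, map_prod]
      exact Finset.prod_congr rfl fun b _ => htau (w (e b))
    have h2 := prod_bound V.valuation hθ1 (2 * l + 3) (2 * l + 2) 0
      (ma6G (μ i0) w (fun j => τ ⟨y j, hyL j⟩) ∘ₗ e) (by omega)
      (fun b i hi => hinf _ hm' hc' (e b) i hi) (fun _ i hi => absurd hi (by omega))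
    rw [hx]
    simpa only [mul_zero, pow_zero, mul_one] using h2
  · refine prod_bound V.valuation hθ1 (2 * l + 3) (2 * l + 2) 1 (ma6G (μ i0) w y ∘ₗ e) (by omega)
      (fun b i hi => hinf y hm hc (e b) i hi) fun b i hi => ?_
    obtain rfl : i = 0 := by omega
    simpa using hα (e b) (heα b)

end Pool.Agent.MP_ee2255_nt.T

end

section

/-! Degree bounds. -/

namespace Pool.Agent.MP_ee2255_nt.T

open Polynomial Filter Topology Pool.Agent.MP_655169_nt

variable {E : Type*} [Field E] {C : Type*} [Field C] [Algebra E C] {κ : Type*}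

section Aux

variable {k : Type*} [Field k] [Algebra k C]

theorem tdeg_sep (q : ℕ) [ExpChar k q] {s : C} (hs : IsIntegral k s) :
    ∃ n, q ^ n ≤ (minpoly k s).natDegree ∧ IsSeparable k (s ^ q ^ n) := by
  obtain ⟨g, hg, n, e⟩ := (minpoly.irreducible hs).hasSeparableContraction q
  refine ⟨n, ?_, hg.of_dvd (minpoly.dvd k _ ?_)⟩
  · have h0 := minpoly.natDegree_pos hs
    rw [← e, natDegree_expand] at h0 ⊢
    exact Nat.le_mul_of_pos_left _ (Nat.pos_of_mul_pos_right h0)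
  · rw [← expand_aeval, e, minpoly.aeval]

theorem tdeg_le_card [IsAlgClosed C] (L : IntermediateField k C) [FiniteDimensional k L] {b : C}
    (hb : b ∈ L) (hs : IsSeparable k b) : (minpoly k b).natDegree ≤ Nat.card (L →ₐ[k] C) := by
  have h1 := Algebra.IsAlgebraic.range_eval_eq_rootSet_minpoly (F := k) C (⟨b, hb⟩ : L)
  rw [IntermediateField.minpoly_eq] at h1
  rw [← card_rootSet_eq_natDegree (K := C) hs (IsAlgClosed.splits _), ← Nat.card_eq_fintype_card,
    ← h1]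
  exact Nat.card_le_card_of_surjective _ Set.rangeFactorization_surjective

theorem tdeg_card_le [IsAlgClosed C] (L : IntermediateField k C) [FiniteDimensional k L] (b : L)
    (hb : Function.Injective fun σ : L →ₐ[k] C => σ b) :
    Nat.card (L →ₐ[k] C) ≤ (minpoly k (b : C)).natDegree := by
  have h1 := Algebra.IsAlgebraic.range_eval_eq_rootSet_minpoly (F := k) C b
  rw [IntermediateField.minpoly_eq] at h1
  rw [← Nat.card_range_of_injective hb, h1]
  exact ncard_rootSet_le _ C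

theorem tdeg_step (L : IntermediateField k C) [FiniteDimensional k L] {N : ℕ} {x : C} {p : C[X]}
    (h0 : p ≠ 0) (hN : p.natDegree ≤ N) (hc : ∀ j, p.coeff j ∈ L) (hx : p.eval x = 0) :
    ∃ L' : IntermediateField k C, L ≤ L' ∧ x ∈ L' ∧ FiniteDimensional k L' ∧
      Module.finrank k L' ≤ Module.finrank k L * N := by
  obtain ⟨g, rfl⟩ := (mem_lifts (f := algebraMap L C) p).1
    ((lifts_iff_coeff_lifts p).2 fun j => ⟨⟨_, hc j⟩, rfl⟩)
  have g0 : g ≠ 0 := fun e => h0 (by rw [e, Polynomial.map_zero])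
  have gx : aeval x g = 0 := by rwa [eval_map_algebraMap] at hx
  rw [natDegree_map] at hN
  have hi : IsIntegral L x := (isAlgebraic_iff_isIntegral).1 ⟨g, g0, gx⟩
  have := IntermediateField.adjoin.finiteDimensional hi
  have hf : FiniteDimensional k (IntermediateField.adjoin L {x}) :=
    Module.Finite.trans L (IntermediateField.adjoin L {x})
  refine ⟨(IntermediateField.adjoin L {x}).restrictScalars k, fun y hy => ?_,
    IntermediateField.mem_adjoin_simple_self L x, hf, ?_⟩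
  · exact (IntermediateField.adjoin L {x}).algebraMap_mem ⟨y, hy⟩
  · change Module.finrank k (IntermediateField.adjoin L {x}) ≤ _
    have := Module.Free.of_divisionRing k L
    have := Module.Free.of_divisionRing L (IntermediateField.adjoin L {x})
    rw [← Module.finrank_mul_finrank k L (IntermediateField.adjoin L {x}),
      IntermediateField.adjoin.finrank hi]
    exact Nat.mul_le_mul_left _ ((natDegree_le_of_dvd (minpoly.dvd L x gx) g0).trans hN)

end Aux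

theorem tdeg_step' {K : IntermediateField E C} (L : IntermediateField K C) [FiniteDimensional K L]
    {ι : Type*} {z : ι → C} (hz : ∀ i, z i ∈ L) {N : ℕ} {x : C} {Φ : (MvPolynomial ι E)[X]}
    (hN : Φ.natDegree ≤ N) (h0 : MvPolynomial.aeval z Φ.leadingCoeff ≠ 0)
    (hx : Φ.eval₂ (MvPolynomial.aeval z : MvPolynomial ι E →ₐ[E] C).toRingHom x = 0) :
    ∃ L' : IntermediateField K C, L ≤ L' ∧ x ∈ L' ∧ FiniteDimensional K L' ∧
      Module.finrank K L' ≤ Module.finrank K L * N := by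
  refine tdeg_step L (p := Φ.map (MvPolynomial.aeval z : MvPolynomial ι E →ₐ[E] C).toRingHom)
    (fun e => h0 ?_) (natDegree_map_le.trans hN) (fun j => ?_) (by rwa [eval_map])
  · have := congrArg (fun p => p.coeff Φ.natDegree) e
    simpa using this
  · rw [coeff_map]
    exact MvPolynomial.eval₂_mem (fun i _ => L.algebraMap_mem (algebraMap E K _)) hz

/-- If all linear combinations have degree at most `G` then every element of the field generated
has degree at most `G ^ 2`. -/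
theorem deg_adjoin [Infinite E] [IsAlgClosed C] (K : IntermediateField E C) (S : Finset C) (G : ℕ)
    (h : ∀ u ∈ Submodule.span E (S : Set C), IsIntegral K u ∧ (minpoly K u).natDegree ≤ G) :
    ∀ a ∈ IntermediateField.adjoin K (S : Set C),
      IsIntegral K a ∧ (minpoly K a).natDegree ≤ G ^ 2 := by
  classical
  obtain ⟨q, hq⟩ := ExpChar.exists K
  have : ExpChar C q := expChar_of_injective_algebraMap (algebraMap K C).injective q
  have q0 : 0 < q := expChar_pos K q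
  have hS : ∀ s ∈ (S : Set C), IsIntegral K s := fun s hs => (h s (Submodule.subset_span hs)).1
  have hG : 1 ≤ G := by simpa using (h 0 (zero_mem _)).2
  have := IntermediateField.finiteDimensional_adjoin hS
  set L := IntermediateField.adjoin K (S : Set C) with hL
  have hcard : Nat.card (L →ₐ[K] C) ≤ G := by
    let v : S → L := fun s => ⟨s, IntermediateField.subset_adjoin _ _ s.2⟩
    let T : (S → E) →ₗ[E] L := Fintype.linearCombination E v
    obtain ⟨a, ha⟩ := Submodule.exists_forall_notMem_of_forall_ne_top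
      (fun x : {x : (L →ₐ[K] C) × (L →ₐ[K] C) // x.1 ≠ x.2} =>
        LinearMap.eqLocus ((x.1.1.restrictScalars E).toLinearMap ∘ₗ T)
          ((x.1.2.restrictScalars E).toLinearMap ∘ₗ T)) (by
        intro x hx
        refine x.2 (IntermediateField.adjoin_algHom_ext K fun s hs => ?_)
        have h1 : Pi.single ⟨s, hs⟩ 1 ∈ LinearMap.eqLocus
            ((x.1.1.restrictScalars E).toLinearMap ∘ₗ T)
            ((x.1.2.restrictScalars E).toLinearMap ∘ₗ T) := by
          rw [hx]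
          trivial
        simpa [T, v] using h1)
    refine (tdeg_card_le L (T a) fun σ τ e => ?_).trans (h _ ?_).2
    · by_contra hne
      exact ha ⟨(σ, τ), hne⟩ e
    · have e : ((T a : L) : C) = ∑ s : S, a s • (s : C) := by
        simp [T, v, Fintype.linearCombination_apply]
      rw [e]
      exact Submodule.sum_mem _ fun s _ => Submodule.smul_mem _ _ (Submodule.subset_span s.2)
  choose! n hn hsep using fun s (hs : s ∈ (S : Set C)) => tdeg_sep q (hS s hs)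
  have hP : q ^ S.sup n ≤ G := by
    refine Finset.sup_induction (p := fun j => q ^ j ≤ G) (by simpa using hG) ?_ fun s hs =>
      (hn s hs).trans (h s (Submodule.subset_span hs)).2
    intro a ha b hb
    rcases le_total a b with e | e
    · rwa [sup_eq_right.2 e]
    · rwa [sup_eq_left.2 e]
  have hall : ∀ a ∈ L, a ^ q ^ S.sup n ∈ separableClosure K C := by
    intro a ha
    induction ha using IntermediateField.adjoin_induction with
    | mem s hs =>
      obtain ⟨j, hj⟩ := Nat.exists_eq_add_of_le (Finset.le_sup (f := n) hs)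
      rw [hj, pow_add, pow_mul]
      exact pow_mem (mem_separableClosure_iff.2 (hsep s hs)) _
    | algebraMap x => exact pow_mem (IntermediateField.algebraMap_mem _ x) _
    | add x y _ _ hx hy =>
      rw [add_pow_expChar_pow]
      exact add_mem hx hy
    | inv x _ hx =>
      rw [inv_pow]
      exact inv_mem hx
    | mul x y _ _ hx hy =>
      rw [mul_pow]
      exact mul_mem hx hy
  intro a ha
  have hs : IsSeparable K (a ^ q ^ S.sup n) := mem_separableClosure_iff.1 (hall a ha)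
  have h1 := (tdeg_le_card L (pow_mem ha _) hs).trans hcard
  refine ⟨hs.isIntegral.of_pow (pow_pos q0 _), ?_⟩
  have h2 : minpoly K a ∣ expand K (q ^ S.sup n) (minpoly K (a ^ q ^ S.sup n)) :=
    minpoly.dvd K a (by rw [expand_aeval, minpoly.aeval])
  refine (natDegree_le_of_dvd h2 ((expand_ne_zero (pow_pos q0 _)).2
    (minpoly.ne_zero hs.isIntegral))).trans ?_
  rw [natDegree_expand, sq]
  exact Nat.mul_le_mul h1 hP

theorem algT_deg {μ : κ → C} (hμ : AlgebraicIndependent E μ) (i0 : κ) {m N : ℕ} (lam : Fin m → C)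
    (h : ∀ j, Alg E μ N N (lam j)) {u : C} (hu : AlgT E (μ i0) lam N u) :
    IsIntegral (KF E μ) u ∧ (minpoly (KF E μ) u).natDegree ≤ N ^ (m + 1) := by
  classical
  have hm : ∀ (L : IntermediateField (KF E μ) C) (i : κ), μ i ∈ L := fun L i =>
    L.algebraMap_mem ⟨μ i, IntermediateField.subset_adjoin _ _ ⟨i, rfl⟩⟩
  have key : ∀ s : Finset (Fin m), ∃ L : IntermediateField (KF E μ) C, (∀ j ∈ s, lam j ∈ L) ∧
      FiniteDimensional (KF E μ) L ∧ Module.finrank (KF E μ) L ≤ N ^ s.card := by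
    intro s
    induction s using Finset.induction_on with
    | empty => exact ⟨⊥, by simp, inferInstance, by simp⟩
    | insert j s hj ih =>
      obtain ⟨L, h1, h2, h3⟩ := ih
      obtain ⟨Φ, p1, -, p2, p3⟩ := h j
      obtain ⟨L', q1, q2, q3, q4⟩ := tdeg_step' L (hm L) p1 p2 p3
      refine ⟨L', fun i hi => ?_, q3, ?_⟩
      · rcases Finset.mem_insert.1 hi with rfl | hi
        · exact q2
        · exact q1 (h1 i hi)
      · rw [Finset.card_insert_of_notMem hj, pow_succ]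
        exact q4.trans (Nat.mul_le_mul_right _ h3)
  obtain ⟨L, h1, h2, h3⟩ := key Finset.univ
  rw [Finset.card_univ, Fintype.card_fin] at h3
  obtain ⟨Φ, ⟨p1, -, a, a0, -, p2⟩, p3⟩ := hu
  have hz : ∀ o, zz (μ i0) lam o ∈ L := by
    rintro (_ | j)
    · exact hm L i0
    · exact h1 j (Finset.mem_univ j)
  have h0 : MvPolynomial.aeval (zz (μ i0) lam) Φ.leadingCoeff ≠ 0 := by
    rw [p2, ← aeval_algHom_apply, MvPolynomial.aeval_X]
    exact fun e => hμ.transcendental i0 ⟨a, a0, e⟩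
  obtain ⟨L', -, q2, q3, q4⟩ := tdeg_step' L hz p1 h0 p3
  refine ⟨IntermediateField.isIntegral_iff.1 (IsIntegral.of_finite _ (⟨u, q2⟩ : L')), ?_⟩
  have := Module.Free.of_divisionRing (KF E μ) L'
  have h4 := minpoly.natDegree_le (A := KF E μ) (⟨u, q2⟩ : L')
  rw [IntermediateField.minpoly_eq] at h4
  rw [pow_succ]
  exact h4.trans (q4.trans (Nat.mul_le_mul_right _ h3))

theorem AlgT.mono {θ : C} {m N N' : ℕ} {lam : Fin m → C} {u : C} (hu : AlgT E θ lam N u)
    (h : N ≤ N') : AlgT E θ lam N' u := by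
  obtain ⟨Φ, ⟨p1, p2, a, a0, a1, p3⟩, p4⟩ := hu
  exact ⟨Φ, ⟨p1.trans h, fun j => (p2 j).trans h, a, a0, a1.trans h, p3⟩, p4⟩

end Pool.Agent.MP_ee2255_nt.T

end

section

/-! Construction of a filtration. -/

namespace Pool.Agent.MP_ee2255_nt.T

open Polynomial Filter Topology Pool.Agent.MP_655169_nt

section Aux

variable {E C κ : Type*} [Field E] [Field C] [Algebra E C]

/-- `t` weighs the degrees of the polynomials in `μ` at the valuation ring `V`. -/
def TFramePl (E : Type*) [Field E] [Algebra E C] (μ : κ → C) (V : ValuationSubring C) (t : C) : Prop :=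
  ∀ (a : MvPolynomial κ E) (n : ℕ), a.totalDegree ≤ n → MvPolynomial.aeval μ a * t ^ n ∈ V

theorem TFrame_va {μ : κ → C} {x : C} {n : ℕ} (h : ∀ V t, TFramePl E μ V t → x * t ^ n ∈ V) :
    VA E μ x := fun V hV => by
  simpa using h V 1 fun a n _ => by simpa using hV a

theorem TFrame_vi {μ : κ → C} (i0 : κ) {x : C} {n : ℕ} (h : ∀ V t, TFramePl E μ V t → x * t ^ n ∈ V) :
    VI E μ (x / μ i0 ^ n) := fun V hV => by
  rw [div_eq_mul_inv, ← inv_pow]
  refine h V _ fun a n ha => ?_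
  have := hV a (MvPolynomial.X i0 ^ n) (pow_ne_zero _ (MvPolynomial.X_ne_zero _))
    (by rwa [MvPolynomial.totalDegree_X_pow])
  rwa [map_pow, MvPolynomial.aeval_X, div_eq_mul_inv, ← inv_pow] at this

theorem TFrame_const {μ : κ → C} {V : ValuationSubring C} {t : C} (h : TFramePl E μ V t) (e : E) :
    algebraMap E C e ∈ V := by
  simpa using h (MvPolynomial.C e) 0 (by simp)

theorem TFrame_deg (i0 : κ) (a : E[X]) :
    (aeval (MvPolynomial.X i0 : MvPolynomial κ E) a).totalDegree ≤ a.natDegree := by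
  rw [aeval_eq_sum_range]
  refine MvPolynomial.totalDegree_finsetSum_le fun i hi => ?_
  refine (MvPolynomial.totalDegree_smul_le _ _).trans ?_
  rw [MvPolynomial.totalDegree_X_pow]
  exact Nat.lt_succ_iff.1 (Finset.mem_range.1 hi)

theorem TFrame_prod_deg {α : Type*} (s : Finset α) (f : α → MvPolynomial κ E) {N : ℕ}
    (h : ∀ i ∈ s, (f i).totalDegree ≤ N) : (∏ i ∈ s, f i).totalDegree ≤ s.card * N :=
  (MvPolynomial.totalDegree_finsetProd s f).trans
    (by simpa using Finset.sum_le_card_nsmul s _ N h)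

theorem TFrame_hom {σ : Type*} (z : σ → C) (V : ValuationSubring C)
    (hE : ∀ e : E, algebraMap E C e ∈ V) {T : C} (hT : T ∈ V) (hz : ∀ o, T * z o ∈ V)
    (c : MvPolynomial σ E) {N : ℕ} (hc : c.totalDegree ≤ N) :
    T ^ N * MvPolynomial.aeval z c ∈ V := by
  rw [MvPolynomial.aeval_def, MvPolynomial.eval₂_eq, Finset.mul_sum]
  refine sum_mem fun e he => ?_
  have h1 : ∑ i ∈ e.support, e i ≤ N := (MvPolynomial.le_totalDegree he).trans hc
  obtain ⟨d, rfl⟩ := Nat.exists_eq_add_of_le h1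
  have : T ^ (∑ i ∈ e.support, e i + d) * (algebraMap E C (c.coeff e) *
      ∏ i ∈ e.support, z i ^ e i) =
      T ^ d * algebraMap E C (c.coeff e) * ∏ i ∈ e.support, (T * z i) ^ e i := by
    simp only [mul_pow, Finset.prod_mul_distrib, Finset.prod_pow_eq_pow_sum]
    ring
  rw [this]
  exact mul_mem (mul_mem (pow_mem hT _) (hE _)) (prod_mem fun i _ => pow_mem (hz i) _)

theorem TFrame_root {R : Type*} [CommRing R] (f : R →+* C) (V : ValuationSubring C) (Φ : R[X]) {x : C}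
    (hx : Φ.eval₂ f x = 0) (h0 : f Φ.leadingCoeff ≠ 0) (t : C) (h : ∀ j, t * f (Φ.coeff j) ∈ V) :
    t * f Φ.leadingCoeff * x ∈ V := by
  rw [← leadingCoeff_map_of_leadingCoeff_ne_zero f h0]
  exact val_root V (Φ.map f) (by rwa [eval_map]) t fun j => by rw [coeff_map]; exact h j

theorem TFrame_delta {μ : κ → C} (hμ : AlgebraicIndependent E μ) (i0 : κ) {m N : ℕ}
    (lam : Fin m → C) (hl : ∀ j, Alg E μ N N (lam j)) (S : Finset C)
    (hS : S.card ≤ N) (h : ∀ u ∈ S, AlgT E (μ i0) lam N u) :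
    ∃ Δ : MvPolynomial κ E, Δ ≠ 0 ∧ Δ.totalDegree ≤ (m + 1) * N ^ 2 ∧ ∀ s ∈ S, ∀ V t,
      TFramePl E μ V t → MvPolynomial.aeval μ Δ * t ^ ((m + 2) * N ^ 2) * s ∈ V := by
  classical
  choose Φ h1 h2 h3 h4 using hl
  choose! Ψ k1 k2 using h
  have k3 := fun u hu => (k1 u hu).2.2
  choose! a a1 a2 a3 using k3
  have hlc : ∀ j, (Φ j).leadingCoeff.totalDegree ≤ N := fun j => h2 j _
  have ha : ∀ s ∈ S, (aeval (MvPolynomial.X i0 : MvPolynomial κ E) (a s)).totalDegree ≤ N :=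
    fun s hs => (TFrame_deg i0 _).trans (a2 s hs)
  have hev : ∀ p : E[X], MvPolynomial.aeval μ (aeval (MvPolynomial.X i0 : MvPolynomial κ E) p) =
      aeval (μ i0) p := fun p => by
    rw [← aeval_algHom_apply, MvPolynomial.aeval_X]
  have hne : ∀ s ∈ S, aeval (μ i0) (a s) ≠ 0 := fun s hs e =>
    hμ.transcendental i0 ⟨a s, a1 s hs, e⟩
  set Lc : MvPolynomial κ E := ∏ j, (Φ j).leadingCoeff with hLc
  have hLd : Lc.totalDegree ≤ m * N := by
    simpa using TFrame_prod_deg Finset.univ (fun j => (Φ j).leadingCoeff) fun j _ => hlc j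
  refine ⟨Lc ^ N * ∏ s ∈ S, aeval (MvPolynomial.X i0) (a s), ?_, ?_, fun s hs V t hV => ?_⟩
  · refine mul_ne_zero (pow_ne_zero _ (Finset.prod_ne_zero_iff.2 fun j _ e => h3 j ?_))
      (Finset.prod_ne_zero_iff.2 fun s hs e => hne s hs ?_)
    · rw [e, map_zero]
    · rw [← hev, e, map_zero]
  · refine (MvPolynomial.totalDegree_mul _ _).trans ?_
    have e1 := (MvPolynomial.totalDegree_pow Lc N).trans (Nat.mul_le_mul_left N hLd)
    have e2 := (TFrame_prod_deg S _ ha).trans (Nat.mul_le_mul_right N hS)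
    nlinarith
  · set T : C := MvPolynomial.aeval μ Lc * t ^ (m * N + 1) with hT
    have hTV : T ∈ V := hV _ _ (hLd.trans (Nat.le_succ _))
    have hz : ∀ o, T * zz (μ i0) lam o ∈ V := by
      rintro (_ | j)
      · have := hV (Lc * MvPolynomial.X i0) (m * N + 1) ((MvPolynomial.totalDegree_mul _ _).trans
          (by rw [MvPolynomial.totalDegree_X]; omega))
        rw [map_mul, MvPolynomial.aeval_X] at this
        convert this using 1
        simp only [hT, zz, Option.elim]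
        ring
      · have e1 := TFrame_root (MvPolynomial.aeval μ : MvPolynomial κ E →ₐ[E] C).toRingHom V (Φ j)
          (h4 j) (h3 j) (t ^ N) fun i => by rw [mul_comm]; exact hV _ _ (h2 j i)
        have e2 := hV (∏ i ∈ Finset.univ.erase j, (Φ i).leadingCoeff)
          ((Finset.univ.erase j).card * N + 1)
          ((TFrame_prod_deg _ _ fun i _ => hlc i).trans (Nat.le_succ _))
        have e3 : (Finset.univ.erase j).card + 1 = m := by
          rw [Finset.card_erase_add_one (Finset.mem_univ j)]; simp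
        have e4 : m * N + 1 = N + ((Finset.univ.erase j).card * N + 1) := by
          conv_lhs => rw [← e3]
          ring
        convert mul_mem e1 e2 using 1
        rw [hT, hLc, ← Finset.mul_prod_erase _ _ (Finset.mem_univ j), map_mul, e4]
        simp only [zz, Option.elim, AlgHom.toRingHom_eq_coe, RingHom.coe_coe]
        ring
    have hlead : MvPolynomial.aeval (zz (μ i0) lam) (Ψ s).leadingCoeff = aeval (μ i0) (a s) := by
      rw [a3 s hs, ← aeval_algHom_apply, MvPolynomial.aeval_X]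
      rfl
    have e1 := TFrame_root (MvPolynomial.aeval (zz (μ i0) lam) :
      MvPolynomial (Option (Fin m)) E →ₐ[E] C).toRingHom V (Ψ s) (k2 s hs)
      (fun e => hne s hs (hlead ▸ e)) (T ^ N)
      fun i => TFrame_hom _ V (TFrame_const hV) hTV hz _ ((k1 s hs).2.1 i)
    obtain ⟨d, hd⟩ : ∃ d, (m + 2) * N ^ 2 = (m * N + 1) * N + (N * N + d) :=
      ⟨N * N - N, by
        have : N ≤ N * N := Nat.le_mul_self N
        zify [this]
        ring⟩
    have e2 := hV (∏ s' ∈ S.erase s, aeval (MvPolynomial.X i0) (a s')) (N * N + d)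
      ((TFrame_prod_deg _ _ fun i hi => ha i (Finset.mem_of_mem_erase hi)).trans
        ((Nat.mul_le_mul_right N ((Finset.card_erase_le).trans hS)).trans (Nat.le_add_right _ _)))
    convert mul_mem e1 e2 using 1
    simp only [AlgHom.toRingHom_eq_coe, RingHom.coe_coe]
    rw [hlead, hd, hT, ← Finset.mul_prod_erase _ _ hs, map_mul, map_mul, map_pow, hev]
    ring

end Aux

theorem frame_exists {F E C κ : Type*} [Field F] [Fintype F] [Field E] [Infinite E] [Field C]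
    [IsAlgClosed C] [Algebra F C] [Algebra E C] [Algebra F E] [IsScalarTower F E C] [Finite κ]
    {μ : κ → C} (hμ : AlgebraicIndependent E μ) (i0 : κ) {θ : C} (hθ : μ i0 = θ) {m N : ℕ}
    (hN : 1 ≤ N) (lam : Fin m → C) (hl : ∀ j, Alg E μ N N (lam j)) (S : Finset C)
    (hS : S.card ≤ N) (h : ∀ u ∈ Submodule.span E (S : Set C), AlgT E θ lam N u) :
    ∃ (L : Fl F θ) (Δ : MvPolynomial κ E), (∀ s ∈ S, s ∈ L.B 1) ∧
      FrOk E L μ Δ ((m + 2) * N ^ (2 * m + 4)) := by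
  subst hθ
  obtain ⟨Δ, d1, d2, d3⟩ := TFrame_delta hμ i0 lam hl S hS fun u hu => h u (Submodule.subset_span hu)
  set K := IntermediateField.adjoin (KF E μ) (S : Set C) with hK
  have hk := deg_adjoin (KF E μ) S _ fun u hu => algT_deg hμ i0 lam hl (h u hu)
  have hpoly : ∀ a : MvPolynomial κ E, MvPolynomial.aeval μ a ∈ K.toSubfield := fun a => by
    have : MvPolynomial.aeval μ a ∈ KF E μ := IntermediateField.algebra_adjoin_le_adjoin E _ (by
      rw [Algebra.adjoin_range_eq_range_aeval]; exact ⟨a, rfl⟩)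
    exact K.algebraMap_mem ⟨_, this⟩
  have hF : ∀ a : F, algebraMap F C a ∈ K.toSubfield := fun a => by
    simpa [← IsScalarTower.algebraMap_apply] using hpoly (MvPolynomial.C (algebraMap F E a))
  have hθ : μ i0 ∈ K.toSubfield := by simpa using hpoly (MvPolynomial.X i0)
  set H := (m + 2) * N ^ 2 with hH
  have hN2 : 1 ≤ N ^ 2 := Nat.one_le_pow _ _ hN
  have hΔ : Δ.totalDegree + 1 ≤ H := by nlinarith
  set D : C := MvPolynomial.aeval μ Δ with hD
  let B : ℕ → Submodule F C := fun δ =>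
    { carrier := {a | a ∈ K.toSubfield ∧ ∀ V t, TFramePl E μ V t → (D * t ^ H) ^ δ * a ∈ V}
      add_mem' := fun {a b} ha hb => ⟨add_mem ha.1 hb.1, fun V t hV => by
        rw [mul_add]; exact add_mem (ha.2 V t hV) (hb.2 V t hV)⟩
      zero_mem' := ⟨zero_mem _, fun V t _ => by rw [mul_zero]; exact zero_mem _⟩
      smul_mem' := fun c a ha => ⟨by rw [Algebra.smul_def]; exact mul_mem (hF c) ha.1,
        fun V t hV => by
          rw [Algebra.smul_def, mul_left_comm, IsScalarTower.algebraMap_apply F E C]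
          exact mul_mem (TFrame_const hV _) (ha.2 V t hV)⟩ }
  let L : Fl F (μ i0) :=
    { k := K.toSubfield
      B := B
      sub := fun _ _ ha => ha.1
      one := ⟨one_mem _, fun V t _ => by rw [pow_zero, mul_one]; exact one_mem _⟩
      theta := ⟨hθ, fun V t hV => by
        have := hV (Δ * MvPolynomial.X i0) H ((MvPolynomial.totalDegree_mul _ _).trans
          (by rwa [MvPolynomial.totalDegree_X]))
        rw [map_mul, MvPolynomial.aeval_X] at this
        convert this using 1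
        ring⟩
      mul := fun δ δ' a b ha hb => ⟨mul_mem ha.1 hb.1, fun V t hV => by
        convert mul_mem (ha.2 V t hV) (hb.2 V t hV) using 1
        ring⟩
      mono := fun δ δ' a hδ ha => ⟨ha.1, fun V t hV => by
        obtain ⟨d, rfl⟩ := Nat.exists_eq_add_of_le hδ
        convert mul_mem (pow_mem (hV Δ H (Nat.le_of_succ_le hΔ)) d) (ha.2 V t hV) using 1
        ring⟩
      gauss := fun r δ P Q hPQ e j e' j' h1 h2 => ⟨mul_mem h1 h2, fun V t hV =>
        gauss_val V _ P Q (fun e j => (hPQ e j).2 V t hV) e j e' j'⟩ }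
  have hγ : (m + 2) * N ^ (2 * m + 4) = (N ^ (m + 1)) ^ 2 * H := by rw [hH]; ring
  have hG : 1 ≤ (N ^ (m + 1)) ^ 2 := Nat.one_le_pow _ _ (Nat.one_le_pow _ _ hN)
  have hG1 : (N ^ (m + 1)) ^ 2 ≤ (m + 2) * N ^ (2 * m + 4) := by
    rw [hγ]; exact Nat.le_mul_of_pos_right _ (by omega)
  have hG2 : Δ.totalDegree ≤ (m + 2) * N ^ (2 * m + 4) := by
    rw [hγ]; exact (Nat.le_of_succ_le hΔ).trans (Nat.le_mul_of_pos_left _ hG)
  have mon : ∀ δ a, a ∈ L.B δ → Mon E μ ((m + 2) * N ^ (2 * m + 4))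
      ((m + 2) * N ^ (2 * m + 4) * δ) (MvPolynomial.aeval μ Δ ^ δ * a) := by
    intro δ a ha
    have h1 := hk _ (mul_mem (pow_mem (hpoly Δ) δ) ha.1)
    have h2 : ∀ V t, TFramePl E μ V t → MvPolynomial.aeval μ Δ ^ δ * a * t ^ (H * δ) ∈ V :=
      fun V t hV => by
        convert ha.2 V t hV using 1
        ring
    exact (mon_of hμ i0 h1.1 h1.2 (TFrame_va h2) (TFrame_vi i0 h2)).mono hG1
      (by rw [hγ]; exact (mul_assoc _ _ _).ge)
  refine ⟨L, Δ, fun s hs => ⟨IntermediateField.subset_adjoin _ _ hs, fun V t hV => ?_⟩,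
    d1, hG2, mon, fun r δ l y hl' hy hr => ?_⟩
  · rw [pow_one]; exact d3 s hs V t hV
  · have hle : (m + 2) * N ^ (2 * m + 4) ≤ (m + 2) * N ^ (2 * m + 4) * (δ + 1) :=
      Nat.le_mul_of_pos_right _ (Nat.succ_pos _)
    refine masser hμ i0 K.toSubfield l
      (fun a ha => ⟨(hk a ha).1, (hk a ha).2.trans (hG1.trans (hle.trans hl'))⟩) hF hθ y
      (fun j => (hy j).1) (Δ ^ δ) (pow_ne_zero _ d1) (n := (m + 2) * N ^ (2 * m + 4))
      (hG.trans (hG1.trans hle)) hl' ?_ (fun j => ?_) hr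
    · refine (MvPolynomial.totalDegree_pow Δ δ).trans ?_
      nlinarith
    · rw [map_pow]
      exact (mon δ _ (hy j)).mono le_rfl (Nat.mul_le_mul_left _ (Nat.le_succ _))

end Pool.Agent.MP_ee2255_nt.T

end

section

/-! Algebraic approximation at a given level. -/

namespace Pool.Agent.MP_ee2255_nt.T

open Polynomial Filter Topology Pool.Agent.MP_655169_nt

variable {E C : Type*} [Field E] [NormedField C] [IsUltrametricDist C] [IsAlgClosed C]
  [Algebra E C] (hE : ∀ e : E, ‖algebraMap E C e‖ ≤ 1) {θ : C} (hθ : 1 < ‖θ‖)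
include hE hθ

theorem alu {F : Type*} [Field F] [Fintype F] [Infinite E] [Algebra F C] [Algebra F E]
    [IsScalarTower F E C] {M : ℕ → ℝ} (hM : ∀ ℓ, 1 ≤ M ℓ) (S : ℕ → Finset C) {c : ℕ → ℕ}
    (hc : Pol c) (d : ℕ) {R : ℕ → ℝ} (hR : Big M R)
    (h : ∀ᶠ ℓ in UU, θ ∈ S ℓ ∧ (S ℓ).card ≤ c ℓ ∧ Grow E (Subtype.val : S ℓ → C) (c ℓ) d ∧
      Rk E (Subtype.val : S ℓ → C) d ∧ ∀ s ∈ S ℓ, ‖s‖ ≤ R ℓ) :
    ∃ (Φ : Fr F θ M) (φ : ℕ → C →ₗ[E] C) (η : ℕ → ℝ), Sm M η ∧ ∀ᶠ ℓ in UU,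
      (1 ∈ S ℓ → φ ℓ 1 = 1) ∧ ∀ s ∈ S ℓ, φ ℓ s ∈ (Φ.fl ℓ).B 1 ∧ ‖s - φ ℓ s‖ ≤ η ℓ := by
  classical
  have h1 : ∀ᶠ ℓ in UU, ∃ (m : ℕ) (lam : Fin m → C), m + 1 = d ∧
      (∀ j, lam j ∈ Submodule.span E (S ℓ : Set C)) ∧
      AlgebraicIndependent E (zz θ lam) ∧ HInt E θ lam (S ℓ : Set C) := by
    filter_upwards [h] with ℓ hℓ
    obtain ⟨m, lam, a1, a2, a3⟩ := nn (E := E) θ (normE_trans hE hθ) (S ℓ)
    exact ⟨m, lam, nn_dim (S ℓ) hℓ.1 hℓ.2.2.1 hℓ.2.2.2.1 a1 a2 a3, a1, a2, a3⟩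
  obtain ⟨m, rfl⟩ : ∃ m, m + 1 = d :=
    ev_false (h1.mono fun ℓ ⟨m, _, hm, _⟩ => ⟨m, hm⟩)
  obtain ⟨lam, h2⟩ := ev_choose (α := fun _ => Fin m → C)
    (p := fun ℓ lam => (∀ j, lam j ∈ Submodule.span E (S ℓ : Set C)) ∧
      AlgebraicIndependent E (zz θ lam) ∧ HInt E θ lam (S ℓ : Set C))
    (h1.mono fun ℓ ⟨m', lam, hm, hl⟩ => by
      obtain rfl : m' = m := by omega
      exact ⟨lam, hl⟩)
  obtain ⟨s, e, i0, he, hi0, hI, lam', N1, η, hN1, hη, h3⟩ := exists_ind hE hθ hM lam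
  let N0 : ℕ → ℕ := fun ℓ => (m + 1) * (c ℓ * (m + 2) ^ (m + 1))
  have hN0 : Pol N0 := (Pol.const _).mul (hc.mul (Pol.const _))
  let N : ℕ → ℕ := fun ℓ => N1 ℓ + (2 * N0 ℓ + (c ℓ + 1))
  have hN : Pol N := hN1.add (((Pol.const 2).mul hN0).add (hc.add (Pol.const 1)))
  have hR1 : ∀ᶠ ℓ in UU, ‖θ‖ ≤ R ℓ := h.mono fun ℓ hℓ => hℓ.2.2.2.2 θ hℓ.1
  have hl : ∀ᶠ ℓ in UU, ∀ j, ‖lam ℓ j‖ ≤ R ℓ := by
    filter_upwards [h, h2, hR1] with ℓ a1 a2 a3 j
    exact normE_span hE (S ℓ : Set C) ((norm_nonneg _).trans a3) a1.2.2.2.2 (a2.1 j)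
  have h4 : ∀ᶠ ℓ in UU, ∃ x : (C →ₗ[E] C) × ℕ × Fl F θ × MvPolynomial (Fin s) E,
      (1 ∈ S ℓ → x.1 1 = 1) ∧ 1 ≤ x.2.1 ∧ x.2.1 ≤ 2 * N0 ℓ + 1 ∧
      (∀ t ∈ S ℓ, ‖t - x.1 t‖ ^ x.2.1 ≤ R ℓ ^ (4 * N0 ℓ) * η ℓ) ∧
      (∀ t ∈ S ℓ, x.1 t ∈ x.2.2.1.B 1) ∧
      FrOk E x.2.2.1 (zz θ (lam ℓ) ∘ e) x.2.2.2 ((m + 2) * N ℓ ^ (2 * m + 4)) := by
    filter_upwards [h, h2, h3, hR1, hl, hη.lt_one hM] with ℓ a1 a2 a3 a4 a5 a6
    have b1 : ∀ u ∈ Submodule.span E (S ℓ : Set C), Alg E (zz θ (lam ℓ)) (N0 ℓ) (N0 ℓ) u := by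
      intro u hu
      have hcard : Fintype.card (Option (Fin m)) = m + 1 := by simp
      have := alg_of_grow (κ := Option (Fin m)) (Subtype.val : S ℓ → C) (c ℓ)
        (hcard ▸ a1.2.2.1) (zz θ (lam ℓ)) a2.2.1 (by
          rintro (_ | j)
          · exact span_le_Vs (S ℓ) (Submodule.subset_span a1.1)
          · exact span_le_Vs (S ℓ) (a2.1 j)) 1 u (span_le_Vs (S ℓ) hu)
      rw [hcard, mul_one] at this
      exact this.mono (Nat.le_mul_of_pos_left _ (Nat.succ_pos _)) le_rfl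
    have b2 : ∀ j, ‖lam' ℓ j‖ ≤ R ℓ := fun j => by
      have e1 : lam' ℓ j = lam ℓ j + -(lam ℓ j - lam' ℓ j) := by ring
      rw [e1]
      refine (IsUltrametricDist.norm_add_le_max _ _).trans (max_le (a5 j) ?_)
      rw [norm_neg]
      linarith [(a3.2 j).2]
    obtain ⟨φ, c1, c2, n, c3, c4, c5⟩ := alc hE hθ (S ℓ) a2.2.1 a2.2.2 b1 (lam' ℓ) a4 a3.1
      a1.2.2.2.2 a5 b2 fun j => (a3.2 j).2
    obtain ⟨L, Δ, d1, d2⟩ := frame_exists (F := F) (N := N ℓ) (a2.2.1.comp e he) i0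
      (θ := θ) (by simp [hi0, zz]) (by simp only [N]; omega) (lam' ℓ)
      (fun j => (a3.2 j).1.mono (Nat.le_add_right _ _) (Nat.le_add_right _ _))
      ((S ℓ).image φ) (Finset.card_image_le.trans (a1.2.1.trans (by simp only [N]; omega)))
      (fun u hu => by
        rw [Finset.coe_image, ← Submodule.map_span] at hu
        obtain ⟨w, hw, rfl⟩ := hu
        exact (c2 w hw).mono (by simp only [N]; omega))
    exact ⟨(φ, n, L, Δ), c1, c3, c4, c5, fun t ht => d1 _ (Finset.mem_image_of_mem _ ht), d2⟩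
  obtain ⟨x, hx⟩ := ev_choose h4
  obtain ⟨Φ, hΦ⟩ := exists_fr hE hM (fun ℓ => zz θ (lam ℓ) ∘ e) hI hR (by
      filter_upwards [hR1, hl] with ℓ a1 a2
      refine ⟨hθ.le.trans a1, fun k => ?_⟩
      change ‖zz θ (lam ℓ) (e k)‖ ≤ R ℓ
      rcases e k with _ | j
      · exact a1
      · exact a2 j) (fun ℓ => (x ℓ).2.2.1) (fun ℓ => (x ℓ).2.2.2)
    (fun ℓ => (m + 2) * N ℓ ^ (2 * m + 4)) ((Pol.const _).mul (hN.pow _))
    (hx.mono fun ℓ a => a.2.2.2.2.2)
  have hR0 : ∀ᶠ ℓ in UU, 0 ≤ R ℓ := hR1.mono fun ℓ a => (norm_nonneg _).trans a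
  refine ⟨Φ, fun ℓ => (x ℓ).1,
    fun ℓ => (((S ℓ).sup fun t => ‖t - (x ℓ).1 t‖₊ : NNReal) : ℝ), ?_, ?_⟩
  · refine Sm.root hM (hη.mul_big hM (hR.pow hM hR0 ((Pol.const 4).mul hN0))
      (hR0.mono fun ℓ a => pow_nonneg a _)) (Low.const hM one_pos) (d := fun ℓ => (x ℓ).2.1)
      (Pol.mono (hx.mono fun ℓ a => a.2.2.1) (((Pol.const 2).mul hN0).add (Pol.const 1))) ?_
    filter_upwards [h, hx] with ℓ a1 a2
    refine ⟨NNReal.coe_nonneg _, a2.2.1, ?_⟩
    obtain ⟨t, ht, e1⟩ := Finset.exists_mem_eq_sup (S ℓ) ⟨θ, a1.1⟩ fun t => ‖t - (x ℓ).1 t‖₊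
    rw [e1, mul_one, mul_comm]
    exact a2.2.2.2.1 t ht
  · filter_upwards [hx] with ℓ a
    refine ⟨a.1, fun t ht => ⟨by rw [hΦ]; exact a.2.2.2.2.1 t ht, ?_⟩⟩
    exact NNReal.coe_le_coe.2 (Finset.le_sup (f := fun t => ‖t - (x ℓ).1 t‖₊) ht)

end Pool.Agent.MP_ee2255_nt.T

end

section

/-! A small irreducible factor. -/

namespace Pool.Agent.MP_ee2255_nt.T

open Polynomial Filter Topology Pool.Agent.MP_655169_nt

section Swap

variable {K ι : Type*} [Field K]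

/-- Exchange of the variables. -/
noncomputable def facSw : MvPolynomial ι K[X] →+* (MvPolynomial ι K)[X] :=
  MvPolynomial.eval₂Hom (Polynomial.mapRingHom MvPolynomial.C)
    fun i => Polynomial.C (MvPolynomial.X i)

theorem facSw_coeff (P : MvPolynomial ι K[X]) (e : ι →₀ ℕ) (j : ℕ) :
    ((facSw P).coeff j).coeff e = (P.coeff e).coeff j := by
  classical
  induction P using MvPolynomial.induction_on' with
  | add p q hp hq => simp only [map_add, Polynomial.coeff_add, MvPolynomial.coeff_add, hp, hq]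
  | monomial u a =>
    have h : facSw (MvPolynomial.monomial u a) =
        a.map MvPolynomial.C * Polynomial.C (MvPolynomial.monomial u (1 : K)) := by
      rw [facSw, MvPolynomial.eval₂Hom_monomial, MvPolynomial.monomial_eq, MvPolynomial.C_1,
        one_mul, Finsupp.prod, Finsupp.prod, map_prod]
      simp
    rw [h, Polynomial.coeff_mul_C, Polynomial.coeff_map, MvPolynomial.coeff_C_mul,
      MvPolynomial.coeff_monomial, MvPolynomial.coeff_monomial]
    split_ifs <;> simp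

theorem facSw_ne {P : MvPolynomial ι K[X]} (h : P ≠ 0) : facSw P ≠ 0 := fun k => h (by
  ext e j
  rw [← facSw_coeff, k]
  simp)

theorem facSw_le {P : MvPolynomial ι K[X]} {n : ℕ} :
    (facSw P).natDegree ≤ n ↔ ∀ e, (P.coeff e).natDegree ≤ n := by
  simp only [Polynomial.natDegree_le_iff_coeff_eq_zero]
  refine ⟨fun h e j hj => by rw [← facSw_coeff, h j hj]; simp, fun h j hj => ?_⟩
  ext e
  rw [facSw_coeff, h e j hj]
  simp

/-- The weight. -/
noncomputable def facW (P : MvPolynomial ι K[X]) : ℕ := P.totalDegree + (facSw P).natDegree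

theorem facW_mul {P Q : MvPolynomial ι K[X]} (hP : P ≠ 0) (hQ : Q ≠ 0) :
    facW (P * Q) = facW P + facW Q := by
  rw [facW, facW, facW, MvPolynomial.totalDegree_mul_of_isDomain hP hQ, map_mul,
    Polynomial.natDegree_mul (facSw_ne hP) (facSw_ne hQ)]
  ring

end Swap

section Up

variable {C ι : Type*} [Field C] (k : Subfield C)

theorem fac_up_C (c : k) : up k (MvPolynomial.C (Polynomial.C c) : MvPolynomial ι k[X]) =
    MvPolynomial.C (Polynomial.C (c : C)) := by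
  simp [up]

theorem fac_up_ne {P : MvPolynomial ι k[X]} (h : P ≠ 0) : up k P ≠ 0 := fun e =>
  h (up_inj k (e.trans (map_zero _).symm))

theorem fac_unit {c : k} (h : c ≠ 0) :
    IsUnit (MvPolynomial.C (Polynomial.C c) : MvPolynomial ι k[X]) :=
  ((IsUnit.mk0 c h).map Polynomial.C).map MvPolynomial.C

theorem fac_pos {P : MvPolynomial ι k[X]} (h : Irreducible P) : 1 ≤ facW (up k P) := by
  by_contra hn
  have h₁ : (up k P).totalDegree = 0 := by unfold facW at hn; omega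
  have h₂ : (facSw (up k P)).natDegree ≤ 0 := by unfold facW at hn; omega
  have h₃ := Polynomial.eq_C_of_natDegree_le_zero (facSw_le.1 h₂ 0)
  rw [MvPolynomial.totalDegree_eq_zero_iff_eq_C, h₃, up_coeff, ← fac_up_C] at h₁
  have h₄ := up_inj k h₁
  refine h.not_isUnit (h₄ ▸ fac_unit k fun e => h.ne_zero ?_)
  rw [h₄, e]
  simp

end Up

variable {F C Ω : Type*} [Field F] [Fintype F] [NormedField C] [IsUltrametricDist C]
  [IsAlgClosed C] [Algebra F C] [NormedField Ω] [IsUltrametricDist Ω] [IsAlgClosed Ω]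
  [Algebra C Ω] [Algebra F Ω] [IsScalarTower F C Ω] (Z : Sit F C Ω)

theorem fac_low (k : Subfield C) {r : ℕ} (f : Fin r → Ω) {ε : ℝ} (hε : 0 < ε) (hε1 : ε ≤ 1)
    (P : MvPolynomial (Fin r) k[X]) : P ≠ 0 →
    (∀ R, Irreducible R → R ∣ P → ε * cn Z (up k R) ≤ ‖Z.FF f (up k R)‖) →
    ε ^ facW (up k P) * cn Z (up k P) ≤ ‖Z.FF f (up k P)‖ := by
  induction P using WfDvdMonoid.induction_on_irreducible with
  | zero => exact fun h => absurd rfl h
  | unit u hu =>
    intro _ _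
    obtain ⟨a, -, rfl⟩ := MvPolynomial.isUnit_iff_eq_C_of_isReduced.1 hu
    have e : up k (MvPolynomial.C a : MvPolynomial (Fin r) k[X]) =
        MvPolynomial.C (a.map k.subtype) := by simp [up]
    rw [e, FF_C, MvPolynomial.C_apply, cn_monomial]
    exact mul_le_of_le_one_left (norm_nonneg _) (pow_le_one₀ hε.le hε1)
  | mul a i ha hi ih =>
    intro _ H
    have h₁ := H i hi (dvd_mul_right i a)
    have h₂ := ih ha fun R hR k' => H R hR (k'.mul_left i)
    have h₃ : ε ^ facW (up k i) ≤ ε := by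
      simpa using pow_le_pow_of_le_one hε.le hε1 (fac_pos k hi)
    have h₄ := cn_nonneg Z (up k i)
    have h₅ := cn_nonneg Z (up k a)
    rw [map_mul, facW_mul (fac_up_ne k hi.ne_zero) (fac_up_ne k ha), FF_mul, cn_mul, norm_mul,
      pow_add]
    calc ε ^ facW (up k i) * ε ^ facW (up k a) * (cn Z (up k i) * cn Z (up k a))
        = ε ^ facW (up k i) * cn Z (up k i) * (ε ^ facW (up k a) * cn Z (up k a)) := by ring
      _ ≤ ε * cn Z (up k i) * (ε ^ facW (up k a) * cn Z (up k a)) := by gcongr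
      _ ≤ _ := mul_le_mul h₁ h₂ (by positivity) (norm_nonneg _)

theorem exists_irred (L : Fl F Z.θ) {r : ℕ} (f : Fin r → Ω) (Q : MvPolynomial (Fin r) C[X])
    {δ : ℕ} {ε : ℝ} (hε : 0 < ε) (hε1 : ε ≤ 1) (h0 : Q ≠ 0) (hQ : BdB L.B δ Q)
    (h : ‖Z.FF f Q‖ < ε ^ (2 * δ) * cn Z Q) :
    ∃ Qk : MvPolynomial (Fin r) L.k[X], Irreducible Qk ∧ BdB L.B (2 * δ) (up L.k Qk) ∧
      ‖Z.FF f (up L.k Qk)‖ < ε * cn Z (up L.k Qk) := by
  obtain ⟨Q0, rfl⟩ := exists_up L.k Q fun e j => L.sub δ _ ((hQ.2 e).2 j)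
  have hQ0 : Q0 ≠ 0 := fun e => h0 (by rw [e, map_zero])
  have hd : (facSw (up L.k Q0)).natDegree ≤ δ := facSw_le.2 fun e => (hQ.2 e).1
  have hw : facW (up L.k Q0) ≤ 2 * δ := by
    have := hQ.1
    unfold facW
    omega
  obtain ⟨P, hP, ⟨R, rfl⟩, hs⟩ : ∃ P, Irreducible P ∧ P ∣ Q0 ∧
      ‖Z.FF f (up L.k P)‖ < ε * cn Z (up L.k P) := by
    by_contra hn
    push Not at hn
    exact (fac_low Z L.k f hε hε1 Q0 hQ0 hn).not_gt (h.trans_le (mul_le_mul_of_nonneg_right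
      (pow_le_pow_of_le_one hε.le hε1 hw) (cn_nonneg Z _)))
  have hR : R ≠ 0 := right_ne_zero_of_mul hQ0
  obtain ⟨e', j', hρ⟩ : ∃ e' j', (R.coeff e').coeff j' ≠ 0 := by
    by_contra hn
    push Not at hn
    exact hR (MvPolynomial.ext _ _ fun e => Polynomial.ext fun j => by simp [hn e j])
  have hρ' : (((R.coeff e').coeff j' : L.k) : C) ≠ 0 := fun e => hρ (Subtype.ext e)
  have hP' := fac_up_ne L.k hP.ne_zero
  have hR' := fac_up_ne L.k hR
  rw [map_mul] at hQ hd h0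
  have d₁ : (up L.k P).totalDegree ≤ δ :=
    (MvPolynomial.totalDegree_le_of_dvd_of_isDomain (dvd_mul_right _ _) h0).trans hQ.1
  have d₂ : (facSw (up L.k P)).natDegree ≤ δ := by
    rw [map_mul, Polynomial.natDegree_mul (facSw_ne hP') (facSw_ne hR')] at hd
    omega
  refine ⟨MvPolynomial.C (Polynomial.C ((R.coeff e').coeff j')) * P,
    (irreducible_isUnit_mul (fac_unit L.k hρ)).2 hP, ?_, ?_⟩
  · rw [map_mul, fac_up_C]
    refine ⟨(MvPolynomial.totalDegree_mul _ _).trans ?_, fun e => ⟨?_, fun j => ?_⟩⟩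
    · rw [MvPolynomial.totalDegree_C]
      omega
    · rw [MvPolynomial.coeff_C_mul]
      exact (Polynomial.natDegree_C_mul_le _ _).trans ((facSw_le.1 d₂ e).trans (by omega))
    · rw [MvPolynomial.coeff_C_mul, Polynomial.coeff_C_mul,
        mul_comm (((R.coeff e').coeff j' : L.k) : C), ← up_coeff]
      refine L.mono δ _ _ (by omega) (L.gauss r δ _ _ (fun e j => (hQ.2 e).2 j) e j e' j' ?_ ?_)
      · rw [up_coeff]
        exact Subtype.prop _
      · rw [up_coeff]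
        exact Subtype.prop _
  · have e₁ := cn_monomial Z (0 : Fin r →₀ ℕ) (Polynomial.C (((R.coeff e').coeff j' : L.k) : C))
    have e₂ := cn_C_mul Z (((R.coeff e').coeff j' : L.k) : C) (1 : MvPolynomial (Fin r) C[X])
    have e₃ := cn_monomial Z (0 : Fin r →₀ ℕ) (1 : C[X])
    rw [← MvPolynomial.C_apply] at e₁ e₃
    rw [map_one, map_one, norm_one] at e₃
    rw [mul_one, e₃, mul_one] at e₂
    rw [map_mul, fac_up_C, FF_mul, FF_C, norm_mul, cn_C_mul, ← e₁, e₂, mul_left_comm]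
    exact mul_lt_mul_of_pos_left hs (norm_pos_iff.2 hρ')

end Pool.Agent.MP_ee2255_nt.T

end

section

/-! Elimination of the first variable. -/

namespace Pool.Agent.MP_ee2255_nt.T

open Polynomial Filter Topology Pool.Agent.MP_655169_nt

theorem res_bez {R : Type*} [CommRing R] [Nontrivial R] (f g : R[X]) (m n : ℕ)
    (hf : f.natDegree ≤ m) (hg : g.natDegree ≤ n) (H : m ≠ 0) (S : AddSubmonoid R)
    (hS : ∀ i j, (sylvester f g m n).adjugate i j ∈ S) :
    ∃ p q : R[X], p.natDegree ≤ m + n ∧ q.natDegree ≤ m + n ∧ (∀ j, p.coeff j ∈ S) ∧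
      (∀ j, q.coeff j ∈ S) ∧ f * p + g * q = C (f.resultant g m n) := by
  classical
  let w : degreeLT R (m + n) := ⟨1, by
    rw [Polynomial.mem_degreeLT, degree_one]
    exact_mod_cast (by omega : 0 < m + n)⟩
  let Y := adjSylvester (m := m) (n := n) f g w
  have h1 : ((sylvesterMap f g hf hg Y)).1 = _ :=
    congr(($(sylveserMap_comp_adjSylvester f g hf hg) w).1)
  have hrep : ∀ i, (((degreeLT.basis R m).prod (degreeLT.basis R n)).reindex
      finSumFinEquiv).repr Y i ∈ S := by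
    intro i
    have h2 := congrFun (Matrix.repr_toLin (degreeLT.basis R (m + n))
      (((degreeLT.basis R m).prod (degreeLT.basis R n)).reindex finSumFinEquiv)
      (sylvester f g m n).adjugate w) i
    have h3 : (((degreeLT.basis R m).prod (degreeLT.basis R n)).reindex
      finSumFinEquiv).repr Y i = _ := h2
    rw [h3, Matrix.mulVec, dotProduct]
    refine S.sum_mem fun k _ => ?_
    rw [degreeLT.basis_repr]
    show _ * (1 : R[X]).coeff k ∈ S
    rw [coeff_one]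
    split_ifs
    · simpa using hS i k
    · simp
  have hd1 : (Y.1 : R[X]).degree < m := Polynomial.mem_degreeLT.1 Y.1.2
  have hd2 : (Y.2 : R[X]).degree < n := Polynomial.mem_degreeLT.1 Y.2.2
  refine ⟨Y.2, Y.1, ?_, ?_, fun j => ?_, fun j => ?_, by simpa [Algebra.smul_def, w] using h1⟩
  · exact (natDegree_le_of_degree_le hd2.le).trans (by omega)
  · exact (natDegree_le_of_degree_le hd1.le).trans (by omega)
  · by_cases hj : j < n
    · have := hrep (finSumFinEquiv (Sum.inr ⟨j, hj⟩))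
      simpa [-finSumFinEquiv_apply_right] using this
    · rw [coeff_eq_zero_of_degree_lt (hd2.trans_le (by exact_mod_cast (by omega : n ≤ j)))]
      exact S.zero_mem
  · by_cases hj : j < m
    · have := hrep (finSumFinEquiv (Sum.inl ⟨j, hj⟩))
      simpa [-finSumFinEquiv_apply_left] using this
    · rw [coeff_eq_zero_of_degree_lt (hd1.trans_le (by exact_mod_cast (by omega : m ≤ j)))]
      exact S.zero_mem

theorem res_ne {A : Type*} [CommRing A] [IsDomain A] [UniqueFactorizationMonoid A] (p g : A[X])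
    (hp : Irreducible p) (h0 : p.natDegree ≠ 0) (hd : ¬ p ∣ g) : resultant p g ≠ 0 := by
  classical
  let K := FractionRing A
  have hprim : p.IsPrimitive := hp.isPrimitive h0
  have hirr : Irreducible (p.map (algebraMap A K)) :=
    (hprim.irreducible_iff_irreducible_map_fraction_map (K := K)).1 hp
  have hnd : ¬ p.map (algebraMap A K) ∣ g.map (algebraMap A K) := fun h =>
    hd (hprim.dvd_of_fraction_map_dvd_fraction_map h)
  have hcop : IsCoprime (p.map (algebraMap A K)) (g.map (algebraMap A K)) :=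
    hirr.coprime_iff_not_dvd.2 hnd
  have hne := resultant_ne_zero _ _ hcop
  intro h
  apply hne
  rw [natDegree_map_eq_of_injective (IsFractionRing.injective A K),
    natDegree_map_eq_of_injective (IsFractionRing.injective A K), resultant_map_map, h, map_zero]

theorem fse_map {R S : Type*} [CommRing R] [CommRing S] (φ : R →+* S) {r : ℕ}
    (Q : MvPolynomial (Fin (r + 1)) R) :
    MvPolynomial.finSuccEquiv S r (MvPolynomial.map φ Q) =
      (MvPolynomial.finSuccEquiv R r Q).map (MvPolynomial.map φ) := by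
  ext i e
  rw [MvPolynomial.finSuccEquiv_coeff_coeff, Polynomial.coeff_map, MvPolynomial.coeff_map,
    MvPolynomial.coeff_map, MvPolynomial.finSuccEquiv_coeff_coeff]

theorem fse_rename {R : Type*} [CommRing R] {r : ℕ} (a : MvPolynomial (Fin r) R) :
    MvPolynomial.finSuccEquiv R r (MvPolynomial.rename Fin.succ a) = Polynomial.C a := by
  induction a using MvPolynomial.induction_on with
  | C c =>
    rw [MvPolynomial.rename_C]
    exact (MvPolynomial.finSuccEquiv R r).commutes c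
  | add p q hp hq => rw [map_add, map_add, hp, hq, map_add]
  | mul_X p j hp =>
    rw [map_mul, map_mul, hp, MvPolynomial.rename_X, MvPolynomial.finSuccEquiv_X_succ, map_mul]

theorem res_alt {F C : Type*} [Field F] [Fintype F] [Field C] [Algebra F C] {θ : C} (L : Fl F θ)
    {r δ : ℕ} (hδ : 1 ≤ δ) (Qk : MvPolynomial (Fin (r + 1)) L.k[X]) (hi : Irreducible Qk)
    (G : MvPolynomial (Fin (r + 1)) C[X]) (hQ : BdB L.B δ (up L.k Qk)) (hG : BdB L.B δ G) :
    up L.k Qk ∣ G ∨ ∃ (Q₁ : MvPolynomial (Fin r) C[X]) (α β : MvPolynomial (Fin (r + 1)) C[X]),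
      Q₁ ≠ 0 ∧ BdB L.B (4 * δ ^ 2) Q₁ ∧ BdB L.B (4 * δ ^ 2) α ∧ BdB L.B (4 * δ ^ 2) β ∧
        MvPolynomial.rename Fin.succ Q₁ = α * up L.k Qk + β * G := by
  classical
  have hB := L.flt
  obtain ⟨Gk, rfl⟩ := exists_up L.k G fun e j => L.sub δ _ ((hG.2 e).2 j)
  by_cases hdv : Qk ∣ Gk
  · exact Or.inl (map_dvd (up L.k) hdv)
  right
  set p := MvPolynomial.finSuccEquiv L.k[X] r Qk with hp
  set g := MvPolynomial.finSuccEquiv L.k[X] r Gk with hg
  have hpi : Irreducible p := (MulEquiv.irreducible_iff (MvPolynomial.finSuccEquiv L.k[X] r)).2 hi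
  have hnd : ¬ p ∣ g := fun h => hdv ((map_dvd_iff (MvPolynomial.finSuccEquiv L.k[X] r)).1 h)
  have hP : MvPolynomial.finSuccEquiv C[X] r (up L.k Qk) = p.map (up L.k) := fse_map _ _
  have hGG : MvPolynomial.finSuccEquiv C[X] r (up L.k Gk) = g.map (up L.k) := fse_map _ _
  have hinj := up_inj (ι := Fin r) L.k
  have hδ2 : δ ≤ 4 * δ ^ 2 := by nlinarith
  have hcP : ∀ j, BdB L.B δ ((p.map (up L.k)).coeff j) := fun j => hP ▸ hQ.fin_coeff j
  have hcG : ∀ j, BdB L.B δ ((g.map (up L.k)).coeff j) := fun j => hGG ▸ hG.fin_coeff j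
  by_cases h0 : p.natDegree = 0
  · refine ⟨(p.map (up L.k)).coeff 0, 1, 0, ?_, (hcP 0).mono hB hδ2, BdB.one hB, BdB.zero, ?_⟩
    · rw [Polynomial.coeff_map]
      intro h
      have h1 : p.coeff 0 = 0 := hinj (by rw [h, map_zero])
      apply hpi.ne_zero
      rw [Polynomial.eq_C_of_natDegree_eq_zero h0, h1, map_zero]
    · apply (MvPolynomial.finSuccEquiv C[X] r).injective
      rw [fse_rename, one_mul, zero_mul, add_zero, hP]
      exact (Polynomial.eq_C_of_natDegree_eq_zero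
        (by rw [natDegree_map_eq_of_injective hinj, h0])).symm
  have hres := res_ne p g hpi h0 hnd
  have hm : p.natDegree ≤ δ := by
    rw [← natDegree_map_eq_of_injective hinj p, ← hP, MvPolynomial.natDegree_finSuccEquiv]
    exact (MvPolynomial.degreeOf_le_totalDegree _ _).trans hQ.1
  have hn : g.natDegree ≤ δ := by
    rw [← natDegree_map_eq_of_injective hinj g, ← hGG, MvPolynomial.natDegree_finSuccEquiv]
    exact (MvPolynomial.degreeOf_le_totalDegree _ _).trans hG.1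
  set m := p.natDegree with hm'
  set n := g.natDegree with hn'
  have hsyl : ∀ i j, BdB L.B δ (sylvester (p.map (up L.k)) (g.map (up L.k)) m n i j) := by
    intro i j
    induction j using Fin.addCases with
    | left j =>
      simp only [sylvester, Matrix.of_apply, Fin.addCases_left]
      split_ifs
      · exact hcG _
      · exact BdB.zero
    | right j =>
      simp only [sylvester, Matrix.of_apply, Fin.addCases_right]
      split_ifs
      · exact hcP _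
      · exact BdB.zero
  let S : AddSubmonoid (MvPolynomial (Fin r) C[X]) :=
    { carrier := {a | BdB L.B (2 * δ ^ 2) a}
      add_mem' := fun ha hb => BdB.add ha hb
      zero_mem' := BdB.zero }
  have hcard : Fintype.card (Fin (m + n)) * δ ≤ 2 * δ ^ 2 := by
    rw [Fintype.card_fin]; nlinarith
  obtain ⟨a, b, ha, hb, hca, hcb, hab⟩ := res_bez (p.map (up L.k)) (g.map (up L.k)) m n
    natDegree_map_le natDegree_map_le h0 S
    fun i j => (BdB.adjugate hB _ hsyl i j).mono hB hcard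
  have hfin : m + n + 2 * δ ^ 2 ≤ 4 * δ ^ 2 := by nlinarith
  refine ⟨resultant (p.map (up L.k)) (g.map (up L.k)) m n,
    (MvPolynomial.finSuccEquiv C[X] r).symm a, (MvPolynomial.finSuccEquiv C[X] r).symm b, ?_,
    (BdB.det hB _ hsyl).mono hB (hcard.trans (by omega)),
    (BdB.fin_symm hB ha hca).mono hB hfin, (BdB.fin_symm hB hb hcb).mono hB hfin, ?_⟩
  · rw [resultant_map_map]
    intro h
    exact hres (hinj (by rw [h, map_zero]))
  · apply (MvPolynomial.finSuccEquiv C[X] r).injective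
    rw [fse_rename, map_add, map_mul, map_mul, AlgEquiv.apply_symm_apply,
      AlgEquiv.apply_symm_apply, hP, hGG, ← hab]
    ring

end Pool.Agent.MP_ee2255_nt.T

end

section

/-! Eigenpolynomials of the twist. -/

namespace Pool.Agent.MP_ee2255_nt.T

open Polynomial Filter Topology Pool.Agent.MP_655169_nt

section Strip

variable {k : Type*} [Field k]

theorem tko_strip {τ : k →+* k} {a : k} (ha : a ≠ 0)
    (hH : ∀ n : ℕ, 1 ≤ n → ∀ c, τ c = a ^ n * c → c = 0) {r : ℕ} {α : Fin (r + 1) → k}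
    (hα : α (Fin.last r) = 0) (d : ℕ) : ∀ P : MvPolynomial (Fin (r + 1)) k, P ≠ 0 →
      S.twKO τ a α P = MvPolynomial.C (a ^ d) * P →
      (∃ (c : k) (ν : ℕ), P = MvPolynomial.C c * MvPolynomial.X (Fin.last r) ^ ν) ∨
      ∃ (n : ℕ) (Q : MvPolynomial (Fin r) k), Q ≠ 0 ∧ 1 ≤ n ∧
        S.twKO τ a (fun j : Fin r => α j.castSucc) Q = MvPolynomial.C (a ^ n) * Q := by
  classical
  let π : MvPolynomial (Fin (r + 1)) k →ₐ[k] MvPolynomial (Fin r) k :=
    MvPolynomial.aeval fun j => Fin.lastCases (motive := fun _ => MvPolynomial (Fin r) k) 0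
      (fun i => MvPolynomial.X i) j
  have hπ : ∀ P, π (S.twKO τ a α P) = S.twKO τ a (fun j : Fin r => α j.castSucc) (π P) :=
    fun P => by
    induction P using MvPolynomial.induction_on with
    | C c => simp [π]
    | add P Q hP hQ => simp only [map_add, hP, hQ]
    | mul_X P j hP =>
      rw [map_mul, map_mul, map_mul, map_mul, hP]
      congr 1
      induction j using Fin.lastCases with
      | last => simp [π, hα]
      | cast i => simp [π]
  have hd : ∀ P, MvPolynomial.X (Fin.last r) ∣ P - MvPolynomial.rename Fin.castSucc (π P) :=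
    fun P => by
    induction P using MvPolynomial.induction_on with
    | C c => simp [π]
    | add P Q hP hQ =>
      rw [map_add, map_add, add_sub_add_comm]
      exact dvd_add hP hQ
    | mul_X P j hP =>
      rw [map_mul, map_mul]
      induction j using Fin.lastCases with
      | last => simp [π]
      | cast i =>
        have : MvPolynomial.rename Fin.castSucc (π (MvPolynomial.X i.castSucc)) =
            MvPolynomial.X i.castSucc := by simp [π]
        rw [this, ← sub_mul]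
        exact hP.mul_right _
  induction d with
  | zero =>
    intro P h2 h
    have h3 := S.eigen_degKO ha hH h2 (m := 0) (n := 0) (α := α) (by rw [← h]; simp)
    have h4 := MvPolynomial.totalDegree_eq_zero_iff_eq_C.1 (show P.totalDegree = 0 by omega)
    exact Or.inl ⟨P.coeff 0, 0, by rw [pow_zero, mul_one]; exact h4⟩
  | succ d ih =>
    intro P h2 h
    by_cases e : π P = 0
    · obtain ⟨Q, hQ⟩ := hd P
      rw [e, map_zero, sub_zero] at hQ
      subst hQ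
      have h5 : S.twKO τ a α Q = MvPolynomial.C (a ^ d) * Q := by
        refine mul_left_cancel₀ (a := MvPolynomial.C a * MvPolynomial.X (Fin.last r))
          (mul_ne_zero (by simp [ha]) (MvPolynomial.X_ne_zero _)) ?_
        rw [map_mul, S.twKO_X, hα, map_zero, zero_add] at h
        rw [h, pow_succ, map_mul]
        ring
      rcases ih Q (right_ne_zero_of_mul h2) h5 with ⟨c, ν, rfl⟩ | h6
      · exact Or.inl ⟨c, ν + 1, by ring⟩
      · exact Or.inr h6
    · refine Or.inr ⟨d + 1, π P, e, by omega, ?_⟩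
      rw [← hπ, h, map_mul]
      simp [π]

theorem tko_field (p : ℕ) [Fact p.Prime] [CharP k p] {τ : k →+* k} {a : k} (ha : a ≠ 0)
    (hH : ∀ n : ℕ, 1 ≤ n → ∀ c, τ c = a ^ n * c → c = 0) {r : ℕ} {α : Fin (r + 1) → k}
    (hα : α (Fin.last r) = 0) {P : MvPolynomial (Fin (r + 1)) k} (hP : P ≠ 0) {w : k}
    (h : S.twKO τ a α P = MvPolynomial.C w * P) :
    (∃ (c : k) (ν : ℕ), P = MvPolynomial.C c * MvPolynomial.X (Fin.last r) ^ ν) ∨
      ∃ (b : ℕ) (c : Fin r → k) (s : k), c ≠ 0 ∧ (∀ j, τ (c j) = c j) ∧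
        τ s + ∑ j, c j * α j.castSucc ^ p ^ b = a ^ p ^ b * s := by
  obtain ⟨κ, h1, -, h3⟩ := S.top_monoKO hP
  have h4 := congrArg (MvPolynomial.coeff κ) h
  rw [MvPolynomial.coeff_C_mul, S.coeff_twKO τ a α h3] at h4
  set c := MvPolynomial.coeff κ P
  have hc : τ c ≠ 0 := (map_ne_zero τ).2 h1
  have h5 : (τ c)⁻¹ * w = a ^ κ.degree * c⁻¹ := by
    field_simp
    linear_combination -h4
  have h6 : S.twKO τ a α (MvPolynomial.C c⁻¹ * P) =
      MvPolynomial.C (a ^ κ.degree) * (MvPolynomial.C c⁻¹ * P) := by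
    rw [map_mul, S.twKO_C, h, map_inv₀, ← mul_assoc, ← mul_assoc, ← map_mul, ← map_mul, h5]
  rcases tko_strip ha hH hα _ _ (mul_ne_zero (by simp [h1]) hP) h6 with
    ⟨c', ν, e⟩ | ⟨n, Q, e1, e2, e3⟩
  · refine Or.inl ⟨c * c', ν, ?_⟩
    rw [map_mul, mul_assoc, ← e, ← mul_assoc, ← map_mul, mul_inv_cancel₀ h1, map_one, one_mul]
  · obtain ⟨b, c', s, f1, f2, f3⟩ := S.eigen_addKO p ha hH n Q e1 e2 e3
    refine Or.inr ⟨b, c', s, f1, f2, ?_⟩
    have hq : p ^ b ≠ 0 := pow_ne_zero b (Fact.out : p.Prime).ne_zero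
    have f4 := congrArg MvPolynomial.constantCoeff f3
    simpa [f2, zero_pow hq] using f4

end Strip

variable {F C Ω : Type*} [Field F] [Fintype F] [NormedField C] [IsUltrametricDist C]
  [IsAlgClosed C] [Algebra F C] [NormedField Ω] [IsUltrametricDist Ω] [IsAlgClosed Ω]
  [Algebra C Ω] [Algebra F Ω] [IsScalarTower F C Ω] (Z : Sit F C Ω)

theorem ko_eigen {r : ℕ} (y : Fin (r + 1) → C) (hy : y (Fin.last r) = 0)
    (Q : MvPolynomial (Fin (r + 1)) C[X]) (hQ : Q ≠ 0) (h : Q ∣ Z.sgt y Q) :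
    (∃ (a : C[X]) (ν : ℕ), Q = MvPolynomial.C a * MvPolynomial.X (Fin.last r) ^ ν) ∨
    ∃ (b : ℕ) (c : Fin r → F[X]) (A : C[X]), c ≠ 0 ∧
      Z.tw 1 A + ∑ j, (c j).map (algebraMap F C) * Polynomial.C (y j.castSucc ^ ringChar F ^ b) =
        Z.ss ^ ringChar F ^ b * A := by
  classical
  obtain ⟨w, hw⟩ : ∃ w : C[X], Z.sgt y Q = MvPolynomial.C w * Q := by
    obtain ⟨R, hR⟩ := h
    by_cases h0 : R = 0
    · exact ⟨0, by rw [hR, h0]; simp⟩
    · have h1 := Z.sgt_deg y Q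
      rw [hR, MvPolynomial.totalDegree_mul_of_isDomain hQ h0] at h1
      have h2 := MvPolynomial.totalDegree_eq_zero_iff_eq_C.1 (show R.totalDegree = 0 by omega)
      exact ⟨R.coeff 0, by rw [hR, ← h2, mul_comm]⟩
  obtain ⟨K, _, g, τ, hg, hτ, hall⟩ : ∃ (K : Type _) (_ : Field K) (g : C[X] →+* K) (τ : K →+* K),
      Function.Injective g ∧ (∀ A, τ (g A) = g (Z.tw 1 A)) ∧ ∀ x, x ∈ S.slogFr g := by
    refine ⟨FractionRing C[X], inferInstance, algebraMap _ _,
      IsFractionRing.lift (g := (algebraMap _ _).comp (Z.tw 1))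
        ((IsFractionRing.injective _ _).comp Z.tw_bij.1),
      IsFractionRing.injective _ _, fun A => IsFractionRing.lift_algebraMap _ A, fun x => ?_⟩
    obtain ⟨u, v, -, rfl⟩ := IsFractionRing.div_surjective C[X] x
    exact div_mem (S.slog_self _ _) (S.slog_self _ _)
  have hτ' : ∀ A : C[X], τ (g A) = g (A.map (Z.fr ^ 1)) := hτ
  have : Fact (ringChar F).Prime := ⟨CharP.char_is_prime F _⟩
  have : CharP K (ringChar F) :=
    charP_of_injective_ringHom ((g.comp Polynomial.C).comp (algebraMap F C)).injective _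
  have ha : g Z.ss ≠ 0 := (map_ne_zero_iff g hg).2 (X_sub_C_ne_zero Z.θ)
  have hH : ∀ n : ℕ, 1 ≤ n → ∀ c, τ c = g Z.ss ^ n * c → c = 0 := fun n hn c hc =>
    S.slog_hH hg (Z.fr ^ 1) τ hτ' Z.θ n hn c (hall c) hc
  have hmap : ∀ P : MvPolynomial (Fin (r + 1)) C[X], MvPolynomial.map g (Z.sgt y P) =
      S.twKO τ (g Z.ss) (fun j => g (Polynomial.C (y j))) (MvPolynomial.map g P) := fun P => by
    unfold Sit.sgt
    induction P using MvPolynomial.induction_on with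
    | C c => simp [hτ]
    | add P Q hP hQ => simp only [MvPolynomial.eval₂_add, map_add, hP, hQ]
    | mul_X P j hP =>
      rw [MvPolynomial.eval₂_mul, map_mul, map_mul, map_mul, hP]
      simp
  have hP : MvPolynomial.map g Q ≠ 0 :=
    (map_ne_zero_iff _ (MvPolynomial.map_injective g hg)).2 hQ
  have h1 := hmap Q
  rw [hw, map_mul, MvPolynomial.map_C] at h1
  rcases tko_field (ringChar F) ha hH (by simp [hy]) hP h1.symm with
    ⟨c, ν, e⟩ | ⟨b, c, s, f1, f2, f3⟩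
  · refine Or.inl ⟨Q.coeff (Finsupp.single (Fin.last r) ν), ν,
      MvPolynomial.map_injective g hg ?_⟩
    have e1 := congrArg (MvPolynomial.coeff (Finsupp.single (Fin.last r) ν)) e
    rw [MvPolynomial.coeff_map, MvPolynomial.coeff_C_mul, MvPolynomial.coeff_X_pow, if_pos rfl,
      mul_one] at e1
    rw [e, map_mul, map_pow, MvPolynomial.map_C, MvPolynomial.map_X, e1]
  right
  have h2 : ∀ j, ∃ U V : C[X], V ≠ 0 ∧ Z.tw 1 V = V ∧ c j * g V = g U :=
    fun j => S.slog_den hg (Z.fr ^ 1) τ hτ' (hall (c j)) (u := 0) (v := 1) (by simp [f2])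
  choose U V hV0 hV hU using h2
  obtain ⟨B, hB0, hB, W, hW⟩ : ∃ B : C[X], B ≠ 0 ∧ Z.tw 1 B = B ∧
      ∃ W : Fin r → C[X], ∀ j, c j * g B = g (W j) := by
    refine ⟨∏ j, V j, Finset.prod_ne_zero_iff.2 fun j _ => hV0 j, ?_,
      fun j => U j * ∏ i ∈ Finset.univ.erase j, V i, fun j => ?_⟩
    · rw [map_prod]
      exact Finset.prod_congr rfl fun j _ => hV j
    · rw [← Finset.mul_prod_erase _ _ (Finset.mem_univ j), map_mul, map_mul, ← mul_assoc, hU]
  have hWf : ∀ j, Z.tw 1 (W j) = W j := fun j => hg (by rw [← hτ, ← hW, map_mul, f2, hτ, hB])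
  have e3 : g (∑ j, W j * Polynomial.C (y j.castSucc ^ ringChar F ^ b)) =
      (∑ j, c j * g (Polynomial.C (y j.castSucc)) ^ ringChar F ^ b) * g B := by
    rw [map_sum, Finset.sum_mul]
    refine Finset.sum_congr rfl fun j _ => ?_
    rw [map_mul, ← hW, map_pow, map_pow]
    ring
  have e4 : τ (s * g B) = g (-∑ j, W j * Polynomial.C (y j.castSucc ^ ringChar F ^ b)) +
      g (Z.ss ^ ringChar F ^ b) * (s * g B) := by
    rw [map_neg, e3, map_mul, hτ, hB, map_pow]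
    linear_combination g B * f3
  obtain ⟨A, B', hB0', hB', e5⟩ : ∃ A B' : C[X], B' ≠ 0 ∧ Z.tw 1 B' = B' ∧ s * g B * g B' = g A :=
    S.slog_den hg (Z.fr ^ 1) τ hτ' (hall (s * g B)) e4
  have h3 : ∀ j, ∃ D : F[X], W j * B' = D.map (algebraMap F C) := fun j =>
    Z.tw_fixed _ (by rw [map_mul, hWf, hB'])
  choose D hD using h3
  refine ⟨b, D, A, fun h0 => f1 (funext fun j => ?_), hg ?_⟩
  · have h4 := hD j
    rw [h0, Pi.zero_apply, Polynomial.map_zero] at h4
    have h5 := hW j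
    rw [(mul_eq_zero.1 h4).resolve_right hB0', map_zero] at h5
    exact (mul_eq_zero.1 h5).resolve_right ((map_ne_zero_iff g hg).2 hB0)
  · have e6 : ∑ j, (D j).map (algebraMap F C) * Polynomial.C (y j.castSucc ^ ringChar F ^ b) =
        (∑ j, W j * Polynomial.C (y j.castSucc ^ ringChar F ^ b)) * B' := by
      rw [Finset.sum_mul]
      refine Finset.sum_congr rfl fun j _ => ?_
      rw [← hD]
      ring
    rw [e6, map_add, ← hτ, ← e5, map_mul τ, e4, hτ, hB', map_mul g, map_mul g, ← e5, map_neg]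
    ring

end Pool.Agent.MP_ee2255_nt.T

end

section

/-! From an additive eigenpolynomial to a relation in the Carlitz module. -/

namespace Pool.Agent.MP_ee2255_nt.T

open Polynomial Filter Topology Pool.Agent.MP_655169_nt

theorem TK3_tel {F C : Type*} [Field F] [Fintype F] [Field C] [Algebra F C] (θ : C) {r : ℕ}
    (y : Fin r → C) (d : Fin r → ℕ → F) (a : ℕ → C) (n : ℕ) (h0 : a 0 = 0) (hn : a n = 0)
    (h : ∀ i, ∑ j, d j i • y j = a i - cth F θ (a (i + 1))) {j₀ : Fin r} {i₀ : ℕ} (hi : i₀ < n)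
    (hd : d j₀ i₀ ≠ 0) : Rel F θ y := by
  refine ⟨fun j => ∑ i ∈ Finset.range n, Polynomial.C (d j i) * X ^ i, fun e => hd ?_, ?_⟩
  · have h1 := congrArg (fun f : F[X] => f.coeff i₀) (congrFun e j₀)
    simpa [finsetSum_coeff, coeff_C_mul, coeff_X_pow, hi] using h1
  · simp only [carl_sum_left, carl_mul, carl_C, carl_X_pow]
    rw [Finset.sum_comm]
    have h1 : ∀ i, ∑ j, d j i • (cth F θ ^ i) (y j) =
        (cth F θ ^ i) (a i) - (cth F θ ^ (i + 1)) (a (i + 1)) := fun i => by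
      rw [pow_succ, Module.End.mul_apply, ← map_sub, ← h, map_sum]
      simp only [map_smul]
    simp only [h1]
    rw [Finset.sum_range_sub' (fun i => (cth F θ ^ i) (a i)), h0, hn, map_zero, map_zero, sub_zero]

variable {F C Ω : Type*} [Field F] [Fintype F] [NormedField C] [IsUltrametricDist C]
  [IsAlgClosed C] [Algebra F C] [NormedField Ω] [IsUltrametricDist Ω] [IsAlgClosed Ω]
  [Algebra C Ω] [Algebra F Ω] [IsScalarTower F C Ω] (Z : Sit F C Ω)

theorem rel_of_eq {r : ℕ} (y : Fin r → C) (b : ℕ) (c : Fin r → F[X]) (A : C[X]) (hc : c ≠ 0)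
    (h : Z.tw 1 A + ∑ j, (c j).map (algebraMap F C) * Polynomial.C (y j ^ ringChar F ^ b) =
      Z.ss ^ ringChar F ^ b * A) : Rel F Z.θ y := by
  obtain ⟨p, hp⟩ : ∃ p, p = ringChar F := ⟨_, rfl⟩
  rw [← hp] at h
  have : CharP F p := hp ▸ ringChar.charP F
  have : Fact p.Prime := ⟨CharP.char_is_prime F p⟩
  have : CharP C p := charP_of_injective_algebraMap (algebraMap F C).injective p
  have hP : 0 < p ^ b := pow_pos (Fact.out : p.Prime).pos b
  obtain ⟨j₀, hj₀⟩ := Function.ne_iff.1 hc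
  obtain ⟨i₀, hi₀⟩ : ∃ i, (c j₀).coeff i ≠ 0 := by
    by_contra k
    push Not at k
    exact hj₀ (Polynomial.ext k)
  have hρ : i₀ % p ^ b < p ^ b := Nat.mod_lt _ hP
  obtain ⟨ρ, hρd⟩ : ∃ ρ, ρ = i₀ % p ^ b := ⟨_, rfl⟩
  rw [← hρd] at hρ
  let φ := iterateFrobeniusEquiv C p b
  let ψ := iterateFrobeniusEquiv F p b
  have hφ : ∀ x, φ x = x ^ p ^ b := fun x => rfl
  have hψ : ∀ x, ψ x = x ^ p ^ b := fun x => rfl
  have hs : Z.ss ^ p ^ b = X ^ p ^ b - Polynomial.C (Z.θ ^ p ^ b) := by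
    rw [Sit.ss, sub_pow_char_pow, map_pow]
  have hk : ∀ k, A.coeff k ^ qq F + ∑ j, algebraMap F C ((c j).coeff k) * y j ^ p ^ b =
      (X ^ p ^ b * A).coeff k - Z.θ ^ p ^ b * A.coeff k := fun k => by
    have h1 := congrArg (fun f : C[X] => f.coeff k) h
    simp only [hs, sub_mul, coeff_sub, coeff_add, finsetSum_coeff, coeff_mul_C, coeff_C_mul,
      coeff_map, Sit.tw, coe_mapRingHom, pow_one, Z.fr_eq] at h1
    exact h1
  refine TK3_tel Z.θ y (fun j i => ψ.symm ((c j).coeff (i * p ^ b + ρ)))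
    (fun i => φ.symm ((X ^ p ^ b * A).coeff (i * p ^ b + ρ))) (A.natDegree + i₀ + 2) ?_ ?_
    (fun i => ?_) (j₀ := j₀) (i₀ := i₀ / p ^ b) ?_ ?_
  · rw [zero_mul, zero_add, coeff_X_pow_mul', if_neg hρ.not_ge, map_zero]
  · rw [show (A.natDegree + i₀ + 2) * p ^ b + ρ = (A.natDegree + i₀ + 1) * p ^ b + ρ + p ^ b by
      ring, coeff_X_pow_mul, coeff_eq_zero_of_natDegree_lt, map_zero]
    have := Nat.le_mul_of_pos_right (A.natDegree + i₀ + 1) hP
    omega
  · apply φ.injective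
    rw [show (i + 1) * p ^ b + ρ = i * p ^ b + ρ + p ^ b by ring, coeff_X_pow_mul, cth_apply,
      map_sub, map_add, map_mul, map_pow, RingEquiv.apply_symm_apply, RingEquiv.apply_symm_apply,
      map_sum, hφ Z.θ]
    have h1 : ∀ j, φ (ψ.symm ((c j).coeff (i * p ^ b + ρ)) • y j) =
        algebraMap F C ((c j).coeff (i * p ^ b + ρ)) * y j ^ p ^ b := fun j => by
      rw [Algebra.smul_def, map_mul, hφ, hφ, ← map_pow, ← hψ, RingEquiv.apply_symm_apply]
    simp only [h1]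
    linear_combination hk (i * p ^ b + ρ)
  · have := Nat.div_le_self i₀ (p ^ b)
    omega
  · rw [hρd, Nat.div_add_mod']
    exact fun e => hi₀ ((map_eq_zero_iff _ ψ.symm.injective).1 e)

end Pool.Agent.MP_ee2255_nt.T

end

section

/-! No bounded polynomial is very small. -/

namespace Pool.Agent.MP_ee2255_nt.T

open Polynomial Filter Topology Pool.Agent.MP_655169_nt

variable {F C Ω : Type*} [Field F] [Fintype F] [NormedField C] [IsUltrametricDist C]
  [IsAlgClosed C] [Algebra F C] [NormedField Ω] [IsUltrametricDist Ω] [IsAlgClosed Ω]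
  [Algebra C Ω] [Algebra F Ω] [IsScalarTower F C Ω] (Z : Sit F C Ω)
  {M : ℕ → ℝ} (hM : ∀ ℓ, 1 ≤ M ℓ) (Φ : Fr F Z.θ M)
include hM

theorem cn_big {ι : Type*} {δ : ℕ → ℕ} {Q : ℕ → MvPolynomial ι C[X]} (hδ : Pol δ)
    (h : ∀ᶠ ℓ in UU, BdB (Φ.fl ℓ).B (δ ℓ) (Q ℓ)) : Big M fun ℓ => cn Z (Q ℓ) := by
  choose e j he using fun ℓ => exists_cn Z (Q ℓ)
  exact Big.mono (Eventually.of_forall fun ℓ => (he ℓ).le)
    (Φ.big δ (fun ℓ => ((Q ℓ).coeff (e ℓ)).coeff (j ℓ)) hδ (h.mono fun ℓ k => (k.2 _).2 _))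

theorem cn_low {ι : Type*} {δ : ℕ → ℕ} {Q : ℕ → MvPolynomial ι C[X]} (hδ : Pol δ)
    (h : ∀ᶠ ℓ in UU, Q ℓ ≠ 0 ∧ BdB (Φ.fl ℓ).B (δ ℓ) (Q ℓ)) : Low M fun ℓ => cn Z (Q ℓ) := by
  choose e j he using fun ℓ => exists_cn Z (Q ℓ)
  exact Low.mono (Eventually.of_forall fun ℓ => (he ℓ).ge)
    (Φ.low δ (fun ℓ => ((Q ℓ).coeff (e ℓ)).coeff (j ℓ)) hδ (h.mono fun ℓ k =>
      ⟨(k.2.2 _).2 _, norm_pos_iff.1 (he ℓ ▸ cn_pos Z k.1)⟩))

theorem ns_zero (f : ℕ → Fin 0 → Ω) : NS Z Φ f := by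
  intro δ Q hδ h
  refine Low.mono (Eventually.of_forall fun ℓ => ?_) (cn_low Z hM Φ hδ h)
  rw [MvPolynomial.eq_C_of_isEmpty (Q ℓ), FF_C, MvPolynomial.C_apply, cn_monomial]

theorem ns_big {ι : Type*} {δ : ℕ → ℕ} {Q : ℕ → MvPolynomial ι C[X]} {f : ℕ → ι → Ω}
    {R : ℕ → ℝ} (hR : Big M R) (hf : ∀ᶠ ℓ in UU, 1 ≤ R ℓ ∧ ∀ j, ‖f ℓ j‖ ≤ R ℓ) (hδ : Pol δ)
    (h : ∀ᶠ ℓ in UU, BdB (Φ.fl ℓ).B (δ ℓ) (Q ℓ)) : Big M fun ℓ => ‖Z.FF (f ℓ) (Q ℓ)‖ := by
  have h0 : ∀ᶠ ℓ in UU, 0 ≤ R ℓ := hf.mono fun ℓ k => zero_le_one.trans k.1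
  refine Big.mono ?_ (Big.mul hM (cn_big Z hM Φ hδ h) (Big.pow hM hR h0 hδ)
    (h0.mono fun ℓ k => pow_nonneg k _))
  filter_upwards [hf, h] with ℓ k₁ k₂
  exact FF_le Z (f ℓ) k₁.1 k₁.2 (Q ℓ) k₂.1

theorem ns_step {r : ℕ} {al y : ℕ → Fin (r + 1) → C} {f : ℕ → Fin (r + 1) → Ω}
    (h : Ap Z Φ al y f) (ht : NS Z Φ fun ℓ => Fin.tail (f ℓ)) : NS Z Φ f := by
  intro δ Q hδ hQ
  obtain ⟨δy, hδy, hy⟩ := h.mem
  obtain ⟨η, hη, hnear⟩ := h.near
  obtain ⟨R₀, hR₀, hf₀⟩ := h.big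
  by_contra hn
  rw [not_low] at hn
  obtain ⟨ε, hε, hε'⟩ := exists_eps hM hn (cn_low Z hM Φ hδ hQ) ((Pol.const 2).mul hδ)
  obtain ⟨Qk, hQk⟩ := ev_choose (α := fun ℓ => MvPolynomial (Fin (r + 1)) (Φ.fl ℓ).k[X])
    (p := fun ℓ Qk => Irreducible Qk ∧ BdB (Φ.fl ℓ).B (2 * δ ℓ) (up (Φ.fl ℓ).k Qk) ∧
      ‖Z.FF (f ℓ) (up (Φ.fl ℓ).k Qk)‖ < ε ℓ * cn Z (up (Φ.fl ℓ).k Qk)) (by
    filter_upwards [hQ, hε'] with ℓ a b
    exact exists_irred Z (Φ.fl ℓ) (f ℓ) (Q ℓ) b.1 b.2.1 a.1 a.2 b.2.2)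
  obtain ⟨P, hP⟩ : ∃ P : ℕ → MvPolynomial (Fin (r + 1)) C[X],
      ∀ ℓ, P ℓ = up (Φ.fl ℓ).k (Qk ℓ) := ⟨_, fun _ => rfl⟩
  simp only [← hP] at hQk
  obtain ⟨δ₁, e₁⟩ : ∃ δ₁ : ℕ → ℕ, δ₁ = fun ℓ => 2 * δ ℓ + δy ℓ + 1 := ⟨_, rfl⟩
  obtain ⟨δ₂, e₂⟩ : ∃ δ₂ : ℕ → ℕ, δ₂ = fun ℓ => (qq F + 3) * δ₁ ℓ ^ 2 := ⟨_, rfl⟩
  have p₁ : Pol δ₁ := e₁ ▸ (((Pol.const 2).mul hδ).add hδy).add (Pol.const 1)
  have p₂ : Pol δ₂ := e₂ ▸ (Pol.const _).mul (p₁.pow 2)
  have p₃ : Pol fun ℓ => 4 * δ₂ ℓ ^ 2 := (Pol.const _).mul (p₂.pow 2)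
  have d₁ : ∀ ℓ, 1 ≤ δ₁ ℓ := fun ℓ => by rw [e₁]; exact Nat.le_add_left _ _
  have d₂ : ∀ ℓ, δ₁ ℓ ≤ δ₂ ℓ := fun ℓ => by
    rw [e₂]
    exact (Nat.le_self_pow two_ne_zero _).trans (Nat.le_mul_of_pos_left _ (Nat.succ_pos _))
  obtain ⟨R, hR, hf⟩ : ∃ R, Big M R ∧ ∀ᶠ ℓ in UU, 1 ≤ R ℓ ∧ ∀ j, ‖f ℓ j‖ ≤ R ℓ :=
    ⟨fun ℓ => max (R₀ ℓ) 1, Big.max hM hR₀ (Big.const hM 1),
      hf₀.mono fun ℓ k => ⟨le_max_right _ _, fun j => (k j).trans (le_max_left _ _)⟩⟩
  have R0 : ∀ᶠ ℓ in UU, 0 ≤ R ℓ := hf.mono fun ℓ k => zero_le_one.trans k.1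
  have b₁ : ∀ᶠ ℓ in UU, BdB (Φ.fl ℓ).B (δ₁ ℓ) (P ℓ) := hQk.mono fun ℓ k =>
    BdB.mono (Φ.fl ℓ).flt (by rw [e₁]; dsimp only; omega) k.2.1
  have b₂ : ∀ᶠ ℓ in UU, BdB (Φ.fl ℓ).B (δ₂ ℓ) (Z.sgt (y ℓ) (P ℓ)) := by
    filter_upwards [b₁, hy] with ℓ k₁ k₂
    rw [e₂]
    exact BdB.sgt Z (Φ.fl ℓ).flt (d₁ ℓ)
      (fun j => (Φ.fl ℓ).mono _ _ _ (by rw [e₁]; dsimp only; omega) (k₂ j)) k₁
  have n₁ : ∀ᶠ ℓ in UU, P ℓ ≠ 0 := hQk.mono fun ℓ k => hP ℓ ▸ fac_up_ne _ k.1.ne_zero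
  have c₁ : Big M fun ℓ => cn Z (P ℓ) := cn_big Z hM Φ p₁ b₁
  have s₁ : Sm M fun ℓ => ‖Z.FF (f ℓ) (P ℓ)‖ := Sm.mono (hQk.mono fun ℓ k => k.2.2.le)
    (Sm.mul_big hM hε c₁ (Eventually.of_forall fun ℓ => cn_nonneg Z _))
  have s₂ : Sm M fun ℓ => ‖Z.FF (f ℓ) (Z.sgt (y ℓ) (P ℓ))‖ := by
    have t₁ : ∀ᶠ ℓ in UU, 0 ≤ R ℓ ^ qq F := R0.mono fun ℓ k => pow_nonneg k _
    have t₂ : ∀ᶠ ℓ in UU, 0 ≤ (R ℓ ^ qq F) ^ δ₁ ℓ := t₁.mono fun ℓ k => pow_nonneg k _
    have t₃ := Big.mul hM (Big.pow hM c₁ (Eventually.of_forall fun ℓ => cn_nonneg Z _)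
      (Pol.const (qq F))) (Big.pow hM (Big.pow hM hR R0 (Pol.const (qq F))) t₁ p₁) t₂
    refine Sm.mono ?_ (Sm.max (Sm.pow hM (d := fun _ => qq F) s₁
      (Eventually.of_forall fun ℓ => ⟨norm_nonneg _, Fintype.card_pos⟩))
      (Sm.mul_big hM hη t₃ (t₂.mono fun ℓ k => mul_nonneg (pow_nonneg (cn_nonneg Z _) _) k)))
    filter_upwards [h.sol, hf, hnear, Sm.lt_one hM hη, b₁] with ℓ k₁ k₂ k₃ k₄ k₅
    rw [mul_comm (η ℓ)]
    exact sgt_small Z (f ℓ) (al ℓ) (y ℓ) k₁ k₂.1 ((norm_nonneg _).trans (k₃ 0)) k₄.le k₂.2 k₃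
      (P ℓ) k₅.1
  have alt : ∀ᶠ ℓ in UU, P ℓ ∣ Z.sgt (y ℓ) (P ℓ) ∨ ∃ w : MvPolynomial (Fin r) C[X] ×
      MvPolynomial (Fin (r + 1)) C[X] × MvPolynomial (Fin (r + 1)) C[X],
      (w.1 ≠ 0 ∧ BdB (Φ.fl ℓ).B (4 * δ₂ ℓ ^ 2) w.1) ∧ BdB (Φ.fl ℓ).B (4 * δ₂ ℓ ^ 2) w.2.1 ∧
        BdB (Φ.fl ℓ).B (4 * δ₂ ℓ ^ 2) w.2.2 ∧ MvPolynomial.rename Fin.succ w.1 =
          w.2.1 * P ℓ + w.2.2 * Z.sgt (y ℓ) (P ℓ) := by
    filter_upwards [hQk, b₁, b₂] with ℓ k₁ k₂ k₃
    have k₄ := res_alt (Φ.fl ℓ) ((d₁ ℓ).trans (d₂ ℓ)) (Qk ℓ) k₁.1 _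
      (hP ℓ ▸ BdB.mono (Φ.fl ℓ).flt (d₂ ℓ) k₂) k₃
    rw [← hP] at k₄
    exact k₄.imp id fun ⟨a, b, c, m₁, m₂, m₃⟩ => ⟨(a, b, c), ⟨m₁, m₂⟩, m₃⟩
  rcases ev_or alt with k | k
  · refine h.norel (Φ.mas r δy (fun ℓ => Fin.init (y ℓ)) hδy ?_)
    filter_upwards [k, h.last, n₁, hy, hQk, hε'] with ℓ k₁ k₂ k₃ k₄ k₅ k₆
    refine ⟨fun j => k₄ _, ?_⟩
    rcases ko_eigen Z (y ℓ) k₂.1 (P ℓ) k₃ k₁ with ⟨a, ν, m⟩ | ⟨b, c, A, m₁, m₂⟩
    · refine absurd k₅.2.2 (not_lt.2 ((mul_le_of_le_one_left (cn_nonneg Z _) k₆.2.1).trans ?_))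
      rw [m, FF_mul, FF_C, FF_pow, FF_X, norm_mul, norm_pow,
        MvPolynomial.C_mul_X_pow_eq_monomial, cn_monomial]
      exact le_mul_of_one_le_right (norm_nonneg _) (one_le_pow₀ k₂.2)
    · exact rel_of_eq Z (Fin.init (y ℓ)) b c A m₁ m₂
  · obtain ⟨w, hw⟩ := ev_choose k
    refine Sm.not_low (Sm.mono ?_ (Sm.max
      (Sm.mul_big hM s₁ (ns_big Z hM Φ hR hf p₃ (hw.mono fun ℓ k => k.2.1))
        (Eventually.of_forall fun ℓ => norm_nonneg _))
      (Sm.mul_big hM s₂ (ns_big Z hM Φ hR hf p₃ (hw.mono fun ℓ k => k.2.2.1))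
        (Eventually.of_forall fun ℓ => norm_nonneg _))))
      (ht _ (fun ℓ => (w ℓ).1) p₃ (hw.mono fun ℓ k => k.1))
    filter_upwards [hw] with ℓ k₁
    have k₂ := FF_rename Z Fin.succ (f ℓ) (w ℓ).1
    rw [k₁.2.2.2, FF_add, FF_mul, FF_mul] at k₂
    rw [← norm_mul, ← norm_mul, mul_comm, mul_comm (Z.FF (f ℓ) (Z.sgt _ _))]
    exact (congrArg norm k₂).ge.trans (IsUltrametricDist.norm_add_le_max _ _)

theorem ns_all (r : ℕ) : ∀ {al y : ℕ → Fin (r + 1) → C} {f : ℕ → Fin (r + 1) → Ω},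
    Ap Z Φ al y f → NS Z Φ f := by
  induction r with
  | zero => exact fun h => ns_step Z hM Φ h (ns_zero Z hM Φ _)
  | succ r ih =>
    intro al y f h
    obtain ⟨δy, hδy, hy⟩ := h.mem
    obtain ⟨η, hη, hnear⟩ := h.near
    obtain ⟨R, hR, hf⟩ := h.big
    refine ns_step Z hM Φ h (ih (al := fun ℓ => Fin.tail (al ℓ)) (y := fun ℓ => Fin.tail (y ℓ))
      ⟨h.sol.mono fun ℓ k j => k _, ⟨δy, hδy, hy.mono fun ℓ k j => k _⟩,
        ⟨η, hη, hnear.mono fun ℓ k j => k _⟩, ⟨R, hR, hf.mono fun ℓ k j => k _⟩,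
        h.last.mono fun ℓ k => k, fun ⟨n, hn, k⟩ => h.norel ⟨n, hn, k.mono ?_⟩⟩)
    rintro ℓ ⟨c, c₁, c₂, c₃⟩
    refine ⟨Fin.cons 0 c, fun e => c₁ (funext fun j => congrFun e j.succ),
      fun j => Fin.cases (by simp) c₂ j, ?_⟩
    rw [Fin.sum_univ_succ, Fin.cons_zero, carl, map_zero, LinearMap.zero_apply, zero_add]
    exact c₃

end Pool.Agent.MP_ee2255_nt.T

end

section

set_option linter.unusedSectionVars false

namespace Pool.Agent.MP_655169_nt

open Polynomial Filter Topology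

variable {F C Ω : Type*} [Field F] [Fintype F] [NormedField C] [IsUltrametricDist C]
  [IsAlgClosed C] [Algebra F C] [NormedField Ω] [IsUltrametricDist Ω] [IsAlgClosed Ω]
  [Algebra C Ω] [Algebra F Ω] [IsScalarTower F C Ω] (Z : Sit F C Ω)

section

variable {ι W : Type*} [Fintype W] {T : ℕ}

open Classical in
theorem siegel1_coeff (a : Fin (T + 1) × W → F) (cw : W → C) (ew : W → ι →₀ ℕ) (e : ι →₀ ℕ) :
    (aux a cw ew).coeff e = ∑ x : Fin (T + 1) × W,
      if ew x.2 = e then Polynomial.monomial x.1 (algebraMap F C (a x) * cw x.2) else 0 := by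
  simp only [aux, MvPolynomial.coeff_sum, MvPolynomial.coeff_monomial]

open Classical in
theorem siegel1_coeff2 (a : Fin (T + 1) × W → F) (cw : W → C) (ew : W → ι →₀ ℕ) (e : ι →₀ ℕ)
    (j : ℕ) : ((aux a cw ew).coeff e).coeff j = ∑ x : Fin (T + 1) × W,
      if ew x.2 = e ∧ (x.1 : ℕ) = j then algebraMap F C (a x) * cw x.2 else 0 := by
  rw [siegel1_coeff, finsetSum_coeff]
  refine Finset.sum_congr rfl fun x _ => ?_
  by_cases h : ew x.2 = e
  · simp only [h, if_true, true_and, coeff_monomial]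
  · simp only [h, if_false, false_and, coeff_zero]

theorem siegel1_prod {κ : Type*} (y : κ → C) (z : ι → C) (Q : ℕ) (hz : ∀ i, z i ∈ Vs F y Q)
    (e : ι →₀ ℕ) : (e.prod fun i k => z i ^ k) ∈ Vs F y (e.degree * Q) := by
  have h := Vs_aeval y z Q hz (MvPolynomial.monomial e 1) e.degree
    (MvPolynomial.totalDegree_monomial_le _ _)
  rwa [MvPolynomial.aeval_monomial, map_one, one_mul, mul_comm] at h

theorem aux_bd (a : Fin (T + 1) × W → F) (cw : W → C) (ew : W → ι →₀ ℕ) (D : ℕ) (A : ℝ)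
    (hc : ∀ w, ‖cw w‖ ≤ Real.exp A) (he : ∀ w, (ew w).degree ≤ D) : Bd (aux a cw ew) D T A := by
  classical
  refine ⟨?_, fun e => ?_, fun e j => ?_⟩
  · exact MvPolynomial.totalDegree_finsetSum_le fun x _ =>
      (MvPolynomial.totalDegree_monomial_le _ _).trans (he x.2)
  · rw [siegel1_coeff]
    refine natDegree_sum_le_of_forall_le _ _ fun x _ => ?_
    split_ifs
    · exact (natDegree_monomial_le _).trans (Nat.lt_succ_iff.1 x.1.2)
    · simp
  · rw [siegel1_coeff2]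
    refine IsUltrametricDist.norm_sum_le_of_forall_le_of_nonneg (Real.exp_pos A).le fun x _ => ?_
    split_ifs
    · rw [norm_mul]
      exact (mul_le_of_le_one_left (norm_nonneg _) (norm_F_le _)).trans (hc _)
    · rw [norm_zero]
      exact (Real.exp_pos A).le

theorem aux_mem (E : Subfield C) (hF : ∀ a : F, algebraMap F C a ∈ E) (a : Fin (T + 1) × W → F)
    (cw : W → C) (ew : W → ι →₀ ℕ) (hc : ∀ w, cw w ∈ E) (e : ι →₀ ℕ) (j : ℕ) :
    ((aux a cw ew).coeff e).coeff j ∈ E := by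
  rw [siegel1_coeff2]
  refine sum_mem fun x _ => ?_
  split_ifs
  exacts [mul_mem (hF _) (hc _), zero_mem _]

theorem aux_ne {W₁ W₂ : Type*} [Fintype W₁] [Fintype W₂] (a : Fin (T + 1) × (W₁ × W₂) → F)
    (ha : a ≠ 0) (c₁ : W₁ → C) (hc : LinearIndependent F c₁) (e₂ : W₂ → ι →₀ ℕ)
    (he : Function.Injective e₂) : aux a (fun w => c₁ w.1) (fun w => e₂ w.2) ≠ 0 := by
  classical
  refine fun h => ha (funext fun ⟨s, w₁, w₂⟩ => ?_)
  have h1 := siegel1_coeff2 a (fun w => c₁ w.1) (fun w => e₂ w.2) (e₂ w₂) s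
  rw [h, MvPolynomial.coeff_zero, coeff_zero, Fintype.sum_prod_type, Finset.sum_eq_single s
    (fun b _ hb => Finset.sum_eq_zero fun w _ => if_neg fun h' => hb (Fin.ext h'.2)) (by simp),
    Fintype.sum_prod_type] at h1
  refine Fintype.linearIndependent_iff.1 hc (fun w => a (s, w, w₂)) ?_ w₁
  rw [h1]
  refine Finset.sum_congr rfl fun w _ => ?_
  rw [Finset.sum_eq_single w₂ (fun b _ hb => if_neg fun h' => hb (he h'.1)) (by simp),
    if_pos ⟨rfl, rfl⟩, Algebra.smul_def]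

theorem Sit.aux_FF (f : ι → Ω) (a : Fin (T + 1) × W → F) (cw : W → C) (ew : W → ι →₀ ℕ) :
    Z.FF f (aux a cw ew) = ∑ x : Fin (T + 1) × W, algebraMap F Ω (a x) * algebraMap C Ω (cw x.2) *
      Z.t ^ (x.1 : ℕ) * (ew x.2).prod fun i k => f i ^ k := by
  rw [Sit.FF, aux, MvPolynomial.eval₂_sum]
  refine Finset.sum_congr rfl fun x _ => ?_
  rw [MvPolynomial.eval₂_monomial, IsScalarTower.algebraMap_apply F C Ω, ← map_mul,
    ← aeval_monomial]
  rfl

theorem Sit.aux_VV {κ : Type*} (y : κ → C) (u al : ι → C) (hθ : Z.θ ∈ Vs F y 1)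
    (hu : ∀ i, u i ∈ Vs F y 1) (hal : ∀ i, al i ∈ Vs F y 1) (a : Fin (T + 1) × W → F)
    (cw : W → C) (ew : W → ι →₀ ℕ) (Dc D : ℕ) (hc : ∀ w, cw w ∈ Vs F y Dc)
    (he : ∀ w, (ew w).degree ≤ D) (n : ℕ) :
    Z.VV u al n (aux a cw ew) ∈ Vs F y (T + (Dc + D) * qq F ^ (n + 1)) := by
  rw [Sit.VV, aux, MvPolynomial.eval₂_sum]
  refine Submodule.sum_mem _ fun x _ => ?_
  rw [MvPolynomial.eval₂_monomial, ← C_mul_X_pow_eq_monomial, map_mul, map_pow, Z.evt_C, Z.evt_X,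
    mul_pow, ← Z.fr_pow, Z.fr_F]
  refine Vs_mono y ?_ (Vs_mul y (Vs_mul y (Vs_mul y (Vs_const y (a x) 0) (Vs_pow y (hc x.2) _))
    (Vs_pow y hθ x.1)) (siegel1_prod y _ _
      (fun i => Vs_ph y _ two_le_qq hθ (hu i) (hal i) n) (ew x.2)))
  have h1 := Nat.mul_le_mul_right (qq F ^ (n + 1)) (he x.2)
  have h2 := x.1.2
  rw [add_mul]
  omega

end

end Pool.Agent.MP_655169_nt

end

section

/-! Sizes of generating functions. -/

set_option linter.unusedSectionVars false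

namespace Pool.Agent.MP_ee2255_nt.T

open Polynomial Filter Topology Pool.Agent.MP_655169_nt

variable {F C Ω : Type*} [Field F] [Fintype F] [NormedField C] [IsUltrametricDist C]
  [IsAlgClosed C] [Algebra F C] [NormedField Ω] [IsUltrametricDist Ω] [IsAlgClosed Ω]
  [Algebra C Ω] [Algebra F Ω] [IsScalarTower F C Ω] (Z : Sit F C Ω)

theorem tagf_norm (u : C) (i : ℕ) : ‖Z.ee u i‖ = (‖u‖ / ‖Z.θ‖ ^ i) ^ qq F ^ i := by
  rw [Sit.ee, norm_div, norm_carlitzD _ two_le_qq _ Z.hθ, norm_pow, pow_mul, div_pow]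

theorem tagf_le {u : C} {n : ℕ} (hn : ‖u‖ ≤ ‖Z.θ‖ ^ n) (i : ℕ) :
    ‖Z.ee u i‖ ≤ ‖Z.θ‖ ^ (n * qq F ^ n) := by
  have h0 : 0 < ‖Z.θ‖ := one_pos.trans Z.hθ
  rw [tagf_norm]
  rcases le_total n i with h | h
  · exact (pow_le_one₀ (by positivity) ((div_le_one (by positivity)).2
      (hn.trans (pow_le_pow_right₀ Z.hθ.le h)))).trans (one_le_pow₀ Z.hθ.le)
  · refine (pow_le_pow_left₀ (by positivity)
      ((div_le_self (norm_nonneg _) (one_le_pow₀ Z.hθ.le)).trans hn) _).trans ?_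
    rw [← pow_mul]
    exact pow_le_pow_right₀ Z.hθ.le
      (Nat.mul_le_mul_left _ (Nat.pow_le_pow_right Fintype.card_pos h))

theorem agf_size {u al : C} {f : Ω} (h : Z.Agf u al f) {n : ℕ} (hn : ‖u‖ ≤ ‖Z.θ‖ ^ n) :
    ‖al‖ ≤ ‖Z.θ‖ ^ (n * qq F ^ n) ∧ ‖f‖ ≤ ‖Z.θ‖ ^ (n * qq F ^ n) ∧
      (∀ m, ‖Z.fm u m‖ ≤ ‖Z.θ‖ ^ (n * qq F ^ n)) ∧
      (∀ k m, ‖Z.phm u k m‖ ≤ (‖Z.θ‖ ^ (n * qq F ^ n)) ^ qq F ^ (k + 1)) ∧
      ∀ k, ‖ph (qq F) Z.θ u al k‖ ≤ (‖Z.θ‖ ^ (n * qq F ^ n)) ^ qq F ^ (k + 1) := by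
  have h0 : (0 : ℝ) ≤ ‖Z.θ‖ ^ (n * qq F ^ n) := by positivity
  have h1 : ∀ j, ‖Z.ee u j‖ / ‖Z.θ‖ ^ qq F ^ j ≤ ‖Z.θ‖ ^ (n * qq F ^ n) := fun j =>
    (div_le_self (norm_nonneg _) (Z.basic_one_le j)).trans (tagf_le Z hn j)
  refine ⟨?_, ?_, fun m => ?_, fun k m => ?_, fun k => ?_⟩
  · simpa using basic_tail _ _ h.hs.tendsto_sum_nat 0 _ h0 fun j _ => tagf_le Z hn j
  · simpa using basic_tail _ _ h.lim 0 _ h0 fun j _ => (Z.basic_t1 _ j).trans_le (h1 j)
  · exact IsUltrametricDist.norm_sum_le_of_forall_le_of_nonneg h0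
      fun j _ => (Z.basic_t1 _ j).trans_le (h1 j)
  · exact IsUltrametricDist.norm_sum_le_of_forall_le_of_nonneg (by positivity)
      fun j _ => (Z.basic_t2 _ k j).trans_le (pow_le_pow_left₀ (by positivity) (h1 j) _)
  · simpa using basic_tail _ _ (Z.phm_lim h.hs k) 0
      ((‖Z.θ‖ ^ (n * qq F ^ n)) ^ qq F ^ (k + 1)) (by positivity)
      fun j _ => (Z.basic_t2 _ k j).trans_le (pow_le_pow_left₀ (by positivity) (h1 j) _)

theorem tagf_exp {a x t : ℝ} (ht : 1 < t) (h0 : 0 ≤ x) (h1 : a ≤ t⁻¹) (h2 : a ≤ x) :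
    a ≤ Real.exp (-(min 1 (Real.log t) * max 1 (-Real.log x))) := by
  rcases le_total 1 (-Real.log x) with h | h
  · have hx : 0 < x := h0.lt_of_ne (by
      rintro rfl
      norm_num at h)
    rw [max_eq_right h]
    refine h2.trans ((Real.exp_log hx).symm.trans_le (Real.exp_le_exp.2 ?_))
    nlinarith [min_le_left 1 (Real.log t)]
  · rw [max_eq_left h, mul_one]
    refine h1.trans ?_
    rw [← Real.exp_log (one_pos.trans ht), ← Real.exp_neg, Real.log_exp]
    exact Real.exp_le_exp.2 (neg_le_neg (min_le_right _ _))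

theorem agf_tail {u al : C} {f : Ω} (h : Z.Agf u al f) {n m : ℕ} (hn : ‖u‖ ≤ ‖Z.θ‖ ^ n)
    (hm : n ≤ m) :
    ‖f - Z.fm u m‖ ≤
        Real.exp (-(min 1 (Real.log ‖Z.θ‖) * max 1 (-Real.log ‖u‖) * (qq F : ℝ) ^ m)) ∧
      ∀ k, ‖ph (qq F) Z.θ u al k - Z.phm u k m‖ ≤
        Real.exp (-(min 1 (Real.log ‖Z.θ‖) * max 1 (-Real.log ‖u‖) * (qq F : ℝ) ^ m)) ^
          qq F ^ (k + 1) := by
  have h0 : 0 < ‖Z.θ‖ := one_pos.trans Z.hθ
  have h1 : ∀ j, m ≤ j → ‖Z.ee u j‖ / ‖Z.θ‖ ^ qq F ^ j ≤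
      Real.exp (-(min 1 (Real.log ‖Z.θ‖) * max 1 (-Real.log ‖u‖) * (qq F : ℝ) ^ m)) := by
    intro j hj
    have h2 : ‖u‖ / ‖Z.θ‖ ^ j / ‖Z.θ‖ ≤ _ := tagf_exp Z.hθ (norm_nonneg u) (by
      rw [← one_div]
      exact div_le_div_of_nonneg_right ((div_le_one (by positivity)).2
        (hn.trans (pow_le_pow_right₀ Z.hθ.le (hm.trans hj)))) h0.le)
      ((div_le_self (by positivity) Z.hθ.le).trans
        (div_le_self (norm_nonneg _) (one_le_pow₀ Z.hθ.le)))
    have h3 : 0 ≤ min 1 (Real.log ‖Z.θ‖) * max 1 (-Real.log ‖u‖) :=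
      mul_nonneg (le_min zero_le_one (Real.log_nonneg Z.hθ.le))
        (zero_le_one.trans (le_max_left _ _))
    rw [tagf_norm, ← div_pow, ← neg_mul, ← Nat.cast_pow, mul_comm, Real.exp_nat_mul]
    exact (pow_le_pow_left₀ (by positivity) h2 _).trans (pow_le_pow_of_le_one (Real.exp_pos _).le
      (Real.exp_le_one_iff.2 (neg_nonpos.2 h3)) (Nat.pow_le_pow_right Fintype.card_pos hj))
  exact ⟨basic_tail _ _ h.lim m _ (Real.exp_pos _).le
      fun j hj => (Z.basic_t1 _ j).trans_le (h1 j hj),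
    fun k => basic_tail _ _ (Z.phm_lim h.hs k) m _ (by positivity)
      fun j hj => (Z.basic_t2 _ k j).trans_le (pow_le_pow_left₀ (by positivity) (h1 j hj) _)⟩

theorem tagf_ph {κ : Type*} (y : κ → C) (q : ℕ) (hq : 2 ≤ q) {θ u al : C} {δ : ℕ} (hδ : 1 ≤ δ)
    (hθ : θ ∈ Vs F y 1) (hu : u ∈ Vs F y δ) (hal : al ∈ Vs F y δ) (n : ℕ) :
    ph q θ u al n ∈ Vs F y (δ * q ^ (n + 1)) := by
  induction n with
  | zero =>
    exact Vs_mono y (Nat.le_mul_of_pos_right _ (by positivity)) (Submodule.sub_mem _ hal hu)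
  | succ n ih =>
    have h1 : 1 ≤ q ^ (n + 1) := Nat.one_le_pow _ _ (by omega)
    have h2 : δ * q ^ (n + 1) + δ * q ^ (n + 1) ≤ δ * q ^ (n + 1 + 1) := by
      rw [pow_succ q (n + 1), ← mul_assoc, ← mul_two]
      exact Nat.mul_le_mul_left _ hq
    have h3 : q ^ (n + 1) ≤ δ * q ^ (n + 1) := Nat.le_mul_of_pos_left _ hδ
    refine Submodule.add_mem _ (Vs_mono y (by omega) (Vs_pow y hal _)) (Vs_mono y h2 ?_)
    exact Vs_mul y (Submodule.sub_mem _ (Vs_mono y (by omega) hθ)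
      (Vs_mono y (by omega) (Vs_pow y hθ _))) ih

/-- Exponent vectors in a box. -/
noncomputable def tagfE {r D : ℕ} (w : Fin r → Fin (D + 1)) : Fin r →₀ ℕ :=
  Finsupp.equivFunOnFinite.symm fun i => (w i : ℕ)

theorem tagf_inj {r D : ℕ} : Function.Injective (tagfE (r := r) (D := D)) := fun _ _ h =>
  funext fun i => Fin.ext (DFunLike.congr_fun h i)

theorem tagf_deg {r D : ℕ} (w : Fin r → Fin (D + 1)) : (tagfE w).degree ≤ r * D := by
  rw [Finsupp.degree_eq_sum]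
  simpa using Finset.sum_le_card_nsmul Finset.univ (tagfE w) D fun i _ => Nat.lt_succ_iff.1 (w i).2

theorem count {κ : Type*} [Finite κ] (ω : κ → C) {c d r δ D k : ℕ} (hg : Grow F ω c d)
    (hr : Rk F ω d) (hθ : Z.θ ∈ Vs F ω 1) (u al : Fin r → C) (hδ : 1 ≤ δ)
    (hu : ∀ j, u j ∈ Vs F ω δ ∧ al j ∈ Vs F ω δ)
    (h : c * ((d + r + 1) * D * qq F ^ (k + 1) * δ + 1) ^ d < (D + 1) ^ (d + r + 1)) :
    ∃ P : MvPolynomial (Fin r) C[X], P ≠ 0 ∧ P.totalDegree ≤ r * D ∧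
      (∀ e, (P.coeff e).natDegree ≤ D ∧ ∀ j, (P.coeff e).coeff j ∈ Vs F ω (d * D)) ∧
      Z.VV u al k P = 0 := by
  classical
  obtain ⟨e, he⟩ := hr
  let c₁ : (Fin d → Fin (D + 1)) → C := fun w =>
    MvPolynomial.aeval (ω ∘ e) (MvPolynomial.monomial (tagfE w) (1 : F))
  have hli : LinearIndependent F c₁ :=
    (((MvPolynomial.basisMonomials (Fin d) F).linearIndependent.comp _ tagf_inj).map'
      (MvPolynomial.aeval (ω ∘ e)).toLinearMap (LinearMap.ker_eq_bot.2 he) :)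
  have hc : ∀ w, c₁ w ∈ Vs F ω (d * D) := fun w => by
    simpa using Vs_aeval ω (ω ∘ e) 1 (fun i => Vs_var ω (e i)) _ (d * D)
      ((MvPolynomial.totalDegree_monomial_le (tagfE w) (1 : F)).trans (tagf_deg w))
  let g : Fin (D + 1) × ((Fin d → Fin (D + 1)) × (Fin r → Fin (D + 1))) →
      Vs F ω ((d + r + 1) * D * qq F ^ (k + 1) * δ) := fun x =>
    ⟨c₁ x.2.1 ^ qq F ^ (k + 1) * Z.θ ^ (x.1 : ℕ) *
      (tagfE x.2.2).prod fun i n => ph (qq F) Z.θ (u i) (al i) k ^ n, by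
      refine Vs_mono ω ?_ (Vs_mul ω (Vs_mul ω (Vs_pow ω (hc _) _) (Vs_pow ω hθ _))
        (siegel1_prod ω _ _ (fun i => tagf_ph ω _ two_le_qq hδ hθ (hu i).1 (hu i).2 k) _))
      have h1 := Nat.mul_le_mul_right (δ * qq F ^ (k + 1)) (tagf_deg x.2.2)
      have h2 := Nat.lt_succ_iff.1 x.1.2
      have h3 : d * D * qq F ^ (k + 1) ≤ d * D * qq F ^ (k + 1) * δ :=
        Nat.le_mul_of_pos_right _ hδ
      have h4 : D ≤ D * (qq F ^ (k + 1) * δ) :=
        Nat.le_mul_of_pos_right _ (Nat.mul_pos (pow_pos Fintype.card_pos _) hδ)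
      nlinarith⟩
  have hn : ¬ LinearIndependent F g := fun hl => by
    have h1 := hl.fintype_card_le_finrank.trans (hg _)
    simp only [Fintype.card_prod, Fintype.card_fun, Fintype.card_fin] at h1
    rw [← pow_add, ← pow_succ'] at h1
    omega
  obtain ⟨a, ha, i, hi⟩ := Fintype.not_linearIndependent_iff.1 hn
  refine ⟨aux a (fun w => c₁ w.1) fun w => tagfE w.2,
    aux_ne a (fun h0 => hi (congrFun h0 i)) c₁ hli _ tagf_inj, ?_, fun e' => ⟨?_, fun j => ?_⟩, ?_⟩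
  · exact MvPolynomial.totalDegree_finsetSum_le fun x _ =>
      (MvPolynomial.totalDegree_monomial_le _ _).trans (tagf_deg x.2.2)
  · rw [siegel1_coeff]
    refine natDegree_sum_le_of_forall_le _ _ fun x _ => ?_
    split_ifs
    · exact (natDegree_monomial_le _).trans (Nat.lt_succ_iff.1 x.1.2)
    · simp
  · rw [siegel1_coeff2]
    refine sum_mem fun x _ => ?_
    split_ifs
    · rw [← Algebra.smul_def]
      exact Submodule.smul_mem _ _ (hc _)
    · exact zero_mem _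
  · have h1 := congrArg Subtype.val ha
    rw [Submodule.coe_sum] at h1
    rw [Sit.VV, aux, MvPolynomial.eval₂_sum]
    refine (Finset.sum_congr rfl fun x _ => ?_).trans h1
    rw [MvPolynomial.eval₂_monomial, ← C_mul_X_pow_eq_monomial, map_mul, map_pow, Z.evt_C, Z.evt_X,
      mul_pow, ← Z.fr_pow, Z.fr_F, Submodule.coe_smul, Algebra.smul_def, mul_assoc, mul_assoc,
      ← mul_assoc (_ ^ _)]

end Pool.Agent.MP_ee2255_nt.T

end

section

/-! The measure lemma. -/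

set_option linter.unusedSectionVars false

namespace Pool.Agent.MP_ee2255_nt.T

open Polynomial Filter Topology Pool.Agent.MP_655169_nt

variable {F E C Ω : Type*} [Field F] [Fintype F] [Field E] [Infinite E] [NormedField C]
  [IsUltrametricDist C] [IsAlgClosed C] [Algebra F C] [Algebra E C] [Algebra F E]
  [IsScalarTower F E C] [NormedField Ω] [IsUltrametricDist Ω] [IsAlgClosed Ω]
  [Algebra C Ω] [Algebra F Ω] [IsScalarTower F C Ω] (X : Ctx F E C Ω)

theorem tml3_pt {θ : C} (L : Fl F θ) {r δ : ℕ} {B : ℕ → Submodule F C}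
    {P : MvPolynomial (Fin r) C[X]} (hP : BdB B δ P) {p : C} (hp : p ≠ 0)
    (hp' : ∃ e j, (P.coeff e).coeff j = p) {S : Finset C}
    (hS : ∀ e j, (P.coeff e).coeff j ≠ 0 → p⁻¹ * (P.coeff e).coeff j ∈ S) (φ : C →ₗ[E] C)
    (h1 : φ 1 = 1) {η : ℝ} (h0 : 0 ≤ η) (hφ : ∀ s ∈ S, φ s ∈ L.B 1 ∧ ‖s - φ s‖ ≤ η)
    (f : Fin r → Ω) {R : ℝ} (hR : 1 ≤ R) (hf : ∀ j, ‖f j‖ ≤ R) :
    ∃ Q : MvPolynomial (Fin r) C[X], (Q ≠ 0 ∧ BdB L.B (δ + 1) Q) ∧
      (η * R ^ δ < ‖X.Z.FF f Q‖ → ‖X.Z.FF f Q‖ ≤ ‖X.Z.FF f P‖ / ‖p‖) := by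
  obtain ⟨P', hP'⟩ : ∃ P' : MvPolynomial (Fin r) C[X],
      P' = MvPolynomial.C (Polynomial.C p⁻¹) * P := ⟨_, rfl⟩
  have c1 : ∀ e, P'.coeff e = Polynomial.C p⁻¹ * P.coeff e := fun e => by
    rw [hP', MvPolynomial.coeff_C_mul]
  have c2 : ∀ e j, (P'.coeff e).coeff j = p⁻¹ * (P.coeff e).coeff j := fun e j => by
    rw [c1, coeff_C_mul]
  have c3 : P'.totalDegree ≤ δ := by
    rw [hP']
    refine (MvPolynomial.totalDegree_mul _ _).trans ?_
    rw [MvPolynomial.totalDegree_C, zero_add]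
    exact hP.1
  obtain ⟨Q, q1, q2⟩ := exists_mapc φ (map_zero φ) P'
  refine ⟨Q, ⟨?_, (q1.trans c3).trans (Nat.le_succ _), fun e => ⟨?_, fun j => ?_⟩⟩, fun hlt => ?_⟩
  · obtain ⟨e, j, he⟩ := hp'
    intro hQ
    have := (q2 e).2 j
    rw [hQ, c2, he, inv_mul_cancel₀ hp, h1] at this
    simp at this
  · refine (q2 e).1.trans ?_
    rw [c1]
    exact (natDegree_C_mul_le _ _).trans ((hP.2 e).1.trans (Nat.le_succ _))
  · rw [(q2 e).2 j, c2]
    by_cases h : (P.coeff e).coeff j = 0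
    · rw [h, mul_zero, map_zero]
      exact Submodule.zero_mem _
    · exact L.mono _ _ _ (Nat.le_add_left _ _) (hφ _ (hS e j h)).1
  · have d1 : cn X.Z (P' - Q) ≤ η := cn_le X.Z _ fun e j => by
      rw [MvPolynomial.coeff_sub, coeff_sub, (q2 e).2 j, c2]
      by_cases h : (P.coeff e).coeff j = 0
      · rw [h, mul_zero, map_zero, sub_zero, norm_zero]
        exact h0
      · exact (hφ _ (hS e j h)).2
    have d2 : ‖X.Z.FF f (P' - Q)‖ ≤ η * R ^ δ :=
      (FF_le X.Z f hR hf _ ((MvPolynomial.totalDegree_sub _ _).trans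
        (max_le c3 (q1.trans c3)))).trans
        (mul_le_mul_of_nonneg_right d1 (pow_nonneg (zero_le_one.trans hR) _))
    have d3 : ‖X.Z.FF f P'‖ = ‖X.Z.FF f P‖ / ‖p‖ := by
      rw [hP', FF_mul, FF_C, aeval_C, norm_mul, X.Z.norm_alg, norm_inv, div_eq_inv_mul]
    have d4 : X.Z.FF f Q = X.Z.FF f P' + -X.Z.FF f (P' - Q) := by
      rw [FF_sub]
      ring
    have d5 := IsUltrametricDist.norm_add_le_max (X.Z.FF f P') (-X.Z.FF f (P' - Q))
    rw [← d4, norm_neg, d3] at d5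
    rcases le_max_iff.1 d5 with h | h
    · exact h
    · exact absurd (h.trans d2) (not_le.2 hlt)

theorem ml {r : ℕ} {u al : ℕ → Fin (r + 1) → C} {f : ℕ → Fin (r + 1) → Ω} (hF : Fam X u al f)
    {M : ℕ → ℝ} (hM : ∀ ℓ, 1 ≤ M ℓ) (hL : HL F X.Z.θ M u) {δ : ℕ → ℕ} (hδ : Pol δ)
    {P : ℕ → MvPolynomial (Fin (r + 1)) C[X]}
    (hP : ∀ᶠ ℓ in UU, P ℓ ≠ 0 ∧ BdB (Vs F X.ω) (δ ℓ) (P ℓ)) :
    Low M fun ℓ => ‖X.Z.FF (f ℓ) (P ℓ)‖ / cn X.Z (P ℓ) := by
  obtain ⟨δ', hδ', hdeg⟩ := hF.deg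
  obtain ⟨n, hn, hsz⟩ := hF.size
  obtain ⟨R, hRd⟩ : ∃ R : ℕ → ℝ,
      R = fun ℓ => max (∑ i, ‖X.ω i‖) (‖X.Z.θ‖ ^ (n ℓ * qq F ^ n ℓ)) := ⟨_, rfl⟩
  have hR : Big M R := hRd ▸ Big.max hM (Big.const hM _)
    (Big.pow hM (Big.const hM _) (Eventually.of_forall fun _ => norm_nonneg _)
      (hn.pol.mul (hn.pow_pol _)))
  have r1 : ∀ ℓ, 1 ≤ R ℓ := fun ℓ => by
    rw [hRd]
    exact (one_le_pow₀ X.Z.hθ.le).trans (le_max_right _ _)
  have r2 : ∀ ℓ i, ‖X.ω i‖ ≤ R ℓ := fun ℓ i => by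
    rw [hRd]
    exact (Finset.single_le_sum (f := fun i => ‖X.ω i‖) (fun _ _ => norm_nonneg _)
      (Finset.mem_univ i)).trans (le_max_left _ _)
  have r3 : ∀ᶠ ℓ in UU, ∀ j, ‖al ℓ j‖ ≤ R ℓ ∧ ‖f ℓ j‖ ≤ R ℓ := by
    filter_upwards [hF.agf, hsz] with ℓ k₁ k₂ j
    have := agf_size X.Z (k₁ j) (k₂ j)
    rw [hRd]
    exact ⟨this.1.trans (le_max_right _ _), this.2.1.trans (le_max_right _ _)⟩
  have h1 : ∀ᶠ ℓ in UU, ∃ x : C × Finset C, x.1 ≠ 0 ∧ ‖x.1‖ = cn X.Z (P ℓ) ∧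
      (∃ e j, ((P ℓ).coeff e).coeff j = x.1) ∧ X.Z.θ ∈ x.2 ∧ 1 ∈ x.2 ∧ (∀ j, al ℓ j ∈ x.2) ∧
      (∀ e j, ((P ℓ).coeff e).coeff j ≠ 0 → x.1⁻¹ * ((P ℓ).coeff e).coeff j ∈ x.2) ∧
      x.2.card ≤ (δ ℓ + 1) ^ (r + 1 + 1) + X.ν + (r + 1) + 1 ∧
      Grow E (Subtype.val : x.2 → C) (X.c0 * (δ ℓ + δ' ℓ + 1) ^ X.d) X.d ∧
      Rk E (Subtype.val : x.2 → C) X.d ∧ ∀ s ∈ x.2, ‖s‖ ≤ R ℓ := by
    filter_upwards [hP, hdeg, r3] with ℓ k₁ k₂ k₃
    obtain ⟨p, S, h⟩ := exists_S X (P ℓ) k₁.1 k₁.2 (al ℓ) (fun j => (k₂ j).2) (r2 ℓ)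
      fun j => (k₃ j).1
    exact ⟨(p, S), h⟩
  obtain ⟨x, hx⟩ := ev_choose h1
  obtain ⟨Φ, φ, η, hη, hφ⟩ := alu (F := F) X.hE X.Z.hθ hM (fun ℓ => (x ℓ).2)
    (c := fun ℓ => (δ ℓ + 1) ^ (r + 1 + 1) + (X.ν + (r + 1) + 1) + X.c0 * (δ ℓ + δ' ℓ + 1) ^ X.d)
    ((((hδ.add (Pol.const 1)).pow _).add (Pol.const _)).add
      ((Pol.const _).mul (((hδ.add hδ').add (Pol.const 1)).pow _))) X.d hR (by
      filter_upwards [hx] with ℓ ⟨_, _, _, k₁, _, _, _, k₂, k₃, k₄, k₅⟩
      exact ⟨k₁, by omega, fun N => (k₃ N).trans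
        (Nat.mul_le_mul_right _ (Nat.le_add_left _ _)), k₄, k₅⟩)
  have near : ∀ᶠ ℓ in UU, ∀ j, ‖al ℓ j - φ ℓ (al ℓ j)‖ ≤ η ℓ := by
    filter_upwards [hx, hφ] with ℓ k₁ k₂ j
    exact (k₂.2 _ (k₁.2.2.2.2.2.1 j)).2
  have ap : Ap X.Z Φ al (fun ℓ j => φ ℓ (al ℓ j)) f :=
    { sol := hF.agf.mono fun ℓ k j => (k j).sol
      mem := ⟨fun _ => 1, Pol.const 1, by
        filter_upwards [hx, hφ] with ℓ k₁ k₂ j
        exact (k₂.2 _ (k₁.2.2.2.2.2.1 j)).1⟩
      near := ⟨η, hη, near⟩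
      big := ⟨R, hR, r3.mono fun ℓ k j => (k j).2⟩
      last := by
        filter_upwards [hF.agf, hF.last] with ℓ k₁ k₂
        have k₃ := k₁ (Fin.last r)
        rw [k₂ (Fin.last r) rfl] at k₃
        have k₄ := per_agf X k₃
        exact ⟨by rw [k₄.1, map_zero], k₄.2⟩
      norel := norel X hF hM hL hη near }
  have h2 : ∀ᶠ ℓ in UU, ∃ Q : MvPolynomial (Fin (r + 1)) C[X],
      (Q ≠ 0 ∧ BdB (Φ.fl ℓ).B (δ ℓ + 1) Q) ∧ (η ℓ * R ℓ ^ δ ℓ < ‖X.Z.FF (f ℓ) Q‖ →
        ‖X.Z.FF (f ℓ) Q‖ ≤ ‖X.Z.FF (f ℓ) (P ℓ)‖ / cn X.Z (P ℓ)) := by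
    filter_upwards [hP, hx, hφ, r3, near] with ℓ k₀ ⟨k₁, k₂, k₃, _, k₄, _, k₅, _⟩ k₆ k₇ k₈
    rw [← k₂]
    exact tml3_pt X (Φ.fl ℓ) k₀.2 k₁ k₃ k₅ (φ ℓ) (k₆.1 k₄) ((norm_nonneg _).trans (k₈ 0)) k₆.2
      (f ℓ) (r1 ℓ) fun j => (k₇ j).2
  obtain ⟨Q, hQ⟩ := ev_choose h2
  have lo := ns_all X.Z hM Φ r ap _ Q (hδ.add (Pol.const 1)) (hQ.mono fun ℓ k => k.1)
  have r0 : ∀ᶠ ℓ in UU, 0 ≤ R ℓ := Eventually.of_forall fun ℓ => zero_le_one.trans (r1 ℓ)
  have sm := Sm.mul_big hM hη (Big.pow hM hR r0 hδ) (r0.mono fun ℓ k => pow_nonneg k _)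
  refine Low.mono ?_ lo
  filter_upwards [hQ, Sm.lt_low hM sm lo] with ℓ k₁ k₂
  exact k₁.2 k₂

end Pool.Agent.MP_ee2255_nt.T

end

section

/-! Truncation of the first generating function. -/

set_option linter.unusedSectionVars false

namespace Pool.Agent.MP_ee2255_nt.T

open Polynomial Filter Topology Pool.Agent.MP_655169_nt

variable {F C Ω : Type*} [Field F] [Fintype F] [NormedField C] [IsUltrametricDist C]
  [IsAlgClosed C] [Algebra F C] [NormedField Ω] [IsUltrametricDist Ω] [IsAlgClosed Ω]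
  [Algebra C Ω] [Algebra F Ω] [IsScalarTower F C Ω] (Z : Sit F C Ω)

variable {r : ℕ}

theorem ttr_eval {A R : Type*} [CommRing A] [CommRing R] (g : A →+* R) (w₀ : R) (w : Fin r → R)
    (P : MvPolynomial (Fin (r + 1)) A) : MvPolynomial.eval₂ g (Fin.cons w₀ w) P =
      (MvPolynomial.finSuccEquiv A r P).eval₂ (MvPolynomial.eval₂Hom g w) w₀ := by
  induction P using MvPolynomial.induction_on with
  | C a => simp [MvPolynomial.finSuccEquiv_apply]
  | add p q hp hq => rw [MvPolynomial.eval₂_add, map_add, eval₂_add, hp, hq]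
  | mul_X p i hp =>
    rw [MvPolynomial.eval₂_mul, map_mul, eval₂_mul, hp, MvPolynomial.eval₂_X]
    congr 1
    refine Fin.cases ?_ (fun j => ?_) i
    · rw [MvPolynomial.finSuccEquiv_X_zero, eval₂_X, Fin.cons_zero]
    · rw [MvPolynomial.finSuccEquiv_X_succ, eval₂_C, Fin.cons_succ, MvPolynomial.eval₂Hom_X']

theorem ttr_hom {R : Type*} [CommRing R] (g : C[X] →+* R) (u : C) (m D : ℕ) (w₀ : R)
    (w : Fin r → R) (hg : g (Z.num u m) = g (Z.den m) * w₀) (P : MvPolynomial (Fin (r + 1)) C[X])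
    (hD : P.totalDegree ≤ D) : MvPolynomial.eval₂ g w (cut Z u m D P) =
      g (Polynomial.C (dall Z m) * Z.den m) ^ D * MvPolynomial.eval₂ g (Fin.cons w₀ w) P := by
  have hd : (MvPolynomial.finSuccEquiv C[X] r P).natDegree < D + 1 := by
    rw [MvPolynomial.natDegree_finSuccEquiv]
    exact Nat.lt_succ_of_le ((MvPolynomial.degreeOf_le_totalDegree P 0).trans hD)
  rw [ttr_eval, eval₂_eq_sum_range' _ hd, cut, MvPolynomial.eval₂_sum, Finset.mul_sum]
  refine Finset.sum_congr rfl fun j hj => ?_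
  have hj' : j ≤ D := Nat.le_of_lt_succ (Finset.mem_range.1 hj)
  have e : g (Polynomial.C (dall Z m) * Z.den m) ^ D =
      g (Polynomial.C (dall Z m) * Z.den m) ^ j *
        g (Polynomial.C (dall Z m) * Z.den m) ^ (D - j) := by
    rw [← pow_add, Nat.add_sub_cancel' hj']
  rw [MvPolynomial.eval₂_mul, MvPolynomial.eval₂_C, e, MvPolynomial.coe_eval₂Hom]
  simp only [map_mul, map_pow, hg]
  ring

theorem ttr_D_ne (i : ℕ) : carlitzD (qq F) Z.θ i ≠ 0 := by
  rw [← norm_pos_iff, norm_carlitzD _ two_le_qq _ Z.hθ]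
  exact pow_pos (zero_lt_one.trans Z.hθ) _

section Cv

/-- All coefficients have degree at most `δ`. -/
def TtrCv (F : Type*) {C κ : Type*} [Field F] [Field C] [Algebra F C] (ω : κ → C) (δ : ℕ)
    (H : C[X]) : Prop := ∀ j, H.coeff j ∈ Vs F ω δ

variable {F C κ : Type*} [Field F] [Field C] [Algebra F C] {ω : κ → C} {δ δ' : ℕ} {H H' : C[X]}

theorem TtrCv.mono (h : TtrCv F ω δ H) (hδ : δ ≤ δ') : TtrCv F ω δ' H :=
  fun j => Vs_mono ω hδ (h j)

theorem TtrCv.add (h : TtrCv F ω δ H) (h' : TtrCv F ω δ H') : TtrCv F ω δ (H + H') := fun j => by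
  rw [coeff_add]
  exact Submodule.add_mem _ (h j) (h' j)

theorem TtrCv.mul (h : TtrCv F ω δ H) (h' : TtrCv F ω δ' H') : TtrCv F ω (δ + δ') (H * H') :=
  fun j => by
    rw [coeff_mul]
    exact Submodule.sum_mem _ fun x _ => Vs_mul ω (h _) (h' _)

theorem ttr_cv_C {c : C} (h : c ∈ Vs F ω δ) : TtrCv F ω δ (Polynomial.C c) := fun j => by
  rw [coeff_C]
  split_ifs
  · exact h
  · exact Submodule.zero_mem _

theorem ttr_one (δ : ℕ) : (1 : C) ∈ Vs F ω δ := by simpa using Vs_const ω (1 : F) δ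

theorem TtrCv.pow (h : TtrCv F ω δ H) (k : ℕ) : TtrCv F ω (k * δ) (H ^ k) := by
  induction k with
  | zero => rw [pow_zero, ← C_1]; exact ttr_cv_C (ttr_one _)
  | succ k ih => rw [pow_succ, add_mul, one_mul]; exact ih.mul h

theorem ttr_cv_fac {c : C} (h : c ∈ Vs F ω δ) : TtrCv F ω δ (Polynomial.C c - X) := fun j => by
  rw [coeff_sub, coeff_X]
  refine Submodule.sub_mem _ (ttr_cv_C h j) ?_
  split_ifs
  · exact ttr_one _
  · exact Submodule.zero_mem _

theorem ttr_prod {s : ℕ → C} (n : ℕ) (h : ∀ j < n, s j ∈ Vs F ω δ) :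
    ∏ j ∈ Finset.range n, s j ∈ Vs F ω (n * δ) := by
  induction n with
  | zero => simpa using ttr_one 0
  | succ n ih =>
    rw [Finset.prod_range_succ, add_mul, one_mul]
    exact Vs_mul ω (ih fun j hj => h j (Nat.lt_succ_of_lt hj)) (h n (Nat.lt_succ_self n))

theorem ttr_D_mem {θ : C} (hθ : θ ∈ Vs F ω 1) {q : ℕ} (hq : 1 ≤ q) (i : ℕ) :
    carlitzD q θ i ∈ Vs F ω (i * q ^ i) :=
  ttr_prod i fun j hj => Submodule.sub_mem _ (by simpa using Vs_pow ω hθ (q ^ i))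
    (Vs_mono ω (by simpa using Nat.pow_le_pow_right hq hj.le) (Vs_pow ω hθ (q ^ j)))

end Cv

theorem ttr_den_num {κ : Type*} (ω : κ → C) (hθ : Z.θ ∈ Vs F ω 1) {u : C} {δ₀ : ℕ}
    (hu : u ∈ Vs F ω δ₀) (m : ℕ) :
    TtrCv F ω ((m ^ 2 + m) * qq F ^ m) (Polynomial.C (dall Z m) * Z.den m) ∧
      TtrCv F ω ((δ₀ + m ^ 2 + m) * qq F ^ m) (Polynomial.C (dall Z m) * Z.num u m) := by
  have hq : 1 ≤ qq F := le_trans one_le_two two_le_qq
  induction m with
  | zero =>
    refine ⟨?_, ?_⟩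
    · rw [Z.trunc1_den_zero, mul_one, dall, Finset.prod_range_zero]
      exact ttr_cv_C (ttr_one _)
    · rw [Sit.num, mul_zero]
      exact fun j => Submodule.zero_mem _
  | succ m ih =>
    have hD := ttr_cv_C (ttr_D_mem hθ hq m)
    have hf : TtrCv F ω (qq F ^ m) (Polynomial.C (Z.θ ^ qq F ^ m) - X) :=
      ttr_cv_fac (by simpa using Vs_pow ω hθ (qq F ^ m))
    have hp : qq F ^ m ≤ qq F ^ (m + 1) := Nat.pow_le_pow_right hq (Nat.le_succ m)
    have e₀ : dall Z (m + 1) = carlitzD (qq F) Z.θ m * dall Z m := by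
      rw [dall, Finset.prod_range_succ, mul_comm, dall]
    have e₁ : Polynomial.C (carlitzD (qq F) Z.θ m) * Polynomial.C (Z.ee u m) =
        Polynomial.C (u ^ qq F ^ m) := by
      rw [← C_mul, Sit.ee, mul_div_cancel₀ _ (ttr_D_ne Z m)]
    refine ⟨?_, ?_⟩
    · have e : Polynomial.C (dall Z (m + 1)) * Z.den (m + 1) =
          Polynomial.C (carlitzD (qq F) Z.θ m) * (Polynomial.C (dall Z m) * Z.den m) *
            (Polynomial.C (Z.θ ^ qq F ^ m) - X) := by
        rw [e₀, Z.trunc1_den_succ, C_mul]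
        ring
      rw [e]
      refine ((hD.mul ih.1).mul hf).mono (le_trans ?_ (Nat.mul_le_mul_left _ hp))
      nlinarith [Nat.zero_le (m * qq F ^ m), Nat.zero_le (qq F ^ m)]
    · have e : Polynomial.C (dall Z (m + 1)) * Z.num u (m + 1) =
          Polynomial.C (carlitzD (qq F) Z.θ m) * (Polynomial.C (dall Z m) * Z.num u m) *
            (Polynomial.C (Z.θ ^ qq F ^ m) - X) +
          Polynomial.C (u ^ qq F ^ m) * (Polynomial.C (dall Z m) * Z.den m) := by
        rw [e₀, Sit.num, C_mul, ← e₁]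
        ring
      rw [e]
      refine TtrCv.add (((hD.mul ih.2).mul hf).mono (le_trans ?_ (Nat.mul_le_mul_left _ hp)))
        (((ttr_cv_C (Vs_pow ω hu (qq F ^ m))).mul ih.1).mono
          (le_trans ?_ (Nat.mul_le_mul_left _ hp)))
      · nlinarith [Nat.zero_le (m * qq F ^ m), Nat.zero_le (qq F ^ m)]
      · nlinarith [Nat.zero_le (m * qq F ^ m), Nat.zero_le (qq F ^ m)]

theorem ttr_eq {Λ : Type*} [NormedField Λ] [IsUltrametricDist Λ] {a b : Λ}
    (h : ‖a - b‖ < ‖b‖) : ‖a‖ = ‖b‖ := by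
  have := IsUltrametricDist.norm_add_eq_max_of_norm_ne_norm h.ne
  rw [sub_add_cancel] at this
  rw [this, max_eq_right h.le]

theorem cut_FF (u : C) (m D : ℕ) (P : MvPolynomial (Fin (r + 1)) C[X]) (hD : P.totalDegree ≤ D)
    (f : Fin r → Ω) : Z.FF f (cut Z u m D P) =
      aeval Z.t (Polynomial.C (dall Z m) * Z.den m) ^ D * Z.FF (Fin.cons (Z.fm u m) f) P :=
  ttr_hom Z (aeval Z.t : C[X] →ₐ[C] Ω).toRingHom u m D _ f (Z.num_t u m) P hD

theorem cut_VV (u : C) (m D k : ℕ) (P : MvPolynomial (Fin (r + 1)) C[X]) (hD : P.totalDegree ≤ D)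
    (w : Fin r → C) : MvPolynomial.eval₂ (Z.evt k) w (cut Z u m D P) =
      Z.evt k (Polynomial.C (dall Z m) * Z.den m) ^ D *
        MvPolynomial.eval₂ (Z.evt k) (Fin.cons (Z.phm u k m) w) P :=
  ttr_hom Z (Z.evt k) u m D _ w (Z.num_evt u k m) P hD

theorem cut_norm (m k : ℕ) : aeval Z.t (Polynomial.C (dall Z m) * Z.den m) ≠ 0 ∧
    ‖Z.evt k (Polynomial.C (dall Z m) * Z.den m)‖ =
      ‖aeval Z.t (Polynomial.C (dall Z m) * Z.den m)‖ ^ qq F ^ (k + 1) := by
  have h : dall Z m ≠ 0 := Finset.prod_ne_zero_iff.2 fun i _ => ttr_D_ne Z i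
  rw [map_mul, map_mul, aeval_C, Z.evt_C, norm_mul, norm_mul, Z.norm_evt_den, Z.norm_alg, norm_pow,
    mul_pow]
  exact ⟨mul_ne_zero ((_root_.map_ne_zero _).2 h) (Z.den_ne m), rfl⟩

theorem cut_bd {κ : Type*} (ω : κ → C) (hθ : Z.θ ∈ Vs F ω 1) {u : C} {δ₀ δ D T : ℕ} (m : ℕ)
    (hu : u ∈ Vs F ω δ₀) (P : MvPolynomial (Fin (r + 1)) C[X]) (hD : P.totalDegree ≤ D)
    (hP : ∀ e, (P.coeff e).natDegree ≤ T ∧ ∀ j, (P.coeff e).coeff j ∈ Vs F ω δ) :
    (cut Z u m D P).totalDegree ≤ D ∧ ∀ e, ((cut Z u m D P).coeff e).natDegree ≤ T + D * m ∧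
      ∀ j, ((cut Z u m D P).coeff e).coeff j ∈
        Vs F ω (δ + D * ((δ₀ + m ^ 2 + m) * qq F ^ m)) := by
  obtain ⟨h₁, h₂⟩ := ttr_den_num Z ω hθ hu m
  refine ⟨MvPolynomial.totalDegree_finsetSum_le fun j _ => ?_, fun e => ?_⟩
  · refine (MvPolynomial.totalDegree_mul _ _).trans ?_
    rw [MvPolynomial.totalDegree_C, add_zero]
    by_cases h : (MvPolynomial.finSuccEquiv C[X] r P).coeff j = 0
    · rw [h, MvPolynomial.totalDegree_zero]
      exact Nat.zero_le _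
    · exact ((Nat.le_add_right _ _).trans
        (MvPolynomial.totalDegree_coeff_finSuccEquiv_add_le P j h)).trans hD
  have e₁ : (cut Z u m D P).coeff e = ∑ j ∈ Finset.range (D + 1), P.coeff (e.cons j) *
      ((Polynomial.C (dall Z m) * Z.num u m) ^ j *
        (Polynomial.C (dall Z m) * Z.den m) ^ (D - j)) := by
    rw [cut, MvPolynomial.coeff_sum]
    refine Finset.sum_congr rfl fun j _ => ?_
    rw [mul_comm, MvPolynomial.coeff_C_mul, MvPolynomial.finSuccEquiv_coeff_coeff, mul_comm]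
  rw [e₁]
  refine ⟨natDegree_sum_le_of_forall_le _ _ fun j hj => ?_, fun i => ?_⟩
  · have hj' : j ≤ D := Nat.le_of_lt_succ (Finset.mem_range.1 hj)
    have k₁ : ((Polynomial.C (dall Z m) * Z.num u m) ^ j).natDegree ≤ j * m :=
      natDegree_pow_le.trans (Nat.mul_le_mul_left _
        ((natDegree_C_mul_le _ _).trans (Z.num_deg u m)))
    have k₂ : ((Polynomial.C (dall Z m) * Z.den m) ^ (D - j)).natDegree ≤ (D - j) * m :=
      natDegree_pow_le.trans (Nat.mul_le_mul_left _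
        ((natDegree_C_mul_le _ _).trans (Z.den_deg m)))
    refine natDegree_mul_le.trans (add_le_add (hP _).1
      (natDegree_mul_le.trans ((add_le_add k₁ k₂).trans_eq ?_)))
    rw [← add_mul, Nat.add_sub_cancel' hj']
  · rw [finsetSum_coeff]
    refine Submodule.sum_mem _ fun j hj => ?_
    have hj' : j ≤ D := Nat.le_of_lt_succ (Finset.mem_range.1 hj)
    have k₁ := (h₂.pow j).mul ((h₁.mono (δ' := (δ₀ + m ^ 2 + m) * qq F ^ m)
      (Nat.mul_le_mul_right _ (by omega))).pow (D - j))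
    rw [← add_mul, Nat.add_sub_cancel' hj'] at k₁
    exact TtrCv.mul (δ := δ) (hP _).2 k₁ i

theorem tr_step (u al : Fin (r + 1) → C) (f : Fin (r + 1) → Ω)
    (hA : ∀ j, Z.Agf (u j) (al j) (f j)) {n m D T : ℕ} (hn : ∀ j, ‖u j‖ ≤ ‖Z.θ‖ ^ n) (hm : n ≤ m)
    (P : MvPolynomial (Fin (r + 1)) C[X]) (hD : P.totalDegree ≤ D)
    (hT : ∀ e, (P.coeff e).natDegree ≤ T)
    (h : (‖Z.θ‖ ^ (n * qq F ^ n)) ^ D * ‖Z.θ‖ ^ T *
      Real.exp (-(min 1 (Real.log ‖Z.θ‖) * max 1 (-Real.log ‖u 0‖) * (qq F : ℝ) ^ m)) <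
        ‖Z.FF f P‖ / cn Z P) :
    cut Z (u 0) m D P ≠ 0 ∧ ∀ k,
      ‖Z.FF (Fin.tail f) (cut Z (u 0) m D P)‖ ^ qq F ^ (k + 1) ≤
        ‖Z.VV (Fin.tail u) (Fin.tail al) k (cut Z (u 0) m D P)‖ →
      ‖Z.FF f P‖ ^ qq F ^ (k + 1) ≤ ‖Z.VV u al k P‖ := by
  obtain ⟨R, hR⟩ : ∃ R, R = ‖Z.θ‖ ^ (n * qq F ^ n) := ⟨_, rfl⟩
  obtain ⟨ε, hε⟩ : ∃ ε, ε = Real.exp
    (-(min 1 (Real.log ‖Z.θ‖) * max 1 (-Real.log ‖u 0‖) * (qq F : ℝ) ^ m)) := ⟨_, rfl⟩
  have sz := fun j => agf_size Z (hA j) (hn j)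
  have tl := agf_tail Z (hA 0) (hn 0) hm
  rw [← hR] at sz h
  rw [← hε] at tl h
  have hε0 : 0 < ε := hε ▸ Real.exp_pos _
  have hR1 : 1 ≤ R := hR ▸ one_le_pow₀ Z.hθ.le
  have hθT : 1 ≤ ‖Z.θ‖ ^ T := one_le_pow₀ Z.hθ.le
  have hc : 0 < cn Z P := by
    refine (cn_nonneg Z P).lt_of_ne fun h0 => ?_
    rw [← h0, div_zero] at h
    exact absurd h (not_lt.2 (by positivity))
  rw [lt_div_iff₀ hc] at h
  have h₁ : ‖Z.FF (Fin.cons (Z.fm (u 0) m) (Fin.tail f)) P - Z.FF f P‖ ≤ cn Z P * R ^ D * ε :=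
    FF_lip Z _ _ hR1 hε0.le (fun i => Fin.cases ((sz 0).2.2.1 m) (fun j => (sz j.succ).2.1) i)
      (fun i => (sz i).2.1) (fun i => Fin.cases (by rw [norm_sub_rev]; exact tl.1)
        (fun j => by simp [Fin.tail, hε0.le]) i) P hD
  have h₂ : cn Z P * R ^ D * ε < ‖Z.FF f P‖ := by
    refine lt_of_le_of_lt ?_ h
    have : 0 < cn Z P * R ^ D * ε := by positivity
    nlinarith
  have h₃ := ttr_eq (h₁.trans_lt h₂)
  have h₄ : 0 < ‖Z.FF f P‖ := lt_of_le_of_lt (by positivity) h₂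
  have hFF := cut_FF Z (u 0) m D P hD (Fin.tail f)
  refine ⟨fun h0 => ?_, fun k hk => ?_⟩
  · rw [h0, Sit.FF, MvPolynomial.eval₂_zero] at hFF
    rcases mul_eq_zero.1 hFF.symm with e | e
    · exact (cut_norm Z m 0).1 (eq_zero_of_pow_eq_zero e)
    · rw [e, norm_zero] at h₃
      exact h₄.ne h₃
  obtain ⟨Q, hQ⟩ : ∃ Q, Q = qq F ^ (k + 1) := ⟨_, rfl⟩
  obtain ⟨W, hW⟩ : ∃ W, W = MvPolynomial.eval₂ (Z.evt k) (Fin.cons (Z.phm (u 0) k m)
    fun i => ph (qq F) Z.θ (Fin.tail u i) (Fin.tail al i) k) P := ⟨_, rfl⟩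
  obtain ⟨n₁, n₂⟩ := cut_norm Z m k
  have k₁ : ‖Z.FF f P‖ ^ Q ≤ ‖W‖ := by
    rw [hFF, Sit.VV, cut_VV Z (u 0) m D k P hD, ← hW, norm_mul, norm_mul, h₃, norm_pow, norm_pow,
      n₂, mul_pow, ← pow_mul, ← pow_mul, mul_comm D, ← hQ] at hk
    exact le_of_mul_le_mul_left hk (pow_pos (norm_pos_iff.2 n₁) _)
  have k₂ : ‖Z.VV u al k P - W‖ ≤ cn Z P ^ Q * ‖Z.θ‖ ^ T * (R ^ Q) ^ D * ε ^ Q := by
    rw [hW, Sit.VV, hQ]
    refine lip_eval₂ (Z.evt k) P _ _ _ _ _ (by positivity) (fun e => (Z.evt_le k _ T (hT e)).trans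
      (by gcongr; exact le_cn Z P e)) (one_le_pow₀ hR1) (by positivity)
      (fun i => (sz i).2.2.2.2 k)
      (fun i => Fin.cases ((sz 0).2.2.2.1 k m) (fun j => (sz j.succ).2.2.2.2 k) i)
      (fun i => Fin.cases (tl.2 k) (fun j => ?_) i) D hD
    simp only [Fin.cons_succ, Fin.tail, sub_self, norm_zero]
    positivity
  have hQ1 : Q ≠ 0 := by
    rw [hQ]
    exact pow_ne_zero _ Fintype.card_ne_zero
  have k₃ : cn Z P ^ Q * ‖Z.θ‖ ^ T * (R ^ Q) ^ D * ε ^ Q < ‖Z.FF f P‖ ^ Q := by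
    refine lt_of_le_of_lt ?_ (pow_lt_pow_left₀ h (by positivity) hQ1)
    have e : (R ^ D * ‖Z.θ‖ ^ T * ε * cn Z P) ^ Q =
        cn Z P ^ Q * (‖Z.θ‖ ^ T) ^ Q * (R ^ Q) ^ D * ε ^ Q := by
      rw [← pow_mul R Q D, mul_comm Q D, pow_mul]
      ring
    rw [e]
    gcongr
    exact le_self_pow₀ hθT hQ1
  rw [← hQ, ttr_eq ((k₂.trans_lt k₃).trans_le k₁)]
  exact k₁

end Pool.Agent.MP_ee2255_nt.T

end

section

/-! The main comparison. -/

namespace Pool.Agent.MP_ee2255_nt.T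

open Polynomial Filter Topology Pool.Agent.MP_655169_nt

variable {F E C Ω : Type*} [Field F] [Fintype F] [Field E] [Infinite E] [NormedField C]
  [IsUltrametricDist C] [IsAlgClosed C] [Algebra F C] [Algebra E C] [Algebra F E]
  [IsScalarTower F E C] [NormedField Ω] [IsUltrametricDist Ω] [IsAlgClosed Ω]
  [Algebra C Ω] [Algebra F Ω] [IsScalarTower F C Ω] (X : Ctx F E C Ω)

theorem mc (D k : ℕ → ℕ) (hD : Pol D)
    (hk : ∀ T, Lin T → ∀ᶠ ℓ in UU,
      ‖X.Z.θ‖ ^ (D ℓ * T ℓ) < Real.exp (X.η * (qq F ^ (k ℓ + 1) : ℕ))) (r : ℕ) :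
    ∀ (u al : ℕ → Fin r → C) (f : ℕ → Fin r → Ω), Fam X u al f → Good F X.Z.θ r u →
    ∀ (P : ℕ → MvPolynomial (Fin r) C[X]) (δ T : ℕ → ℕ), Pol δ → Lin T →
    (∀ᶠ ℓ in UU, P ℓ ≠ 0 ∧ (P ℓ).totalDegree ≤ D ℓ ∧ ∀ e, ((P ℓ).coeff e).natDegree ≤ D ℓ * T ℓ ∧
      ∀ j, ((P ℓ).coeff e).coeff j ∈ Vs F X.ω (δ ℓ)) →
    ∀ᶠ ℓ in UU, X.Z.FF (f ℓ) (P ℓ) ≠ 0 ∧ ‖X.Z.FF (f ℓ) (P ℓ)‖ ^ qq F ^ (k ℓ + 1) ≤
      ‖X.Z.VV (u ℓ) (al ℓ) (k ℓ) (P ℓ)‖ := by
  have hθ : X.Z.θ ∈ Vs F X.ω 1 := X.hθ ▸ Vs_var X.ω X.iθ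
  induction r with
  | zero =>
    intro u al f _ _ P δ T _ hT hP
    filter_upwards [hP, hk T hT] with ℓ ⟨h0, _, h2⟩ h3
    rw [MvPolynomial.eq_C_of_isEmpty (P ℓ)] at h0 ⊢
    rw [Sit.FF, Sit.VV, MvPolynomial.eval₂_C, MvPolynomial.eval₂_C]
    exact ⟨X.Z.aeval_ne _ fun e => h0 (by rw [e, map_zero]),
      X.Z.evt_ge X.E0 X.η X.gap _ (fun j => Vs_sub X.ω X.E0 X.memF X.memω ((h2 0).2 j)) _
        (h2 0).1 _ h3⟩
  | succ r ih =>
    intro u al f hF hG P δ T hδ hT hP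
    obtain ⟨δ₀, hδ₀, h₀⟩ := hF.deg
    obtain ⟨n, hn, hn'⟩ := hF.size
    have hM := one_le_lev fun ℓ => u ℓ 0
    have hL := ml X hF hM hG.1 ((hδ.add hD).add (hD.mul hT.pol)) (P := P) (hP.mono fun ℓ h =>
      ⟨h.1, h.2.1.trans (by omega), fun e => ⟨(h.2.2 e).1.trans (by omega), fun j =>
        Vs_mono _ (by omega) ((h.2.2 e).2 j)⟩⟩)
    have hc := Big.const hM ‖X.Z.θ‖
    have p0 : ∀ᶠ _ℓ in UU, 0 ≤ ‖X.Z.θ‖ := Eventually.of_forall fun _ => norm_nonneg _
    have hR := ((hc.pow hM p0 (hn.pol.mul (hn.pow_pol (qq F)))).pow hM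
      (Eventually.of_forall fun _ => by positivity) hD).mul hM (hc.pow hM p0 (hD.mul hT.pol))
      (Eventually.of_forall fun _ => by positivity)
    obtain ⟨m₀, hm₀, hm⟩ := exists_trunc hM hL hR (lt_min one_pos (Real.log_pos X.Z.hθ))
      (two_le_qq (F := F))
    have hm₁ := hm₀.add hn
    have st : ∀ᶠ ℓ in UU, cut X.Z (u ℓ 0) (m₀ ℓ + n ℓ) (D ℓ) (P ℓ) ≠ 0 ∧ ∀ k,
        ‖X.Z.FF (Fin.tail (f ℓ)) (cut X.Z (u ℓ 0) (m₀ ℓ + n ℓ) (D ℓ) (P ℓ))‖ ^ qq F ^ (k + 1) ≤
          ‖X.Z.VV (Fin.tail (u ℓ)) (Fin.tail (al ℓ)) k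
            (cut X.Z (u ℓ 0) (m₀ ℓ + n ℓ) (D ℓ) (P ℓ))‖ →
        ‖X.Z.FF (f ℓ) (P ℓ)‖ ^ qq F ^ (k + 1) ≤ ‖X.Z.VV (u ℓ) (al ℓ) k (P ℓ)‖ := by
      filter_upwards [hF.agf, hn', hP, hm] with ℓ h1 h2 h3 h4
      exact tr_step X.Z _ _ _ h1 h2 (Nat.le_add_left _ _) _ h3.2.1 (fun e => (h3.2.2 e).1)
        (h4 _ (Nat.le_add_right _ _))
    have hF' : Fam X (fun ℓ => Fin.tail (u ℓ)) (fun ℓ => Fin.tail (al ℓ))
        fun ℓ => Fin.tail (f ℓ) :=
      ⟨hF.agf.mono fun ℓ h j => h j.succ, ⟨δ₀, hδ₀, h₀.mono fun ℓ h j => h j.succ⟩,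
        ⟨n, hn, hn'.mono fun ℓ h j => h j.succ⟩,
        hF.last.mono fun ℓ h j hj => h j.succ (by rw [Fin.val_succ, hj])⟩
    have key := ih _ _ _ hF' hG.2 (fun ℓ => cut X.Z (u ℓ 0) (m₀ ℓ + n ℓ) (D ℓ) (P ℓ)) _ _
      (hδ.add (hD.mul (((hδ₀.add (hm₁.pol.pow 2)).add hm₁.pol).mul (hm₁.pow_pol (qq F)))))
      (hT.add hm₁) (by
        filter_upwards [st, hP, h₀] with ℓ h1 h2 h3
        have := cut_bd X.Z X.ω hθ (m₀ ℓ + n ℓ) (h3 0).1 (P ℓ) h2.2.1 h2.2.2
        exact ⟨h1.1, this.1, fun e => ⟨(this.2 e).1.trans (mul_add _ _ _).ge, (this.2 e).2⟩⟩)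
    filter_upwards [st, key, hL.pos] with ℓ h1 h2 h3
    exact ⟨fun e => by simp [e] at h3, h1.2 _ h2.2⟩

end Pool.Agent.MP_ee2255_nt.T

end

section

/-! Choice of a good basis of short forms. -/

namespace Pool.Agent.MP_ee2255_nt.T

open Polynomial Filter Topology Pool.Agent.MP_655169_nt

variable {F C : Type*} [Field F] [Fintype F] [NormedField C] [IsUltrametricDist C] [Algebra F C]
  {θ : C} (hθ : 1 < ‖θ‖)
include hθ

theorem TLev_norm_le {g : F[X]} {K : ℕ} (hg : g.natDegree ≤ K) : ‖aeval θ g‖ ≤ ‖θ‖ ^ K := by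
  by_cases h : g = 0
  · rw [h, map_zero, norm_zero]
    positivity
  · rw [norm_poly θ hθ g h]
    exact pow_le_pow_right₀ hθ.le hg

theorem TLev_one_le {g : F[X]} (hg : g ≠ 0) : 1 ≤ ‖aeval θ g‖ := by
  rw [norm_poly θ hθ g hg]
  exact one_le_pow₀ hθ.le

/-- The first member of a relation is bounded by the later ones. -/
theorem TLev_first {s K : ℕ} (g : Fin s → F[X]) (b : Fin s → C) (i0 : Fin s) (h0 : g i0 ≠ 0)
    (h1 : ∀ i, i < i0 → g i = 0) (hg : ∀ i, (g i).natDegree ≤ K) (h : lin θ g b = 0) :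
    ‖b i0‖ ≤ (∑ i ∈ Finset.univ.erase i0, if i0 < i then ‖b i‖ else 0) * ‖θ‖ ^ K := by
  unfold lin at h
  rw [← Finset.add_sum_erase _ _ (Finset.mem_univ i0), add_eq_zero_iff_eq_neg] at h
  calc ‖b i0‖ ≤ ‖aeval θ (g i0) * b i0‖ := by
        rw [norm_mul]
        exact le_mul_of_one_le_left (norm_nonneg _) (TLev_one_le hθ h0)
    _ = ‖∑ i ∈ Finset.univ.erase i0, aeval θ (g i) * b i‖ := by rw [h, norm_neg]
    _ ≤ ∑ i ∈ Finset.univ.erase i0, ‖aeval θ (g i) * b i‖ := norm_sum_le _ _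
    _ ≤ _ := by
        rw [Finset.sum_mul]
        refine Finset.sum_le_sum fun i hi => ?_
        split_ifs with h2
        · rw [norm_mul, mul_comm]
          exact mul_le_mul_of_nonneg_left (TLev_norm_le hθ (hg i)) (norm_nonneg _)
        · rw [h1 i (lt_of_le_of_ne (not_lt.1 h2) (Finset.mem_erase.1 hi).1)]
          simp

theorem maxlev {ι : Type*} [Fintype ι] [Nonempty ι] (x : ι → C)
    (hx : ∀ c : ι → F[X], lin θ c x = 0 → c = 0) :
    ∃ (c : ℕ → ι → F[X]) (n : ℕ → ℕ), Lin n ∧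
      (∀ᶠ ℓ in UU, c ℓ ≠ 0 ∧ ∀ j, (c ℓ j).natDegree ≤ n ℓ) ∧
      HL F θ (lev fun ℓ => lin θ (c ℓ) x) fun _ => x := by
  classical
  by_contra hcon
  let S := {p : (ℕ → ι → F[X]) × (ℕ → ℕ) // Lin p.2 ∧
    ∀ᶠ ℓ in UU, p.1 ℓ ≠ 0 ∧ ∀ j, (p.1 ℓ j).natDegree ≤ p.2 ℓ}
  let b : S → ℕ → C := fun p ℓ => lin θ (p.1.1 ℓ) x
  have hb : ∀ p : S, ∀ᶠ ℓ in UU, b p ℓ ≠ 0 := fun p =>
    p.2.2.mono fun ℓ h h' => h.1 (hx _ h')
  have hstep : ∀ p : S, ∃ p' : S, Sm (lev (b p)) fun ℓ => ‖b p' ℓ‖ := by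
    intro p
    by_contra h
    refine hcon ⟨p.1.1, p.1.2, p.2.1, p.2.2, fun c n hn hc => ?_⟩
    by_contra h'
    exact h ⟨⟨(c, n), hn, hc⟩, not_low.1 h'⟩
  choose f hf using hstep
  let p0 : S := ⟨(fun _ _ => 1, fun _ => 0), Lin.const 0, Eventually.of_forall fun ℓ =>
    ⟨fun h => one_ne_zero (congrFun h (Classical.arbitrary ι)), fun j => by simp⟩⟩
  let q : ℕ → S := fun k => f^[k] p0
  have hq : ∀ k, q (k + 1) = f (q k) := fun k => Function.iterate_succ_apply' f k p0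
  have hsm : ∀ i j, i + 1 ≤ j → Sm (lev (b (q i))) fun ℓ => ‖b (q j) ℓ‖ := by
    intro i j hij
    induction j, hij using Nat.le_induction with
    | base => rw [hq]; exact hf _
    | succ j _ ih =>
      rw [hq]
      exact Sm.level (Sm.le_lev (hb _) (one_le_lev _) ih) (hf _)
  let n : ℕ → ℕ := fun ℓ => ∑ i : Fin (Fintype.card ι + 1), (q i).1.2 ℓ
  have hn : Lin n := Lin.sum _ fun i _ => (q i).2.1
  have hdeg : ∀ᶠ ℓ in UU, ∀ (i : Fin (Fintype.card ι + 1)) j, ((q i).1.1 ℓ j).natDegree ≤ n ℓ :=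
    eventually_all.2 fun i => (q i).2.2.mono fun ℓ h j => (h.2 j).trans
      (Finset.single_le_sum (f := fun i : Fin (Fintype.card ι + 1) => (q i).1.2 ℓ)
        (fun _ _ => Nat.zero_le _) (Finset.mem_univ i))
  have hex : ∀ᶠ ℓ in UU, ∃ i0 : Fin (Fintype.card ι + 1), ‖b (q i0) ℓ‖ ≤
      (∑ i ∈ Finset.univ.erase i0, if i0 < i then ‖b (q i) ℓ‖ else 0) *
        ‖θ‖ ^ (Fintype.card ι * n ℓ) := by
    filter_upwards [hdeg] with ℓ h
    obtain ⟨g, hg0, hg, hs⟩ := short_rel (Nat.lt_succ_self _)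
      (fun i : Fin (Fintype.card ι + 1) => (q i).1.1 ℓ) h
    obtain ⟨i0, hi0, hmin⟩ := (wellFounded_lt (α := Fin (Fintype.card ι + 1))).has_min
      {i | g i ≠ 0} (Function.ne_iff.1 hg0)
    refine ⟨i0, TLev_first hθ g (fun i => b (q i) ℓ) i0 hi0
      (fun i hi => not_not.1 fun h' => hmin i h' hi) hg ?_⟩
    rw [lin_lin]
    simp only [hs]
    simp [lin]
  obtain ⟨i0, hi0⟩ := ev_fin hex
  refine Sm.not_low (Sm.mono hi0 (Sm.mul_big (one_le_lev _)
    (Sm.sum (one_le_lev _) _ fun i _ => ?_)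
    (Big.pow (one_le_lev _) (Big.const (one_le_lev _) ‖θ‖)
      (Eventually.of_forall fun _ => norm_nonneg _) (Lin.mul _ hn).pol)
    (Eventually.of_forall fun _ => by positivity))) (low_lev (hb (q i0)))
  split_ifs with h
  · exact hsm _ _ h
  · exact Sm.zero

theorem TLev_last {n : ℕ} (x : Fin (n + 1) → C) (h1 : 1 ≤ ‖x (Fin.last n)‖)
    (c : Fin (n + 1) → F[X]) (h0 : c ≠ 0) (hc : ∀ j, j ≠ Fin.last n → c j = 0) :
    1 ≤ ‖lin θ c x‖ := by
  have h2 : c (Fin.last n) ≠ 0 := fun h => h0 (funext fun j => by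
    by_cases hj : j = Fin.last n
    · rw [hj, h]; rfl
    · exact hc j hj)
  unfold lin
  rw [Finset.sum_eq_single (Fin.last n) (fun j _ hj => by rw [hc j hj]; simp) (by simp), norm_mul]
  exact one_le_mul_of_one_le_of_one_le (TLev_one_le hθ h2) h1

theorem TLev_pick {n : ℕ} (x : Fin (n + 2) → C)
    (hx : ∀ c : Fin (n + 2) → F[X], lin θ c x = 0 → c = 0) (h1 : 1 ≤ ‖x (Fin.last (n + 1))‖) :
    ∃ (c : ℕ → Fin (n + 2) → F[X]) (m : ℕ → ℕ) (j : Fin (n + 2)), j ≠ Fin.last (n + 1) ∧ Lin m ∧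
      (∀ᶠ ℓ in UU, c ℓ j ≠ 0 ∧ ∀ i, (c ℓ i).natDegree ≤ m ℓ) ∧
      HL F θ (lev fun ℓ => lin θ (c ℓ) x) fun _ => x := by
  obtain ⟨c, m, hm, hc, hH⟩ := maxlev hθ x hx
  by_cases h : ∀ᶠ ℓ in UU, ∃ j, j ≠ Fin.last (n + 1) ∧ c ℓ j ≠ 0
  · obtain ⟨j, hj⟩ := ev_fin h
    exact ⟨c, m, j, ev_false (hj.mono fun _ h => h.1), hm,
      (hj.and hc).mono fun _ h => ⟨h.1.2, h.2.2⟩, hH⟩
  · refine ⟨fun _ _ => 1, fun _ => 0, 0, (Fin.last_pos' ).ne, Lin.const 0,
      Eventually.of_forall fun _ => ⟨one_ne_zero, fun _ => by simp⟩, fun d p hp hd =>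
        Low.level ?_ (hH d p hp hd)⟩
    filter_upwards [ev_not.1 h, hc] with ℓ h2 h3
    have h4 := TLev_last hθ x h1 (c ℓ) h3.1 fun j hj => not_not.1 fun h' => h2 ⟨j, hj, h'⟩
    refine le_trans (max_le le_rfl ?_) (one_le_lev _ ℓ)
    have := Real.log_nonneg h4
    linarith

omit hθ [Fintype F] [IsUltrametricDist C] in
theorem TLev_ins {n : ℕ} (x : Fin (n + 1) → C) (j : Fin (n + 1)) (d : Fin n → F[X]) :
    lin θ (Fin.insertNth j 0 d : Fin (n + 1) → F[X]) x = lin θ d fun i => x (j.succAbove i) := by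
  unfold lin
  rw [Fin.sum_univ_succAbove _ j]
  simp

theorem ls (n : ℕ) : ∀ x : Fin (n + 1) → C, (∀ c : Fin (n + 1) → F[X], lin θ c x = 0 → c = 0) →
    1 ≤ ‖x (Fin.last n)‖ →
    ∃ (A : ℕ → Fin (n + 1) → Fin (n + 1) → F[X]) (N : ℕ → ℕ), Lin N ∧
      (∀ᶠ ℓ in UU, (∀ j i, (A ℓ j i).natDegree ≤ N ℓ) ∧
        (∀ c : Fin (n + 1) → F[X], (∀ i, ∑ j, c j * A ℓ j i = 0) → c = 0) ∧
        lin θ (A ℓ (Fin.last n)) x = x (Fin.last n)) ∧
      Good F θ (n + 1) fun ℓ j => lin θ (A ℓ j) x := by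
  induction n with
  | zero =>
    intro x _ h1
    have e : lin θ (fun _ => (1 : F[X])) x = x (Fin.last 0) := by simp [lin]
    refine ⟨fun _ _ _ => 1, fun _ => 0, Lin.const 0, Eventually.of_forall fun ℓ =>
      ⟨fun _ _ => by simp, fun c hc => funext fun j => ?_, e⟩, fun d p _ hd => ?_, trivial⟩
    · have := hc 0
      rw [Subsingleton.elim (α := Fin 1) j 0]
      simpa using this
    · refine Low.mono (hd.mono fun ℓ h => ?_) (Low.const (one_le_lev _) one_pos)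
      exact TLev_last hθ _ (h1.trans_eq (congrArg norm e.symm)) _ h.1 fun j hj =>
        absurd (Subsingleton.elim (α := Fin 1) j _) hj
  | succ n ih =>
    intro x hx h1
    obtain ⟨c, m, j, hj, hm, hc, hH⟩ := TLev_pick hθ x hx h1
    obtain ⟨A, N, hN, hA, hG⟩ := ih (fun i => x (j.succAbove i)) (fun d hd => by
      have h := hx (Fin.insertNth j 0 d) (by rw [TLev_ins]; exact hd)
      funext i
      simpa using congrFun h (j.succAbove i)) (by
        simpa only [Fin.succAbove_ne_last_last hj] using h1)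
    let B : ℕ → Fin (n + 2) → Fin (n + 2) → F[X] := fun ℓ =>
      Fin.cons (c ℓ) fun k => Fin.insertNth j 0 (A ℓ k)
    have hB : ∀ᶠ ℓ in UU, (∀ k i, (B ℓ k i).natDegree ≤ m ℓ + N ℓ) ∧
        (∀ d : Fin (n + 2) → F[X], (∀ i, ∑ k, d k * B ℓ k i = 0) → d = 0) ∧
        lin θ (B ℓ (Fin.last (n + 1))) x = x (Fin.last (n + 1)) := by
      filter_upwards [hc, hA] with ℓ h2 h3
      refine ⟨fun k i => ?_, fun d hd => ?_, ?_⟩
      · refine Fin.cases ?_ (fun k => ?_) k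
        · exact (h2.2 i).trans (Nat.le_add_right _ _)
        · simp only [B, Fin.cons_succ]
          refine Fin.succAboveCases j ?_ (fun i => ?_) i
          · simp
          · rw [Fin.insertNth_apply_succAbove]
            exact (h3.1 k i).trans (Nat.le_add_left _ _)
      · have h4 : d 0 = 0 := by
          have := hd j
          rw [Fin.sum_univ_succ] at this
          simpa [B, h2.1] using this
        have h5 := h3.2.1 (fun k => d k.succ) fun i => by
          have := hd (j.succAbove i)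
          rw [Fin.sum_univ_succ] at this
          simpa [B, h4] using this
        funext k
        refine Fin.cases h4 (fun k => congrFun h5 k) k
      · rw [← Fin.succ_last]
        simp only [B, Fin.cons_succ]
        rw [TLev_ins, h3.2.2, Fin.succAbove_ne_last_last hj, Fin.succ_last]
    refine ⟨B, fun ℓ => m ℓ + N ℓ, hm.add hN, hB, fun d p hp hd => ?_, ?_⟩
    · simp only [lin_lin]
      refine hH (fun ℓ i => ∑ k, d ℓ k * B ℓ k i) (fun ℓ => p ℓ + (m ℓ + N ℓ))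
        (hp.add (hm.add hN)) ?_
      filter_upwards [hd, hB] with ℓ h2 h3
      exact ⟨fun h => h2.1 (h3.2.1 _ fun i => congrFun h i), fun i =>
        natDegree_sum_le_of_forall_le _ _ fun k _ =>
          natDegree_mul_le.trans (Nat.add_le_add (h2.2 k) (h3.1 k i))⟩
    · convert hG using 3 with ℓ k
      simp only [Fin.tail, B, Fin.cons_succ]
      rw [TLev_ins]

end Pool.Agent.MP_ee2255_nt.T

end

section

/-! The dimension bound. -/

namespace Pool.Agent.MP_ee2255_nt.T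

open Polynomial Filter Topology Pool.Agent.MP_655169_nt

theorem TCor1_num {c d r q N0 s δ : ℕ} (hq : 2 ≤ q) (hd : d ≤ r) (hδ : δ ≤ 2 ^ (N0 * s))
    (hs : c * (d + r + 2) ^ d < q ^ s) :
    c * ((d + r + 1) * q ^ ((d * (N0 + 1) + 1) * s) * q ^ ((d * (N0 + 1) + 2) * s) * δ + 1) ^ d <
      (q ^ ((d * (N0 + 1) + 1) * s) + 1) ^ (d + r + 1) := by
  set N1 := d * (N0 + 1) + 1 with hN1
  have hq0 : 0 < q := by omega
  have h1 : δ ≤ q ^ (N0 * s) := hδ.trans (Nat.pow_le_pow_left hq _)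
  have h2 : (d + r + 1) * q ^ (N1 * s) * q ^ ((d * (N0 + 1) + 2) * s) * δ + 1 ≤
      (d + r + 2) * q ^ ((2 * N1 + 1 + N0) * s) := by
    have e : q ^ ((2 * N1 + 1 + N0) * s) =
        q ^ (N1 * s) * q ^ ((d * (N0 + 1) + 2) * s) * q ^ (N0 * s) := by
      rw [← pow_add, ← pow_add]
      congr 1
      rw [hN1]; ring
    have h3 : 1 ≤ q ^ ((2 * N1 + 1 + N0) * s) := Nat.pow_pos hq0
    have h4 : (d + r + 1) * q ^ (N1 * s) * q ^ ((d * (N0 + 1) + 2) * s) * δ ≤
        (d + r + 1) * q ^ ((2 * N1 + 1 + N0) * s) := by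
      rw [e, ← mul_assoc, ← mul_assoc]
      exact Nat.mul_le_mul_left _ h1
    calc _ ≤ (d + r + 1) * q ^ ((2 * N1 + 1 + N0) * s) + q ^ ((2 * N1 + 1 + N0) * s) :=
          add_le_add h4 h3
      _ = _ := by ring
  calc _ ≤ c * ((d + r + 2) * q ^ ((2 * N1 + 1 + N0) * s)) ^ d :=
        Nat.mul_le_mul_left _ (Nat.pow_le_pow_left h2 _)
    _ = c * (d + r + 2) ^ d * q ^ ((2 * N1 + 1 + N0) * s * d) := by
        rw [mul_pow, ← pow_mul, mul_assoc c]
    _ < q ^ s * q ^ ((2 * N1 + 1 + N0) * s * d) :=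
        Nat.mul_lt_mul_of_pos_right hs (Nat.pow_pos hq0)
    _ = (q ^ (N1 * s)) ^ (2 * d + 1) := by
        rw [← pow_add, ← pow_mul]
        congr 1
        rw [hN1]; ring
    _ ≤ (q ^ (N1 * s)) ^ (d + r + 1) := Nat.pow_le_pow_right (Nat.pow_pos hq0) (by omega)
    _ ≤ _ := Nat.pow_le_pow_left (Nat.le_succ _) _

variable {F E C Ω : Type*} [Field F] [Fintype F] [Field E] [Infinite E] [NormedField C]
  [IsUltrametricDist C] [IsAlgClosed C] [Algebra F C] [Algebra E C] [Algebra F E]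
  [IsScalarTower F E C] [NormedField Ω] [IsUltrametricDist Ω] [IsAlgClosed Ω]
  [Algebra C Ω] [Algebra F Ω] [IsScalarTower F C Ω] (X : Ctx F E C Ω)

theorem ctx_bound {n : ℕ} (x y : Fin (n + 1) → C) (hm : ∀ j, x j ∈ Vs F X.ω 1 ∧ y j ∈ Vs F X.ω 1)
    (hs : ∀ j, HS F X.Z.θ (x j) (y j)) (hl : x (Fin.last n) = X.per)
    (hx : ∀ c : Fin (n + 1) → F[X], lin X.Z.θ c x = 0 → c = 0) : n + 2 ≤ X.d := by
  by_contra hd
  have hd' : X.d ≤ n + 1 := by omega
  have hq := two_le_qq (F := F)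
  have hθ1 := X.Z.hθ
  have hθ : X.Z.θ ∈ Vs F X.ω 1 := X.hθ ▸ Vs_var X.ω X.iθ
  have hper : 1 ≤ ‖x (Fin.last n)‖ := by
    rw [hl, X.nπ]
    exact one_le_mul_of_one_le_of_one_le hθ1.le (zeta_norm hθ1 X.hζ).1.le
  obtain ⟨A, N, hN, hA, hG⟩ := ls hθ1 n x hx hper
  have hagf : ∀ ℓ j, ∃ f, X.Z.Agf (lin X.Z.θ (A ℓ j) x) (∑ i, carl X.Z.θ (A ℓ j i) (y i)) f :=
    fun ℓ j => X.Z.exists_agf _ _ (HS.lin hθ1 hs (A ℓ j))
  choose f hf using hagf
  obtain ⟨K, hK⟩ : ∃ K : ℕ, ∀ j, ‖x j‖ ≤ ‖X.Z.θ‖ ^ K := by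
    obtain ⟨K, hK⟩ := pow_unbounded_of_one_lt (∑ j, ‖x j‖) hθ1
    exact ⟨K, fun j => (Finset.single_le_sum (f := fun j => ‖x j‖) (fun _ _ => norm_nonneg _)
      (Finset.mem_univ j)).trans hK.le⟩
  have hδ0 : Pol fun ℓ => N ℓ + 1 + qq F ^ N ℓ :=
    ((hN.add (Lin.const 1)).pol).add (hN.pow_pol (qq F))
  have hdeg : ∀ᶠ ℓ in UU, ∀ j, lin X.Z.θ (A ℓ j) x ∈ Vs F X.ω (N ℓ + 1 + qq F ^ N ℓ) ∧
      ∑ i, carl X.Z.θ (A ℓ j i) (y i) ∈ Vs F X.ω (N ℓ + 1 + qq F ^ N ℓ) := by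
    filter_upwards [hA] with ℓ h j
    refine ⟨Vs_mono _ (Nat.le_add_right _ _) (lin_Vs _ X.ω hθ (h.1 j) fun i => (hm i).1),
      Submodule.sum_mem _ fun i _ => Vs_mono _ ?_ (carl_Vs _ X.ω hθ le_rfl (h.1 j i) (hm i).2)⟩
    omega
  have hF : Fam X (fun ℓ j => lin X.Z.θ (A ℓ j) x)
      (fun ℓ j => ∑ i, carl X.Z.θ (A ℓ j i) (y i)) f := by
    refine ⟨Eventually.of_forall hf, ⟨_, hδ0, hdeg⟩, ⟨_, hN.add (Lin.const K), ?_⟩, ?_⟩
    · filter_upwards [hA] with ℓ h j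
      rw [pow_add]
      exact lin_norm hθ1 (h.1 j) (by positivity) hK
    · filter_upwards [hA] with ℓ h j hj
      have : j = Fin.last n := Fin.ext (by rw [Fin.val_last]; omega)
      rw [this, h.2.2, hl]
  obtain ⟨N0, hN0⟩ := hδ0
  have hrk : Rk F X.ω X.d := by
    obtain ⟨e, he⟩ := X.rk
    exact ⟨e, he.restrictScalars (algebraMap F E).injective⟩
  have hbig : ∀ᶠ ℓ in UU, X.c0 * (X.d + (n + 1) + 2) ^ X.d < qq F ^ (ℓ + 1) := by
    filter_upwards [(Lin.const (X.c0 * (X.d + (n + 1) + 2) ^ X.d)).lt_pow 1 one_pos hq] with ℓ h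
    rw [one_mul, one_mul] at h
    exact_mod_cast h
  have hk1 : ∀ ℓ, (X.d * (N0 + 1) + 2) * (ℓ + 1) - 1 + 1 = (X.d * (N0 + 1) + 2) * (ℓ + 1) :=
    fun ℓ => Nat.sub_add_cancel (Nat.mul_pos (by omega) (by omega))
  have hP : ∀ᶠ ℓ in UU, ∃ P : MvPolynomial (Fin (n + 1)) C[X], P ≠ 0 ∧
      P.totalDegree ≤ (n + 1) * qq F ^ ((X.d * (N0 + 1) + 1) * (ℓ + 1)) ∧
      (∀ e, (P.coeff e).natDegree ≤ qq F ^ ((X.d * (N0 + 1) + 1) * (ℓ + 1)) ∧
        ∀ j, (P.coeff e).coeff j ∈ Vs F X.ω (X.d * qq F ^ ((X.d * (N0 + 1) + 1) * (ℓ + 1)))) ∧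
      X.Z.VV (fun j => lin X.Z.θ (A ℓ j) x) (fun j => ∑ i, carl X.Z.θ (A ℓ j i) (y i))
        ((X.d * (N0 + 1) + 2) * (ℓ + 1) - 1) P = 0 := by
    filter_upwards [hdeg, hN0, hbig] with ℓ h1 h2 h3
    refine count X.Z X.ω X.growF hrk hθ _ _ (by omega) h1 ?_
    rw [hk1]
    exact TCor1_num hq hd' h2 h3
  obtain ⟨P, hP⟩ := ev_choose hP
  have hD0 : Pol fun ℓ => qq F ^ ((X.d * (N0 + 1) + 1) * (ℓ + 1)) :=
    (Lin.id (X.d * (N0 + 1) + 1)).pow_pol (qq F)
  have key := mc X (fun ℓ => (n + 2) * qq F ^ ((X.d * (N0 + 1) + 1) * (ℓ + 1)))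
    (fun ℓ => (X.d * (N0 + 1) + 2) * (ℓ + 1) - 1) ((Pol.const _).mul hD0) (by
      intro T hT
      filter_upwards [hT.lt_pow ((n + 2) * Real.log ‖X.Z.θ‖) X.hη hq] with ℓ h
      rw [hk1, ← Real.exp_log (one_pos.trans hθ1), ← Real.exp_nat_mul, Real.exp_lt_exp]
      have e : qq F ^ ((X.d * (N0 + 1) + 2) * (ℓ + 1)) =
          qq F ^ ((X.d * (N0 + 1) + 1) * (ℓ + 1)) * qq F ^ (ℓ + 1) := by
        rw [← pow_add]
        congr 1
        ring
      rw [e]
      have h0 : (0 : ℝ) < (qq F : ℝ) ^ ((X.d * (N0 + 1) + 1) * (ℓ + 1)) := by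
        have : (0 : ℝ) < qq F := by exact_mod_cast (by omega : 0 < qq F)
        positivity
      have := mul_lt_mul_of_pos_left h h0
      push_cast
      linarith) (n + 1) _ _ f hF hG P _ (fun _ => 1) ((Pol.const X.d).mul hD0) (Lin.const 1) (by
      filter_upwards [hP] with ℓ h
      refine ⟨h.1, h.2.1.trans (Nat.mul_le_mul_right _ (by omega)), fun e =>
        ⟨(h.2.2.1 e).1.trans ?_, (h.2.2.1 e).2⟩⟩
      rw [mul_one]
      exact Nat.le_mul_of_pos_left _ (by omega))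
  refine ev_false (p := False) ?_
  filter_upwards [key, hP] with ℓ h1 h2
  have h3 := h1.2
  rw [h2.2.2.2, norm_zero] at h3
  exact absurd h3 (not_le.2 (pow_pos (norm_pos_iff.2 h1.1) _))

end Pool.Agent.MP_ee2255_nt.T

end

section

/-! Completion at a discrete valuation. -/

namespace Pool.Agent.MP_ee2255_nt.T

open Polynomial Filter Topology Pool.Agent.MP_655169_nt

universe u

/-- Discreteness of the norm passes to the completion. -/
theorem xnrmc_compl {K : Type u} [NormedField K] [IsUltrametricDist K]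
    (h : ∀ x : K, x ≠ 0 → ∃ n : ℤ, ‖x‖ = 2 ^ n) :
    Gap (⊤ : Subfield (UniformSpace.Completion K)) (Real.log 2) := by
  have := amb2_ultra (K := K)
  have key : ∀ z : UniformSpace.Completion K, z ≠ 0 → ∃ n : ℤ, ‖z‖ = 2 ^ n := by
    intro z hz
    obtain ⟨a, ha⟩ := Metric.denseRange_iff.1 (UniformSpace.Completion.denseRange_coe (α := K))
      z ‖z‖ (norm_pos_iff.2 hz)
    rw [dist_eq_norm] at ha
    have e : ‖z‖ = ‖a‖ := by
      have h1 := IsUltrametricDist.norm_add_eq_max_of_norm_ne_norm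
        (x := z) (y := -(z - a)) (by rw [norm_neg]; exact ha.ne')
      rw [norm_neg, max_eq_left ha.le, neg_sub, add_sub_cancel,
        UniformSpace.Completion.norm_coe] at h1
      exact h1.symm
    rw [e]
    exact h a (norm_pos_iff.1 (e ▸ norm_pos_iff.2 hz))
  intro y _ z _ hyz
  rw [Real.exp_neg, Real.exp_log two_pos]
  rcases eq_or_ne y 0 with rfl | hy
  · rw [norm_zero]; positivity
  obtain ⟨a, ha⟩ := key y hy
  obtain ⟨b, hb⟩ := key z (norm_pos_iff.1 ((norm_nonneg y).trans_lt hyz))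
  rw [ha, hb] at hyz ⊢
  have hab : a ≤ b - 1 := by
    have := (zpow_lt_zpow_iff_right₀ (one_lt_two (α := ℝ))).1 hyz
    omega
  calc (2 : ℝ) ^ a ≤ 2 ^ (b - 1) := zpow_le_zpow_right₀ one_le_two hab
    _ = _ := by rw [zpow_sub_one₀ two_ne_zero, mul_comm]

theorem exists_compl {K : Type u} [Field K] (v : Valuation K (WithZero (Multiplicative ℤ))) :
    ∃ (L : Type u) (_ : NormedField L) (_ : IsUltrametricDist L) (_ : CompleteSpace L)
      (φ : K →+* L) (η : ℝ), 0 < η ∧ Gap (⊤ : Subfield L) η ∧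
        ∀ x, (v x ≤ 1 → ‖φ x‖ ≤ 1) ∧ (v x < 1 → ‖φ x‖ < 1) := by
  have h2 : (2 : NNReal) ≠ 0 := two_ne_zero
  have hm := WithZeroMulInt.toNNReal_strictMono (e := 2) one_lt_two
  have hna : ∀ x y : K, (WithZeroMulInt.toNNReal h2 (v (x + y)) : ℝ) ≤
      max (WithZeroMulInt.toNNReal h2 (v x) : ℝ) (WithZeroMulInt.toNNReal h2 (v y) : ℝ) := by
    intro x y
    rcases le_max_iff.1 (v.map_add x y) with h | h
    · exact le_max_of_le_left (NNReal.coe_le_coe.2 (hm.monotone h))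
    · exact le_max_of_le_right (NNReal.coe_le_coe.2 (hm.monotone h))
  let f : AbsoluteValue K ℝ :=
    { toFun := fun x => WithZeroMulInt.toNNReal h2 (v x)
      map_mul' := fun x y => by simp
      nonneg' := fun x => NNReal.coe_nonneg _
      eq_zero' := fun x => by simp
      add_le' := fun x y => (hna x y).trans (max_le
        (le_add_of_nonneg_right (NNReal.coe_nonneg _))
        (le_add_of_nonneg_left (NNReal.coe_nonneg _))) }
  let _ : NormedField K := f.toNormedField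
  have hn : ∀ x : K, ‖x‖ = WithZeroMulInt.toNNReal h2 (v x) := fun _ => rfl
  have : IsUltrametricDist K := IsUltrametricDist.isUltrametricDist_of_isNonarchimedean_norm hna
  refine ⟨UniformSpace.Completion K, inferInstance, amb2_ultra, inferInstance,
    UniformSpace.Completion.coeRingHom, Real.log 2, Real.log_pos one_lt_two,
    xnrmc_compl fun x hx => ?_, fun x => ?_⟩
  · rw [hn, WithZeroMulInt.toNNReal_neg_apply h2 (v.ne_zero_iff.2 hx)]
    exact ⟨_, by push_cast; rfl⟩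
  · change (_ → ‖(x : UniformSpace.Completion K)‖ ≤ 1) ∧
      (_ → ‖(x : UniformSpace.Completion K)‖ < 1)
    rw [UniformSpace.Completion.norm_coe, hn]
    exact ⟨fun h => by exact_mod_cast (WithZeroMulInt.toNNReal_le_one_iff one_lt_two).2 h,
      fun h => by exact_mod_cast (WithZeroMulInt.toNNReal_lt_one_iff one_lt_two).2 h⟩

theorem xnrmc_closed {K : Type u} [NormedField K] [IsUltrametricDist K] [CompleteSpace K]
    (θ : K) (hθ : 1 < ‖θ‖) :
    ∃ (L : Type u) (_ : NormedField L) (_ : IsUltrametricDist L) (_ : IsAlgClosed L)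
      (φ : K →+* L), ∀ x, ‖φ x‖ = ‖x‖ := by
  let _ : NontriviallyNormedField K := { non_trivial := ⟨θ, hθ⟩ }
  obtain ⟨Ω, i1, i2, i3, φ, -, hφ, -⟩ := amb3 1 one_pos (RingHom.id K) fun y => by simp
  exact ⟨Ω, i1, i2, i3, φ, hφ⟩

/-- An isometric embedding into a complete field containing a root of `X ^ n = a`. -/
theorem exists_root_ext {K : Type u} [NormedField K] [IsUltrametricDist K] [CompleteSpace K]
    (θ : K) (hθ : 1 < ‖θ‖) (a : K) {n : ℕ} (hn : 0 < n) :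
    ∃ (L : Type u) (_ : NormedField L) (_ : IsUltrametricDist L) (_ : CompleteSpace L)
      (φ : K →+* L) (ζ : L), (∀ x, ‖φ x‖ = ‖x‖) ∧ ζ ^ n = φ a := by
  obtain ⟨Ω, i1, i2, i3, φ, hφ⟩ := xnrmc_closed θ hθ
  obtain ⟨ζ, hζ⟩ := IsAlgClosed.exists_pow_nat_eq (φ a) hn
  obtain ⟨L, j1, j2, j3, ψ, -, hψ, -⟩ := amb2 1 one_pos (RingHom.id Ω) fun y => by simp
  exact ⟨L, j1, j2, j3, ψ.comp φ, ψ ζ, fun x => by rw [RingHom.comp_apply, hψ, hφ],
    by rw [← map_pow, hζ, RingHom.comp_apply]⟩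

/-- An isometric embedding into an algebraically closed field. -/
theorem exists_closed_ext {K : Type u} [NormedField K] [IsUltrametricDist K] [CompleteSpace K]
    (θ : K) (hθ : 1 < ‖θ‖) :
    ∃ (L : Type u) (_ : NormedField L) (_ : IsUltrametricDist L) (_ : IsAlgClosed L)
      (φ : K →+* L), ∀ x, ‖φ x‖ = ‖x‖ := xnrmc_closed θ hθ

end Pool.Agent.MP_ee2255_nt.T

end

section

/-! The bound in an algebraically closed field. -/

namespace Pool.Agent.MP_ee2255_nt.T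

open Polynomial Filter Topology Pool.Agent.MP_655169_nt

theorem tcor2_root {F C : Type*} [Field F] [Fintype F] [NormedField C] [IsUltrametricDist C]
    [Algebra F C] {ξ : C} {p : F[X]} (hp : p ≠ 0) (h : aeval ξ p = 0) : ‖ξ‖ ≤ 1 := by
  refine root_le (p.map (algebraMap F C)) 1 le_rfl (fun j => ?_) ?_ ξ ?_
  · rw [coeff_map]
    by_cases h0 : p.coeff j = 0
    · rw [h0, map_zero, norm_zero]
      exact zero_le_one
    · exact (norm_F_eq _ h0).le
  · rw [leadingCoeff_map]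
    exact (norm_F_eq _ (leadingCoeff_ne_zero.2 hp)).ge
  · rw [eval_map_algebraMap]
    exact h

theorem core {F C : Type*} [Field F] [Fintype F] [NormedField C] [IsUltrametricDist C]
    [IsAlgClosed C] [Algebra F C] {θ : C} (hθ : 1 < ‖θ‖) (E0 : Subfield C) {η : ℝ} (hη : 0 < η)
    (hg : Gap E0 η) (hF : ∀ a : F, algebraMap F C a ∈ E0) (hθ0 : θ ∈ E0)
    (hex : ∀ u ∈ E0, ∃ al, HS F θ u al) {n : ℕ} (x y : Fin (n + 1) → C)
    (hm : ∀ j, x j ∈ E0 ∧ y j ∈ E0) (hs : ∀ j, HS F θ (x j) (y j)) {ζ : C}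
    (hζ : ζ ^ (qq F - 1) = -θ) (hπ : HS F θ (x (Fin.last n) / θ) ζ)
    (hn : ‖x (Fin.last n)‖ = ‖θ‖ * ‖ζ‖) (hx : ∀ c : Fin (n + 1) → F[X], lin θ c x = 0 → c = 0) :
    Rk F (fun o : Option (Fin (n + 1) ⊕ Fin (n + 1)) => o.elim θ (Sum.elim x y)) (n + 2) := by
  classical
  obtain ⟨Ω, _, _, _, _, _, _, Z, hZ⟩ := amb (F := F) θ hθ
  subst hZ
  let E := algebraicClosure F C
  have : IsAlgClosed E := (algebraicClosure.isAlgClosure F C).isAlgClosed
  have : Infinite E := inferInstance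
  let W : Option (Fin (n + 1) ⊕ Fin (n + 1)) → C := fun o => o.elim Z.θ (Sum.elim x y)
  let eq := Fintype.equivFin (Option (Fin (n + 1) ⊕ Fin (n + 1)))
  let ω : Fin (Fintype.card (Option (Fin (n + 1) ⊕ Fin (n + 1)))) → C := fun i => W (eq.symm i)
  have hW : ∀ o, ω (eq o) = W o := fun o => by simp [ω]
  obtain ⟨d, hd, hd'⟩ := exists_max (E := F) ω
  obtain ⟨c, hc⟩ := grow_of_max hd hd'
  have hE : ∀ e : E, ‖algebraMap E C e‖ ≤ 1 := by
    intro e
    obtain ⟨p, hp, h⟩ := mem_algebraicClosure_iff.1 e.2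
    exact tcor2_root hp h
  have hmem : ∀ i, ω i ∈ E0 := by
    intro i
    change W (eq.symm i) ∈ E0
    rcases eq.symm i with _ | j | j
    · exact hθ0
    · exact (hm j).1
    · exact (hm j).2
  let X : Ctx F E C Ω :=
    { Z := Z, ν := _, ω := ω, d := d, c0 := c, hE := hE, growE := grow_ext hc, growF := hc,
      rk := hd.ext, iθ := eq none, hθ := hW none, E0 := E0, η := η, hη := hη, gap := hg,
      memF := hF, memω := hmem, hex := hex, per := x (Fin.last n), ζ := ζ,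
      memπ := (hm _).1, hζ := hζ, hπ := hπ, nπ := hn }
  have hb : n + 2 ≤ d := by
    refine ctx_bound X x y (fun j => ⟨?_, ?_⟩) hs rfl hx
    · have := Vs_var (F := F) ω (eq (some (Sum.inl j)))
      rwa [hW] at this
    · have := Vs_var (F := F) ω (eq (some (Sum.inr j)))
      rwa [hW] at this
  exact (hd.mono hb).comp fun i => ⟨eq.symm i, rfl⟩

theorem tcor2_per {F K : Type*} [Field F] [Fintype F] [NormedField K] [IsUltrametricDist K]
    [CompleteSpace K] [Algebra F K] {θ ζ : K} (hθ : 1 < ‖θ‖) {η : ℝ} (hη : 0 < η)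
    (hg : Gap (⊤ : Subfield K) η) (hζ : ζ ^ (qq F - 1) = -θ) {n : ℕ} (x y : Fin (n + 1) → K)
    (hs : ∀ j, HS F θ (x j) (y j)) (hπ : HS F θ (x (Fin.last n) / θ) ζ)
    (hn : ‖x (Fin.last n)‖ = ‖θ‖ * ‖ζ‖) (hx : ∀ c : Fin (n + 1) → F[X], lin θ c x = 0 → c = 0) :
    Rk F (fun o : Option (Fin (n + 1) ⊕ Fin (n + 1)) => o.elim θ (Sum.elim x y)) (n + 2) := by
  obtain ⟨L, _, _, _, φ, hφ⟩ := exists_closed_ext θ hθ
  let _ : Algebra F L := (φ.comp (algebraMap F K)).toAlgebra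
  let ψ : K →ₐ[F] L := { φ with commutes' := fun _ => rfl }
  have hψ : ∀ a, ψ a = φ a := fun _ => rfl
  have key := core (F := F) (C := L) (θ := φ θ) (by rwa [hφ]) φ.fieldRange hη
    (by
      rintro _ ⟨a, rfl⟩ _ ⟨b, rfl⟩ h
      rw [hφ, hφ] at h ⊢
      exact hg a trivial b trivial h)
    (fun a => ⟨algebraMap F K a, rfl⟩) ⟨θ, rfl⟩
    (by
      rintro _ ⟨a, rfl⟩
      exact ⟨_, (HS.exp (F := F) hθ a).map φ hφ⟩)
    (fun j => φ (x j)) (fun j => φ (y j)) (fun j => ⟨⟨_, rfl⟩, ⟨_, rfl⟩⟩)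
    (fun j => (hs j).map φ hφ) (ζ := φ ζ) (by rw [← map_pow, hζ, map_neg])
    (by
      have := hπ.map φ hφ
      rwa [map_div₀] at this)
    (by rw [hφ, hφ, hφ, hn])
    (by
      intro c hc
      apply hx c
      have h1 := lin_map θ ψ c x
      simp only [hψ] at h1
      rw [← h1] at hc
      exact (map_eq_zero φ).1 hc)
  rw [← Rk.map_iff ψ]
  convert key using 1
  funext o
  rcases o with _ | j | j <;> rfl

theorem tcor2_alg {F K κ : Type*} [Field F] [Field K] [Algebra F K] (ω : κ → K) {a : K}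
    (h : a ∈ IntermediateField.adjoin F (Set.range ω)) :
    IsAlgebraic (IntermediateField.adjoin F (Set.range ω)) a :=
  isAlgebraic_algebraMap (⟨a, h⟩ : IntermediateField.adjoin F (Set.range ω))

theorem tcor2_mem {F K κ : Type*} [Field F] [Field K] [Algebra F K] (ω : κ → K) (i : κ) :
    ω i ∈ IntermediateField.adjoin F (Set.range ω) :=
  IntermediateField.subset_adjoin _ _ ⟨i, rfl⟩

theorem tcor2_snoc {F K : Type*} [Field F] [Field K] [Algebra F K] (θ : K) {n : ℕ}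
    (c : Fin (n + 1) → F[X]) (x : Fin n → K) (w : K) :
    lin θ c (Fin.snoc x w : Fin (n + 1) → K) =
      lin θ (fun j => c j.castSucc) x + aeval θ (c (Fin.last n)) * w := by
  simp [lin, Fin.sum_univ_castSucc]

/-- The theorem over a complete discretely valued field containing `ζ`. -/
theorem disc {F K : Type*} [Field F] [Fintype F] [NormedField K] [IsUltrametricDist K]
    [CompleteSpace K] [Algebra F K] {θ ζ : K} (hθ : 1 < ‖θ‖) {η : ℝ} (hη : 0 < η)
    (hg : Gap (⊤ : Subfield K) η) (hζ : ζ ^ (qq F - 1) = -θ) {n : ℕ} (x y : Fin n → K)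
    (hs : ∀ j, HS F θ (x j) (y j)) (hx : ∀ c : Fin n → F[X], lin θ c x = 0 → c = 0) :
    Rk F (fun o : Option (Fin n ⊕ Fin n) => o.elim θ (Sum.elim x y)) (n + 1) := by
  classical
  obtain ⟨π, hπ, hn⟩ := exists_per (F := F) hθ hζ
  have h0 : 0 < ‖θ‖ := one_pos.trans hθ
  have hθ0 : θ ≠ 0 := norm_pos_iff.1 h0
  have hπ0 : π ≠ 0 := by
    rw [← norm_pos_iff, hn]
    exact mul_pos h0 (one_pos.trans (TPi_zeta hθ hζ).1)
  have hz : HS F θ π 0 := by
    have := hπ.theta hθ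
    rwa [TPi_pow hζ, add_neg_cancel, mul_div_cancel₀ _ hθ0] at this
  have htr : ∀ p : F[X], aeval θ p = 0 → p = 0 := by
    intro p hp
    by_contra h
    exact absurd (tcor2_root h hp) (not_le.2 hθ)
  have hsn : ∀ {m : ℕ} (a b : Fin m → K), (∀ j, HS F θ (a j) (b j)) → ∀ j,
      HS F θ ((Fin.snoc a π : Fin (m + 1) → K) j) ((Fin.snoc b 0 : Fin (m + 1) → K) j) := by
    intro m a b h j
    refine Fin.lastCases ?_ (fun j => ?_) j
    · simpa using hz
    · simpa using h j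
  by_cases hI : ∀ c : Fin (n + 1) → F[X], lin θ c (Fin.snoc x π : Fin (n + 1) → K) = 0 → c = 0
  · have key := tcor2_per hθ hη hg hζ (Fin.snoc x π) (Fin.snoc y 0) (hsn x y hs)
      (by simpa using hπ) (by simpa using hn) hI
    refine Rk.drop π (key.exch fun i => tcor2_alg _ ?_)
    rcases i with _ | j | j
    · exact tcor2_mem _ (some none)
    · refine Fin.lastCases ?_ (fun j => ?_) j
      · simpa using tcor2_mem (F := F) (fun o : Option (Option (Fin n ⊕ Fin n)) =>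
          o.elim π fun o => o.elim θ (Sum.elim x y)) none
      · simpa using tcor2_mem (F := F) (fun o : Option (Option (Fin n ⊕ Fin n)) =>
          o.elim π fun o => o.elim θ (Sum.elim x y)) (some (some (Sum.inl j)))
    · refine Fin.lastCases ?_ (fun j => ?_) j
      · simp
      · simpa using tcor2_mem (F := F) (fun o : Option (Option (Fin n ⊕ Fin n)) =>
          o.elim π fun o => o.elim θ (Sum.elim x y)) (some (some (Sum.inr j)))
  · push Not at hI
    obtain ⟨c, hc, hc0⟩ := hI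
    rw [tcor2_snoc] at hc
    have hl : c (Fin.last n) ≠ 0 := by
      intro h
      rw [h, map_zero, zero_mul, add_zero] at hc
      have h1 := hx _ hc
      apply hc0
      funext j
      refine Fin.lastCases h (fun j => congrFun h1 j) j
    have hl' : aeval θ (c (Fin.last n)) ≠ 0 := fun h => hl (htr _ h)
    obtain ⟨j0, hj0⟩ : ∃ j0 : Fin n, c j0.castSucc ≠ 0 := by
      by_contra h
      push Not at h
      simp only [lin, h, map_zero, zero_mul, Finset.sum_const_zero, zero_add] at hc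
      exact mul_ne_zero hl' hπ0 hc
    obtain ⟨m, rfl⟩ : ∃ m, n = m + 1 := ⟨n - 1, by have := j0.pos; omega⟩
    have hind : ∀ a : Fin (m + 1) → F[X],
        lin θ a (Fin.snoc (fun i => x (j0.succAbove i)) π : Fin (m + 1) → K) = 0 → a = 0 := by
      intro a ha
      rw [tcor2_snoc] at ha
      let b : Fin (m + 1) → F[X] := fun j =>
        c (Fin.last (m + 1)) * (j0.insertNth 0 fun i => a i.castSucc : Fin (m + 1) → F[X]) j -
          a (Fin.last m) * c j.castSucc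
      have hb : lin θ b x = 0 := by
        have e1 : lin θ (j0.insertNth 0 fun i => a i.castSucc : Fin (m + 1) → F[X]) x =
            lin θ (fun j => a j.castSucc) fun i => x (j0.succAbove i) := by
          simp [lin, Fin.sum_univ_succAbove _ j0]
        have e2 : lin θ b x = aeval θ (c (Fin.last (m + 1))) *
            lin θ (j0.insertNth 0 fun i => a i.castSucc : Fin (m + 1) → F[X]) x -
            aeval θ (a (Fin.last m)) * lin θ (fun j => c j.castSucc) x := by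
          simp only [lin, b, map_sub, map_mul, Finset.mul_sum, ← Finset.sum_sub_distrib]
          exact Finset.sum_congr rfl fun j _ => by ring
        rw [e2, e1]
        linear_combination aeval θ (c (Fin.last (m + 1))) * ha - aeval θ (a (Fin.last m)) * hc
      have hb0 := hx b hb
      have ha0 : a (Fin.last m) = 0 := by
        have := congrFun hb0 j0
        simp only [b, Fin.insertNth_apply_same, mul_zero, zero_sub, Pi.zero_apply, neg_eq_zero,
          mul_eq_zero] at this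
        exact this.resolve_right hj0
      funext i
      refine Fin.lastCases ha0 (fun i => ?_) i
      have := congrFun hb0 (j0.succAbove i)
      simp only [b, Fin.insertNth_apply_succAbove, ha0, zero_mul, sub_zero, Pi.zero_apply,
        mul_eq_zero] at this
      exact this.resolve_left hl
    have key := tcor2_per hθ hη hg hζ (Fin.snoc (fun i => x (j0.succAbove i)) π)
      (Fin.snoc (fun i => y (j0.succAbove i)) 0) (hsn _ _ fun i => hs _)
      (by simpa using hπ) (by simpa using hn) hind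
    refine key.exch fun i => tcor2_alg _ ?_
    have hθm := tcor2_mem (F := F) (fun o : Option (Fin (m + 1) ⊕ Fin (m + 1)) =>
      o.elim θ (Sum.elim x y)) none
    have hxm := fun j => tcor2_mem (F := F) (fun o : Option (Fin (m + 1) ⊕ Fin (m + 1)) =>
      o.elim θ (Sum.elim x y)) (some (Sum.inl j))
    have hym := fun j => tcor2_mem (F := F) (fun o : Option (Fin (m + 1) ⊕ Fin (m + 1)) =>
      o.elim θ (Sum.elim x y)) (some (Sum.inr j))
    generalize IntermediateField.adjoin F (Set.range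
      fun o : Option (Fin (m + 1) ⊕ Fin (m + 1)) => o.elim θ (Sum.elim x y)) = S at hθm hxm hym ⊢
    have hae : ∀ p : F[X], aeval θ p ∈ S := by
      intro p
      rw [aeval_eq_sum_range]
      exact S.sum_mem fun i _ => S.smul_mem (pow_mem (show θ ∈ S from hθm) i)
    rcases i with _ | j | j
    · exact hθm
    · refine Fin.lastCases ?_ (fun j => ?_) j
      · have e : π = -(lin θ (fun j => c j.castSucc) x) / aeval θ (c (Fin.last (m + 1))) := by
          rw [eq_div_iff hl']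
          linear_combination hc
        have hm : π ∈ S := by
          rw [e]
          exact S.div_mem (S.neg_mem (S.sum_mem fun j _ => S.mul_mem (hae _) (hxm j))) (hae _)
        simpa using hm
      · simpa using hxm (j0.succAbove j)
    · refine Fin.lastCases ?_ (fun j => ?_) j
      · simp
      · simpa using hym (j0.succAbove j)

end Pool.Agent.MP_ee2255_nt.T

end

section

/-! Valuation rings over a Noetherian domain of dimension one are discrete. -/

namespace Pool.Agent.MP_ee2255_nt.T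

open Polynomial Filter Topology Pool.Agent.MP_655169_nt
open scoped Pointwise

theorem dvr1_len_smul {A : Type*} [CommRing A] {a : A} (ha : a ∈ nonZeroDivisors A)
    (I : Ideal A) : Order.coheight (a • I) = Order.coheight I + Ring.ord A a := by
  have := Module.length_eq_add_of_exact (Ideal.mulQuot a I) (Ideal.quotOfMul a I)
    (Ideal.mulQuot_injective I ha) (Ideal.quotOfMul_surjective I) (Ideal.exact_mulQuot_quotOfMul I)
  rw [Module.length_quotient, Module.length_quotient (N := I)] at this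
  exact this

/-- The ideal of elements of value at most `t`. -/
def dvr1J {A K : Type*} [CommRing A] [Field K] [Algebra A K] (V : ValuationSubring K)
    (hV : ∀ a : A, algebraMap A K a ∈ V) (t : V.ValueGroup) : Ideal A where
  carrier := {x | V.valuation (algebraMap A K x) ≤ t}
  add_mem' := fun {x y} hx hy => by
    simp only [Set.mem_ofPred_eq, map_add] at hx hy ⊢
    exact V.valuation.map_add_le hx hy
  zero_mem' := by simp
  smul_mem' := fun c x hx => by
    simp only [Set.mem_ofPred_eq, smul_eq_mul, map_mul] at hx ⊢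
    exact (mul_le_of_le_one_left' ((V.valuation_le_one_iff _).2 (hV c))).trans hx

theorem dvr1_chain {A K : Type*} [CommRing A] [IsDomain A] [IsNoetherianRing A]
    [Ring.KrullDimLE 1 A] [Field K] [Algebra A K] [IsFractionRing A K] (V : ValuationSubring K)
    (hV : ∀ a : A, algebraMap A K a ∈ V) (y : ℕ → K) (h0 : y 0 ≠ 0)
    (hlt : ∀ i, V.valuation (y i) < V.valuation (y (i + 1))) (h1 : ∀ i, V.valuation (y i) ≤ 1) :
    False := by
  have hle : ∀ c : A, V.valuation (algebraMap A K c) ≤ 1 := fun c =>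
    (V.valuation_le_one_iff _).2 (hV c)
  obtain ⟨a, s, hs, has⟩ := IsFractionRing.div_surjective (A := A) (y 0)
  have hs0 : algebraMap A K s ≠ 0 := IsFractionRing.to_map_ne_zero_of_mem_nonZeroDivisors hs
  have ha : algebraMap A K a = algebraMap A K s * y 0 := by
    rw [← has]; field_simp
  have ha0 : a ≠ 0 := by
    rintro rfl
    rw [map_zero] at ha
    exact mul_ne_zero hs0 h0 ha.symm
  have ha1 : a ∈ nonZeroDivisors A := mem_nonZeroDivisors_of_ne_zero ha0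
  have hva : V.valuation (algebraMap A K a) ≤ V.valuation (y 0) := by
    rw [ha, map_mul]
    exact mul_le_of_le_one_left' (hle s)
  obtain ⟨L, hL⟩ := ENat.ne_top_iff_exists.1 (Ring.ord_ne_top ha1)
  obtain ⟨d, hd⟩ := IsLocalization.exist_integer_multiples (nonZeroDivisors A)
    (Finset.range (L + 2)) y
  have hd0 : algebraMap A K d ≠ 0 := IsFractionRing.to_map_ne_zero_of_mem_nonZeroDivisors d.2
  have hvd : V.valuation (algebraMap A K d) ≠ 0 := by simp [hd0]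
  set J : ℕ → Ideal A := fun i => dvr1J V hV (V.valuation (algebraMap A K d) * V.valuation (y i))
    with hJ
  have hmem : ∀ i (x : A), x ∈ J i ↔
      V.valuation (algebraMap A K x) ≤ V.valuation (algebraMap A K d) * V.valuation (y i) :=
    fun i x => Iff.rfl
  have hstep : ∀ i, i ≤ L → J i < J (i + 1) := by
    intro i hi
    have h2 : V.valuation (algebraMap A K d) * V.valuation (y i) <
        V.valuation (algebraMap A K d) * V.valuation (y (i + 1)) :=
      mul_lt_mul_of_pos_left (hlt i) (zero_lt_iff.2 hvd)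
    refine lt_of_le_of_ne (fun x hx => (hmem _ _).2 (((hmem _ _).1 hx).trans h2.le)) fun h => ?_
    obtain ⟨b, hb⟩ := hd (i + 1) (Finset.mem_range.2 (by omega))
    have h3 : V.valuation (algebraMap A K b) =
        V.valuation (algebraMap A K d) * V.valuation (y (i + 1)) := by
      rw [hb, Algebra.smul_def, map_mul]
    have h4 : b ∈ J i := h ▸ (hmem _ _).2 h3.le
    exact absurd ((hmem _ _).1 h4) (not_le.2 (h3 ▸ h2))
  have hch : ∀ i : ℕ, i ≤ L + 1 → Order.coheight (J i) + i ≤ Order.coheight (J 0) := by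
    intro i
    induction i with
    | zero => simp
    | succ i ih =>
      intro hi
      refine le_trans ?_ (ih (by omega))
      have := Order.coheight_add_one_le (hstep i (by omega))
      calc Order.coheight (J (i + 1)) + ((i + 1 : ℕ) : ℕ∞)
          = Order.coheight (J (i + 1)) + 1 + i := by push_cast; ring
        _ ≤ _ := by gcongr
  have hsub : a • J (L + 1) ≤ J 0 := by
    intro x hx
    obtain ⟨z, hz, rfl⟩ := (Submodule.mem_smul_pointwise_iff_exists _ _ _).1 hx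
    rw [hmem, smul_eq_mul, map_mul, map_mul, mul_comm]
    exact mul_le_mul' (((hmem _ _).1 hz).trans (mul_le_of_le_one_right' (h1 _))) hva
  have hfin : Order.coheight (J (L + 1)) ≠ ⊤ := by
    have h5 : Ideal.span {(d : A) * a} ≤ J (L + 1) := by
      rw [Ideal.span_singleton_le_iff_mem, hmem, map_mul, map_mul]
      refine mul_le_mul' le_rfl (hva.trans ?_)
      exact (strictMono_nat_of_lt_succ hlt).monotone (Nat.zero_le _)
    have h6 := Order.coheight_anti h5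
    have h7 := Ring.ord_ne_top (mul_mem d.2 ha1)
    rw [Ring.ord, Module.length_quotient] at h7
    exact ne_top_of_le_ne_top h7 h6
  have h8 := (hch (L + 1) le_rfl).trans (Order.coheight_anti hsub)
  rw [dvr1_len_smul ha1, ← hL, ENat.add_le_add_iff_left hfin] at h8
  norm_cast at h8
  omega

theorem disc_of_dim_one {A K : Type*} [CommRing A] [IsDomain A] [IsNoetherianRing A]
    [Ring.KrullDimLE 1 A] [Field K] [Algebra A K] [IsFractionRing A K] (V : ValuationSubring K)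
    (hV : ∀ a : A, algebraMap A K a ∈ V) :
    ∃ v : Valuation K (WithZero (Multiplicative ℤ)), ∀ x, v x ≤ 1 ↔ x ∈ V := by
  classical
  have hwf : WfDvdMonoid V := by
    refine ⟨?_⟩
    rw [wellFounded_iff_isEmpty_descending_chain]
    refine ⟨fun ⟨x, hx⟩ => ?_⟩
    refine dvr1_chain V hV (fun i => (x (i + 1) : K)) (by simpa using (hx 0).1) (fun i => ?_)
      fun i => V.valuation_le_one _
    obtain ⟨h1, u, hu, h2⟩ := hx (i + 1)
    have h3 : V.valuation (u : K) < 1 := by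
      rw [← V.valuation_lt_one_iff]
      exact hu
    have h4 : V.valuation (x (i + 1 + 1) : K) ≠ 0 := by simpa using h1
    rw [h2, MulMemClass.coe_mul, map_mul]
    exact mul_lt_of_lt_one_right (zero_lt_iff.2 h4) h3
  have hpid : IsPrincipalIdealRing V := ((IsBezout.TFAE (R := V)).out 3 1).1 hwf
  by_cases hf : IsLocalRing.maximalIdeal V = ⊥
  · refine ⟨1, fun x => ⟨fun _ => ?_, fun _ => Valuation.one_apply_le_one x⟩⟩
    by_contra hx
    have hx' := (V.mem_or_inv_mem x).resolve_left hx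
    have h1 : (⟨x⁻¹, hx'⟩ : V) ∈ IsLocalRing.maximalIdeal V := by
      rw [V.valuation_lt_one_iff]
      have h2 : 1 < V.valuation x := not_le.1 fun h => hx ((V.valuation_le_one_iff x).1 h)
      simpa using inv_lt_one_of_one_lt₀ h2
    rw [hf, Ideal.mem_bot] at h1
    have h3 : x = 0 := by simpa using congrArg Subtype.val h1
    exact hx (h3 ▸ V.zero_mem)
  · have : IsDiscreteValuationRing V := { not_a_field' := hf }
    refine ⟨(IsDiscreteValuationRing.maximalIdeal V).valuation K, fun x => ⟨fun h => ?_, fun h => ?_⟩⟩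
    · obtain ⟨a, rfl⟩ := IsDiscreteValuationRing.exists_lift_of_le_one h
      exact a.2
    · exact (IsDiscreteValuationRing.maximalIdeal V).valuation_le_one (K := K) ⟨x, h⟩

end Pool.Agent.MP_ee2255_nt.T

end

section

/-! A discrete valuation dominating a Noetherian local domain. -/

namespace Pool.Agent.MP_ee2255_nt.T

open Polynomial Filter Topology Pool.Agent.MP_655169_nt

theorem dvr2_exists_val {B K : Type*} [CommRing B] [Field K] [Algebra B K]
    (hinj : Function.Injective (algebraMap B K)) (I : Ideal B) (hI : I ≠ ⊤) :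
    ∃ V : ValuationSubring K, (∀ b : B, algebraMap B K b ∈ V) ∧
      ∀ b ∈ I, algebraMap B K b ∈ V.nonunits := by
  let f := (algebraMap B K).rangeRestrict
  have hf : Function.Surjective f := RingHom.rangeRestrict_surjective _
  have hne : I.map f ≠ ⊤ := by
    intro h
    have h1 : (1 : (algebraMap B K).range) ∈ I.map f := h ▸ Submodule.mem_top
    obtain ⟨t, ht, ht1⟩ := (Ideal.mem_map_iff_of_surjective f hf).1 h1
    have h2 : algebraMap B K t = algebraMap B K 1 := by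
      rw [map_one]
      exact congrArg Subtype.val ht1
    exact hI ((Ideal.eq_top_iff_one I).2 (hinj h2 ▸ ht))
  obtain ⟨V, hV1, hV2⟩ := Ideal.image_subset_nonunits_valuationSubring (I.map f) hne
  exact ⟨V, fun b => hV1 ⟨b, rfl⟩, fun b hb => hV2 ⟨f b, Ideal.mem_map_of_mem f hb, rfl⟩⟩

theorem dvr2_step {B K : Type*} [CommRing B] [IsDomain B] [IsNoetherianRing B]
    [Field K] [Algebra B K] [IsFractionRing B K] (x : B) (hx : Ideal.span {x} ≠ ⊤) :
    ∃ v : Valuation K (WithZero (Multiplicative ℤ)), (∀ b : B, v (algebraMap B K b) ≤ 1) ∧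
      v (algebraMap B K x) < 1 := by
  obtain ⟨p, hp⟩ := Ideal.nonempty_minimalPrimes hx
  have hpp : p.IsPrime := hp.isPrime
  have hht : p.height ≤ 1 :=
    Ideal.height_le_one_of_isPrincipal_of_mem_minimalPrimes (Ideal.span {x}) p hp
  have hS : p.primeCompl ≤ nonZeroDivisors B := Ideal.primeCompl_le_nonZeroDivisors p
  let A : Subalgebra B K := Localization.subalgebra.ofField K p.primeCompl hS
  have hloc : IsLocalization.AtPrime A p :=
    Localization.subalgebra.isLocalization_ofField K p.primeCompl hS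
  have hN : IsNoetherianRing A := IsLocalization.isNoetherianRing p.primeCompl A inferInstance
  have hL : IsLocalRing A := IsLocalization.AtPrime.isLocalRing A p
  have hdim : Ring.KrullDimLE 1 A := by
    rw [Ring.krullDimLE_iff, IsLocalization.AtPrime.ringKrullDim_eq_height p A]
    exact_mod_cast hht
  obtain ⟨V, hV1, hV2⟩ := dvr2_exists_val (B := A) (K := K) Subtype.val_injective
    (IsLocalRing.maximalIdeal A) (IsLocalRing.maximalIdeal.isMaximal A).ne_top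
  obtain ⟨v, hv⟩ := disc_of_dim_one (A := A) V hV1
  refine ⟨v, fun b => (hv _).2 (hV1 (algebraMap B A b)), ?_⟩
  have hxp : x ∈ p := hp.1.2 (Ideal.subset_span rfl)
  have hxm : algebraMap B A x ∈ IsLocalRing.maximalIdeal A :=
    (IsLocalization.AtPrime.to_map_mem_maximal_iff A p x).2 hxp
  have h1 : algebraMap B K x ∈ V.nonunits := hV2 _ hxm
  rcases V.mem_nonunits_iff_or.1 h1 with h0 | h0
  · rw [h0, map_zero]
    exact zero_lt_one
  · rw [← hv, not_le, map_inv₀] at h0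
    by_contra h
    rw [not_lt] at h
    exact absurd (inv_le_one_of_one_le₀ h) (not_le.2 h0)

theorem exists_disc {R K : Type*} [CommRing R] [IsDomain R] [IsNoetherianRing R] [IsLocalRing R]
    [Field K] [Algebra R K] [IsFractionRing R K] :
    ∃ v : Valuation K (WithZero (Multiplicative ℤ)), (∀ r : R, v (algebraMap R K r) ≤ 1) ∧
      ∀ r ∈ IsLocalRing.maximalIdeal R, v (algebraMap R K r) < 1 := by
  classical
  obtain ⟨V0, h01, h02⟩ := dvr2_exists_val (B := R) (K := K) (IsFractionRing.injective R K)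
    (IsLocalRing.maximalIdeal R) (IsLocalRing.maximalIdeal.isMaximal R).ne_top
  obtain ⟨s, hs⟩ := (IsNoetherian.noetherian (IsLocalRing.maximalIdeal R) : Submodule.FG _)
  obtain ⟨x, hxs, hxmax⟩ := Finset.exists_max_image (insert 0 s)
    (fun y => V0.valuation (algebraMap R K y)) (Finset.insert_nonempty 0 s)
  have hxm : x ∈ IsLocalRing.maximalIdeal R := by
    rcases Finset.mem_insert.1 hxs with h | h
    · rw [h]; exact Submodule.zero_mem _
    · rw [← hs]; exact Submodule.subset_span h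
  let t : Finset K := s.image fun y => algebraMap R K y / algebraMap R K x
  let B : Subalgebra R K := Algebra.adjoin R (t : Set K)
  have hN : IsNoetherianRing B := isNoetherianRing_of_fg ⟨t, rfl⟩
  have hfac : ∀ y ∈ s, algebraMap R K y =
      algebraMap R K x * (algebraMap R K y / algebraMap R K x) := by
    intro y hy
    by_cases h0 : algebraMap R K x = 0
    · have := hxmax y (Finset.mem_insert_of_mem hy)
      rw [h0, map_zero, le_zero_iff, Valuation.zero_iff] at this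
      rw [h0, this, zero_mul]
    · rw [mul_div_cancel₀ _ h0]
  have hBV : ∀ z ∈ B, z ∈ V0 := by
    intro z hz
    induction hz using Algebra.adjoin_induction with
    | mem z hz =>
      obtain ⟨y, hy, rfl⟩ := Finset.mem_image.1 (Finset.mem_coe.1 hz)
      rw [← V0.valuation_le_one_iff, map_div₀]
      exact div_le_one_of_le₀ (hxmax y (Finset.mem_insert_of_mem hy)) zero_le
    | algebraMap r => exact h01 r
    | add a b _ _ ha hb => exact V0.add_mem _ _ ha hb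
    | mul a b _ _ ha hb => exact V0.mul_mem _ _ ha hb
  have hne : Ideal.span {algebraMap R B x} ≠ ⊤ := by
    rw [Ne, Ideal.span_singleton_eq_top]
    intro hu
    obtain ⟨z, hz⟩ := hu.exists_right_inv
    have h1 : algebraMap R K x * (z : K) = 1 := congrArg Subtype.val hz
    have h2 : V0.valuation (algebraMap R K x) < 1 := V0.mem_nonunits_iff.1 (h02 x hxm)
    have h3 : V0.valuation (z : K) ≤ 1 := (V0.valuation_le_one_iff _).2 (hBV _ z.2)
    have h4 := mul_lt_one_of_nonneg_of_lt_one_left zero_le h2 h3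
    rw [← map_mul, h1, map_one] at h4
    exact lt_irrefl _ h4
  obtain ⟨v, hv1, hv2⟩ := dvr2_step (B := B) (K := K) (algebraMap R B x) hne
  have hR : ∀ r : R, v (algebraMap R K r) ≤ 1 := fun r => hv1 (algebraMap R B r)
  have hx : v (algebraMap R K x) < 1 := hv2
  refine ⟨v, hR, fun r hr => ?_⟩
  rw [← hs] at hr
  induction hr using Submodule.span_induction with
  | mem y hy =>
    have hy' : y ∈ s := Finset.mem_coe.1 hy
    have hb : algebraMap R K y / algebraMap R K x ∈ B :=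
      Algebra.subset_adjoin (Finset.mem_coe.2 (Finset.mem_image.2 ⟨y, hy', rfl⟩))
    have h3 : v (algebraMap R K y / algebraMap R K x) ≤ 1 := hv1 ⟨_, hb⟩
    rw [hfac y hy', map_mul]
    exact mul_lt_one_of_nonneg_of_lt_one_left zero_le hx h3
  | zero => rw [map_zero, map_zero]; exact zero_lt_one
  | add a b _ _ ha hb => rw [map_add]; exact v.map_add_lt ha hb
  | smul a b _ hb =>
    rw [smul_eq_mul, map_mul, map_mul]
    exact mul_lt_one_of_nonneg_of_lt_one_right (hR a) zero_le hb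

end Pool.Agent.MP_ee2255_nt.T

end

section

/-! Reduction to a discrete valuation. -/

namespace Pool.Agent.MP_ee2255_nt.T

open Polynomial Filter Topology Pool.Agent.MP_655169_nt

theorem xred_elim {F K E ι : Type*} [Field F] [Field K] [Field E] [Algebra F K] [Algebra F E]
    (j : K →ₐ[F] E) (θ : K) (x y : ι → K) :
    (j ∘ fun o : Option (ι ⊕ ι) => o.elim θ (Sum.elim x y)) =
      fun o : Option (ι ⊕ ι) => o.elim (j θ) (Sum.elim (fun i => j (x i)) fun i => j (y i)) := by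
  funext o
  rcases o with _ | i | i <;> rfl

theorem xred_norm {F L : Type*} [Fintype F] [Field F] [NormedField L] {s : L} (h0 : s ≠ 0)
    (hs : ‖s‖ < 1) : 1 < ‖-(s ^ (qq F - 1))⁻¹‖ := by
  have hq : 1 < qq F := Fintype.one_lt_card
  rw [norm_neg, norm_inv, norm_pow]
  exact (one_lt_inv₀ (pow_pos (norm_pos_iff.2 h0) _)).2
    (pow_lt_one₀ (norm_nonneg _) hs (by omega))

/-- Transfer between two embeddings of a field. -/
theorem xred_two {F K E L : Type*} [Field F] [Fintype F] [Field K] [Field E] [NormedField L]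
    [IsUltrametricDist L] [CompleteSpace L] [Algebra F K] [Algebra F E] [Algebra F L]
    (j1 : K →ₐ[F] E) (j2 : K →ₐ[F] L) {η : ℝ} (hη : 0 < η) (hg : Gap (⊤ : Subfield L) η) {s : K}
    (h0 : s ≠ 0) (hs : ‖j2 s‖ < 1) {n : ℕ} (x y : Fin n → K)
    (hy : ∀ i, HS F (-(j2 s ^ (qq F - 1))⁻¹) (j2 (x i)) (j2 (y i)))
    (hx : ∀ c : Fin n → F[X], lin (-(j1 s ^ (qq F - 1))⁻¹) c (fun i => j1 (x i)) = 0 → c = 0) :
    Rk F (fun o : Option (Fin n ⊕ Fin n) => o.elim (-(j1 s ^ (qq F - 1))⁻¹)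
      (Sum.elim (fun i => j1 (x i)) fun i => j1 (y i))) (n + 1) := by
  have e1 : j1 (-(s ^ (qq F - 1))⁻¹) = -(j1 s ^ (qq F - 1))⁻¹ := by simp
  have e2 : j2 (-(s ^ (qq F - 1))⁻¹) = -(j2 s ^ (qq F - 1))⁻¹ := by simp
  have h2 := disc (F := F) (ζ := (j2 s)⁻¹) (xred_norm (F := F) ((map_ne_zero j2).2 h0) hs) hη hg
    (by rw [neg_neg, inv_pow]) (fun i => j2 (x i)) (fun i => j2 (y i)) hy fun c hc => by
      rw [← e2, ← lin_map, map_eq_zero] at hc
      exact hx c (by rw [← e1, ← lin_map, hc, map_zero])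
  rw [← e2, ← xred_elim, Rk.map_iff] at h2
  rw [← e1, ← xred_elim, Rk.map_iff]
  exact h2

theorem red_core {F E : Type*} [Field F] [Fintype F] [NormedField E] [IsUltrametricDist E]
    [CompleteSpace E] [Algebra F E] {s : E} (h0 : s ≠ 0) (hs : ‖s‖ < 1) {n : ℕ} (x y : Fin n → E)
    (h1 : ∀ j, ‖x j‖ < 1) (hy : ∀ j, HS F (-(s ^ (qq F - 1))⁻¹) (x j) (y j))
    (hx : ∀ c : Fin n → F[X], lin (-(s ^ (qq F - 1))⁻¹) c x = 0 → c = 0) :
    Rk F (fun o : Option (Fin n ⊕ Fin n) => o.elim (-(s ^ (qq F - 1))⁻¹) (Sum.elim x y))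
      (n + 1) := by
  obtain ⟨ev, e1, e2, e3, e4⟩ := exists_ev (F := F) s x hs h1
  have : IsNoetherianRing ev.range :=
    isNoetherianRing_of_surjective _ _ ev.rangeRestrict ev.rangeRestrict_surjective
  have : IsLocalRing ev.range :=
    IsLocalRing.of_surjective' ev.rangeRestrict ev.rangeRestrict_surjective
  let ψ : MvPowerSeries (Fin n) (PowerSeries F) →+* FractionRing ev.range :=
    (algebraMap ev.range _).comp ev.rangeRestrict
  let ι1 : FractionRing ev.range →+* E :=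
    IsFractionRing.lift (g := ev.range.subtype) Subtype.val_injective
  have hι1 : ∀ G, ι1 (ψ G) = ev G := fun G => IsFractionRing.lift_algebraMap _ _
  obtain ⟨v, hv1, hv2⟩ := exists_disc (R := ev.range) (K := FractionRing ev.range)
  obtain ⟨L, i1, i2, i3, ι2, η, hη, hg, hι2⟩ := exists_compl v
  have le1 : ∀ G, ‖ι2 (ψ G)‖ ≤ 1 := fun G => (hι2 _).1 (hv1 _)
  have lt1 : ∀ G, ‖ev G‖ < 1 → ‖ι2 (ψ G)‖ < 1 := by
    intro G hG
    refine (hι2 _).2 (hv2 _ ((IsLocalRing.mem_maximalIdeal _).2 fun hu => ?_))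
    obtain ⟨r, hr⟩ := hu.exists_left_inv
    obtain ⟨G', rfl⟩ := ev.rangeRestrict_surjective r
    have h2 : ev G' * ev G = 1 := congrArg Subtype.val hr
    have h3 := congrArg norm h2
    rw [norm_mul, norm_one] at h3
    nlinarith [e4 G', norm_nonneg (ev G), norm_nonneg (ev G')]
  let _ : Algebra F (FractionRing ev.range) :=
    (ψ.comp (MvPowerSeries.C.comp PowerSeries.C)).toAlgebra
  let _ : Algebra F L := (ι2.comp (algebraMap F (FractionRing ev.range))).toAlgebra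
  let j1 : FractionRing ev.range →ₐ[F] E :=
    { ι1 with commutes' := fun a => (hι1 _).trans (e1 a) }
  let j2 : FractionRing ev.range →ₐ[F] L := { ι2 with commutes' := fun _ => rfl }
  choose Y hY using fun i : Fin n => exists_Y F i
  have a1 : j1 (ψ (MvPowerSeries.C PowerSeries.X)) = s := (hι1 _).trans e2
  have a2 : (fun i => j1 (ψ (MvPowerSeries.X i))) = x := funext fun i => (hι1 _).trans (e3 i)
  have a3 : (fun i => j1 (ψ (Y i))) = y := funext fun i => (hι1 _).trans (by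
    have := hY i E ev e4 (by rwa [e2]) (by rw [e3]; exact h1 i) (by rwa [e2])
    rw [e2, e3] at this
    exact this.unique (hy i))
  have s0 : ψ (MvPowerSeries.C PowerSeries.X) ≠ 0 := fun h => h0 (by rw [← a1, h, map_zero])
  have s1 : ‖ι2 (ψ (MvPowerSeries.C PowerSeries.X))‖ < 1 := lt1 _ (by rwa [e2])
  have := xred_two j1 j2 hη hg s0 s1 (fun i => ψ (MvPowerSeries.X i)) (fun i => ψ (Y i))
    (fun i => hY i L (ι2.comp ψ) le1 ((map_ne_zero ι2).2 s0)
      (lt1 _ (by rw [e3]; exact h1 i)) s1) (by rw [a1, a2]; exact hx)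
  rwa [a1, a2, a3] at this

open scoped IntermediateField in
theorem xred_lin {F E : Type*} [Field F] [Fintype F] [Field E] [Algebra F E] {θ : E}
    (hθ : Transcendental F θ) {n : ℕ} {x : Fin n → E} (hx : LinearIndependent F⟮θ⟯ x)
    (c : Fin n → F[X]) (hc : lin θ c x = 0) : c = 0 := by
  have hm : ∀ j, aeval θ (c j) ∈ F⟮θ⟯ := fun j =>
    IntermediateField.algebra_adjoin_le_adjoin F _ (aeval_mem_adjoin_singleton F θ)
  funext j
  have := Fintype.linearIndependent_iff.1 hx (fun j => ⟨_, hm j⟩) hc j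
  exact transcendental_iff.1 hθ _ (congrArg Subtype.val this)

/-- The rank bound when a root of `-θ` is available in an isometric extension. -/
theorem xred_rk {F E L : Type*} [Field F] [Fintype F] [NormedField E] [IsUltrametricDist E]
    [CompleteSpace E] [Algebra F E] [NormedField L] [IsUltrametricDist L] [CompleteSpace L]
    [Algebra F L] (ψ : E →ₐ[F] L) (hψ : ∀ x, ‖ψ x‖ = ‖x‖) {θ : E} (hθ : 1 < ‖θ‖) {ζ : L}
    (hζ : ζ ^ (qq F - 1) = ψ (-θ)) {n : ℕ} (x : Fin n → E)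
    (hx : ∀ c : Fin n → F[X], lin θ c x = 0 → c = 0) :
    Rk F (fun o : Option (Fin n ⊕ Fin n) => o.elim θ
      (Sum.elim x fun i => carlitzExp (qq F) θ (x i))) (n + 1) := by
  have hθ' : 1 < ‖ψ θ‖ := by rwa [hψ]
  have t0 : ψ θ ≠ 0 := norm_pos_iff.1 (one_pos.trans hθ')
  have e : -(ζ⁻¹ ^ (qq F - 1))⁻¹ = ψ θ := by rw [inv_pow, inv_inv, hζ, map_neg, neg_neg]
  have z1 : 1 < ‖ζ‖ := by
    by_contra h
    have := pow_le_one₀ (n := qq F - 1) (norm_nonneg ζ) (not_lt.1 h)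
    rw [← norm_pow, hζ, hψ, norm_neg] at this
    linarith
  have z0 : ζ ≠ 0 := norm_pos_iff.1 (one_pos.trans z1)
  obtain ⟨N, hN⟩ := (Filter.eventually_all.2 fun j =>
    (tendsto_pow_atTop_atTop_of_one_lt hθ).eventually_gt_atTop ‖x j‖).exists
  have tN : ψ θ ^ N ≠ 0 := pow_ne_zero _ t0
  have h := red_core (F := F) (inv_ne_zero z0) (by rw [norm_inv]; exact inv_lt_one_of_one_lt₀ z1)
    (fun j => ψ (x j) / ψ θ ^ N) (fun j => carlitzExp (qq F) (ψ θ) (ψ (x j) / ψ θ ^ N))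
    (fun j => by
      rw [norm_div, norm_pow, hψ, hψ]
      exact (div_lt_one (by positivity)).2 (hN j))
    (fun j => by rw [e]; exact HS.exp hθ' _)
    (fun c hc => by
      refine hx c ((map_eq_zero ψ).1 ?_)
      rw [e] at hc
      rw [lin_map, ← mul_zero (ψ θ ^ N), ← hc, lin, lin, Finset.mul_sum]
      exact Finset.sum_congr rfl fun j _ => by field_simp)
  rw [e] at h
  rw [← Rk.map_iff ψ, xred_elim]
  refine h.exch ?_
  set K := IntermediateField.adjoin F (Set.range fun o : Option (Fin n ⊕ Fin n) => o.elim (ψ θ)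
    (Sum.elim (fun i => ψ (x i)) fun i => ψ (carlitzExp (qq F) θ (x i))))
  have m0 : ψ θ ∈ K := IntermediateField.subset_adjoin _ _ ⟨none, rfl⟩
  have m1 : ∀ i, ψ (x i) ∈ K := fun i =>
    IntermediateField.subset_adjoin _ _ ⟨some (Sum.inl i), rfl⟩
  have m2 : ∀ i, ψ (carlitzExp (qq F) θ (x i)) ∈ K := fun i =>
    IntermediateField.subset_adjoin _ _ ⟨some (Sum.inr i), rfl⟩
  rintro (_ | i | i)
  · exact isAlgebraic_algebraMap (⟨_, m0⟩ : K)
  · exact isAlgebraic_algebraMap (⟨_, div_mem (m1 i) (pow_mem m0 N)⟩ : K)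
  · have h1 := (HS.exp (F := F) hθ' (ψ (x i) / ψ θ ^ N)).poly hθ' (X ^ N)
    rw [aeval_X_pow, mul_div_cancel₀ _ tN, carl_X_pow] at h1
    have h2 := h1.unique ((HS.exp (F := F) hθ (x i)).map (ψ : E →+* L) hψ)
    have h3 : IsIntegral K (carlitzExp (qq F) (ψ θ) (ψ (x i) / ψ θ ^ N)) :=
      integral_of_cth (ψ θ) K.toSubalgebra m0 N _ (by rw [h2]; exact m2 i)
    exact h3.isAlgebraic

open scoped IntermediateField in
theorem main {F E : Type*} [Field F] [Fintype F] [NormedField E] [IsUltrametricDist E]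
    [CompleteSpace E] [Algebra F E] (θ : E) (hθ : 1 < ‖θ‖) (n : ℕ) (x : Fin n → E)
    (hx : LinearIndependent F⟮θ⟯ x) :
    (n : Cardinal) ≤ Algebra.trdeg F⟮θ⟯ (IntermediateField.adjoin F⟮θ⟯
      (Set.range x ∪ Set.range fun i => carlitzExp (Fintype.card F) θ (x i))) := by
  have hq : 1 < qq F := Fintype.one_lt_card
  have ht : Transcendental F θ := normE_trans (fun e => norm_F_le e) hθ
  obtain ⟨L, i1, i2, i3, φ, ζ, hφ, hζ⟩ := exists_root_ext θ hθ (-θ) (n := qq F - 1) (by omega)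
  let _ : Algebra F L := (φ.comp (algebraMap F E)).toAlgebra
  have h := xred_rk (F := F) { φ with commutes' := fun _ => rfl } hφ hθ hζ x (xred_lin ht hx)
  rw [← Set.Sum.elim_range]
  exact rk_trdeg θ ht h

end Pool.Agent.MP_ee2255_nt.T

end
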